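import Pool.Agent.Work.MP_bda6fa_cnl.IBC
set_option autoImplicit false

/-! The complement of a box is connected in the triangular lattice. -/

namespace CNB
open XorIsing
open scoped Classical
open Finset

theorem p_CCB (N : ℕ) : CoConn (XorIsing.box N) := by
  have hout : ∀ v : V, v ∉ XorIsing.box N ↔
      ((N : ℤ) < v.1 ∨ v.1 < -(N : ℤ) ∨ (N : ℤ) < v.2 ∨ v.2 < -(N : ℤ)) := by
    intro v
    simp only [XorIsing.box, Finset.mem_product, Finset.mem_Icc]
    omega
  have hmain : ∀ R : V → V → Prop, (∀ a b, a ∉ XorIsing.box N → b ∉ XorIsing.box N → Adj a b → R a b) →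
      (∀ a b, R a b → R b a) → ∀ u, u ∉ XorIsing.box N →
      Relation.ReflTransGen R u ((N : ℤ) + 1, (N : ℤ) + 1) := by
    intro R hR hs u hu
    have hsym : ∀ a b, Relation.ReflTransGen R a b → Relation.ReflTransGen R b a := by
      intro a b h
      induction h with
      | refl => exact Relation.ReflTransGen.refl
      | tail _ h2 ih => exact Relation.ReflTransGen.head (hs _ _ h2) ih
    have hrow0 : ∀ (y : ℤ), ((N : ℤ) < y ∨ y < -(N : ℤ)) → ∀ (n : ℕ) (a : ℤ),
        Relation.ReflTransGen R (a, y) (a + n, y) := by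
      intro y hy n a
      induction n with
      | zero => simpa using Relation.ReflTransGen.refl
      | succ n ih =>
        refine ih.tail (hR _ _ ?_ ?_ ⟨0, Or.inl ?_⟩)
        · rw [hout]; simp only; omega
        · rw [hout]; simp only; omega
        · ext
          · simp [dir]; ring
          · simp [dir]
    have hcol0 : ∀ (x : ℤ), ((N : ℤ) < x ∨ x < -(N : ℤ)) → ∀ (n : ℕ) (a : ℤ),
        Relation.ReflTransGen R (x, a) (x, a + n) := by
      intro x hx n a
      induction n with
      | zero => simpa using Relation.ReflTransGen.refl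
      | succ n ih =>
        refine ih.tail (hR _ _ ?_ ?_ ⟨1, Or.inl ?_⟩)
        · rw [hout]; simp only; omega
        · rw [hout]; simp only; omega
        · ext
          · simp [dir]
          · simp [dir]; ring
    have hrow : ∀ (y : ℤ), ((N : ℤ) < y ∨ y < -(N : ℤ)) → ∀ a b : ℤ,
        Relation.ReflTransGen R (a, y) (b, y) := by
      intro y hy a b
      rcases le_total a b with h | h
      · have := hrow0 y hy (b - a).toNat a
        rwa [Int.toNat_of_nonneg (by omega), add_sub_cancel] at this
      · have := hrow0 y hy (a - b).toNat b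
        rw [Int.toNat_of_nonneg (by omega), add_sub_cancel] at this
        exact hsym _ _ this
    have hcol : ∀ (x : ℤ), ((N : ℤ) < x ∨ x < -(N : ℤ)) → ∀ a b : ℤ,
        Relation.ReflTransGen R (x, a) (x, b) := by
      intro x hx a b
      rcases le_total a b with h | h
      · have := hcol0 x hx (b - a).toNat a
        rwa [Int.toNat_of_nonneg (by omega), add_sub_cancel] at this
      · have := hcol0 x hx (a - b).toNat b
        rw [Int.toNat_of_nonneg (by omega), add_sub_cancel] at this
        exact hsym _ _ this
    obtain ⟨x, y⟩ := u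
    rw [hout] at hu
    simp only at hu
    by_cases hx : (N : ℤ) < x ∨ x < -(N : ℤ)
    · exact (hcol x hx y (N + 1)).trans (hrow (N + 1) (Or.inl (by omega)) x (N + 1))
    · have hy : (N : ℤ) < y ∨ y < -(N : ℤ) := by tauto
      exact (hrow y hy x (N + 1)).trans (hcol (N + 1) (Or.inl (by omega)) y (N + 1))
  intro u v hu hv
  set R : V → V → Prop := fun a b => a ∉ XorIsing.box N ∧ b ∉ XorIsing.box N ∧ Adj a b with hRdef
  have hRs : ∀ a b, R a b → R b a := by
    rintro a b ⟨h1, h2, k, h3⟩
    exact ⟨h2, h1, k, h3.symm⟩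
  have h1 := hmain R (fun a b ha hb hab => ⟨ha, hb, hab⟩) hRs u hu
  have h2 := hmain R (fun a b ha hb hab => ⟨ha, hb, hab⟩) hRs v hv
  have hsym : ∀ a b, Relation.ReflTransGen R a b → Relation.ReflTransGen R b a := by
    intro a b h
    induction h with
    | refl => exact Relation.ReflTransGen.refl
    | tail _ h2 ih => exact Relation.ReflTransGen.head (hRs _ _ h2) ih
  have h3 : Relation.ReflTransGen R u v := h1.trans (hsym _ _ h2)
  clear h1 h2
  induction h3 with
  | refl => exact Relation.ReflTransGen.refl
  | tail _ h2 ih => exact (ih h2.1).tail ⟨h2.2.1, h2.2.2⟩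

end CNB
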