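import Pool.Agent.Work.MP_bda6fa_cnl.IBC

set_option autoImplicit false

/-! Block FKB: the FKG inequality with boundary condition -/

namespace CNB
open XorIsing
open scoped Classical
open Finset
open scoped FinsetFamily

namespace EFKB

theorem edge (M M' : Finset V) (u v : V) :
    spin M u * spin M v + spin M' u * spin M' v ≤
      spin (M ∩ M') u * spin (M ∩ M') v + spin (M ∪ M') u * spin (M ∪ M') v := by
  unfold spin
  by_cases h1 : u ∈ M <;> by_cases h2 : u ∈ M' <;> by_cases h3 : v ∈ M <;> by_cases h4 : v ∈ M' <;>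
    simp [h1, h2, h3, h4] <;> norm_num

theorem lsm (β : ℝ) (F : Finset Edge) (ξ M M' : Finset V) (hβ : 0 ≤ β) :
    bw β F ξ M * bw β F ξ M' ≤ bw β F ξ (M ∩ M') * bw β F ξ (M ∪ M') := by
  have e1 : M ∩ M' ∪ ξ = (M ∪ ξ) ∩ (M' ∪ ξ) := by
    ext x
    simp only [mem_union, mem_inter]
    tauto
  have e2 : M ∪ M' ∪ ξ = (M ∪ ξ) ∪ (M' ∪ ξ) := by
    ext x
    simp only [mem_union]
    tauto
  unfold bw
  rw [e1, e2, ← Real.exp_add, ← Real.exp_add]
  apply Real.exp_le_exp.2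
  rw [← mul_add, ← mul_add, ← Finset.sum_add_distrib, ← Finset.sum_add_distrib]
  apply mul_le_mul_of_nonneg_left _ hβ
  apply Finset.sum_le_sum
  intro e _
  exact edge (M ∪ ξ) (M' ∪ ξ) e.1 (tip e)

theorem pos (β : ℝ) (F : Finset Edge) (ξ M : Finset V) : 0 < bw β F ξ M := Real.exp_pos _

/-- nonnegative functions -/
theorem nonneg (β : ℝ) (D : Finset V) (F : Finset Edge) (ξ : Finset V) (f g : Finset V → ℝ)
    (hβ : 0 ≤ β) (hf : ∀ M M', M ⊆ M' → M' ⊆ D → f M ≤ f M')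
    (hg : ∀ M M', M ⊆ M' → M' ⊆ D → g M ≤ g M') (hf0 : ∀ M, M ⊆ D → 0 ≤ f M)
    (hg0 : ∀ M, M ⊆ D → 0 ≤ g M) :
    (∑ M ∈ D.powerset, bw β F ξ M * f M) * (∑ M ∈ D.powerset, bw β F ξ M * g M) ≤
      (∑ M ∈ D.powerset, bw β F ξ M) * ∑ M ∈ D.powerset, bw β F ξ M * (f M * g M) := by
  have key := Finset.four_functions_theorem (β := ℝ) D
    (f₁ := fun M => if M ⊆ D then bw β F ξ M * f M else 0)
    (f₂ := fun M => if M ⊆ D then bw β F ξ M * g M else 0)
    (f₃ := fun M => bw β F ξ M)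
    (f₄ := fun M => if M ⊆ D then bw β F ξ M * (f M * g M) else 0)
    (fun M => by
      change (0 : ℝ) ≤ if M ⊆ D then bw β F ξ M * f M else 0
      split_ifs with h
      · exact mul_nonneg (pos β F ξ M).le (hf0 M h)
      · exact le_rfl)
    (fun M => by
      change (0 : ℝ) ≤ if M ⊆ D then bw β F ξ M * g M else 0
      split_ifs with h
      · exact mul_nonneg (pos β F ξ M).le (hg0 M h)
      · exact le_rfl)
    (fun M => (pos β F ξ M).le)
    (fun M => by
      change (0 : ℝ) ≤ if M ⊆ D then bw β F ξ M * (f M * g M) else 0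
      split_ifs with h
      · exact mul_nonneg (pos β F ξ M).le (mul_nonneg (hf0 M h) (hg0 M h))
      · exact le_rfl)
    (fun s hs t ht => by
      have hst : s ∪ t ⊆ D := union_subset hs ht
      simp only [if_pos hs, if_pos ht, if_pos hst]
      have h1 := lsm β F ξ s t hβ
      have h2 : f s ≤ f (s ∪ t) := hf _ _ subset_union_left hst
      have h3 : g t ≤ g (s ∪ t) := hg _ _ subset_union_right hst
      have h4 : f s * g t ≤ f (s ∪ t) * g (s ∪ t) :=
        mul_le_mul h2 h3 (hg0 t ht) (hf0 _ hst)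
      have h5 : 0 ≤ f s * g t := mul_nonneg (hf0 s hs) (hg0 t ht)
      calc bw β F ξ s * f s * (bw β F ξ t * g t) = (bw β F ξ s * bw β F ξ t) * (f s * g t) := by ring
        _ ≤ (bw β F ξ (s ∩ t) * bw β F ξ (s ∪ t)) * (f (s ∪ t) * g (s ∪ t)) :=
            mul_le_mul h1 h4 h5 (mul_pos (pos β F ξ _) (pos β F ξ _)).le
        _ = bw β F ξ (s ∩ t) * (bw β F ξ (s ∪ t) * (f (s ∪ t) * g (s ∪ t))) := by ring)
    (𝒜 := D.powerset) (ℬ := D.powerset) (Subset.refl _) (Subset.refl _)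
  have e1 : ∑ M ∈ D.powerset, (if M ⊆ D then bw β F ξ M * f M else 0) =
      ∑ M ∈ D.powerset, bw β F ξ M * f M :=
    sum_congr rfl fun M hM => if_pos (mem_powerset.1 hM)
  have e2 : ∑ M ∈ D.powerset, (if M ⊆ D then bw β F ξ M * g M else 0) =
      ∑ M ∈ D.powerset, bw β F ξ M * g M :=
    sum_congr rfl fun M hM => if_pos (mem_powerset.1 hM)
  have i1 : D.powerset ⊼ D.powerset ⊆ D.powerset := by
    intro s hs
    obtain ⟨a, ha, b, hb, rfl⟩ := mem_infs.1 hs
    exact mem_powerset.2 (inter_subset_left.trans (mem_powerset.1 ha))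
  have i2 : D.powerset ⊻ D.powerset ⊆ D.powerset := by
    intro s hs
    obtain ⟨a, ha, b, hb, rfl⟩ := mem_sups.1 hs
    exact mem_powerset.2 (union_subset (mem_powerset.1 ha) (mem_powerset.1 hb))
  have n4 : ∀ M ∈ D.powerset, (0 : ℝ) ≤ if M ⊆ D then bw β F ξ M * (f M * g M) else 0 := by
    intro M hM
    rw [if_pos (mem_powerset.1 hM)]
    exact mul_nonneg (pos β F ξ M).le
      (mul_nonneg (hf0 M (mem_powerset.1 hM)) (hg0 M (mem_powerset.1 hM)))
  have s1 : ∑ M ∈ D.powerset ⊼ D.powerset, bw β F ξ M ≤ ∑ M ∈ D.powerset, bw β F ξ M :=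
    sum_le_sum_of_subset_of_nonneg i1 fun M _ _ => (pos β F ξ M).le
  have s2 : ∑ M ∈ D.powerset ⊻ D.powerset, (if M ⊆ D then bw β F ξ M * (f M * g M) else 0) ≤
      ∑ M ∈ D.powerset, bw β F ξ M * (f M * g M) := by
    refine (sum_le_sum_of_subset_of_nonneg i2 fun M hM _ => n4 M hM).trans (le_of_eq ?_)
    exact sum_congr rfl fun M hM => if_pos (mem_powerset.1 hM)
  have p2 : 0 ≤ ∑ M ∈ D.powerset ⊻ D.powerset, (if M ⊆ D then bw β F ξ M * (f M * g M) else 0) :=
    sum_nonneg fun M hM => n4 M (i2 hM)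
  have p1 : 0 ≤ ∑ M ∈ D.powerset, bw β F ξ M := sum_nonneg fun M _ => (pos β F ξ M).le
  beta_reduce at key
  rw [e1, e2] at key
  exact key.trans (mul_le_mul s1 s2 p2 p1)

end EFKB

open EFKB in
theorem p_FKB : S_FKB := by
  intro β D F ξ f g hβ hf hg
  have key := EFKB.nonneg β D F ξ (fun M => f M - f ∅) (fun M => g M - g ∅) hβ
    (fun M M' h h' => sub_le_sub_right (hf M M' h h') _)
    (fun M M' h h' => sub_le_sub_right (hg M M' h h') _)
    (fun M h => sub_nonneg.2 (hf ∅ M (empty_subset M) h))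
    (fun M h => sub_nonneg.2 (hg ∅ M (empty_subset M) h))
  have hpz : bZ β D F ξ = ∑ M ∈ D.powerset, bw β F ξ M := rfl
  have hpos : 0 < bZ β D F ξ := by
    rw [hpz]
    exact sum_pos (fun M _ => pos β F ξ M) ⟨∅, empty_mem_powerset _⟩
  have e1 : ∑ M ∈ D.powerset, bw β F ξ M * (f M - f ∅) =
      ∑ M ∈ D.powerset, bw β F ξ M * f M - f ∅ * bZ β D F ξ := by
    rw [hpz, mul_sum, ← sum_sub_distrib]
    exact sum_congr rfl fun M _ => by ring
  have e2 : ∑ M ∈ D.powerset, bw β F ξ M * (g M - g ∅) =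
      ∑ M ∈ D.powerset, bw β F ξ M * g M - g ∅ * bZ β D F ξ := by
    rw [hpz, mul_sum, ← sum_sub_distrib]
    exact sum_congr rfl fun M _ => by ring
  have e3 : ∑ M ∈ D.powerset, bw β F ξ M * ((f M - f ∅) * (g M - g ∅)) =
      ∑ M ∈ D.powerset, bw β F ξ M * (f M * g M) - g ∅ * ∑ M ∈ D.powerset, bw β F ξ M * f M -
        f ∅ * ∑ M ∈ D.powerset, bw β F ξ M * g M + f ∅ * g ∅ * bZ β D F ξ := by
    rw [hpz, mul_sum, mul_sum, mul_sum, ← sum_sub_distrib, ← sum_sub_distrib, ← sum_add_distrib]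
    exact sum_congr rfl fun M _ => by ring
  rw [e1, e2, e3, ← hpz] at key
  unfold bE
  rw [div_mul_div_comm, div_le_div_iff₀ (mul_pos hpos hpos) hpos]
  nlinarith [mul_le_mul_of_nonneg_right key hpos.le]

end CNB
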