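import Pool.Agent.Work.MP_bda6fa_cnl.IBC
set_option autoImplicit false

namespace CNB
open XorIsing
open scoped Classical
open Finset

namespace EGEN

/-- the difference of the expectations -/
noncomputable def dl (β : ℝ) (D ξ : Finset V) (f : Finset V → ℝ) : ℝ :=
  bE β D (near D) ξ f - bE β D (near D) ∅ f

theorem bE_add (β : ℝ) (Λ : Finset V) (F : Finset Edge) (ξ : Finset V) (f g : Finset V → ℝ) :
    bE β Λ F ξ (fun M => f M + g M) = bE β Λ F ξ f + bE β Λ F ξ g := by
  unfold bE
  rw [← add_div, ← Finset.sum_add_distrib]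
  congr 1
  refine Finset.sum_congr rfl fun M _ => ?_
  ring

theorem bE_smul (β : ℝ) (Λ : Finset V) (F : Finset Edge) (ξ : Finset V) (c : ℝ)
    (f : Finset V → ℝ) : bE β Λ F ξ (fun M => c * f M) = c * bE β Λ F ξ f := by
  unfold bE
  rw [← mul_div_assoc, Finset.mul_sum]
  congr 1
  refine Finset.sum_congr rfl fun M _ => ?_
  ring

theorem dl_add (β : ℝ) (D ξ : Finset V) (f g : Finset V → ℝ) :
    dl β D ξ (fun M => f M + g M) = dl β D ξ f + dl β D ξ g := by
  unfold dl
  rw [bE_add, bE_add]
  ring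

theorem dl_smul (β : ℝ) (D ξ : Finset V) (c : ℝ) (f : Finset V → ℝ) :
    dl β D ξ (fun M => c * f M) = c * dl β D ξ f := by
  unfold dl
  rw [bE_smul, bE_smul]
  ring

theorem ind (hKAP : S_KAP) (β : ℝ) (D A ξ : Finset V) (hβ : 0 ≤ β) (hA : A ⊆ D)
    (hξ : Disjoint ξ D) (t : Finset V) (ht : t ⊆ A) :
    0 ≤ dl β D ξ (fun M => if t ⊆ M then 1 else 0) ∧
      dl β D ξ (fun M => if t ⊆ M then 1 else 0) ≤ ∑ v ∈ A, corr β D {v} := by
  refine hKAP β D A ξ _ hβ hA hξ ?_ ?_
  · intro M M' h _
    show (if t ⊆ M then (1 : ℝ) else 0) ≤ if t ⊆ M' then (1 : ℝ) else 0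
    by_cases h1 : t ⊆ M
    · rw [if_pos h1, if_pos (h1.trans h)]
    · rw [if_neg h1]
      split_ifs
      · exact zero_le_one
      · exact le_refl _
  · intro M M' h _
    show ((M ∩ A).card : ℝ) - (if t ⊆ M then (1 : ℝ) else 0) ≤
      ((M' ∩ A).card : ℝ) - if t ⊆ M' then (1 : ℝ) else 0
    have hsub : M ∩ A ⊆ M' ∩ A := Finset.inter_subset_inter h (Finset.Subset.refl _)
    have hc : ((M ∩ A).card : ℝ) ≤ ((M' ∩ A).card : ℝ) := by
      exact_mod_cast Finset.card_le_card hsub
    by_cases h1 : t ⊆ M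
    · rw [if_pos h1, if_pos (h1.trans h)]
      linarith
    · rw [if_neg h1]
      by_cases h2 : t ⊆ M'
      · rw [if_pos h2]
        obtain ⟨v, hv, hvM⟩ := Finset.not_subset.mp h1
        have h3 : (M ∩ A).card + 1 ≤ (M' ∩ A).card := by
          have h4 : M ∩ A ⊂ M' ∩ A := by
            refine (Finset.ssubset_iff_of_subset hsub).mpr ⟨v, ?_, ?_⟩
            · exact Finset.mem_inter.mpr ⟨h2 hv, ht hv⟩
            · intro h5
              exact hvM (Finset.mem_inter.mp h5).1
          exact Finset.card_lt_card h4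
        have h5 : ((M ∩ A).card : ℝ) + 1 ≤ ((M' ∩ A).card : ℝ) := by exact_mod_cast h3
        linarith
      · rw [if_neg h2]
        linarith

theorem main (β : ℝ) (D A ξ : Finset V) (S : ℝ)
    (hI : ∀ t ⊆ A, |dl β D ξ (fun M => if t ⊆ M then 1 else 0)| ≤ S) (B : Finset V) :
    B ⊆ A → ∀ (t : Finset V) (g : Finset V → ℝ) (c : ℝ), t ⊆ A → (∀ M, g M = g (M ∩ B)) →
      (∀ M, |g M| ≤ c) →
      |dl β D ξ (fun M => (if t ⊆ M then 1 else 0) * g M)| ≤ 3 ^ B.card * c * S := by
  induction B using Finset.induction_on with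
  | empty =>
    intro _ t g c ht hg hc
    have h1 : (fun M : Finset V => (if t ⊆ M then (1 : ℝ) else 0) * g M) =
        fun M => g ∅ * (if t ⊆ M then (1 : ℝ) else 0) := by
      funext M
      rw [hg M, Finset.inter_empty]
      ring
    rw [h1, dl_smul, abs_mul, Finset.card_empty, pow_zero, one_mul]
    exact mul_le_mul (hc ∅) (hI t ht) (abs_nonneg _) ((abs_nonneg _).trans (hc ∅))
  | insert v B hv ih =>
    intro hB t g c ht hg hc
    have hBA : B ⊆ A := (Finset.subset_insert v B).trans hB
    have hvA : v ∈ A := hB (Finset.mem_insert_self v B)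
    have h1 : (fun M : Finset V => (if t ⊆ M then (1 : ℝ) else 0) * g M) =
        fun M => (if t ⊆ M then (1 : ℝ) else 0) * g (M.erase v) +
          (if insert v t ⊆ M then (1 : ℝ) else 0) * (g (insert v M) - g (M.erase v)) := by
      funext M
      by_cases hvM : v ∈ M
      · have h2 : insert v t ⊆ M ↔ t ⊆ M := by
          rw [Finset.insert_subset_iff]
          exact ⟨fun h => h.2, fun h => ⟨hvM, h⟩⟩
        rw [Finset.insert_eq_of_mem hvM]
        simp only [h2]
        ring
      · have h2 : ¬ insert v t ⊆ M := fun h => hvM (h (Finset.mem_insert_self v t))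
        rw [if_neg h2, Finset.erase_eq_of_notMem hvM]
        ring
    rw [h1, dl_add]
    have e1 := ih hBA t (fun M => g (M.erase v)) c ht (by
      intro M
      show g (M.erase v) = g ((M ∩ B).erase v)
      rw [hg (M.erase v), hg ((M ∩ B).erase v)]
      congr 1
      ext w
      simp only [Finset.mem_inter, Finset.mem_erase, Finset.mem_insert]
      constructor
      · rintro ⟨⟨a1, a2⟩, a3⟩
        rcases a3 with a3 | a3
        · exact absurd a3 a1
        · exact ⟨⟨a1, a2, a3⟩, Or.inr a3⟩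
      · rintro ⟨⟨a1, a2, a3⟩, a4⟩
        exact ⟨⟨a1, a2⟩, a4⟩) (fun M => hc _)
    have e2 := ih hBA (insert v t) (fun M => g (insert v M) - g (M.erase v)) (2 * c)
      (Finset.insert_subset hvA ht) (by
      intro M
      show g (insert v M) - g (M.erase v) = g (insert v (M ∩ B)) - g ((M ∩ B).erase v)
      have a1 : g (insert v M) = g (insert v (M ∩ B)) := by
        rw [hg (insert v M), hg (insert v (M ∩ B))]
        congr 1
        ext w
        simp only [Finset.mem_inter, Finset.mem_insert]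
        tauto
      have a2 : g (M.erase v) = g ((M ∩ B).erase v) := by
        rw [hg (M.erase v), hg ((M ∩ B).erase v)]
        congr 1
        ext w
        simp only [Finset.mem_inter, Finset.mem_erase, Finset.mem_insert]
        tauto
      rw [a1, a2]) (by
      intro M
      show |g (insert v M) - g (M.erase v)| ≤ 2 * c
      have b1 := hc (insert v M)
      have b2 := hc (M.erase v)
      rw [abs_le] at b1 b2 ⊢
      constructor <;> linarith)
    rw [Finset.card_insert_of_notMem hv, pow_succ]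
    refine (abs_add_le _ _).trans ?_
    calc _ ≤ 3 ^ B.card * c * S + 3 ^ B.card * (2 * c) * S := add_le_add e1 e2
      _ = 3 ^ B.card * 3 * c * S := by ring

end EGEN

theorem p_GEN (hKAP : S_KAP) : S_GEN := by
  intro β D A ξ g hβ hA hξ hg hb
  have h0 := EGEN.ind hKAP β D A ξ hβ hA hξ ∅ (Finset.empty_subset _)
  have hS : 0 ≤ ∑ v ∈ A, corr β D {v} := h0.1.trans h0.2
  have h1 := EGEN.main β D A ξ (∑ v ∈ A, corr β D {v}) (by
    intro t ht
    have h2 := EGEN.ind hKAP β D A ξ hβ hA hξ t ht
    rw [abs_of_nonneg h2.1]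
    exact h2.2) A (Finset.Subset.refl _) ∅ g 1 (Finset.empty_subset _) hg (by
    intro M
    rw [abs_of_nonneg (hb M).1]
    exact (hb M).2)
  have h3 : (fun M : Finset V => (if (∅ : Finset V) ⊆ M then (1 : ℝ) else 0) * g M) = g := by
    funext M
    rw [if_pos (Finset.empty_subset _), one_mul]
  rw [h3] at h1
  refine le_trans h1 ?_
  rw [mul_one]
  exact mul_le_mul_of_nonneg_right (pow_le_pow_left₀ (by norm_num) (by norm_num) _) hS

end CNB
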