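import Pool.Agent.Work.MP_bda6fa_cnl.IBC
set_option autoImplicit false

/-! KAP: 0 ≤ bE ξ f - bE ∅ f ≤ Σ corr if f and n_A - f are increasing. -/

namespace CNB
open XorIsing
open scoped Classical
open Finset

namespace EKAP

theorem bE_sub (β : ℝ) (Λ : Finset V) (F : Finset Edge) (ξ : Finset V) (g f : Finset V → ℝ) :
    bE β Λ F ξ (fun M => g M - f M) = bE β Λ F ξ g - bE β Λ F ξ f := by
  unfold bE
  rw [← sub_div, ← Finset.sum_sub_distrib]
  congr 1
  exact Finset.sum_congr rfl fun M _ => by ring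

end EKAP

open EKAP in
theorem p_KAP (hMON : S_MON) (hNUM : S_NUM) : S_KAP := by
  intro β D A ξ f hβ hA hξ hf hnf
  have h1 := hMON β D (near D) ∅ ξ f hβ (Finset.empty_subset _) hξ hf
  have h2 := hMON β D (near D) ∅ ξ (fun M => ((M ∩ A).card : ℝ) - f M) hβ (Finset.empty_subset _) hξ hnf
  rw [bE_sub, bE_sub] at h2
  have h3 := hNUM β D A ξ hβ hA hξ
  exact ⟨by linarith, by linarith⟩

end CNB
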