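import Pool.Agent.Work.MP_bda6fa_cnl.IBC
set_option autoImplicit false

/-! Block LCN: the loops surrounding only faces of B are a local function. -/

namespace CNB
open XorIsing
open scoped Classical
open Finset

namespace ELCN

theorem adj_of (u w : V) (h : (w.1 = u.1 + 1 ∧ w.2 = u.2) ∨ (w.1 = u.1 ∧ w.2 = u.2 + 1) ∨
    (w.1 = u.1 + 1 ∧ w.2 = u.2 - 1) ∨ (u.1 = w.1 + 1 ∧ u.2 = w.2) ∨ (u.1 = w.1 ∧ u.2 = w.2 + 1) ∨
    (u.1 = w.1 + 1 ∧ u.2 = w.2 - 1)) : Adj u w := by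
  rcases h with ⟨h1, h2⟩ | ⟨h1, h2⟩ | ⟨h1, h2⟩ | ⟨h1, h2⟩ | ⟨h1, h2⟩ | ⟨h1, h2⟩
  · refine ⟨0, Or.inl (Prod.ext ?_ ?_)⟩
    · show w.1 = u.1 + 1
      omega
    · show w.2 = u.2 + 0
      omega
  · refine ⟨1, Or.inl (Prod.ext ?_ ?_)⟩
    · show w.1 = u.1 + 0
      omega
    · show w.2 = u.2 + 1
      omega
  · refine ⟨2, Or.inl (Prod.ext ?_ ?_)⟩
    · show w.1 = u.1 + 1
      omega
    · show w.2 = u.2 + -1
      omega
  · refine ⟨0, Or.inr (Prod.ext ?_ ?_)⟩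
    · show u.1 = w.1 + 1
      omega
    · show u.2 = w.2 + 0
      omega
  · refine ⟨1, Or.inr (Prod.ext ?_ ?_)⟩
    · show u.1 = w.1 + 0
      omega
    · show u.2 = w.2 + 1
      omega
  · refine ⟨2, Or.inr (Prod.ext ?_ ?_)⟩
    · show u.1 = w.1 + 1
      omega
    · show u.2 = w.2 + -1
      omega

def P (v u : V) : Prop := (u.1 = v.1 ∧ u.2 = v.2) ∨ (u.1 = v.1 + 1 ∧ u.2 = v.2) ∨ (u.1 = v.1 ∧ u.2 = v.2 + 1)

def Q (v u : V) : Prop :=
  (u.1 = v.1 + 1 ∧ u.2 = v.2 + 1) ∨ (u.1 = v.1 + 1 ∧ u.2 = v.2) ∨ (u.1 = v.1 ∧ u.2 = v.2 + 1)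

theorem adjP {v u w : V} (hu : P v u) (hw : P v w) : u = w ∨ Adj u w := by
  unfold P at hu hw
  by_cases hh : u.1 = w.1 ∧ u.2 = w.2
  · exact Or.inl (Prod.ext hh.1 hh.2)
  · exact Or.inr (adj_of u w (by omega))

theorem adjQ {v u w : V} (hu : Q v u) (hw : Q v w) : u = w ∨ Adj u w := by
  unfold Q at hu hw
  by_cases hh : u.1 = w.1 ∧ u.2 = w.2
  · exact Or.inl (Prod.ext hh.1 hh.2)
  · exact Or.inr (adj_of u w (by omega))

theorem pts_up {v : V} {e : Edge} (h : e ∈ tri (v, true)) : P v e.1 ∧ P v (tip e) := by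
  rcases (mem_tri_up v e).1 h with rfl | rfl | rfl
  · refine ⟨Or.inl ⟨rfl, rfl⟩, Or.inr (Or.inl ⟨rfl, ?_⟩)⟩
    show v.2 + 0 = v.2
    omega
  · refine ⟨Or.inl ⟨rfl, rfl⟩, Or.inr (Or.inr ⟨?_, rfl⟩)⟩
    show v.1 + 0 = v.1
    omega
  · refine ⟨Or.inr (Or.inr ⟨?_, rfl⟩), Or.inr (Or.inl ⟨?_, ?_⟩)⟩
    · show v.1 + 0 = v.1
      omega
    · show v.1 + 0 + 1 = v.1 + 1
      omega
    · show v.2 + 1 + -1 = v.2
      omega

theorem pts_down {v : V} {e : Edge} (h : e ∈ tri (v, false)) : Q v e.1 ∧ Q v (tip e) := by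
  rcases (mem_tri_down v e).1 h with rfl | rfl | rfl
  · refine ⟨Or.inr (Or.inr ⟨?_, rfl⟩), Or.inr (Or.inl ⟨?_, ?_⟩)⟩
    · show v.1 + 0 = v.1
      omega
    · show v.1 + 0 + 1 = v.1 + 1
      omega
    · show v.2 + 1 + -1 = v.2
      omega
  · refine ⟨Or.inr (Or.inr ⟨?_, rfl⟩), Or.inl ⟨?_, ?_⟩⟩
    · show v.1 + 0 = v.1
      omega
    · show v.1 + 0 + 1 = v.1 + 1
      omega
    · show v.2 + 1 + 0 = v.2 + 1
      omega
  · refine ⟨Or.inr (Or.inl ⟨rfl, ?_⟩), Or.inl ⟨?_, ?_⟩⟩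
    · show v.2 + 0 = v.2
      omega
    · show v.1 + 1 + 0 = v.1 + 1
      omega
    · show v.2 + 0 + 1 = v.2 + 1
      omega

theorem touch_C {B C : Finset V} (hBC : B ⊆ C) (hN : ∀ v ∈ B, ∀ w, Adj v w → w ∈ C) {e f : Edge}
    (h : Touch e f) (he : e.1 ∈ B ∨ tip e ∈ B) : f.1 ∈ C ∧ tip f ∈ C := by
  obtain ⟨⟨v, b⟩, h1, h2⟩ := h
  have key : ∀ u w : V, u ∈ B → (u = w ∨ Adj u w) → w ∈ C := by
    rintro u w hu (h | h)
    · rw [← h]
      exact hBC hu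
    · exact hN u hu w h
  cases b
  · have a := pts_down h1
    have b := pts_down h2
    rcases he with he | he
    · exact ⟨key _ _ he (adjQ a.1 b.1), key _ _ he (adjQ a.1 b.2)⟩
    · exact ⟨key _ _ he (adjQ a.2 b.1), key _ _ he (adjQ a.2 b.2)⟩
  · have a := pts_up h1
    have b := pts_up h2
    rcases he with he | he
    · exact ⟨key _ _ he (adjP a.1 b.1), key _ _ he (adjP a.1 b.2)⟩
    · exact ⟨key _ _ he (adjP a.2 b.1), key _ _ he (adjP a.2 b.2)⟩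

theorem main {X X' B C : Finset V} (hBC : B ⊆ C) (hN : ∀ v ∈ B, ∀ w, Adj v w → w ∈ C)
    (hX : X ∩ C = X' ∩ C) {L : Finset Edge} (hL : L ∈ loops X) (hS : ∀ y, Surrounds L y → y ∈ B) :
    L ∈ loops X' := by
  have hm : ∀ v ∈ C, (v ∈ X ↔ v ∈ X') := by
    intro v hv
    have h1 : v ∈ X ∩ C ↔ v ∈ X' ∩ C := by rw [hX]
    rw [mem_inter, mem_inter] at h1
    tauto
  have hcon : ∀ f : Edge, f.1 ∈ C → tip f ∈ C → (f ∈ contour X ↔ f ∈ contour X') := by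
    intro f h1 h2
    rw [mem_contour, mem_contour, hm _ h1, hm _ h2]
  have hend : ∀ e ∈ L, e.1 ∈ B ∨ tip e ∈ B := by
    intro e he
    by_contra hc
    have h1 : ¬ Surrounds L e.1 := fun h => hc (Or.inl (hS _ h))
    have h2 : ¬ Surrounds L (tip e) := fun h => hc (Or.inr (hS _ h))
    exact (loop_step hL e).1 ⟨fun h => absurd h h1, fun h => absurd h h2⟩ he
  obtain ⟨e, heX, hLe⟩ := mem_image.1 hL
  have he : e ∈ L := by
    rw [← hLe]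
    exact (loop_self heX).2
  have heX' : e ∈ contour X' := by
    rcases hend e he with h | h
    · exact (hcon e (hBC h) (hN _ h _ ⟨e.2, Or.inl rfl⟩)).1 heX
    · exact (hcon e (hN _ h _ ⟨e.2, Or.inr rfl⟩) (hBC h)).1 heX
  refine mem_image.2 ⟨e, heX', ?_⟩
  ext f
  rw [mem_loopOf]
  constructor
  · rintro ⟨-, h⟩
    induction h with
    | refl => exact he
    | tail _ hbc ih =>
      obtain ⟨h1, h2⟩ := touch_C hBC hN hbc.2 (hend _ ih)
      exact loop_closed hL ih ((hcon _ h1 h2).2 hbc.1) hbc.2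
  · intro hf
    rw [← hLe] at hf
    have hf2 := (mem_loopOf.1 hf).2
    have key : ∀ g, Relation.ReflTransGen (LR X) e g →
        g ∈ L ∧ g ∈ contour X' ∧ Relation.ReflTransGen (LR X') e g := by
      intro g hg
      induction hg with
      | refl => exact ⟨he, heX', Relation.ReflTransGen.refl⟩
      | tail _ hbc ih =>
        obtain ⟨h1, h2⟩ := touch_C hBC hN hbc.2 (hend _ ih.1)
        have h3 := (hcon _ h1 h2).1 hbc.1
        exact ⟨loop_closed hL ih.1 hbc.1 hbc.2, h3, ih.2.2.tail ⟨h3, hbc.2⟩⟩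
    exact ⟨(key f hf2).2.1, (key f hf2).2.2⟩

end ELCN

theorem p_LCN : S_LCN := by
  intro X X' A B C hBC hN hX
  unfold nloopsIn
  refine congrArg Finset.card ?_
  ext L
  rw [mem_filter, mem_filter]
  exact ⟨fun h => ⟨ELCN.main hBC hN hX h.1 h.2.2, h.2⟩,
    fun h => ⟨ELCN.main hBC hN hX.symm h.1 h.2.2, h.2⟩⟩

end CNB
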