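import Pool.Agent.Work.MP_bda6fa_cnl.IBC

set_option autoImplicit false

/-!
Block MKB: domain Markov property (helper18).
-/

namespace CNB
open XorIsing
open scoped Classical
open Finset

namespace EMKB

/-- the factor from the edges off near D -/
noncomputable def kf (β : ℝ) (D : Finset V) (F : Finset Edge) (η : Finset V) : ℝ :=
  Real.exp (β * ∑ e ∈ F \ near D, spin η e.1 * spin η (tip e))

theorem kf_pos (β : ℝ) (D : Finset V) (F : Finset Edge) (η : Finset V) : 0 < kf β D F η :=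
  Real.exp_pos _

theorem bZ_pos (β : ℝ) (Λ : Finset V) (F : Finset Edge) (ξ : Finset V) : 0 < bZ β Λ F ξ := by
  unfold bZ bw
  exact sum_pos (fun M _ => Real.exp_pos _) ⟨∅, empty_mem_powerset _⟩

theorem split {D Λ : Finset V} (h : D ⊆ Λ) (f : Finset V → ℝ) :
    ∑ M ∈ Λ.powerset, f M = ∑ M₁ ∈ (Λ \ D).powerset, ∑ M₀ ∈ D.powerset, f (M₀ ∪ M₁) := by
  rw [← sum_product']
  symm
  refine sum_nbij' (fun p => p.2 ∪ p.1) (fun M => (M \ D, M ∩ D)) ?_ ?_ ?_ ?_ ?_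
  · rintro ⟨a, b⟩ hp
    rw [mem_product, mem_powerset, mem_powerset] at hp
    rw [mem_powerset]
    exact union_subset (hp.2.trans h) (hp.1.trans sdiff_subset)
  · intro M hM
    rw [mem_powerset] at hM
    rw [mem_product, mem_powerset, mem_powerset]
    exact ⟨sdiff_subset_sdiff hM (Subset.refl _), inter_subset_right⟩
  · rintro ⟨a, b⟩ hp
    rw [mem_product, mem_powerset, mem_powerset] at hp
    obtain ⟨h1, h2⟩ := hp
    simp only at h1 h2
    apply Prod.ext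
    · show (b ∪ a) \ D = a
      ext v
      rw [mem_sdiff, mem_union]
      constructor
      · rintro ⟨hv | hv, hv'⟩
        · exact absurd (h2 hv) hv'
        · exact hv
      · intro hv
        exact ⟨Or.inr hv, (mem_sdiff.mp (h1 hv)).2⟩
    · show (b ∪ a) ∩ D = b
      ext v
      rw [mem_inter, mem_union]
      constructor
      · rintro ⟨hv | hv, hv'⟩
        · exact hv
        · exact absurd hv' (mem_sdiff.mp (h1 hv)).2
      · intro hv
        exact ⟨Or.inl hv, h2 hv⟩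
  · intro M _
    show M ∩ D ∪ M \ D = M
    rw [union_comm, sdiff_union_inter]
  · intro p _
    rfl

theorem spin_off {D M₀ η : Finset V} (h : M₀ ⊆ D) {v : V} (hv : v ∉ D) :
    spin (M₀ ∪ η) v = spin η v := by
  have hm : (v ∈ M₀ ∪ η) ↔ v ∈ η := by
    rw [mem_union]
    exact ⟨fun h' => h'.resolve_left fun h'' => hv (h h''), Or.inr⟩
  unfold spin
  simp only [hm]

theorem bw_split (β : ℝ) {D : Finset V} {F : Finset Edge} (ξ M₁ M₀ : Finset V) (hF : near D ⊆ F)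
    (h : M₀ ⊆ D) : bw β F ξ (M₀ ∪ M₁) = kf β D F (M₁ ∪ ξ) * bw β (near D) (M₁ ∪ ξ) M₀ := by
  unfold bw kf
  rw [← Real.exp_add, union_assoc, ← mul_add]
  congr 2
  rw [← sum_sdiff hF]
  congr 1
  refine sum_congr rfl fun e he => ?_
  rw [mem_sdiff, mem_near, not_or] at he
  rw [spin_off h he.2.1, spin_off h he.2.2]

end EMKB

theorem p_MKB : S_MKB := by
  intro β D Λ Λ' F F' ξ ξ' ev c hD hD' hF hF' hξ hξ' h
  have hZpos : 0 < bZ β Λ F ξ * bZ β Λ' F' ξ' :=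
    mul_pos (EMKB.bZ_pos _ _ _ _) (EMKB.bZ_pos _ _ _ _)
  unfold xorB
  rw [le_div_iff₀ hZpos]
  have e1 : ∀ (Λ : Finset V) (F : Finset Edge) (ξ : Finset V), D ⊆ Λ → near D ⊆ F →
      bZ β Λ F ξ = ∑ M₁ ∈ (Λ \ D).powerset,
        EMKB.kf β D F (M₁ ∪ ξ) * bZ β D (near D) (M₁ ∪ ξ) := by
    intro Λ F ξ hD hF
    unfold bZ
    rw [EMKB.split hD]
    refine sum_congr rfl fun M₁ _ => ?_
    rw [mul_sum]
    refine sum_congr rfl fun M₀ hM₀ => ?_
    exact EMKB.bw_split β ξ M₁ M₀ hF (mem_powerset.mp hM₀)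
  have e3 : ∑ M ∈ Λ.powerset, ∑ M' ∈ Λ'.powerset, bw β F ξ M * bw β F' ξ' M' *
      (if ev (symmDiff (M ∪ ξ) (M' ∪ ξ')) then (1 : ℝ) else 0) =
      ∑ M₁ ∈ (Λ \ D).powerset, ∑ M₁' ∈ (Λ' \ D).powerset,
        EMKB.kf β D F (M₁ ∪ ξ) * EMKB.kf β D F' (M₁' ∪ ξ') *
          ∑ M₀ ∈ D.powerset, ∑ M₀' ∈ D.powerset,
            bw β (near D) (M₁ ∪ ξ) M₀ * bw β (near D) (M₁' ∪ ξ') M₀' *
              (if ev (symmDiff (M₀ ∪ (M₁ ∪ ξ)) (M₀' ∪ (M₁' ∪ ξ'))) then (1 : ℝ) else 0) := by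
    rw [EMKB.split hD]
    refine sum_congr rfl fun M₁ _ => ?_
    simp only [EMKB.split hD']
    rw [sum_comm]
    refine sum_congr rfl fun M₁' _ => ?_
    rw [mul_sum]
    refine sum_congr rfl fun M₀ hM₀ => ?_
    rw [mul_sum]
    refine sum_congr rfl fun M₀' hM₀' => ?_
    rw [EMKB.bw_split β ξ M₁ M₀ hF (mem_powerset.mp hM₀),
      EMKB.bw_split β ξ' M₁' M₀' hF' (mem_powerset.mp hM₀'), union_assoc, union_assoc]
    ring
  rw [e1 Λ F ξ hD hF, e1 Λ' F' ξ' hD' hF', e3, sum_mul_sum, mul_sum]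
  refine sum_le_sum fun M₁ hM₁ => ?_
  rw [mul_sum]
  refine sum_le_sum fun M₁' hM₁' => ?_
  have d1 : Disjoint (M₁ ∪ ξ) D := by
    rw [disjoint_union_left]
    refine ⟨?_, disjoint_of_subset_right hD hξ⟩
    exact disjoint_of_subset_left (mem_powerset.mp hM₁) sdiff_disjoint
  have d2 : Disjoint (M₁' ∪ ξ') D := by
    rw [disjoint_union_left]
    refine ⟨?_, disjoint_of_subset_right hD' hξ'⟩
    exact disjoint_of_subset_left (mem_powerset.mp hM₁') sdiff_disjoint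
  have h1 := h _ _ d1 d2
  unfold xorB at h1
  rw [le_div_iff₀ (mul_pos (EMKB.bZ_pos _ _ _ _) (EMKB.bZ_pos _ _ _ _))] at h1
  have h2 := mul_le_mul_of_nonneg_left h1
    (mul_pos (EMKB.kf_pos β D F (M₁ ∪ ξ)) (EMKB.kf_pos β D F' (M₁' ∪ ξ'))).le
  refine le_trans (le_of_eq ?_) h2
  ring

end CNB
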