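import Pool.Agent.Work.MP_bda6fa_cnl.IC4
set_option autoImplicit false

/-! Block LSM (helper9): log-supermodularity of the Ising weight. -/

namespace XorIsing
open scoped Classical
open Finset

theorem LSM_edge (M M' : Finset V) (u v : V) :
    spin M u * spin M v + spin M' u * spin M' v ≤
      spin (M ∩ M') u * spin (M ∩ M') v + spin (M ∪ M') u * spin (M ∪ M') v := by
  unfold spin
  by_cases h1 : u ∈ M <;> by_cases h2 : u ∈ M' <;> by_cases h3 : v ∈ M <;> by_cases h4 : v ∈ M' <;>
    simp [h1, h2, h3, h4] <;> norm_num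

theorem p_LSM : S_LSM := by
  intro β F M M' hβ
  unfold ew
  rw [← Real.exp_add, ← Real.exp_add]
  apply Real.exp_le_exp.2
  rw [← mul_add, ← mul_add, ← Finset.sum_add_distrib, ← Finset.sum_add_distrib]
  apply mul_le_mul_of_nonneg_left _ hβ
  apply Finset.sum_le_sum
  intro e _
  exact LSM_edge M M' e.1 (tip e)

end XorIsing
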