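import Pool.Agent.Work.MP_bda6fa_cnl.IBC
import Pool.Agent.Work.MP_bda6fa_cnl.C_LSM
set_option autoImplicit false

/-! Block E_MON: monotonicity in the boundary condition. -/

namespace CNB
open XorIsing
open scoped Classical
open Finset

namespace EMON

theorem bw_pos (β : ℝ) (F : Finset Edge) (ξ M : Finset V) : 0 < bw β F ξ M := Real.exp_pos _

theorem bZ_pos (β : ℝ) (D : Finset V) (F : Finset Edge) (ξ : Finset V) : 0 < bZ β D F ξ :=
  Finset.sum_pos (fun M _ => bw_pos β F ξ M) ⟨∅, Finset.empty_mem_powerset D⟩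

theorem lsm (β : ℝ) (D : Finset V) (F : Finset Edge) (ξ ξ' M M' : Finset V) (hβ : 0 ≤ β)
    (hξ : ξ ⊆ ξ') (hd : Disjoint ξ' D) (hM : M ⊆ M') (hM' : M' ⊆ D) :
    bw β F ξ' M * bw β F ξ M' ≤ bw β F ξ M * bw β F ξ' M' := by
  have h := p_LSM β F (M ∪ ξ') (M' ∪ ξ) hβ
  have e1 : (M ∪ ξ') ∩ (M' ∪ ξ) = M ∪ ξ := by
    ext v
    simp only [mem_inter, mem_union]
    constructor
    · rintro ⟨h1 | h1, h2 | h2⟩
      · exact Or.inl h1
      · exact Or.inl h1
      · exact absurd (hM' h2) (Finset.disjoint_left.1 hd h1)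
      · exact Or.inr h2
    · rintro (h1 | h1)
      · exact ⟨Or.inl h1, Or.inl (hM h1)⟩
      · exact ⟨Or.inr (hξ h1), Or.inr h1⟩
  have e2 : (M ∪ ξ') ∪ (M' ∪ ξ) = M' ∪ ξ' := by
    ext v
    simp only [mem_union]
    constructor
    · rintro ((h1 | h1) | (h1 | h1))
      · exact Or.inl (hM h1)
      · exact Or.inr h1
      · exact Or.inl h1
      · exact Or.inr (hξ h1)
    · rintro (h1 | h1)
      · exact Or.inr (Or.inl h1)
      · exact Or.inl (Or.inr h1)
  rw [e1, e2] at h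
  exact h

end EMON

theorem p_MON (hFKB : S_FKB) : S_MON := by
  intro β D F ξ ξ' f hβ hξ hd hf
  have hZ := EMON.bZ_pos β D F ξ
  have hZ' := EMON.bZ_pos β D F ξ'
  have hr : ∀ M M', M ⊆ M' → M' ⊆ D →
      bw β F ξ' M / bw β F ξ M ≤ bw β F ξ' M' / bw β F ξ M' := by
    intro M M' hM hM'
    rw [div_le_div_iff₀ (EMON.bw_pos _ _ _ _) (EMON.bw_pos _ _ _ _)]
    have h := EMON.lsm β D F ξ ξ' M M' hβ hξ hd hM hM'
    linarith
  have h := hFKB β D F ξ f (fun M => bw β F ξ' M / bw β F ξ M) hβ hf hr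
  have e1 : bE β D F ξ (fun M => bw β F ξ' M / bw β F ξ M) = bZ β D F ξ' / bZ β D F ξ := by
    unfold bE
    congr 1
    refine Finset.sum_congr rfl fun M _ => ?_
    exact mul_div_cancel₀ _ (EMON.bw_pos β F ξ M).ne'
  have e2 : bE β D F ξ (fun M => f M * (bw β F ξ' M / bw β F ξ M)) =
      (∑ M ∈ D.powerset, bw β F ξ' M * f M) / bZ β D F ξ := by
    unfold bE
    congr 1
    refine Finset.sum_congr rfl fun M _ => ?_
    have := (EMON.bw_pos β F ξ M).ne'
    field_simp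
  rw [e1, e2, mul_div_assoc', div_le_div_iff_of_pos_right hZ] at h
  unfold bE at h ⊢
  rw [le_div_iff₀ hZ']
  exact h

end CNB
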