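import Pool.Agent.Work.MP_bda6fa_cnl.IBC
set_option autoImplicit false

/-! Block NUM (helper81): the number of minus spins in A. -/

namespace CNB
open XorIsing
open scoped Classical
open Finset

namespace ENUM

/-- the vertices outside D which are endpoints of edges near D -/
noncomputable def bd (D : Finset V) : Finset V :=
  ((near D).image (fun e => e.1) ∪ (near D).image (fun e => tip e)) \ D

theorem mem_bd_fst {D : Finset V} {e : Edge} (he : e ∈ near D) (h : e.1 ∉ D) : e.1 ∈ bd D := by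
  unfold bd
  rw [mem_sdiff, mem_union]
  exact ⟨Or.inl (mem_image.2 ⟨e, he, rfl⟩), h⟩

theorem mem_bd_tip {D : Finset V} {e : Edge} (he : e ∈ near D) (h : tip e ∉ D) : tip e ∈ bd D := by
  unfold bd
  rw [mem_sdiff, mem_union]
  exact ⟨Or.inr (mem_image.2 ⟨e, he, rfl⟩), h⟩

theorem spin_flip {D M ξ : Finset V} (hξ : Disjoint ξ D) {u : V} (hu : u ∉ D → u ∈ ξ) :
    spin (M ∪ ξ) u = - spin (D \ M) u := by
  unfold spin
  by_cases h : u ∈ D
  · have h1 : u ∉ ξ := fun h2 => (Finset.disjoint_left.1 hξ h2) h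
    by_cases h3 : u ∈ M
    · rw [if_pos (mem_union.2 (Or.inl h3)), if_neg (fun h4 => (mem_sdiff.1 h4).2 h3)]
    · rw [if_neg (fun h4 => (mem_union.1 h4).elim h3 h1), if_pos (mem_sdiff.2 ⟨h, h3⟩)]
      norm_num
  · rw [if_pos (mem_union.2 (Or.inr (hu h))), if_neg (fun h4 => h (mem_sdiff.1 h4).1)]

theorem bw_flip (β : ℝ) {D M ξ : Finset V} (hξ : Disjoint ξ D) (hb : bd D ⊆ ξ) :
    bw β (near D) ξ M = wt β D (D \ M) := by
  unfold bw wt
  congr 2
  refine Finset.sum_congr rfl fun e he => ?_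
  rw [spin_flip hξ (fun h => hb (mem_bd_fst he h)), spin_flip hξ (fun h => hb (mem_bd_tip he h))]
  ring

theorem bw_empty (β : ℝ) (D M : Finset V) : bw β (near D) ∅ M = wt β D M := by
  unfold bw wt
  rw [Finset.union_empty]

theorem sum_flip (D : Finset V) (f : Finset V → ℝ) :
    ∑ M ∈ D.powerset, f (D \ M) = ∑ M ∈ D.powerset, f M := by
  refine Finset.sum_nbij' (fun M => D \ M) (fun M => D \ M) ?_ ?_ ?_ ?_ ?_
  · intro M _
    exact mem_powerset.2 sdiff_subset
  · intro M _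
    exact mem_powerset.2 sdiff_subset
  · intro M hM
    exact Finset.sdiff_sdiff_eq_self (mem_powerset.1 hM)
  · intro M hM
    exact Finset.sdiff_sdiff_eq_self (mem_powerset.1 hM)
  · intro M _
    rfl

theorem card_flip {D A M : Finset V} (hA : A ⊆ D) :
    (((D \ M) ∩ A).card : ℝ) = (A.card : ℝ) - ((M ∩ A).card : ℝ) := by
  have h1 : (D \ M) ∩ A = A \ M := by
    ext v
    simp only [mem_inter, mem_sdiff]
    exact ⟨fun h => ⟨h.2, h.1.2⟩, fun h => ⟨⟨hA h.1, h.2⟩, h.1⟩⟩
  have h2 := Finset.card_sdiff_add_card_inter A M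
  rw [h1, Finset.inter_comm M A]
  have h3 : ((A \ M).card : ℝ) + ((A ∩ M).card : ℝ) = (A.card : ℝ) := by exact_mod_cast h2
  linarith

theorem sum_spin (A M : Finset V) :
    ∑ v ∈ A, spin M v = (A.card : ℝ) - 2 * ((M ∩ A).card : ℝ) := by
  have h1 : ∀ v ∈ A, spin M v = 1 - 2 * (if v ∈ M then (1 : ℝ) else 0) := by
    intro v _
    unfold spin
    split_ifs <;> norm_num
  rw [Finset.sum_congr rfl h1, Finset.sum_sub_distrib, ← Finset.mul_sum, Finset.sum_const, nsmul_eq_mul, mul_one]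
  congr 2
  rw [← Finset.sum_filter, Finset.sum_const, nsmul_eq_mul, mul_one, Finset.filter_mem_eq_inter,
    Finset.inter_comm]

end ENUM

open ENUM in
theorem p_NUM (hMON : S_MON) : S_NUM := by
  intro β D A ξ hβ hA hξ
  have hbd : Disjoint (bd D) D := by
    unfold ENUM.bd
    exact Finset.sdiff_disjoint
  have hξ2 : Disjoint (ξ ∪ bd D) D := Finset.disjoint_union_left.2 ⟨hξ, hbd⟩
  have hmon := hMON β D (near D) ξ (ξ ∪ bd D) (fun M => ((M ∩ A).card : ℝ)) hβ Finset.subset_union_left hξ2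
    (fun M M' h _ => by
      exact_mod_cast Finset.card_le_card (Finset.inter_subset_inter_right h))
  have hZ : 0 < ZZ β D := ZZ_pos β D
  have e1 : bE β D (near D) (ξ ∪ bd D) (fun M => ((M ∩ A).card : ℝ)) =
      ((A.card : ℝ) * ZZ β D - ∑ M ∈ D.powerset, wt β D M * ((M ∩ A).card : ℝ)) / ZZ β D := by
    unfold bE bZ
    have h1 : ∑ M ∈ D.powerset, bw β (near D) (ξ ∪ bd D) M = ZZ β D := by
      unfold ZZ
      rw [← sum_flip D (fun M => wt β D M)]
      exact Finset.sum_congr rfl fun M _ => bw_flip β hξ2 Finset.subset_union_right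
    have h2 : ∑ M ∈ D.powerset, bw β (near D) (ξ ∪ bd D) M * ((M ∩ A).card : ℝ) =
        (A.card : ℝ) * ZZ β D - ∑ M ∈ D.powerset, wt β D M * ((M ∩ A).card : ℝ) := by
      have h3 : ∀ M ∈ D.powerset, bw β (near D) (ξ ∪ bd D) M * ((M ∩ A).card : ℝ) =
          (fun N : Finset V => wt β D N * ((A.card : ℝ) - ((N ∩ A).card : ℝ))) (D \ M) := by
        intro M _
        show _ = wt β D (D \ M) * ((A.card : ℝ) - (((D \ M) ∩ A).card : ℝ))
        rw [bw_flip β hξ2 Finset.subset_union_right, card_flip hA]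
        ring
      rw [Finset.sum_congr rfl h3, sum_flip D (fun N : Finset V => wt β D N * ((A.card : ℝ) - ((N ∩ A).card : ℝ)))]
      unfold ZZ
      rw [Finset.mul_sum, ← Finset.sum_sub_distrib]
      refine Finset.sum_congr rfl fun M _ => ?_
      ring
    rw [h1, h2]
  have e2 : bE β D (near D) ∅ (fun M => ((M ∩ A).card : ℝ)) =
      (∑ M ∈ D.powerset, wt β D M * ((M ∩ A).card : ℝ)) / ZZ β D := by
    unfold bE bZ ZZ
    congr 1
    · exact Finset.sum_congr rfl fun M _ => by rw [bw_empty]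
    · exact Finset.sum_congr rfl fun M _ => by rw [bw_empty]
  have e3 : ∑ v ∈ A, corr β D {v} =
      ((A.card : ℝ) * ZZ β D - 2 * ∑ M ∈ D.powerset, wt β D M * ((M ∩ A).card : ℝ)) / ZZ β D := by
    unfold corr
    rw [← Finset.sum_div]
    congr 1
    rw [Finset.sum_comm]
    have h1 : ∀ M ∈ D.powerset, ∑ v ∈ A, wt β D M * ∏ a ∈ ({v} : Finset V), spin M a =
        (A.card : ℝ) * wt β D M - 2 * (wt β D M * ((M ∩ A).card : ℝ)) := by
      intro M _
      simp only [Finset.prod_singleton]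
      rw [← Finset.mul_sum, sum_spin]
      ring
    rw [Finset.sum_congr rfl h1, Finset.sum_sub_distrib, ← Finset.mul_sum, ← Finset.mul_sum]
    rfl
  rw [e1] at hmon
  rw [e2, e3]
  generalize ∑ M ∈ D.powerset, wt β D M * ((M ∩ A).card : ℝ) = N at hmon ⊢
  have h9 : ((A.card : ℝ) * ZZ β D - 2 * N) / ZZ β D = ((A.card : ℝ) * ZZ β D - N) / ZZ β D - N / ZZ β D := by
    ring
  rw [h9]
  linarith

end CNB
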