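import Pool.Agent.Work.MP_bda6fa_cnl.IBC
set_option autoImplicit false

/-! Block E_XBP (typed by helper16). -/

namespace CNB
open XorIsing
open scoped Classical
open Finset

namespace EXBP

theorem Z_pos (β : ℝ) (Λ : Finset V) (F : Finset Edge) (ξ : Finset V) : 0 < bZ β Λ F ξ :=
  sum_pos (fun _ _ => Real.exp_pos _) ⟨∅, empty_mem_powerset _⟩

theorem dblA (P : Finset (Finset V)) (w w' : Finset V → ℝ) (H : Finset V → Finset V → ℝ) (Z Z' : ℝ) :
    (∑ M ∈ P, ∑ M' ∈ P, w M * w' M' * H M M') / (Z * Z') =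
      (∑ M' ∈ P, w' M' * ((∑ M ∈ P, w M * H M M') / Z)) / Z' := by
  have h : ∀ M', w' M' * ((∑ M ∈ P, w M * H M M') / Z) = (∑ M ∈ P, w M * w' M' * H M M') / Z := by
    intro M'
    rw [mul_div_assoc', mul_sum]
    congr 1
    exact sum_congr rfl fun M _ => by ring
  simp only [h]
  rw [← Finset.sum_div, div_div, sum_comm]

theorem dblB (P : Finset (Finset V)) (w w' : Finset V → ℝ) (H : Finset V → Finset V → ℝ) (Z Z' : ℝ) :
    (∑ M ∈ P, ∑ M' ∈ P, w M * w' M' * H M M') / (Z * Z') =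
      (∑ M ∈ P, w M * ((∑ M' ∈ P, w' M' * H M M') / Z')) / Z := by
  have h : ∀ M, w M * ((∑ M' ∈ P, w' M' * H M M') / Z') = (∑ M' ∈ P, w M * w' M' * H M M') / Z' := by
    intro M
    rw [mul_div_assoc', mul_sum]
    congr 1
    exact sum_congr rfl fun M' _ => by ring
  simp only [h]
  rw [← Finset.sum_div, div_div, mul_comm Z' Z]

theorem avg (β : ℝ) (Λ : Finset V) (F : Finset Edge) (ξ : Finset V) (f h : Finset V → ℝ) (κ : ℝ)
    (hf : ∀ M, h M - κ ≤ f M) : bE β Λ F ξ h - κ ≤ bE β Λ F ξ f := by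
  have hZ := Z_pos β Λ F ξ
  unfold bE
  rw [div_sub' hZ.ne', div_le_div_iff_of_pos_right hZ]
  have e : (∑ M ∈ Λ.powerset, bw β F ξ M * h M) - bZ β Λ F ξ * κ =
      ∑ M ∈ Λ.powerset, bw β F ξ M * (h M - κ) := by
    unfold bZ
    rw [sum_mul, ← sum_sub_distrib]
    exact sum_congr rfl fun M _ => by ring
  rw [e]
  exact sum_le_sum fun M _ => mul_le_mul_of_nonneg_left (hf M) (Real.exp_pos _).le

end EXBP

theorem p_XBP (hGEN : S_GEN) : S_XBP := by
  intro β D A ξ ξ' ev hβ hAD hξ hξ' hev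
  obtain ⟨κ, hκ⟩ : ∃ κ : ℝ, κ = 4 ^ A.card * ∑ v ∈ A, corr β D {v} := ⟨_, rfl⟩
  rw [← hκ]
  obtain ⟨J, hJ⟩ : ∃ J : Finset V → Finset V → ℝ, ∀ M M', J M M' =
      if ev (symmDiff M M') then (1 : ℝ) else 0 := ⟨_, fun _ _ => rfl⟩
  have hev2 : ∀ X Y : Finset V, X ∩ A = Y ∩ A → (ev X ↔ ev Y) := by
    intro X Y h
    rw [hev X, hev Y, h]
  have hξA : ∀ v ∈ A, v ∉ ξ := fun v hv hv' => Finset.disjoint_left.1 hξ hv' (hAD hv)
  have hξA' : ∀ v ∈ A, v ∉ ξ' := fun v hv hv' => Finset.disjoint_left.1 hξ' hv' (hAD hv)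
  have hH : ∀ M M', (if ev (symmDiff (M ∪ ξ) (M' ∪ ξ')) then (1 : ℝ) else 0) = J M M' := by
    intro M M'
    rw [hJ]
    have h : symmDiff (M ∪ ξ) (M' ∪ ξ') ∩ A = symmDiff M M' ∩ A := by
      ext v
      simp only [mem_inter, mem_symmDiff, mem_union]
      constructor
      · rintro ⟨h1, h2⟩
        have h3 := hξA v h2
        have h4 := hξA' v h2
        tauto
      · rintro ⟨h1, h2⟩
        have h3 := hξA v h2
        have h4 := hξA' v h2
        tauto
    simp only [hev2 _ _ h]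
  have hJ1 : ∀ M M', J M M' = J (M ∩ A) M' := by
    intro M M'
    rw [hJ, hJ]
    have h : symmDiff M M' ∩ A = symmDiff (M ∩ A) M' ∩ A := by
      ext v
      simp only [mem_inter, mem_symmDiff]
      tauto
    simp only [hev2 _ _ h]
  have hJ2 : ∀ M M', J M M' = J M (M' ∩ A) := by
    intro M M'
    rw [hJ, hJ]
    have h : symmDiff M M' ∩ A = symmDiff M (M' ∩ A) ∩ A := by
      ext v
      simp only [mem_inter, mem_symmDiff]
      tauto
    simp only [hev2 _ _ h]
  have hJ01 : ∀ M M', 0 ≤ J M M' ∧ J M M' ≤ 1 := by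
    intro M M'
    rw [hJ]
    split_ifs <;> norm_num
  have s1 : xorB β D D (near D) (near D) ξ ξ' ev =
      bE β D (near D) ξ' (fun M' => bE β D (near D) ξ (fun M => J M M')) := by
    unfold xorB bE
    rw [← EXBP.dblA]
    simp only [hH]
  have s2 : bE β D (near D) ξ' (fun M' => bE β D (near D) ∅ (fun M => J M M')) =
      bE β D (near D) ∅ (fun M => bE β D (near D) ξ' (fun M' => J M M')) := by
    unfold bE
    rw [← EXBP.dblA, ← EXBP.dblB]
  have hw : ∀ M, bw β (near D) ∅ M = wt β D M := by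
    intro M
    unfold bw wt
    rw [union_empty]
  have hZ : bZ β D (near D) ∅ = ZZ β D := by
    unfold bZ ZZ
    exact sum_congr rfl fun M _ => hw M
  have s3 : xorP β D ev = bE β D (near D) ∅ (fun M => bE β D (near D) ∅ (fun M' => J M M')) := by
    unfold bE
    rw [← EXBP.dblB, hZ, ← sq]
    unfold xorP
    simp only [hw, hJ]
  have t1 : bE β D (near D) ξ' (fun M' => bE β D (near D) ∅ (fun M => J M M')) - κ ≤
      bE β D (near D) ξ' (fun M' => bE β D (near D) ξ (fun M => J M M')) := by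
    apply EXBP.avg
    intro M'
    have := hGEN β D A ξ (fun M => J M M') hβ hAD hξ (fun M => hJ1 M M') (fun M => hJ01 M M')
    rw [← hκ] at this
    have := (abs_le.1 this).1
    linarith
  have t2 : bE β D (near D) ∅ (fun M => bE β D (near D) ∅ (fun M' => J M M')) - κ ≤
      bE β D (near D) ∅ (fun M => bE β D (near D) ξ' (fun M' => J M M')) := by
    apply EXBP.avg
    intro M
    have := hGEN β D A ξ' (fun M' => J M M') hβ hAD hξ' (fun M' => hJ2 M M') (fun M' => hJ01 M M')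
    rw [← hκ] at this
    have := (abs_le.1 this).1
    linarith
  rw [s1, s3]
  rw [s2] at t1
  linarith

end CNB
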