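import Pool.Agent.Work.MP_bda6fa_cnl.IC4

set_option autoImplicit false

namespace XorIsing
open scoped Classical
open Finset

theorem SANP_near {D : Finset V} {x : V} {k : Fin 3} (h : x ∈ D) : ((x, k) : Edge) ∈ near D := by
  unfold near
  rw [mem_biUnion]
  exact ⟨k, mem_univ _, mem_union_left _ (mem_image_of_mem _ h)⟩

theorem SANP_step {M : Finset V} {a b : V} (ha : a ∈ M) (hb : b ∈ M) (h : Adj a b) :
    FConn (inn M) b a := by
  apply Relation.ReflTransGen.single
  obtain ⟨k, hk | hk⟩ := h
  · refine ⟨k, Or.inr ⟨?_, hk⟩⟩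
    unfold inn
    rw [mem_filter]
    refine ⟨SANP_near ha, ha, ?_⟩
    show a + dir k ∈ M
    rw [← hk]
    exact hb
  · refine ⟨k, Or.inl ⟨?_, hk⟩⟩
    unfold inn
    rw [mem_filter]
    refine ⟨SANP_near hb, hb, ?_⟩
    show b + dir k ∈ M
    rw [← hk]
    exact ha

theorem SANP_mcl_of_adj {B M : Finset V} {u v : V} (hu : u ∈ mcl B M) (hv : v ∈ M)
    (h : Adj u v) : v ∈ mcl B M := by
  unfold mcl at hu ⊢
  rw [mem_filter] at hu ⊢
  obtain ⟨huM, w, hw1, hw2, hw3⟩ := hu
  exact ⟨hv, w, hw1, hw2, (SANP_step huM hv h).trans hw3⟩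

theorem SANP_corr_le (β : ℝ) (B : Finset V) (x : V) : corr β B {x} ≤ 1 := by
  unfold corr
  have hpos : 0 < ZZ β B := by
    unfold ZZ
    apply sum_pos
    · intro M _
      exact Real.exp_pos _
    · exact ⟨∅, empty_mem_powerset _⟩
  rw [div_le_one hpos]
  unfold ZZ
  apply sum_le_sum
  intro M _
  rw [prod_singleton]
  have h1 : 0 < wt β B M := Real.exp_pos _
  have h2 : spin M x ≤ 1 := by
    unfold spin
    split_ifs <;> norm_num
  nlinarith

theorem p_SANP (hCLOS : S_CLOS) (hFIBR : S_FIBR) : S_SANP := by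
  intro β H B hβ hBH hnear hB0
  set μ := corr β B {((0, 0) : V)} with hμ
  set t : Finset V → ℝ := fun M => ew β (inn H) M *
    (if ((0, 0) : V) ∈ mcl B M then 0 else (spin M (0, 0) - μ)) with ht
  have hμ1 : μ ≤ 1 := SANP_corr_le β B _
  show 0 ≤ ∑ M ∈ H.powerset, t M
  rw [← sum_filter_add_sum_filter_not H.powerset (fun M => ((0, 0) : V) ∈ unx B M) t]
  apply add_nonneg
  · set S := H.powerset.filter (fun M => ((0, 0) : V) ∈ unx B M) with hS
    set κ : Finset V → Finset V × Finset V := fun M => (unx B M, M \ unx B M) with hκ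
    rw [← sum_fiberwise_of_maps_to (s := S) (t := S.image κ) (g := κ)
      (fun M hM => mem_image_of_mem κ hM) t]
    apply sum_nonneg
    intro key hkey
    obtain ⟨M1, hM1, rfl⟩ := mem_image.mp hkey
    have hM1' := mem_filter.mp hM1
    have hM1H : M1 ⊆ H := mem_powerset.mp hM1'.1
    have hU0 : ((0, 0) : V) ∈ unx B M1 := hM1'.2
    have hUB : unx B M1 ⊆ B := filter_subset _ _
    have hfib := hFIBR β H B M1 hβ hnear hU0
    have hnot : ∀ M, ((0, 0) : V) ∈ unx B M → ((0, 0) : V) ∉ mcl B M := by
      intro M hM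
      unfold unx at hM
      exact (mem_filter.mp hM).2.1
    have heq : ∑ M ∈ S.filter (fun M => κ M = κ M1), t M =
        ∑ N ∈ (unx B M1).powerset, ew β (inn H) ((M1 \ unx B M1) ∪ N) *
          (spin ((M1 \ unx B M1) ∪ N) (0, 0) - μ) := by
      symm
      have hfwd : ∀ N ∈ (unx B M1).powerset, unx B ((M1 \ unx B M1) ∪ N) = unx B M1 ∧
          ((M1 \ unx B M1) ∪ N) \ unx B M1 = M1 \ unx B M1 := by
        intro N hN
        have hN' := mem_powerset.mp hN
        have h1 : ((M1 \ unx B M1) ∪ N) \ unx B M1 = M1 \ unx B M1 := by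
          ext x
          simp only [mem_sdiff, mem_union]
          constructor
          · rintro ⟨h | h, h'⟩
            · exact h
            · exact absurd (hN' h) h'
          · intro h
            exact ⟨Or.inl h, h.2⟩
        exact ⟨(hCLOS B M1 ((M1 \ unx B M1) ∪ N) h1.symm).2, h1⟩
      refine sum_bij' (fun N _ => (M1 \ unx B M1) ∪ N) (fun M _ => M ∩ unx B M1) ?_ ?_ ?_ ?_ ?_
      · intro N hN
        obtain ⟨h1, h2⟩ := hfwd N hN
        have hN' := mem_powerset.mp hN
        rw [mem_filter, hS, mem_filter, mem_powerset]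
        refine ⟨⟨?_, ?_⟩, ?_⟩
        · apply union_subset
          · exact sdiff_subset.trans hM1H
          · exact hN'.trans (hUB.trans hBH)
        · rw [h1]; exact hU0
        · show (unx B ((M1 \ unx B M1) ∪ N), ((M1 \ unx B M1) ∪ N) \ unx B ((M1 \ unx B M1) ∪ N)) =
            (unx B M1, M1 \ unx B M1)
          rw [h1, h2]
      · intro M _
        exact mem_powerset.mpr inter_subset_right
      · intro N hN
        have hN' := mem_powerset.mp hN
        ext x
        simp only [mem_inter, mem_union, mem_sdiff]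
        constructor
        · rintro ⟨h | h, h'⟩
          · exact absurd h' h.2
          · exact h
        · intro h
          exact ⟨Or.inr h, hN' h⟩
      · intro M hM
        have hM' := mem_filter.mp hM
        have hk : (unx B M, M \ unx B M) = (unx B M1, M1 \ unx B M1) := hM'.2
        have hk1 : unx B M = unx B M1 := congrArg Prod.fst hk
        have hk2 : M \ unx B M = M1 \ unx B M1 := congrArg Prod.snd hk
        show (M1 \ unx B M1) ∪ (M ∩ unx B M1) = M
        rw [← hk2, hk1]
        exact sdiff_union_inter M (unx B M1)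
      · intro N hN
        obtain ⟨h1, _⟩ := hfwd N hN
        have h2 : ((0, 0) : V) ∉ mcl B ((M1 \ unx B M1) ∪ N) := hnot _ (by rw [h1]; exact hU0)
        show _ = t ((M1 \ unx B M1) ∪ N)
        rw [ht]
        simp only
        rw [if_neg h2]
    rw [heq]
    exact hfib
  · apply sum_nonneg
    intro M hM
    have hM' := mem_filter.mp hM
    rw [ht]
    simp only
    apply mul_nonneg (Real.exp_pos _).le
    split_ifs with h
    · exact le_rfl
    · have h0 : ((0, 0) : V) ∉ M := by
        intro h0M
        apply hM'.2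
        unfold unx
        rw [mem_filter]
        refine ⟨hB0, h, ?_⟩
        intro u hu huv
        exact h (SANP_mcl_of_adj hu h0M huv)
      have : spin M ((0, 0) : V) = 1 := by
        unfold spin
        rw [if_neg h0]
      rw [this]
      linarith

end XorIsing
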