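import Pool.Agent.Work.MP_bda6fa_nest.Interface
import Pool.Agent.Work.MP_bda6fa_nest.ETA
import Pool.Agent.Work.MP_bda6fa_nest.PETA
import Pool.Agent.Work.MP_bda6fa_nest.DISM
import Pool.Agent.Work.MP_bda6fa_nest.HT
set_option autoImplicit false

/-! PART B of the critical nesting theorem: Kramers-Wannier duality and star-triangle transformation at the critical point
bc = (log 3)/4 of the triangular lattice. Statements of the blocks. BETA.up e / BETA.dn e (ETA.lean): the base points of the
true / false triangle containing the edge e. -/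

namespace XorIsing
open scoped Classical
open Finset Filter Topology

noncomputable section

/-- the critical point: exp (-2 bc) = 1/√3 -/
def bc : ℝ := Real.log 3 / 4

/-- false triangles with a true neighbour in the box n: the true neighbours of (v, false) are v, v + e₁, v + e₂ -/
def fal (n : ℕ) : Finset V := box n ∪ (box n).image (fun v => v - (1, 0)) ∪ (box n).image (fun v => v - (0, 1))

/-- the edges of these false triangles -/
def FF (n : ℕ) : Finset Edge := (fal n).biUnion (fun v => tri (v, false))

/-- the edges of FF n between a true triangle and a false triangle with different values; A, B = the sets of true, false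
triangles with value 1 -/
def bd (n : ℕ) (A B : Finset V) : Finset Edge := (FF n).filter (fun e => ¬ (BETA.up e ∈ A ↔ BETA.dn e ∈ B))

/-- MFF: e is in FF n iff its false triangle is in fal n (every edge is in exactly one false triangle) -/
def S_MFF : Prop := ∀ (n : ℕ) (e : Edge), e ∈ FF n ↔ BETA.dn e ∈ fal n

/-- HTE: high temperature expansion (compare HT.lean: sum_P, exp_edge; exp (± β s) = cosh β (1 ± s tanh β)) -/
def S_HTE : Prop := ∀ (β : ℝ) (D : Finset V) (F : Finset Edge) (t : V × Bool), F ⊆ inn D →
  pz β D F = 2 ^ D.card * Real.cosh β ^ F.card * ∑ η ∈ F.powerset.filter EvenAll, Real.tanh β ^ η.card ∧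
  pzc β D F t = 2 ^ D.card * Real.cosh β ^ F.card *
    ∑ η ∈ F.powerset.filter EvenAll, Real.tanh β ^ η.card * (if Par η t then -1 else 1)

/-- EVN: bd n A B is even and its parities are the given values (BETA.even_of; both Par and the values change exactly across
the edges of bd n A B, and vanish far to the right: PETA; go to the right through the triangles of one strip) -/
def S_EVN : Prop := ∀ (n : ℕ) (A B : Finset V), A ⊆ box n → B ⊆ fal n →
  EvenAll (bd n A B) ∧ ∀ t : V × Bool, (Par (bd n A B) t ↔ if t.2 then t.1 ∈ A else t.1 ∈ B)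

/-- SUR: every even subset of FF n is of this form: A = true triangles of the box with Par, B = false triangles of fal n
with Par. Outside: for v ∉ box n, Par η (v, true) is false: if v.1 > n or v.2 > n the false triangle (v, false) is not in
fal n, cross to v + e₁ and repeat, far to the right Par is false; if v.1 < -n cross (v - e₁, false) to v - e₁ + e₂ until
v.2 > n; if v.2 < -n cross (v - e₂, false) to v + e₁ - e₂ until v.1 > n. False triangles not in fal n: no edge in FF n, same
Par as their true neighbour v. -/
def S_SUR : Prop := ∀ (n : ℕ) (η : Finset Edge), η ⊆ FF n → EvenAll η →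
  ∃ A ⊆ box n, ∃ B ⊆ fal n, bd n A B = η

/-- BIJ (uses EVN, SUR) -/
def S_BIJ : Prop := ∀ (n : ℕ) (f : Finset Edge → ℝ),
  ∑ η ∈ (FF n).powerset.filter EvenAll, f η = ∑ A ∈ (box n).powerset, ∑ B ∈ (fal n).powerset, f (bd n A B)

/-- STAR: sum over the false triangles (the edges of different false triangles are different; the three edges of (v, false)
have the true triangles v, v + e₁, v + e₂; product over v of (value 0) + (value 1)) -/
def S_STAR : Prop := ∀ (x : ℝ) (n : ℕ) (A : Finset V),
  ∑ B ∈ (fal n).powerset, x ^ (bd n A B).card = ∏ v ∈ fal n,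
    (if (v ∈ A ↔ v + (1, 0) ∈ A) ∧ (v ∈ A ↔ v + (0, 1) ∈ A) then 1 + x ^ 3 else x + x ^ 2)

/-- WT: with x = tanh bc = 2 - √3 the product is the Ising weight at bc, up to a constant: x + x² = (1 + x³)/3 and
exp (bc (s₁s₂ + s₂s₃ + s₁s₃)) = exp (3 bc) if the three spins agree, exp (-bc) = exp (3 bc)/3 otherwise. The edges
(v,0), (v,1), (v + e₂, 2) join the true neighbours v, v + e₁, v + e₂ of (v, false); each edge of near (box n) occurs for
exactly one v in fal n; the other edges of these triples have both ends outside the box (spins +). -/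
def S_WT : Prop := ∀ n : ℕ, ∃ c : ℝ, 0 < c ∧ ∀ A ⊆ box n,
  (∏ v ∈ fal n, (if (v ∈ A ↔ v + (1, 0) ∈ A) ∧ (v ∈ A ↔ v + (0, 1) ∈ A) then 1 + Real.tanh bc ^ 3
    else Real.tanh bc + Real.tanh bc ^ 2)) = c * wt bc (box n) A

/-- KW (uses HTE, BIJ, EVN, STAR, WT): Par (bd n A B) (0, true) iff 0 in A iff spin A 0 = -1 -/
def S_KW : Prop := ∀ (n : ℕ) (D : Finset V), FF n ⊆ inn D →
  pzc bc D (FF n) (((0, 0), true) : V × Bool) / pz bc D (FF n) = corr bc (box n) {((0, 0) : V)}

/-- INC: the edge sets -/
def S_INC : Prop := ∀ n : ℕ, inn (box n) ⊆ FF n ∧ FF n ⊆ inn (box (n + 1))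

/-- SW (uses KW, INC, G1s; DISM.edges, DISM.pz_ext, DISM.pzc_ext) -/
def S_SW : Prop := ∀ n : ℕ, dis bc (box (n + 1)) ((0, 0), true) ≤ corr bc (box n) {((0, 0) : V)} ∧
  corr bc (box n) {((0, 0) : V)} ≤ dis bc (box n) ((0, 0), true)

/-- REFL: point reflection v -> (1,1) - v, it maps the triangle (0, true) = {0, e₁, e₂} to (0, false) and box n to
shift (1,1) (box n); the edge e goes to ((1,1) - tip e, e.2). The reflected cut set of (0, true) is the complement of the cut set
of (0, false) in the strip {direction 1, height 0} ∪ {direction 2, height 1}; the gauge transformation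
M -> M symmDiff {u in the domain : 1 <= u.2} changes the sign of the spin product exactly on the edges of the strip -/
def S_REFL : Prop := ∀ (β : ℝ) (n : ℕ),
  dis β (shift (1, 1) (box n)) (((0, 0), false) : V × Bool) = dis β (box n) (((0, 0), true) : V × Bool)

/-- BT (uses SW, REFL, DISM): the two hypotheses of the nesting theorem reduce to the first one at bc. For false:
dis (box (n+1)) (0,false) <= dis (shift (1,1) (box n)) (0,false) = dis (box n) (0,true); dis >= 0 (pzc > 0, pz > 0) -/
def S_BT : Prop := Tendsto (fun n => corr bc (box n) {((0, 0) : V)}) atTop (𝓝 0) →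
  ∀ b : Bool, Tendsto (fun n => dis bc (box n) ((0, 0), b)) atTop (𝓝 0)

end

end XorIsing
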