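import Pool.Agent.Work.MP_bda6fa_cnl.IC2
import Pool.Agent.Work.MP_bda6fa_cnl.IB
import Pool.Agent.Work.MP_bda6fa_cnl.C_SANP
import Pool.Agent.Work.MP_bda6fa_nest.G1
set_option autoImplicit false

/-! Assembly of the random cluster half: no long range order in the free measure at the critical point. -/

namespace CNL
open XorIsing
open scoped Classical
open Finset Relation Filter Topology

theorem corr_nonneg {β : ℝ} (hβ : 0 ≤ β) (D : Finset V) (x : V) : 0 ≤ corr β D {x} := by
  unfold corr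
  refine div_nonneg ?_ (ZZ_pos β D).le
  have h := p_G1 D (near D) (fun _ => β) {x} (fun _ _ => hβ)
  unfold pA at h
  have h2 : ∀ M : Finset V, wt β D M * ∏ a ∈ ({x} : Finset V), spin M a =
      Real.exp (∑ e ∈ near D, β * (spin M e.1 * spin M (tip e))) * ∏ a ∈ ({x} : Finset V), spin M a := by
    intro M
    unfold wt
    rw [mul_sum]
  rw [sum_congr rfl (fun M _ => h2 M)]
  exact h

theorem bc_pos : 0 < bc := by
  unfold bc
  have : 0 < Real.log 3 := Real.log_pos (by norm_num)
  positivity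

theorem p_P3 (hAZ : S_AZ) (hVOLP : S_VOLP) (hVOLF : S_VOLF) (hMIXF : S_MIXF) (hARP : S_ARP) (hARD : S_ARD) (hLKF : S_LKF)
    (hP3U : S_P3U) (hP3D : S_P3D) (hSW : XorIsing.S_SW) : S_P3 := by
  intro c L hc
  by_contra hcon
  push Not at hcon
  have hb := bc_pos
  obtain ⟨h1, h2⟩ := hP3U bc c L hb.le hc (fun x hx => by
    obtain ⟨M, hM1, hM2⟩ := hcon x hx
    exact ⟨M, hM1, hM2.le⟩)
  have h3 : ∀ N, c ≤ dis bc (XorIsing.box N) ((0, 0), true) := by
    intro N
    have h4 := h1 N
    have h5 := corr_nonneg hb.le (XorIsing.box N) (0, 0)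
    have h6 := SANP_corr_le bc (XorIsing.box N) (0, 0)
    have h7 : corr bc (XorIsing.box N) {(0, 0)} ≤ dis bc (XorIsing.box N) ((0, 0), true) := (hSW N).2
    nlinarith
  have h4 := hP3D bc c hb hc h3
  exact hAZ Edge trE rotE (LV inn (fw bc)) (fun k x n R (c : Set Edge) => PArm c k x n R)
    (fun k x n R (c : Set Edge) => DArm0 c k x n R) (fun x n => inn (Hx x n)) (fun c => c)
    (hVOLP Edge trE rotE inn (fw bc) (hVOLF bc hb)) (hMIXF bc hb) hARP hARD hLKF 1 c le_rfl hc h2 h4

end CNL
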