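import Mathlib

/-!
Counting of trifurcations in an abstract graph (part A of the critical nested loops, block COUNT).
`r` is any symmetric relation on a type `V`. If `K i` (`i` in `X`) are pairwise disjoint nonempty
connected sets and, for each `i` in `X`, three vertices of `S` lie in three different components
of the graph without `K i`, each of which touches `K i`, then `X.card ≤ S.card`.
-/

open Relation

namespace Pool.CNL

namespace Count

variable {V ι : Type*}

/-- a step of `r` outside `K` -/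
def Off (r : V → V → Prop) (K : Set V) (u v : V) : Prop := r u v ∧ u ∉ K ∧ v ∉ K

/-- a step of `r` inside `K` -/
def On (r : V → V → Prop) (K : Set V) (u v : V) : Prop := r u v ∧ u ∈ K ∧ v ∈ K

/-- `c` is outside `K` and has a neighbour in `K` -/
def Touch (r : V → V → Prop) (K : Set V) (c : V) : Prop := c ∉ K ∧ ∃ k ∈ K, r k c

lemma rmono {p q : V → V → Prop} (hpq : ∀ u v, p u v → q u v) {a b : V}
    (h : ReflTransGen p a b) : ReflTransGen q a b := by
  induction h with
  | refl => exact .refl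
  | tail _ hbc ih => exact ih.tail (hpq _ _ hbc)

lemma off_symm {r : V → V → Prop} (hr : ∀ u v, r u v → r v u) {K : Set V} {a b : V}
    (h : ReflTransGen (Off r K) a b) : ReflTransGen (Off r K) b a := by
  induction h with
  | refl => exact .refl
  | tail _ hbc ih => exact ReflTransGen.head ⟨hr _ _ hbc.1, hbc.2.2, hbc.2.1⟩ ih

lemma off_of_comp {r : V → V → Prop} {K K' : Set V} {a b : V}
    (h : ReflTransGen (Off r K) a b)
    (hcomp : ∀ v, ReflTransGen (Off r K) a v → v ∉ K') : ReflTransGen (Off r K') a b := by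
  induction h with
  | refl => exact .refl
  | tail hab hbc ih => exact ih.tail ⟨hbc.1, hcomp _ hab, hcomp _ (hab.tail hbc)⟩

lemma on_off {r : V → V → Prop} {K K' : Set V} (hd : ∀ v ∈ K, v ∉ K') {a b : V}
    (h : ReflTransGen (On r K) a b) : ReflTransGen (Off r K') a b :=
  rmono (fun _ _ h => ⟨h.1, hd _ h.2.1, hd _ h.2.2⟩) h

lemma first_hit {r : V → V → Prop} {K' : Set V} {a b : V} (h : ReflTransGen r a b)
    (ha : a ∉ K') (hb : b ∈ K') :
    ∃ d e, ReflTransGen (Off r K') a d ∧ d ∉ K' ∧ r d e ∧ e ∈ K' := by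
  have key : ∀ b, ReflTransGen r a b →
      (∃ d e, ReflTransGen (Off r K') a d ∧ d ∉ K' ∧ r d e ∧ e ∈ K') ∨
        (b ∉ K' ∧ ReflTransGen (Off r K') a b) := by
    intro b hb
    induction hb with
    | refl => exact .inr ⟨ha, .refl⟩
    | @tail x y _ hxy ih =>
      rcases ih with ih | ⟨hx, hax⟩
      · exact .inl ih
      · by_cases hy : y ∈ K'
        · exact .inl ⟨x, y, hax, hx, hxy, hy⟩
        · exact .inr ⟨hy, hax.tail ⟨hxy, hx, hy⟩⟩
  rcases key b h with h1 | h1
  · exact h1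
  · exact absurd hb h1.1

/-- hypotheses on the family `K i`, `i` in `X`, and `S` -/
structure Fam (r : V → V → Prop) (S : Finset V) (X : Finset ι) (K : ι → Set V) : Prop where
  ne : ∀ i ∈ X, (K i).Nonempty
  conn : ∀ i ∈ X, ∀ a ∈ K i, ∀ b ∈ K i, ReflTransGen (On r (K i)) a b
  disj : ∀ i ∈ X, ∀ j ∈ X, i ≠ j → ∀ v ∈ K i, v ∉ K j
  three : ∀ i ∈ X, ∃ s : Fin 3 → V, (∀ a, s a ∈ S) ∧
    (∀ a, ∃ c, Touch r (K i) c ∧ ReflTransGen (Off r (K i)) c (s a)) ∧
    ∀ a b, a ≠ b → ¬ ReflTransGen (Off r (K i)) (s a) (s b)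

open Classical in
/-- the number of `K j` in the component of `c` off `K i` -/
noncomputable def cnt (r : V → V → Prop) (X : Finset ι) (K : ι → Set V) (i : ι) (c : V) : ℕ :=
  ((X.erase i).filter (fun j => ∃ v ∈ K j, ReflTransGen (Off r (K i)) c v)).card

lemma exists_max {r : V → V → Prop} {S : Finset V} {X : Finset ι} {K : ι → Set V}
    (hF : Fam r S X K) (hX : X.Nonempty) :
    ∃ i ∈ X, ∃ c, Touch r (K i) c ∧
      ∀ i' ∈ X, ∀ c', Touch r (K i') c' → cnt r X K i' c' ≤ cnt r X K i c := by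
  classical
  let P : ℕ → Prop := fun n => ∃ i ∈ X, ∃ c, Touch r (K i) c ∧ cnt r X K i c = n
  have hb : ∀ n, P n → n ≤ X.card := by
    rintro n ⟨i, hi, c, -, rfl⟩
    unfold cnt
    exact (Finset.card_le_card (Finset.filter_subset _ _)).trans
      (Finset.card_le_card (Finset.erase_subset _ _))
  obtain ⟨i0, hi0⟩ := hX
  obtain ⟨s, -, hs, -⟩ := hF.three i0 hi0
  obtain ⟨c0, hc0, -⟩ := hs 0
  have h0 : P (cnt r X K i0 c0) := ⟨i0, hi0, c0, hc0, rfl⟩
  have hP := Nat.findGreatest_spec (P := P) (hb _ h0) h0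
  obtain ⟨i, hi, c, hc, hcn⟩ := hP
  refine ⟨i, hi, c, hc, fun i' hi' c' hc' => ?_⟩
  rw [hcn]
  exact Nat.le_findGreatest (hb _ ⟨i', hi', c', hc', rfl⟩) ⟨i', hi', c', hc', rfl⟩

lemma empty_branch {r : V → V → Prop} (hr : ∀ u v, r u v → r v u) {S : Finset V}
    {X : Finset ι} {K : ι → Set V} (hF : Fam r S X K) {i : ι} (hi : i ∈ X) {c : V}
    (hc : Touch r (K i) c)
    (hmax : ∀ i' ∈ X, ∀ c', Touch r (K i') c' → cnt r X K i' c' ≤ cnt r X K i c)
    {c' : V} (hc' : Touch r (K i) c') (hcc : ¬ ReflTransGen (Off r (K i)) c c')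
    {j : ι} (hj : j ∈ X) (hji : j ≠ i) {v : V} (hv : ReflTransGen (Off r (K i)) c' v) :
    v ∉ K j := by
  classical
  intro hvj
  obtain ⟨hcK, k, hk, hkc⟩ := hc
  obtain ⟨hcK', k', hk', hkc'⟩ := hc'
  have hdij : ∀ x ∈ K i, x ∉ K j := hF.disj i hi j hj (Ne.symm hji)
  have hdji : ∀ x ∈ K j, x ∉ K i := hF.disj j hj i hi hji
  -- no vertex of `K j` is joined to `c` off `K i`
  have hno : ∀ w, ReflTransGen (Off r (K i)) c w → w ∉ K j := by
    intro w hw hwj
    apply hcc
    have h1 : ReflTransGen (Off r (K i)) w v := on_off hdji (hF.conn j hj w hwj v hvj)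
    exact (hw.trans h1).trans (off_symm hr hv)
  -- first hit of `K j` on the way from `k'` to `v`
  have hpath : ReflTransGen r k' v :=
    (ReflTransGen.single hkc').trans (rmono (fun _ _ h => h.1) hv)
  obtain ⟨d, e, hd, hdj, hde, hej⟩ := first_hit hpath (hdij k' hk') hvj
  have htd : Touch r (K j) d := ⟨hdj, e, hej, hr _ _ hde⟩
  have hle := hmax j hj d htd
  have hdk : ReflTransGen (Off r (K j)) d k := by
    refine (off_symm hr hd).trans ?_
    exact on_off hdij (hF.conn i hi k' hk' k hk)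
  have hcj : c ∉ K j := hno c .refl
  have hdc : ReflTransGen (Off r (K j)) d c := hdk.tail ⟨hkc, hdij k hk, hcj⟩
  have hsub : insert i ((X.erase i).filter
      (fun l => ∃ v ∈ K l, ReflTransGen (Off r (K i)) c v)) ⊆
      (X.erase j).filter (fun l => ∃ v ∈ K l, ReflTransGen (Off r (K j)) d v) := by
    intro l hl
    rcases Finset.mem_insert.1 hl with rfl | hl
    · exact Finset.mem_filter.2 ⟨Finset.mem_erase.2 ⟨Ne.symm hji, hi⟩, k, hk, hdk⟩
    · obtain ⟨hl1, w, hwl, hcw⟩ := Finset.mem_filter.1 hl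
      obtain ⟨hli, hlX⟩ := Finset.mem_erase.1 hl1
      have hlj : l ≠ j := by
        rintro rfl
        exact hno w hcw hwl
      exact Finset.mem_filter.2 ⟨Finset.mem_erase.2 ⟨hlj, hlX⟩, w, hwl,
        hdc.trans (off_of_comp hcw hno)⟩
  have hcard := Finset.card_le_card hsub
  rw [Finset.card_insert_of_notMem (by simp)] at hcard
  unfold cnt at hle
  omega

lemma card_le {r : V → V → Prop} (hr : ∀ u v, r u v → r v u) {K : ι → Set V} :
    ∀ (n : ℕ) (S : Finset V) (X : Finset ι), X.card = n → Fam r S X K → X.card ≤ S.card := by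
  classical
  intro n
  induction n with
  | zero => intro S X hX _; omega
  | succ n ih =>
    intro S X hX hF
    have hne : X.Nonempty := by
      rw [← Finset.card_pos]; omega
    obtain ⟨i, hi, c, hc, hmax⟩ := exists_max hF hne
    obtain ⟨s, hsS, hsc, hsd⟩ := hF.three i hi
    choose t ht hts using hsc
    -- at most one of the three is joined to `c`
    have hone : ∀ a b, a ≠ b → ReflTransGen (Off r (K i)) c (t a) →
        ¬ ReflTransGen (Off r (K i)) c (t b) := by
      intro a b hab ha hb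
      exact hsd a b hab ((off_symm hr (ha.trans (hts a))).trans (hb.trans (hts b)))
    have hab : ∃ a b, a ≠ b ∧ ¬ ReflTransGen (Off r (K i)) c (t a) ∧
        ¬ ReflTransGen (Off r (K i)) c (t b) := by
      by_cases h0 : ReflTransGen (Off r (K i)) c (t 0)
      · exact ⟨1, 2, by decide, hone 0 1 (by decide) h0, hone 0 2 (by decide) h0⟩
      · by_cases h1 : ReflTransGen (Off r (K i)) c (t 1)
        · exact ⟨0, 2, by decide, h0, hone 1 2 (by decide) h1⟩
        · exact ⟨0, 1, by decide, h0, h1⟩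
    obtain ⟨a, b, hab, hca, hcb⟩ := hab
    -- the branches of `a` and `b` contain no `K j`
    have hea : ∀ j ∈ X, j ≠ i → ∀ v, ReflTransGen (Off r (K i)) (t a) v → v ∉ K j :=
      fun j hj hji v hv => empty_branch hr hF hi hc hmax (ht a) hca hj hji hv
    have heb : ∀ j ∈ X, j ≠ i → ∀ v, ReflTransGen (Off r (K i)) (t b) v → v ∉ K j :=
      fun j hj hji v hv => empty_branch hr hF hi hc hmax (ht b) hcb hj hji hv
    have hpq : s a ≠ s b := by
      intro h
      apply hsd a b hab
      rw [h]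
    have hjoin : ∀ j ∈ X, j ≠ i → ReflTransGen (Off r (K j)) (s a) (s b) := by
      intro j hj hji
      obtain ⟨hta, ka, hka, hkta⟩ := ht a
      obtain ⟨htb, kb, hkb, hktb⟩ := ht b
      have hdij : ∀ x ∈ K i, x ∉ K j := hF.disj i hi j hj (Ne.symm hji)
      have h1 : ReflTransGen (Off r (K j)) (t a) (s a) := off_of_comp (hts a) (hea j hj hji)
      have h2 : ReflTransGen (Off r (K j)) (t b) (s b) := off_of_comp (hts b) (heb j hj hji)
      have h3 : ReflTransGen (Off r (K j)) ka kb := on_off hdij (hF.conn i hi ka hka kb hkb)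
      have h4 : ReflTransGen (Off r (K j)) (t a) ka :=
        ReflTransGen.single ⟨hr _ _ hkta, hea j hj hji _ .refl, hdij ka hka⟩
      have h5 : ReflTransGen (Off r (K j)) kb (t b) :=
        ReflTransGen.single ⟨hktb, hdij kb hkb, heb j hj hji _ .refl⟩
      exact (off_symm hr h1).trans (h4.trans (h3.trans (h5.trans h2)))
    have hF' : Fam r (S.erase (s a)) (X.erase i) K := by
      refine ⟨fun j hj => hF.ne j (Finset.mem_of_mem_erase hj),
        fun j hj => hF.conn j (Finset.mem_of_mem_erase hj),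
        fun j hj l hl => hF.disj j (Finset.mem_of_mem_erase hj) l (Finset.mem_of_mem_erase hl),
        fun j hj => ?_⟩
      obtain ⟨hji, hjX⟩ := Finset.mem_erase.1 hj
      obtain ⟨u, huS, huc, hud⟩ := hF.three j hjX
      have hrep : ∀ m, ReflTransGen (Off r (K j)) (u m) (if u m = s a then s b else u m) := by
        intro m
        split_ifs with h
        · rw [h]; exact hjoin j hjX hji
        · exact .refl
      refine ⟨fun m => if u m = s a then s b else u m, fun m => ?_, fun m => ?_,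
        fun m m' hm h => ?_⟩
      · show (if u m = s a then s b else u m) ∈ S.erase (s a)
        split_ifs with h
        · exact Finset.mem_erase.2 ⟨Ne.symm hpq, hsS b⟩
        · exact Finset.mem_erase.2 ⟨h, huS m⟩
      · obtain ⟨c1, hc1, hc2⟩ := huc m
        exact ⟨c1, hc1, hc2.trans (hrep m)⟩
      · exact hud m m' hm ((hrep m).trans (h.trans (off_symm hr (hrep m'))))
    have hX' : (X.erase i).card = n := by
      rw [Finset.card_erase_of_mem hi]; omega
    have h1 := ih (S.erase (s a)) (X.erase i) hX' hF'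
    rw [Finset.card_erase_of_mem (hsS a)] at h1
    have hSpos : 0 < S.card := Finset.card_pos.2 ⟨_, hsS a⟩
    omega

end Count

/-- COUNT -/
theorem count {V ι : Type*} (r : V → V → Prop) (hr : ∀ u v, r u v → r v u)
    (S : Finset V) (X : Finset ι) (K : ι → Set V)
    (hne : ∀ i ∈ X, (K i).Nonempty)
    (hconn : ∀ i ∈ X, ∀ a ∈ K i, ∀ b ∈ K i,
      ReflTransGen (fun u v => r u v ∧ u ∈ K i ∧ v ∈ K i) a b)
    (hdisj : ∀ i ∈ X, ∀ j ∈ X, i ≠ j → ∀ v ∈ K i, v ∉ K j)
    (h3 : ∀ i ∈ X, ∃ s : Fin 3 → V, (∀ a, s a ∈ S) ∧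
      (∀ a, ∃ c, c ∉ K i ∧ (∃ k ∈ K i, r k c) ∧
        ReflTransGen (fun u v => r u v ∧ u ∉ K i ∧ v ∉ K i) c (s a)) ∧
      ∀ a b, a ≠ b → ¬ ReflTransGen (fun u v => r u v ∧ u ∉ K i ∧ v ∉ K i) (s a) (s b)) :
    X.card ≤ S.card := by
  refine Count.card_le hr X.card S X rfl ⟨hne, hconn, hdisj, fun i hi => ?_⟩
  obtain ⟨s, h1, h2, h4⟩ := h3 i hi
  exact ⟨s, h1, fun a => by
    obtain ⟨c, hc, hk, hr⟩ := h2 a
    exact ⟨c, ⟨hc, hk⟩, hr⟩, h4⟩

end Pool.CNL
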