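import Pool.Agent.Work.MP_bda6fa_cnl.IA1
import Pool.Agent.Work.MP_bda6fa_cnl.B_COUNT
set_option autoImplicit false

/-! Part A: from SEP (three pairs of sides at every centre) to CNT2. -/

namespace CNL
open XorIsing
open scoped Classical
open Finset Relation

namespace XCNT

theorem BE_symm {b : Set Edge} {u v : V} (h : BE b u v) : BE b v u := by
  obtain ⟨e, he, h | h⟩ := h
  · exact ⟨e, he, .inr h⟩
  · exact ⟨e, he, .inl h⟩

theorem step_bound {e : Edge} : ((tip e).1 ≤ e.1.1 + 1 ∧ e.1.1 ≤ (tip e).1) ∧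
    ((tip e).2 ≤ e.1.2 + 1 ∧ e.1.2 ≤ (tip e).2 + 1) ∧
    (tip e).1 + (tip e).2 ≤ e.1.1 + e.1.2 + 1 ∧ e.1.1 + e.1.2 ≤ (tip e).1 + (tip e).2 := by
  obtain ⟨⟨p, q⟩, k⟩ := e
  fin_cases k <;> simp [tip, dir] <;> omega

theorem nb {b : Set Edge} {u v x : V} {N : ℕ} (h : BE b u v) (hu : u ∈ Hx x N) : v ∈ Hx x (N + 1) := by
  rw [mem_Hx] at hu ⊢
  push_cast
  obtain ⟨e, -, ⟨rfl, rfl⟩ | ⟨rfl, rfl⟩⟩ := h
  · obtain ⟨⟨h1, h2⟩, ⟨h3, h4⟩, h5, h6⟩ := @step_bound e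
    obtain ⟨⟨a1, a2⟩, ⟨a3, a4⟩, a5, a6⟩ := hu
    refine ⟨⟨?_, ?_⟩, ⟨?_, ?_⟩, ?_, ?_⟩ <;> linarith
  · obtain ⟨⟨h1, h2⟩, ⟨h3, h4⟩, h5, h6⟩ := @step_bound e
    obtain ⟨⟨a1, a2⟩, ⟨a3, a4⟩, a5, a6⟩ := hu
    refine ⟨⟨?_, ?_⟩, ⟨?_, ?_⟩, ?_, ?_⟩ <;> linarith

theorem rot_mem {n : ℕ} {v : V} (h : v ∈ Hx (0, 0) n) : rot v ∈ Hx (0, 0) n := by
  rw [mem_Hx] at h ⊢
  simp only [rot] at h ⊢
  obtain ⟨⟨a1, a2⟩, ⟨a3, a4⟩, a5, a6⟩ := h
  refine ⟨⟨?_, ?_⟩, ⟨?_, ?_⟩, ?_, ?_⟩ <;> linarith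

theorem Sd_mem {n k : ℕ} {v : V} (h : Sd n k v) : v ∈ Hx (0, 0) n := by
  obtain ⟨i, hi, rfl⟩ := h
  induction k with
  | zero =>
    rw [Function.iterate_zero, id, mem_Hx]
    have : (i : ℤ) < n := by exact_mod_cast hi
    refine ⟨⟨?_, ?_⟩, ⟨?_, ?_⟩, ?_, ?_⟩ <;> simp <;> omega
  | succ k ih =>
    rw [Function.iterate_succ_apply']
    exact rot_mem ih

theorem sub_mem {n : ℕ} {v x : V} (h : v - x ∈ Hx (0, 0) n) : v ∈ Hx x n := by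
  rw [mem_Hx] at h ⊢
  simp only [Prod.fst_sub, Prod.snd_sub] at h
  obtain ⟨⟨a1, a2⟩, ⟨a3, a4⟩, a5, a6⟩ := h
  refine ⟨⟨?_, ?_⟩, ⟨?_, ?_⟩, ?_, ?_⟩ <;> linarith

/-! ### the hexagon is connected -/

def HA (x : V) (n : ℕ) (u v : V) : Prop := u ∈ Hx x n ∧ v ∈ Hx x n ∧ ∃ e : Edge, (e.1 = u ∧ tip e = v) ∨ (e.1 = v ∧ tip e = u)

theorem HA_symm {x : V} {n : ℕ} {u v : V} (h : HA x n u v) : HA x n v u := by
  obtain ⟨h1, h2, e, h3⟩ := h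
  exact ⟨h2, h1, e, h3.symm⟩

theorem HA_rsymm {x : V} {n : ℕ} {u v : V} (h : ReflTransGen (HA x n) u v) : ReflTransGen (HA x n) v u := by
  induction h with
  | refl => exact .refl
  | tail _ hbc ih => exact ReflTransGen.head (HA_symm hbc) ih

theorem center_mem (x : V) (n : ℕ) : x ∈ Hx x n := by
  rw [mem_Hx]
  refine ⟨⟨?_, ?_⟩, ⟨?_, ?_⟩, ?_, ?_⟩ <;> linarith [Int.natCast_nonneg n]

theorem to_center (x : V) (n : ℕ) : ∀ (m : ℕ) (v : V), v ∈ Hx x n → (v.1 - x.1).natAbs + (v.2 - x.2).natAbs = m →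
    ReflTransGen (HA x n) v x := by
  intro m
  induction m with
  | zero =>
    intro v hv h
    have h1 : v.1 = x.1 := by omega
    have h2 : v.2 = x.2 := by omega
    have : v = x := Prod.ext h1 h2
    rw [this]
  | succ m ih =>
    intro v hv h
    have hv0 := hv
    rw [mem_Hx] at hv
    obtain ⟨⟨a1, a2⟩, ⟨a3, a4⟩, a5, a6⟩ := hv
    rcases lt_trichotomy v.1 x.1 with h1 | h1 | h1
    · have hm : ((v.1 + 1, v.2) : V) ∈ Hx x n := by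
        rw [mem_Hx]; dsimp only
        refine ⟨⟨?_, ?_⟩, ⟨?_, ?_⟩, ?_, ?_⟩ <;> omega
      refine ReflTransGen.head ⟨hv0, hm, (v, 0), .inl ⟨rfl, ?_⟩⟩ (ih _ hm (by dsimp only; omega))
      ext <;> simp [tip, dir]
    · rcases lt_trichotomy v.2 x.2 with h2 | h2 | h2
      · have hm : ((v.1, v.2 + 1) : V) ∈ Hx x n := by
          rw [mem_Hx]; dsimp only
          refine ⟨⟨?_, ?_⟩, ⟨?_, ?_⟩, ?_, ?_⟩ <;> omega
        refine ReflTransGen.head ⟨hv0, hm, (v, 1), .inl ⟨rfl, ?_⟩⟩ (ih _ hm (by dsimp only; omega))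
        ext <;> simp [tip, dir]
      · omega
      · have hm : ((v.1, v.2 - 1) : V) ∈ Hx x n := by
          rw [mem_Hx]; dsimp only
          refine ⟨⟨?_, ?_⟩, ⟨?_, ?_⟩, ?_, ?_⟩ <;> omega
        refine ReflTransGen.head ⟨hv0, hm, ((v.1, v.2 - 1), 1), .inr ⟨rfl, ?_⟩⟩ (ih _ hm (by dsimp only; omega))
        ext <;> simp [tip, dir]
    · have hm : ((v.1 - 1, v.2) : V) ∈ Hx x n := by
        rw [mem_Hx]; dsimp only
        refine ⟨⟨?_, ?_⟩, ⟨?_, ?_⟩, ?_, ?_⟩ <;> omega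
      refine ReflTransGen.head ⟨hv0, hm, ((v.1 - 1, v.2), 0), .inr ⟨rfl, ?_⟩⟩ (ih _ hm (by dsimp only; omega))
      ext <;> simp [tip, dir]

theorem hx_conn (x : V) (n : ℕ) {a c : V} (ha : a ∈ Hx x n) (hc : c ∈ Hx x n) : ReflTransGen (HA x n) a c :=
  (to_center x n _ a ha rfl).trans (HA_rsymm (to_center x n _ c hc rfl))

/-! ### the ring -/

theorem rot1 (p q : ℤ) : rot^[1] (p, q) = (-q, p + q) := by simp [rot]
theorem rot2 (p q : ℤ) : rot^[2] (p, q) = (-(p + q), p) := by simp [rot]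
theorem rot3 (p q : ℤ) : rot^[3] (p, q) = (-p, -q) := by simp [rot]
theorem rot4 (p q : ℤ) : rot^[4] (p, q) = (q, -(p + q)) := by simp [rot]; ring
theorem rot5 (p q : ℤ) : rot^[5] (p, q) = (p + q, -p) := by simp [rot]; ring

theorem ring_Sd {N : ℕ} {v : V} (h : v ∈ Hx (0, 0) (N + 1)) (h' : v ∉ Hx (0, 0) N) :
    ∃ k < 6, ∃ i < N + 1, v = rot^[k] (((N + 1 : ℕ) : ℤ) - i, (i : ℤ)) := by
  obtain ⟨p, q⟩ := v
  rw [mem_Hx] at h h'
  dsimp only at h h'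
  push_cast at h
  obtain ⟨⟨a1, a2⟩, ⟨a3, a4⟩, a5, a6⟩ := h
  have key : p + q = N + 1 ∨ q = N + 1 ∨ p = -(N + 1) ∨ p + q = -(N + 1) ∨ q = -(N + 1) ∨ p = N + 1 := by
    by_contra hc
    simp only [not_or] at hc
    apply h'
    refine ⟨⟨?_, ?_⟩, ⟨?_, ?_⟩, ?_, ?_⟩ <;> omega
  have s0 : p + q = N + 1 → q < N + 1 → ∃ k < 6, ∃ i < N + 1, ((p, q) : V) = rot^[k] (((N + 1 : ℕ) : ℤ) - i, (i : ℤ)) := by
    intro h1 h2
    refine ⟨0, by norm_num, q.toNat, by omega, ?_⟩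
    rw [Function.iterate_zero, id]
    ext <;> simp <;> omega
  have s1 : q = N + 1 → -(N + 1 : ℤ) < p → ∃ k < 6, ∃ i < N + 1, ((p, q) : V) = rot^[k] (((N + 1 : ℕ) : ℤ) - i, (i : ℤ)) := by
    intro h1 h2
    refine ⟨1, by norm_num, (-p).toNat, by omega, ?_⟩
    rw [rot1]
    ext <;> simp <;> omega
  have s2 : p = -(N + 1 : ℤ) → 0 < q → ∃ k < 6, ∃ i < N + 1, ((p, q) : V) = rot^[k] (((N + 1 : ℕ) : ℤ) - i, (i : ℤ)) := by
    intro h1 h2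
    refine ⟨2, by norm_num, (N + 1 - q).toNat, by omega, ?_⟩
    rw [rot2]
    ext <;> simp <;> omega
  have s3 : p + q = -(N + 1 : ℤ) → -(N + 1 : ℤ) < q → ∃ k < 6, ∃ i < N + 1, ((p, q) : V) = rot^[k] (((N + 1 : ℕ) : ℤ) - i, (i : ℤ)) := by
    intro h1 h2
    refine ⟨3, by norm_num, (-q).toNat, by omega, ?_⟩
    rw [rot3]
    ext <;> simp <;> omega
  have s4 : q = -(N + 1 : ℤ) → p < N + 1 → ∃ k < 6, ∃ i < N + 1, ((p, q) : V) = rot^[k] (((N + 1 : ℕ) : ℤ) - i, (i : ℤ)) := by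
    intro h1 h2
    refine ⟨4, by norm_num, p.toNat, by omega, ?_⟩
    rw [rot4]
    ext <;> simp <;> omega
  have s5 : p = N + 1 → q < 0 → ∃ k < 6, ∃ i < N + 1, ((p, q) : V) = rot^[k] (((N + 1 : ℕ) : ℤ) - i, (i : ℤ)) := by
    intro h1 h2
    refine ⟨5, by norm_num, (N + 1 + q).toNat, by omega, ?_⟩
    rw [rot5]
    ext <;> simp <;> omega
  rcases key with h1 | h1 | h1 | h1 | h1 | h1
  · by_cases h2 : q < N + 1
    · exact s0 h1 h2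
    · exact s1 (by omega) (by omega)
  · by_cases h2 : -(N + 1 : ℤ) < p
    · exact s1 h1 h2
    · exact s2 (by omega) (by omega)
  · by_cases h2 : 0 < q
    · exact s2 h1 h2
    · exact s3 (by omega) (by omega)
  · by_cases h2 : -(N + 1 : ℤ) < q
    · exact s3 h1 h2
    · exact s4 (by omega) (by omega)
  · by_cases h2 : p < N + 1
    · exact s4 h1 h2
    · exact s5 (by omega) (by omega)
  · by_cases h2 : q < 0
    · exact s5 h1 h2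
    · exact s0 (by omega) (by omega)

theorem ring_card (N : ℕ) : ((Hx (0, 0) (N + 1)).filter (fun v => v ∉ Hx (0, 0) N)).card ≤ 6 * (N + 1) := by
  have hsub : (Hx (0, 0) (N + 1)).filter (fun v => v ∉ Hx (0, 0) N) ⊆
      (Finset.range 6 ×ˢ Finset.range (N + 1)).image
        (fun p : ℕ × ℕ => rot^[p.1] (((N + 1 : ℕ) : ℤ) - p.2, (p.2 : ℤ))) := by
    intro v hv
    rw [mem_filter] at hv
    obtain ⟨k, hk, i, hi, rfl⟩ := ring_Sd hv.1 hv.2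
    rw [mem_image]
    exact ⟨(k, i), by simp [hk, hi], rfl⟩
  refine (card_le_card hsub).trans (card_image_le.trans ?_)
  simp

/-! ### first exit -/

/-- open adjacency inside the hexagon -/
def RA (b : Set Edge) (N : ℕ) (u v : V) : Prop := u ∈ Hx (0, 0) (N + 1) ∧ v ∈ Hx (0, 0) (N + 1) ∧ BE b u v

def OffK (b : Set Edge) (N : ℕ) (K : Set V) (u v : V) : Prop := RA b N u v ∧ u ∉ K ∧ v ∉ K

theorem hx_succ {x : V} {N : ℕ} : Hx x N ⊆ Hx x (N + 1) := by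
  intro v hv
  rw [mem_Hx] at hv ⊢
  push_cast
  obtain ⟨⟨a1, a2⟩, ⟨a3, a4⟩, a5, a6⟩ := hv
  refine ⟨⟨?_, ?_⟩, ⟨?_, ?_⟩, ?_, ?_⟩ <;> linarith

theorem first_exit {b : Set Edge} {N : ℕ} {K : Finset V} {v w : V} (hv : v ∈ Hx (0, 0) N)
    (hw : w ∉ Hx (0, 0) N) (h : PCon b K v w) :
    ∃ c z, c ∉ K ∧ BE b v c ∧ c ∈ Hx (0, 0) (N + 1) ∧ ReflTransGen (OffK b N (K : Set V)) c z ∧
      z ∈ Hx (0, 0) (N + 1) ∧ z ∉ Hx (0, 0) N := by
  have key : ∀ y, PCon b K v y →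
      (∃ c z, c ∉ K ∧ BE b v c ∧ c ∈ Hx (0, 0) (N + 1) ∧ ReflTransGen (OffK b N (K : Set V)) c z ∧
        z ∈ Hx (0, 0) (N + 1) ∧ z ∉ Hx (0, 0) N) ∨
      (y ∈ Hx (0, 0) N ∧ (y = v ∨ ∃ c, c ∉ K ∧ BE b v c ∧ c ∈ Hx (0, 0) (N + 1) ∧ y ∉ K ∧
        ReflTransGen (OffK b N (K : Set V)) c y)) := by
    intro y hy
    induction hy with
    | refl => exact .inr ⟨hv, .inl rfl⟩
    | @tail y y' _ hs ih =>
      rcases ih with ih | ⟨hyN, ih⟩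
      · exact .inl ih
      · obtain ⟨hy'K, hbe⟩ := hs
        have hy'1 : y' ∈ Hx (0, 0) (N + 1) := nb hbe hyN
        have hpath : ∃ c, c ∉ K ∧ BE b v c ∧ c ∈ Hx (0, 0) (N + 1) ∧ y' ∉ K ∧
            ReflTransGen (OffK b N (K : Set V)) c y' := by
          rcases ih with rfl | ⟨c, hc, hvc, hcN, hyK, hcy⟩
          · exact ⟨y', hy'K, hbe, hy'1, hy'K, .refl⟩
          · refine ⟨c, hc, hvc, hcN, hy'K, hcy.tail ⟨⟨hx_succ hyN, hy'1, hbe⟩, ?_, ?_⟩⟩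
            · exact_mod_cast hyK
            · exact_mod_cast hy'K
        by_cases hin : y' ∈ Hx (0, 0) N
        · exact .inr ⟨hin, .inr hpath⟩
        · obtain ⟨c, hc, hvc, hcN, -, hcy⟩ := hpath
          exact .inl ⟨c, y', hc, hvc, hcN, hcy, hy'1, hin⟩
  rcases key w h with h1 | h1
  · exact h1
  · exact absurd h1.1 hw

theorem n_lt_R {x : V} {n N R : ℕ} (h1 : Hx x n ⊆ Hx (0, 0) N) (h2 : Hx (0, 0) (N + 1) ⊆ Hx x R) : n < R := by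
  have a1 : ((x.1 + n, x.2) : V) ∈ Hx x n := by
    rw [mem_Hx]
    refine ⟨⟨?_, ?_⟩, ⟨?_, ?_⟩, ?_, ?_⟩ <;> dsimp only <;> omega
  have a2 : (((N + 1 : ℕ) : ℤ), (0 : ℤ)) ∈ Hx (0, 0) (N + 1) := by
    rw [mem_Hx]
    refine ⟨⟨?_, ?_⟩, ⟨?_, ?_⟩, ?_, ?_⟩ <;> dsimp only <;> omega
  have a3 := mem_Hx.1 (h1 a1)
  have a4 := mem_Hx.1 (h2 a2)
  dsimp only at a3 a4
  omega

theorem rmono {α : Type*} {p q : α → α → Prop} (hpq : ∀ u v, p u v → q u v) {a c : α}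
    (h : ReflTransGen p a c) : ReflTransGen q a c := by
  induction h with
  | refl => exact .refl
  | tail _ hbc ih => exact ih.tail (hpq _ _ hbc)

theorem cnt2 (hSEP : S_SEP6) : S_CNT2 := by
  intro b n N R X hn hX hdis
  refine (Pool.CNL.count (RA b N) ?_ ((Hx (0, 0) (N + 1)).filter (fun v => v ∉ Hx (0, 0) N)) X
    (fun x => (Hx x n : Set V)) ?_ ?_ ?_ ?_).trans (ring_card N)
  · rintro u v ⟨h1, h2, h3⟩
    exact ⟨h2, h1, BE_symm h3⟩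
  · intro x _
    exact ⟨x, by exact_mod_cast center_mem x n⟩
  · intro x hx a ha c hc
    obtain ⟨h1, -, hfill, -⟩ := hX x hx
    have ha' : a ∈ Hx x n := by exact_mod_cast ha
    have hc' : c ∈ Hx x n := by exact_mod_cast hc
    refine rmono ?_ (hx_conn x n ha' hc')
    rintro u v ⟨hu, hv, e, he⟩
    refine ⟨⟨hx_succ (h1 hu), hx_succ (h1 hv), e, hfill ?_, he⟩, by exact_mod_cast hu, by exact_mod_cast hv⟩
    have : e ∈ inn (Hx x n) := by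
      rw [mem_inn]
      rcases he with ⟨rfl, rfl⟩ | ⟨rfl, rfl⟩
      · exact ⟨hu, hv⟩
      · exact ⟨hv, hu⟩
    exact_mod_cast this
  · intro x hx y hy hxy v hv hv'
    exact Finset.disjoint_left.1 (hdis x hx y hy hxy) (by exact_mod_cast hv) (by exact_mod_cast hv')
  · intro x hx
    obtain ⟨h1, h2, hfill, ⟨hP0, hP2, hP4⟩, hD1, hD3, hD5⟩ := hX x hx
    have hnR := n_lt_R h1 h2
    have hP : ∀ a : Fin 3, PArm b (2 * (a : ℕ)) x n R := by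
      intro a
      fin_cases a
      · exact hP0
      · exact hP2
      · exact hP4
    have hex : ∀ a : Fin 3, ∃ v c z, Sd n (2 * (a : ℕ)) (v - x) ∧ v ∈ Hx x n ∧ c ∉ Hx x n ∧ BE b v c ∧
        c ∈ Hx (0, 0) (N + 1) ∧ ReflTransGen (OffK b N (Hx x n : Set V)) c z ∧
        z ∈ Hx (0, 0) (N + 1) ∧ z ∉ Hx (0, 0) N := by
      intro a
      obtain ⟨v, w, hsd, hw, hp⟩ := hP a
      have hv : v ∈ Hx x n := sub_mem (Sd_mem hsd)
      have hw' : w ∉ Hx (0, 0) N := fun hc => hw (h2 (hx_succ hc))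
      obtain ⟨c, z, hc, hvc, hcN, hcz, hz, hz'⟩ := first_exit (h1 hv) hw' hp
      exact ⟨v, c, z, hsd, hv, hc, hvc, hcN, hcz, hz, hz'⟩
    choose v c z hsd hv hc hvc hcN hcz hz hz' using hex
    refine ⟨z, fun a => mem_filter.2 ⟨hz a, hz' a⟩, fun a => ⟨c a, by exact_mod_cast hc a,
      ⟨v a, by exact_mod_cast hv a, hx_succ (h1 (hv a)), hcN a, hvc a⟩, hcz a⟩, fun a a' haa' hcon => ?_⟩
    have hstep : ∀ u u', (RA b N u u' ∧ u ∉ (Hx x n : Set V) ∧ u' ∉ (Hx x n : Set V)) →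
        u' ∈ Hx x R ∧ u' ∉ Hx x n ∧ BE b u u' := by
      rintro u u' ⟨⟨-, h4, h5⟩, -, h7⟩
      exact ⟨h2 h4, by exact_mod_cast h7, h5⟩
    have hsymm : ∀ {u u' : V}, ReflTransGen (OffK b N (Hx x n : Set V)) u u' →
        ReflTransGen (OffK b N (Hx x n : Set V)) u' u := by
      intro u u' h
      induction h with
      | refl => exact .refl
      | tail _ hbc ih => exact ReflTransGen.head ⟨⟨hbc.1.2.1, hbc.1.1, BE_symm hbc.1.2.2⟩, hbc.2.2, hbc.2.1⟩ ih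
    have hne : 2 * (a : ℕ) ≠ 2 * (a' : ℕ) := by
      intro h
      apply haa'
      ext
      omega
    refine hSEP b x n R (2 * (a : ℕ)) (2 * (a' : ℕ)) hn hnR (by omega) (by omega) hne (by omega) (by omega)
      hD1 hD3 hD5 (v a) (v a') (c a) (c a') (hsd a) (hsd a') (h2 (hcN a)) (h2 (hcN a')) (hc a) (hc a')
      (hvc a) (hvc a') (rmono hstep (((hcz a).trans hcon).trans (hsymm (hcz a'))))

end XCNT

theorem p_CNT2 (_h1 : S_SDF) (_h2 : S_HXC) (_h3 : S_FEX) (h4 : S_SEP6) (_h5 : S_COUNT) : S_CNT2 := XCNT.cnt2 h4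

end CNL
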