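import Pool.Agent.Work.MP_bda6fa_cnl.IA1
set_option autoImplicit false

/-! Block CST0: without jumps at side 0, f is constant on the outer triangles of side 0 and at the last one of side 5. -/

namespace CNL
open XorIsing
open scoped Classical
open Finset Relation

noncomputable section

namespace ACST0

theorem z2 : ∀ x y : ZMod 2, x + y = 0 → x = y := by decide

theorem tip0 (a b : ℤ) : tip ((((a, b) : V), 0) : Edge) = (a + 1, b) := by
  simp [tip, dir]

theorem tip1 (a b : ℤ) : tip ((((a, b) : V), 1) : Edge) = (a, b + 1) := by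
  simp [tip, dir]

theorem tip2 (a b : ℤ) : tip ((((a, b) : V), 2) : Edge) = (a + 1, b - 1) := by
  simp [tip, dir, sub_eq_add_neg]

theorem side (n i : ℕ) (hi : i < n) : Sd n 0 ((((n : ℤ) - i, (i : ℤ)) : V) - (0, 0)) := by
  refine ⟨i, hi, ?_⟩
  simp

theorem spk0 (n i : ℕ) (hi : i < n) : Spk n 0 (0, 0) (((((n : ℤ) - i, (i : ℤ)) : V), 0) : Edge) := by
  refine Or.inl ⟨side n i hi, ?_⟩
  rw [tip0, mem_Hx]
  simp only
  omega

theorem spk1 (n i : ℕ) (hi : i < n) : Spk n 0 (0, 0) (((((n : ℤ) - i, (i : ℤ)) : V), 1) : Edge) := by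
  refine Or.inl ⟨side n i hi, ?_⟩
  rw [tip1, mem_Hx]
  simp only
  omega

theorem spk2 (n : ℕ) (hn : 1 ≤ n) : Spk n 0 (0, 0) (((((n : ℤ), (0 : ℤ)) : V), 2) : Edge) := by
  have h := side n 0 hn
  simp only [Nat.cast_zero, sub_zero] at h
  refine Or.inl ⟨h, ?_⟩
  rw [tip2, mem_Hx]
  simp only
  omega

/-- crossing the edge (v, 0) -/
theorem x0 {f : V × Bool → ZMod 2} {c : Edge → ZMod 2} (h : Jmp f c) (a b : ℤ)
    (hc : c ((((a, b) : V), 0) : Edge) = 0) : f ((((a, b - 1) : V), false)) = f ((((a, b) : V), true)) := by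
  refine z2 _ _ ((h _ _ _ ?_ ?_ ?_).trans hc)
  · simp
  · simp [tri]
  · simp [tri]

/-- crossing the edge (v, 1) -/
theorem x1 {f : V × Bool → ZMod 2} {c : Edge → ZMod 2} (h : Jmp f c) (a b : ℤ)
    (hc : c ((((a, b) : V), 1) : Edge) = 0) : f ((((a - 1, b) : V), false)) = f ((((a, b) : V), true)) := by
  refine z2 _ _ ((h _ _ _ ?_ ?_ ?_).trans hc)
  · simp
  · simp [tri]
  · simp [tri]

/-- crossing the edge (v, 2) -/
theorem x2 {f : V × Bool → ZMod 2} {c : Edge → ZMod 2} (h : Jmp f c) (a b : ℤ)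
    (hc : c ((((a, b) : V), 2) : Edge) = 0) :
    f ((((a, b - 1) : V), false)) = f ((((a, b - 1) : V), true)) := by
  refine z2 _ _ ((h _ _ _ ?_ ?_ ?_).trans hc)
  · simp
  · simp [tri]
  · simp [tri]

theorem out5 (m : ℕ) : outT (m + 1) 5 m = ((((m : ℤ) + 1, -1) : V), true) := by
  simp only [outT, Function.iterate_succ, Function.iterate_zero, Function.comp, id, rotT, rot]
  simp
  omega

end ACST0

theorem p_CST0 : S_CST0 := by
  intro n f c hn hJ hc
  have key : ∀ i < n, f (outT n 0 i) = f (outT n 0 0) := by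
    intro i
    induction i with
    | zero => intro _; rfl
    | succ i ih =>
      intro hi
      rw [← ih (by omega)]
      have e0 := ACST0.x0 hJ _ _ (hc _ (ACST0.spk0 n (i + 1) hi))
      have e1 := ACST0.x1 hJ _ _ (hc _ (ACST0.spk1 n (i + 1) hi))
      have a0 : outT n 0 (i + 1) = ((((n : ℤ) - ((i + 1 : ℕ) : ℤ) - 1, ((i + 1 : ℕ) : ℤ)) : V), false) := rfl
      have a1 : outT n 0 i = ((((n : ℤ) - ((i + 1 : ℕ) : ℤ), ((i + 1 : ℕ) : ℤ) - 1) : V), false) := by
        simp only [outT, Function.iterate_zero, id]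
        refine Prod.ext (Prod.ext ?_ ?_) rfl
        · simp only
          push_cast
          ring
        · simp only
          push_cast
          ring
      rw [a0, a1, e0, e1]
  refine ⟨key, ?_⟩
  obtain ⟨m, rfl⟩ : ∃ m, n = m + 1 := ⟨n - 1, by omega⟩
  have e2 := ACST0.x2 hJ _ _ (hc _ (ACST0.spk2 (m + 1) hn))
  have h0 := ACST0.spk0 (m + 1) 0 hn
  have h1 := ACST0.spk1 (m + 1) 0 hn
  simp only [Nat.cast_zero, sub_zero] at h0 h1
  have e0 := ACST0.x0 hJ _ _ (hc _ h0)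
  have e1 := ACST0.x1 hJ _ _ (hc _ h1)
  have a0 : outT (m + 1) 0 0 = (((((m + 1 : ℕ) : ℤ) - 1, 0) : V), false) := by
    simp [outT]
  have a5 : outT (m + 1) 5 (m + 1 - 1) = (((((m + 1 : ℕ) : ℤ), 0 - 1) : V), true) := by
    rw [Nat.add_sub_cancel, ACST0.out5]
    simp
  rw [a0, a5, ← e2, e0, e1]

end

end CNL
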