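import Pool.Agent.Work.MP_bda6fa_cnl.IA1
set_option autoImplicit false

/-! Block CYC: an open path outside K between two different vertices of K closes up to an even set of edges. -/

namespace CNL
open XorIsing
open scoped Classical
open Finset Relation

namespace XCYC

/-- degree modulo 2 -/
noncomputable def dg (η : Finset Edge) (w : V) : ZMod 2 :=
  (((η.filter (fun e => e.1 = w ∨ tip e = w)).card : ℕ) : ZMod 2)

theorem dg_union {η η' : Finset Edge} (h : Disjoint η η') (w : V) : dg (η ∪ η') w = dg η w + dg η' w := by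
  unfold dg
  rw [filter_union, card_union_of_disjoint, Nat.cast_add]
  rw [disjoint_left] at h ⊢
  intro e he he'
  exact h (mem_filter.1 he).1 (mem_filter.1 he').1

theorem dg_single {e : Edge} {v u : V} (hvu : v ≠ u) (h : (e.1 = v ∧ tip e = u) ∨ (e.1 = u ∧ tip e = v)) (w : V) :
    dg {e} w = (if w = v then 1 else 0) + (if w = u then 1 else 0) := by
  unfold dg
  rw [filter_singleton]
  rcases h with ⟨h1, h2⟩ | ⟨h1, h2⟩
  · rw [h1, h2]
    by_cases hv : w = v
    · subst hv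
      rw [if_pos (Or.inl rfl), if_pos rfl, if_neg hvu]
      simp
    · by_cases hu : w = u
      · subst hu
        rw [if_pos (Or.inr rfl), if_pos rfl, if_neg hv]
        simp
      · rw [if_neg, if_neg hv, if_neg hu]
        · simp
        · rintro (h | h)
          · exact hv h.symm
          · exact hu h.symm
  · rw [h1, h2]
    by_cases hv : w = v
    · subst hv
      rw [if_pos (Or.inr rfl), if_pos rfl, if_neg hvu]
      simp
    · by_cases hu : w = u
      · subst hu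
        rw [if_pos (Or.inl rfl), if_pos rfl, if_neg hv]
        simp
      · rw [if_neg, if_neg hv, if_neg hu]
        · simp
        · rintro (h | h)
          · exact hu h.symm
          · exact hv h.symm

theorem Hx_mono (x : V) {n R : ℕ} (h : n ≤ R) : Hx x n ⊆ Hx x R := by
  intro v hv
  rw [mem_Hx] at hv ⊢
  omega

/-- the walk outside -/
theorem walk {b : Set Edge} {x : V} {n R : ℕ} {u a : V} (hu : u ∈ Hx x R) (hu' : u ∉ Hx x n)
    (h : ReflTransGen (fun a c => c ∈ Hx x R ∧ c ∉ Hx x n ∧ BE b a c) u a) :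
    (a ∈ Hx x R ∧ a ∉ Hx x n) ∧ ReflTransGen (fun a a' => ∃ e, (e ∈ b ∧ (e.1 ∈ Hx x R ∧ tip e ∈ Hx x R) ∧
      e.1 ∉ Hx x n ∧ tip e ∉ Hx x n) ∧ ((e.1 = a ∧ tip e = a') ∨ (e.1 = a' ∧ tip e = a))) u a := by
  induction h with
  | refl => exact ⟨⟨hu, hu'⟩, ReflTransGen.refl⟩
  | tail _ hc ih =>
    obtain ⟨⟨h1, h2⟩, h3⟩ := ih
    obtain ⟨h4, h5, e, he, h6⟩ := hc
    refine ⟨⟨h4, h5⟩, h3.tail ⟨e, ⟨he, ?_, ?_⟩, h6⟩⟩
    · rcases h6 with ⟨h7, h8⟩ | ⟨h7, h8⟩
      · rw [h7, h8]; exact ⟨h1, h4⟩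
      · rw [h7, h8]; exact ⟨h4, h1⟩
    · rcases h6 with ⟨h7, h8⟩ | ⟨h7, h8⟩
      · rw [h7, h8]; exact ⟨h2, h5⟩
      · rw [h7, h8]; exact ⟨h5, h2⟩

theorem mixed {e : Edge} {K : Finset V} {v u : V} (hv : v ∈ K) (hu : u ∉ K)
    (h : (e.1 = v ∧ tip e = u) ∨ (e.1 = u ∧ tip e = v)) : ¬ (e.1 ∈ K ∧ tip e ∈ K) ∧ ¬ (e.1 ∉ K ∧ tip e ∉ K) := by
  rcases h with ⟨h1, h2⟩ | ⟨h1, h2⟩
  · rw [h1, h2]
    exact ⟨fun h => hu h.2, fun h => h.1 hv⟩
  · rw [h1, h2]
    exact ⟨fun h => hu h.1, fun h => h.2 hv⟩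

end XCYC

theorem p_CYC (hPW : S_PW) (hHXC : S_HXC) : S_CYC := by
  intro b x n R v v' u u' e₀ e₁ hv hv' hvv hu hu' huK huK' hnR he₀ hends₀ he₁ hends₁ hpath
  obtain ⟨_, hw⟩ := XCYC.walk hu huK hpath
  obtain ⟨η₁, hη₁, hd₁⟩ := hPW _ _ _ hw
  obtain ⟨η₂, hη₂, hd₂⟩ := hPW _ _ _ (hHXC x n v v' hv hv')
  have m0 := XCYC.mixed hv huK hends₀
  have m1 := XCYC.mixed hv' huK' hends₁
  have hvu : v ≠ u := fun h => huK (h ▸ hv)
  have hvu' : v' ≠ u' := fun h => huK' (h ▸ hv')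
  have hne : e₀ ≠ e₁ := by
    rintro rfl
    rcases hends₀ with ⟨h1, h2⟩ | ⟨h1, h2⟩ <;> rcases hends₁ with ⟨h3, h4⟩ | ⟨h3, h4⟩
    · exact hvv (h1.symm.trans h3)
    · exact huK' (h3.symm.trans h1 ▸ hv)
    · exact huK (h1.symm.trans h3 ▸ hv')
    · exact hvv (h2.symm.trans h4)
  have d12 : Disjoint η₁ η₂ := by
    rw [disjoint_left]
    intro e h1 h2
    exact (hη₁ e h1).2.2.1 (mem_inn.1 (hη₂ e h2)).1
  have d01 : Disjoint ({e₀} : Finset Edge) {e₁} := by
    rw [disjoint_singleton]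
    exact hne
  have dd : Disjoint (η₁ ∪ η₂) ({e₀} ∪ {e₁}) := by
    rw [disjoint_left]
    intro e h1 h2
    rw [mem_union, mem_singleton, mem_singleton] at h2
    rw [mem_union] at h1
    rcases h1 with h1 | h1
    · have h3 := (hη₁ e h1).2.2
      rcases h2 with rfl | rfl
      · exact m0.2 h3
      · exact m1.2 h3
    · have h3 := mem_inn.1 (hη₂ e h1)
      rcases h2 with rfl | rfl
      · exact m0.1 h3
      · exact m1.1 h3
  refine ⟨(η₁ ∪ η₂) ∪ ({e₀} ∪ {e₁}), ?_, ?_, ?_, ?_, ?_⟩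
  · intro w
    have h1 : XCYC.dg ((η₁ ∪ η₂) ∪ ({e₀} ∪ {e₁})) w = 0 := by
      rw [XCYC.dg_union dd, XCYC.dg_union d12, XCYC.dg_union d01,
        XCYC.dg_single hvu hends₀, XCYC.dg_single hvu' hends₁]
      have h2 : XCYC.dg η₁ w = (if w = u then 1 else 0) + (if w = u' then 1 else 0) := hd₁ w
      have h3 : XCYC.dg η₂ w = (if w = v then 1 else 0) + (if w = v' then 1 else 0) := hd₂ w
      rw [h2, h3]
      generalize (if w = u then (1 : ZMod 2) else 0) = a
      generalize (if w = u' then (1 : ZMod 2) else 0) = b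
      generalize (if w = v then (1 : ZMod 2) else 0) = c
      generalize (if w = v' then (1 : ZMod 2) else 0) = d
      revert a b c d
      decide
    unfold XCYC.dg at h1
    exact (ZMod.natCast_eq_zero_iff_even).1 h1
  · simp
  · simp
  · intro e he
    rw [mem_union, mem_union, mem_union, mem_singleton, mem_singleton] at he
    rcases he with (he | he) | (rfl | rfl)
    · exact (hη₁ e he).2.1
    · have h1 := mem_inn.1 (hη₂ e he)
      exact ⟨XCYC.Hx_mono x hnR h1.1, XCYC.Hx_mono x hnR h1.2⟩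
    · rcases hends₀ with ⟨h1, h2⟩ | ⟨h1, h2⟩
      · rw [h1, h2]; exact ⟨XCYC.Hx_mono x hnR hv, hu⟩
      · rw [h1, h2]; exact ⟨hu, XCYC.Hx_mono x hnR hv⟩
    · rcases hends₁ with ⟨h1, h2⟩ | ⟨h1, h2⟩
      · rw [h1, h2]; exact ⟨XCYC.Hx_mono x hnR hv', hu'⟩
      · rw [h1, h2]; exact ⟨hu', XCYC.Hx_mono x hnR hv'⟩
  · intro e he
    rw [mem_union, mem_union, mem_union, mem_singleton, mem_singleton] at he
    rcases he with (he | he) | (he | he)
    · right; right; right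
      exact ⟨(hη₁ e he).1, (hη₁ e he).2.2⟩
    · right; right; left
      exact hη₂ e he
    · exact Or.inl he
    · exact Or.inr (Or.inl he)

end CNL
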