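import Pool.Agent.Work.MP_bda6fa_cnl.A_PCV

set_option autoImplicit false

namespace CNL
open XorIsing
open scoped Classical
open Finset Relation

namespace XDCV

theorem mem_inn' {H : Finset V} {e : Edge} : e ∈ inn H ↔ e.1 ∈ H ∧ tip e ∈ H := by
  unfold inn
  rw [mem_filter, mem_near]
  constructor
  · intro h; exact h.2
  · intro h; exact ⟨Or.inl h.1, h⟩

theorem step {P P' : Edge → Prop} (φT ψT : V × Bool → V × Bool) (φE ψE : Edge → Edge)
    (h1 : ∀ t, ψT (φT t) = t) (h3 : ∀ e, φE (ψE e) = e)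
    (h4 : ∀ e t, e ∈ tri t ↔ φE e ∈ tri (φT t)) (h5 : ∀ e, P' e ↔ P (φE e)) (t t' : V × Bool) :
    TStep P' t t' ↔ TStep P (φT t) (φT t') := by
  constructor
  · rintro ⟨hne, e, he1, he2, he3⟩
    refine ⟨fun h => hne ?_, φE e, (h5 e).1 he1, (h4 e t).1 he2, (h4 e t').1 he3⟩
    rw [← h1 t, ← h1 t', h]
  · rintro ⟨hne, e, he1, he2, he3⟩
    refine ⟨fun h => hne (by rw [h]), ψE e, (h5 _).2 ?_, (h4 _ t).2 ?_, (h4 _ t').2 ?_⟩
    · rw [h3]; exact he1
    · rw [h3]; exact he2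
    · rw [h3]; exact he3

theorem gen {P P' : Edge → Prop} (φT ψT : V × Bool → V × Bool) (φE ψE : Edge → Edge)
    (h1 : ∀ t, ψT (φT t) = t) (h2 : ∀ t, φT (ψT t) = t) (h3 : ∀ e, φE (ψE e) = e)
    (h4 : ∀ e t, e ∈ tri t ↔ φE e ∈ tri (φT t)) (h5 : ∀ e, P' e ↔ P (φE e)) (t t' : V × Bool) :
    ReflTransGen (TStep P') t t' ↔ ReflTransGen (TStep P) (φT t) (φT t') := by
  constructor
  · intro h
    exact ReflTransGen.lift φT (fun a c hac => (step φT ψT φE ψE h1 h3 h4 h5 a c).1 hac) _ _ h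
  · intro h
    have h' : ReflTransGen (TStep P') (ψT (φT t)) (ψT (φT t')) :=
      ReflTransGen.lift ψT (fun a c hac => (step φT ψT φE ψE h1 h3 h4 h5 _ _).2
        (by rw [h2, h2]; exact hac)) _ _ h
    rwa [h1, h1] at h'

theorem tri_tr (x : V) (e : Edge) (t : V × Bool) : e ∈ tri t ↔ trE x e ∈ tri (trT x t) := by
  obtain ⟨⟨e1, e2⟩, k⟩ := e
  obtain ⟨⟨t1, t2⟩, s⟩ := t
  obtain ⟨x1, x2⟩ := x
  cases s
  · simp only [tri, trE, trT, Bool.false_eq_true, if_false, mem_insert, mem_singleton,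
      Prod.mk.injEq, Prod.mk_add_mk]
    constructor
    · rintro (⟨⟨h1, h2⟩, h3⟩ | ⟨⟨h1, h2⟩, h3⟩ | ⟨⟨h1, h2⟩, h3⟩)
      · exact Or.inl ⟨⟨by omega, by omega⟩, h3⟩
      · exact Or.inr (Or.inl ⟨⟨by omega, by omega⟩, h3⟩)
      · exact Or.inr (Or.inr ⟨⟨by omega, by omega⟩, h3⟩)
    · rintro (⟨⟨h1, h2⟩, h3⟩ | ⟨⟨h1, h2⟩, h3⟩ | ⟨⟨h1, h2⟩, h3⟩)
      · exact Or.inl ⟨⟨by omega, by omega⟩, h3⟩
      · exact Or.inr (Or.inl ⟨⟨by omega, by omega⟩, h3⟩)
      · exact Or.inr (Or.inr ⟨⟨by omega, by omega⟩, h3⟩)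
  · simp only [tri, trE, trT, if_true, mem_insert, mem_singleton,
      Prod.mk.injEq, Prod.mk_add_mk]
    constructor
    · rintro (⟨⟨h1, h2⟩, h3⟩ | ⟨⟨h1, h2⟩, h3⟩ | ⟨⟨h1, h2⟩, h3⟩)
      · exact Or.inl ⟨⟨by omega, by omega⟩, h3⟩
      · exact Or.inr (Or.inl ⟨⟨by omega, by omega⟩, h3⟩)
      · exact Or.inr (Or.inr ⟨⟨by omega, by omega⟩, h3⟩)
    · rintro (⟨⟨h1, h2⟩, h3⟩ | ⟨⟨h1, h2⟩, h3⟩ | ⟨⟨h1, h2⟩, h3⟩)
      · exact Or.inl ⟨⟨by omega, by omega⟩, h3⟩
      · exact Or.inr (Or.inl ⟨⟨by omega, by omega⟩, h3⟩)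
      · exact Or.inr (Or.inr ⟨⟨by omega, by omega⟩, h3⟩)

theorem VT_tr (x w : V) (t : V × Bool) : VT w t ↔ VT (w + x) (trT x t) := by
  obtain ⟨w1, w2⟩ := w
  obtain ⟨⟨t1, t2⟩, s⟩ := t
  obtain ⟨x1, x2⟩ := x
  cases s
  · simp only [VT, trT, Bool.false_eq_true, if_false, Prod.mk.injEq, Prod.mk_add_mk]
    omega
  · simp only [VT, trT, if_true, Prod.mk.injEq, Prod.mk_add_mk]
    omega

theorem trT_zero (t : V × Bool) : trT (0, 0) t = t := by
  obtain ⟨⟨t1, t2⟩, s⟩ := t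
  simp [trT]

theorem sub_zero' (v : V) : v - ((0, 0) : V) = v := by
  obtain ⟨v1, v2⟩ := v
  simp

theorem DOK_tr (b : Set Edge) (k n : ℕ) (x : V) (e : Edge) :
    DOK {e | trE x e ∈ b} k (0, 0) n e ↔ DOK b k x n (trE x e) := by
  unfold DOK
  rw [mem_inn', mem_inn', APCV.tip_trE]
  have e1 : (trE x e).1 = e.1 + x := rfl
  rw [e1, ← APCV.Hx_tr x e.1 n, ← APCV.Hx_tr x (tip e) n, sub_zero', sub_zero',
    add_sub_cancel_right, add_sub_cancel_right]
  rfl

theorem DOK_rot (hR : S_ROT6) (b : Set Edge) (k n : ℕ) (e : Edge) :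
    DOK {e | rotE e ∈ b} k (0, 0) n e ↔ DOK b (k + 1) (0, 0) n (rotE e) := by
  obtain ⟨_, _, _, _, _, h6, h7, h8, _, _⟩ := hR
  unfold DOK
  rw [mem_inn', mem_inn', sub_zero', sub_zero', sub_zero', sub_zero']
  have hb : e ∈ {e | rotE e ∈ b} ↔ rotE e ∈ b := Iff.rfl
  rw [hb]
  rcases h8 e with ⟨k1, k2⟩ | ⟨k1, k2⟩
  · rw [k1, k2, h7, h7, h6, h6]
  · rw [k1, k2, h7, h7, h6, h6]
    tauto

end XDCV

open XDCV in
theorem p_DCV (hR : S_ROT6) : S_DCV := by
  intro b k n R x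
  have hR' := hR
  obtain ⟨h1, h2, h3, h4, h5, h6, h7, h8, h9, h10⟩ := hR'
  constructor
  · have htr1 : ∀ t, trT (-x) (trT x t) = t := by
      intro t
      unfold trT
      simp
    have htr2 : ∀ t, trT x (trT (-x) t) = t := by
      intro t
      unfold trT
      simp
    have hte : ∀ e, trE x (trE (-x) e) = e := by
      intro e
      unfold trE
      simp
    have hgen := gen (P := DOK b k x n) (P' := DOK {e | trE x e ∈ b} k (0, 0) n) (trT x)
      (trT (-x)) (trE x) (trE (-x)) htr1 htr2 hte (tri_tr x) (DOK_tr b k n x)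
    constructor
    · rintro ⟨i, hi, t, w, hw, hv, h⟩
      refine ⟨i, hi, trT (-x) t, w - x, ?_, ?_, ?_⟩
      · intro h'
        apply hw
        have := (APCV.Hx_tr x (w - x) R).1 h'
        rwa [sub_add_cancel] at this
      · rw [VT_tr x, htr2, sub_add_cancel]
        exact hv
      · rw [trT_zero, hgen, htr2]
        exact h
    · rintro ⟨i, hi, t, w, hw, hv, h⟩
      refine ⟨i, hi, trT x t, w + x, ?_, ?_, ?_⟩
      · intro h'
        exact hw ((APCV.Hx_tr x w R).2 h')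
      · exact (VT_tr x w t).1 hv
      · rw [trT_zero] at h
        exact (hgen _ _).1 h
  · have hr1 : ∀ t, rotT^[5] (rotT t) = t := by
      intro t
      rw [← Function.iterate_succ_apply rotT 5 t]
      exact h2 t
    have hr2 : ∀ t, rotT (rotT^[5] t) = t := by
      intro t
      rw [← Function.iterate_succ_apply' rotT 5 t]
      exact h2 t
    have hre : ∀ e, rotE (rotE^[5] e) = e := by
      intro e
      rw [← Function.iterate_succ_apply' rotE 5 e]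
      exact h3 e
    have hrv : ∀ v, rot (rot^[5] v) = v := fun v => (APCV.rinv hR v).1
    have hgen := gen (P := DOK b (k + 1) (0, 0) n) (P' := DOK {e | rotE e ∈ b} k (0, 0) n) rotT
      rotT^[5] rotE rotE^[5] hr1 hr2 hre h9 (DOK_rot hR b k n)
    have hout : ∀ i, outT n (k + 1) i = rotT (outT n k i) := by
      intro i
      unfold outT
      rw [Function.iterate_succ_apply']
    constructor
    · rintro ⟨i, hi, t, w, hw, hv, h⟩
      refine ⟨i, hi, rotT^[5] t, rot^[5] w, ?_, ?_, ?_⟩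
      · intro h'
        apply hw
        have := (h7 R (rot^[5] w)).2 h'
        rwa [hrv] at this
      · rw [h10, hr2, hrv]
        exact hv
      · rw [trT_zero, hgen, hr2, ← hout]
        rw [trT_zero] at h
        exact h
    · rintro ⟨i, hi, t, w, hw, hv, h⟩
      refine ⟨i, hi, rotT t, rot w, ?_, ?_, ?_⟩
      · intro h'
        exact hw ((h7 R w).1 h')
      · exact (h10 w t).1 hv
      · rw [trT_zero] at h ⊢
        rw [hout]
        exact (hgen _ _).1 h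

end CNL
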