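import Pool.Agent.Work.MP_bda6fa_cnl.IA1

set_option autoImplicit false

/-!
Block DLC (helper77): dual arms are local, decreasing events.
-/

namespace CNL

open XorIsing
open scoped Classical
open Finset Relation

namespace ADLC

theorem vt_fst (e : Edge) (t : V × Bool) (h : e ∈ tri t) : VT e.1 t := by
  obtain ⟨⟨x, y⟩, b⟩ := t
  obtain ⟨⟨i, j⟩, k⟩ := e
  cases b
  · simp only [tri, Bool.false_eq_true, if_false, mem_insert, mem_singleton, Prod.mk.injEq] at h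
    simp only [VT, Bool.false_eq_true, if_false, Prod.mk_add_mk, Prod.mk.injEq]
    rcases h with ⟨⟨h1, h2⟩, _⟩ | ⟨⟨h1, h2⟩, _⟩ | ⟨⟨h1, h2⟩, _⟩ <;> omega
  · simp only [tri, if_true, mem_insert, mem_singleton, Prod.mk.injEq] at h
    simp only [VT, if_true, Prod.mk_add_mk, Prod.mk.injEq]
    rcases h with ⟨⟨h1, h2⟩, _⟩ | ⟨⟨h1, h2⟩, _⟩ | ⟨⟨h1, h2⟩, _⟩ <;> omega

theorem dok_congr (c c' : Set Edge) (k n : ℕ) (x : V) (e : Edge)
    (hc : e ∈ c ↔ e ∈ c') (h : DOK c k x n e) : DOK c' k x n e := by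
  refine ⟨h.1, ?_⟩
  rcases h.2 with h2 | h2
  · exact Or.inl (fun h3 => h2 (hc.2 h3))
  · exact Or.inr h2

theorem chain (c c' : Set Edge) (k n R : ℕ) (x : V)
    (hc : ∀ e : Edge, e.1 ∈ Hx x R → (e ∈ c ↔ e ∈ c')) (t₀ t : V × Bool)
    (h : ReflTransGen (TStep (DOK c k x n)) t₀ t) (w : V) (hw : w ∉ Hx x R) (hwt : VT w t) :
    ∃ t' w', w' ∉ Hx x R ∧ VT w' t' ∧ ReflTransGen (TStep (DOK c' k x n)) t₀ t' := by
  induction h using ReflTransGen.head_induction_on with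
  | refl => exact ⟨t, w, hw, hwt, ReflTransGen.refl⟩
  | @head a b h1 _ ih =>
    by_cases hout : ∃ w', w' ∉ Hx x R ∧ VT w' a
    · obtain ⟨w', h2, h3⟩ := hout
      exact ⟨a, w', h2, h3, ReflTransGen.refl⟩
    · obtain ⟨t', w', h2, h3, h4⟩ := ih
      refine ⟨t', w', h2, h3, ReflTransGen.head ?_ h4⟩
      obtain ⟨hne, e, he, hea, heb⟩ := h1
      refine ⟨hne, e, dok_congr c c' k n x e (hc e ?_) he, hea, heb⟩
      by_contra hno
      exact hout ⟨e.1, hno, vt_fst e a hea⟩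

theorem arm (c c' : Set Edge) (k n R : ℕ) (x : V)
    (hc : ∀ e : Edge, e.1 ∈ Hx x R → (e ∈ c ↔ e ∈ c')) (h : DArm c k x n R) :
    DArm c' k x n R := by
  obtain ⟨i, hi, t, w, hw, hwt, hch⟩ := h
  obtain ⟨t', w', h2, h3, h4⟩ := chain c c' k n R x hc _ t hch w hw hwt
  exact ⟨i, hi, t', w', h2, h3, h4⟩

end ADLC

open ADLC in
theorem p_DLC : S_DLC := by
  intro k n R x
  refine ⟨⟨Hx x R ×ˢ (Finset.univ : Finset (Fin 3)), fun c c' hc => ?_⟩, fun c c' hcc h => ?_⟩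
  · have hc1 : ∀ e : Edge, e.1 ∈ Hx x R → (e ∈ c ↔ e ∈ c') := fun e he =>
      hc e (Finset.mem_product.2 ⟨he, Finset.mem_univ _⟩)
    exact ⟨arm c c' k n R x hc1, arm c' c k n R x fun e he => (hc1 e he).symm⟩
  · obtain ⟨i, hi, t, w, hw, hwt, hch⟩ := h
    refine ⟨i, hi, t, w, hw, hwt, ReflTransGen.mono ?_ _ _ hch⟩
    rintro a b ⟨hne, e, he, hea, heb⟩
    refine ⟨hne, e, ⟨he.1, ?_⟩, hea, heb⟩
    rcases he.2 with h2 | h2
    · exact Or.inl (fun h3 => h2 (hcc h3))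
    · exact Or.inr h2

end CNL
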