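import Pool.Agent.Work.MP_bda6fa_cnl.IA1
set_option autoImplicit false

namespace CNL
open XorIsing
open scoped Classical
open Finset Relation

namespace ADMN

theorem vtrot {v : V} {t : V × Bool} (h : VT v t) : VT (rot v) (rotT t) := by
  obtain ⟨⟨a1, a2⟩, c⟩ := t
  obtain ⟨v1, v2⟩ := v
  cases c with
  | true =>
    simp only [VT, rotT, rot, if_true, Bool.false_eq_true, if_false, Prod.mk.injEq, Prod.mk_add_mk,
      Prod.mk_sub_mk] at h ⊢
    omega
  | false =>
    simp only [VT, rotT, rot, if_true, Bool.false_eq_true, if_false, Prod.mk.injEq, Prod.mk_add_mk,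
      Prod.mk_sub_mk] at h ⊢
    omega

theorem vtrotk {v : V} {t : V × Bool} (h : VT v t) (k : ℕ) : VT (rot^[k] v) (rotT^[k] t) := by
  induction k with
  | zero => exact h
  | succ k ih =>
    rw [Function.iterate_succ_apply', Function.iterate_succ_apply']
    exact vtrot ih

theorem edge_vert {e : Edge} {t : V × Bool} (h : e ∈ tri t) : VT e.1 t ∧ VT (tip e) t := by
  obtain ⟨⟨a1, a2⟩, c⟩ := t
  obtain ⟨⟨u1, u2⟩, k⟩ := e
  cases c with
  | true =>
    simp only [tri, if_true, mem_insert, mem_singleton, Prod.mk.injEq, Prod.mk_add_mk] at h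
    rcases h with ⟨⟨h1, h2⟩, h3⟩ | ⟨⟨h1, h2⟩, h3⟩ | ⟨⟨h1, h2⟩, h3⟩ <;> subst h3 <;>
    · constructor <;> simp [VT, tip, dir] <;> omega
  | false =>
    simp only [tri, Bool.false_eq_true, if_false, mem_insert, mem_singleton, Prod.mk.injEq,
      Prod.mk_add_mk] at h
    rcases h with ⟨⟨h1, h2⟩, h3⟩ | ⟨⟨h1, h2⟩, h3⟩ | ⟨⟨h1, h2⟩, h3⟩ <;> subst h3 <;>
    · constructor <;> simp [VT, tip, dir] <;> omega

theorem vv {v u : V} {t : V × Bool} (hv : VT v t) (hu : VT u t) (hne : v ≠ u) : Adj v u := by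
  obtain ⟨⟨a1, a2⟩, c⟩ := t
  obtain ⟨v1, v2⟩ := v
  obtain ⟨u1, u2⟩ := u
  have key : (u1 = v1 + 1 ∧ u2 = v2) ∨ (u1 = v1 ∧ u2 = v2 + 1) ∨ (u1 = v1 + 1 ∧ u2 = v2 - 1) ∨
      (v1 = u1 + 1 ∧ v2 = u2) ∨ (v1 = u1 ∧ v2 = u2 + 1) ∨ (v1 = u1 + 1 ∧ v2 = u2 - 1) := by
    rw [Ne, Prod.mk.injEq] at hne
    cases c with
    | true =>
      simp only [VT, if_true, Prod.mk.injEq, Prod.mk_add_mk] at hv hu
      omega
    | false =>
      simp only [VT, Bool.false_eq_true, if_false, Prod.mk.injEq, Prod.mk_add_mk] at hv hu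
      omega
  rcases key with h | h | h | h | h | h
  · exact ⟨0, Or.inl (Prod.ext (by simp [dir]; omega) (by simp [dir]; omega))⟩
  · exact ⟨1, Or.inl (Prod.ext (by simp [dir]; omega) (by simp [dir]; omega))⟩
  · exact ⟨2, Or.inl (Prod.ext (by simp [dir]; omega) (by simp [dir]; omega))⟩
  · exact ⟨0, Or.inr (Prod.ext (by simp [dir]; omega) (by simp [dir]; omega))⟩
  · exact ⟨1, Or.inr (Prod.ext (by simp [dir]; omega) (by simp [dir]; omega))⟩
  · exact ⟨2, Or.inr (Prod.ext (by simp [dir]; omega) (by simp [dir]; omega))⟩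

theorem tip_ne (e : Edge) : e.1 ≠ tip e := by
  obtain ⟨⟨a, b⟩, k⟩ := e
  fin_cases k <;> simp [tip, dir]

/-- a triangle has three vertices -/
theorem third {p q v w : V} {t : V × Bool} (hp : VT p t) (hq : VT q t) (hpq : p ≠ q)
    (hv : VT v t) (hvp : v ≠ p) (hvq : v ≠ q) (hw : VT w t) (hwp : w ≠ p) (hwq : w ≠ q) : w = v := by
  obtain ⟨⟨a1, a2⟩, c⟩ := t
  obtain ⟨v1, v2⟩ := v
  obtain ⟨w1, w2⟩ := w
  obtain ⟨p1, p2⟩ := p
  obtain ⟨q1, q2⟩ := q
  rw [Ne, Prod.mk.injEq] at hpq hvp hvq hwp hwq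
  rw [Prod.mk.injEq]
  cases c with
  | true =>
    simp only [VT, if_true, Prod.mk.injEq, Prod.mk_add_mk] at hp hq hv hw
    rcases hp with h | h | h <;> rcases hq with h' | h' | h' <;> omega
  | false =>
    simp only [VT, Bool.false_eq_true, if_false, Prod.mk.injEq, Prod.mk_add_mk] at hp hq hv hw
    rcases hp with h | h | h <;> rcases hq with h' | h' | h' <;> omega

theorem close {v w : V} {t : V × Bool} (hv : VT v t) (hw : VT w t) {m R : ℕ} (hm : m < R)
    (hvm : v ∈ Hx (0, 0) m) : w ∈ Hx (0, 0) R := by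
  obtain ⟨⟨a1, a2⟩, c⟩ := t
  obtain ⟨v1, v2⟩ := v
  obtain ⟨w1, w2⟩ := w
  rw [mem_Hx] at hvm ⊢
  simp only at hvm ⊢
  cases c with
  | true =>
    simp only [VT, if_true, Prod.mk.injEq, Prod.mk_add_mk] at hv hw
    omega
  | false =>
    simp only [VT, Bool.false_eq_true, if_false, Prod.mk.injEq, Prod.mk_add_mk] at hv hw
    omega

end ADMN

theorem p_DMN (hSDF : S_SDF) (hFAN : S_FAN) : S_DMN := by
  rintro b x n R m R' hn hnm hsub hmR hsub2 ⟨k, hk6, i, hi, t, w, hw, hwt, hch⟩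
  have hm1 : 1 ≤ m := hn.trans hnm
  have hwR' : w ∉ Hx (0, 0) R' := fun h => hw (hsub2 h)
  -- the first triangle
  have hT0 : ∃ v, VT v (trT x (outT n k i)) ∧ v ∈ Hx (0, 0) m := by
    have h1 : VT (rot^[k] ((n : ℤ) - i, (i : ℤ))) (outT n k i) := by
      unfold outT
      apply ADMN.vtrotk
      simp [VT]
    have h2 : (rot^[k] ((n : ℤ) - i, (i : ℤ)) + x : V) ∈ Hx x n := by
      refine (hSDF n x hn).1 k _ ⟨i, hi, ?_⟩
      rw [add_sub_cancel_right]
    refine ⟨_, ?_, hsub h2⟩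
    generalize rot^[k] ((n : ℤ) - i, (i : ℤ)) = v at h1
    generalize outT n k i = s at h1
    obtain ⟨⟨a1, a2⟩, c⟩ := s
    obtain ⟨v1, v2⟩ := v
    obtain ⟨x1, x2⟩ := x
    cases c with
    | true =>
      simp only [VT, trT, if_true, Prod.mk.injEq, Prod.mk_add_mk] at h1 ⊢
      omega
    | false =>
      simp only [VT, trT, Bool.false_eq_true, if_false, Prod.mk.injEq, Prod.mk_add_mk] at h1 ⊢
      omega
  -- the last triangle
  have hlast : ¬ ∃ v, VT v t ∧ v ∈ Hx (0, 0) m := by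
    rintro ⟨v, hv, hvm⟩
    exact hwR' (ADMN.close hv hwt hmR hvm)
  -- crossed edges outside the large hexagon
  have hdok : ∀ e : Edge, DOK b k x n e → e.1 ∉ Hx (0, 0) m → tip e ∉ Hx (0, 0) m →
      ∀ k', DOK b k' (0, 0) m e := by
    intro e he h1 h2 k'
    refine ⟨fun h => h1 (mem_inn.1 h).1, Or.inl ?_⟩
    rcases he.2 with h3 | ⟨-, -, h3⟩
    · exact h3
    · exfalso
      rcases h3 with h4 | h4
      · exact h1 (hsub h4)
      · exact h2 (hsub h4)
  have main : ∀ s, ReflTransGen (TStep (DOK b k x n)) s t →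
      (∃ k' < 6, ∃ i' < m, ReflTransGen (TStep (DOK b k' (0, 0) m)) (outT m k' i') t) ∨
      ((¬ ∃ v, VT v s ∧ v ∈ Hx (0, 0) m) ∧ ∀ k', ReflTransGen (TStep (DOK b k' (0, 0) m)) s t) := by
    intro s hs
    induction hs using ReflTransGen.head_induction_on with
    | refl => exact Or.inr ⟨hlast, fun _ => ReflTransGen.refl⟩
    | head hac hct ih =>
      rename_i a c
      rcases ih with ih | ⟨hc, hcc⟩
      · exact Or.inl ih
      · obtain ⟨hne, e, hDe, hea, hec⟩ := hac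
        obtain ⟨hv1, hv2⟩ := ADMN.edge_vert hec
        obtain ⟨hu1, hu2⟩ := ADMN.edge_vert hea
        have he1 : e.1 ∉ Hx (0, 0) m := fun h => hc ⟨_, hv1, h⟩
        have he2 : tip e ∉ Hx (0, 0) m := fun h => hc ⟨_, hv2, h⟩
        have hstep : ∀ k', TStep (DOK b k' (0, 0) m) a c := fun k' =>
          ⟨hne, e, hdok e hDe he1 he2 k', hea, hec⟩
        by_cases ha : ∃ v, VT v a ∧ v ∈ Hx (0, 0) m
        · left
          obtain ⟨v, hva, hvm⟩ := ha
          have hve1 : v ≠ e.1 := fun h => he1 (h ▸ hvm)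
          have hve2 : v ≠ tip e := fun h => he2 (h ▸ hvm)
          have hadj : Adj v e.1 := ADMN.vv hva hu1 hve1
          obtain ⟨k', hk', hSd⟩ := (hSDF m (0, 0) hm1).2.1 v e.1 hvm he1 hadj
          have hSd' : Sd m k' v := by
            have : v - (0, 0) = v := by simp
            rwa [this] at hSd
          obtain ⟨i', hi', -, hch'⟩ := hFAN m k' v a hm1 hSd' hva (fun w' hw' hwm => by
            have hwe1 : w' ≠ e.1 := fun h => he1 (h ▸ hwm)
            have hwe2 : w' ≠ tip e := fun h => he2 (h ▸ hwm)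
            exact ADMN.third hu1 hu2 (ADMN.tip_ne e) hva hve1 hve2 hw' hwe1 hwe2)
          refine ⟨k', hk', i', hi', ?_⟩
          refine ReflTransGen.trans (ReflTransGen.mono ?_ _ _ hch')
            (ReflTransGen.head (hstep k') (hcc k'))
          rintro p q ⟨hpq, f, hf, hfp, hfq⟩
          refine ⟨hpq, f, ?_, hfp, hfq⟩
          have h0 : ∀ u : V, u - (0, 0) = u := fun u => by simp
          rcases hf with ⟨hf1, hf2⟩ | ⟨hf1, hf2⟩
          · refine ⟨fun h => hf2 (mem_inn.1 h).2, Or.inr ⟨fun _ => ?_, fun h => absurd h hf2, Or.inl ?_⟩⟩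
            · rw [hf1]; exact hSd
            · rw [hf1]; exact hvm
          · refine ⟨fun h => hf2 (mem_inn.1 h).1, Or.inr ⟨fun h => absurd h hf2, fun _ => ?_, Or.inr ?_⟩⟩
            · rw [hf1]; exact hSd
            · rw [hf1]; exact hvm
        · exact Or.inr ⟨ha, fun k' => ReflTransGen.head (hstep k') (hcc k')⟩
  rcases main _ hch with ⟨k', hk', i', hi', h⟩ | ⟨h, -⟩
  · refine ⟨k', hk', i', hi', t, w, hwR', hwt, ?_⟩
    have : trT (0, 0) (outT m k' i') = outT m k' i' := Prod.ext (add_zero _) rfl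
    rw [this]
    exact h
  · exact absurd hT0 h

end CNL
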