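import Pool.Agent.Work.MP_bda6fa_cnl.IA1
set_option autoImplicit false

namespace CNL
open XorIsing
open scoped Classical
open Finset Relation

namespace AFAN

theorem hmem (n : ℕ) (x y : ℤ) : ((x, y) : V) ∈ Hx (0, 0) n ↔
    (-(n : ℤ) ≤ x ∧ x ≤ n) ∧ (-(n : ℤ) ≤ y ∧ y ≤ n) ∧ -(n : ℤ) ≤ x + y ∧ x + y ≤ n := by
  rw [mem_Hx]
  simp

/-- the crossing condition -/
def P (n : ℕ) (v : V) (e : Edge) : Prop :=
  (e.1 = v ∧ tip e ∉ Hx (0, 0) n) ∨ (tip e = v ∧ e.1 ∉ Hx (0, 0) n)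

theorem step1 (n i : ℕ) :
    TStep (P n ((n : ℤ) - i, (i : ℤ))) (outT n 0 i) (((n : ℤ) - i, (i : ℤ)), true) := by
  have e0 : outT n 0 i = ((((n : ℤ) - i - 1, (i : ℤ)) : V), false) := rfl
  rw [e0]
  refine ⟨fun h => by simpa using congrArg Prod.snd h, ((((n : ℤ) - i, (i : ℤ)) : V), 1),
    Or.inl ⟨rfl, ?_⟩, ?_, ?_⟩
  · have : tip ((((n : ℤ) - i, (i : ℤ)) : V), 1) = ((n : ℤ) - i, (i : ℤ) + 1) := by
      simp [tip, dir]
    rw [this, hmem]
    omega
  · simp [tri]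
  · simp [tri]

theorem step2 (n i : ℕ) :
    TStep (P n ((n : ℤ) - i, (i : ℤ))) (((n : ℤ) - i, (i : ℤ)), true)
      ((((n : ℤ) - i, (i : ℤ) - 1) : V), false) := by
  refine ⟨fun h => by simpa using congrArg Prod.snd h, ((((n : ℤ) - i, (i : ℤ)) : V), 0),
    Or.inl ⟨rfl, ?_⟩, ?_, ?_⟩
  · have : tip ((((n : ℤ) - i, (i : ℤ)) : V), 0) = ((n : ℤ) - i + 1, (i : ℤ)) := by
      simp [tip, dir]
    rw [this, hmem]
    omega
  · simp [tri]
  · simp [tri]

theorem base (n : ℕ) (v : V) (t : V × Bool) (hn : 1 ≤ n) (hS : Sd n 0 v) (hV : VT v t)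
    (h : ∀ w, VT w t → w ∈ Hx (0, 0) n → w = v) :
    ∃ i < n, v = rot^[0] ((n : ℤ) - i, (i : ℤ)) ∧ ReflTransGen (TStep (P n v)) (outT n 0 i) t := by
  obtain ⟨i, hi, hv⟩ := hS
  refine ⟨i, hi, hv, ?_⟩
  have hv' : v = ((n : ℤ) - i, (i : ℤ)) := hv
  subst hv'
  obtain ⟨⟨a, c⟩, b⟩ := t
  cases b
  · have hV' : ((n : ℤ) - i = a + 1 ∧ (i : ℤ) = c) ∨ ((n : ℤ) - i = a ∧ (i : ℤ) = c + 1) ∨
        ((n : ℤ) - i = a + 1 ∧ (i : ℤ) = c + 1) := by simpa [VT, Prod.ext_iff] using hV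
    have hw : ∀ x y : ℤ, ((x = a + 1 ∧ y = c) ∨ (x = a ∧ y = c + 1) ∨ (x = a + 1 ∧ y = c + 1)) →
        ((x, y) : V) ∈ Hx (0, 0) n → x = (n : ℤ) - i ∧ y = i := by
      intro x y hxy hH
      have := h (x, y) (by simpa [VT, Prod.ext_iff] using hxy) hH
      exact Prod.ext_iff.1 this
    rcases hV' with h1 | h1 | h1
    · have := hw a (c + 1) (by omega) ((hmem _ _ _).2 (by omega))
      omega
    · rcases Nat.eq_zero_or_pos i with h0 | h0
      · subst h0
        have e : (((a, c) : V), false) = ((((n : ℤ) - (0 : ℕ), ((0 : ℕ) : ℤ) - 1) : V), false) := by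
          have h3 : a = (n : ℤ) - (0 : ℕ) := by omega
          have h4 : c = ((0 : ℕ) : ℤ) - 1 := by omega
          rw [h3, h4]
        rw [e]
        exact ReflTransGen.tail (ReflTransGen.single (step1 n 0)) (step2 n 0)
      · have := hw (a + 1) c (by omega) ((hmem _ _ _).2 (by omega))
        omega
    · have := hw (a + 1) c (by omega) ((hmem _ _ _).2 (by omega))
      omega
  · have hV' : ((n : ℤ) - i = a ∧ (i : ℤ) = c) ∨ ((n : ℤ) - i = a + 1 ∧ (i : ℤ) = c) ∨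
        ((n : ℤ) - i = a ∧ (i : ℤ) = c + 1) := by simpa [VT, Prod.ext_iff] using hV
    have hw : ∀ x y : ℤ, ((x = a ∧ y = c) ∨ (x = a + 1 ∧ y = c) ∨ (x = a ∧ y = c + 1)) →
        ((x, y) : V) ∈ Hx (0, 0) n → x = (n : ℤ) - i ∧ y = i := by
      intro x y hxy hH
      have := h (x, y) (by simpa [VT, Prod.ext_iff] using hxy) hH
      exact Prod.ext_iff.1 this
    rcases hV' with h1 | h1 | h1
    · have e : (((a, c) : V), true) = ((((n : ℤ) - i, (i : ℤ)) : V), true) := by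
        rw [h1.1, h1.2]
      rw [e]
      exact ReflTransGen.single (step1 n i)
    · have := hw a c (by omega) ((hmem _ _ _).2 (by omega))
      omega
    · have := hw a c (by omega) ((hmem _ _ _).2 (by omega))
      omega

end AFAN

theorem p_FAN (hROT6 : S_ROT6) : S_FAN := by
  obtain ⟨r1, r2, r3, r4, r5, r6, r7, r8, r9, r10⟩ := hROT6
  have rinj : ∀ v w : V, rot v = rot w → v = w := by
    intro v w h
    rw [← r1 v, ← r1 w]
    show rot^[5] (rot v) = rot^[5] (rot w)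
    rw [h]
  have tinj : ∀ t t' : V × Bool, rotT t = rotT t' → t = t' := by
    intro v w h
    rw [← r2 v, ← r2 w]
    show rotT^[5] (rotT v) = rotT^[5] (rotT w)
    rw [h]
  suffices H : ∀ (n k : ℕ) (v : V) (t : V × Bool), 1 ≤ n → Sd n k v → VT v t →
      (∀ w, VT w t → w ∈ Hx (0, 0) n → w = v) →
      ∃ i < n, v = rot^[k] ((n : ℤ) - i, (i : ℤ)) ∧
        ReflTransGen (TStep (AFAN.P n v)) (outT n k i) t from H
  intro n k
  induction k with
  | zero => exact fun v t => AFAN.base n v t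
  | succ k ih =>
    intro v t hn hS hV h
    obtain ⟨i0, hi0, hv⟩ := hS
    rw [Function.iterate_succ_apply'] at hv
    set v' : V := rot^[k] ((n : ℤ) - i0, (i0 : ℤ)) with hv'
    have ht : rotT (rotT^[5] t) = t := by
      have := r2 t
      rwa [Function.iterate_succ_apply'] at this
    have hV' : VT v' (rotT^[5] t) := by
      rw [r10, ht, ← hv]
      exact hV
    obtain ⟨i, hi, hvi, hpath⟩ := ih v' (rotT^[5] t) hn ⟨i0, hi0, hv'⟩ hV' (by
      intro w hw hwH
      rw [r10, ht] at hw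
      have := h (rot w) hw ((r7 n w).2 hwH)
      rw [hv] at this
      exact rinj _ _ this)
    refine ⟨i, hi, by rw [Function.iterate_succ_apply', ← hvi]; exact hv, ?_⟩
    have ho : outT n (k + 1) i = rotT (outT n k i) := by
      unfold outT
      rw [Function.iterate_succ_apply']
    have step : ∀ a b : V × Bool, TStep (AFAN.P n v') a b →
        TStep (AFAN.P n v) (rotT a) (rotT b) := by
      rintro a b ⟨hab, e, he, hea, heb⟩
      refine ⟨fun hh => hab (tinj _ _ hh), rotE e, ?_, (r9 e a).1 hea, (r9 e b).1 heb⟩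
      rw [hv]
      unfold AFAN.P at he ⊢
      rcases r8 e with ⟨h1, h2⟩ | ⟨h1, h2⟩ <;> rw [h1, h2, r7, r7] <;>
        rcases he with ⟨h3, h4⟩ | ⟨h3, h4⟩
      · exact Or.inl ⟨by rw [h3], h4⟩
      · exact Or.inr ⟨by rw [h3], h4⟩
      · exact Or.inr ⟨by rw [h3], h4⟩
      · exact Or.inl ⟨by rw [h3], h4⟩
    have key : ∀ s s' : V × Bool, ReflTransGen (TStep (AFAN.P n v')) s s' →
        ReflTransGen (TStep (AFAN.P n v)) (rotT s) (rotT s') := by
      intro s s' hss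
      induction hss with
      | refl => exact ReflTransGen.refl
      | tail _ hbc ih' => exact ih'.tail (step _ _ hbc)
    rw [ho, ← ht]
    exact key _ _ hpath

end CNL
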