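import Pool.Agent.Work.MP_bda6fa_cnl.IA1
import Pool.Agent.Work.MP_bda6fa_nest.ETAB
set_option autoImplicit false

namespace CNL
open XorIsing
open scoped Classical
open Finset Relation

namespace AFAR

theorem noe {η : Finset Edge} {x : V} {R : ℕ} (hη : ∀ e ∈ η, e.1 ∈ Hx x R ∧ tip e ∈ Hx x R) {w : V}
    (hw : w ∉ Hx x R) : NoE η w := by
  intro e he
  obtain ⟨h1, h2⟩ := hη e he
  exact ⟨fun h => hw (h ▸ h1), fun h => hw (h ▸ h2)⟩

theorem around (h : S_PETA) {η : Finset Edge} (hη : EvenAll η) {w : V} (hw : NoE η w) (t : V × Bool)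
    (ht : VT w t) : Par η t ↔ Par η (w, true) := by
  obtain ⟨a, b⟩ := t
  have h0 := etab_tri h hη hw
  cases b with
  | true =>
    have ht' : w = a ∨ w = a + (1, 0) ∨ w = a + (0, 1) := ht
    rcases ht' with h1 | h1 | h1
    · rw [h1]
    · have e : w - (1, 0) = a := by rw [h1]; simp
      rw [e] at h0
      exact h0.1.symm
    · have e : w - (0, 1) = a := by rw [h1]; simp
      rw [e] at h0
      exact h0.2.1.symm
  | false =>
    have ht' : w = a + (1, 0) ∨ w = a + (0, 1) ∨ w = a + (1, 1) := ht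
    rcases ht' with h1 | h1 | h1
    · have e : w - (1, 0) = a := by rw [h1]; simp
      rw [e] at h0
      exact h0.2.2.1.symm
    · have e : w - (0, 1) = a := by rw [h1]; simp
      rw [e] at h0
      exact h0.2.2.2.symm
    · have e1 : w - (1, 0) = a + (0, 1) := by
        rw [h1]
        obtain ⟨a1, a2⟩ := a
        simp
      have e2 : ((w - (1, 0), 0) : Edge) ∉ η := by
        intro he
        refine (hw _ he).2 ?_
        obtain ⟨w1, w2⟩ := w
        simp [tip, dir]
      have e3 := (h η (w - (1, 0), 0) (w - (1, 0), true) (a, false) hη (by simp) (by simp [tri])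
        (by rw [e1]; simp [tri])).2 e2
      exact e3.symm.trans h0.1.symm

theorem direct {η : Finset Edge} {x : V} {R : ℕ} (hη : ∀ e ∈ η, e.1 ∈ Hx x R ∧ tip e ∈ Hx x R) (w : V)
    (hw : x.2 + R < w.2 ∨ w.2 < x.2 - R ∨ x.1 + R < w.1 ∨ x.1 + x.2 + R < w.1 + w.2) :
    ¬ Par η (w, true) := by
  unfold Par
  have h1 : η.filter (fun e => cut ((w, true) : V × Bool) e) = ∅ := by
    rw [filter_eq_empty_iff]
    intro e he hc
    obtain ⟨h1, h2⟩ := hη e he
    obtain ⟨⟨u1, u2⟩, k⟩ := e
    obtain ⟨w1, w2⟩ := w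
    obtain ⟨x1, x2⟩ := x
    rw [mem_Hx] at h1 h2
    rcases hc with ⟨h3, h4, h5⟩ | ⟨h3, h4, h5⟩
    · simp only at h3 h4 h5 h1 hw
      subst h3
      omega
    · simp only [if_true] at h3 h4 h5 h1 hw
      subst h3
      simp [tip, dir] at h2
      omega
  rw [h1]
  simp

theorem column (h : S_PETA) {η : Finset Edge} (hη : EvenAll η) (w1 w2 : ℤ)
    (hno : ∀ j : ℕ, NoE η ((w1, w2 + j) : V)) :
    ∀ j : ℕ, Par η (((w1, w2), true) : V × Bool) ↔ Par η (((w1, w2 + j), true) : V × Bool) := by
  intro j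
  induction j with
  | zero => simp
  | succ j ih =>
    refine ih.trans (etab_dir h hη (hno j) (hno (j + 1)) 1 ?_)
    refine Prod.ext ?_ ?_
    · simp [dir]
    · simp [dir]
      ring

end AFAR

theorem p_FAR (h : S_PETA) : S_FAR := by
  intro η x R hη hin t w hw hVT
  rw [AFAR.around h hη (AFAR.noe hin hw) t hVT]
  have hw0 := hw
  rw [mem_Hx] at hw
  by_cases h0 : x.2 + R < w.2 ∨ w.2 < x.2 - R ∨ x.1 + R < w.1 ∨ x.1 + x.2 + R < w.1 + w.2
  · exact AFAR.direct hin w h0
  push Not at h0
  obtain ⟨w1, w2⟩ := w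
  simp only at h0 hw
  by_cases h1 : w1 < x.1 - R
  · -- go up
    have hout : ∀ j : ℕ, ((w1, w2 + j) : V) ∉ Hx x R := by
      intro j hj
      rw [mem_Hx] at hj
      have := hj.1.1
      simp only at this
      omega
    have h2 := AFAR.column h hη w1 w2 (fun j => AFAR.noe hin (hout j))
      ((x.2 + R + 1 - w2).toNat)
    rw [h2]
    refine AFAR.direct hin _ (Or.inl ?_)
    show x.2 + R < w2 + ((x.2 + R + 1 - w2).toNat : ℤ)
    omega
  · -- go down
    have h3 : w1 + w2 < x.1 + x.2 - R := by omega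
    set J : ℕ := (w2 - (x.2 - R) + 1).toNat with hJ
    have hout : ∀ j : ℕ, j ≤ J → ((w1, w2 - J + j) : V) ∉ Hx x R := by
      intro j hjJ hj
      rw [mem_Hx] at hj
      have := hj.2.2.1
      simp only at this
      omega
    have key : ∀ j : ℕ, j ≤ J → (Par η (((w1, w2 - J), true) : V × Bool) ↔
        Par η (((w1, w2 - J + j), true) : V × Bool)) := by
      intro j
      induction j with
      | zero => intro _; simp
      | succ j ih =>
        intro hj
        refine (ih (by omega)).trans (etab_dir h hη (AFAR.noe hin (hout j (by omega)))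
          (AFAR.noe hin (hout (j + 1) hj)) 1 ?_)
        refine Prod.ext ?_ ?_
        · simp [dir]
        · simp [dir]
          ring
    have h4 := key J le_rfl
    have e : w2 - (J : ℤ) + J = w2 := by ring
    rw [e] at h4
    rw [← h4]
    refine AFAR.direct hin _ (Or.inr (Or.inl ?_))
    show w2 - (J : ℤ) < x.2 - R
    omega

end CNL
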