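import Pool.Agent.Work.MP_bda6fa_cnl.IA1

set_option autoImplicit false

namespace CNL
open XorIsing
open scoped Classical
open Finset Relation

namespace XFLP0

theorem z2 : ∀ x y z : ZMod 2, x + z = (x + y) + (y + z) := by decide

theorem outT0 (n i : ℕ) : outT n 0 i = ((((n : ℤ) - i - 1, (i : ℤ)) : V), false) := rfl

theorem outT5 (n : ℕ) (hn : 1 ≤ n) : outT n 5 (n - 1) = ((((n : ℤ), (-1 : ℤ)) : V), true) := by
  have h : ((n - 1 : ℕ) : ℤ) = (n : ℤ) - 1 := by omega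
  show rotT (rotT (rotT (rotT (rotT ((((n : ℤ) - ((n - 1 : ℕ) : ℤ) - 1, ((n - 1 : ℕ) : ℤ)) : V), false))))) = _
  rw [h]
  simp only [rotT, rot, if_true, Bool.false_eq_true, if_false]
  ext
  · simp
  · simp
    ring
  · rfl

/-- the spikes at the vertex number j -/
theorem spk_mk (n : ℕ) (hn : 1 ≤ n) (j : ℕ) (hj : j < n) (k : Fin 3)
    (hk : k = 0 ∨ k = 1 ∨ (k = 2 ∧ j = 0)) :
    Spk n 0 (0, 0) ((((n : ℤ) - j, (j : ℤ)) : V), k) := by
  left
  refine ⟨⟨j, hj, ?_⟩, ?_⟩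
  · show ((((n : ℤ) - j, (j : ℤ)) : V)) - ((0, 0) : V) = ((n : ℤ) - j, (j : ℤ))
    apply Prod.ext
    · show (n : ℤ) - j - 0 = (n : ℤ) - j
      ring
    · show (j : ℤ) - 0 = (j : ℤ)
      ring
  · intro h
    rw [mem_Hx] at h
    rcases hk with rfl | rfl | ⟨rfl, rfl⟩
    · have e1 : (tip ((((n : ℤ) - j, (j : ℤ)) : V), (0 : Fin 3))).1 = (n : ℤ) - j + 1 := rfl
      have e2 : (tip ((((n : ℤ) - j, (j : ℤ)) : V), (0 : Fin 3))).2 = (j : ℤ) + 0 := rfl
      rw [e1, e2] at h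
      simp only at h
      omega
    · have e1 : (tip ((((n : ℤ) - j, (j : ℤ)) : V), (1 : Fin 3))).1 = (n : ℤ) - j + 0 := rfl
      have e2 : (tip ((((n : ℤ) - j, (j : ℤ)) : V), (1 : Fin 3))).2 = (j : ℤ) + 1 := rfl
      rw [e1, e2] at h
      simp only at h
      omega
    · have e1 : (tip ((((n : ℤ) - (0 : ℕ), ((0 : ℕ) : ℤ)) : V), (2 : Fin 3))).1 =
          (n : ℤ) - (0 : ℕ) + 1 := rfl
      have e2 : (tip ((((n : ℤ) - (0 : ℕ), ((0 : ℕ) : ℤ)) : V), (2 : Fin 3))).2 =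
          ((0 : ℕ) : ℤ) + -1 := rfl
      rw [e1, e2] at h
      simp only at h
      push_cast at h
      omega

theorem tip0 (v : V) : tip (v, (0 : Fin 3)) = (v.1 + 1, v.2 + 0) := rfl
theorem tip1 (v : V) : tip (v, (1 : Fin 3)) = (v.1 + 0, v.2 + 1) := rfl
theorem tip2 (v : V) : tip (v, (2 : Fin 3)) = (v.1 + 1, v.2 + -1) := rfl

/-- the form of a spike -/
theorem spk_form (n : ℕ) (hn : 1 ≤ n) (e : Edge) (he : Spk n 0 (0, 0) e) :
    ∃ J : ℕ, J < n ∧ ∃ k : Fin 3, e = ((((n : ℤ) - J, (J : ℤ)) : V), k) ∧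
      (k = 0 ∨ k = 1 ∨ (k = 2 ∧ J = 0)) := by
  obtain ⟨v, k⟩ := e
  rcases he with ⟨⟨i, hi, h⟩, hout⟩ | ⟨⟨i, hi, h⟩, hout⟩
  · have h1 : v.1 - 0 = (n : ℤ) - i := congrArg Prod.fst h
    have h2 : v.2 - 0 = (i : ℤ) := congrArg Prod.snd h
    have hv : v = ((n : ℤ) - i, (i : ℤ)) := Prod.ext (by rw [← h1]; ring) (by rw [← h2]; ring)
    refine ⟨i, hi, k, by rw [hv], ?_⟩
    fin_cases k
    · exact Or.inl rfl
    · exact Or.inr (Or.inl rfl)
    · refine Or.inr (Or.inr ⟨rfl, ?_⟩)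
      by_contra hi0
      apply hout
      show tip (v, (2 : Fin 3)) ∈ Hx (0, 0) n
      rw [tip2, mem_Hx]
      simp only
      omega
  · exfalso
    apply hout
    show v ∈ Hx (0, 0) n
    rw [mem_Hx]
    fin_cases k
    · have h' : tip (v, (0 : Fin 3)) - ((0, 0) : V) = ((n : ℤ) - i, (i : ℤ)) := h
      rw [tip0] at h'
      have h1 : v.1 + 1 - 0 = (n : ℤ) - i := congrArg Prod.fst h'
      have h2 : v.2 + 0 - 0 = (i : ℤ) := congrArg Prod.snd h'
      simp only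
      omega
    · have h' : tip (v, (1 : Fin 3)) - ((0, 0) : V) = ((n : ℤ) - i, (i : ℤ)) := h
      rw [tip1] at h'
      have h1 : v.1 + 0 - 0 = (n : ℤ) - i := congrArg Prod.fst h'
      have h2 : v.2 + 1 - 0 = (i : ℤ) := congrArg Prod.snd h'
      simp only
      omega
    · have h' : tip (v, (2 : Fin 3)) - ((0, 0) : V) = ((n : ℤ) - i, (i : ℤ)) := h
      rw [tip2] at h'
      have h1 : v.1 + 1 - 0 = (n : ℤ) - i := congrArg Prod.fst h'
      have h2 : v.2 + -1 - 0 = (i : ℤ) := congrArg Prod.snd h'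
      simp only
      omega

theorem vinj {n : ℕ} {i J : ℕ} {k l : Fin 3}
    (h : (((((n : ℤ) - i, (i : ℤ)) : V), k) : Edge) = ((((n : ℤ) - J, (J : ℤ)) : V), l)) :
    i = J ∧ k = l := by
  have h1 : (i : ℤ) = J := congrArg (fun e : Edge => e.1.2) h
  have h2 : k = l := congrArg Prod.snd h
  exact ⟨by exact_mod_cast h1, h2⟩

end XFLP0

open XFLP0 in
theorem p_FLP0 : S_FLP0 := by
  intro n f c e₀ hn hJ he₀ hc1 hc0
  obtain ⟨J, hJn, k₀, rfl, hk₀⟩ := spk_form n hn e₀ he₀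
  have cs : ∀ j < n, ∀ k : Fin 3, (k = 0 ∨ k = 1 ∨ (k = 2 ∧ j = 0)) →
      c ((((n : ℤ) - j, (j : ℤ)) : V), k) = if j = J ∧ k = k₀ then 1 else 0 := by
    intro j hj k hk
    by_cases h : j = J ∧ k = k₀
    · rw [if_pos h, h.1, h.2]
      exact hc1
    · rw [if_neg h]
      exact hc0 _ (spk_mk n hn j hj k hk) fun h' => h (vinj h')
  have key : ∀ i < n, f (outT n 5 (n - 1)) + f (outT n 0 i) = if J ≤ i then 1 else 0 := by
    intro i
    induction i with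
    | zero =>
      intro _
      rw [outT5 n hn, outT0]
      have s1 := hJ ((((n : ℤ) - (0 : ℕ), ((0 : ℕ) : ℤ)) : V), 2) ((((n : ℤ), (-1 : ℤ)) : V), true)
        ((((n : ℤ), (-1 : ℤ)) : V), false) (by simp) (by simp [tri]) (by simp [tri])
      have s2 := hJ ((((n : ℤ) - (0 : ℕ), ((0 : ℕ) : ℤ)) : V), 0) ((((n : ℤ), (-1 : ℤ)) : V), false)
        ((((n : ℤ), (0 : ℤ)) : V), true) (by simp) (by simp [tri]) (by simp [tri])
      have s3 := hJ ((((n : ℤ) - (0 : ℕ), ((0 : ℕ) : ℤ)) : V), 1) ((((n : ℤ), (0 : ℤ)) : V), true)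
        ((((n : ℤ) - (0 : ℕ) - 1, ((0 : ℕ) : ℤ)) : V), false) (by simp) (by simp [tri]) (by simp [tri])
      rw [cs 0 (by omega) 2 (Or.inr (Or.inr ⟨rfl, rfl⟩))] at s1
      rw [cs 0 (by omega) 0 (Or.inl rfl)] at s2
      rw [cs 0 (by omega) 1 (Or.inr (Or.inl rfl))] at s3
      rw [z2 _ (f ((((n : ℤ), (0 : ℤ)) : V), true)) _,
        z2 _ (f ((((n : ℤ), (-1 : ℤ)) : V), false)) (f ((((n : ℤ), (0 : ℤ)) : V), true)), s1, s2, s3]
      by_cases hJ0 : J = 0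
      · subst hJ0
        rcases hk₀ with rfl | rfl | ⟨rfl, _⟩ <;> simp
      · have h1 : ¬ J ≤ 0 := by omega
        have h2 : ∀ k : Fin 3, ¬ (0 = J ∧ k = k₀) := fun k h => hJ0 h.1.symm
        rw [if_neg h1, if_neg (h2 2), if_neg (h2 0), if_neg (h2 1)]
        simp
    | succ i ih =>
      intro hi
      have ih' := ih (by omega)
      rw [z2 _ (f (outT n 0 i)) _, ih']
      have hcast : ((i + 1 : ℕ) : ℤ) = (i : ℤ) + 1 := by push_cast; ring
      have s1 := hJ ((((n : ℤ) - (i + 1 : ℕ), ((i + 1 : ℕ) : ℤ)) : V), 0)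
        ((((n : ℤ) - i - 1, (i : ℤ)) : V), false)
        ((((n : ℤ) - (i + 1 : ℕ), ((i + 1 : ℕ) : ℤ)) : V), true) (by simp)
        (by rw [hcast]; simp [tri]; ring) (by simp [tri])
      have s2 := hJ ((((n : ℤ) - (i + 1 : ℕ), ((i + 1 : ℕ) : ℤ)) : V), 1)
        ((((n : ℤ) - (i + 1 : ℕ), ((i + 1 : ℕ) : ℤ)) : V), true)
        ((((n : ℤ) - (i + 1 : ℕ) - 1, ((i + 1 : ℕ) : ℤ)) : V), false) (by simp)
        (by simp [tri]) (by simp [tri])
      rw [cs (i + 1) hi 0 (Or.inl rfl)] at s1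
      rw [cs (i + 1) hi 1 (Or.inr (Or.inl rfl))] at s2
      rw [outT0, outT0, z2 (f ((((n : ℤ) - i - 1, (i : ℤ)) : V), false))
        (f ((((n : ℤ) - (i + 1 : ℕ), ((i + 1 : ℕ) : ℤ)) : V), true)) _, s1, s2]
      by_cases h1 : J = i + 1
      · have hk' : k₀ = 0 ∨ k₀ = 1 := by
          rcases hk₀ with h | h | ⟨_, h⟩
          · exact Or.inl h
          · exact Or.inr h
          · omega
        have h2 : ¬ J ≤ i := by omega
        have h3 : J ≤ i + 1 := by omega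
        rw [if_neg h2, if_pos h3]
        rcases hk' with rfl | rfl <;> simp [h1]
      · have h2 : ∀ k : Fin 3, ¬ (i + 1 = J ∧ k = k₀) := fun k h => h1 h.1.symm
        rw [if_neg (h2 0), if_neg (h2 1), add_zero, add_zero]
        by_cases h3 : J ≤ i
        · rw [if_pos h3, if_pos (by omega)]
        · rw [if_neg h3, if_neg (by omega)]
  rw [key (n - 1) (by omega), if_pos (by omega)]

end CNL
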