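import Pool.Agent.Work.MP_bda6fa_cnl.IA1

set_option autoImplicit false

/-! Block HXC (helper60): the hexagon is connected. -/

namespace CNL
open XorIsing
open scoped Classical
open Finset Relation

namespace AHXC

/-- adjacency inside the hexagon -/
def Rl (x : V) (n : ℕ) (a a' : V) : Prop :=
  ∃ e, e ∈ inn (Hx x n) ∧ ((e.1 = a ∧ tip e = a') ∨ (e.1 = a' ∧ tip e = a))

theorem Rl.symm {x : V} {n : ℕ} {a a' : V} (h : Rl x n a a') : Rl x n a' a := by
  obtain ⟨e, he, h⟩ := h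
  exact ⟨e, he, h.symm⟩

theorem fwd {x : V} {n : ℕ} {a a' : V} (k : Fin 3) (ha : a ∈ Hx x n) (ha' : a' ∈ Hx x n)
    (h : a' = a + dir k) : Rl x n a a' := by
  refine ⟨(a, k), mem_inn.2 ⟨ha, ?_⟩, Or.inl ⟨rfl, h.symm⟩⟩
  change a + dir k ∈ Hx x n
  rwa [← h]

theorem step {x v : V} {n : ℕ} (hv : v ∈ Hx x n) (hx : v ≠ x) :
    ∃ v' ∈ Hx x n, Rl x n v v' ∧
      (v'.1 - x.1).natAbs + (v'.2 - x.2).natAbs < (v.1 - x.1).natAbs + (v.2 - x.2).natAbs := by
  have hv' := mem_Hx.1 hv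
  have hne : v.1 ≠ x.1 ∨ v.2 ≠ x.2 := by
    by_contra h
    push Not at h
    exact hx (Prod.ext h.1 h.2)
  by_cases h1 : x.1 < v.1
  · by_cases h2 : v.2 < x.2
    · have hm : ((v.1 - 1, v.2 + 1) : V) ∈ Hx x n := mem_Hx.2 (by
        refine ⟨⟨?_, ?_⟩, ⟨?_, ?_⟩, ?_, ?_⟩ <;> simp only <;> omega)
      refine ⟨_, hm, (fwd 2 hm hv ?_).symm, ?_⟩
      · ext <;> simp [dir]
      · simp only
        omega
    · have hm : ((v.1 - 1, v.2) : V) ∈ Hx x n := mem_Hx.2 (by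
        refine ⟨⟨?_, ?_⟩, ⟨?_, ?_⟩, ?_, ?_⟩ <;> simp only <;> omega)
      refine ⟨_, hm, (fwd 0 hm hv ?_).symm, ?_⟩
      · ext <;> simp [dir]
      · simp only
        omega
  · by_cases h3 : v.1 < x.1
    · by_cases h2 : x.2 < v.2
      · have hm : ((v.1 + 1, v.2 - 1) : V) ∈ Hx x n := mem_Hx.2 (by
          refine ⟨⟨?_, ?_⟩, ⟨?_, ?_⟩, ?_, ?_⟩ <;> simp only <;> omega)
        refine ⟨_, hm, fwd 2 hv hm ?_, ?_⟩
        · ext <;> simp [dir, sub_eq_add_neg]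
        · simp only
          omega
      · have hm : ((v.1 + 1, v.2) : V) ∈ Hx x n := mem_Hx.2 (by
          refine ⟨⟨?_, ?_⟩, ⟨?_, ?_⟩, ?_, ?_⟩ <;> simp only <;> omega)
        refine ⟨_, hm, fwd 0 hv hm ?_, ?_⟩
        · ext <;> simp [dir]
        · simp only
          omega
    · by_cases h2 : x.2 < v.2
      · have hm : ((v.1, v.2 - 1) : V) ∈ Hx x n := mem_Hx.2 (by
          refine ⟨⟨?_, ?_⟩, ⟨?_, ?_⟩, ?_, ?_⟩ <;> simp only <;> omega)
        refine ⟨_, hm, (fwd 1 hm hv ?_).symm, ?_⟩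
        · ext <;> simp [dir]
        · simp only
          omega
      · have hm : ((v.1, v.2 + 1) : V) ∈ Hx x n := mem_Hx.2 (by
          refine ⟨⟨?_, ?_⟩, ⟨?_, ?_⟩, ?_, ?_⟩ <;> simp only <;> omega)
        refine ⟨_, hm, fwd 1 hv hm ?_, ?_⟩
        · ext <;> simp [dir]
        · simp only
          omega

theorem join {x : V} {n : ℕ} (N : ℕ) : ∀ v ∈ Hx x n,
    (v.1 - x.1).natAbs + (v.2 - x.2).natAbs ≤ N → ReflTransGen (Rl x n) v x := by
  induction N with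
  | zero =>
    intro v hv h
    have : v = x := Prod.ext (by omega) (by omega)
    rw [this]
  | succ N ih =>
    intro v hv h
    by_cases hx : v = x
    · rw [hx]
    · obtain ⟨v', hv', h1, h2⟩ := step hv hx
      exact ReflTransGen.head h1 (ih v' hv' (by omega))

end AHXC

theorem AHXC.inst (x : V) (n : ℕ) : Std.Symm (AHXC.Rl x n) := ⟨fun _ _ h => AHXC.Rl.symm h⟩

theorem p_HXC : S_HXC := by
  intro x n v w hv hw
  have h1 : ReflTransGen (AHXC.Rl x n) v x := AHXC.join _ v hv le_rfl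
  have h2 : ReflTransGen (AHXC.Rl x n) w x := AHXC.join _ w hw le_rfl
  have h3 : ReflTransGen (AHXC.Rl x n) x w :=
    haveI := AHXC.inst x n
    (ReflTransGen.symmetric (r := AHXC.Rl x n)).symm _ _ h2
  exact h1.trans h3

end CNL
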