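import Pool.Agent.Work.MP_bda6fa_cnl.IA1
set_option autoImplicit false

/-! Block JRT (helper9): rotations and translations of jump functions. -/

namespace CNL
open XorIsing
open scoped Classical
open Finset Relation

namespace AJRT

theorem rotT_inj : Function.Injective rotT := by
  rintro ⟨⟨v1, v2⟩, b⟩ ⟨⟨w1, w2⟩, b'⟩ h
  cases b <;> cases b' <;>
    simp only [rotT, rot, Prod.mk.injEq, Prod.mk_sub_mk, Prod.mk_add_mk, if_true,
      Bool.false_eq_true, if_false, and_true, and_false, reduceCtorEq] at h ⊢
  · omega
  · omega

theorem trT_inj (x : V) : Function.Injective (trT x) := by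
  rintro ⟨v, b⟩ ⟨w, b'⟩ h
  simp only [trT, Prod.mk.injEq, add_left_inj] at h ⊢
  exact h

theorem rotE0 (v : V) : rotE (v, 0) = (rot v, 1) := by simp [rotE]
theorem rotE1 (v : V) : rotE (v, 1) = (rot (v + (0, 1)), 2) := by simp [rotE]
theorem rotE2 (v : V) : rotE (v, 2) = (rot v, 0) := by simp [rotE]

theorem rotE_mem {e : Edge} {t : V × Bool} (h : e ∈ tri t) : rotE e ∈ tri (rotT t) := by
  obtain ⟨⟨v1, v2⟩, b⟩ := t
  cases b
  · simp only [tri, Bool.false_eq_true, if_false, mem_insert, mem_singleton] at h
    rcases h with rfl | rfl | rfl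
    · simp only [rotE0, rotE1, rotE2, rotT, tri, rot, mem_insert, mem_singleton, Prod.mk.injEq, Prod.mk_add_mk,
        Bool.false_eq_true, if_false, if_true]
      left
      refine ⟨⟨?_, ?_⟩, ?_⟩
      all_goals first | omega | rfl | decide
    · simp only [rotE0, rotE1, rotE2, rotT, tri, rot, mem_insert, mem_singleton, Prod.mk.injEq, Prod.mk_add_mk,
        Bool.false_eq_true, if_false, if_true]
      right; left
      refine ⟨⟨?_, ?_⟩, ?_⟩
      all_goals first | omega | rfl | decide
    · simp only [rotE0, rotE1, rotE2, rotT, tri, rot, mem_insert, mem_singleton, Prod.mk.injEq, Prod.mk_add_mk,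
        Bool.false_eq_true, if_false, if_true]
      right; right
      refine ⟨⟨?_, ?_⟩, ?_⟩
      all_goals first | omega | rfl | decide
  · simp only [tri, if_true, mem_insert, mem_singleton] at h
    rcases h with rfl | rfl | rfl
    · simp only [rotE0, rotE1, rotE2, rotT, tri, rot, mem_insert, mem_singleton, Prod.mk.injEq, Prod.mk_add_mk,
        Prod.mk_sub_mk, Bool.false_eq_true, if_false, if_true]
      right; right
      refine ⟨⟨?_, ?_⟩, ?_⟩
      all_goals first | omega | rfl | decide
    · simp only [rotE0, rotE1, rotE2, rotT, tri, rot, mem_insert, mem_singleton, Prod.mk.injEq, Prod.mk_add_mk,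
        Prod.mk_sub_mk, Bool.false_eq_true, if_false, if_true]
      left
      refine ⟨⟨?_, ?_⟩, ?_⟩
      all_goals first | omega | rfl | decide
    · simp only [rotE0, rotE1, rotE2, rotT, tri, rot, mem_insert, mem_singleton, Prod.mk.injEq, Prod.mk_add_mk,
        Prod.mk_sub_mk, Bool.false_eq_true, if_false, if_true]
      right; left
      refine ⟨⟨?_, ?_⟩, ?_⟩
      all_goals first | omega | rfl | decide

theorem trE_mem (x : V) {e : Edge} {t : V × Bool} (h : e ∈ tri t) : trE x e ∈ tri (trT x t) := by
  obtain ⟨v, b⟩ := t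
  cases b
  · simp only [tri, Bool.false_eq_true, if_false, mem_insert, mem_singleton] at h
    simp only [trT, trE, tri, Bool.false_eq_true, if_false, mem_insert, mem_singleton]
    rcases h with rfl | rfl | rfl
    · left; rw [add_right_comm]
    · right; left; rw [add_right_comm]
    · right; right; rw [add_right_comm]
  · simp only [tri, if_true, mem_insert, mem_singleton] at h
    simp only [trT, trE, tri, if_true, mem_insert, mem_singleton]
    rcases h with rfl | rfl | rfl
    · left; rfl
    · right; left; rfl
    · right; right; rw [add_right_comm]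

theorem step {f : V × Bool → ZMod 2} {c : Edge → ZMod 2} (h : Jmp f c) :
    Jmp (fun t => f (rotT t)) (fun e => c (rotE e)) := by
  intro e t t' hne h1 h2
  exact h (rotE e) (rotT t) (rotT t') (fun hh => hne (rotT_inj hh)) (rotE_mem h1) (rotE_mem h2)

end AJRT

theorem p_JRT : S_JRT := by
  intro f c h
  refine ⟨fun k => ?_, fun x => ?_⟩
  · induction k with
    | zero => exact h
    | succ k ih =>
      have h1 := AJRT.step ih
      exact h1
  · intro e t t' hne h1 h2
    exact h (trE x e) (trT x t) (trT x t') (fun hh => hne (AJRT.trT_inj x hh))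
      (AJRT.trE_mem x h1) (AJRT.trE_mem x h2)

end CNL
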