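import Pool.Agent.Work.MP_bda6fa_cnl.IA1
set_option autoImplicit false

namespace CNL
open XorIsing
open scoped Classical
open Finset Relation

noncomputable section

namespace APCV

theorem tip_trE (x : V) (e : Edge) : tip (trE x e) = tip e + x := by
  unfold tip trE
  simp only
  abel

theorem BE_tr (b : Set Edge) (x a c : V) : BE {e | trE x e ∈ b} a c ↔ BE b (a + x) (c + x) := by
  constructor
  · rintro ⟨e, he, h⟩
    refine ⟨trE x e, he, ?_⟩
    rw [tip_trE]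
    have e1 : (trE x e).1 = e.1 + x := rfl
    rw [e1]
    rcases h with ⟨h1, h2⟩ | ⟨h1, h2⟩
    · left; rw [h1, h2]; exact ⟨rfl, rfl⟩
    · right; rw [h1, h2]; exact ⟨rfl, rfl⟩
  · rintro ⟨e, he, h⟩
    have e0 : trE x (e.1 - x, e.2) = e := by
      unfold trE
      simp
    refine ⟨(e.1 - x, e.2), ?_, ?_⟩
    · show trE x (e.1 - x, e.2) ∈ b
      rw [e0]; exact he
    · have e2 : tip ((e.1 - x, e.2) : Edge) = tip e - x := by
        unfold tip
        simp only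
        abel
      rw [e2]
      simp only
      rcases h with ⟨h1, h2⟩ | ⟨h1, h2⟩
      · left; rw [h1, h2]; simp
      · right; rw [h1, h2]; simp

theorem Hx_tr (x v : V) (n : ℕ) : v ∈ Hx (0, 0) n ↔ v + x ∈ Hx x n := by
  rw [mem_Hx, mem_Hx]
  simp only [Prod.fst_add, Prod.snd_add]
  constructor
  · rintro ⟨⟨h1, h2⟩, ⟨h3, h4⟩, h5, h6⟩
    refine ⟨⟨?_, ?_⟩, ⟨?_, ?_⟩, ?_, ?_⟩ <;> omega
  · rintro ⟨⟨h1, h2⟩, ⟨h3, h4⟩, h5, h6⟩
    refine ⟨⟨?_, ?_⟩, ⟨?_, ?_⟩, ?_, ?_⟩ <;> omega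

theorem PCon_tr (b : Set Edge) (x a c : V) (n : ℕ) :
    PCon {e | trE x e ∈ b} (Hx (0, 0) n) a c ↔ PCon b (Hx x n) (a + x) (c + x) := by
  constructor
  · intro h
    exact ReflTransGen.lift (r := fun a c => c ∉ Hx (0, 0) n ∧ BE {e | trE x e ∈ b} a c)
      (p := fun a c => c ∉ Hx x n ∧ BE b a c) (fun v : V => v + x) (fun u v huv =>
      ⟨fun h' => huv.1 ((Hx_tr x v n).2 h'), (BE_tr b x u v).1 huv.2⟩) _ _ h
  · intro h
    have h2 : ReflTransGen (fun a c => c ∉ Hx (0, 0) n ∧ BE {e | trE x e ∈ b} a c) (a + x - x) (c + x - x) :=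
      ReflTransGen.lift (r := fun a c => c ∉ Hx x n ∧ BE b a c)
      (p := fun a c => c ∉ Hx (0, 0) n ∧ BE {e | trE x e ∈ b} a c) (fun v : V => v - x) (fun u v huv => by
      refine ⟨fun h' => huv.1 ?_, (BE_tr b x _ _).2 ?_⟩
      · have := (Hx_tr x (v - x) n).1 h'
        rwa [sub_add_cancel] at this
      · rw [sub_add_cancel, sub_add_cancel]; exact huv.2) _ _ h
    rw [add_sub_cancel_right, add_sub_cancel_right] at h2
    exact h2

theorem rinv (hR : S_ROT6) (v : V) : rot (rot^[5] v) = v ∧ rot^[5] (rot v) = v := by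
  have h := hR.1 v
  constructor
  · rw [← Function.iterate_succ_apply' rot 5 v]; exact h
  · rw [← Function.iterate_succ_apply rot 5 v]; exact h

theorem rot_inj (hR : S_ROT6) {u v : V} (h : rot u = rot v) : u = v := by
  rw [← (rinv hR u).2, ← (rinv hR v).2, h]

theorem BE_rot (hR : S_ROT6) (b : Set Edge) (a c : V) : BE {e | rotE e ∈ b} a c ↔ BE b (rot a) (rot c) := by
  obtain ⟨h1, h2, h3, h4, h5, h6, h7, h8, h9, h10⟩ := hR
  have hR : S_ROT6 := ⟨h1, h2, h3, h4, h5, h6, h7, h8, h9, h10⟩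
  constructor
  · rintro ⟨e, he, h⟩
    refine ⟨rotE e, he, ?_⟩
    rcases h8 e with ⟨k1, k2⟩ | ⟨k1, k2⟩ <;> rcases h with ⟨l1, l2⟩ | ⟨l1, l2⟩ <;> rw [k1, k2, l1, l2]
    · left; exact ⟨rfl, rfl⟩
    · right; exact ⟨rfl, rfl⟩
    · right; exact ⟨rfl, rfl⟩
    · left; exact ⟨rfl, rfl⟩
  · rintro ⟨e, he, h⟩
    have e0 : rotE (rotE^[5] e) = e := by
      rw [← Function.iterate_succ_apply' rotE 5 e]; exact h3 e
    refine ⟨rotE^[5] e, ?_, ?_⟩
    · show rotE (rotE^[5] e) ∈ b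
      rw [e0]; exact he
    · have := h8 (rotE^[5] e)
      rw [e0] at this
      rcases this with ⟨k1, k2⟩ | ⟨k1, k2⟩ <;> rcases h with ⟨l1, l2⟩ | ⟨l1, l2⟩
      · left; exact ⟨rot_inj hR (k1.symm.trans l1), rot_inj hR (k2.symm.trans l2)⟩
      · right; exact ⟨rot_inj hR (k1.symm.trans l1), rot_inj hR (k2.symm.trans l2)⟩
      · right; exact ⟨rot_inj hR (k2.symm.trans l2), rot_inj hR (k1.symm.trans l1)⟩
      · left; exact ⟨rot_inj hR (k2.symm.trans l2), rot_inj hR (k1.symm.trans l1)⟩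

theorem PCon_rot (hR : S_ROT6) (b : Set Edge) (a c : V) (n : ℕ) :
    PCon {e | rotE e ∈ b} (Hx (0, 0) n) a c ↔ PCon b (Hx (0, 0) n) (rot a) (rot c) := by
  have h7 := hR.2.2.2.2.2.2.1
  constructor
  · intro h
    exact ReflTransGen.lift (r := fun a c => c ∉ Hx (0, 0) n ∧ BE {e | rotE e ∈ b} a c)
      (p := fun a c => c ∉ Hx (0, 0) n ∧ BE b a c) rot (fun u v huv =>
      ⟨fun h' => huv.1 ((h7 n v).1 h'), (BE_rot hR b u v).1 huv.2⟩) _ _ h
  · intro h
    have h2 : ReflTransGen (fun a c => c ∉ Hx (0, 0) n ∧ BE {e | rotE e ∈ b} a c) (rot^[5] (rot a)) (rot^[5] (rot c)) :=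
      ReflTransGen.lift (r := fun a c => c ∉ Hx (0, 0) n ∧ BE b a c)
      (p := fun a c => c ∉ Hx (0, 0) n ∧ BE {e | rotE e ∈ b} a c) (rot^[5]) (fun u v huv => by
      refine ⟨fun h' => huv.1 ?_, (BE_rot hR b _ _).2 ?_⟩
      · have := (h7 n (rot^[5] v)).2 h'
        rwa [(rinv hR v).1] at this
      · rw [(rinv hR u).1, (rinv hR v).1]; exact huv.2) _ _ h
    rw [(rinv hR a).2, (rinv hR c).2] at h2
    exact h2

end APCV

open APCV in
theorem p_PCV (hROT6 : S_ROT6) : S_PCV := by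
  intro b k n R x
  have z : ∀ v : V, v - (0, 0) = v := fun v => by ext <;> simp
  constructor
  · constructor
    · rintro ⟨v, w, h1, h2, h3⟩
      refine ⟨v - x, w - x, ?_, ?_, ?_⟩
      · rw [z]; exact h1
      · intro h
        have := (Hx_tr x (w - x) R).1 h
        rw [sub_add_cancel] at this
        exact h2 this
      · rw [PCon_tr, sub_add_cancel, sub_add_cancel]; exact h3
    · rintro ⟨v, w, h1, h2, h3⟩
      rw [z] at h1
      refine ⟨v + x, w + x, ?_, ?_, ?_⟩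
      · rw [add_sub_cancel_right]; exact h1
      · intro h
        exact h2 ((Hx_tr x w R).2 h)
      · exact (PCon_tr b x v w n).1 h3
  · have h6 := hROT6.2.2.2.2.2.1
    have h7 := hROT6.2.2.2.2.2.2.1
    constructor
    · rintro ⟨v, w, h1, h2, h3⟩
      rw [z] at h1
      refine ⟨rot^[5] v, rot^[5] w, ?_, ?_, ?_⟩
      · rw [z, ← h6 n k, (rinv hROT6 v).1]; exact h1
      · intro h
        apply h2
        have := (h7 R (rot^[5] w)).2 h
        rwa [(rinv hROT6 w).1] at this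
      · rw [PCon_rot hROT6, (rinv hROT6 v).1, (rinv hROT6 w).1]; exact h3
    · rintro ⟨v, w, h1, h2, h3⟩
      rw [z] at h1
      refine ⟨rot v, rot w, ?_, ?_, ?_⟩
      · rw [z, h6]; exact h1
      · intro h
        exact h2 ((h7 R w).1 h)
      · exact (PCon_rot hROT6 b v w n).1 h3

end

end CNL
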