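import Pool.Agent.Work.MP_bda6fa_cnl.IA1
set_option autoImplicit false

/-! Block PLC (helper31): open arms are local, increasing events. -/

namespace CNL
open XorIsing
open scoped Classical
open Finset Relation

namespace APLC

/-- a path of open edges keeps its edges up to the first exit from L -/
lemma first (c c' : Set Edge) (K L : Finset V) (hag : ∀ e ∈ near L, (e ∈ c ↔ e ∈ c')) (v w : V)
    (hw : w ∉ L) (h : PCon c K v w) : ∃ w', w' ∉ L ∧ PCon c' K v w' := by
  unfold PCon at h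
  induction h using ReflTransGen.head_induction_on with
  | refl => exact ⟨w, hw, ReflTransGen.refl⟩
  | @head a d h1 h2 ih =>
    by_cases ha : a ∈ L
    · obtain ⟨w', hw', h3⟩ := ih
      obtain ⟨hd, e, he, he1⟩ := h1
      have hn : e ∈ near L := by
        rw [mem_near]
        rcases he1 with ⟨e1, e2⟩ | ⟨e1, e2⟩
        · left; rw [e1]; exact ha
        · right; rw [e2]; exact ha
      exact ⟨w', hw', ReflTransGen.head ⟨hd, e, (hag e hn).1 he, he1⟩ h3⟩
    · exact ⟨a, ha, ReflTransGen.refl⟩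

end APLC

theorem p_PLC : S_PLC := by
  intro k n R x
  refine ⟨⟨near (Hx x R), fun c c' h => ⟨?_, ?_⟩⟩, ?_⟩
  · rintro ⟨v, w, hv, hw, hp⟩
    obtain ⟨w', hw', hp'⟩ := APLC.first c c' (Hx x n) (Hx x R) h v w hw hp
    exact ⟨v, w', hv, hw', hp'⟩
  · rintro ⟨v, w, hv, hw, hp⟩
    obtain ⟨w', hw', hp'⟩ := APLC.first c' c (Hx x n) (Hx x R) (fun e he => (h e he).symm) v w hw
      hp
    exact ⟨v, w', hv, hw', hp'⟩
  · rintro c c' hcc ⟨v, w, hv, hw, hp⟩
    refine ⟨v, w, hv, hw, ?_⟩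
    unfold PCon at hp ⊢
    refine ReflTransGen.mono ?_ _ _ hp
    rintro a d ⟨hd, e, he, he1⟩
    exact ⟨hd, e, hcc he, he1⟩

end CNL
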