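import Pool.Agent.Work.MP_bda6fa_cnl.IA1
set_option autoImplicit false

/-! PMN: monotonicity of the open arms. -/

namespace CNL
open XorIsing
open scoped Classical
open Finset Relation

namespace XPMN

theorem BE_adj {b : Set Edge} {u v : V} (h : BE b u v) : Adj u v := by
  obtain ⟨e, -, ⟨rfl, rfl⟩ | ⟨rfl, rfl⟩⟩ := h
  · exact ⟨e.2, .inl rfl⟩
  · exact ⟨e.2, .inr rfl⟩

theorem last_exit {b : Set Edge} {K' : Finset V} {a w : V} (hw : w ∉ K') (h : ReflTransGen (BE b) a w) :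
    (a ∉ K' ∧ PCon b K' a w) ∨ ∃ v' u', v' ∈ K' ∧ u' ∉ K' ∧ BE b v' u' ∧ PCon b K' u' w := by
  induction h using ReflTransGen.head_induction_on with
  | refl => exact .inl ⟨hw, .refl⟩
  | @head a c hac _ ih =>
    rcases ih with ⟨hc, hcw⟩ | ih
    · by_cases ha : a ∈ K'
      · exact .inr ⟨a, c, ha, hc, hac, hcw⟩
      · exact .inl ⟨ha, ReflTransGen.head ⟨hc, hac⟩ hcw⟩
    · exact .inr ih

theorem be_of_pcon {b : Set Edge} {K : Finset V} {a w : V} (h : PCon b K a w) : ReflTransGen (BE b) a w := by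
  induction h with
  | refl => exact .refl
  | tail _ hbc ih => exact ih.tail hbc.2

theorem hx_sub {m R' : ℕ} (h : m ≤ R') : Hx (0, 0) m ⊆ Hx (0, 0) R' := by
  intro v hv
  rw [mem_Hx] at hv ⊢
  have h' : (m : ℤ) ≤ R' := by exact_mod_cast h
  obtain ⟨⟨a1, a2⟩, ⟨a3, a4⟩, a5, a6⟩ := hv
  refine ⟨⟨?_, ?_⟩, ⟨?_, ?_⟩, ?_, ?_⟩ <;> linarith

end XPMN

theorem p_PMN (hSDF : S_SDF) : S_PMN := by
  intro b x n R m R' hn hnm hsub hmR hsub' hP
  obtain ⟨k, hk, v, w, hsd, hw, hp⟩ := hP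
  have hv : v ∈ Hx (0, 0) m := hsub ((hSDF n x hn).1 k v hsd)
  have hwR' : w ∉ Hx (0, 0) R' := fun hc => hw (hsub' hc)
  have hwm : w ∉ Hx (0, 0) m := fun hc => hwR' (XPMN.hx_sub hmR.le hc)
  rcases XPMN.last_exit hwm (XPMN.be_of_pcon hp) with ⟨h1, -⟩ | ⟨v', u', hv', hu', hbe, hpc⟩
  · exact absurd hv h1
  · obtain ⟨k', hk', hsd'⟩ := (hSDF m (0, 0) (hn.trans hnm)).2.1 v' u' hv' hu' (XPMN.BE_adj hbe)
    exact ⟨k', hk', v', w, hsd', hwR', ReflTransGen.head ⟨hu', hbe⟩ hpc⟩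

end CNL
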