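import Pool.Agent.Work.MP_bda6fa_cnl.IA1
set_option autoImplicit false

/-! Block PW: the edge set modulo 2 of a walk. -/

namespace CNL
open XorIsing
open scoped Classical
open Finset Relation

namespace APW

theorem tip_ne (f : Edge) : f.1 ≠ tip f := by
  obtain ⟨⟨a, b⟩, k⟩ := f
  fin_cases k
  · simp [tip, dir]
  · simp [tip, dir]
  · simp [tip, dir]

theorem card_z (η : Finset Edge) (q : Edge → Prop) [DecidablePred q] :
    (((η.filter q).card : ℕ) : ZMod 2) = ∑ f ∈ η, (if q f then 1 else 0) := by
  rw [sum_boole]

/-- adding one edge modulo 2 -/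
theorem add_edge (η : Finset Edge) (e : Edge) : ∃ η' : Finset Edge, (∀ f ∈ η', f ∈ η ∨ f = e) ∧
    ∀ (q : Edge → Prop) [DecidablePred q], (((η'.filter q).card : ℕ) : ZMod 2) =
      (((η.filter q).card : ℕ) : ZMod 2) + (if q e then 1 else 0) := by
  by_cases he : e ∈ η
  · refine ⟨η.erase e, fun f hf => Or.inl (mem_of_mem_erase hf), fun q _ => ?_⟩
    rw [card_z, card_z, ← add_sum_erase η (fun f => if q f then (1 : ZMod 2) else 0) he]
    have h := z2 (if q e then (1 : ZMod 2) else 0)
    linear_combination -h
  · refine ⟨insert e η, fun f hf => ?_, fun q _ => ?_⟩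
    · rcases mem_insert.1 hf with h | h
      · exact Or.inr h
      · exact Or.inl h
    · rw [card_z, card_z, sum_insert he, add_comm]

end APW

theorem p_PW : S_PW := by
  intro Q u v h
  induction h with
  | refl =>
    refine ⟨∅, by simp, fun w => ?_⟩
    rw [filter_empty, card_empty]
    have h := z2 (if w = u then (1 : ZMod 2) else 0)
    rw [h]
    simp
  | @tail b c _ hstep ih =>
    obtain ⟨η, hη, hc⟩ := ih
    obtain ⟨e, heQ, he⟩ := hstep
    obtain ⟨η', hη', hc'⟩ := APW.add_edge η e
    refine ⟨η', fun f hf => ?_, fun w => ?_⟩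
    · rcases hη' f hf with h | h
      · exact hη f h
      · rw [h]; exact heQ
    · rw [hc' (fun e => e.1 = w ∨ tip e = w), hc w]
      show _ + (if (e.1 = w ∨ tip e = w) then (1 : ZMod 2) else 0) = _
      have h1 : (if (e.1 = w ∨ tip e = w) then (1 : ZMod 2) else 0) =
          (if w = b then 1 else 0) + (if w = c then 1 else 0) := by
        have hne := APW.tip_ne e
        rcases he with ⟨h2, h3⟩ | ⟨h2, h3⟩
        · rw [h2, h3] at hne ⊢
          by_cases hb : w = b
          · subst hb
            simp [hne]
          · by_cases hcc : w = c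
            · subst hcc
              simp [hb]
            · simp [hb, hcc, Ne.symm hb, Ne.symm hcc]
        · rw [h2, h3] at hne ⊢
          by_cases hb : w = b
          · subst hb
            simp [Ne.symm hne]
          · by_cases hcc : w = c
            · subst hcc
              simp [hb]
            · simp [hb, hcc, Ne.symm hb, Ne.symm hcc]
      have h4 := z2 (if w = b then (1 : ZMod 2) else 0)
      rw [h1]
      linear_combination h4

end CNL
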