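import Pool.Agent.Work.MP_bda6fa_cnl.IA1
set_option autoImplicit false

/-! Block RING (helper64): on the ring of outer triangles the function jumps exactly once. -/

namespace CNL
open XorIsing
open scoped Classical
open Finset Relation

noncomputable section

namespace ARING

theorem tip_trE (x : V) (e : Edge) : tip (trE x e) = tip e + x := by
  simp only [tip, trE]
  abel

theorem mem_tr (x v : V) (n : ℕ) : v + x ∈ Hx x n ↔ v ∈ Hx (0, 0) n := by
  rw [mem_Hx, mem_Hx]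
  simp only [Prod.fst_add, Prod.snd_add]
  constructor <;> intro h <;> omega

theorem spk_tr (n k : ℕ) (x : V) (e : Edge) : Spk n k x (trE x e) ↔ Spk n k (0, 0) e := by
  unfold Spk
  rw [tip_trE, mem_tr]
  have h1 : (trE x e).1 = e.1 + x := rfl
  rw [h1, mem_tr]
  have h2 : e.1 + x - x = e.1 - (0, 0) := by
    rw [add_sub_cancel_right]
    exact (sub_zero e.1).symm
  have h3 : tip e + x - x = tip e - (0, 0) := by
    rw [add_sub_cancel_right]
    exact (sub_zero (tip e)).symm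
  rw [h2, h3]

theorem spk_rot (hROT6 : S_ROT6) (n k : ℕ) (e : Edge) :
    Spk n (k + 1) (0, 0) (rotE e) ↔ Spk n k (0, 0) e := by
  obtain ⟨_, _, _, _, _, hSd, hHx, hE, _, _⟩ := hROT6
  have h0 : ∀ v : V, v - (0, 0) = v := fun v => sub_zero v
  unfold Spk
  rw [h0, h0, h0, h0]
  rcases hE e with ⟨h1, h2⟩ | ⟨h1, h2⟩
  · rw [h1, h2, hSd, hSd, hHx, hHx]
  · rw [h1, h2, hSd, hSd, hHx, hHx]
    exact or_comm

theorem spk_rotk (hROT6 : S_ROT6) (n j k : ℕ) (e : Edge) :
    Spk n (j + k) (0, 0) (rotE^[k] e) ↔ Spk n j (0, 0) e := by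
  induction k with
  | zero => exact Iff.rfl
  | succ k ih =>
    rw [Function.iterate_succ_apply', ← add_assoc, spk_rot hROT6]
    exact ih

theorem outT_add (n k j i : ℕ) : rotT^[k] (outT n j i) = outT n (k + j) i := by
  unfold outT
  rw [Function.iterate_add_apply]

theorem rotE_inv (hROT6 : S_ROT6) (k : ℕ) (e : Edge) : rotE^[k] (rotE^[5 * k] e) = e ∧
    rotE^[5 * k] (rotE^[k] e) = e := by
  have h6 : ∀ k : ℕ, ∀ e : Edge, rotE^[6 * k] e = e := by
    intro k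
    induction k with
    | zero => intro e; rfl
    | succ k ih =>
      intro e
      rw [Nat.mul_succ, Function.iterate_add_apply, hROT6.2.2.1, ih]
  constructor
  · rw [← Function.iterate_add_apply, show k + 5 * k = 6 * k by ring, h6]
  · rw [← Function.iterate_add_apply, show 5 * k + k = 6 * k by ring, h6]

theorem cst (hJRT : S_JRT) (hROT6 : S_ROT6) (hCST0 : S_CST0) (n k : ℕ) (f : V × Bool → ZMod 2)
    (c : Edge → ZMod 2) (hn : 1 ≤ n) (hf : Jmp f c) (h : ∀ e, Spk n k (0, 0) e → c e = 0) :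
    (∀ i < n, f (outT n k i) = f (outT n k 0)) ∧ f (outT n (k + 5) (n - 1)) = f (outT n k 0) := by
  have h1 := hCST0 n (fun t => f (rotT^[k] t)) (fun e => c (rotE^[k] e)) hn ((hJRT f c hf).1 k)
    (fun e he => h _ (by
      have := (spk_rotk hROT6 n 0 k e).2 he
      rwa [zero_add] at this))
  simp only [outT_add, add_zero] at h1
  exact h1

theorem flp (hJRT : S_JRT) (hROT6 : S_ROT6) (hFLP0 : S_FLP0) (n k : ℕ) (f : V × Bool → ZMod 2)
    (c : Edge → ZMod 2) (e₀ : Edge) (hn : 1 ≤ n) (hf : Jmp f c) (h0 : Spk n k (0, 0) e₀)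
    (hc : c e₀ = 1) (h : ∀ e, Spk n k (0, 0) e → e ≠ e₀ → c e = 0) :
    f (outT n (k + 5) (n - 1)) + f (outT n k (n - 1)) = 1 := by
  obtain ⟨hi1, _⟩ := rotE_inv hROT6 k e₀
  have h1 := hFLP0 n (fun t => f (rotT^[k] t)) (fun e => c (rotE^[k] e)) (rotE^[5 * k] e₀) hn
    ((hJRT f c hf).1 k)
    (by
      rw [← spk_rotk hROT6 n 0 k, hi1, zero_add]
      exact h0)
    (by
      show c (rotE^[k] (rotE^[5 * k] e₀)) = 1
      rw [hi1, hc])
    (fun e he hne => h _ (by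
      have := (spk_rotk hROT6 n 0 k e).2 he
      rwa [zero_add] at this) (by
      intro heq
      apply hne
      rw [← heq, (rotE_inv hROT6 k e).2]))
  simp only [outT_add, add_zero] at h1
  exact h1

theorem ring0 (hJRT : S_JRT) (hROT6 : S_ROT6) (hCST0 : S_CST0) (hFLP0 : S_FLP0) (n k : ℕ)
    (f : V × Bool → ZMod 2) (c : Edge → ZMod 2) (e₀ : Edge) (hn : 1 ≤ n) (hf : Jmp f c)
    (h1 : ∀ e, Spk n (k + 1) (0, 0) e → c e = 0) (h5 : ∀ e, Spk n (k + 5) (0, 0) e → c e = 0)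
    (h0 : Spk n k (0, 0) e₀) (hc : c e₀ = 1) (h : ∀ e, Spk n k (0, 0) e → e ≠ e₀ → c e = 0)
    (i : ℕ) (hi : i < n) (j : ℕ) (hj : j < n) :
    f (outT n (k + 5) i) + f (outT n (k + 1) j) = 1 := by
  obtain ⟨a1, _⟩ := cst hJRT hROT6 hCST0 n (k + 5) f c hn hf h5
  obtain ⟨b1, b2⟩ := cst hJRT hROT6 hCST0 n (k + 1) f c hn hf h1
  have hfl := flp hJRT hROT6 hFLP0 n k f c e₀ hn hf h0 hc h
  have h6 : outT n (k + 1 + 5) (n - 1) = outT n k (n - 1) := hROT6.2.2.2.2.1 n k (n - 1)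
  rw [h6] at b2
  rw [a1 i hi, ← a1 (n - 1) (by omega), b1 j hj, ← b2]
  exact hfl

end ARING

open ARING in
theorem p_RING (hJRT : S_JRT) (hROT6 : S_ROT6) (hCST0 : S_CST0) (hFLP0 : S_FLP0) : S_RING := by
  intro n k x f c e₀ hn hf h1 h5 h0 hc h i hi j hj
  have he : trE x (e₀.1 - x, e₀.2) = e₀ := by
    unfold trE
    simp
  refine ring0 hJRT hROT6 hCST0 hFLP0 n k (fun t => f (trT x t)) (fun e => c (trE x e))
    (e₀.1 - x, e₀.2) hn ((hJRT f c hf).2 x) (fun e hs => h1 _ ((spk_tr n (k + 1) x e).2 hs))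
    (fun e hs => h5 _ ((spk_tr n (k + 5) x e).2 hs)) ?_ ?_ ?_ i hi j hj
  · rw [← spk_tr n k x, he]
    exact h0
  · show c (trE x (e₀.1 - x, e₀.2)) = 1
    rw [he, hc]
  · intro e hs hne
    refine h _ ((spk_tr n k x e).2 hs) ?_
    intro heq
    apply hne
    rw [← heq]
    unfold trE
    simp

end

end CNL
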