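import Pool.Agent.Work.MP_bda6fa_cnl.IA1
set_option autoImplicit false

/-! ROT6: elementary facts on the rotation. -/

namespace CNL
open XorIsing
open scoped Classical
open Finset Relation

namespace AROT6

theorem rot6 (v : V) : rot^[6] v = v := by
  obtain ⟨x, y⟩ := v
  simp only [Function.iterate_succ, Function.iterate_zero, Function.comp_apply, id, rot, Prod.mk.injEq]
  constructor <;> ring

theorem rot_inj {v w : V} (h : rot v = rot w) : v = w := by
  obtain ⟨x, y⟩ := v
  obtain ⟨x', y'⟩ := w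
  simp only [rot, Prod.mk.injEq] at h ⊢
  omega

theorem rotT6 (t : V × Bool) : rotT^[6] t = t := by
  obtain ⟨⟨x, y⟩, b⟩ := t
  cases b <;>
  · simp only [Function.iterate_succ, Function.iterate_zero, Function.comp_apply, id, rotT, rot, if_true,
      if_false, Bool.false_eq_true, Prod.mk_add_mk, Prod.mk_sub_mk, Prod.mk.injEq]
    refine ⟨⟨?_, ?_⟩, trivial⟩ <;> ring

theorem rotE0 (v : V) : rotE (v, 0) = (rot v, 1) := by simp [rotE]
theorem rotE1 (v : V) : rotE (v, 1) = (rot (v + (0, 1)), 2) := by simp [rotE]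
theorem rotE2 (v : V) : rotE (v, 2) = (rot v, 0) := by simp [rotE]

theorem rotE6 (e : Edge) : rotE^[6] e = e := by
  obtain ⟨⟨x, y⟩, k⟩ := e
  fin_cases k
  · show rotE^[6] ((x, y), 0) = ((x, y), 0)
    simp only [Function.iterate_succ, Function.iterate_zero, Function.comp_apply, id, rotE0, rotE1, rotE2, rot,
      Prod.mk_add_mk, Prod.mk.injEq]
    refine ⟨⟨?_, ?_⟩, trivial⟩ <;> ring
  · show rotE^[6] ((x, y), 1) = ((x, y), 1)
    simp only [Function.iterate_succ, Function.iterate_zero, Function.comp_apply, id, rotE0, rotE1, rotE2, rot,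
      Prod.mk_add_mk, Prod.mk.injEq]
    refine ⟨⟨?_, ?_⟩, trivial⟩ <;> ring
  · show rotE^[6] ((x, y), 2) = ((x, y), 2)
    simp only [Function.iterate_succ, Function.iterate_zero, Function.comp_apply, id, rotE0, rotE1, rotE2, rot,
      Prod.mk_add_mk, Prod.mk.injEq]
    refine ⟨⟨?_, ?_⟩, trivial⟩ <;> ring

theorem tri_iff (e : Edge) (t : V × Bool) : e ∈ tri t ↔ rotE e ∈ tri (rotT t) := by
  obtain ⟨⟨x, y⟩, k⟩ := e
  obtain ⟨⟨p, q⟩, b⟩ := t
  have h3 : k = 0 ∨ k = 1 ∨ k = 2 := by fin_cases k <;> simp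
  cases b
  · have hT : rotT ((p, q), false) = ((-q - 1, p + q + 1), true) := by
      show (rot (p, q) + (-1, 1), true) = _
      rw [Prod.mk.injEq]
      refine ⟨?_, rfl⟩
      rw [Prod.ext_iff]
      simp only [rot, Prod.fst_add, Prod.snd_add]
      refine ⟨by ring, trivial⟩
    rw [hT, mem_tri_up, mem_tri_down]
    rcases h3 with rfl | rfl | rfl
    · rw [rotE0]
      simp [rot, Prod.ext_iff]
      omega
    · rw [rotE1]
      simp [rot, Prod.ext_iff]
      omega
    · rw [rotE2]
      simp [rot, Prod.ext_iff]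
      omega
  · have hT : rotT ((p, q), true) = ((-q - 1, p + q), false) := by
      show (rot (p, q) - (1, 0), false) = _
      rw [Prod.mk.injEq]
      refine ⟨?_, rfl⟩
      rw [Prod.ext_iff]
      simp only [rot, Prod.fst_sub, Prod.snd_sub]
      refine ⟨trivial, by ring⟩
    rw [hT, mem_tri_up, mem_tri_down]
    rcases h3 with rfl | rfl | rfl
    · rw [rotE0]
      simp [rot, Prod.ext_iff]
      omega
    · rw [rotE1]
      simp [rot, Prod.ext_iff]
      omega
    · rw [rotE2]
      simp [rot, Prod.ext_iff]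
      omega

theorem VT_iff (v : V) (t : V × Bool) : VT v t ↔ VT (rot v) (rotT t) := by
  obtain ⟨x, y⟩ := v
  obtain ⟨⟨p, q⟩, b⟩ := t
  cases b
  · simp [VT, rotT, rot, Prod.ext_iff]
    omega
  · simp [VT, rotT, rot, Prod.ext_iff]
    omega

theorem ends (e : Edge) : ((rotE e).1 = rot e.1 ∧ tip (rotE e) = rot (tip e)) ∨
    ((rotE e).1 = rot (tip e) ∧ tip (rotE e) = rot e.1) := by
  obtain ⟨⟨x, y⟩, k⟩ := e
  have h3 : k = 0 ∨ k = 1 ∨ k = 2 := by fin_cases k <;> simp
  rcases h3 with rfl | rfl | rfl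
  · left
    rw [rotE0]
    simp [rot, tip, dir]
    omega
  · right
    rw [rotE1]
    simp [rot, tip, dir]
    omega
  · left
    rw [rotE2]
    simp [rot, tip, dir]
    omega

end AROT6

open AROT6 in
theorem p_ROT6 : S_ROT6 := by
  refine ⟨rot6, rotT6, rotE6, ?_, ?_, ?_, ?_, ends, tri_iff, VT_iff⟩
  · intro n k v
    unfold Sd
    simp only [Function.iterate_add_apply, rot6]
  · intro n k i
    unfold outT
    rw [Function.iterate_add_apply, rotT6]
  · intro n k v
    unfold Sd
    constructor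
    · rintro ⟨i, hi, h⟩
      rw [Function.iterate_succ_apply'] at h
      exact ⟨i, hi, rot_inj h⟩
    · rintro ⟨i, hi, h⟩
      refine ⟨i, hi, ?_⟩
      rw [Function.iterate_succ_apply', ← h]
  · intro n v
    rw [mem_Hx, mem_Hx]
    simp only [rot]
    omega

end CNL
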