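import Pool.Agent.Work.MP_bda6fa_cnl.IA1

set_option autoImplicit false

namespace CNL
open XorIsing
open scoped Classical
open Finset Relation

namespace XSDF

/-- centred hexagon -/
def In (n : ℕ) (v : V) : Prop :=
  (-(n : ℤ) ≤ v.1 ∧ v.1 ≤ n) ∧ (-(n : ℤ) ≤ v.2 ∧ v.2 ≤ n) ∧ -(n : ℤ) ≤ v.1 + v.2 ∧ v.1 + v.2 ≤ n

theorem in_rot {n : ℕ} {v : V} (h : In n v) : In n (rot v) := by
  obtain ⟨h1, h2, h3⟩ := h
  have e1 : (rot v).1 = -v.2 := rfl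
  have e2 : (rot v).2 = v.1 + v.2 := rfl
  unfold In
  rw [e1, e2]
  omega

theorem in_iter {n : ℕ} (k : ℕ) {v : V} (h : In n v) : In n (rot^[k] v) := by
  induction k with
  | zero => exact h
  | succ k ih =>
    rw [Function.iterate_succ_apply']
    exact in_rot ih

theorem mem_iff {n : ℕ} {x v : V} : v ∈ Hx x n ↔ In n (v - x) := by
  rw [mem_Hx]
  unfold In
  have e1 : (v - x).1 = v.1 - x.1 := rfl
  have e2 : (v - x).2 = v.2 - x.2 := rfl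
  rw [e1, e2]
  omega

theorem sd_in {n k : ℕ} {v : V} (h : Sd n k v) : In n v := by
  obtain ⟨i, hi, rfl⟩ := h
  apply in_iter
  unfold In
  simp only
  omega

theorem sd0 {n : ℕ} {v : V} : Sd n 0 v ↔ v.1 + v.2 = n ∧ 0 < v.1 ∧ 0 ≤ v.2 := by
  constructor
  · rintro ⟨i, hi, h⟩
    have h1 : v.1 = (n : ℤ) - i := congrArg Prod.fst h
    have h2 : v.2 = i := congrArg Prod.snd h
    omega
  · rintro ⟨h1, h2, h3⟩
    refine ⟨v.2.toNat, by omega, ?_⟩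
    apply Prod.ext
    · show v.1 = (n : ℤ) - (v.2.toNat : ℤ)
      omega
    · show v.2 = (v.2.toNat : ℤ)
      omega

theorem sd1 {n : ℕ} {v : V} : Sd n 1 v ↔ v.2 = n ∧ -(n : ℤ) < v.1 ∧ v.1 ≤ 0 := by
  constructor
  · rintro ⟨i, hi, h⟩
    have h1 : v.1 = -(i : ℤ) := congrArg Prod.fst h
    have h2 : v.2 = ((n : ℤ) - i) + i := congrArg Prod.snd h
    omega
  · rintro ⟨h1, h2, h3⟩
    refine ⟨(-v.1).toNat, by omega, ?_⟩
    apply Prod.ext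
    · show v.1 = -((-v.1).toNat : ℤ)
      omega
    · show v.2 = ((n : ℤ) - ((-v.1).toNat : ℤ)) + ((-v.1).toNat : ℤ)
      omega

theorem sd2 {n : ℕ} {v : V} : Sd n 2 v ↔ v.1 = -(n : ℤ) ∧ 0 < v.2 ∧ v.2 ≤ n := by
  constructor
  · rintro ⟨i, hi, h⟩
    have h1 : v.1 = -(((n : ℤ) - i) + i) := congrArg Prod.fst h
    have h2 : v.2 = -(i : ℤ) + (((n : ℤ) - i) + i) := congrArg Prod.snd h
    omega
  · rintro ⟨h1, h2, h3⟩
    refine ⟨((n : ℤ) - v.2).toNat, by omega, ?_⟩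
    apply Prod.ext
    · show v.1 = -(((n : ℤ) - (((n : ℤ) - v.2).toNat : ℤ)) + (((n : ℤ) - v.2).toNat : ℤ))
      omega
    · show v.2 = -((((n : ℤ) - v.2).toNat : ℤ)) +
        (((n : ℤ) - (((n : ℤ) - v.2).toNat : ℤ)) + (((n : ℤ) - v.2).toNat : ℤ))
      omega

theorem sd3 {n : ℕ} {v : V} : Sd n 3 v ↔ v.1 + v.2 = -(n : ℤ) ∧ v.1 < 0 ∧ v.2 ≤ 0 := by
  constructor
  · rintro ⟨i, hi, h⟩
    have h1 : v.1 = -(-(i : ℤ) + (((n : ℤ) - i) + i)) := congrArg Prod.fst h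
    have h2 : v.2 = -(((n : ℤ) - i) + i) + (-(i : ℤ) + (((n : ℤ) - i) + i)) :=
      congrArg Prod.snd h
    omega
  · rintro ⟨h1, h2, h3⟩
    obtain ⟨i, hi⟩ : ∃ i : ℕ, (i : ℤ) = -v.2 := ⟨(-v.2).toNat, by omega⟩
    refine ⟨i, by omega, ?_⟩
    apply Prod.ext
    · show v.1 = -(-(i : ℤ) + (((n : ℤ) - i) + i))
      omega
    · show v.2 = -(((n : ℤ) - i) + i) + (-(i : ℤ) + (((n : ℤ) - i) + i))
      omega

theorem sd4 {n : ℕ} {v : V} : Sd n 4 v ↔ v.2 = -(n : ℤ) ∧ 0 ≤ v.1 ∧ v.1 < n := by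
  constructor
  · rintro ⟨i, hi, h⟩
    have h1 : v.1 = -(-(((n : ℤ) - i) + i) + (-(i : ℤ) + (((n : ℤ) - i) + i))) :=
      congrArg Prod.fst h
    have h2 : v.2 = -(-(i : ℤ) + (((n : ℤ) - i) + i)) +
        (-(((n : ℤ) - i) + i) + (-(i : ℤ) + (((n : ℤ) - i) + i))) := congrArg Prod.snd h
    omega
  · rintro ⟨h1, h2, h3⟩
    obtain ⟨i, hi⟩ : ∃ i : ℕ, (i : ℤ) = v.1 := ⟨v.1.toNat, by omega⟩
    refine ⟨i, by omega, ?_⟩
    apply Prod.ext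
    · show v.1 = -(-(((n : ℤ) - i) + i) + (-(i : ℤ) + (((n : ℤ) - i) + i)))
      omega
    · show v.2 = -(-(i : ℤ) + (((n : ℤ) - i) + i)) +
        (-(((n : ℤ) - i) + i) + (-(i : ℤ) + (((n : ℤ) - i) + i)))
      omega

theorem sd5 {n : ℕ} {v : V} : Sd n 5 v ↔ v.1 = n ∧ -(n : ℤ) ≤ v.2 ∧ v.2 < 0 := by
  constructor
  · rintro ⟨i, hi, h⟩
    have h1 : v.1 = -(-(-(i : ℤ) + (((n : ℤ) - i) + i)) +
        (-(((n : ℤ) - i) + i) + (-(i : ℤ) + (((n : ℤ) - i) + i)))) := congrArg Prod.fst h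
    have h2 : v.2 = -(-(((n : ℤ) - i) + i) + (-(i : ℤ) + (((n : ℤ) - i) + i))) +
        (-(-(i : ℤ) + (((n : ℤ) - i) + i)) +
        (-(((n : ℤ) - i) + i) + (-(i : ℤ) + (((n : ℤ) - i) + i)))) := congrArg Prod.snd h
    omega
  · rintro ⟨h1, h2, h3⟩
    obtain ⟨i, hi⟩ : ∃ i : ℕ, (i : ℤ) = v.2 + n := ⟨(v.2 + n).toNat, by omega⟩
    refine ⟨i, by omega, ?_⟩
    apply Prod.ext
    · show v.1 = -(-(-(i : ℤ) + (((n : ℤ) - i) + i)) +
        (-(((n : ℤ) - i) + i) + (-(i : ℤ) + (((n : ℤ) - i) + i))))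
      omega
    · show v.2 = -(-(((n : ℤ) - i) + i) + (-(i : ℤ) + (((n : ℤ) - i) + i))) +
        (-(-(i : ℤ) + (((n : ℤ) - i) + i)) +
        (-(((n : ℤ) - i) + i) + (-(i : ℤ) + (((n : ℤ) - i) + i))))
      omega

/-- neighbours -/
theorem adj_cases {v w : V} (h : Adj v w) : (w.1 = v.1 + 1 ∧ w.2 = v.2) ∨
    (w.1 = v.1 ∧ w.2 = v.2 + 1) ∨ (w.1 = v.1 + 1 ∧ w.2 = v.2 - 1) ∨
    (w.1 = v.1 - 1 ∧ w.2 = v.2) ∨ (w.1 = v.1 ∧ w.2 = v.2 - 1) ∨ (w.1 = v.1 - 1 ∧ w.2 = v.2 + 1) := by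
  obtain ⟨k, hk⟩ := h
  have d0 : dir 0 = (1, 0) := rfl
  have d1 : dir 1 = (0, 1) := rfl
  have d2 : dir 2 = (1, -1) := rfl
  fin_cases k
  · rcases hk with h | h
    · have h1 : w.1 = v.1 + 1 := congrArg Prod.fst h
      have h2 : w.2 = v.2 + 0 := congrArg Prod.snd h
      omega
    · have h1 : v.1 = w.1 + 1 := congrArg Prod.fst h
      have h2 : v.2 = w.2 + 0 := congrArg Prod.snd h
      omega
  · rcases hk with h | h
    · have h1 : w.1 = v.1 + 0 := congrArg Prod.fst h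
      have h2 : w.2 = v.2 + 1 := congrArg Prod.snd h
      omega
    · have h1 : v.1 = w.1 + 0 := congrArg Prod.fst h
      have h2 : v.2 = w.2 + 1 := congrArg Prod.snd h
      omega
  · rcases hk with h | h
    · have h1 : w.1 = v.1 + 1 := congrArg Prod.fst h
      have h2 : w.2 = v.2 + -1 := congrArg Prod.snd h
      omega
    · have h1 : v.1 = w.1 + 1 := congrArg Prod.fst h
      have h2 : v.2 = w.2 + -1 := congrArg Prod.snd h
      omega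

end XSDF

open XSDF in
theorem p_SDF : S_SDF := by
  intro n x hn
  refine ⟨?_, ?_, ?_⟩
  · intro k v h
    exact mem_iff.2 (sd_in h)
  · intro v w hv hw hvw
    rw [mem_iff] at hv hw
    have a1 : (v - x).1 = v.1 - x.1 := rfl
    have a2 : (v - x).2 = v.2 - x.2 := rfl
    have b1 : (w - x).1 = w.1 - x.1 := rfl
    have b2 : (w - x).2 = w.2 - x.2 := rfl
    have hadj := adj_cases hvw
    unfold In at hv hw
    rw [b1, b2] at hw
    have hc0 : (v - x).1 + (v - x).2 = n ∧ 0 < (v - x).1 ∧ 0 ≤ (v - x).2 ∨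
        (v - x).2 = n ∧ -(n : ℤ) < (v - x).1 ∧ (v - x).1 ≤ 0 ∨
        (v - x).1 = -(n : ℤ) ∧ 0 < (v - x).2 ∧ (v - x).2 ≤ n ∨
        (v - x).1 + (v - x).2 = -(n : ℤ) ∧ (v - x).1 < 0 ∧ (v - x).2 ≤ 0 ∨
        (v - x).2 = -(n : ℤ) ∧ 0 ≤ (v - x).1 ∧ (v - x).1 < n ∨
        (v - x).1 = n ∧ -(n : ℤ) ≤ (v - x).2 ∧ (v - x).2 < 0 := by
      rw [a1, a2] at hv ⊢
      omega
    rcases hc0 with h | h | h | h | h | h
    · exact ⟨0, by norm_num, sd0.2 h⟩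
    · exact ⟨1, by norm_num, sd1.2 h⟩
    · exact ⟨2, by norm_num, sd2.2 h⟩
    · exact ⟨3, by norm_num, sd3.2 h⟩
    · exact ⟨4, by norm_num, sd4.2 h⟩
    · exact ⟨5, by norm_num, sd5.2 h⟩
  · intro k k' v hk hk' h h'
    interval_cases k <;> interval_cases k' <;> first
      | rfl
      | (exfalso
         simp only [sd0, sd1, sd2, sd3, sd4, sd5] at h h'
         omega)

end CNL
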