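import Pool.Agent.Work.MP_bda6fa_cnl.IA1
set_option autoImplicit false

/-! Block SEP6: dual arms of sides 1, 3, 5 separate the open paths from sides 0, 2, 4. -/

namespace CNL
open XorIsing
open scoped Classical
open Finset Relation

noncomputable section

namespace ASEP6

/-- the parity function -/
def pf (η : Finset Edge) (t : V × Bool) : ZMod 2 := if Par η t then 1 else 0

/-- the indicator -/
def ic (η : Finset Edge) (e : Edge) : ZMod 2 := if e ∈ η then 1 else 0

theorem jmp_pf (h : S_PETA) {η : Finset Edge} (hη : EvenAll η) : Jmp (pf η) (ic η) := by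
  intro e t t' ht h1 h2
  have h3 := h η e t t' hη ht h1 h2
  unfold pf ic
  by_cases h4 : Par η t <;> by_cases h5 : Par η t' <;> by_cases h6 : e ∈ η <;> simp [h4, h5, h6] at h3 ⊢
  decide

/-- along a dual arm the parity function is constant -/
theorem arm_const (h : S_PETA) {η : Finset Edge} (hη : EvenAll η) {P : Edge → Prop} (hP : ∀ e, P e → e ∉ η)
    {t t' : V × Bool} (hp : ReflTransGen (TStep P) t t') : pf η t = pf η t' := by
  induction hp with
  | refl => rfl
  | tail _ hst ih =>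
    rw [ih]
    obtain ⟨hne, e, he, h1, h2⟩ := hst
    have h3 := jmp_pf h hη e _ _ hne h1 h2
    have h4 : ic η e = 0 := if_neg (hP e he)
    rw [h4] at h3
    have h5 : ∀ a b : ZMod 2, a + b = 0 → a = b := by decide
    exact h5 _ _ h3

theorem outT6 (h : S_ROT6) (n k i : ℕ) : outT n (k + 6) i = outT n k i := h.2.2.2.2.1 n k i

end ASEP6

open ASEP6

theorem p_SEP6 (h1 : S_ROT6) (h2 : S_SDF) (h3 : S_RING) (h4 : S_CYC) (h5 : S_FAR) (h6 : S_PETA) : S_SEP6 := by
  intro b x n R k k' hn hnR hk hk' hkk hke hke' hD1 hD3 hD5 v v' u u' hv hv' hu hu' huK hu'K hvu hvu' hpath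
  obtain ⟨hs1, -, hs3⟩ := h2 n x hn
  obtain ⟨e₀, he₀, hee₀⟩ := hvu
  obtain ⟨e₁, he₁, hee₁⟩ := hvu'
  have hvK : v ∈ Hx x n := hs1 k v hv
  have hv'K : v' ∈ Hx x n := hs1 k' v' hv'
  have hvv : v ≠ v' := by
    rintro rfl
    exact hkk (hs3 k k' _ hk hk' hv hv')
  obtain ⟨η, hη, h0η, h1η, hin, hcl⟩ := h4 b x n R v v' u u' e₀ e₁ hvK hv'K hvv hu hu' huK hu'K hnR.le he₀ hee₀ he₁ hee₁
    hpath
  -- all arms of odd sides
  have hSd : ∀ m w, Sd n (m + 6) w ↔ Sd n m w := fun m w => h1.2.2.2.1 n m w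
  -- a mixed edge of η at a vertex of side m < 6
  have hmix : ∀ m w y e, m < 6 → Sd n m (w - x) → y ∉ Hx x n → ((e.1 = w ∧ tip e = y) ∨ (tip e = w ∧ e.1 = y)) → e ∈ η →
      (e = e₀ ∧ m = k) ∨ (e = e₁ ∧ m = k') := by
    intro m w y e hm hw hy hey he
    have hwK : w ∈ Hx x n := hs1 m w hw
    rcases hcl e he with h | h | h | h
    · left
      refine ⟨h, hs3 m k _ hm hk hw ?_⟩
      have hwv : w = v := by
        subst h
        rcases hey with ⟨ha, hb⟩ | ⟨ha, hb⟩ <;> rcases hee₀ with ⟨hc, hd⟩ | ⟨hc, hd⟩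
        · exact ha.symm.trans hc
        · exact absurd (hb ▸ hd ▸ hvK) hy
        · exact absurd (hb ▸ hc ▸ hvK) hy
        · exact ha.symm.trans hd
      rw [hwv]
      exact hv
    · right
      refine ⟨h, hs3 m k' _ hm hk' hw ?_⟩
      have hwv : w = v' := by
        subst h
        rcases hey with ⟨ha, hb⟩ | ⟨ha, hb⟩ <;> rcases hee₁ with ⟨hc, hd⟩ | ⟨hc, hd⟩
        · exact ha.symm.trans hc
        · exact absurd (hb ▸ hd ▸ hv'K) hy
        · exact absurd (hb ▸ hc ▸ hv'K) hy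
        · exact ha.symm.trans hd
      rw [hwv]
      exact hv'
    · exfalso
      rw [mem_inn] at h
      rcases hey with ⟨_, hb⟩ | ⟨_, hb⟩
      · exact hy (hb ▸ h.2)
      · exact hy (hb ▸ h.1)
    · exfalso
      rcases hey with ⟨ha, _⟩ | ⟨ha, _⟩
      · exact h.2.1 (ha ▸ hwK)
      · exact h.2.2 (ha ▸ hwK)
  have hspk : ∀ m e, m < 6 → Spk n m x e → e ∈ η → (e = e₀ ∧ m = k) ∨ (e = e₁ ∧ m = k') := by
    intro m e hm hs he
    rcases hs with ⟨ha, hb⟩ | ⟨ha, hb⟩
    · exact hmix m _ _ e hm ha hb (Or.inl ⟨rfl, rfl⟩) he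
    · exact hmix m _ _ e hm ha hb (Or.inr ⟨rfl, rfl⟩) he
  -- dual arms: the value is 0 at the first triangle
  have harm : ∀ m, m < 6 → m % 2 = 1 → ∃ i < n, pf η (trT x (outT n m i)) = 0 := by
    intro m hm hmo
    have hD : DArm b m x n R := by
      have hm' : m = 1 ∨ m = 3 ∨ m = 5 := by omega
      rcases hm' with rfl | rfl | rfl
      · exact hD1
      · exact hD3
      · exact hD5
    obtain ⟨i, hi, t, w, hw, hvt, hp⟩ := hD
    refine ⟨i, hi, ?_⟩
    rw [arm_const h6 hη ?_ hp]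
    · exact if_neg (h5 η x R hη hin t w hw hvt)
    · intro e he heη
      obtain ⟨he1, he2⟩ := he
      rcases hcl e heη with h | h | h | h
      · subst h
        rcases he2 with h7 | ⟨h7, h8, h9⟩
        · exact h7 he₀
        · have hmk : m = k := by
            rcases hee₀ with ⟨hc, hd⟩ | ⟨hc, hd⟩
            · have := h7 (hc ▸ hvK)
              rw [hc] at this
              exact hs3 m k _ hm hk this hv
            · have := h8 (hd ▸ hvK)
              rw [hd] at this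
              exact hs3 m k _ hm hk this hv
          omega
      · subst h
        rcases he2 with h7 | ⟨h7, h8, h9⟩
        · exact h7 he₁
        · have hmk : m = k' := by
            rcases hee₁ with ⟨hc, hd⟩ | ⟨hc, hd⟩
            · have := h7 (hc ▸ hv'K)
              rw [hc] at this
              exact hs3 m k' _ hm hk' this hv'
            · have := h8 (hd ▸ hv'K)
              rw [hd] at this
              exact hs3 m k' _ hm hk' this hv'
          omega
      · exact he1 h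
      · rcases he2 with h7 | ⟨h7, h8, h9⟩
        · exact h7 h.1
        · rcases h9 with h9 | h9
          · exact h.2.1 h9
          · exact h.2.2 h9
  -- the two neighbouring sides modulo 6
  obtain ⟨a, ha6, hao, haS, haO⟩ : ∃ a, a < 6 ∧ a % 2 = 1 ∧ (∀ w, Sd n (k + 1) w ↔ Sd n a w) ∧
      ∀ i, outT n (k + 1) i = outT n a i := ⟨k + 1, by omega, by omega, fun w => Iff.rfl, fun i => rfl⟩
  obtain ⟨c, hc6, hco, hcS, hcO⟩ : ∃ c, c < 6 ∧ c % 2 = 1 ∧ (∀ w, Sd n (k + 5) w ↔ Sd n c w) ∧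
      ∀ i, outT n (k + 5) i = outT n c i := by
    by_cases hk0 : k = 0
    · exact ⟨k + 5, by omega, by omega, fun w => Iff.rfl, fun i => rfl⟩
    · obtain ⟨l, rfl⟩ : ∃ l, k = l + 1 := ⟨k - 1, by omega⟩
      exact ⟨l, by omega, by omega, fun w => hSd l w, fun i => outT6 h1 n l i⟩
  have hspk0 : ∀ m e, m < 6 → m % 2 = 1 → Spk n m x e → ic η e = 0 := by
    intro m e hm hmo hs
    refine if_neg fun he => ?_
    rcases hspk m e hm hs he with ⟨-, h⟩ | ⟨-, h⟩ <;> omega
  obtain ⟨i, hi, hfi⟩ := harm c hc6 hco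
  obtain ⟨j, hj, hfj⟩ := harm a ha6 hao
  have hring := h3 n k x (pf η) (ic η) e₀ hn (jmp_pf h6 hη)
    (fun e he => hspk0 a e ha6 hao (by
      rcases he with ⟨hp, hq⟩ | ⟨hp, hq⟩
      · exact Or.inl ⟨(haS _).1 hp, hq⟩
      · exact Or.inr ⟨(haS _).1 hp, hq⟩))
    (fun e he => hspk0 c e hc6 hco (by
      rcases he with ⟨hp, hq⟩ | ⟨hp, hq⟩
      · exact Or.inl ⟨(hcS _).1 hp, hq⟩
      · exact Or.inr ⟨(hcS _).1 hp, hq⟩))
    (by
      rcases hee₀ with ⟨hp, hq⟩ | ⟨hp, hq⟩
      · exact Or.inl ⟨hp.symm ▸ hv, hq.symm ▸ huK⟩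
      · exact Or.inr ⟨hq.symm ▸ hv, hp.symm ▸ huK⟩)
    (if_pos h0η)
    (fun e he hne => if_neg fun heη => by
      rcases hspk k e hk he heη with ⟨h, -⟩ | ⟨-, h⟩
      · exact hne h
      · exact hkk h)
    i hi j hj
  rw [hcO, haO, hfi, hfj] at hring
  exact absurd hring (by decide)

end

end CNL
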