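import Pool.Agent.Work.MP_bda6fa_cnl.IA4

set_option autoImplicit false

/-! Block ARB: the arms at the origin. -/

namespace CNLA

open XorIsing Finset

theorem p_ARB : S_ARB := by
  intro κ tr ro f P Q hPf hPrb hA
  subst hPf
  refine ⟨fun n R k => hA.loc k (0, 0) (n + 1) (n + 2 + R), ?_, ?_⟩
  · intro n R k
    have key : ∀ j : ℕ, P.P (Q j ((0, 0) : V) (n + 1) (n + 2 + R)) =
        P.P (Q 0 ((0, 0) : V) (n + 1) (n + 2 + R)) := by
      intro j
      induction j with
      | zero => rfl
      | succ j ih =>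
        have h1 : Q (j + 1) ((0, 0) : V) (n + 1) (n + 2 + R) =
            fun c => Q j ((0, 0) : V) (n + 1) (n + 2 + R) {e | ro e ∈ c} := by
          funext c
          exact propext (hA.rota j _ _ c)
        rw [h1, hPrb.rota _ (hA.loc _ _ _ _)]
        exact ih
    exact key k
  · rintro n R c ⟨k, hk, h⟩
    exact ⟨⟨k, hk⟩, h⟩

end CNLA
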