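import Pool.Agent.Work.MP_bda6fa_cnl.IA3

/-! Block AZA: the abstract Zhang theorem (helper12). -/

set_option autoImplicit false

namespace Pool.CNL

open Finset

namespace XAZA

theorem card_sqr (A : ℕ) : (sqr A).card = (2 * A + 1) * (2 * A + 1) := by
  unfold sqr
  rw [Finset.card_product, Int.card_Icc]
  have h : ((A : ℤ) + 1 - -(A : ℤ)).toNat = 2 * A + 1 := by omega
  rw [h]

end XAZA

theorem p_AZA (hZO : S_ZO) (hSIX : S_SIX) (hEXP : S_EXP) : S_AZA := by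
  classical
  intro κ P U Us T PA DA cen C hU hUs hPA hDA hInc hDcr hTL hTP hd hcount
  rintro ⟨⟨n₀, δ, hδ, hp⟩, ⟨n₁, δ', hδ', hp'⟩⟩
  obtain ⟨u1, u2, u3, u4, u5⟩ := hU
  obtain ⟨v1, v2, v3, v4, v5⟩ := hUs
  have hη : (0 : ℝ) < (1 / 12) ^ 6 := by positivity
  obtain ⟨N, hN⟩ := hZO P U u1 u2 u3 u4 u5 n₀ δ hδ hp _ hη
  obtain ⟨N', hN'⟩ := hZO P Us v1 v2 v3 v4 v5 n₁ δ' hδ' hp' _ hη
  obtain ⟨a1, a2, a3⟩ := hPA
  obtain ⟨b1, b2, b3⟩ := hDA
  have hsix : ∀ R, 1 / 2 ≤ P.P (Six (PA (max N N') R) (DA (max N N') R)) := fun R =>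
    hSIX P (PA (max N N') R) (DA (max N N') R) (U (0, 0) (max N N') R) (Us (0, 0) (max N N') R)
      (P.P (PA (max N N') R 0)) (P.P (DA (max N N') R 0)) (a1 _ R) (b1 _ R) (u1 _ _ R) (v1 _ _ R)
      (hInc _ R) (hDcr _ R) (a2 _ R) (b2 _ R) (a3 _ R) (b3 _ R) (hN _ (le_max_left _ _) R)
      (hN' _ (le_max_right _ _) R)
  generalize max N N' = n at hsix
  obtain ⟨d, hd0, hd1⟩ := hd n
  have hT : ∀ x R, d / 2 ≤ P.P (T x n R) := by
    intro x R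
    rw [hTP]
    have h1 := hd1 R
    have h2 := mul_le_mul_of_nonneg_left (hsix R) hd0.le
    linarith
  obtain ⟨A, hA⟩ := exists_nat_gt ((C n : ℝ) / (d / 2))
  obtain ⟨R, hR⟩ := hcount n A
  have hE := hEXP P (sqr A) (fun x => T (cen n x) n R) (C n * (2 * A + 1))
    (fun x _ => hTL _ _ _) (fun c => by convert hR c)
  have hS : ((sqr A).card : ℝ) * (d / 2) ≤ ∑ x ∈ sqr A, P.P (T (cen n x) n R) := by
    rw [← nsmul_eq_mul]
    exact Finset.card_nsmul_le_sum _ _ _ fun x _ => hT _ _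
  rw [XAZA.card_sqr] at hS
  have h3 := hS.trans hE
  push_cast at h3
  have h4 : (C n : ℝ) < A * (d / 2) := (div_lt_iff₀ (by positivity)).1 hA
  have h5 : (0 : ℝ) ≤ A := Nat.cast_nonneg A
  have h6 : (2 * (A : ℝ) + 1) * (d / 2) ≤ C n := by
    have h7 : (0 : ℝ) < 2 * (A : ℝ) + 1 := by positivity
    refine le_of_mul_le_mul_right ?_ h7
    linarith
  nlinarith

end Pool.CNL
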