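import Pool.Agent.Work.MP_bda6fa_cnl.IB
set_option autoImplicit false

/-! # MP_bda6fa_pr: block BIJ -/

namespace XorIsing
open scoped Classical
open Finset Filter Topology

theorem p_BIJ (hEVN : S_EVN) (hSUR : S_SUR) : S_BIJ := by
  intro n f
  rw [← Finset.sum_product']
  symm
  refine Finset.sum_bij (fun p _ => bd n p.1 p.2) ?_ ?_ ?_ ?_
  · intro p hp
    rw [Finset.mem_product, Finset.mem_powerset, Finset.mem_powerset] at hp
    rw [Finset.mem_filter, Finset.mem_powerset]
    exact ⟨Finset.filter_subset _ _, (hEVN n p.1 p.2 hp.1 hp.2).1⟩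
  · intro p hp q hq h
    rw [Finset.mem_product, Finset.mem_powerset, Finset.mem_powerset] at hp hq
    have h1 := (hEVN n p.1 p.2 hp.1 hp.2).2
    have h2 := (hEVN n q.1 q.2 hq.1 hq.2).2
    have h' : bd n p.1 p.2 = bd n q.1 q.2 := h
    rw [h'] at h1
    refine Prod.ext ?_ ?_
    · ext v
      have a := h1 (v, true)
      have b := h2 (v, true)
      simp only [if_true] at a b
      exact a.symm.trans b
    · ext v
      have a := h1 (v, false)
      have b := h2 (v, false)
      simp only [Bool.false_eq_true, if_false] at a b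
      exact a.symm.trans b
  · intro η hη
    rw [Finset.mem_filter, Finset.mem_powerset] at hη
    obtain ⟨A, hA, B, hB, rfl⟩ := hSUR n η hη.1 hη.2
    exact ⟨(A, B), by
      rw [Finset.mem_product, Finset.mem_powerset, Finset.mem_powerset]
      exact ⟨hA, hB⟩, rfl⟩
  · intro p _
    rfl

end XorIsing
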