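import Pool.Agent.Work.MP_bda6fa_cnl.IA4

set_option autoImplicit false

/-!
Block BRG (helper77): the bundled form of a probability on local events.
-/

namespace CNLA

open XorIsing Finset

theorem p_BRG : S_BRG := by
  intro κ tr ro f h
  have hadd : ∀ A B : Set κ → Prop, Pool.CNL.Loc A → Pool.CNL.Loc B → (∀ c, ¬ (A c ∧ B c)) →
      f (fun c => A c ∨ B c) = f A + f B := h.add
  have hnn : ∀ A : Set κ → Prop, Pool.CNL.Loc A → 0 ≤ f A := h.nonneg
  have hbot : f (fun _ => False) = 0 := by
    have h1 := hadd (fun _ => False) (fun _ => True) Pool.CNL.Loc.false Pool.CNL.Loc.true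
      (fun _ hc => hc.1)
    have e : (fun c : Set κ => (fun _ : Set κ => False) c ∨ (fun _ : Set κ => True) c) =
        fun _ => True := by
      funext c; exact propext ⟨fun _ => trivial, fun _ => Or.inr trivial⟩
    rw [e, h.one] at h1
    linarith
  have hdiff : ∀ A B : Set κ → Prop, Pool.CNL.Loc A → Pool.CNL.Loc B →
      f (fun c => A c ∨ B c) = f A + f (fun c => B c ∧ ¬ A c) := by
    intro A B hA hB
    rw [← hadd A (fun c => B c ∧ ¬ A c) hA (hB.and hA.not) (fun c hc => hc.2.2 hc.1)]
    congr 1
    funext c
    apply propext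
    constructor
    · rintro (hc | hc)
      · exact Or.inl hc
      · by_cases ha : A c
        · exact Or.inl ha
        · exact Or.inr ⟨hc, ha⟩
    · rintro (hc | hc)
      · exact Or.inl hc
      · exact Or.inr hc.1
  have hsplit : ∀ A B : Set κ → Prop, Pool.CNL.Loc A → Pool.CNL.Loc B →
      f B = f (fun c => A c ∧ B c) + f (fun c => B c ∧ ¬ A c) := by
    intro A B hA hB
    rw [← hadd (fun c => A c ∧ B c) (fun c => B c ∧ ¬ A c) (hA.and hB) (hB.and hA.not)
      (fun c hc => hc.2.2 hc.1.1)]
    congr 1
    funext c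
    apply propext
    constructor
    · intro hc
      by_cases ha : A c
      · exact Or.inl ⟨ha, hc⟩
      · exact Or.inr ⟨hc, ha⟩
    · rintro (hc | hc)
      · exact hc.2
      · exact hc.1
  refine ⟨⟨f, hnn, h.one, hbot, ?_, ?_, h.fkg⟩, rfl⟩
  · intro A B hA hB hAB
    have h1 := hdiff A B hA hB
    have e : (fun c => A c ∨ B c) = B := by
      funext c
      apply propext
      constructor
      · rintro (hc | hc)
        · exact hAB c hc
        · exact hc
      · exact Or.inr
    rw [e] at h1
    have h2 := hnn (fun c => B c ∧ ¬ A c) (hB.and hA.not)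
    linarith
  · intro A B hA hB
    have h1 := hdiff A B hA hB
    have h2 := hsplit A B hA hB
    linarith

end CNLA
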