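import Pool.Agent.Work.MP_bda6fa_cnl.IB

set_option autoImplicit false

namespace XorIsing
open scoped Classical
open Finset Filter Topology

namespace BBT

theorem bc_nonneg : 0 ≤ bc := by
  unfold bc
  have : 0 ≤ Real.log 3 := Real.log_nonneg (by norm_num)
  positivity

theorem dis_nonneg (β : ℝ) (H : Finset V) (t : V × Bool) : 0 ≤ dis β H t := by
  unfold dis pzc pz
  refine div_nonneg (Finset.sum_nonneg fun _ _ => (Real.exp_pos _).le)
    (Finset.sum_nonneg fun _ _ => (Real.exp_pos _).le)

theorem shift_sub (n : ℕ) : shift (1, 1) (box n) ⊆ box (n + 1) := by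
  intro u hu
  unfold shift at hu
  rw [Finset.mem_image] at hu
  obtain ⟨v, hv, rfl⟩ := hu
  rw [mem_box] at hv ⊢
  simp only [Prod.fst_add, Prod.snd_add]
  push_cast
  omega

end BBT

open BBT in
theorem p_BT (hSW : S_SW) (hREFL : S_REFL) (hDISM : S_DISM) : S_BT := by
  intro hc
  have ht : Tendsto (fun n => dis bc (box n) (((0, 0), true) : V × Bool)) atTop (𝓝 0) := by
    rw [← tendsto_add_atTop_iff_nat 1]
    exact squeeze_zero (fun n => dis_nonneg _ _ _) (fun n => (hSW n).1) hc
  intro b
  cases b
  · rw [← tendsto_add_atTop_iff_nat 1]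
    refine squeeze_zero (fun n => dis_nonneg _ _ _) (fun n => ?_) ht
    calc dis bc (box (n + 1)) (((0, 0), false) : V × Bool)
        ≤ dis bc (shift (1, 1) (box n)) (((0, 0), false) : V × Bool) :=
          hDISM bc (box (n + 1)) (shift (1, 1) (box n)) _ bc_nonneg (shift_sub n)
      _ = dis bc (box n) (((0, 0), true) : V × Bool) := hREFL bc n
  · exact ht

end XorIsing
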