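import Pool.Agent.Work.MP_bda6fa_cnl.IA2

set_option autoImplicit false

/-!
Block DFK (helper39).
-/

namespace Pool.CNL

theorem p_DFK : S_DFK := by
  intro κ P A B hA hB dA dB
  have h := P.fkg (fun c => ¬ A c) (fun c => ¬ B c) hA.not hB.not dA.not dB.not
  have e : (fun c => ¬ A c ∧ ¬ B c) = fun c => ¬ (A c ∨ B c) := by
    funext c
    exact propext not_or.symm
  rw [P.compl hA, P.compl hB, e, P.compl (hA.or hB)] at h
  have h2 := P.add A B hA hB
  nlinarith

end Pool.CNL
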