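import Pool.Agent.Work.MP_bda6fa_cnl.IB
set_option autoImplicit false

/-! Block EVN: the set bd n A B is even and its parities are the given values. -/

namespace XorIsing
open scoped Classical
open Finset

namespace XEVN

theorem mem_fal {n : ℕ} {v : V} : v ∈ fal n ↔ v ∈ box n ∨ v + (1, 0) ∈ box n ∨ v + (0, 1) ∈ box n := by
  unfold fal
  rw [mem_union, mem_union, mem_image, mem_image, or_assoc]
  constructor
  · rintro (h | ⟨u, hu, rfl⟩ | ⟨u, hu, rfl⟩)
    · exact Or.inl h
    · right; left
      rw [sub_add_cancel]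
      exact hu
    · right; right
      rw [sub_add_cancel]
      exact hu
  · rintro (h | h | h)
    · exact Or.inl h
    · exact Or.inr (Or.inl ⟨_, h, add_sub_cancel_right _ _⟩)
    · exact Or.inr (Or.inr ⟨_, h, add_sub_cancel_right _ _⟩)

theorem dn_of_up {n : ℕ} {e : Edge} (h : BETA.up e ∈ box n) : BETA.dn e ∈ fal n := by
  obtain ⟨v, k⟩ := e
  rw [mem_fal]
  fin_cases k
  · right; right
    have h1 : BETA.up ((v, 0) : Edge) = v := BETA.up0 v
    have h2 : BETA.dn ((v, 0) : Edge) = v - (0, 1) := BETA.dn0 v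
    simp only [Fin.zero_eta, Fin.isValue, h1, h2, sub_add_cancel] at h ⊢
    exact h
  · right; left
    have h1 : BETA.up ((v, 1) : Edge) = v := BETA.up1 v
    have h2 : BETA.dn ((v, 1) : Edge) = v - (1, 0) := BETA.dn1 v
    simp only [Fin.mk_one, Fin.isValue, h1, h2, sub_add_cancel] at h ⊢
    exact h
  · left
    have h1 : BETA.up ((v, 2) : Edge) = v - (0, 1) := BETA.up2 v
    have h2 : BETA.dn ((v, 2) : Edge) = v - (0, 1) := BETA.dn2 v
    simp only [Fin.reduceFinMk, Fin.isValue, h1, h2] at h ⊢
    exact h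

/-- the indicator of the triangles with value 1 -/
noncomputable def val (A B : Finset V) (t : V × Bool) : ZMod 2 :=
  if t.2 = true then (if t.1 ∈ A then 1 else 0) else (if t.1 ∈ B then 1 else 0)

theorem val_true (A B : Finset V) (v : V) : val A B (v, true) = if v ∈ A then 1 else 0 := by
  simp [val]

theorem val_false (A B : Finset V) (v : V) : val A B (v, false) = if v ∈ B then 1 else 0 := by
  simp [val]

end XEVN

theorem p_EVN (hMFF : S_MFF) : S_EVN := by
  intro n A B hA hB
  set η : Finset Edge := bd n A B with hη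
  have hmem : ∀ e, e ∈ η ↔ ¬ (BETA.up e ∈ A ↔ BETA.dn e ∈ B) := by
    intro e
    rw [hη, bd, mem_filter, hMFF]
    refine ⟨fun h => h.2, fun h => ⟨?_, h⟩⟩
    by_contra hc
    exact h (iff_of_false (fun ha => hc (XEVN.dn_of_up (hA ha))) (fun hb => hc (hB hb)))
  have hchi : ∀ e, chi η e = XEVN.val A B (BETA.up e, true) + XEVN.val A B (BETA.dn e, false) := by
    intro e
    have hm := hmem e
    rw [XEVN.val_true, XEVN.val_false]
    unfold chi
    by_cases h1 : BETA.up e ∈ A <;> by_cases h3 : BETA.dn e ∈ B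
    · rw [if_pos h1, if_pos h3, if_neg (by rw [hm]; simp [h1, h3])]; decide
    · rw [if_pos h1, if_neg h3, if_pos (by rw [hm]; simp [h1, h3])]; decide
    · rw [if_neg h1, if_pos h3, if_pos (by rw [hm]; simp [h1, h3])]; decide
    · rw [if_neg h1, if_neg h3, if_neg (by rw [hm]; simp [h1, h3])]; decide
  have heven : EvenAll η := BETA.even_of η (XEVN.val A B) hchi
  refine ⟨heven, ?_⟩
  obtain ⟨N0, hN0⟩ := exists_bound η
  set N : ℤ := max N0 ((n : ℤ) + 1) with hNdef
  have hfar : ∀ v : V, N ≤ v.1 → (Par η (v, true) ↔ v ∈ A) := by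
    intro v hv
    have hv1 : N0 ≤ v.1 := le_trans (le_max_left _ _) hv
    have hv2 : (n : ℤ) + 1 ≤ v.1 := le_trans (le_max_right _ _) hv
    have hnc : ∀ e ∈ η, ¬ cut ((v, true) : V × Bool) e := by
      intro e he hc
      have h1 := hN0 e he
      rcases hc with ⟨-, -, h3⟩ | ⟨-, -, h3⟩
      · have h4 : v.1 + 1 ≤ e.1.1 := h3
        omega
      · have h4 : v.1 ≤ e.1.1 := by simpa using h3
        omega
    have hpar : ¬ Par η (v, true) := by
      unfold Par
      have h1 : η.filter (fun e => cut ((v, true) : V × Bool) e) = ∅ := by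
        refine filter_eq_empty_iff.2 fun e he => hnc e he
      rw [h1]
      simp
    have hvA : v ∉ A := by
      intro h
      have h1 := (mem_box.1 (hA h)).1.2
      omega
    exact iff_of_false hpar hvA
  have hstep : ∀ (e : Edge), (Par η (BETA.up e, true) ↔ BETA.up e ∈ A) ↔
      (Par η (BETA.dn e, false) ↔ BETA.dn e ∈ B) := by
    intro e
    have h1 := p_PETA η e (BETA.up e, true) (BETA.dn e, false) heven (by simp) (BETA.mem_up e)
      (BETA.mem_dn e)
    have h3 := hmem e
    by_cases p1 : Par η (BETA.up e, true) <;> by_cases p2 : Par η (BETA.dn e, false) <;>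
      by_cases p3 : BETA.up e ∈ A <;> by_cases p4 : BETA.dn e ∈ B <;>
      simp_all
  have hwalk : ∀ m : ℕ, ∀ v : V, N ≤ v.1 + m → (Par η (v, true) ↔ v ∈ A) := by
    intro m
    induction m with
    | zero =>
      intro v hv
      exact hfar v (by simpa using hv)
    | succ m ih =>
      intro v hv
      have h1 := ih (v + (1, 0)) (by
        have h3 : (v + (1, 0) : V).1 = v.1 + 1 := rfl
        rw [h3]
        push_cast at hv
        omega)
      have h3 := hstep (v + (1, 0), 1)
      rw [BETA.up1, BETA.dn1, add_sub_cancel_right] at h3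
      have h4 := hstep (v + (0, 1), 2)
      rw [BETA.up2, BETA.dn2, add_sub_cancel_right] at h4
      exact h4.2 (h3.1 h1)
  have hall : ∀ v : V, (Par η (v, true) ↔ v ∈ A) := by
    intro v
    refine hwalk (N - v.1).toNat v ?_
    omega
  rintro ⟨v, b⟩
  cases b with
  | true => simpa using hall v
  | false =>
    have h4 := hstep (v + (0, 1), 2)
    rw [BETA.up2, BETA.dn2, add_sub_cancel_right] at h4
    simpa using h4.1 (hall v)

end XorIsing
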