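import Pool.Agent.Work.MP_bda6fa_cnl.IA2

/-!
# Block EXP: expected number
-/

set_option autoImplicit false

namespace Pool.CNL

open Finset

namespace XEXP

/-- `c` meets `S` exactly in `t` -/
def C {κ : Type} (S t : Finset κ) (c : Set κ) : Prop := ∀ e ∈ S, (e ∈ c ↔ e ∈ t)

theorem C_loc {κ : Type} (S t : Finset κ) : LocOn S (C S t) := by
  intro c c' h
  constructor
  · intro hc e he
    rw [← h e he]; exact hc e he
  · intro hc e he
    rw [h e he]; exact hc e he

theorem F_loc {κ : Type} (S : Finset κ) (F : Finset (Finset κ)) :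
    LocOn S (fun c => ∃ t ∈ F, C S t c) := by
  intro c c' h
  constructor
  · rintro ⟨t, ht, hc⟩
    exact ⟨t, ht, (C_loc S t c c' h).mp hc⟩
  · rintro ⟨t, ht, hc⟩
    exact ⟨t, ht, (C_loc S t c c' h).mpr hc⟩

theorem sum_F {κ : Type} (P : LP κ) (S : Finset κ) (F : Finset (Finset κ))
    (hF : ∀ t ∈ F, t ⊆ S) :
    P.P (fun c => ∃ t ∈ F, C S t c) = ∑ t ∈ F, P.P (C S t) := by
  classical
  induction F using Finset.induction_on with
  | empty =>
    rw [sum_empty]
    have : (fun c => ∃ t ∈ (∅ : Finset (Finset κ)), C S t c) = fun _ => False := by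
      funext c
      apply propext
      constructor
      · rintro ⟨t, ht, _⟩
        exact absurd ht (notMem_empty t)
      · exact fun h => h.elim
    rw [this, P.bot]
  | insert a F ha ih =>
    rw [sum_insert ha]
    have h := P.add (C S a) (fun c => ∃ t ∈ F, C S t c) ⟨S, C_loc S a⟩ ⟨S, F_loc S F⟩
    have e1 : (fun c => C S a c ∨ ∃ t ∈ F, C S t c) =
        fun c => ∃ t ∈ insert a F, C S t c := by
      funext c
      apply propext
      constructor
      · rintro (hc | ⟨t, ht, hc⟩)
        · exact ⟨a, mem_insert_self _ _, hc⟩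
        · exact ⟨t, mem_insert_of_mem ht, hc⟩
      · rintro ⟨t, ht, hc⟩
        rcases mem_insert.mp ht with rfl | ht
        · exact Or.inl hc
        · exact Or.inr ⟨t, ht, hc⟩
    have e2 : (fun c => C S a c ∧ ∃ t ∈ F, C S t c) = fun _ => False := by
      funext c
      apply propext
      constructor
      · rintro ⟨hc, t, ht, hc'⟩
        apply ha
        have hat : a = t := by
          ext e
          constructor
          · intro he
            have heS := hF a (mem_insert_self _ _) he
            exact (hc' e heS).mp ((hc e heS).mpr he)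
          · intro he
            have heS := hF t (mem_insert_of_mem ht) he
            exact (hc e heS).mp ((hc' e heS).mpr he)
        rw [hat]; exact ht
      · exact fun h => h.elim
    rw [e1, e2, P.bot, ih fun t ht => hF t (mem_insert_of_mem ht)] at h
    linarith

open Classical in
theorem sum_A {κ : Type} (P : LP κ) (S : Finset κ) (A : Set κ → Prop) (hA : LocOn S A) :
    P.P A = ∑ t ∈ S.powerset, if A (t : Set κ) then P.P (C S t) else 0 := by
  rw [← sum_filter, ← sum_F P S _ fun t ht => mem_powerset.mp (mem_filter.mp ht).1]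
  congr 1
  funext c
  apply propext
  constructor
  · intro hc
    have hC : C S (S.filter fun e => e ∈ c) c := fun e he => by
      rw [mem_filter]
      exact ⟨fun h => ⟨he, h⟩, fun h => h.2⟩
    refine ⟨S.filter fun e => e ∈ c, ?_, hC⟩
    rw [mem_filter, mem_powerset]
    refine ⟨filter_subset _ _, ?_⟩
    exact (hA c _ hC).mp hc
  · rintro ⟨t, ht, hc⟩
    rw [mem_filter] at ht
    exact (hA c _ hc).mpr ht.2

end XEXP

theorem p_EXP : S_EXP := by
  classical
  intro κ ι P X A m hloc hcard
  obtain ⟨S, hS⟩ : ∃ S : Finset κ, ∀ x ∈ X, LocOn S (A x) := by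
    choose! T hT using hloc
    exact ⟨X.biUnion T, fun x hx => (hT x hx).mono (subset_biUnion_of_mem T hx)⟩
  have h1 : ∑ x ∈ X, P.P (A x) = ∑ t ∈ S.powerset,
      ((X.filter fun x => A x (t : Set κ)).card : ℝ) * P.P (XEXP.C S t) := by
    rw [sum_congr rfl fun x hx => XEXP.sum_A P S (A x) (hS x hx), sum_comm]
    refine sum_congr rfl fun t _ => ?_
    rw [← sum_filter, sum_const, nsmul_eq_mul]
  have h2 : ∑ t ∈ S.powerset, P.P (XEXP.C S t) = 1 := by
    have h3 := XEXP.sum_A P S (fun _ => True) (fun _ _ _ => Iff.rfl)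
    rw [P.top] at h3
    rw [h3]
    refine sum_congr rfl fun t _ => ?_
    rw [if_pos trivial]
  rw [h1]
  calc ∑ t ∈ S.powerset, ((X.filter fun x => A x (t : Set κ)).card : ℝ) * P.P (XEXP.C S t)
      ≤ ∑ t ∈ S.powerset, (m : ℝ) * P.P (XEXP.C S t) := by
        refine sum_le_sum fun t _ => ?_
        refine mul_le_mul_of_nonneg_right ?_ (P.nonneg _ ⟨S, XEXP.C_loc S t⟩)
        exact_mod_cast hcard t
    _ = m := by rw [← mul_sum, h2, mul_one]

end Pool.CNL
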