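import Pool.Agent.Work.MP_bda6fa_cnl.IA4

set_option autoImplicit false

/-!
MP_bda6fa_pr, critical nested loops: CNL.S_AZ from the blocks of IA3 and IA4 (helper18).
-/

namespace CNLA

open XorIsing Finset

theorem p_FAZ (hAZA : Pool.CNL.S_AZA) (hBRG : S_BRG) (hZOB : S_ZOB) (hARB : S_ARB) (hTLO : S_TLO)
    (hTTR : S_TTR) (hTFE : S_TFE) (hTCN : S_TCN) : CNL.S_AZ := by
  intro κ tr ro LPf P D Sf bb hPrb hMix hP hD hL n₀ p hn0 hp h1 h2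
  obtain ⟨Q, hQ⟩ := hBRG κ tr ro LPf hPrb
  obtain ⟨n, rfl⟩ : ∃ n, n₀ = n + 1 := ⟨n₀ - 1, by omega⟩
  refine hAZA Q (Uf P) (Uf D) (Tf P D Sf) (Af P) (Af D) cen (fun n => 6 * (2 * n + 3))
    (hZOB κ tr ro LPf Q P hQ hPrb hMix hP (Or.inl hL.inc))
    (hZOB κ tr ro LPf Q D hQ hPrb hMix hD (Or.inr hL.dec))
    (hARB κ tr ro LPf Q P hQ hPrb hP) (hARB κ tr ro LPf Q D hQ hPrb hD)
    (fun n R k => hL.inc _ _ _ _) (fun n R k => hL.dec _ _ _ _)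
    (fun x n R => hTLO κ tr ro P D Sf hP hD x n R) ?_ ?_ ?_ ⟨⟨n, p, hp, ?_⟩, ⟨n, p, hp, ?_⟩⟩
  · intro x n R
    rw [hQ]
    have e : Tf P D Sf x n R = fun c => Tf P D Sf (0, 0) n R {e | tr x e ∈ c} := by
      funext c
      exact propext (hTTR κ tr ro P D Sf bb hP hD hL x n R c)
    rw [e]
    exact hPrb.tran (Tf P D Sf (0, 0) n R) x (hTLO κ tr ro P D Sf hP hD (0, 0) n R)
  · intro n
    rw [hQ]
    exact hTFE κ tr ro LPf P D Sf hPrb hP hD n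
  · intro n A
    exact hTCN κ tr P D Sf bb hL n A
  · intro R
    rw [hQ]
    exact h1 (n + 2 + R) (by omega)
  · intro R
    rw [hQ]
    exact h2 (n + 2 + R) (by omega)

end CNLA
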