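import Pool.Agent.Work.MP_bda6fa_cnl.IA2

/-!
# Block FVE
-/

set_option autoImplicit false

namespace Pool.CNL

open Finset

namespace XFVE

open Classical in
theorem fib {κ : Type} (E S c' : Finset κ) :
    (E.powerset.filter fun c => c ∪ S = c').card ≤ 2 ^ S.card := by
  rw [← Finset.card_powerset]
  refine Finset.card_le_card_of_injOn (fun c => c ∩ S) ?_ ?_
  · intro c _
    exact Finset.mem_coe.2 (Finset.mem_powerset.2 Finset.inter_subset_right)
  · intro c1 h1 c2 h2 h12
    have e1 : c1 ∪ S = c' := (Finset.mem_filter.1 h1).2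
    have e2 : c2 ∪ S = c' := (Finset.mem_filter.1 h2).2
    have h12' : c1 ∩ S = c2 ∩ S := h12
    ext e
    by_cases he : e ∈ S
    · have := Finset.ext_iff.1 h12' e
      simp only [Finset.mem_inter, he, and_true] at this
      exact this
    · have := Finset.ext_iff.1 (e1.trans e2.symm) e
      simp only [Finset.mem_union, he, or_false] at this
      exact this

end XFVE

theorem p_FVE : S_FVE := by
  classical
  intro κ F S d M hd hS hw A A' hA
  have hWpos : 0 < ∑ c ∈ (F.E M).powerset, F.w M c :=
    Finset.sum_pos (fun c hc => F.pos M c (Finset.mem_powerset.1 hc))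
      ⟨∅, Finset.empty_mem_powerset _⟩
  let g : Finset κ → ℝ := fun c => if A' (c : Set κ) then F.w M c else 0
  have hg : ∀ c ∈ (F.E M).powerset, 0 ≤ g c := by
    intro c hc
    simp only [g]
    split_ifs
    · exact (F.pos M c (Finset.mem_powerset.1 hc)).le
    · exact le_rfl
  have hmap : ∀ c ∈ (F.E M).powerset, c ∪ S ∈ (F.E M).powerset := fun c hc =>
    Finset.mem_powerset.2 (Finset.union_subset (Finset.mem_powerset.1 hc) hS)
  have h1 : ∀ c ∈ (F.E M).powerset,
      d * (if A (c : Set κ) then F.w M c else 0) ≤ g (c ∪ S) := by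
    intro c hc
    by_cases hAc : A (c : Set κ)
    · rw [if_pos hAc]
      have h2 : A' ((c ∪ S : Finset κ) : Set κ) := by
        rw [Finset.coe_union]
        exact hA _ hAc
      simp only [g]
      rw [if_pos h2]
      exact hw c (c ∪ S) (Finset.mem_powerset.1 hc) fun e => Finset.mem_union
    · rw [if_neg hAc, mul_zero]
      exact hg _ (hmap c hc)
  have key : d * (∑ c ∈ (F.E M).powerset, if A (c : Set κ) then F.w M c else 0) ≤
      2 ^ S.card * ∑ c ∈ (F.E M).powerset, g c := by
    rw [Finset.mul_sum]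
    refine (Finset.sum_le_sum h1).trans ?_
    rw [← Finset.sum_fiberwise_of_maps_to hmap (fun c => g (c ∪ S)), Finset.mul_sum]
    refine Finset.sum_le_sum fun c' hc' => ?_
    have h2 : ∑ c ∈ (F.E M).powerset.filter (fun c => c ∪ S = c'), g (c ∪ S) =
        ((F.E M).powerset.filter fun c => c ∪ S = c').card * g c' := by
      rw [← nsmul_eq_mul, ← Finset.sum_const]
      exact Finset.sum_congr rfl fun c hc => by rw [(Finset.mem_filter.1 hc).2]
    rw [h2]
    refine mul_le_mul_of_nonneg_right ?_ (hg c' hc')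
    exact_mod_cast XFVE.fib (F.E M) S c'
  have e1 : F.Pr M A = (∑ c ∈ (F.E M).powerset, if A (c : Set κ) then F.w M c else 0) /
      ∑ c ∈ (F.E M).powerset, F.w M c := by
    unfold FV.Pr
    congr 1
  have e2 : F.Pr M A' = (∑ c ∈ (F.E M).powerset, g c) / ∑ c ∈ (F.E M).powerset, F.w M c := by
    unfold FV.Pr
    congr 1
  rw [e1, e2, ← mul_div_assoc]
  refine div_le_div_of_nonneg_right ?_ hWpos.le
  rw [div_mul_eq_mul_div, div_le_iff₀ (by positivity)]
  linarith

end Pool.CNL
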