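import Pool.Agent.Work.MP_bda6fa_cnl.IA2

/-!
# FVK: FKG in finite volume (helper64)
-/

set_option autoImplicit false

namespace Pool.CNL

open Finset
open scoped FinsetFamily

theorem p_FVK : S_FVK := by
  intro κ F M A B hA hB
  classical
  set f : Finset κ → ℝ := fun c => if c ⊆ F.E M then F.w M c else 0 with hf
  have hf0 : 0 ≤ f := by
    intro c
    show (0 : ℝ) ≤ if c ⊆ F.E M then F.w M c else 0
    split_ifs with h
    · exact (F.pos M c h).le
    · exact le_rfl
  have hfw : ∀ c ∈ (F.E M).powerset, f c = F.w M c := fun c hc => if_pos (mem_powerset.1 hc)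
  set Z : ℝ := ∑ c ∈ (F.E M).powerset, F.w M c with hZdef
  have hZ : 0 < Z := sum_pos (fun c hc => F.pos M c (mem_powerset.1 hc))
    ⟨∅, empty_mem_powerset _⟩
  have hPr : ∀ C : Set κ → Prop, F.Pr M C =
      (∑ c ∈ (F.E M).powerset.filter (fun c : Finset κ => C (c : Set κ)), f c) / Z := by
    intro C
    unfold FV.Pr
    rw [sum_filter]
    congr 1
    apply sum_congr rfl
    intro c hc
    rw [hfw c hc]
  have key := Finset.four_functions_theorem (F.E M) (f₁ := f) (f₂ := f) (f₃ := f) (f₄ := f)
    hf0 hf0 hf0 hf0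
    (by
      intro s hs t ht
      simp only [hf]
      rw [if_pos hs, if_pos ht, if_pos (inter_subset_left.trans hs), if_pos (union_subset hs ht)]
      exact F.lsm M s t hs ht)
    (𝒜 := (F.E M).powerset.filter (fun c : Finset κ => A (c : Set κ)))
    (ℬ := (F.E M).powerset.filter (fun c : Finset κ => B (c : Set κ)))
    (filter_subset _ _) (filter_subset _ _)
  have h1 : ∑ s ∈ ((F.E M).powerset.filter (fun c : Finset κ => A (c : Set κ))) ⊼
      ((F.E M).powerset.filter (fun c : Finset κ => B (c : Set κ))), f s ≤ Z := by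
    rw [hZdef, ← sum_congr rfl hfw]
    apply sum_le_sum_of_subset_of_nonneg
    · intro c hc
      obtain ⟨a, ha, b, hb, rfl⟩ := mem_infs.1 hc
      rw [mem_powerset]
      exact inter_subset_left.trans (mem_powerset.1 (mem_filter.1 ha).1)
    · intro c _ _
      exact hf0 c
  have h2 : ∑ s ∈ ((F.E M).powerset.filter (fun c : Finset κ => A (c : Set κ))) ⊻
      ((F.E M).powerset.filter (fun c : Finset κ => B (c : Set κ))), f s ≤
      ∑ c ∈ (F.E M).powerset.filter (fun c : Finset κ => A (c : Set κ) ∧ B (c : Set κ)), f c := by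
    apply sum_le_sum_of_subset_of_nonneg
    · intro c hc
      obtain ⟨a, ha, b, hb, rfl⟩ := mem_sups.1 hc
      rw [mem_filter] at ha hb ⊢
      refine ⟨mem_powerset.2 (union_subset (mem_powerset.1 ha.1) (mem_powerset.1 hb.1)), ?_, ?_⟩
      · refine hA _ _ ?_ ha.2
        intro e he
        exact mem_union_left _ he
      · refine hB _ _ ?_ hb.2
        intro e he
        exact mem_union_right _ he
    · intro c _ _
      exact hf0 c
  have h3 : 0 ≤ ∑ s ∈ ((F.E M).powerset.filter (fun c : Finset κ => A (c : Set κ))) ⊻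
      ((F.E M).powerset.filter (fun c : Finset κ => B (c : Set κ))), f s := sum_nonneg fun c _ => hf0 c
  rw [hPr A, hPr B, hPr, div_mul_div_comm, div_le_div_iff₀ (mul_pos hZ hZ) hZ]
  have h4 := key.trans (mul_le_mul h1 h2 h3 hZ.le)
  refine (mul_le_mul_of_nonneg_right h4 hZ.le).trans (le_of_eq ?_)
  rw [mul_comm Z, mul_assoc]
  congr!

end Pool.CNL
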