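import Pool.Agent.Work.MP_bda6fa_cnl.IB
set_option autoImplicit false

/-! HTE: high temperature expansion with tanh. -/

namespace XorIsing
open scoped Classical
open Finset

namespace HTE

theorem exp_edge (β s : ℝ) (hs : s = 1 ∨ s = -1) :
    Real.exp (β * s) = Real.cosh β * (Real.tanh β * s + 1) := by
  have h0 : Real.cosh β ≠ 0 := (Real.cosh_pos β).ne'
  have h1 : Real.cosh β * (Real.tanh β * s + 1) = Real.sinh β * s + Real.cosh β := by
    rw [Real.tanh_eq_sinh_div_cosh]
    field_simp
  rw [h1]
  rcases hs with rfl | rfl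
  · rw [mul_one, mul_one, ← Real.cosh_add_sinh]
    ring
  · rw [show β * (-1) = -β by ring, ← Real.cosh_sub_sinh]
    ring

theorem even_iff {D : Finset V} {F η : Finset Edge} (hF : F ⊆ inn D) (hη : η ⊆ F) :
    EvenOn D η ↔ EvenAll η := by
  constructor
  · intro h v
    by_cases hv : v ∈ D
    · exact h v hv
    · have h1 : η.filter (fun e => e.1 = v ∨ tip e = v) = ∅ := by
        apply filter_eq_empty_iff.2
        intro e he h2
        have h3 := mem_inn.1 (hF (hη he))
        rcases h2 with h2 | h2
        · exact hv (h2 ▸ h3.1)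
        · exact hv (h2 ▸ h3.2)
      rw [h1]
      simp
  · intro h v _
    exact h v

theorem gen (β : ℝ) (D : Finset V) (F : Finset Edge) (c : Edge → ℝ)
    (hc : ∀ e, c e = 1 ∨ c e = -1) (hF : F ⊆ inn D) :
    ∑ M ∈ D.powerset, Real.exp (β * ∑ e ∈ F, c e * (spin M e.1 * spin M (tip e))) =
      2 ^ D.card * Real.cosh β ^ F.card *
        ∑ η ∈ F.powerset.filter EvenAll, Real.tanh β ^ η.card * ∏ e ∈ η, c e := by
  have h1 : ∀ M ∈ D.powerset, Real.exp (β * ∑ e ∈ F, c e * (spin M e.1 * spin M (tip e))) =
      ∑ η ∈ F.powerset, (Real.cosh β ^ F.card * (Real.tanh β ^ η.card * ∏ e ∈ η, c e)) *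
        HT.P η M := by
    intro M _
    have hs : ∀ e, c e * (spin M e.1 * spin M (tip e)) = 1 ∨
        c e * (spin M e.1 * spin M (tip e)) = -1 := by
      intro e
      rcases hc e with h | h <;> rcases HT.edge_sign M e with h' | h' <;> rw [h, h'] <;> norm_num
    rw [mul_sum, Real.exp_sum, prod_congr rfl (fun e _ => exp_edge β _ (hs e)), prod_mul_distrib,
      prod_const, prod_add, mul_sum]
    refine sum_congr rfl fun η _ => ?_
    rw [prod_const_one, mul_one, prod_mul_distrib, prod_const, prod_mul_distrib]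
    unfold HT.P
    ring
  rw [sum_congr rfl h1, sum_comm, mul_sum, sum_filter]
  refine sum_congr rfl fun η hη => ?_
  rw [← mul_sum, HT.sum_P]
  have h2 := even_iff hF (mem_powerset.1 hη)
  by_cases h : EvenOn D η
  · rw [if_pos h, if_pos (h2.1 h)]
    ring
  · rw [if_neg h, if_neg (fun h' => h (h2.2 h'))]
    ring

end HTE

theorem p_HTE : S_HTE := by
  intro β D F t hF
  constructor
  · have h1 := HTE.gen β D F (fun _ => 1) (fun _ => Or.inl rfl) hF
    simp only [one_mul, prod_const_one, mul_one] at h1
    unfold pz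
    exact h1
  · have h1 := HTE.gen β D F (fun e => if cut t e then -1 else 1) (fun e => by
      by_cases h : cut t e
      · right; simp only [if_pos h]
      · left; simp only [if_neg h]) hF
    unfold pzc
    rw [h1]
    congr 1
    refine sum_congr rfl fun η _ => ?_
    congr 1
    rw [prod_ite]
    rw [prod_const, prod_const_one, mul_one]
    unfold Par
    by_cases h : Odd (η.filter (fun e => cut t e)).card
    · rw [if_pos h, h.neg_one_pow]
    · rw [if_neg h, (Nat.not_odd_iff_even.1 h).neg_one_pow]

end XorIsing
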