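import Pool.Agent.Work.MP_bda6fa_cnl.IA4

set_option autoImplicit false

/-!
Block HXI (helper39).
-/

namespace CNLA

open XorIsing Finset

theorem p_HXI : S_HXI := by
  rintro ⟨a, b⟩ n j h
  simp only at h
  constructor
  · rintro ⟨u, v⟩ hv
    rw [CNL.mem_Hx] at hv ⊢
    simp only [Nat.cast_add] at hv ⊢
    omega
  · rintro ⟨u, v⟩ hv
    rw [CNL.mem_Hx] at hv ⊢
    simp only [Nat.cast_add] at hv ⊢
    omega

end CNLA
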