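import Pool.Agent.Work.MP_bda6fa_cnl.IB
set_option autoImplicit false

/-! Block INC: the edge sets. -/

namespace XorIsing
open scoped Classical
open Finset

namespace BINC

theorem fal_le {n : ℕ} {v : V} (h : v ∈ fal n) :
    (-(n : ℤ) - 1 ≤ v.1 ∧ v.1 ≤ n) ∧ -(n : ℤ) - 1 ≤ v.2 ∧ v.2 ≤ n := by
  unfold fal at h
  rw [mem_union, mem_union, mem_image, mem_image] at h
  rcases h with (h | ⟨w, hw, rfl⟩) | ⟨w, hw, rfl⟩
  · rw [mem_box] at h
    omega
  · rw [mem_box] at hw
    simp only [Prod.fst_sub, Prod.snd_sub]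
    omega
  · rw [mem_box] at hw
    simp only [Prod.fst_sub, Prod.snd_sub]
    omega

end BINC

theorem p_INC (h : S_MFF) : S_INC := by
  intro n
  constructor
  · intro e he
    rw [h n e]
    have h1 := (mem_inn.1 he).1
    unfold fal
    rw [mem_union, mem_union, mem_image, mem_image]
    obtain ⟨v, k⟩ := e
    fin_cases k
    · right
      exact ⟨v, h1, (BETA.dn0 v).symm⟩
    · left
      right
      exact ⟨v, h1, (BETA.dn1 v).symm⟩
    · right
      exact ⟨v, h1, (BETA.dn2 v).symm⟩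
  · intro e he
    rw [h n e] at he
    have h1 := BINC.fal_le he
    obtain ⟨⟨a, b⟩, k⟩ := e
    rw [mem_inn, mem_box, mem_box]
    fin_cases k
    · have h2 : BETA.dn (((a, b), 0) : Edge) = (a, b) - (0, 1) := BETA.dn0 _
      have h3 : tip (((a, b), 0) : Edge) = (a + 1, b + 0) := rfl
      simp only [Fin.zero_eta, Fin.isValue, h2, h3, Prod.mk_sub_mk] at h1 ⊢
      push_cast
      omega
    · have h2 : BETA.dn (((a, b), 1) : Edge) = (a, b) - (1, 0) := BETA.dn1 _
      have h3 : tip (((a, b), 1) : Edge) = (a + 0, b + 1) := rfl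
      simp only [Fin.mk_one, Fin.isValue, h2, h3, Prod.mk_sub_mk] at h1 ⊢
      push_cast
      omega
    · have h2 : BETA.dn (((a, b), 2) : Edge) = (a, b) - (0, 1) := BETA.dn2 _
      have h3 : tip (((a, b), 2) : Edge) = (a + 1, b + -1) := rfl
      simp only [Fin.reduceFinMk, Fin.isValue, h2, h3, Prod.mk_sub_mk] at h1 ⊢
      push_cast
      omega

end XorIsing
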