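import Pool.Agent.Work.MP_bda6fa_cnl.IB
set_option autoImplicit false

/-! Block B_KW: Kramers-Wannier duality and star-triangle transformation put together. -/

namespace XorIsing
open scoped Classical
open Finset Filter Topology

theorem p_KW (hHTE : S_HTE) (hBIJ : S_BIJ) (hEVN : S_EVN) (hSTAR : S_STAR) (hWT : S_WT) :
    S_KW := by
  intro n D hF
  obtain ⟨c, hc, hw⟩ := hWT n
  obtain ⟨h1, h2⟩ := hHTE bc D (FF n) ((0, 0), true) hF
  have hKpos : 0 < (2 : ℝ) ^ D.card * Real.cosh bc ^ (FF n).card :=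
    mul_pos (pow_pos two_pos _) (pow_pos (Real.cosh_pos _) _)
  have e1 : ∑ η ∈ (FF n).powerset.filter EvenAll, Real.tanh bc ^ η.card =
      c * ZZ bc (box n) := by
    rw [hBIJ n (fun η => Real.tanh bc ^ η.card)]
    unfold ZZ
    rw [Finset.mul_sum]
    refine Finset.sum_congr rfl fun A hA => ?_
    rw [hSTAR, hw A (Finset.mem_powerset.1 hA)]
  have e2 : ∑ η ∈ (FF n).powerset.filter EvenAll,
      Real.tanh bc ^ η.card * (if Par η (((0, 0), true) : V × Bool) then -1 else 1) =
      c * ∑ M ∈ (box n).powerset, wt bc (box n) M * ∏ a ∈ {((0, 0) : V)}, spin M a := by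
    rw [hBIJ n (fun η =>
      Real.tanh bc ^ η.card * (if Par η (((0, 0), true) : V × Bool) then -1 else 1))]
    rw [Finset.mul_sum]
    refine Finset.sum_congr rfl fun A hA => ?_
    have hA' := Finset.mem_powerset.1 hA
    rw [Finset.prod_singleton]
    have h3 : ∀ B ∈ (fal n).powerset,
        Real.tanh bc ^ (bd n A B).card *
          (if Par (bd n A B) (((0, 0), true) : V × Bool) then (-1 : ℝ) else 1) =
        Real.tanh bc ^ (bd n A B).card * spin A (0, 0) := by
      intro B hB
      have h := (hEVN n A B hA' (Finset.mem_powerset.1 hB)).2 (((0, 0), true) : V × Bool)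
      have h' : Par (bd n A B) (((0, 0), true) : V × Bool) ↔ ((0, 0) : V) ∈ A := by
        simpa using h
      unfold spin
      by_cases hm : ((0, 0) : V) ∈ A
      · rw [if_pos (h'.2 hm), if_pos hm]
      · rw [if_neg (fun hp => hm (h'.1 hp)), if_neg hm]
    rw [Finset.sum_congr rfl h3, ← Finset.sum_mul, hSTAR, hw A hA']
    ring
  rw [h1, h2, e1, e2]
  unfold corr
  rw [mul_div_mul_left _ _ hKpos.ne', mul_div_mul_left _ _ hc.ne']

end XorIsing
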