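import Pool.Agent.Work.MP_bda6fa_cnl.IA2

/-! # Block LIM: the limit along the hyperfilter -/

set_option autoImplicit false

namespace Pool.CNL

open Finset

namespace XLIM

variable {κ : Type} (F : FV κ)

lemma tot_pos (M : ℕ) : 0 < ∑ c ∈ (F.E M).powerset, F.w M c :=
  Finset.sum_pos (fun c hc => F.pos M c (mem_powerset.1 hc)) ⟨∅, empty_mem_powerset _⟩

lemma nonneg (M : ℕ) (A : Set κ → Prop) : 0 ≤ F.Pr M A := by
  classical
  unfold FV.Pr
  refine div_nonneg (Finset.sum_nonneg fun c hc => ?_) (tot_pos F M).le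
  split_ifs
  · exact (F.pos M c (mem_powerset.1 hc)).le
  · exact le_rfl

lemma mono (M : ℕ) {A B : Set κ → Prop} (h : ∀ c, A c → B c) : F.Pr M A ≤ F.Pr M B := by
  classical
  unfold FV.Pr
  refine div_le_div_of_nonneg_right (Finset.sum_le_sum fun c hc => ?_) (tot_pos F M).le
  by_cases h1 : A (c : Set κ)
  · rw [if_pos h1, if_pos (h _ h1)]
  · rw [if_neg h1]
    split_ifs
    · exact (F.pos M c (mem_powerset.1 hc)).le
    · exact le_rfl

lemma top (M : ℕ) : F.Pr M (fun _ => True) = 1 := by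
  unfold FV.Pr
  simp only [if_true]
  exact div_self (tot_pos F M).ne'

lemma bot (M : ℕ) : F.Pr M (fun _ => False) = 0 := by
  unfold FV.Pr
  simp

lemma add (M : ℕ) (A B : Set κ → Prop) :
    F.Pr M (fun c => A c ∨ B c) + F.Pr M (fun c => A c ∧ B c) = F.Pr M A + F.Pr M B := by
  classical
  unfold FV.Pr
  rw [← add_div, ← add_div, ← sum_add_distrib, ← sum_add_distrib]
  congr 1
  refine sum_congr rfl fun c _ => ?_
  by_cases h1 : A (c : Set κ) <;> by_cases h2 : B (c : Set κ) <;> simp [h1, h2]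

lemma le_one (M : ℕ) (A : Set κ → Prop) : F.Pr M A ≤ 1 := by
  rw [← top F M]
  exact mono F M fun _ _ => trivial

lemma lim (A : Set κ → Prop) : ∃ x : ℝ,
    Filter.Tendsto (fun M => F.Pr M A) (Filter.hyperfilter ℕ : Filter ℕ) (nhds x) := by
  have h : ((Ultrafilter.map (fun M => F.Pr M A) (Filter.hyperfilter ℕ) : Ultrafilter ℝ) :
      Filter ℝ) ≤ Filter.principal (Set.Icc 0 1) := by
    rw [Ultrafilter.coe_map, Filter.le_principal_iff, Filter.mem_map]
    exact Filter.univ_mem' fun M => ⟨nonneg F M A, le_one F M A⟩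
  obtain ⟨x, -, hx⟩ := isCompact_Icc.ultrafilter_le_nhds _ h
  refine ⟨x, ?_⟩
  rwa [Ultrafilter.coe_map] at hx

end XLIM

open XLIM in
theorem p_LIM (hFVK : S_FVK) : S_LIM := by
  intro κ F
  choose p hp using lim F
  refine ⟨{ P := p, nonneg := ?_, top := ?_, bot := ?_, mono := ?_, add := ?_, fkg := ?_ }, hp⟩
  · intro A _
    exact ge_of_tendsto' (hp A) fun M => nonneg F M A
  · refine tendsto_nhds_unique (hp _) ?_
    simp only [top F]
    exact tendsto_const_nhds
  · refine tendsto_nhds_unique (hp _) ?_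
    simp only [bot F]
    exact tendsto_const_nhds
  · intro A B _ _ h
    exact le_of_tendsto_of_tendsto' (hp A) (hp B) fun M => mono F M h
  · intro A B _ _
    refine tendsto_nhds_unique ((hp _).add (hp _)) ?_
    simp only [add F]
    exact (hp A).add (hp B)
  · intro A B _ _ hA hB
    exact le_of_tendsto_of_tendsto' ((hp A).mul (hp B)) (hp _) fun M => hFVK F M A B hA hB

end Pool.CNL
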