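import Pool.Agent.Work.MP_bda6fa_cnl.IB

/-!
# Block MFF
-/

set_option autoImplicit false

namespace XorIsing

open scoped Classical
open Finset

namespace CnlMFF

theorem mem_iff (v : V) (e : Edge) : e ∈ tri (v, false) ↔ v = BETA.dn e := by
  obtain ⟨u, k⟩ := e
  rw [mem_tri_down]
  constructor
  · rintro (h | h | h)
    · obtain ⟨rfl, rfl⟩ := Prod.mk.injEq _ _ _ _ ▸ h
      rw [BETA.dn2, add_sub_cancel_right]
    · obtain ⟨rfl, rfl⟩ := Prod.mk.injEq _ _ _ _ ▸ h
      rw [BETA.dn0, add_sub_cancel_right]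
    · obtain ⟨rfl, rfl⟩ := Prod.mk.injEq _ _ _ _ ▸ h
      rw [BETA.dn1, add_sub_cancel_right]
  · rintro rfl
    fin_cases k
    · right; left
      show ((u, 0) : Edge) = (BETA.dn (u, 0) + (0, 1), 0)
      rw [BETA.dn0, sub_add_cancel]
    · right; right
      show ((u, 1) : Edge) = (BETA.dn (u, 1) + (1, 0), 1)
      rw [BETA.dn1, sub_add_cancel]
    · left
      show ((u, 2) : Edge) = (BETA.dn (u, 2) + (0, 1), 2)
      rw [BETA.dn2, sub_add_cancel]

end CnlMFF

theorem p_MFF : S_MFF := by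
  intro n e
  unfold FF
  rw [Finset.mem_biUnion]
  constructor
  · rintro ⟨v, hv, he⟩
    rw [CnlMFF.mem_iff] at he
    rw [← he]
    exact hv
  · intro h
    exact ⟨_, h, (CnlMFF.mem_iff _ _).2 rfl⟩

end XorIsing
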