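import Pool.Agent.Work.MP_bda6fa_cnl.IA2

/-! Block PRD (helper1): FKG for m events. -/

namespace Pool.CNL

open Finset

theorem p_PRD (hDFK : S_DFK) : S_PRD := by
  intro κ P m
  induction m with
  | zero =>
    intro A _ _
    have e : (fun c : Set κ => ∀ k : Fin 0, A k c) = fun _ => True := by
      funext c
      exact propext ⟨fun _ => trivial, fun _ k => k.elim0⟩
    rw [Fin.prod_univ_zero, e, P.top]
  | succ m ih =>
    intro A hA hM
    have e : (fun c : Set κ => ∀ k : Fin (m + 1), A k c) =
        fun c => A 0 c ∧ ∀ k : Fin m, A k.succ c := by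
      funext c
      exact propext Fin.forall_fin_succ
    rw [Fin.prod_univ_succ, e]
    have hL : Loc (fun c : Set κ => ∀ k : Fin m, A k.succ c) :=
      Loc.forall_fin fun k => hA k.succ
    have h1 := ih (fun k => A k.succ) (fun k => hA k.succ)
      (hM.imp (fun h k => h k.succ) (fun h k => h k.succ))
    refine (mul_le_mul_of_nonneg_left h1 (P.nonneg _ (hA 0))).trans ?_
    rcases hM with h | h
    · exact P.fkg (A 0) (fun c => ∀ k : Fin m, A k.succ c) (hA 0) hL (h 0)
        (fun c c' hc hall k => h k.succ c c' hc (hall k))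
    · exact hDFK P (A 0) (fun c => ∀ k : Fin m, A k.succ c) (hA 0) hL (h 0)
        (fun c c' hc hall k => h k.succ c c' hc (hall k))

end Pool.CNL
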