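import Pool.Agent.Work.MP_bda6fa_cnl.IA2

set_option autoImplicit false

/-!
# Block PSH (helper60): image of a local probability under a monotone local map
-/

namespace Pool.CNL

open Finset

namespace XPSH

theorem loc {κ κ' : Type} {bd : Set κ → Set κ'} (hbd : ∀ e, Loc (fun c => e ∈ bd c))
    {A : Set κ' → Prop} (hA : Loc A) : Loc (fun c => A (bd c)) := by
  classical
  obtain ⟨S, hS⟩ := hA
  choose T hT using hbd
  refine ⟨S.biUnion T, fun c c' hc => hS _ _ fun e he => ?_⟩
  exact hT e c c' fun x hx => hc x (mem_biUnion.2 ⟨e, he, hx⟩)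

end XPSH

theorem p_PSH : S_PSH := by
  intro κ κ' P bd hmono hbd
  exact ⟨{ P := fun A => P.P (fun c => A (bd c))
           nonneg := fun A hA => P.nonneg _ (XPSH.loc hbd hA)
           top := P.top
           bot := P.bot
           mono := fun A B hA hB h => P.mono _ _ (XPSH.loc hbd hA) (XPSH.loc hbd hB)
             fun c hc => h _ hc
           add := fun A B hA hB => P.add _ _ (XPSH.loc hbd hA) (XPSH.loc hbd hB)
           fkg := fun A B hA hB iA iB => P.fkg _ _ (XPSH.loc hbd hA) (XPSH.loc hbd hB)
             (fun c c' h => iA _ _ (hmono c c' h)) (fun c c' h => iB _ _ (hmono c c' h)) },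
    fun A => rfl⟩

end Pool.CNL
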