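import Pool.Agent.Work.MP_bda6fa_cnl.IB
set_option autoImplicit false

/-! Block REFL: point reflection of the disorder correlations. -/

namespace XorIsing
open scoped Classical
open Finset Filter Topology

namespace BREFL

/-- point reflection -/
noncomputable def R (M : Finset V) : Finset V := M.image (fun u => (1, 1) - u)

theorem mem_R (u : V) (M : Finset V) : (1, 1) - u ∈ R M ↔ u ∈ M := by
  unfold R
  rw [mem_image]
  constructor
  · rintro ⟨a, ha, h⟩
    rw [← sub_right_injective h]
    exact ha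
  · intro h
    exact ⟨u, h, rfl⟩

theorem mem_R' (u : V) (M : Finset V) : u ∈ R M ↔ (1, 1) - u ∈ M := by
  rw [← mem_R ((1, 1) - u) M, sub_sub_cancel]

theorem R_R (M : Finset V) : R (R M) = M := by
  ext u
  rw [mem_R', mem_R', sub_sub_cancel]

theorem mem_sh (v u : V) (M : Finset V) : u ∈ shift v M ↔ u - v ∈ M := by
  unfold shift
  rw [mem_image]
  constructor
  · rintro ⟨a, ha, rfl⟩
    rw [add_sub_cancel_right]
    exact ha
  · intro h
    exact ⟨u - v, h, sub_add_cancel _ _⟩

theorem R_box (n : ℕ) : R (box n) = shift (1, 1) (box n) := by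
  ext u
  rw [mem_R', mem_sh, mem_box, mem_box]
  obtain ⟨a, b⟩ := u
  simp only [Prod.mk_sub_mk]
  omega

theorem spin_R (M : Finset V) (u : V) : spin (R M) ((1, 1) - u) = spin M u := by
  unfold spin
  simp only [mem_R]

/-- reflection of an edge -/
noncomputable def eR (e : Edge) : Edge := ((1, 1) - tip e, e.2)

theorem tip_eR (e : Edge) : tip (eR e) = (1, 1) - e.1 := by
  unfold eR tip
  simp only
  abel

theorem eR_eR (e : Edge) : eR (eR e) = e := by
  have h : eR (eR e) = ((1, 1) - tip (eR e), e.2) := rfl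
  rw [h, tip_eR, sub_sub_cancel]

theorem eR_inj : Function.Injective eR := fun a b h => by
  rw [← eR_eR a, h, eR_eR]

theorem inn_R (D : Finset V) : inn (R D) = (inn D).image eR := by
  ext e
  rw [mem_image]
  have key : ∀ f : Edge, eR f ∈ inn (R D) ↔ f ∈ inn D := by
    intro f
    rw [mem_inn, mem_inn, tip_eR, mem_R]
    have h : (eR f).1 = (1, 1) - tip f := rfl
    rw [h, mem_R]
    exact and_comm
  constructor
  · intro h
    refine ⟨eR e, ?_, eR_eR e⟩
    rw [← key, eR_eR]
    exact h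
  · rintro ⟨a, ha, rfl⟩
    exact (key a).2 ha

theorem sum_powerset_R (D : Finset V) (F : Finset V → ℝ) :
    ∑ M ∈ (R D).powerset, F M = ∑ M ∈ D.powerset, F (R M) := by
  symm
  refine sum_nbij' R R ?_ ?_ ?_ ?_ ?_
  · intro M hM
    rw [mem_powerset] at hM ⊢
    exact image_subset_image hM
  · intro M hM
    rw [mem_powerset] at hM ⊢
    have h : R M ⊆ R (R D) := image_subset_image hM
    rwa [R_R] at h
  · intro M _
    exact R_R M
  · intro M _
    exact R_R M
  · intro M _
    rfl

/-- the strip -/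
def strip (e : Edge) : Prop := (e.2 = 1 ∧ e.1.2 = 0) ∨ (e.2 = 2 ∧ e.1.2 = 1)

theorem eR0 (a b : ℤ) : eR ((a, b), 0) = ((-a, 1 - b), 0) := by
  have h : tip (((a, b), 0) : Edge) = (a + 1, b + 0) := rfl
  unfold eR
  rw [h]
  ext <;> simp

theorem eR1 (a b : ℤ) : eR ((a, b), 1) = ((1 - a, -b), 1) := by
  have h : tip (((a, b), 1) : Edge) = (a + 0, b + 1) := rfl
  unfold eR
  rw [h]
  ext <;> simp

theorem eR2 (a b : ℤ) : eR ((a, b), 2) = ((-a, 2 - b), 2) := by
  have h : tip (((a, b), 2) : Edge) = (a + 1, b + -1) := rfl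
  unfold eR
  rw [h]
  ext
  · simp
  · simp only [Prod.mk_sub_mk]
    ring
  · rfl

theorem cut_R (e : Edge) : cut (((0, 0), false) : V × Bool) (eR e) ↔
    strip e ∧ ¬ cut (((0, 0), true) : V × Bool) e := by
  obtain ⟨⟨a, b⟩, k⟩ := e
  fin_cases k
  · show cut (((0, 0), false) : V × Bool) (eR ((a, b), 0)) ↔
      strip ((a, b), 0) ∧ ¬ cut (((0, 0), true) : V × Bool) ((a, b), 0)
    rw [eR0]
    simp [cut, strip]
  · show cut (((0, 0), false) : V × Bool) (eR ((a, b), 1)) ↔
      strip ((a, b), 1) ∧ ¬ cut (((0, 0), true) : V × Bool) ((a, b), 1)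
    rw [eR1]
    simp [cut, strip]
    omega
  · show cut (((0, 0), false) : V × Bool) (eR ((a, b), 2)) ↔
      strip ((a, b), 2) ∧ ¬ cut (((0, 0), true) : V × Bool) ((a, b), 2)
    rw [eR2]
    simp [cut, strip]
    omega

theorem strip_of_cut (e : Edge) (h : cut (((0, 0), true) : V × Bool) e) : strip e := by
  rcases h with ⟨h1, h2, -⟩ | ⟨h1, h2, -⟩
  · exact Or.inl ⟨h1, h2⟩
  · exact Or.inr ⟨h1, by rw [h2]; rfl⟩

/-- the gauge set -/
noncomputable def U (D : Finset V) : Finset V := D.filter (fun u => 1 ≤ u.2)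

theorem spin_U (D : Finset V) (e : Edge) (he : e ∈ inn D) :
    spin (U D) e.1 * spin (U D) (tip e) = if strip e then -1 else 1 := by
  rw [mem_inn] at he
  obtain ⟨h1, h2⟩ := he
  have hs : ∀ u ∈ D, spin (U D) u = if 1 ≤ u.2 then -1 else 1 := by
    intro u hu
    unfold spin U
    refine if_congr ?_ rfl rfl
    rw [mem_filter]
    exact ⟨fun h => h.2, fun h => ⟨hu, h⟩⟩
  rw [hs _ h1, hs _ h2]
  obtain ⟨⟨a, b⟩, k⟩ := e
  fin_cases k
  · show (if 1 ≤ b then (-1 : ℝ) else 1) * (if 1 ≤ b + 0 then -1 else 1) = if strip ((a, b), 0) then -1 else 1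
    have h3 : ¬ strip ((a, b), 0) := by simp [strip]
    rw [if_neg h3, add_zero]
    split_ifs <;> norm_num
  · show (if 1 ≤ b then (-1 : ℝ) else 1) * (if 1 ≤ b + 1 then -1 else 1) = if strip ((a, b), 1) then -1 else 1
    have h3 : strip ((a, b), 1) ↔ b = 0 := by simp [strip]
    rw [if_congr h3 rfl rfl]
    split_ifs <;> first | (exfalso; omega) | norm_num
  · show (if 1 ≤ b then (-1 : ℝ) else 1) * (if 1 ≤ b + -1 then -1 else 1) = if strip ((a, b), 2) then -1 else 1
    have h3 : strip ((a, b), 2) ↔ b = 1 := by simp [strip]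
    rw [if_congr h3 rfl rfl]
    split_ifs <;> first | (exfalso; omega) | norm_num

theorem U_sub (D : Finset V) : U D ⊆ D := filter_subset _ _

/-- the gauge transformation -/
theorem sum_gauge (D : Finset V) (F : Finset V → ℝ) :
    ∑ M ∈ D.powerset, F M = ∑ M ∈ D.powerset, F (symmDiff M (U D)) := by
  symm
  refine sum_nbij' (fun M => symmDiff M (U D)) (fun M => symmDiff M (U D)) ?_ ?_ ?_ ?_ ?_
  · intro M hM
    rw [mem_powerset] at hM ⊢
    exact symmDiff_sub hM (U_sub D)
  · intro M hM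
    rw [mem_powerset] at hM ⊢
    exact symmDiff_sub hM (U_sub D)
  · intro M _
    exact symmDiff_symmDiff_cancel_right _ _
  · intro M _
    exact symmDiff_symmDiff_cancel_right _ _
  · intro M _
    rfl

theorem pzc_R (β : ℝ) (D : Finset V) : pzc β (R D) (inn (R D)) (((0, 0), false) : V × Bool) =
    pzc β D (inn D) (((0, 0), true) : V × Bool) := by
  unfold pzc
  rw [sum_powerset_R, sum_gauge]
  refine sum_congr rfl fun M _ => ?_
  rw [inn_R, sum_image (fun a _ b _ h => eR_inj h)]
  congr 2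
  refine sum_congr rfl fun e he => ?_
  have h1 : spin (R (symmDiff M (U D))) (eR e).1 = spin (symmDiff M (U D)) (tip e) := spin_R _ _
  have h2 : spin (R (symmDiff M (U D))) (tip (eR e)) = spin (symmDiff M (U D)) e.1 := by
    rw [tip_eR]
    exact spin_R _ _
  rw [h1, h2, spin_symmDiff, spin_symmDiff]
  have h3 := spin_U D e he
  have h4 : (if cut (((0, 0), false) : V × Bool) (eR e) then (-1 : ℝ) else 1) * (if strip e then -1 else 1) =
      if cut (((0, 0), true) : V × Bool) e then -1 else 1 := by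
    have h5 := cut_R e
    have h6 := strip_of_cut e
    by_cases c1 : strip e <;> by_cases c2 : cut (((0, 0), true) : V × Bool) e
    · rw [if_neg (fun h => (h5.1 h).2 c2), if_pos c1, if_pos c2]; norm_num
    · rw [if_pos (h5.2 ⟨c1, c2⟩), if_pos c1, if_neg c2]; norm_num
    · exact absurd (h6 c2) c1
    · rw [if_neg (fun h => c1 (h5.1 h).1), if_neg c1, if_neg c2]; norm_num
  rw [← h4, ← h3]
  ring

theorem pz_R (β : ℝ) (D : Finset V) : pz β (R D) (inn (R D)) = pz β D (inn D) := by
  unfold pz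
  rw [sum_powerset_R]
  refine sum_congr rfl fun M _ => ?_
  rw [inn_R, sum_image (fun a _ b _ h => eR_inj h)]
  congr 2
  refine sum_congr rfl fun e _ => ?_
  have h1 : spin (R M) (eR e).1 = spin M (tip e) := spin_R _ _
  have h2 : spin (R M) (tip (eR e)) = spin M e.1 := by
    rw [tip_eR]
    exact spin_R _ _
  rw [h1, h2]
  ring

end BREFL

open BREFL in
theorem p_REFL : S_REFL := by
  intro β n
  unfold dis
  rw [← R_box, pzc_R, pz_R]

end XorIsing
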