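import Pool.Agent.Work.MP_bda6fa_cnl.IA2

/-! # SIX: six arms -/

set_option autoImplicit false

namespace Pool.CNL

theorem XSIX.and {κ : Type} (P : LP κ) {X Y : Set κ → Prop} (hX : Loc X) (hY : Loc Y) {x y : ℝ}
    (h1 : x ≤ P.P X) (h2 : y ≤ P.P Y) : x + y - 1 ≤ P.P (fun c => X c ∧ Y c) := by
  have h3 := P.add X Y hX hY
  have h4 := P.le_one (hX.or hY)
  linarith

theorem XSIX.root {a u : ℝ} (ha : a ≤ 1) (h1 : u ≤ 1 - (1 - a) ^ 6)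
    (h2 : 1 - (1 / 12 : ℝ) ^ 6 ≤ u) : 11 / 12 ≤ a := by
  by_contra hc
  rw [not_le] at hc
  have h3 : (1 / 12 : ℝ) < 1 - a := by linarith
  have h4 : (1 / 12 : ℝ) ^ 6 < (1 - a) ^ 6 := pow_lt_pow_left₀ h3 (by norm_num) (by norm_num)
  linarith

theorem p_SIX (hSRT : S_SRT) : S_SIX := by
  intro κ P A B U Us a b hA hB hU hUs hAi hBd hPa hPb hUA hUB hU1 hU2
  have ha1 : a ≤ 1 := by
    rw [← hPa 0]
    exact P.le_one (hA 0)
  have hb1 : b ≤ 1 := by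
    rw [← hPb 0]
    exact P.le_one (hB 0)
  have ha : 11 / 12 ≤ a := XSIX.root ha1 (hSRT P A U a hA hU (Or.inl hAi) hPa hUA) hU1
  have hb : 11 / 12 ≤ b := XSIX.root hb1 (hSRT P B Us b hB hUs (Or.inr hBd) hPb hUB) hU2
  have h5 := XSIX.and P (hB 3) (hB 5) (hPb 3).ge (hPb 5).ge
  have h4 := XSIX.and P (hB 1) ((hB 3).and (hB 5)) (hPb 1).ge h5
  have h3 := XSIX.and P (hA 4) ((hB 1).and ((hB 3).and (hB 5))) (hPa 4).ge h4
  have h2 := XSIX.and P (hA 2) ((hA 4).and ((hB 1).and ((hB 3).and (hB 5)))) (hPa 2).ge h3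
  have h1 := XSIX.and P (hA 0) ((hA 2).and ((hA 4).and ((hB 1).and ((hB 3).and (hB 5)))))
    (hPa 0).ge h2
  refine le_trans ?_ h1
  linarith

end Pool.CNL
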