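import Pool.Agent.Work.MP_bda6fa_cnl.IA2

/-!
SRT: the square root trick for six events.
-/

set_option autoImplicit false

namespace Pool.CNL

theorem p_SRT (hPRD : S_PRD) : S_SRT := by
  intro κ P A U a hA hU hmon hPa hUA
  have hB : ∀ k, Loc (fun c => ¬ A k c) := fun k => (hA k).not
  have hmon' : (∀ k, Inc (fun c => ¬ A k c)) ∨ ∀ k, Dcr (fun c => ¬ A k c) := by
    rcases hmon with h | h
    · exact Or.inr fun k => (h k).not
    · exact Or.inl fun k => (h k).not
  have h1 := hPRD P 6 (fun k c => ¬ A k c) hB hmon'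
  have h2 : ∏ k : Fin 6, P.P (fun c => ¬ A k c) = (1 - a) ^ 6 := by
    have : ∀ k : Fin 6, P.P (fun c => ¬ A k c) = 1 - a := fun k => by
      rw [P.compl (hA k), hPa k]
    simp [this]
  have h3 : Loc (fun c => ∀ k, ¬ A k c) := Loc.forall_fin hB
  have h4 : P.P U ≤ P.P (fun c => ¬ ∀ k, ¬ A k c) := by
    refine P.mono U _ hU h3.not ?_
    intro c hc hn
    obtain ⟨k, hk⟩ := hUA c hc
    exact hn k hk
  have h5 := P.compl h3
  rw [h2] at h1
  linarith

end Pool.CNL
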