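import Pool.Agent.Work.MP_bda6fa_cnl.IB
set_option autoImplicit false

namespace XorIsing
open scoped Classical
open Finset Filter Topology

namespace BSTAR

/-- indicator of disagreement -/
noncomputable def ind (p q : Prop) : ℕ := if (p ↔ q) then 0 else 1

/-- number of disagreeing edges at the false triangle -/
noncomputable def cnt (A : Finset V) (v : V) (b : Prop) : ℕ :=
  ind (v + (0, 1) ∈ A) b + ind (v + (1, 0) ∈ A) b + ind (v ∈ A) b

theorem dn_eq_iff (e : Edge) (v : V) :
    BETA.dn e = v ↔ e = (v + (0, 1), 0) ∨ e = (v + (1, 0), 1) ∨ e = (v + (0, 1), 2) := by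
  obtain ⟨w, k⟩ := e
  fin_cases k
  · show BETA.dn (w, 0) = v ↔ _
    rw [BETA.dn0]
    constructor
    · rintro rfl
      left
      rw [sub_add_cancel]
      rfl
    · rintro (h | h | h)
      · have h1 : w = v + (0, 1) := congrArg Prod.fst h
        rw [h1, add_sub_cancel_right]
      · exact absurd (congrArg Prod.snd h) (by simp)
      · exact absurd (congrArg Prod.snd h) (by simp)
  · show BETA.dn (w, 1) = v ↔ _
    rw [BETA.dn1]
    constructor
    · rintro rfl
      right; left
      rw [sub_add_cancel]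
      rfl
    · rintro (h | h | h)
      · exact absurd (congrArg Prod.snd h) (by simp)
      · have h1 : w = v + (1, 0) := congrArg Prod.fst h
        rw [h1, add_sub_cancel_right]
      · exact absurd (congrArg Prod.snd h) (by simp)
  · show BETA.dn (w, 2) = v ↔ _
    rw [BETA.dn2]
    constructor
    · rintro rfl
      right; right
      rw [sub_add_cancel]
      rfl
    · rintro (h | h | h)
      · exact absurd (congrArg Prod.snd h) (by simp)
      · exact absurd (congrArg Prod.snd h) (by simp)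
      · have h1 : w = v + (0, 1) := congrArg Prod.fst h
        rw [h1, add_sub_cancel_right]

theorem fiber (hMFF : S_MFF) (n : ℕ) (A B : Finset V) (v : V) (hv : v ∈ fal n) :
    ((bd n A B).filter (fun e => BETA.dn e = v)).card = cnt A v (v ∈ B) := by
  have h0 : BETA.up (v + (0, 1), 0) = v + (0, 1) := BETA.up0 _
  have h1 : BETA.up (v + (1, 0), 1) = v + (1, 0) := BETA.up1 _
  have h2 : BETA.up (v + (0, 1), 2) = v := by rw [BETA.up2, add_sub_cancel_right]
  have hset : (bd n A B).filter (fun e => BETA.dn e = v) =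
      (({(v + (0, 1), 0), (v + (1, 0), 1), (v + (0, 1), 2)} : Finset Edge).filter
        (fun e => ¬ (BETA.up e ∈ A ↔ v ∈ B))) := by
    ext e
    simp only [bd, mem_filter, mem_insert, mem_singleton]
    constructor
    · rintro ⟨⟨_, h⟩, hd⟩
      rw [hd] at h
      exact ⟨(dn_eq_iff e v).1 hd, h⟩
    · rintro ⟨he, h⟩
      have hd := (dn_eq_iff e v).2 he
      refine ⟨⟨(hMFF n e).2 (by rw [hd]; exact hv), ?_⟩, hd⟩
      rw [hd]
      exact h
  rw [hset, Finset.card_filter, Finset.sum_insert, Finset.sum_insert, Finset.sum_singleton, h0, h1, h2]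
  · unfold cnt ind
    rw [← add_assoc]
    congr 1
    · congr 1
      · by_cases h : (v + (0, 1) ∈ A ↔ v ∈ B)
        · rw [if_neg (not_not.2 h), if_pos h]
        · rw [if_pos h, if_neg h]
      · by_cases h : (v + (1, 0) ∈ A ↔ v ∈ B)
        · rw [if_neg (not_not.2 h), if_pos h]
        · rw [if_pos h, if_neg h]
    · by_cases h : (v ∈ A ↔ v ∈ B)
      · rw [if_neg (not_not.2 h), if_pos h]
      · rw [if_pos h, if_neg h]
  · simp
  · simp

theorem card_bd (hMFF : S_MFF) (n : ℕ) (A B : Finset V) :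
    (bd n A B).card = ∑ v ∈ fal n, cnt A v (v ∈ B) := by
  rw [Finset.card_eq_sum_card_fiberwise (f := BETA.dn) (t := fal n)]
  · exact Finset.sum_congr rfl (fun v hv => fiber hMFF n A B v hv)
  · intro e he
    have he' : e ∈ bd n A B := he
    have : e ∈ FF n := (mem_filter.1 he').1
    exact (hMFF n e).1 this

theorem two (x : ℝ) (A : Finset V) (v : V) : x ^ cnt A v True + x ^ cnt A v False =
    (if (v ∈ A ↔ v + (1, 0) ∈ A) ∧ (v ∈ A ↔ v + (0, 1) ∈ A) then 1 + x ^ 3 else x + x ^ 2) := by
  unfold cnt ind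
  by_cases h0 : v ∈ A <;> by_cases h1 : v + (1, 0) ∈ A <;> by_cases h2 : v + (0, 1) ∈ A <;>
    simp [h0, h1, h2] <;> ring

end BSTAR

open BSTAR in
theorem p_STAR (hMFF : S_MFF) : S_STAR := by
  intro x n A
  have hR : (∏ v ∈ fal n,
      (if (v ∈ A ↔ v + (1, 0) ∈ A) ∧ (v ∈ A ↔ v + (0, 1) ∈ A) then 1 + x ^ 3 else x + x ^ 2)) =
      ∏ v ∈ fal n, (x ^ cnt A v True + x ^ cnt A v False) :=
    Finset.prod_congr rfl (fun v _ => (two x A v).symm)
  rw [hR, Finset.prod_add]
  refine Finset.sum_congr rfl (fun B hB => ?_)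
  have hB' : B ⊆ fal n := mem_powerset.1 hB
  rw [card_bd hMFF, ← Finset.prod_pow_eq_pow_sum, ← Finset.prod_sdiff hB', mul_comm]
  congr 1
  · refine Finset.prod_congr rfl (fun v hv => ?_)
    have : (v ∈ B) = True := eq_true hv
    rw [this]
  · refine Finset.prod_congr rfl (fun v hv => ?_)
    have : (v ∈ B) = False := eq_false (mem_sdiff.1 hv).2
    rw [this]

end XorIsing
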