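import Pool.Agent.Work.MP_bda6fa_cnl.IB
set_option autoImplicit false

/-! Block SUR (helper45): every even subset of `FF n` is a boundary. -/

namespace XorIsing
open scoped Classical
open Finset Filter Topology

namespace BSUR

theorem fal_bd {n : ℕ} {w : V} (h : w ∈ fal n) :
    w.1 ≤ n ∧ w.2 ≤ n ∧ -(n : ℤ) - 1 ≤ w.1 ∧ -(n : ℤ) - 1 ≤ w.2 := by
  unfold fal at h
  rcases mem_union.1 h with h | h
  · rcases mem_union.1 h with h | h
    · have h1 := mem_box.1 h
      omega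
    · obtain ⟨v, hv, rfl⟩ := mem_image.1 h
      have h1 := mem_box.1 hv
      have e1 : (v - (1, 0) : V).1 = v.1 - 1 := rfl
      have e2 : (v - (1, 0) : V).2 = v.2 - 0 := rfl
      rw [e1, e2]
      omega
  · obtain ⟨v, hv, rfl⟩ := mem_image.1 h
    have h1 := mem_box.1 hv
    have e1 : (v - (0, 1) : V).1 = v.1 - 0 := rfl
    have e2 : (v - (0, 1) : V).2 = v.2 - 1 := rfl
    rw [e1, e2]
    omega

theorem cut_dn {v : V} {e : Edge} (h : cut ((v, true) : V × Bool) e) :
    (BETA.dn e).2 = v.2 ∧ v.1 ≤ (BETA.dn e).1 := by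
  obtain ⟨u, k⟩ := e
  rcases h with ⟨h1, h2, h3⟩ | ⟨h1, h2, h3⟩
  · have h1' : k = 1 := h1
    subst h1'
    rw [BETA.dn1]
    have h2' : u.2 = v.2 := h2
    have h3' : v.1 + 1 ≤ u.1 := h3
    have e1 : (u - (1, 0) : V).1 = u.1 - 1 := rfl
    have e2 : (u - (1, 0) : V).2 = u.2 - 0 := rfl
    rw [e1, e2]
    omega
  · have h1' : k = 2 := h1
    subst h1'
    rw [BETA.dn2]
    have h2' : u.2 = v.2 + 1 := h2
    have h3' : v.1 ≤ u.1 := by simpa using h3
    have e1 : (u - (0, 1) : V).1 = u.1 - 0 := rfl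
    have e2 : (u - (0, 1) : V).2 = u.2 - 1 := rfl
    rw [e1, e2]
    omega

theorem direct (hM : S_MFF) {n : ℕ} {η : Finset Edge} (hη : η ⊆ FF n) {v : V}
    (hv : (n : ℤ) < v.1 ∨ (n : ℤ) < v.2 ∨ v.2 < -(n : ℤ) - 1) : ¬ Par η (v, true) := by
  unfold Par
  have h1 : η.filter (fun e => cut ((v, true) : V × Bool) e) = ∅ := by
    refine filter_eq_empty_iff.2 fun e he hc => ?_
    have h2 := fal_bd ((hM n e).1 (hη he))
    have h3 := cut_dn hc
    omega
  rw [h1]
  simp

theorem cross {η : Finset Edge} (hev : EvenAll η) (e : Edge) :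
    (Par η (BETA.up e, true) ↔ Par η (BETA.dn e, false)) ↔ e ∉ η :=
  p_PETA η e (BETA.up e, true) (BETA.dn e, false) hev (by simp) (BETA.mem_up e) (BETA.mem_dn e)

theorem nb (hM : S_MFF) {n : ℕ} {η : Finset Edge} (hη : η ⊆ FF n) (hev : EvenAll η) {w : V}
    (hw : w ∉ fal n) : (Par η (w, true) ↔ Par η (w, false)) ∧
      (Par η (w + (0, 1), true) ↔ Par η (w, false)) ∧
      (Par η (w + (1, 0), true) ↔ Par η (w, false)) := by
  have key : ∀ e : Edge, BETA.dn e = w → e ∉ η := by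
    intro e he h
    apply hw
    rw [← he]
    exact (hM n e).1 (hη h)
  have d1 : BETA.dn (w + (0, 1), 2) = w := by rw [BETA.dn2, add_sub_cancel_right]
  have d2 : BETA.dn (w + (0, 1), 0) = w := by rw [BETA.dn0, add_sub_cancel_right]
  have d3 : BETA.dn (w + (1, 0), 1) = w := by rw [BETA.dn1, add_sub_cancel_right]
  have c1 := (cross hev (w + (0, 1), 2)).2 (key _ d1)
  have c2 := (cross hev (w + (0, 1), 0)).2 (key _ d2)
  have c3 := (cross hev (w + (1, 0), 1)).2 (key _ d3)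
  rw [d1, BETA.up2, add_sub_cancel_right] at c1
  rw [d2, BETA.up0] at c2
  rw [d3, BETA.up1] at c3
  exact ⟨c1, c2, c3⟩

theorem walk (hM : S_MFF) {n : ℕ} {η : Finset Edge} (hη : η ⊆ FF n) (hev : EvenAll η) (k : ℕ) :
    ∀ v : V, v.1 < -(n : ℤ) → (n : ℤ) < v.2 + k → ¬ Par η (v, true) := by
  induction k with
  | zero =>
    intro v _ h2
    apply direct hM hη
    right; left
    simpa using h2
  | succ k ih =>
    intro v h1 h2
    obtain ⟨w, hw⟩ : ∃ w : V, w = v - (1, 0) := ⟨_, rfl⟩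
    have e1 : w.1 = v.1 - 1 := by rw [hw]; rfl
    have e2 : w.2 = v.2 := by
      rw [hw]
      show v.2 - 0 = v.2
      omega
    have hwf : w ∉ fal n := by
      intro h
      have h3 := fal_bd h
      omega
    obtain ⟨c1, c2, c3⟩ := nb hM hη hev hwf
    have e3 : w + (1, 0) = v := by rw [hw, sub_add_cancel]
    rw [e3] at c3
    have f1 : (w + (0, 1) : V).1 = w.1 + 0 := rfl
    have f2 : (w + (0, 1) : V).2 = w.2 + 1 := rfl
    have h4 := ih (w + (0, 1)) (by rw [f1]; omega) (by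
      rw [f2]
      push_cast at h2
      omega)
    rw [c3, ← c2]
    exact h4

theorem out (hM : S_MFF) {n : ℕ} {η : Finset Edge} (hη : η ⊆ FF n) (hev : EvenAll η) {v : V}
    (hv : v ∉ box n) : ¬ Par η (v, true) := by
  rw [mem_box] at hv
  by_cases h1 : (n : ℤ) < v.1 ∨ (n : ℤ) < v.2 ∨ v.2 < -(n : ℤ) - 1
  · exact direct hM hη h1
  · by_cases h2 : v.1 < -(n : ℤ)
    · refine walk hM hη hev (n + 1 - v.2).toNat v h2 ?_
      omega
    · -- `v.2 = -n - 1`
      obtain ⟨w, hw⟩ : ∃ w : V, w = v - (0, 1) := ⟨_, rfl⟩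
      have e2 : w.2 = v.2 - 1 := by rw [hw]; rfl
      have hwf : w ∉ fal n := by
        intro h
        have h3 := fal_bd h
        omega
      obtain ⟨c1, c2, c3⟩ := nb hM hη hev hwf
      have e3 : w + (0, 1) = v := by rw [hw, sub_add_cancel]
      rw [e3] at c2
      rw [c2, ← c1]
      exact direct hM hη (by omega)

end BSUR

open BSUR in
theorem p_SUR (hM : S_MFF) : S_SUR := by
  intro n η hη hev
  refine ⟨(box n).filter (fun v => Par η (v, true)), filter_subset _ _,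
    (fal n).filter (fun v => Par η (v, false)), filter_subset _ _, ?_⟩
  ext e
  rw [bd, mem_filter, mem_filter, mem_filter]
  have hup : (BETA.up e ∈ box n ∧ Par η (BETA.up e, true)) ↔ Par η (BETA.up e, true) :=
    ⟨fun h => h.2, fun h => ⟨by_contra fun h2 => out hM hη hev h2 h, h⟩⟩
  constructor
  · rintro ⟨h1, h2⟩
    by_contra h3
    apply h2
    rw [hup, (cross hev e).2 h3]
    exact ⟨fun h => ⟨(hM n e).1 h1, h⟩, fun h => h.2⟩
  · intro h
    refine ⟨hη h, fun h2 => ?_⟩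
    rw [hup] at h2
    exact (cross hev e).1 (h2.trans ⟨fun h3 => h3.2, fun h4 => ⟨(hM n e).1 (hη h), h4⟩⟩) h

end XorIsing
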