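import Pool.Agent.Work.MP_bda6fa_cnl.IB
set_option autoImplicit false

/-! Block SW. -/

namespace XorIsing
open scoped Classical
open Finset Filter Topology

namespace XSW

theorem bc_nonneg : 0 ≤ bc := by
  unfold bc
  have := Real.log_nonneg (show (1 : ℝ) ≤ 3 by norm_num)
  positivity

theorem box_sub (n : ℕ) : box n ⊆ box (n + 1) := by
  intro v hv
  rw [mem_box] at hv ⊢
  push_cast
  omega

end XSW

theorem p_SW (hKW : S_KW) (hINC : S_INC) (hG : S_G1s) : S_SW := by
  intro n
  obtain ⟨h1, h2⟩ := hINC n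
  have hb := XSW.bc_nonneg
  rw [← hKW n (box (n + 1)) h2]
  constructor
  · unfold dis
    rw [div_le_div_iff₀ (pz_pos _ _ _) (pz_pos _ _ _)]
    exact DISM.edges hG bc hb (box (n + 1)) (inn (box (n + 1))) (FF n) h2 _
  · have h3 := DISM.edges hG bc hb (box (n + 1)) (FF n) (inn (box n)) h1 (((0, 0), true) : V × Bool)
    have h4 : dis bc (box n) (((0, 0), true) : V × Bool) =
        pzc bc (box (n + 1)) (inn (box n)) (((0, 0), true) : V × Bool) /
          pz bc (box (n + 1)) (inn (box n)) := by
      rw [DISM.pz_ext bc _ _ (XSW.box_sub n), DISM.pzc_ext bc _ _ (XSW.box_sub n)]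
      unfold dis
      rw [mul_div_mul_left]
      positivity
    rw [h4, div_le_div_iff₀ (pz_pos _ _ _) (pz_pos _ _ _)]
    exact h3

end XorIsing
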