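import Pool.Agent.Work.MP_bda6fa_cnl.IA4

set_option autoImplicit false

/-!
Block TCN: counting.
-/

namespace CNLA

open XorIsing Finset

namespace XTCN

theorem sep (n : ℕ) (a b v : ℤ) (h1 : (2 * (n : ℤ) + 3) * a - (n + 1) ≤ v)
    (h2 : v ≤ (2 * (n : ℤ) + 3) * a + (n + 1)) (h3 : (2 * (n : ℤ) + 3) * b - (n + 1) ≤ v)
    (h4 : v ≤ (2 * (n : ℤ) + 3) * b + (n + 1)) : a = b := by
  have hp : (0 : ℤ) ≤ 2 * (n : ℤ) + 3 := by positivity
  rcases lt_trichotomy a b with h | h | h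
  · have h5 := mul_le_mul_of_nonneg_left (show a + 1 ≤ b by omega) hp
    exfalso
    linarith
  · exact h
  · have h5 := mul_le_mul_of_nonneg_left (show b + 1 ≤ a by omega) hp
    exfalso
    linarith

theorem cen_inj (n : ℕ) : Function.Injective (cen n) := by
  intro a b h
  unfold cen at h
  have h1 := congrArg Prod.fst h
  have h2 := congrArg Prod.snd h
  simp only at h1 h2
  have hp : (2 * (n : ℤ) + 3) ≠ 0 := by positivity
  exact Prod.ext (mul_left_cancel₀ hp h1) (mul_left_cancel₀ hp h2)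

theorem abs_cen (n A : ℕ) (y : ℤ) (h1 : -(A : ℤ) ≤ y) (h2 : y ≤ A) :
    ((2 * (n : ℤ) + 3) * y).natAbs ≤ (2 * n + 3) * A := by
  rw [Int.natAbs_mul]
  have h3 : (2 * (n : ℤ) + 3).natAbs = 2 * n + 3 := by omega
  rw [h3]
  exact Nat.mul_le_mul_left _ (by omega)

end XTCN

open Classical in
theorem p_TCN (hC : CNL.S_CNT2) (hHXI : S_HXI) : S_TCN := by
  intro κ tr P D Sf bb hL n A
  obtain ⟨B0, hB0⟩ : ∃ B0 : ℕ, B0 = 2 * ((2 * n + 3) * A) := ⟨_, rfl⟩
  obtain ⟨N, hN⟩ : ∃ N : ℕ, N = n + 1 + B0 := ⟨_, rfl⟩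
  refine ⟨N + 1 + B0, fun c => ?_⟩
  have habs : ∀ x ∈ Pool.CNL.sqr A,
      (cen n x).1.natAbs + (cen n x).2.natAbs ≤ B0 := by
    intro x hx
    unfold Pool.CNL.sqr at hx
    rw [Finset.mem_product, Finset.mem_Icc, Finset.mem_Icc] at hx
    have h1 := XTCN.abs_cen n A x.1 hx.1.1 hx.1.2
    have h2 := XTCN.abs_cen n A x.2 hx.2.1 hx.2.2
    unfold cen
    simp only
    omega
  have key := hC (bb c) (n + 1) N (n + 2 + (N + 1 + B0))
    (((Pool.CNL.sqr A).filter fun x => Tf P D Sf (cen n x) n (N + 1 + B0) c).image (cen n))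
    (by omega) (by
      intro x hx
      rw [Finset.mem_image] at hx
      obtain ⟨y, hy, rfl⟩ := hx
      rw [Finset.mem_filter] at hy
      obtain ⟨hy1, c₀, ⟨hP0, hP2, hP4, hD1, hD3, hD5⟩, hc⟩ := hy
      have hab := habs y hy1
      refine ⟨?_, ?_, ?_⟩
      · have h := (hHXI (cen n y) (n + 1) B0 hab).1
        rw [← hN] at h
        exact h
      · have h := (hHXI (cen n y) (N + 1) (B0 + n + 2) (by omega)).2
        rw [show N + 1 + (B0 + n + 2) = n + 2 + (N + 1 + B0) by omega] at h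
        exact h
      · rw [hc]
        exact ⟨hL.fill _ _ _,
          ⟨hL.prim 0 _ _ _ _ (by omega) (by omega) hP0,
            hL.prim 2 _ _ _ _ (by omega) (by omega) hP2,
            hL.prim 4 _ _ _ _ (by omega) (by omega) hP4⟩,
          hL.dual 1 _ _ _ _ (by omega) (by omega) hD1,
          hL.dual 3 _ _ _ _ (by omega) (by omega) hD3,
          hL.dual 5 _ _ _ _ (by omega) (by omega) hD5⟩) (by
      intro x hx y hy hxy
      rw [Finset.mem_image] at hx hy
      obtain ⟨a, _, rfl⟩ := hx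
      obtain ⟨b, _, rfl⟩ := hy
      rw [Finset.disjoint_left]
      intro v hv1 hv2
      rw [CNL.mem_Hx] at hv1 hv2
      unfold cen at hv1 hv2
      simp only [Nat.cast_add, Nat.cast_one] at hv1 hv2
      apply hxy
      congr 1
      exact Prod.ext
        (XTCN.sep n a.1 b.1 v.1 hv1.1.1 hv1.1.2 hv2.1.1 hv2.1.2)
        (XTCN.sep n a.2 b.2 v.2 hv1.2.1.1 hv1.2.1.2 hv2.2.1.1 hv2.2.1.2))
  rw [Finset.card_image_of_injective _ (XTCN.cen_inj n)] at key
  have h1 : 6 * (N + 1) ≤ 6 * (2 * n + 3) * (2 * A + 1) := by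
    rw [hN, hB0]
    nlinarith
  convert key.trans h1

end CNLA
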