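import Pool.Agent.Work.MP_bda6fa_cnl.IA4

/-! Block TFE (helper1): finite energy. -/

namespace CNLA

open XorIsing Finset

theorem p_TFE (hTLO : S_TLO) : S_TFE := by
  intro κ tr ro f P D Sf hf hP hD n
  obtain ⟨δ, hδ, h⟩ := hf.fe (Sf (0, 0) (n + 1))
  refine ⟨δ, hδ, fun R => ?_⟩
  have lp : ∀ k : Fin 6, Pool.CNL.Loc (Af P n R k) := fun k =>
    hP.loc (k : ℕ) ((0, 0) : V) (n + 1) (n + 2 + R)
  have ld : ∀ k : Fin 6, Pool.CNL.Loc (Af D n R k) := fun k =>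
    hD.loc (k : ℕ) ((0, 0) : V) (n + 1) (n + 2 + R)
  have l6 : Pool.CNL.Loc (Pool.CNL.Six (Af P n R) (Af D n R)) :=
    (lp 0).and ((lp 2).and ((lp 4).and ((ld 1).and ((ld 3).and (ld 5)))))
  refine h _ _ l6 (hTLO κ tr ro P D Sf hP hD (0, 0) n R) ?_
  rintro c ⟨h0, h2, h4, h1, h3, h5⟩
  exact ⟨c, ⟨h0, h2, h4, h1, h3, h5⟩, rfl⟩

end CNLA
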