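import Pool.Agent.Work.MP_bda6fa_cnl.IA4

/-! Block TLO (helper57). -/

set_option autoImplicit false

namespace CNLA

open XorIsing Finset

namespace XTLO

theorem half {κ : Type} (E : Set κ → Prop) (F S : Finset κ)
    (hF : ∀ c c' : Set κ, (∀ e ∈ F, (e ∈ c ↔ e ∈ c')) → (E c ↔ E c')) (c c' : Set κ)
    (h1 : ∀ e ∈ F, (e ∈ c ↔ e ∈ c')) (h2 : ∀ e ∈ S, (e ∈ c ↔ e ∈ c'))
    (h : ∃ c₀ : Set κ, E c₀ ∧ c = c₀ ∪ S) : ∃ c₀ : Set κ, E c₀ ∧ c' = c₀ ∪ S := by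
  classical
  obtain ⟨c₀, hE, hc⟩ := h
  refine ⟨(c' \ (S : Set κ)) ∪ (c₀ ∩ (S : Set κ)), ?_, ?_⟩
  · refine (hF c₀ _ ?_).mp hE
    intro e he
    by_cases hS : e ∈ S
    · simp [hS]
    · have h3 : e ∈ c ↔ e ∈ c₀ := by
        rw [hc]
        simp [hS]
      rw [← h3, h1 e he]
      simp [hS]
  · ext e
    by_cases hS : e ∈ S
    · have h3 : e ∈ c := by
        rw [hc]
        exact Or.inr hS
      have h4 := (h2 e hS).mp h3
      simp [hS, h4]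
    · simp [hS]

end XTLO

theorem p_TLO : S_TLO := by
  classical
  intro κ tr ro P D Sf hP hD x n R
  have h6 : Pool.CNL.Loc (fun c₀ : Set κ => P 0 x (n + 1) (n + 2 + R) c₀ ∧
      P 2 x (n + 1) (n + 2 + R) c₀ ∧ P 4 x (n + 1) (n + 2 + R) c₀ ∧
      D 1 x (n + 1) (n + 2 + R) c₀ ∧ D 3 x (n + 1) (n + 2 + R) c₀ ∧
      D 5 x (n + 1) (n + 2 + R) c₀) :=
    Pool.CNL.Loc.and (hP.loc _ _ _ _) (Pool.CNL.Loc.and (hP.loc _ _ _ _)
      (Pool.CNL.Loc.and (hP.loc _ _ _ _) (Pool.CNL.Loc.and (hD.loc _ _ _ _)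
        (Pool.CNL.Loc.and (hD.loc _ _ _ _) (hD.loc _ _ _ _)))))
  obtain ⟨F, hF⟩ := h6
  refine ⟨F ∪ Sf x (n + 1), ?_⟩
  intro c c' hc
  have a1 : ∀ e ∈ F, (e ∈ c ↔ e ∈ c') := fun e he => hc e (Finset.mem_union_left _ he)
  have a2 : ∀ e ∈ Sf x (n + 1), (e ∈ c ↔ e ∈ c') := fun e he => hc e (Finset.mem_union_right _ he)
  constructor
  · intro h
    exact XTLO.half _ F (Sf x (n + 1)) hF c c' a1 a2 h
  · intro h
    exact XTLO.half _ F (Sf x (n + 1)) hF c' c (fun e he => (a1 e he).symm)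
      (fun e he => (a2 e he).symm) h

end CNLA
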