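import Pool.Agent.Work.MP_bda6fa_cnl.IA4
set_option autoImplicit false

/-! Block TTR: the event Tf is translation covariant. -/

namespace CNLA

open XorIsing Finset

theorem p_TTR : S_TTR := by
  intro κ tr ro P D Sf bb hP hD hL x n R c
  have hS : ∀ e : κ, tr x e ∈ (Sf x (n + 1) : Set κ) ↔ e ∈ (Sf (0, 0) (n + 1) : Set κ) := by
    intro e
    rw [hL.trS x (n + 1)]
    constructor
    · rintro ⟨f, hf, hef⟩
      rw [hL.inj x hef]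
      exact_mod_cast hf
    · intro he
      exact ⟨e, by exact_mod_cast he, rfl⟩
  constructor
  · rintro ⟨c₀, ⟨h0, h2, h4, h1, h3, h5⟩, hc⟩
    refine ⟨{e | tr x e ∈ c₀}, ⟨(hP.tran 0 x _ _ c₀).1 h0, (hP.tran 2 x _ _ c₀).1 h2,
      (hP.tran 4 x _ _ c₀).1 h4, (hD.tran 1 x _ _ c₀).1 h1, (hD.tran 3 x _ _ c₀).1 h3,
      (hD.tran 5 x _ _ c₀).1 h5⟩, ?_⟩
    ext e
    show tr x e ∈ c ↔ (tr x e ∈ c₀ ∨ e ∈ (Sf (0, 0) (n + 1) : Set κ))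
    rw [← hS e, hc]
    rfl
  · rintro ⟨c₁, ⟨h0, h2, h4, h1, h3, h5⟩, hc⟩
    have hmem : ∀ e : κ, tr x e ∈ c ↔ (e ∈ c₁ ∨ e ∈ (Sf (0, 0) (n + 1) : Set κ)) := by
      intro e
      have : e ∈ {e | tr x e ∈ c} ↔ e ∈ c₁ ∪ (Sf (0, 0) (n + 1) : Set κ) := by rw [hc]
      exact this
    set c₀ : Set κ := (c \ (Sf x (n + 1) : Set κ)) ∪ tr x '' (c₁ ∩ (Sf (0, 0) (n + 1) : Set κ)) with hc₀
    have hpre : {e | tr x e ∈ c₀} = c₁ := by
      ext e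
      show tr x e ∈ c₀ ↔ e ∈ c₁
      constructor
      · rintro (⟨ha, hb⟩ | ⟨f, hf, hfe⟩)
        · rw [hS e] at hb
          exact ((hmem e).1 ha).resolve_right hb
        · rw [← hL.inj x hfe]
          exact hf.1
      · intro he
        by_cases hs : e ∈ (Sf (0, 0) (n + 1) : Set κ)
        · exact Or.inr ⟨e, ⟨he, hs⟩, rfl⟩
        · exact Or.inl ⟨(hmem e).2 (Or.inl he), fun h => hs ((hS e).1 h)⟩
    refine ⟨c₀, ⟨(hP.tran 0 x _ _ c₀).2 (hpre ▸ h0), (hP.tran 2 x _ _ c₀).2 (hpre ▸ h2),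
      (hP.tran 4 x _ _ c₀).2 (hpre ▸ h4), (hD.tran 1 x _ _ c₀).2 (hpre ▸ h1),
      (hD.tran 3 x _ _ c₀).2 (hpre ▸ h3), (hD.tran 5 x _ _ c₀).2 (hpre ▸ h5)⟩, ?_⟩
    ext e
    constructor
    · intro he
      by_cases hs : e ∈ (Sf x (n + 1) : Set κ)
      · exact Or.inr hs
      · exact Or.inl (Or.inl ⟨he, hs⟩)
    · rintro ((h | ⟨f, hf, rfl⟩) | h)
      · exact h.1
      · exact (hmem f).2 (Or.inl hf.1)
      · rw [hL.trS x (n + 1)] at h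
        obtain ⟨f, hf, rfl⟩ := h
        exact (hmem f).2 (Or.inr (by exact_mod_cast hf))

end CNLA
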