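import Pool.Agent.Work.MP_bda6fa_cnl.IB
set_option autoImplicit false

/-! Block WT (helper43): star-triangle weights at the critical point. -/

namespace XorIsing
open scoped Classical
open Finset Filter Topology

namespace BWT

theorem exp4 : Real.exp bc ^ 4 = 3 := by
  rw [← Real.exp_nat_mul]
  unfold bc
  have h : ((4 : ℕ) : ℝ) * (Real.log 3 / 4) = Real.log 3 := by push_cast; ring
  rw [h, Real.exp_log (by norm_num)]

theorem tanh_eq : Real.tanh bc = (Real.exp bc ^ 2 - 1) / (Real.exp bc ^ 2 + 1) := by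
  rw [Real.tanh_eq_sinh_div_cosh, Real.sinh_eq, Real.cosh_eq, Real.exp_neg]
  have h := Real.exp_pos bc
  field_simp

theorem tanh_quad : Real.tanh bc ^ 2 - 4 * Real.tanh bc + 1 = 0 := by
  rw [tanh_eq]
  have h := exp4
  have h0 : (0 : ℝ) < Real.exp bc ^ 2 + 1 := by positivity
  field_simp
  nlinarith [h]

theorem tanh_pos : 0 < Real.tanh bc := by
  have h := exp4
  have h1 : 1 < Real.exp bc ^ 2 := by
    by_contra hcon
    push Not at hcon
    have h2 : (Real.exp bc ^ 2) ^ 2 ≤ 1 := by
      have h3 : 0 ≤ Real.exp bc ^ 2 := by positivity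
      nlinarith
    nlinarith
  rw [tanh_eq]
  apply div_pos
  · linarith
  · positivity

theorem third : Real.tanh bc + Real.tanh bc ^ 2 = (1 + Real.tanh bc ^ 3) / 3 := by
  have h := tanh_quad
  linear_combination (-(1 + Real.tanh bc) / 3) * h

theorem exp_third : Real.exp (-bc) = Real.exp (3 * bc) / 3 := by
  have h := exp4
  have h1 : Real.exp (3 * bc) = Real.exp bc ^ 3 := by
    rw [← Real.exp_nat_mul]
    norm_num
  rw [h1, Real.exp_neg]
  have h0 := Real.exp_pos bc
  field_simp
  linarith

/-- the Ising energy of the triple v, v + e₁, v + e₂ -/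
noncomputable def S (A : Finset V) (v : V) : ℝ := ∑ e ∈ tri (v, true), spin A e.1 * spin A (tip e)

theorem S_eq (A : Finset V) (v : V) : S A v = spin A v * spin A (v + (1, 0)) + spin A v * spin A (v + (0, 1)) +
    spin A (v + (0, 1)) * spin A (v + (1, 0)) := by
  unfold S tri
  rw [if_pos rfl]
  have n1 : ((v, 0) : Edge) ∉ ({(v, 1), (v + (0, 1), 2)} : Finset Edge) := by
    simp
  have n2 : ((v, 1) : Edge) ∉ ({(v + (0, 1), 2)} : Finset Edge) := by
    simp
  rw [sum_insert n1, sum_insert n2, sum_singleton]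
  have t0 : tip ((v, 0) : Edge) = v + (1, 0) := rfl
  have t1 : tip ((v, 1) : Edge) = v + (0, 1) := rfl
  have t2 : tip ((v + (0, 1), 2) : Edge) = v + (1, 0) := by
    show v + (0, 1) + dir 2 = v + (1, 0)
    have d2 : dir 2 = (1, -1) := rfl
    rw [d2, add_assoc]
    congr 1
  rw [t0, t1, t2]
  ring

theorem weight (A : Finset V) (v : V) :
    (if (v ∈ A ↔ v + (1, 0) ∈ A) ∧ (v ∈ A ↔ v + (0, 1) ∈ A) then 1 + Real.tanh bc ^ 3
      else Real.tanh bc + Real.tanh bc ^ 2) =
    ((1 + Real.tanh bc ^ 3) * Real.exp (-(3 * bc))) * Real.exp (bc * S A v) := by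
  have h3 : Real.exp (-(3 * bc)) * Real.exp (bc * 3) = 1 := by
    rw [← Real.exp_add]
    have : -(3 * bc) + bc * 3 = 0 := by ring
    rw [this, Real.exp_zero]
  have h4 : Real.exp (-(3 * bc)) * Real.exp (bc * (-1)) = 1 / 3 := by
    have h5 : bc * (-1) = -bc := by ring
    rw [h5, exp_third]
    have h6 : Real.exp (3 * bc) = Real.exp (bc * 3) := by rw [mul_comm]
    rw [h6]
    linarith [h3]
  rw [S_eq, third]
  unfold spin
  by_cases h0 : v ∈ A <;> by_cases h1 : v + (1, 0) ∈ A <;> by_cases h2 : v + (0, 1) ∈ A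
  all_goals simp only [h0, h1, h2, iff_true, iff_false, not_true_eq_false, not_false_eq_true, and_self, and_true,
    and_false, if_true, if_false]
  all_goals norm_num
  all_goals first
    | (rw [mul_assoc]; rw [show Real.exp (-(3 * bc)) * Real.exp (bc * 3) = 1 from h3]; ring)
    | (rw [mul_assoc]; rw [show bc * (-1) = -bc by ring] at h4; rw [h4]; ring)

theorem mem_U {n : ℕ} {e : Edge} : e ∈ (fal n).biUnion (fun v => tri (v, true)) ↔ BETA.up e ∈ fal n := by
  rw [mem_biUnion]
  constructor
  · rintro ⟨v, hv, he⟩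
    rw [mem_tri_up] at he
    rcases he with rfl | rfl | rfl
    · rw [BETA.up0]; exact hv
    · rw [BETA.up1]; exact hv
    · rw [BETA.up2, add_sub_cancel_right]; exact hv
  · intro h
    exact ⟨BETA.up e, h, BETA.mem_up e⟩

theorem disj {v w : V} (h : v ≠ w) : Disjoint (tri (v, true)) (tri (w, true)) := by
  rw [disjoint_left]
  intro e h1 h2
  apply h
  have key : ∀ u : V, e ∈ tri (u, true) → u = BETA.up e := by
    intro u hu
    rw [mem_tri_up] at hu
    rcases hu with rfl | rfl | rfl
    · rw [BETA.up0]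
    · rw [BETA.up1]
    · rw [BETA.up2, add_sub_cancel_right]
  rw [key v h1, key w h2]

theorem mem_fal {n : ℕ} {v : V} : v ∈ fal n ↔ v ∈ box n ∨ v + (1, 0) ∈ box n ∨ v + (0, 1) ∈ box n := by
  unfold fal
  rw [mem_union, mem_union, mem_image, mem_image]
  constructor
  · rintro ((h | ⟨u, hu, rfl⟩) | ⟨u, hu, rfl⟩)
    · exact Or.inl h
    · right; left
      rw [sub_add_cancel]; exact hu
    · right; right
      rw [sub_add_cancel]; exact hu
  · rintro (h | h | h)
    · exact Or.inl (Or.inl h)
    · exact Or.inl (Or.inr ⟨_, h, by rw [add_sub_cancel_right]⟩)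
    · exact Or.inr ⟨_, h, by rw [add_sub_cancel_right]⟩

theorem near_sub (n : ℕ) : near (box n) ⊆ (fal n).biUnion (fun v => tri (v, true)) := by
  intro e he
  rw [mem_near] at he
  rw [mem_U, mem_fal]
  obtain ⟨v, k⟩ := e
  fin_cases k
  · have e1 : BETA.up ((v, 0) : Edge) = v := BETA.up0 v
    have e2 : tip ((v, 0) : Edge) = v + (1, 0) := rfl
    rcases he with h | h
    · left
      exact (e1 ▸ h : BETA.up ((v, 0) : Edge) ∈ box n)
    · right; left
      show BETA.up ((v, 0) : Edge) + (1, 0) ∈ box n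
      rw [e1]
      exact h
  · have e1 : BETA.up ((v, 1) : Edge) = v := BETA.up1 v
    rcases he with h | h
    · left
      exact (e1 ▸ h : BETA.up ((v, 1) : Edge) ∈ box n)
    · right; right
      show BETA.up ((v, 1) : Edge) + (0, 1) ∈ box n
      rw [e1]
      exact h
  · have e1 : BETA.up ((v, 2) : Edge) = v - (0, 1) := BETA.up2 v
    rcases he with h | h
    · right; right
      show BETA.up ((v, 2) : Edge) + (0, 1) ∈ box n
      rw [e1, sub_add_cancel]
      exact h
    · right; left
      show BETA.up ((v, 2) : Edge) + (1, 0) ∈ box n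
      rw [e1]
      have e3 : v - (0, 1) + (1, 0) = v + (1, -1) := by
        ext <;> simp [sub_eq_add_neg]
      rw [e3]
      exact h

end BWT

open BWT in
theorem p_WT : S_WT := by
  intro n
  set U : Finset Edge := (fal n).biUnion (fun v => tri (v, true)) with hU
  refine ⟨((1 + Real.tanh bc ^ 3) * Real.exp (-(3 * bc))) ^ (fal n).card * Real.exp (bc * (U \ near (box n)).card), ?_, ?_⟩
  · have h := tanh_pos
    positivity
  · intro A hA
    rw [prod_congr rfl (fun v _ => weight A v), prod_mul_distrib, prod_const, ← Real.exp_sum, ← mul_sum]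
    have h1 : ∑ v ∈ fal n, S A v = ∑ e ∈ U, spin A e.1 * spin A (tip e) := by
      rw [hU, sum_biUnion]
      · rfl
      · intro v _ w _ hvw
        exact disj hvw
    have h2 : ∑ e ∈ U, spin A e.1 * spin A (tip e) = (∑ e ∈ near (box n), spin A e.1 * spin A (tip e)) +
        (U \ near (box n)).card := by
      have hsub : near (box n) ⊆ U := near_sub n
      rw [← sum_sdiff hsub, add_comm]
      congr 1
      rw [card_eq_sum_ones, Nat.cast_sum]
      apply sum_congr rfl
      intro e he
      have h3 := (mem_sdiff.1 he).2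
      rw [mem_near, not_or] at h3
      unfold spin
      rw [if_neg (fun h => h3.1 (hA h)), if_neg (fun h => h3.2 (hA h))]
      norm_num
    rw [h1, h2, mul_add, Real.exp_add]
    unfold wt
    ring

end XorIsing
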