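import Pool.Agent.Work.MP_bda6fa_cnl.IA2

set_option autoImplicit false

/-! # Block ZO: zero-one law from mixing (helper33) -/

namespace Pool.CNL

theorem p_ZO : S_ZO := by
  intro κ P U hL hdec hinc htr hmix n₀ δ hδ hn₀
  obtain ⟨f, hf⟩ : ∃ f : ℕ → ℕ → ℝ, ∀ n R, f n R = P.P (U (0, 0) n R) :=
    ⟨fun n R => P.P (U (0, 0) n R), fun _ _ => rfl⟩
  have hf0 : ∀ n R, 0 ≤ f n R := fun n R => by rw [hf]; exact P.nonneg _ (hL _ _ _)
  have hf1 : ∀ n R, f n R ≤ 1 := fun n R => by rw [hf]; exact P.le_one (hL _ _ _)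
  have hbb : ∀ n, BddBelow (Set.range (f n)) := fun n =>
    ⟨0, by rintro _ ⟨R, rfl⟩; exact hf0 n R⟩
  obtain ⟨q, hq⟩ : ∃ q : ℕ → ℝ, ∀ n, q n = ⨅ R, f n R := ⟨fun n => ⨅ R, f n R, fun _ => rfl⟩
  have hqle : ∀ n R, q n ≤ f n R := fun n R => by rw [hq]; exact ciInf_le (hbb n) R
  have hqb : BddAbove (Set.range q) :=
    ⟨1, by rintro _ ⟨n, rfl⟩; exact (hqle n 0).trans (hf1 n 0)⟩
  obtain ⟨p, hp⟩ : ∃ p : ℝ, p = ⨆ n, q n := ⟨_, rfl⟩
  have hqp : ∀ n, q n ≤ p := fun n => by rw [hp]; exact le_ciSup hqb n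
  have hpδ : δ ≤ p := by
    refine le_trans ?_ (hqp n₀)
    rw [hq]
    exact le_ciInf (fun R => by rw [hf]; exact hn₀ R)
  have hp1 : p ≤ 1 := by
    rw [hp]
    exact ciSup_le (fun n => (hqle n 0).trans (hf1 n 0))
  have hpp : 0 < p := lt_of_lt_of_le hδ hpδ
  have key : ∀ ε : ℝ, 0 < ε → 2 * (p - ε) - (p + ε) ^ 2 - ε ≤ p := by
    intro ε hε
    have hlt : p - ε < ⨆ n, q n := by rw [← hp]; linarith
    obtain ⟨n, hn⟩ := exists_lt_of_lt_ciSup hlt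
    have hlt2 : ⨅ R, f n R < q n + ε := by rw [← hq]; linarith
    obtain ⟨R, hR⟩ := exists_lt_of_ciInf_lt hlt2
    obtain ⟨x, hx⟩ := hmix n R ε hε
    obtain ⟨k1, hk1⟩ := hinc (0, 0) n
    obtain ⟨k2, hk2⟩ := hinc x n
    have hk : ∀ R'', 2 * (p - ε) - (p + ε) ^ 2 - ε ≤ f (max k1 k2) R'' := by
      intro R''
      obtain ⟨R1, h1⟩ := hk1 (max k1 k2) (le_max_left _ _) R''
      obtain ⟨R2, h2⟩ := hk2 (max k1 k2) (le_max_right _ _) R''
      obtain ⟨R', hR', hR1, hR2⟩ : ∃ R', R ≤ R' ∧ R1 ≤ R' ∧ R2 ≤ R' :=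
        ⟨max R (max R1 R2), le_max_left _ _, le_trans (le_max_left _ _) (le_max_right _ _),
          le_trans (le_max_right _ _) (le_max_right _ _)⟩
      have hsub : P.P (fun c => U (0, 0) n R' c ∨ U x n R' c) ≤ P.P (U (0, 0) (max k1 k2) R'') :=
        P.mono _ _ ((hL _ _ _).or (hL _ _ _)) (hL _ _ _) (by
          rintro c (h | h)
          · exact h1 c (hdec _ _ _ _ hR1 c h)
          · exact h2 c (hdec _ _ _ _ hR2 c h))
      have hadd := P.add (U (0, 0) n R') (U x n R') (hL _ _ _) (hL _ _ _)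
      have hboth : P.P (fun c => U (0, 0) n R' c ∧ U x n R' c) ≤
          P.P (fun c => U (0, 0) n R c ∧ U x n R c) :=
        P.mono _ _ ((hL _ _ _).and (hL _ _ _)) ((hL _ _ _).and (hL _ _ _))
          (fun c h => ⟨hdec _ _ _ _ hR' c h.1, hdec _ _ _ _ hR' c h.2⟩)
      have htr' := htr x n R'
      have hq1 : q n ≤ P.P (U (0, 0) n R') := by rw [← hf]; exact hqle n R'
      have hsq : P.P (U (0, 0) n R) ^ 2 ≤ (p + ε) ^ 2 := by
        refine pow_le_pow_left₀ (P.nonneg _ (hL _ _ _)) ?_ 2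
        rw [← hf]
        have := hqp n
        linarith
      rw [hf]
      linarith
    exact (le_ciInf hk).trans ((hq _).symm ▸ hqp _)
  have hpe : 1 ≤ p := by
    by_contra hcon
    push Not at hcon
    have h0 : 0 < p * (1 - p) := mul_pos hpp (by linarith)
    obtain ⟨e, he⟩ : ∃ e : ℝ, e = p * (1 - p) / 7 := ⟨_, rfl⟩
    have he0 : 0 < e := by rw [he]; positivity
    have he1 : e ≤ 1 := by
      rw [he]
      nlinarith
    have h := key e he0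
    have a1 : p * e ≤ e := by nlinarith
    have a2 : e ^ 2 ≤ e := by nlinarith
    have a3 : p - p ^ 2 = 7 * e := by rw [he]; ring
    nlinarith
  intro η hη
  have hlt : 1 - η < ⨆ n, q n := by rw [← hp]; linarith
  obtain ⟨n, hn⟩ := exists_lt_of_lt_ciSup hlt
  obtain ⟨k, hk⟩ := hinc (0, 0) n
  refine ⟨k, fun n' hn' R => ?_⟩
  obtain ⟨R', hR'⟩ := hk n' hn' R
  have h1 : P.P (U (0, 0) n R') ≤ P.P (U (0, 0) n' R) := P.mono _ _ (hL _ _ _) (hL _ _ _) hR'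
  have h2 : q n ≤ P.P (U (0, 0) n R') := by rw [← hf]; exact hqle n R'
  linarith

end Pool.CNL
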