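import Pool.Agent.Work.MP_bda6fa_cnl.IA4

set_option autoImplicit false

/-!
MP_bda6fa_pr, critical nested loops, part A, block ZOB: the hypotheses of ZO hold for the union of the
arms.
-/

namespace CNLA

open XorIsing Finset

namespace XZOB

variable {κ : Type} {tr : V → κ → κ} {ro : κ → κ} {Q : ℕ → V → ℕ → ℕ → Set κ → Prop}

theorem tran (hQ : CNL.ArmsI tr ro Q) (x : V) (n R : ℕ) (c : Set κ) :
    Uf Q x n R c ↔ Uf Q ((0, 0) : V) n R {e | tr x e ∈ c} := by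
  unfold Uf
  constructor
  · rintro ⟨k, hk, h⟩
    exact ⟨k, hk, (hQ.tran k x (n + 1) (n + 2 + R) c).1 h⟩
  · rintro ⟨k, hk, h⟩
    exact ⟨k, hk, (hQ.tran k x (n + 1) (n + 2 + R) c).2 h⟩

theorem loc (hQ : CNL.ArmsI tr ro Q) (x : V) (n R : ℕ) : Pool.CNL.Loc (Uf Q x n R) := by
  have h1 : Uf Q x n R = fun c => ∃ k : Fin 6, Q k x (n + 1) (n + 2 + R) c := by
    funext c
    apply propext
    constructor
    · rintro ⟨k, hk, h⟩
      exact ⟨⟨k, hk⟩, h⟩
    · rintro ⟨k, h⟩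
      exact ⟨k, k.2, h⟩
  rw [h1]
  exact Pool.CNL.Loc.exists_fin fun k => hQ.loc k x (n + 1) (n + 2 + R)

theorem dec0 (hHXI : S_HXI) (hQ : CNL.ArmsI tr ro Q) (n R R' : ℕ) (h : R ≤ R') (c : Set κ)
    (hc : Uf Q ((0, 0) : V) n R' c) : Uf Q ((0, 0) : V) n R c := by
  have h1 := (hHXI (0, 0) (n + 2 + R) (R' - R) (by simp)).1
  rw [show n + 2 + R + (R' - R) = n + 2 + R' by omega] at h1
  exact hQ.mono (0, 0) (n + 1) (n + 2 + R') (n + 1) (n + 2 + R) c (by omega) le_rfl subset_rfl (by omega) h1 hc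

theorem incl (hHXI : S_HXI) (hQ : CNL.ArmsI tr ro Q) (x : V) (n : ℕ) :
    ∃ k, ∀ k', k ≤ k' → ∀ R, ∃ R', ∀ c, Uf Q x n R' c → Uf Q ((0, 0) : V) k' R c := by
  set j := x.1.natAbs + x.2.natAbs with hj
  refine ⟨n + j, fun k' hk' R => ⟨(k' - n) + R + j, fun c hc => ?_⟩⟩
  have h1 := (hHXI x (n + 1) (k' - n) (by omega)).1
  have h2 := (hHXI x (k' + 2 + R) j (by omega)).2
  rw [show n + 1 + (k' - n) = k' + 1 by omega] at h1
  rw [show k' + 2 + R + j = n + 2 + ((k' - n) + R + j) by omega] at h2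
  exact hQ.mono x (n + 1) (n + 2 + ((k' - n) + R + j)) (k' + 1) (k' + 2 + R) c (by omega) (by omega) h1
    (by omega) h2 hc

end XZOB

theorem p_ZOB (hHXI : S_HXI) : S_ZOB := by
  intro κ tr ro f P Q hPf hf hM hQ hmon
  have hloc := XZOB.loc hQ
  have htr : ∀ x n R, Uf Q x n R = fun c => Uf Q ((0, 0) : V) n R {e | tr x e ∈ c} := by
    intro x n R
    funext c
    exact propext (XZOB.tran hQ x n R c)
  have hprob : ∀ x n R, P.P (Uf Q x n R) = P.P (Uf Q (0, 0) n R) := by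
    intro x n R
    rw [hPf, htr x n R]
    exact hf.tran (Uf Q (0, 0) n R) x (hloc (0, 0) n R)
  refine ⟨hloc, ?_, XZOB.incl hHXI hQ, hprob, ?_⟩
  · intro x n R R' h c hc
    rw [XZOB.tran hQ] at hc ⊢
    exact XZOB.dec0 hHXI hQ n R R' h _ hc
  · intro n R ε hε
    rcases hmon with hinc | hdec
    · have hI : CNL.Inc (Uf Q ((0, 0) : V) n R) := by
        rintro c c' hc ⟨k, hk, h⟩
        exact ⟨k, hk, hinc k (0, 0) (n + 1) (n + 2 + R) c c' hc h⟩
      obtain ⟨x, _, hx⟩ := hM (Uf Q ((0, 0) : V) n R) (hloc (0, 0) n R) hI 0 ε hε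
      refine ⟨x, ?_⟩
      rw [hPf, htr x n R]
      exact hx
    · have hI : CNL.Inc (fun c => ¬ Uf Q ((0, 0) : V) n R c) := by
        rintro c c' hc hn ⟨k, hk, h⟩
        exact hn ⟨k, hk, hdec k (0, 0) (n + 1) (n + 2 + R) c c' hc h⟩
      have hL : Pool.CNL.Loc (fun c => ¬ Uf Q ((0, 0) : V) n R c) := (hloc (0, 0) n R).not
      obtain ⟨x, _, hx⟩ := hM (fun c => ¬ Uf Q ((0, 0) : V) n R c) hL hI 0 ε hε
      refine ⟨x, ?_⟩
      have h0 := P.compl (hloc ((0, 0) : V) n R)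
      have hx0 := P.compl (hloc x n R)
      have ha := hprob x n R
      have hLx : Pool.CNL.Loc (fun c => ¬ Uf Q x n R c) := (hloc x n R).not
      have hadd := P.add (fun c => ¬ Uf Q ((0, 0) : V) n R c) (fun c => ¬ Uf Q x n R c) hL hLx
      have hand := P.compl ((hloc ((0, 0) : V) n R).and (hloc x n R))
      have e1 : (fun c => ¬ (Uf Q ((0, 0) : V) n R c ∧ Uf Q x n R c)) =
          fun c => ¬ Uf Q ((0, 0) : V) n R c ∨ ¬ Uf Q x n R c := by
        funext c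
        exact propext not_and_or
      have e2 : (fun c => ¬ Uf Q ((0, 0) : V) n R c ∧ ¬ Uf Q x n R c) =
          fun c => ¬ Uf Q ((0, 0) : V) n R c ∧ ¬ Uf Q ((0, 0) : V) n R {e | tr x e ∈ c} := by
        funext c
        rw [htr x n R]
      rw [e1] at hand
      rw [← hPf] at hx
      rw [e2] at hadd
      rw [h0] at hx hadd
      rw [hx0, ha] at hadd
      nlinarith [hadd, hand, hx]

end CNLA
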