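import Pool.Agent.Work.MP_bda6fa_cnl.IC4

set_option autoImplicit false

namespace XorIsing
open scoped Classical
open Finset

theorem BDRY_adj_symm {u v : V} (h : Adj u v) : Adj v u := by
  obtain ⟨k, hk⟩ := h
  exact ⟨k, hk.symm⟩

theorem BDRY_near {D : Finset V} {x : V} {k : Fin 3} (h : x ∈ D) : ((x, k) : Edge) ∈ near D := by
  unfold near
  rw [mem_biUnion]
  exact ⟨k, mem_univ _, mem_union_left _ (mem_image_of_mem _ h)⟩

theorem BDRY_step {M : Finset V} {a b : V} (ha : a ∈ M) (hb : b ∈ M) (h : Adj a b) :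
    FConn (inn M) a b := by
  apply Relation.ReflTransGen.single
  obtain ⟨k, hk | hk⟩ := h
  · refine ⟨k, Or.inl ⟨?_, hk⟩⟩
    unfold inn
    rw [mem_filter]
    refine ⟨BDRY_near ha, ha, ?_⟩
    show a + dir k ∈ M
    rw [← hk]
    exact hb
  · refine ⟨k, Or.inr ⟨?_, hk⟩⟩
    unfold inn
    rw [mem_filter]
    refine ⟨BDRY_near hb, hb, ?_⟩
    show b + dir k ∈ M
    rw [← hk]
    exact ha

theorem BDRY_mcl_of_adj {B M : Finset V} {u v : V} (hu : u ∈ mcl B M) (hv : v ∈ M)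
    (h : Adj u v) : v ∈ mcl B M := by
  unfold mcl at hu ⊢
  rw [mem_filter] at hu ⊢
  obtain ⟨huM, w, hw1, hw2, hw3⟩ := hu
  exact ⟨hv, w, hw1, hw2, (BDRY_step hv huM (BDRY_adj_symm h)).trans hw3⟩

theorem p_BDRY : S_BDRY := by
  intro B M u v huv hu hv hvM
  have hu' := hu
  unfold unx at hu'
  rw [mem_filter] at hu'
  obtain ⟨_, _, hu3⟩ := hu'
  have hvm : v ∉ mcl B M := fun h => hu3 v h (BDRY_adj_symm huv)
  apply hv
  unfold unx
  rw [mem_filter]
  refine ⟨?_, hvm, ?_⟩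
  · by_contra hB
    apply hvm
    unfold mcl
    rw [mem_filter]
    exact ⟨hvM, v, hB, hvM, Relation.ReflTransGen.refl⟩
  · intro w hw hwv
    exact hvm (BDRY_mcl_of_adj hw hvM hwv)

end XorIsing
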