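import Pool.Agent.Work.MP_bda6fa_cnl.IC4
set_option autoImplicit false

namespace XorIsing
open scoped Classical
open Finset

theorem CLOS_step {M : Finset V} {x y : V} :
    (∃ k, ((x, k) ∈ inn M ∧ y = x + dir k) ∨ ((y, k) ∈ inn M ∧ x = y + dir k)) ↔
      x ∈ M ∧ y ∈ M ∧ Adj x y := by
  constructor
  · rintro ⟨k, ⟨h1, h2⟩ | ⟨h1, h2⟩⟩
    · obtain ⟨h3, h4⟩ := mem_inn.1 h1
      have h5 : tip (x, k) = y := h2.symm
      rw [h5] at h4
      exact ⟨h3, h4, k, Or.inl h2⟩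
    · obtain ⟨h3, h4⟩ := mem_inn.1 h1
      have h5 : tip (y, k) = x := h2.symm
      rw [h5] at h4
      exact ⟨h4, h3, k, Or.inr h2⟩
  · rintro ⟨h1, h2, k, h3 | h3⟩
    · refine ⟨k, Or.inl ⟨mem_inn.2 ⟨h1, ?_⟩, h3⟩⟩
      show x + dir k ∈ M
      rw [← h3]
      exact h2
    · refine ⟨k, Or.inr ⟨mem_inn.2 ⟨h2, ?_⟩, h3⟩⟩
      show y + dir k ∈ M
      rw [← h3]
      exact h1

theorem CLOS_adj {x y : V} (h : Adj x y) : Adj y x := by
  obtain ⟨k, h1⟩ := h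
  exact ⟨k, h1.symm⟩

theorem CLOS_mem {B M : Finset V} {v : V} :
    v ∈ mcl B M ↔ v ∈ M ∧ ∃ w, w ∉ B ∧ w ∈ M ∧ FConn (inn M) v w := by
  rw [mcl, mem_filter]

theorem CLOS_unx {B M : Finset V} {v : V} :
    v ∈ unx B M ↔ v ∈ B ∧ v ∉ mcl B M ∧ ∀ u ∈ mcl B M, ¬ Adj u v := by
  rw [unx, mem_filter]

theorem CLOS_nb {B M : Finset V} {u v : V} (hu : u ∈ mcl B M) (hv : v ∈ M) (h : Adj u v) :
    v ∈ mcl B M := by
  obtain ⟨h1, w, h2, h3, h4⟩ := CLOS_mem.1 hu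
  exact CLOS_mem.2 ⟨hv, w, h2, h3, Relation.ReflTransGen.head (CLOS_step.2 ⟨hv, h1, CLOS_adj h⟩) h4⟩

theorem CLOS_mcl (B M M' : Finset V) (h : M \ unx B M = M' \ unx B M) : mcl B M' = mcl B M := by
  have hM : ∀ v, v ∉ unx B M → (v ∈ M ↔ v ∈ M') := by
    intro v hv
    have h1 : v ∈ M \ unx B M ↔ v ∈ M' \ unx B M := by rw [h]
    rw [mem_sdiff, mem_sdiff] at h1
    constructor
    · exact fun h2 => (h1.1 ⟨h2, hv⟩).1
    · exact fun h2 => (h1.2 ⟨h2, hv⟩).1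
  have hsub : ∀ v ∈ mcl B M, v ∈ M' := by
    intro v hv
    exact (hM v fun h2 => (CLOS_unx.1 h2).2.1 hv).1 (CLOS_mem.1 hv).1
  have hcl : ∀ u v, u ∈ mcl B M → v ∈ M' → Adj u v → v ∈ mcl B M := by
    intro u v hu hv huv
    have h2 : v ∉ unx B M := fun h2 => (CLOS_unx.1 h2).2.2 u hu huv
    exact CLOS_nb hu ((hM v h2).2 hv) huv
  have hout : ∀ v, v ∉ B → v ∈ M' → v ∈ mcl B M := by
    intro v hv hv'
    have h2 : v ∉ unx B M := fun h2 => hv (CLOS_unx.1 h2).1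
    exact CLOS_mem.2 ⟨(hM v h2).2 hv', v, hv, (hM v h2).2 hv', Relation.ReflTransGen.refl⟩
  ext v
  constructor
  · intro hv
    obtain ⟨h1, w, h2, h3, h4⟩ := CLOS_mem.1 hv
    have hw := hout w h2 h3
    unfold FConn at h4
    clear hv h1
    induction h4 using Relation.ReflTransGen.head_induction_on with
    | refl => exact hw
    | @head a c hac _ ih =>
      obtain ⟨h5, h6, h7⟩ := CLOS_step.1 hac
      exact hcl c a ih h5 (CLOS_adj h7)
  · intro hv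
    obtain ⟨h1, w, h2, h3, h4⟩ := CLOS_mem.1 hv
    have hw : w ∈ M' := hsub w (CLOS_mem.2 ⟨h3, w, h2, h3, Relation.ReflTransGen.refl⟩)
    refine CLOS_mem.2 ⟨hsub v hv, w, h2, hw, ?_⟩
    unfold FConn at h4 ⊢
    clear hv h1
    induction h4 using Relation.ReflTransGen.head_induction_on with
    | refl => exact Relation.ReflTransGen.refl
    | @head a c hac hcw ih =>
      obtain ⟨h5, h6, h7⟩ := CLOS_step.1 hac
      have ha : a ∈ mcl B M := CLOS_mem.2 ⟨h5, w, h2, h3, Relation.ReflTransGen.head hac hcw⟩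
      have hc : c ∈ mcl B M := CLOS_mem.2 ⟨h6, w, h2, h3, hcw⟩
      exact Relation.ReflTransGen.head (CLOS_step.2 ⟨hsub a ha, hsub c hc, h7⟩) ih

theorem p_CLOS : S_CLOS := by
  intro B M M' h
  have h1 := CLOS_mcl B M M' h
  exact ⟨h1, by rw [unx, unx, h1]⟩

end XorIsing
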