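import Pool.Agent.Work.MP_bda6fa_cnl.IC4
set_option autoImplicit false

/-! CORM: the magnetisation decreases when the domain increases. -/

namespace XorIsing
open scoped Classical
open Finset

/-- the weight in B of a configuration with minus spins in U only -/
theorem CORM_wt (β : ℝ) {U B M : Finset V} (hU : U ⊆ B) (hM : M ⊆ U) :
    wt β B M = Real.exp (β * ((near B \ near U).card : ℝ)) * wt β U M := by
  have hsub : near U ⊆ near B := by
    intro e he
    rw [mem_near] at he ⊢
    exact he.imp (fun h => hU h) (fun h => hU h)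
  have h1 : ∑ e ∈ near B, spin M e.1 * spin M (tip e) =
      ((near B \ near U).card : ℝ) + ∑ e ∈ near U, spin M e.1 * spin M (tip e) := by
    rw [← Finset.sum_sdiff hsub]
    congr 1
    have h2 : ∀ e ∈ near B \ near U, spin M e.1 * spin M (tip e) = 1 := by
      intro e he
      rw [Finset.mem_sdiff, mem_near, mem_near, not_or] at he
      have h3 : e.1 ∉ M := fun h => he.2.1 (hM h)
      have h4 : tip e ∉ M := fun h => he.2.2 (hM h)
      unfold spin
      rw [if_neg h3, if_neg h4, one_mul]
    rw [Finset.sum_congr rfl h2, Finset.sum_const, nsmul_eq_mul, mul_one]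
  unfold wt
  rw [h1, mul_add, Real.exp_add]

/-- sums over the subsets of U as sums over the subsets of B -/
theorem CORM_ind {U B : Finset V} (hU : U ⊆ B) (f : Finset V → ℝ) :
    ∑ M ∈ B.powerset, (if M ⊆ U then f M else 0) = ∑ M ∈ U.powerset, f M := by
  rw [← Finset.sum_filter]
  congr 1
  ext M
  rw [Finset.mem_filter, Finset.mem_powerset, Finset.mem_powerset]
  exact ⟨fun h => h.2, fun h => ⟨h.trans hU, h⟩⟩

theorem p_CORM (hFKI : S_FKI) : S_CORM := by
  intro β U B x hβ hU hx
  have hf : ∀ M M' : Finset V, M ⊆ M' → M' ⊆ B → -spin M x ≤ -spin M' x := by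
    intro M M' h _
    unfold spin
    by_cases h1 : x ∈ M
    · rw [if_pos h1, if_pos (h h1)]
    · rw [if_neg h1]
      split_ifs <;> norm_num
  have hg : ∀ M M' : Finset V, M ⊆ M' → M' ⊆ B →
      -(if M ⊆ U then (1 : ℝ) else 0) ≤ -(if M' ⊆ U then (1 : ℝ) else 0) := by
    intro M M' h _
    by_cases h1 : M' ⊆ U
    · rw [if_pos h1, if_pos (h.trans h1)]
    · rw [if_neg h1]
      split_ifs <;> norm_num
  have key := hFKI β B (near B) (fun M => -spin M x) (fun M => -(if M ⊆ U then (1 : ℝ) else 0))
    hβ hf hg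
  have hZ : pz β B (near B) = ZZ β B := rfl
  have hZB : 0 < ZZ β B := ZZ_pos β B
  have hZU : 0 < ZZ β U := ZZ_pos β U
  have hK : 0 < Real.exp (β * ((near B \ near U).card : ℝ)) := Real.exp_pos _
  have e1 : eE β B (near B) (fun M => -spin M x) =
      -(∑ M ∈ B.powerset, wt β B M * spin M x) / ZZ β B := by
    unfold eE
    rw [hZ]
    congr 1
    rw [← Finset.sum_neg_distrib]
    refine Finset.sum_congr rfl fun M _ => ?_
    show wt β B M * -spin M x = _
    ring
  have e2 : eE β B (near B) (fun M => -(if M ⊆ U then (1 : ℝ) else 0)) =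
      -(Real.exp (β * ((near B \ near U).card : ℝ)) * ZZ β U) / ZZ β B := by
    unfold eE
    rw [hZ]
    congr 1
    have h3 : ∑ M ∈ B.powerset, ew β (near B) M * -(if M ⊆ U then (1 : ℝ) else 0) =
        -∑ M ∈ B.powerset, (if M ⊆ U then wt β B M else 0) := by
      rw [← Finset.sum_neg_distrib]
      refine Finset.sum_congr rfl fun M _ => ?_
      show wt β B M * -(if M ⊆ U then (1 : ℝ) else 0) = _
      split_ifs <;> ring
    rw [h3, CORM_ind hU, ZZ, Finset.mul_sum]
    congr 1
    refine Finset.sum_congr rfl fun M hM => ?_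
    exact CORM_wt β hU (Finset.mem_powerset.1 hM)
  have e3 : eE β B (near B) (fun M => -spin M x * -(if M ⊆ U then (1 : ℝ) else 0)) =
      (Real.exp (β * ((near B \ near U).card : ℝ)) * ∑ M ∈ U.powerset, wt β U M * spin M x) /
        ZZ β B := by
    unfold eE
    rw [hZ]
    congr 1
    have h3 : ∑ M ∈ B.powerset, ew β (near B) M * (-spin M x * -(if M ⊆ U then (1 : ℝ) else 0)) =
        ∑ M ∈ B.powerset, (if M ⊆ U then wt β B M * spin M x else 0) := by
      refine Finset.sum_congr rfl fun M _ => ?_
      show wt β B M * (-spin M x * -(if M ⊆ U then (1 : ℝ) else 0)) = _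
      split_ifs <;> ring
    rw [h3, CORM_ind hU (fun M => wt β B M * spin M x), Finset.mul_sum]
    refine Finset.sum_congr rfl fun M hM => ?_
    rw [CORM_wt β hU (Finset.mem_powerset.1 hM)]
    ring
  rw [e1, e2, e3] at key
  unfold corr
  simp only [Finset.prod_singleton]
  generalize ∑ M ∈ B.powerset, wt β B M * spin M x = SB at key ⊢
  generalize ∑ M ∈ U.powerset, wt β U M * spin M x = SU at key ⊢
  generalize Real.exp (β * ((near B \ near U).card : ℝ)) = K at key hK
  generalize ZZ β B = ZB at key hZB ⊢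
  generalize ZZ β U = ZU at key hZU ⊢
  have h5 : -SB / ZB * (-(K * ZU) / ZB) = (SB / ZB * ZU) * (K / ZB) := by ring
  have h6 : K * SU / ZB = SU * (K / ZB) := by ring
  rw [h5, h6] at key
  have h7 : SB / ZB * ZU ≤ SU := le_of_mul_le_mul_right key (div_pos hK hZB)
  rw [le_div_iff₀ hZU]
  exact h7

end XorIsing
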