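import Pool.Agent.Work.MP_bda6fa_cnl.IC4
set_option autoImplicit false

/-! Block COVI: covariance inequality. -/

namespace XorIsing
open scoped Classical
open Finset

namespace COVI

lemma eE_add (β : ℝ) (D : Finset V) (F : Finset Edge) (f g : Finset V → ℝ) :
    eE β D F (fun M => f M + g M) = eE β D F f + eE β D F g := by
  unfold eE
  rw [← add_div, ← sum_add_distrib]
  congr 1
  exact sum_congr rfl fun M _ => by ring

lemma eE_smul (β : ℝ) (D : Finset V) (F : Finset Edge) (c : ℝ) (f : Finset V → ℝ) :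
    eE β D F (fun M => c * f M) = c * eE β D F f := by
  unfold eE
  rw [mul_div_assoc', mul_sum]
  congr 1
  exact sum_congr rfl fun M _ => by ring

lemma eE_sum (β : ℝ) (D : Finset V) (F : Finset Edge) {ι : Type*} (s : Finset ι)
    (f : ι → Finset V → ℝ) :
    eE β D F (fun M => ∑ i ∈ s, f i M) = ∑ i ∈ s, eE β D F (f i) := by
  unfold eE
  rw [← sum_div]
  congr 1
  rw [sum_comm]
  exact sum_congr rfl fun M _ => by rw [mul_sum]

lemma eE_one (β : ℝ) (D : Finset V) (F : Finset Edge) : eE β D F (fun _ => 1) = 1 := by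
  unfold eE
  have h : ∑ M ∈ D.powerset, ew β F M * 1 = pz β D F := by
    unfold pz ew
    exact sum_congr rfl fun M _ => by rw [mul_one]
  rw [h]
  exact div_self (pz_pos β D F).ne'

/-- the number of minus spins in `A` -/
noncomputable def nn (A : Finset V) (M : Finset V) : ℝ := ∑ a ∈ A, (1 - spin M a) * (1 / 2)

lemma nn_eq (A M : Finset V) : nn A M = ((M ∩ A).card : ℝ) := by
  unfold nn spin
  have h : ∀ a ∈ A, (1 - (if a ∈ M then (-1 : ℝ) else 1)) * (1 / 2) = if a ∈ M then 1 else 0 := by
    intro a _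
    split_ifs <;> norm_num
  rw [sum_congr rfl h, sum_boole, inter_comm, ← filter_mem_eq_inter]

/-- `n_A ± f` is increasing -/
lemma nn_mono {A : Finset V} {f : Finset V → ℝ} (hf : ∀ M M', M ⊆ M' → f M ≤ f M')
    (h01 : ∀ M, 0 ≤ f M ∧ f M ≤ 1) (hA : ∀ M, f M = f (M ∩ A)) {M M' : Finset V} (h : M ⊆ M') :
    nn A M + f M ≤ nn A M' + f M' ∧ nn A M - f M ≤ nn A M' - f M' := by
  rw [nn_eq, nn_eq]
  have hs : M ∩ A ⊆ M' ∩ A := inter_subset_inter_right h
  have hc : ((M ∩ A).card : ℝ) ≤ (M' ∩ A).card := by exact_mod_cast card_le_card hs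
  refine ⟨add_le_add hc (hf M M' h), ?_⟩
  by_cases he : M ∩ A = M' ∩ A
  · rw [hA M, hA M', he]
  · have h1 : (M ∩ A).card < (M' ∩ A).card := card_lt_card (Finset.ssubset_iff_subset_ne.mpr ⟨hs, he⟩)
    have h2 : ((M ∩ A).card : ℝ) + 1 ≤ (M' ∩ A).card := by exact_mod_cast h1
    have h3 := (h01 M).1
    have h4 := (h01 M').2
    linarith

end COVI

open COVI in
theorem p_COVI (hFKI : S_FKI) : S_COVI := by
  intro β D F A A' f g hβ hf hg hf1 hg1 hfA hgA
  have h1 := hFKI β D F (fun M => nn A M + f M) (fun M => nn A' M + (-1) * g M) hβ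
    (fun M M' h _ => (nn_mono hf hf1 hfA h).1)
    (fun M M' h _ => by
      have := (nn_mono hg hg1 hgA h).2
      linarith)
  have h2 := hFKI β D F (fun M => nn A M + (-1) * f M) (fun M => nn A' M + g M) hβ
    (fun M M' h _ => by
      have := (nn_mono hf hf1 hfA h).2
      linarith)
    (fun M M' h _ => (nn_mono hg hg1 hgA h).1)
  have e1 : eE β D F (fun M => (nn A M + f M) * (nn A' M + (-1) * g M)) =
      eE β D F (fun M => nn A M * nn A' M) + eE β D F (fun M => f M * nn A' M) +
        (-1) * eE β D F (fun M => nn A M * g M) + (-1) * eE β D F (fun M => f M * g M) := by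
    rw [← eE_smul, ← eE_smul, ← eE_add, ← eE_add, ← eE_add]
    congr 1
    funext M
    ring
  have e2 : eE β D F (fun M => (nn A M + (-1) * f M) * (nn A' M + g M)) =
      eE β D F (fun M => nn A M * nn A' M) + (-1) * eE β D F (fun M => f M * nn A' M) +
        eE β D F (fun M => nn A M * g M) + (-1) * eE β D F (fun M => f M * g M) := by
    rw [← eE_smul, ← eE_smul, ← eE_add, ← eE_add, ← eE_add]
    congr 1
    funext M
    ring
  rw [eE_add, eE_add, eE_smul, e1] at h1
  rw [eE_add, eE_add, eE_smul, e2] at h2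
  have e3 : eE β D F (fun M => nn A M * nn A' M) - eE β D F (nn A) * eE β D F (nn A') =
      ∑ a ∈ A, ∑ a' ∈ A', (eE β D F (fun M => spin M a * spin M a') -
        eE β D F (fun M => spin M a) * eE β D F (fun M => spin M a')) / 4 := by
    have e4 : ∀ B : Finset V, eE β D F (nn B) = ∑ a ∈ B, (1 / 2 + (-(1 / 2)) *
        eE β D F (fun M => spin M a)) := by
      intro B
      have : nn B = fun M => ∑ a ∈ B, (1 - spin M a) * (1 / 2) := rfl
      rw [this, eE_sum]
      refine sum_congr rfl fun a _ => ?_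
      have e5 : (fun M => (1 - spin M a) * (1 / 2)) =
          fun M => (1 / 2) * (1 : ℝ) + (-(1 / 2)) * spin M a := by
        funext M; ring
      rw [e5, eE_add, eE_smul, eE_smul, eE_one, mul_one]
    have e6 : eE β D F (fun M => nn A M * nn A' M) = ∑ a ∈ A, ∑ a' ∈ A',
        (1 / 4 + (-(1 / 4)) * eE β D F (fun M => spin M a) +
          (-(1 / 4)) * eE β D F (fun M => spin M a') +
          (1 / 4) * eE β D F (fun M => spin M a * spin M a')) := by
      have e7 : (fun M => nn A M * nn A' M) = fun M => ∑ a ∈ A, ∑ a' ∈ A',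
          ((1 - spin M a) * (1 / 2)) * ((1 - spin M a') * (1 / 2)) := by
        funext M
        unfold nn
        rw [sum_mul_sum]
      rw [e7, eE_sum]
      refine sum_congr rfl fun a _ => ?_
      rw [eE_sum]
      refine sum_congr rfl fun a' _ => ?_
      have e8 : (fun M => ((1 - spin M a) * (1 / 2)) * ((1 - spin M a') * (1 / 2))) =
          fun M => (1 / 4) * (1 : ℝ) + (-(1 / 4)) * spin M a + (-(1 / 4)) * spin M a' +
            (1 / 4) * (spin M a * spin M a') := by
        funext M; ring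
      rw [e8, eE_add, eE_add, eE_add, eE_smul, eE_smul, eE_smul, eE_smul, eE_one, mul_one]
    rw [e6, e4, e4, sum_mul_sum, ← sum_sub_distrib]
    refine sum_congr rfl fun a _ => ?_
    rw [← sum_sub_distrib]
    refine sum_congr rfl fun a' _ => ?_
    ring
  rw [← e3]
  nlinarith [h1, h2]

end XorIsing
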