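import Pool.Agent.Work.MP_bda6fa_cnl.IC4
set_option autoImplicit false

/-! Block FIBR: the sum over the spins in U = unx B M. -/

namespace XorIsing
open scoped Classical
open Finset

namespace CFIBR

theorem near_mono {U B : Finset V} (h : U ⊆ B) : near U ⊆ near B := by
  intro e he
  rw [mem_near] at he ⊢
  exact he.imp (fun h1 => h h1) (fun h1 => h h1)

theorem adj_tip (e : Edge) : Adj e.1 (tip e) := ⟨e.2, Or.inl rfl⟩

theorem adj_tip' (e : Edge) : Adj (tip e) e.1 := ⟨e.2, Or.inr rfl⟩

theorem spin_congr {M M' : Finset V} {v : V} (h : v ∈ M ↔ v ∈ M') : spin M v = spin M' v := by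
  unfold spin
  by_cases h1 : v ∈ M
  · rw [if_pos h1, if_pos (h.1 h1)]
  · rw [if_neg h1, if_neg (fun h2 => h1 (h.2 h2))]

end CFIBR

open CFIBR in
theorem p_FIBR (hBDRY : S_BDRY) (hCORM : S_CORM) : S_FIBR := by
  intro β H B M hβ hnear h0
  set U := unx B M with hU
  set M0 := M \ U with hM0
  have hUB : U ⊆ B := by
    rw [hU]
    unfold unx
    exact filter_subset _ _
  have hUH : near U ⊆ inn H := (near_mono hUB).trans hnear
  -- the factorisation
  have key : ∀ N ∈ U.powerset, ew β (inn H) (M0 ∪ N) = ew β (inn H \ near U) M0 * ew β (near U) N := by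
    intro N hN
    have hNU : N ⊆ U := mem_powerset.1 hN
    unfold ew
    rw [← Real.exp_add, ← mul_add, ← sum_sdiff hUH]
    have out : ∀ v, v ∉ U → spin (M0 ∪ N) v = spin M0 v := by
      intro v hv
      apply spin_congr
      rw [mem_union]
      exact ⟨fun h => h.resolve_right (fun h1 => hv (hNU h1)), Or.inl⟩
    have inU : ∀ v, v ∈ U → spin (M0 ∪ N) v = spin N v := by
      intro v hv
      apply spin_congr
      rw [mem_union]
      refine ⟨fun h => h.resolve_left (fun h1 => ?_), Or.inr⟩
      rw [hM0, mem_sdiff] at h1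
      exact h1.2 hv
    have bd : ∀ v, v ∉ U → v ∉ M → spin (M0 ∪ N) v = spin N v := by
      intro v hv hvM
      apply spin_congr
      rw [mem_union]
      refine ⟨fun h => h.resolve_left (fun h1 => ?_), Or.inr⟩
      rw [hM0, mem_sdiff] at h1
      exact hvM h1.1
    congr 3
    · apply sum_congr rfl
      intro e he
      rw [mem_sdiff, mem_near, not_or] at he
      rw [out _ he.2.1, out _ he.2.2]
    · apply sum_congr rfl
      intro e he
      rw [mem_near] at he
      have h1 : spin (M0 ∪ N) e.1 = spin N e.1 := by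
        by_cases h : e.1 ∈ U
        · exact inU _ h
        · have h2 : tip e ∈ U := he.resolve_left h
          exact bd _ h (hBDRY B M (tip e) e.1 (adj_tip' e) h2 h)
      have h2 : spin (M0 ∪ N) (tip e) = spin N (tip e) := by
        by_cases h : tip e ∈ U
        · exact inU _ h
        · have h2 : e.1 ∈ U := he.resolve_right h
          exact bd _ h (hBDRY B M e.1 (tip e) (adj_tip e) h2 h)
      rw [h1, h2]
  have key2 : ∀ N ∈ U.powerset, spin (M0 ∪ N) (0, 0) = spin N (0, 0) := by
    intro N hN
    apply spin_congr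
    rw [mem_union]
    refine ⟨fun h => h.resolve_left (fun h1 => ?_), Or.inr⟩
    rw [hM0, mem_sdiff] at h1
    exact h1.2 h0
  have hZ := ZZ_pos β U
  have e1 : ∑ N ∈ U.powerset, ew β (inn H) (M0 ∪ N) * (spin (M0 ∪ N) (0, 0) - corr β B {((0, 0) : V)}) =
      ew β (inn H \ near U) M0 * (ZZ β U * (corr β U {((0, 0) : V)} - corr β B {((0, 0) : V)})) := by
    have e2 : ZZ β U * corr β U {((0, 0) : V)} = ∑ N ∈ U.powerset, ew β (near U) N * spin N (0, 0) := by
      unfold corr
      rw [mul_div_cancel₀ _ hZ.ne']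
      apply sum_congr rfl
      intro N _
      rw [prod_singleton]
      rfl
    have e3 : ZZ β U = ∑ N ∈ U.powerset, ew β (near U) N := rfl
    rw [mul_sub, e2, e3, sum_mul, ← sum_sub_distrib, mul_sum]
    apply sum_congr rfl
    intro N hN
    rw [key N hN, key2 N hN]
    ring
  rw [e1]
  apply mul_nonneg (Real.exp_pos _).le
  apply mul_nonneg hZ.le
  have := hCORM β U B (0, 0) hβ hUB h0
  linarith

end XorIsing
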