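import Pool.Agent.Work.MP_bda6fa_cnl.IC4

set_option autoImplicit false

/-! Block FKI: the FKG inequality -/

namespace XorIsing
open scoped Classical
open Finset
open scoped FinsetFamily

theorem FKI_ew_pos (β : ℝ) (F : Finset Edge) (M : Finset V) : 0 < ew β F M := Real.exp_pos _

/-- nonnegative functions -/
theorem FKI_nonneg (hLSM : S_LSM) (β : ℝ) (D : Finset V) (F : Finset Edge) (f g : Finset V → ℝ)
    (hβ : 0 ≤ β) (hf : ∀ M M', M ⊆ M' → M' ⊆ D → f M ≤ f M')
    (hg : ∀ M M', M ⊆ M' → M' ⊆ D → g M ≤ g M') (hf0 : ∀ M, M ⊆ D → 0 ≤ f M)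
    (hg0 : ∀ M, M ⊆ D → 0 ≤ g M) :
    (∑ M ∈ D.powerset, ew β F M * f M) * (∑ M ∈ D.powerset, ew β F M * g M) ≤
      (∑ M ∈ D.powerset, ew β F M) * ∑ M ∈ D.powerset, ew β F M * (f M * g M) := by
  have key := Finset.four_functions_theorem (β := ℝ) D
    (f₁ := fun M => if M ⊆ D then ew β F M * f M else 0)
    (f₂ := fun M => if M ⊆ D then ew β F M * g M else 0)
    (f₃ := fun M => ew β F M)
    (f₄ := fun M => if M ⊆ D then ew β F M * (f M * g M) else 0)
    (fun M => by
      change (0 : ℝ) ≤ if M ⊆ D then ew β F M * f M else 0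
      split_ifs with h
      · exact mul_nonneg (FKI_ew_pos β F M).le (hf0 M h)
      · exact le_rfl)
    (fun M => by
      change (0 : ℝ) ≤ if M ⊆ D then ew β F M * g M else 0
      split_ifs with h
      · exact mul_nonneg (FKI_ew_pos β F M).le (hg0 M h)
      · exact le_rfl)
    (fun M => (FKI_ew_pos β F M).le)
    (fun M => by
      change (0 : ℝ) ≤ if M ⊆ D then ew β F M * (f M * g M) else 0
      split_ifs with h
      · exact mul_nonneg (FKI_ew_pos β F M).le (mul_nonneg (hf0 M h) (hg0 M h))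
      · exact le_rfl)
    (fun s hs t ht => by
      have hst : s ∪ t ⊆ D := union_subset hs ht
      simp only [if_pos hs, if_pos ht, if_pos hst]
      have h1 := hLSM β F s t hβ
      have h2 : f s ≤ f (s ∪ t) := hf _ _ subset_union_left hst
      have h3 : g t ≤ g (s ∪ t) := hg _ _ subset_union_right hst
      have h4 : f s * g t ≤ f (s ∪ t) * g (s ∪ t) :=
        mul_le_mul h2 h3 (hg0 t ht) (hf0 _ hst)
      have h5 : 0 ≤ f s * g t := mul_nonneg (hf0 s hs) (hg0 t ht)
      calc ew β F s * f s * (ew β F t * g t) = (ew β F s * ew β F t) * (f s * g t) := by ring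
        _ ≤ (ew β F (s ∩ t) * ew β F (s ∪ t)) * (f (s ∪ t) * g (s ∪ t)) :=
            mul_le_mul h1 h4 h5 (mul_pos (FKI_ew_pos β F _) (FKI_ew_pos β F _)).le
        _ = ew β F (s ∩ t) * (ew β F (s ∪ t) * (f (s ∪ t) * g (s ∪ t))) := by ring)
    (𝒜 := D.powerset) (ℬ := D.powerset) (Subset.refl _) (Subset.refl _)
  have e1 : ∑ M ∈ D.powerset, (if M ⊆ D then ew β F M * f M else 0) =
      ∑ M ∈ D.powerset, ew β F M * f M :=
    sum_congr rfl fun M hM => if_pos (mem_powerset.1 hM)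
  have e2 : ∑ M ∈ D.powerset, (if M ⊆ D then ew β F M * g M else 0) =
      ∑ M ∈ D.powerset, ew β F M * g M :=
    sum_congr rfl fun M hM => if_pos (mem_powerset.1 hM)
  have i1 : D.powerset ⊼ D.powerset ⊆ D.powerset := by
    intro s hs
    obtain ⟨a, ha, b, hb, rfl⟩ := mem_infs.1 hs
    exact mem_powerset.2 (inter_subset_left.trans (mem_powerset.1 ha))
  have i2 : D.powerset ⊻ D.powerset ⊆ D.powerset := by
    intro s hs
    obtain ⟨a, ha, b, hb, rfl⟩ := mem_sups.1 hs
    exact mem_powerset.2 (union_subset (mem_powerset.1 ha) (mem_powerset.1 hb))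
  have n4 : ∀ M ∈ D.powerset, (0 : ℝ) ≤ if M ⊆ D then ew β F M * (f M * g M) else 0 := by
    intro M hM
    rw [if_pos (mem_powerset.1 hM)]
    exact mul_nonneg (FKI_ew_pos β F M).le
      (mul_nonneg (hf0 M (mem_powerset.1 hM)) (hg0 M (mem_powerset.1 hM)))
  have s1 : ∑ M ∈ D.powerset ⊼ D.powerset, ew β F M ≤ ∑ M ∈ D.powerset, ew β F M :=
    sum_le_sum_of_subset_of_nonneg i1 fun M _ _ => (FKI_ew_pos β F M).le
  have s2 : ∑ M ∈ D.powerset ⊻ D.powerset, (if M ⊆ D then ew β F M * (f M * g M) else 0) ≤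
      ∑ M ∈ D.powerset, ew β F M * (f M * g M) := by
    refine (sum_le_sum_of_subset_of_nonneg i2 fun M hM _ => n4 M hM).trans (le_of_eq ?_)
    exact sum_congr rfl fun M hM => if_pos (mem_powerset.1 hM)
  have p2 : 0 ≤ ∑ M ∈ D.powerset ⊻ D.powerset, (if M ⊆ D then ew β F M * (f M * g M) else 0) :=
    sum_nonneg fun M hM => n4 M (i2 hM)
  have p1 : 0 ≤ ∑ M ∈ D.powerset, ew β F M := sum_nonneg fun M _ => (FKI_ew_pos β F M).le
  beta_reduce at key
  rw [e1, e2] at key
  exact key.trans (mul_le_mul s1 s2 p2 p1)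

theorem p_FKI (hLSM : S_LSM) : S_FKI := by
  intro β D F f g hβ hf hg
  have key := FKI_nonneg hLSM β D F (fun M => f M - f ∅) (fun M => g M - g ∅) hβ
    (fun M M' h h' => sub_le_sub_right (hf M M' h h') _)
    (fun M M' h h' => sub_le_sub_right (hg M M' h h') _)
    (fun M h => sub_nonneg.2 (hf ∅ M (empty_subset M) h))
    (fun M h => sub_nonneg.2 (hg ∅ M (empty_subset M) h))
  have hpz : pz β D F = ∑ M ∈ D.powerset, ew β F M := rfl
  have hpos : 0 < pz β D F := by
    rw [hpz]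
    exact sum_pos (fun M _ => FKI_ew_pos β F M) ⟨∅, empty_mem_powerset _⟩
  have e1 : ∑ M ∈ D.powerset, ew β F M * (f M - f ∅) =
      ∑ M ∈ D.powerset, ew β F M * f M - f ∅ * pz β D F := by
    rw [hpz, mul_sum, ← sum_sub_distrib]
    exact sum_congr rfl fun M _ => by ring
  have e2 : ∑ M ∈ D.powerset, ew β F M * (g M - g ∅) =
      ∑ M ∈ D.powerset, ew β F M * g M - g ∅ * pz β D F := by
    rw [hpz, mul_sum, ← sum_sub_distrib]
    exact sum_congr rfl fun M _ => by ring
  have e3 : ∑ M ∈ D.powerset, ew β F M * ((f M - f ∅) * (g M - g ∅)) =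
      ∑ M ∈ D.powerset, ew β F M * (f M * g M) - g ∅ * ∑ M ∈ D.powerset, ew β F M * f M -
        f ∅ * ∑ M ∈ D.powerset, ew β F M * g M + f ∅ * g ∅ * pz β D F := by
    rw [hpz, mul_sum, mul_sum, mul_sum, ← sum_sub_distrib, ← sum_sub_distrib, ← sum_add_distrib]
    exact sum_congr rfl fun M _ => by ring
  rw [e1, e2, e3, ← hpz] at key
  unfold eE
  rw [div_mul_div_comm, div_le_div_iff₀ (mul_pos hpos hpos) hpos]
  nlinarith [mul_le_mul_of_nonneg_right key hpos.le]

end XorIsing
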