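import Pool.Agent.Work.MP_bda6fa_cnl.IC4
set_option autoImplicit false

/-! FMON: free correlations increase with the domain. -/

namespace XorIsing
open scoped Classical
open Finset

theorem FMON_fac (H : Finset V) (φ : Finset V → ℝ) (hφ : ∀ M, φ M = φ (M ∩ H)) (K : Finset V)
    (hK : Disjoint K H) :
    ∑ M ∈ (K ∪ H).powerset, φ M = 2 ^ K.card * ∑ M ∈ H.powerset, φ M := by
  induction K using Finset.induction_on with
  | empty => simp
  | insert a K ha ih =>
    rw [Finset.disjoint_insert_left] at hK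
    have haH : a ∉ H := hK.1
    have hau : a ∉ K ∪ H := by
      rw [Finset.mem_union]
      exact fun h => h.elim ha haH
    rw [Finset.insert_union, Finset.sum_powerset_insert hau]
    have h1 : ∀ M, φ (insert a M) = φ M := by
      intro M
      rw [hφ (insert a M), Finset.insert_inter_of_notMem haH, ← hφ]
    simp only [h1]
    rw [ih hK.2, Finset.card_insert_of_notMem ha]
    ring

theorem FMON_spin (H M : Finset V) (a : V) (ha : a ∈ H) : spin M a = spin (M ∩ H) a := by
  simp [spin, ha]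

theorem FMON_ew (β : ℝ) (H M : Finset V) : ew β (inn H) M = ew β (inn H) (M ∩ H) := by
  unfold ew
  congr 2
  refine Finset.sum_congr rfl fun e he => ?_
  obtain ⟨h1, h2⟩ := mem_inn.1 he
  rw [← FMON_spin H M _ h1, ← FMON_spin H M _ h2]

theorem FMON_pA (β : ℝ) (D : Finset V) (F : Finset Edge) (A : Finset V) :
    pA D F (fun _ => β) A = ∑ M ∈ D.powerset, ew β F M * ∏ a ∈ A, spin M a := by
  unfold pA ew
  refine Finset.sum_congr rfl fun M _ => ?_
  rw [Finset.mul_sum]

theorem FMON_pz (β : ℝ) (D : Finset V) (F : Finset Edge) :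
    pA D F (fun _ => β) ∅ = pz β D F := by
  rw [FMON_pA]
  unfold pz ew
  refine Finset.sum_congr rfl fun M _ => ?_
  rw [Finset.prod_empty, mul_one]

theorem FMON_pos (β : ℝ) (D : Finset V) (F : Finset Edge) : 0 < pz β D F := by
  unfold pz
  exact Finset.sum_pos (fun M _ => Real.exp_pos _) ⟨∅, Finset.empty_mem_powerset D⟩

theorem p_FMON (hGKM : S_GKM) : S_FMON := by
  intro β H H' A hβ hH hA
  have hinn : inn H ⊆ inn H' := by
    intro e he
    obtain ⟨h1, h2⟩ := mem_inn.1 he
    exact mem_inn.2 ⟨hH h1, hH h2⟩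
  have hg := hGKM β H' (inn H') (inn H) A hβ hinn
  have hdis : Disjoint (H' \ H) H := Finset.sdiff_disjoint
  have hun : H' \ H ∪ H = H' := Finset.sdiff_union_of_subset hH
  have f1 := FMON_fac H (fun M => ew β (inn H) M * ∏ a ∈ A, spin M a) (by
    intro M
    beta_reduce
    rw [← FMON_ew]
    congr 1
    exact Finset.prod_congr rfl fun a ha => FMON_spin H M a (hA ha)) (H' \ H) hdis
  have f2 := FMON_fac H (fun M => ew β (inn H) M) (by
    intro M
    exact FMON_ew β H M) (H' \ H) hdis
  rw [hun] at f1 f2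
  have z1 : pz β H' (inn H) = 2 ^ (H' \ H).card * pz β H (inn H) := f2
  rw [FMON_pz, FMON_pz, FMON_pA, FMON_pA, f1, z1] at hg
  have h2 : (0 : ℝ) < 2 ^ (H' \ H).card := by positivity
  unfold eE
  rw [div_le_div_iff₀ (FMON_pos _ _ _) (FMON_pos _ _ _)]
  refine le_of_mul_le_mul_left ?_ h2
  calc _ = 2 ^ (H' \ H).card * (∑ M ∈ H.powerset, ew β (inn H) M * ∏ a ∈ A, spin M a) *
        pz β H' (inn H') := by ring
    _ ≤ _ := hg
    _ = _ := by ring

end XorIsing
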