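import Pool.Agent.Work.MP_bda6fa_cnl.IC4

set_option autoImplicit false

/-! Block SAND (helper60): the sandwich. -/

namespace XorIsing
open scoped Classical
open Finset

theorem p_SAND (hSANP : S_SANP) (hSYM0 : S_SYM0) : S_SAND := by
  intro β H B hβ hBH hnear h0
  have h1 := hSANP β H B hβ hBH hnear h0
  have h2 := hSYM0 β H (0, 0) (hBH h0)
  have hZ : 0 < pz β H (inn H) := by
    rw [pz]
    exact Finset.sum_pos (fun M _ => Real.exp_pos _) ⟨∅, Finset.empty_mem_powerset _⟩
  rw [eE, div_eq_zero_iff] at h2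
  have h3 : ∑ M ∈ H.powerset, ew β (inn H) M * spin M (0, 0) = 0 :=
    h2.resolve_right hZ.ne'
  obtain ⟨q, hq⟩ : ∃ q : ℝ, q = ∑ M ∈ H.powerset, ew β (inn H) M *
    (if ((0, 0) : V) ∈ mcl B M then 1 else 0) := ⟨_, rfl⟩
  have hpz : pz β H (inn H) = ∑ M ∈ H.powerset, ew β (inn H) M := rfl
  have h4 : ∑ M ∈ H.powerset, ew β (inn H) M *
      (if ((0, 0) : V) ∈ mcl B M then 0 else (spin M (0, 0) - corr β B {((0, 0) : V)})) =
      (∑ M ∈ H.powerset, ew β (inn H) M * spin M (0, 0)) + q -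
        corr β B {((0, 0) : V)} * (pz β H (inn H) - q) := by
    rw [hq, hpz, ← Finset.sum_sub_distrib, Finset.mul_sum, ← Finset.sum_add_distrib,
      ← Finset.sum_sub_distrib]
    refine Finset.sum_congr rfl fun M _ => ?_
    by_cases h : ((0, 0) : V) ∈ mcl B M
    · have h5 : ((0, 0) : V) ∈ M := (Finset.mem_filter.1 h).1
      rw [if_pos h, if_pos h, spin, if_pos h5]
      ring
    · rw [if_neg h, if_neg h]
      ring
  rw [h4, h3] at h1
  have h5 : eE β H (inn H) (fun M => if ((0, 0) : V) ∈ mcl B M then 1 else 0) =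
      q / pz β H (inn H) := by
    rw [eE, hq]
  rw [h5, ← sub_nonneg]
  have h6 : q / pz β H (inn H) - corr β B {((0, 0) : V)} * (1 - q / pz β H (inn H)) =
      (0 + q - corr β B {((0, 0) : V)} * (pz β H (inn H) - q)) / pz β H (inn H) := by
    field_simp
    ring
  rw [h6]
  exact div_nonneg h1 hZ.le

end XorIsing
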