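import Pool.Agent.Work.MP_bda6fa_cnl.IC4
set_option autoImplicit false

/-! SANP (copy of helper29) -/

namespace XorIsing
open scoped Classical
open Finset

theorem SANPx_step {B M : Finset V} {u v : V} (hu : u ∈ mcl B M) (ha : Adj u v) (hv : v ∈ M) : v ∈ mcl B M := by
  unfold mcl at hu ⊢
  rw [mem_filter] at hu ⊢
  obtain ⟨huM, w, hwB, hwM, hc⟩ := hu
  refine ⟨hv, w, hwB, hwM, ?_⟩
  refine Relation.ReflTransGen.head ?_ hc
  obtain ⟨k, hk | hk⟩ := ha
  · refine ⟨k, Or.inr ⟨?_, hk⟩⟩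
    rw [mem_inn]
    exact ⟨huM, by rw [tip, ← hk]; exact hv⟩
  · refine ⟨k, Or.inl ⟨?_, hk⟩⟩
    rw [mem_inn]
    exact ⟨hv, by rw [tip, ← hk]; exact huM⟩

theorem SANPx_corr (β : ℝ) (B : Finset V) (x : V) : corr β B {x} ≤ 1 := by
  unfold corr
  have hZ : 0 < ZZ β B := sum_pos (fun _ _ => Real.exp_pos _) ⟨∅, empty_mem_powerset B⟩
  rw [div_le_one hZ]
  unfold ZZ
  refine sum_le_sum fun M _ => ?_
  rw [prod_singleton]
  have h1 : 0 < wt β B M := Real.exp_pos _
  unfold spin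
  split_ifs <;> linarith

theorem SANPx_fib (hCLOS : S_CLOS) (hFIBR : S_FIBR) (β : ℝ) (H B M₀ : Finset V) (h0 : 0 ≤ β) (hBH : B ⊆ H)
    (hn : near B ⊆ inn H) (hM : M₀ ⊆ H) (hz : ((0, 0) : V) ∈ unx B M₀) :
    0 ≤ ∑ M ∈ (H.powerset.filter (fun M => ((0, 0) : V) ∈ unx B M)).filter
        (fun M => (unx B M, M \ unx B M) = (unx B M₀, M₀ \ unx B M₀)),
      ew β (inn H) M * (spin M (0, 0) - corr β B {((0, 0) : V)}) := by
  have key := hFIBR β H B M₀ h0 hn hz
  have hUB : unx B M₀ ⊆ B := filter_subset _ _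
  have hsd : ∀ N, N ⊆ unx B M₀ → ((M₀ \ unx B M₀) ∪ N) \ unx B M₀ = M₀ \ unx B M₀ := by
    intro N hN
    ext v
    simp only [mem_sdiff, mem_union]
    constructor
    · rintro ⟨h1 | h1, h2⟩
      · exact h1
      · exact absurd (hN h1) h2
    · intro h1
      exact ⟨Or.inl h1, h1.2⟩
  have hun : ∀ N, N ⊆ unx B M₀ → unx B ((M₀ \ unx B M₀) ∪ N) = unx B M₀ := by
    intro N hN
    exact (hCLOS B M₀ ((M₀ \ unx B M₀) ∪ N) (hsd N hN).symm).2
  refine le_of_le_of_eq key ?_
  refine Finset.sum_nbij' (fun N => (M₀ \ unx B M₀) ∪ N) (fun M => M ∩ unx B M₀) ?_ ?_ ?_ ?_ ?_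
  · intro N hN
    rw [mem_powerset] at hN
    rw [mem_filter, mem_filter, mem_powerset, hun N hN, hsd N hN]
    refine ⟨⟨?_, hz⟩, rfl⟩
    intro v hv
    rcases mem_union.1 hv with h1 | h1
    · exact hM (mem_sdiff.1 h1).1
    · exact hBH (hUB (hN h1))
  · intro M _
    rw [mem_powerset]
    exact inter_subset_right
  · intro N hN
    rw [mem_powerset] at hN
    ext v
    simp only [mem_inter, mem_union, mem_sdiff]
    constructor
    · rintro ⟨⟨_, h1⟩ | h1, h2⟩
      · exact absurd h2 h1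
      · exact h1
    · intro h1
      exact ⟨Or.inr h1, hN h1⟩
  · intro M hM'
    rw [mem_filter] at hM'
    have h1 : unx B M = unx B M₀ := (Prod.mk.inj hM'.2).1
    have h2 : M \ unx B M = M₀ \ unx B M₀ := (Prod.mk.inj hM'.2).2
    rw [h1] at h2
    rw [← h2]
    ext v
    simp only [mem_inter, mem_union, mem_sdiff]
    tauto
  · intro N _
    rfl

theorem p_SANPx (hCLOS : S_CLOS) (hFIBR : S_FIBR) : S_SANP := by
  intro β H B h0 hBH hn h00
  rw [← Finset.sum_filter_add_sum_filter_not H.powerset (fun M => ((0, 0) : V) ∈ unx B M)]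
  refine add_nonneg ?_ ?_
  · have e1 : ∑ M ∈ H.powerset.filter (fun M => ((0, 0) : V) ∈ unx B M), ew β (inn H) M *
        (if ((0, 0) : V) ∈ mcl B M then 0 else (spin M (0, 0) - corr β B {((0, 0) : V)})) =
        ∑ M ∈ H.powerset.filter (fun M => ((0, 0) : V) ∈ unx B M), ew β (inn H) M *
        (spin M (0, 0) - corr β B {((0, 0) : V)}) := by
      refine sum_congr rfl fun M hM => ?_
      rw [mem_filter] at hM
      have h1 : ((0, 0) : V) ∉ mcl B M := (mem_filter.1 hM.2).2.1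
      rw [if_neg h1]
    rw [e1]
    rw [← Finset.sum_fiberwise_of_maps_to (t := (H.powerset.filter (fun M => ((0, 0) : V) ∈ unx B M)).image
      (fun M => (unx B M, M \ unx B M))) (g := fun M => (unx B M, M \ unx B M))
      (fun M hM => mem_image_of_mem _ hM)]
    refine sum_nonneg fun p hp => ?_
    obtain ⟨M₀, hM₀, rfl⟩ := mem_image.1 hp
    rw [mem_filter, mem_powerset] at hM₀
    exact SANPx_fib hCLOS hFIBR β H B M₀ h0 hBH hn hM₀.1 hM₀.2
  · refine sum_nonneg fun M hM => ?_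
    rw [mem_filter] at hM
    refine mul_nonneg (Real.exp_pos _).le ?_
    by_cases h1 : ((0, 0) : V) ∈ mcl B M
    · rw [if_pos h1]
    · rw [if_neg h1]
      have h2 : ((0, 0) : V) ∉ M := by
        intro h3
        apply hM.2
        unfold unx
        rw [mem_filter]
        refine ⟨h00, h1, ?_⟩
        intro u hu ha
        exact h1 (SANPx_step hu ha h3)
      have h4 : spin M ((0, 0) : V) = 1 := if_neg h2
      rw [h4]
      linarith [SANPx_corr β B ((0, 0) : V)]

end XorIsing
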