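import Pool.Agent.Work.MP_bda6fa_cnl.IC4

set_option autoImplicit false

/-!
Block SYM0 (helper39).
-/

namespace XorIsing
open scoped Classical
open Finset

theorem p_SYM0 : S_SYM0 := by
  intro β H x hx
  have hsp : ∀ M : Finset V, ∀ v ∈ H, spin (H \ M) v = - spin M v := by
    intro M v hv
    unfold spin
    by_cases h : v ∈ M
    · rw [if_neg (by simp [h]), if_pos h]
      norm_num
    · rw [if_pos (by simp [h, hv]), if_neg h]
  have hew : ∀ M : Finset V, ew β (inn H) (H \ M) = ew β (inn H) M := by
    intro M
    unfold ew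
    congr 2
    refine Finset.sum_congr rfl fun e he => ?_
    obtain ⟨h1, h2⟩ := mem_inn.1 he
    rw [hsp M _ h1, hsp M _ h2]
    ring
  have key : ∑ M ∈ H.powerset, ew β (inn H) M * spin M x =
      ∑ M ∈ H.powerset, ew β (inn H) (H \ M) * spin (H \ M) x := by
    refine Finset.sum_nbij' (fun M => H \ M) (fun M => H \ M) ?_ ?_ ?_ ?_ ?_
    · intro M _
      exact mem_powerset.2 sdiff_subset
    · intro M _
      exact mem_powerset.2 sdiff_subset
    · intro M hM
      exact Finset.sdiff_sdiff_eq_self (mem_powerset.1 hM)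
    · intro M hM
      exact Finset.sdiff_sdiff_eq_self (mem_powerset.1 hM)
    · intro M hM
      simp only [Finset.sdiff_sdiff_eq_self (mem_powerset.1 hM)]
  have h0 : ∑ M ∈ H.powerset, ew β (inn H) M * spin M x = 0 := by
    have h1 : ∑ M ∈ H.powerset, ew β (inn H) (H \ M) * spin (H \ M) x =
        - ∑ M ∈ H.powerset, ew β (inn H) M * spin M x := by
      rw [← Finset.sum_neg_distrib]
      refine Finset.sum_congr rfl fun M _ => ?_
      rw [hew, hsp M x hx]
      ring
    linarith
  unfold eE
  rw [h0, zero_div]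

end XorIsing
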