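import Pool.Agent.Work.MP_bda6fa_cnl.IC4
set_option autoImplicit false

/-! Block WALSH: Walsh expansion of a function of finitely many spins. -/

namespace XorIsing
open scoped Classical
open Finset

theorem p_WALSH : S_WALSH := by
  intro A
  induction A using Finset.induction_on with
  | empty =>
    intro f hf
    refine ⟨fun _ => f ∅, fun M => ?_⟩
    rw [powerset_empty, sum_singleton, prod_empty, mul_one, hf M, inter_empty]
  | insert x A hx ih =>
    intro f hf
    obtain ⟨c0, h0⟩ := ih (fun M => f (M ∩ A)) (fun M => by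
      show f (M ∩ A) = f (M ∩ A ∩ A)
      rw [inter_assoc, inter_self])
    obtain ⟨c1, h1⟩ := ih (fun M => f (insert x (M ∩ A))) (fun M => by
      show f (insert x (M ∩ A)) = f (insert x (M ∩ A ∩ A))
      rw [inter_assoc, inter_self])
    refine ⟨fun B => if x ∈ B then (c0 (B.erase x) - c1 (B.erase x)) / 2 else (c0 B + c1 B) / 2, fun M => ?_⟩
    rw [sum_powerset_insert hx]
    have e1 : ∑ B ∈ A.powerset, (if x ∈ B then (c0 (B.erase x) - c1 (B.erase x)) / 2 else (c0 B + c1 B) / 2) *
        ∏ a ∈ B, spin M a = (f (M ∩ A) + f (insert x (M ∩ A))) / 2 := by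
      have h0' : f (M ∩ A) = ∑ B ∈ A.powerset, c0 B * ∏ a ∈ B, spin M a := h0 M
      have h1' : f (insert x (M ∩ A)) = ∑ B ∈ A.powerset, c1 B * ∏ a ∈ B, spin M a := h1 M
      rw [h0', h1', ← sum_add_distrib, sum_div]
      apply sum_congr rfl
      intro B hB
      have hxB : x ∉ B := fun h => hx (mem_powerset.1 hB h)
      rw [if_neg hxB]
      ring
    have e2 : ∑ B ∈ A.powerset, (if x ∈ insert x B then (c0 ((insert x B).erase x) - c1 ((insert x B).erase x)) / 2
        else (c0 (insert x B) + c1 (insert x B)) / 2) *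
        ∏ a ∈ insert x B, spin M a = spin M x * ((f (M ∩ A) - f (insert x (M ∩ A))) / 2) := by
      have h0' : f (M ∩ A) = ∑ B ∈ A.powerset, c0 B * ∏ a ∈ B, spin M a := h0 M
      have h1' : f (insert x (M ∩ A)) = ∑ B ∈ A.powerset, c1 B * ∏ a ∈ B, spin M a := h1 M
      rw [h0', h1', ← sum_sub_distrib, sum_div, mul_sum]
      apply sum_congr rfl
      intro B hB
      have hxB : x ∉ B := fun h => hx (mem_powerset.1 hB h)
      rw [if_pos (mem_insert_self x B), erase_insert hxB, prod_insert hxB]
      ring
    rw [e1, e2, hf M]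
    unfold spin
    by_cases hxM : x ∈ M
    · rw [if_pos hxM, inter_insert_of_mem hxM]
      ring
    · rw [if_neg hxM, inter_insert_of_notMem hxM]
      ring

end XorIsing
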