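import Pool.Agent.Work.MP_bda6fa_cnl.IC2

set_option autoImplicit false

/-!
Block ROS (helper39).
-/

namespace CNL
open XorIsing
open scoped Classical
open Finset Relation Filter Topology

namespace DROS

theorem rv (a b : ℤ) : rot (a, b) = (-b, a + b) := rfl

theorem re0 (a b : ℤ) : rotE ((a, b), 0) = ((-b, a + b), 1) := by
  simp [rotE, rot]

theorem re1 (a b : ℤ) : rotE ((a, b), 1) = ((-(b + 1), a + (b + 1)), 2) := by
  simp [rotE, rot]

theorem re2 (a b : ℤ) : rotE ((a, b), 2) = ((-b, a + b), 0) := by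
  simp [rotE, rot]

theorem rtt (a b : ℤ) : rotT ((a, b), true) = ((-b - 1, a + b), false) := by
  simp [rotT, rot]

theorem rtf (a b : ℤ) : rotT ((a, b), false) = ((-b - 1, a + b + 1), true) := by
  simp [rotT, rot, sub_eq_add_neg]

theorem trt (a b : ℤ) (e : Edge) : e ∈ tri ((a, b), true) ↔
    e = ((a, b), 0) ∨ e = ((a, b), 1) ∨ e = ((a, b + 1), 2) := by
  simp [tri]

theorem trf (a b : ℤ) (e : Edge) : e ∈ tri ((a, b), false) ↔
    e = ((a, b + 1), 2) ∨ e = ((a, b + 1), 0) ∨ e = ((a + 1, b), 1) := by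
  simp [tri]

theorem tip0 (a b : ℤ) : tip ((a, b), 0) = (a + 1, b) := by
  simp [tip, dir]

theorem tip1 (a b : ℤ) : tip ((a, b), 1) = (a, b + 1) := by
  simp [tip, dir]

theorem tip2 (a b : ℤ) : tip ((a, b), 2) = (a + 1, b - 1) := by
  simp [tip, dir, sub_eq_add_neg]

theorem rot_inj : Function.Injective rot := by
  rintro ⟨a, b⟩ ⟨c, d⟩ h
  rw [rv, rv, Prod.mk.injEq] at h
  rw [Prod.mk.injEq]
  omega

theorem ends (e : Edge) : (rot e.1 = (rotE e).1 ∧ rot (tip e) = tip (rotE e)) ∨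
    (rot e.1 = tip (rotE e) ∧ rot (tip e) = (rotE e).1) := by
  obtain ⟨⟨a, b⟩, k⟩ := e
  fin_cases k
  · left
    show rot (a, b) = (rotE ((a, b), 0)).1 ∧ rot (tip ((a, b), 0)) = tip (rotE ((a, b), 0))
    rw [re0, tip0, tip1, rv, rv]
    simp only [Prod.mk.injEq, true_and]
    omega
  · right
    show rot (a, b) = tip (rotE ((a, b), 1)) ∧ rot (tip ((a, b), 1)) = (rotE ((a, b), 1)).1
    rw [re1, tip1, tip2, rv, rv]
    simp only [Prod.mk.injEq, and_true]
    omega
  · left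
    show rot (a, b) = (rotE ((a, b), 2)).1 ∧ rot (tip ((a, b), 2)) = tip (rotE ((a, b), 2))
    rw [re2, tip2, tip0, rv, rv]
    simp only [Prod.mk.injEq, true_and]
    omega

end DROS

open DROS in
theorem p_ROS : S_ROS := by
  refine ⟨?_, ?_, rot_inj, ?_, ?_, ?_, ?_, ?_, ?_, ends, ?_⟩
  · rintro ⟨a, b⟩
    simp only [Function.iterate_succ, Function.iterate_zero, Function.comp, id, rv, Prod.mk.injEq]
    omega
  · rintro ⟨⟨a, b⟩, t⟩
    cases t
    · simp only [Function.iterate_succ, Function.iterate_zero, Function.comp, id, rtt, rtf,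
        Prod.mk.injEq, and_true]
      omega
    · simp only [Function.iterate_succ, Function.iterate_zero, Function.comp, id, rtt, rtf,
        Prod.mk.injEq, and_true]
      omega
  · rintro ⟨⟨a, b⟩, k⟩ ⟨⟨c, d⟩, l⟩ h
    fin_cases k <;> fin_cases l <;>
      simp only [Fin.zero_eta, Fin.mk_one, Fin.reduceFinMk, re0, re1, re2, Prod.mk.injEq, and_true] at h ⊢ <;>
      first
        | omega
        | (exfalso; revert h; simp; done)
  · rintro ⟨⟨a, b⟩, t⟩ ⟨⟨c, d⟩, u⟩ h
    cases t <;> cases u <;>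
      simp only [rtt, rtf, Prod.mk.injEq, and_true] at h ⊢ <;>
      first
        | omega
        | (exfalso; revert h; simp; done)
  · rintro ⟨⟨a, b⟩, k⟩ ⟨⟨c, d⟩, t⟩
    fin_cases k <;> cases t <;>
      simp [rtt, rtf, trt, trf, re0, re1, re2] <;> omega
  · rintro ⟨a, b⟩ ⟨⟨c, d⟩, t⟩
    cases t <;>
      simp [VT, rtt, rtf, rv] <;> omega
  · rintro ⟨a, b⟩ n
    rw [mem_Hx, mem_Hx, rv]
    simp only [zero_sub, zero_add, add_zero]
    omega
  · intro e D
    have hm : ∀ v : V, rot v ∈ D.image rot ↔ v ∈ D := by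
      intro v
      rw [mem_image]
      constructor
      · rintro ⟨u, hu, h⟩
        rw [← rot_inj h]
        exact hu
      · intro h
        exact ⟨v, h, rfl⟩
    rw [mem_inn, mem_inn]
    rcases ends e with ⟨h1, h2⟩ | ⟨h1, h2⟩
    · rw [← h1, ← h2, hm, hm]
    · rw [← h1, ← h2, hm, hm, and_comm]
  · rintro ⟨⟨a, b⟩, k⟩
    fin_cases k
    · refine ⟨((b + a, -a), 2), ?_⟩
      rw [re2]
      simp
    · refine ⟨((b + a, -a), 0), ?_⟩
      rw [re0]
      simp
    · refine ⟨((b + a, -a - 1), 1), ?_⟩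
      rw [re1]
      simp

end CNL
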