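import Pool.Agent.Work.MP_bda6fa_cnl.IC2
import Pool.Agent.Work.MP_bda6fa_cnl.D_ROS

set_option autoImplicit false

/-!
Block ARD (helper39).
-/

namespace CNL
open XorIsing
open scoped Classical
open Finset Relation Filter Topology

namespace DARD

theorem trT_zero (t : V × Bool) : trT (0, 0) t = t := by
  obtain ⟨⟨a, b⟩, u⟩ := t
  simp [trT]

theorem lift' {α β : Type} {r : α → α → Prop} {p : β → β → Prop} (f : α → β)
    (h : ∀ a b, r a b → p (f a) (f b)) {a b : α} (hp : ReflTransGen r a b) :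
    ReflTransGen p (f a) (f b) := by
  induction hp with
  | refl => exact ReflTransGen.refl
  | tail _ h2 ih => exact ih.tail (h _ _ h2)

theorem tri_tr (x : V) (e : Edge) (t : V × Bool) : trE x e ∈ tri (trT x t) ↔ e ∈ tri t := by
  obtain ⟨p, q⟩ := x
  obtain ⟨⟨a, b⟩, k⟩ := e
  obtain ⟨⟨c, d⟩, u⟩ := t
  cases u
  · show ((a + p, b + q), k) ∈ tri ((c + p, d + q), false) ↔ _
    rw [DROS.trf, DROS.trf]
    fin_cases k <;> simp <;> omega
  · show ((a + p, b + q), k) ∈ tri ((c + p, d + q), true) ↔ _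
    rw [DROS.trt, DROS.trt]
    fin_cases k <;> simp <;> omega

theorem vt_tr (x w : V) (t : V × Bool) : VT (w + x) (trT x t) ↔ VT w t := by
  obtain ⟨p, q⟩ := x
  obtain ⟨a, b⟩ := w
  obtain ⟨⟨c, d⟩, u⟩ := t
  cases u <;> simp [VT, trT] <;> omega

theorem hx_tr (x v : V) (n : ℕ) : v + x ∈ Hx x n ↔ v ∈ Hx (0, 0) n := by
  obtain ⟨p, q⟩ := x
  obtain ⟨a, b⟩ := v
  rw [mem_Hx, mem_Hx]
  simp only [Prod.mk_add_mk]
  omega

theorem inn_tr (x : V) (e : Edge) (n : ℕ) : trE x e ∈ inn (Hx x n) ↔ e ∈ inn (Hx (0, 0) n) := by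
  have h : tip (trE x e) = tip e + x := by
    unfold tip trE
    exact add_right_comm _ _ _
  rw [mem_inn, mem_inn, h, hx_tr]
  show e.1 + x ∈ Hx x n ∧ _ ↔ _
  rw [hx_tr]

theorem vt_of_tri (e : Edge) (t : V × Bool) (h : e ∈ tri t) : VT e.1 t := by
  obtain ⟨⟨c, d⟩, u⟩ := t
  cases u
  · rw [DROS.trf] at h
    rcases h with rfl | rfl | rfl <;> simp [VT]
  · rw [DROS.trt] at h
    rcases h with rfl | rfl | rfl <;> simp [VT]

theorem step_map (τ : V × Bool → V × Bool) (ε : Edge → Edge) (hτ : Function.Injective τ)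
    (hε : ∀ e, ∃ f, ε f = e) (h : ∀ e t, ε e ∈ tri (τ t) ↔ e ∈ tri t) (P : Edge → Prop)
    (s t : V × Bool) : TStep P (τ s) (τ t) ↔ TStep (fun e => P (ε e)) s t := by
  unfold TStep
  constructor
  · rintro ⟨hne, e, h1, h2, h3⟩
    obtain ⟨f, rfl⟩ := hε e
    exact ⟨fun hh => hne (by rw [hh]), f, h1, (h _ _).1 h2, (h _ _).1 h3⟩
  · rintro ⟨hne, e, h1, h2, h3⟩
    exact ⟨fun hh => hne (hτ hh), ε e, h1, (h _ _).2 h2, (h _ _).2 h3⟩

theorem path_map (τ : V × Bool → V × Bool) (ε : Edge → Edge) (hτ : Function.Injective τ)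
    (hτs : Function.Surjective τ)
    (hε : ∀ e, ∃ f, ε f = e) (h : ∀ e t, ε e ∈ tri (τ t) ↔ e ∈ tri t) (P : Edge → Prop)
    (s t : V × Bool) : ReflTransGen (TStep P) (τ s) (τ t) ↔
      ReflTransGen (TStep (fun e => P (ε e))) s t := by
  constructor
  · intro hp
    have h1 := lift' (p := TStep (fun e => P (ε e))) (Function.surjInv hτs) (fun a b hab => by
      rw [← step_map τ ε hτ hε h P, Function.surjInv_eq hτs, Function.surjInv_eq hτs]
      exact hab) hp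
    have e1 : ∀ u, Function.surjInv hτs (τ u) = u := fun u => hτ (Function.surjInv_eq hτs (τ u))
    rw [e1, e1] at h1
    exact h1
  · intro hp
    exact lift' τ (fun a b hab => (step_map τ ε hτ hε h P a b).2 hab) hp

theorem loc_aux (c c' : Set Edge) (x : V) (n R : ℕ) (s t : V × Bool) (w : V)
    (h : ReflTransGen (TStep (fun e => e ∉ inn (Hx x n) ∧ e ∉ c)) s t) (hw : w ∉ Hx x R)
    (hv : VT w t) (hc : ∀ e ∈ near (Hx x R), (e ∈ c ↔ e ∈ c')) :
    ∃ t' w', w' ∉ Hx x R ∧ VT w' t' ∧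
      ReflTransGen (TStep (fun e => e ∉ inn (Hx x n) ∧ e ∉ c')) s t' := by
  induction h using Relation.ReflTransGen.head_induction_on with
  | refl => exact ⟨t, w, hw, hv, ReflTransGen.refl⟩
  | @head a b h1 h2 ih =>
    by_cases hout : ∃ v, VT v a ∧ v ∉ Hx x R
    · obtain ⟨v, hv1, hv2⟩ := hout
      exact ⟨a, v, hv2, hv1, ReflTransGen.refl⟩
    · obtain ⟨t', w', h3, h4, h5⟩ := ih
      obtain ⟨hne, e, ⟨he1, he2⟩, he3, he4⟩ := h1
      refine ⟨t', w', h3, h4, ReflTransGen.head ⟨hne, e, ⟨he1, ?_⟩, he3, he4⟩ h5⟩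
      have hn : e ∈ near (Hx x R) := mem_near.2 (Or.inl (by
        by_contra hcon
        exact hout ⟨e.1, vt_of_tri e a he3, hcon⟩))
      rw [← hc e hn]
      exact he2

theorem loc (k : ℕ) (x : V) (n R : ℕ) : Loc (fun c : Set Edge => DArm0 c k x n R) := by
  refine ⟨near (Hx x R), fun c c' hc => ?_⟩
  constructor
  · rintro ⟨i, hi, t, w, hw, hv, h⟩
    obtain ⟨t', w', h3, h4, h5⟩ := loc_aux c c' x n R _ t w h hw hv hc
    exact ⟨i, hi, t', w', h3, h4, h5⟩
  · rintro ⟨i, hi, t, w, hw, hv, h⟩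
    obtain ⟨t', w', h3, h4, h5⟩ := loc_aux c' c x n R _ t w h hw hv (fun e he => (hc e he).symm)
    exact ⟨i, hi, t', w', h3, h4, h5⟩

theorem trT_inj (x : V) : Function.Injective (trT x) := by
  rintro ⟨a, b⟩ ⟨c, d⟩ h
  unfold trT at h
  rw [Prod.mk.injEq] at h
  rw [Prod.mk.injEq]
  exact ⟨add_right_cancel h.1, h.2⟩

theorem trT_surj (x : V) : Function.Surjective (trT x) := by
  rintro ⟨a, b⟩
  exact ⟨(a - x, b), by simp [trT]⟩

theorem trE_surj (x : V) (e : Edge) : ∃ f, trE x f = e := by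
  obtain ⟨a, k⟩ := e
  exact ⟨(a - x, k), by simp [trE]⟩

theorem tran (k : ℕ) (x : V) (n R : ℕ) (c : Set Edge) :
    DArm0 c k x n R ↔ DArm0 {e | trE x e ∈ c} k (0, 0) n R := by
  have hp := fun s t => path_map (trT x) (trE x) (trT_inj x) (trT_surj x) (trE_surj x) (tri_tr x)
    (fun e => e ∉ inn (Hx x n) ∧ e ∉ c) s t
  have he : (fun e => (fun e => e ∉ inn (Hx x n) ∧ e ∉ c) (trE x e)) =
      (fun e => e ∉ inn (Hx (0, 0) n) ∧ e ∉ {e | trE x e ∈ c}) := by
    funext e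
    simp only [inn_tr, Set.mem_setOf_eq]
  rw [he] at hp
  constructor
  · rintro ⟨i, hi, t, w, hw, hv, h⟩
    obtain ⟨t', rfl⟩ := trT_surj x t
    refine ⟨i, hi, t', w - x, ?_, ?_, ?_⟩
    · rw [← hx_tr x, sub_add_cancel]
      exact hw
    · rw [← vt_tr x, sub_add_cancel]
      exact hv
    · rw [trT_zero]
      exact (hp _ _).1 h
  · rintro ⟨i, hi, t, w, hw, hv, h⟩
    refine ⟨i, hi, trT x t, w + x, ?_, ?_, ?_⟩
    · rw [hx_tr]
      exact hw
    · rw [vt_tr]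
      exact hv
    · rw [trT_zero] at h
      exact (hp _ _).2 h

theorem rot_surj (v : V) : ∃ u, rot u = v := by
  obtain ⟨a, b⟩ := v
  exact ⟨(b + a, -a), by simp [rot]⟩

theorem rotT_surj : Function.Surjective rotT := by
  rintro ⟨⟨a, b⟩, u⟩
  cases u
  · refine ⟨((b + a + 1, - a - 1), true), ?_⟩
    rw [DROS.rtt]
    simp only [Prod.mk.injEq, and_true]
    omega
  · refine ⟨((b + a, - a - 1), false), ?_⟩
    rw [DROS.rtf]
    simp only [Prod.mk.injEq, and_true]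
    omega

theorem rota (hROS : S_ROS) (k n R : ℕ) (c : Set Edge) :
    DArm0 c (k + 1) (0, 0) n R ↔ DArm0 {e | rotE e ∈ c} k (0, 0) n R := by
  obtain ⟨_, _, _, _, hTi, htri, hVT, hHx, hinn, _, hEs⟩ := hROS
  have himg : (Hx (0, 0) n).image rot = Hx (0, 0) n := by
    ext v
    rw [mem_image]
    constructor
    · rintro ⟨u, hu, rfl⟩
      exact (hHx u n).2 hu
    · intro h
      obtain ⟨u, rfl⟩ := rot_surj v
      exact ⟨u, (hHx u n).1 h, rfl⟩
  have hin : ∀ e : Edge, rotE e ∈ inn (Hx (0, 0) n) ↔ e ∈ inn (Hx (0, 0) n) := by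
    intro e
    have := hinn e (Hx (0, 0) n)
    rwa [himg] at this
  have hp := fun s t => path_map rotT rotE hTi rotT_surj hEs htri
    (fun e => e ∉ inn (Hx (0, 0) n) ∧ e ∉ c) s t
  have he : (fun e => (fun e => e ∉ inn (Hx (0, 0) n) ∧ e ∉ c) (rotE e)) =
      (fun e => e ∉ inn (Hx (0, 0) n) ∧ e ∉ {e | rotE e ∈ c}) := by
    funext e
    simp only [hin, Set.mem_setOf_eq]
  rw [he] at hp
  have ho : ∀ i, outT n (k + 1) i = rotT (outT n k i) := by
    intro i
    unfold outT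
    rw [Function.iterate_succ_apply']
  constructor
  · rintro ⟨i, hi, t, w, hw, hv, h⟩
    obtain ⟨t', rfl⟩ := rotT_surj t
    obtain ⟨w', rfl⟩ := rot_surj w
    refine ⟨i, hi, t', w', ?_, ?_, ?_⟩
    · rw [← hHx]
      exact hw
    · rw [← hVT]
      exact hv
    · rw [trT_zero] at h ⊢
      rw [ho] at h
      exact (hp _ _).1 h
  · rintro ⟨i, hi, t, w, hw, hv, h⟩
    refine ⟨i, hi, rotT t, rot w, ?_, ?_, ?_⟩
    · rw [hHx]
      exact hw
    · rw [hVT]
      exact hv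
    · rw [trT_zero] at h ⊢
      rw [ho]
      exact (hp _ _).2 h

theorem bedge (hROS : S_ROS) (n i : ℕ) (hi : i < n) : ∀ k : ℕ,
    ∃ e ∈ inn (Hx (0, 0) n), e ∈ tri (outT n k i) := by
  obtain ⟨_, _, _, _, hTi, htri, hVT, hHx, hinn, _, hEs⟩ := hROS
  have himg : (Hx (0, 0) n).image rot = Hx (0, 0) n := by
    ext v
    rw [mem_image]
    constructor
    · rintro ⟨u, hu, rfl⟩
      exact (hHx u n).2 hu
    · intro h
      obtain ⟨u, rfl⟩ := rot_surj v
      exact ⟨u, (hHx u n).1 h, rfl⟩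
  intro k
  induction k with
  | zero =>
    refine ⟨(((n : ℤ) - i - 1, (i : ℤ) + 1), 2), ?_, ?_⟩
    · rw [mem_inn, DROS.tip2, mem_Hx, mem_Hx]
      simp only
      omega
    · unfold outT
      rw [Function.iterate_zero, id, DROS.trf]
      exact Or.inl rfl
  | succ k ih =>
    obtain ⟨e, he1, he2⟩ := ih
    refine ⟨rotE e, ?_, ?_⟩
    · rw [← himg]
      exact (hinn e _).2 he1
    · unfold outT
      rw [Function.iterate_succ_apply']
      exact (htri e _).2 he2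

end DARD

open DARD in
theorem p_ARD (hDEX : S_DEX) (hROS : S_ROS) : S_ARD where
  loc := loc
  tran := tran
  rota := rota hROS
  mono := by
    intro x n R m R' c hn hnm hsub hmR' hsub' hex
    obtain ⟨k, hk, i, hi, t, w, hw, hv, h⟩ := hex
    refine hDEX c m R' (0, 0) (trT x (outT n k i)) t w (by omega) hmR' (fun hh => hw (hsub' hh)) hv
      ?_ (Or.inr ?_)
    · exact lift' (p := TStep (fun e => e ∉ c)) (fun u => u) (fun a b hab => by
        obtain ⟨h1, e, ⟨_, h2⟩, h3⟩ := hab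
        exact ⟨h1, e, h2, h3⟩) h
    · obtain ⟨e, he1, he2⟩ := bedge hROS n i hi k
      refine ⟨trE x e, ?_, (tri_tr x e _).2 he2⟩
      have h1 := (inn_tr x e n).2 he1
      rw [mem_inn] at h1 ⊢
      exact ⟨hsub h1.1, hsub h1.2⟩

end CNL
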