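import Pool.Agent.Work.MP_bda6fa_cnl.IC2
set_option autoImplicit false

/-! ARP: the open arms form a family of arm events. -/

namespace CNL
open XorIsing
open scoped Classical
open Finset Relation Filter Topology

namespace DARP

theorem mem_near' {D : Finset V} {e : Edge} (h : e.1 ∈ D ∨ tip e ∈ D) : e ∈ near D := by
  unfold near
  rw [mem_biUnion]
  refine ⟨e.2, mem_univ _, ?_⟩
  rw [mem_union]
  rcases h with h | h
  · left
    exact mem_image.2 ⟨e.1, h, rfl⟩
  · right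
    refine mem_image.2 ⟨tip e, h, ?_⟩
    unfold tip
    simp

theorem exit_path {b b' : Set Edge} {K H : Finset V} (hb : ∀ e ∈ near H, (e ∈ b ↔ e ∈ b')) {v w : V}
    (hw : w ∉ H) (h : PCon b K v w) : ∃ w', w' ∉ H ∧ PCon b' K v w' := by
  unfold PCon at h
  induction h using Relation.ReflTransGen.head_induction_on with
  | refl => exact ⟨w, hw, Relation.ReflTransGen.refl⟩
  | head h1 h2 ih =>
    rename_i a d
    by_cases ha : a ∈ H
    · obtain ⟨w', hw', hp⟩ := ih
      refine ⟨w', hw', Relation.ReflTransGen.head ⟨h1.1, ?_⟩ hp⟩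
      obtain ⟨e, heb, he⟩ := h1.2
      refine ⟨e, (hb e (mem_near' ?_)).1 heb, he⟩
      rcases he with he | he
      · left; rw [he.1]; exact ha
      · right; rw [he.2]; exact ha
    · exact ⟨a, ha, Relation.ReflTransGen.refl⟩

theorem sub00 (v : V) : v - ((0, 0) : V) = v := by
  ext <;> simp

theorem mem_Hx_tr (x v : V) (n : ℕ) : v ∈ Hx x n ↔ v - x ∈ Hx (0, 0) n := by
  rw [mem_Hx, mem_Hx]
  simp only [Prod.fst_sub, Prod.snd_sub]
  omega

theorem tip_trE (x : V) (e : Edge) : tip (trE x e) = tip e + x := by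
  unfold tip trE
  simp only
  abel

theorem BE_tr (x : V) (c : Set Edge) (a d : V) : BE c (a + x) (d + x) ↔ BE {e | trE x e ∈ c} a d := by
  constructor
  · rintro ⟨e, he, h⟩
    refine ⟨trE (-x) e, ?_, ?_⟩
    · show trE x (trE (-x) e) ∈ c
      have : trE x (trE (-x) e) = e := by
        unfold trE
        simp
      rwa [this]
    · rw [tip_trE]
      have h1 : (trE (-x) e).1 = e.1 + -x := rfl
      rw [h1]
      rcases h with h | h
      · left; rw [h.1, h.2]; constructor <;> abel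
      · right; rw [h.1, h.2]; constructor <;> abel
  · rintro ⟨e, he, h⟩
    refine ⟨trE x e, he, ?_⟩
    rw [tip_trE]
    have h1 : (trE x e).1 = e.1 + x := rfl
    rw [h1]
    rcases h with h | h
    · left; rw [h.1, h.2]; exact ⟨rfl, rfl⟩
    · right; rw [h.1, h.2]; exact ⟨rfl, rfl⟩

theorem tran (k : ℕ) (x : V) (n R : ℕ) (c : Set Edge) :
    PArm c k x n R ↔ PArm {e | trE x e ∈ c} k (0, 0) n R := by
  constructor
  · rintro ⟨v, w, h1, h2, h3⟩
    refine ⟨v - x, w - x, by rwa [sub00], by rwa [← mem_Hx_tr], ?_⟩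
    refine Relation.ReflTransGen.lift (fun u => u - x) ?_ _ _ h3
    rintro a d ⟨hd, hb⟩
    refine ⟨by rwa [← mem_Hx_tr], ?_⟩
    rw [← BE_tr]
    simpa using hb
  · rintro ⟨v, w, h1, h2, h3⟩
    refine ⟨v + x, w + x, by simpa [sub00] using h1, by rw [mem_Hx_tr]; simpa using h2, ?_⟩
    refine Relation.ReflTransGen.lift (fun u => u + x) ?_ _ _ h3
    rintro a d ⟨hd, hb⟩
    refine ⟨by rw [mem_Hx_tr]; simpa using hd, ?_⟩
    rw [BE_tr]
    exact hb

theorem Sd_rot (hinj : Function.Injective rot) (n k : ℕ) (v : V) : Sd n (k + 1) (rot v) ↔ Sd n k v := by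
  unfold Sd
  constructor
  · rintro ⟨i, hi, h⟩
    rw [Function.iterate_succ_apply'] at h
    exact ⟨i, hi, hinj h⟩
  · rintro ⟨i, hi, h⟩
    refine ⟨i, hi, ?_⟩
    rw [Function.iterate_succ_apply', ← h]

theorem BE_rot (hROS : S_ROS) (c : Set Edge) (a d : V) :
    BE c (rot a) (rot d) ↔ BE {e | rotE e ∈ c} a d := by
  obtain ⟨_, _, hinj, _, _, _, _, _, _, hend, hsur⟩ := hROS
  constructor
  · rintro ⟨e, he, h⟩
    obtain ⟨f, rfl⟩ := hsur e
    refine ⟨f, he, ?_⟩
    rcases hend f with ⟨g1, g2⟩ | ⟨g1, g2⟩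
    · rw [← g1, ← g2] at h
      rcases h with h | h
      · exact Or.inl ⟨hinj h.1, hinj h.2⟩
      · exact Or.inr ⟨hinj h.1, hinj h.2⟩
    · rw [← g1, ← g2] at h
      rcases h with h | h
      · exact Or.inr ⟨hinj h.2, hinj h.1⟩
      · exact Or.inl ⟨hinj h.2, hinj h.1⟩
  · rintro ⟨e, he, h⟩
    refine ⟨rotE e, he, ?_⟩
    rcases hend e with ⟨g1, g2⟩ | ⟨g1, g2⟩
    · rw [← g1, ← g2]
      rcases h with h | h
      · left; rw [h.1, h.2]; exact ⟨rfl, rfl⟩
      · right; rw [h.1, h.2]; exact ⟨rfl, rfl⟩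
    · rw [← g1, ← g2]
      rcases h with h | h
      · right; rw [h.1, h.2]; exact ⟨rfl, rfl⟩
      · left; rw [h.1, h.2]; exact ⟨rfl, rfl⟩

theorem rota (hROS : S_ROS) (k n R : ℕ) (c : Set Edge) :
    PArm c (k + 1) (0, 0) n R ↔ PArm {e | rotE e ∈ c} k (0, 0) n R := by
  have hBE := BE_rot hROS
  obtain ⟨h6, _, hinj, _, _, _, _, hHx, _, _, _⟩ := hROS
  have hri : ∀ v : V, rot (rot^[5] v) = v := by
    intro v
    have := h6 v
    rwa [Function.iterate_succ_apply' rot 5 v] at this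
  constructor
  · rintro ⟨v, w, h1, h2, h3⟩
    refine ⟨rot^[5] v, rot^[5] w, ?_, ?_, ?_⟩
    · rw [sub00] at h1 ⊢
      rw [← Sd_rot hinj, hri]
      exact h1
    · rw [← hHx, hri]
      exact h2
    · refine Relation.ReflTransGen.lift (fun u => rot^[5] u) ?_ _ _ h3
      rintro a d ⟨hd, hb⟩
      refine ⟨?_, ?_⟩
      · rw [← hHx, hri]
        exact hd
      · rw [← hBE, hri, hri]
        exact hb
  · rintro ⟨v, w, h1, h2, h3⟩
    refine ⟨rot v, rot w, ?_, ?_, ?_⟩
    · rw [sub00] at h1 ⊢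
      rw [Sd_rot hinj]
      exact h1
    · rw [hHx]
      exact h2
    · refine Relation.ReflTransGen.lift rot ?_ _ _ h3
      rintro a d ⟨hd, hb⟩
      refine ⟨?_, ?_⟩
      · rw [hHx]
        exact hd
      · rw [hBE]
        exact hb

theorem Sd_mem (hROS : S_ROS) (n k : ℕ) (v : V) (h : Sd n k v) : v ∈ Hx (0, 0) n := by
  obtain ⟨_, _, _, _, _, _, _, hHx, _, _, _⟩ := hROS
  obtain ⟨i, hi, rfl⟩ := h
  induction k with
  | zero =>
    rw [mem_Hx]
    simp only [Function.iterate_zero, id]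
    omega
  | succ k ih =>
    rw [Function.iterate_succ_apply', hHx]
    exact ih

end DARP

open DARP in
theorem p_ARP (hPEX : S_PEX) (hROS : S_ROS) : S_ARP := by
  refine ⟨?_, ?_, ?_, ?_⟩
  · intro k x n R
    refine ⟨near (Hx x R), fun c c' hc => ⟨?_, ?_⟩⟩
    · rintro ⟨v, w, h1, h2, h3⟩
      obtain ⟨w', hw', hp⟩ := exit_path hc h2 h3
      exact ⟨v, w', h1, hw', hp⟩
    · rintro ⟨v, w, h1, h2, h3⟩
      obtain ⟨w', hw', hp⟩ := exit_path (fun e he => (hc e he).symm) h2 h3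
      exact ⟨v, w', h1, hw', hp⟩
  · exact tran
  · exact rota hROS
  · rintro x n R m R' c hn hnm hsub hmR hR ⟨k, _, v, w, h1, h2, h3⟩
    refine hPEX c m R' (0, 0) v w (hn.trans hnm) hmR (fun h => h2 (hR h)) ?_ ?_
    · apply hsub
      rw [mem_Hx_tr]
      exact Sd_mem hROS n k _ h1
    · exact Relation.ReflTransGen.mono (fun a d h => h.2) _ _ h3

end CNL
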