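import Pool.Agent.Work.MP_bda6fa_cnl.IC2
set_option autoImplicit false

/-! Block D_ASD (typed by helper16): arms of the complement. -/

namespace CNL
open XorIsing
open scoped Classical
open Finset Relation Filter Topology

theorem p_ASD (hASP : S_ASP) : S_ASD where
  loc := by
    intro k x n R
    obtain ⟨F, hF⟩ := hASP.loc k x n R
    refine ⟨F, fun c c' h => hF cᶜ c'ᶜ fun e he => ?_⟩
    exact not_congr (h e he)
  tran := by
    intro k x n R c
    exact hASP.tran k x n R cᶜ
  rota := by
    intro k n R c
    exact hASP.rota k n R cᶜ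
  mono := by
    intro x n R m R' c h1 h2 h3 h4 h5 h6
    exact hASP.mono x n R m R' cᶜ h1 h2 h3 h4 h5 h6

end CNL
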