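import Pool.Agent.Work.MP_bda6fa_cnl.IC2
set_option autoImplicit false

namespace CNL
open XorIsing
open scoped Classical
open Finset Relation Filter Topology

namespace DASP

theorem adj_iff {u v : V} : Adj u v ↔ (v.1 = u.1 + 1 ∧ v.2 = u.2) ∨ (v.1 = u.1 - 1 ∧ v.2 = u.2) ∨
    (v.1 = u.1 ∧ v.2 = u.2 + 1) ∨ (v.1 = u.1 ∧ v.2 = u.2 - 1) ∨ (v.1 = u.1 + 1 ∧ v.2 = u.2 - 1) ∨
    (v.1 = u.1 - 1 ∧ v.2 = u.2 + 1) := by
  obtain ⟨a, b⟩ := u
  obtain ⟨c, d⟩ := v
  constructor
  · rintro ⟨k, h | h⟩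
    · fin_cases k <;> simp [dir, Prod.ext_iff] at h ⊢ <;> omega
    · fin_cases k <;> simp [dir, Prod.ext_iff] at h ⊢ <;> omega
  · rintro (h | h | h | h | h | h)
    · exact ⟨0, Or.inl (Prod.ext (by simp [dir]; omega) (by simp [dir]; omega))⟩
    · exact ⟨0, Or.inr (Prod.ext (by simp [dir]; omega) (by simp [dir]; omega))⟩
    · exact ⟨1, Or.inl (Prod.ext (by simp [dir]; omega) (by simp [dir]; omega))⟩
    · exact ⟨1, Or.inr (Prod.ext (by simp [dir]; omega) (by simp [dir]; omega))⟩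
    · exact ⟨2, Or.inl (Prod.ext (by simp [dir]; omega) (by simp [dir]; omega))⟩
    · exact ⟨2, Or.inr (Prod.ext (by simp [dir]; omega) (by simp [dir]; omega))⟩

def roti (v : V) : V := (v.1 + v.2, -v.1)

theorem roti_rot (v : V) : roti (rot v) = v := Prod.ext (by simp [roti, rot]) (by simp [roti, rot])
theorem rot_roti (v : V) : rot (roti v) = v := Prod.ext (by simp [roti, rot]) (by simp [roti, rot])

theorem adj_rot {u v : V} : Adj (rot u) (rot v) ↔ Adj u v := by
  rw [adj_iff, adj_iff]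
  simp only [rot]
  omega

theorem adj_roti {u v : V} (h : Adj u v) : Adj (roti u) (roti v) := by
  rw [← adj_rot, rot_roti, rot_roti]
  exact h

theorem hx_rot {v : V} {n : ℕ} : rot v ∈ Hx (0, 0) n ↔ v ∈ Hx (0, 0) n := by
  rw [mem_Hx, mem_Hx]
  simp only [rot]
  omega

theorem sd_mem {n k : ℕ} {v : V} (h : Sd n k v) : v ∈ Hx (0, 0) n := by
  obtain ⟨i, hi, rfl⟩ := h
  induction k with
  | zero =>
    simp only [Function.iterate_zero, id_eq]
    rw [mem_Hx]
    simp only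
    omega
  | succ k ih =>
    rw [Function.iterate_succ_apply', hx_rot]
    exact ih

theorem sd_succ {n k : ℕ} {v : V} : Sd n (k + 1) (rot v) ↔ Sd n k v := by
  constructor
  · rintro ⟨i, hi, h⟩
    refine ⟨i, hi, ?_⟩
    rw [Function.iterate_succ_apply'] at h
    have := congrArg roti h
    rwa [roti_rot, roti_rot] at this
  · rintro ⟨i, hi, rfl⟩
    refine ⟨i, hi, ?_⟩
    rw [Function.iterate_succ_apply']

theorem hx_sub {x v : V} {n : ℕ} : v - x ∈ Hx (0, 0) n ↔ v ∈ Hx x n := by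
  rw [mem_Hx, mem_Hx]
  simp only [Prod.fst_sub, Prod.snd_sub]
  omega

theorem locA (k : ℕ) (x : V) (n R : ℕ) : Loc (fun c : Set V => SArm c k x n R) := by
  refine ⟨Hx x (max (n + 1) R + 1), ?_⟩
  have key : ∀ c c' : Set V, (∀ e ∈ Hx x (max (n + 1) R + 1), (e ∈ c ↔ e ∈ c')) → SArm c k x n R → SArm c' k x n R := by
    rintro c c' hcc ⟨u, w, hu, huc, hw, hp⟩
    have hmem : ∀ v : V, v ∈ Hx x (max (n + 1) R) → v ∈ Hx x (max (n + 1) R + 1) := by
      intro v hv
      rw [mem_Hx] at hv ⊢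
      push_cast at hv ⊢
      omega
    have hR : ∀ v : V, v ∈ Hx x (R + 1) → v ∈ Hx x (max (n + 1) R + 1) := by
      intro v hv
      rw [mem_Hx] at hv ⊢
      push_cast at hv ⊢
      omega
    have hu1 : u ∈ Hx x (max (n + 1) R + 1) := by
      have h1 := hx_sub.1 (sd_mem hu)
      rw [mem_Hx] at h1 ⊢
      push_cast at h1 ⊢
      omega
    have hstep : ∀ a d : V, Adj a d → a ∈ Hx x R → d ∈ Hx x (R + 1) := by
      intro a d had ha
      rw [adj_iff] at had
      rw [mem_Hx] at ha ⊢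
      push_cast at ha ⊢
      omega
    have main : ∀ a, ReflTransGen (fun a d => d ∈ c ∧ d ∉ Hx x n ∧ Adj a d) a w → 
        ∃ w', w' ∉ Hx x R ∧ ReflTransGen (fun a d => d ∈ c' ∧ d ∉ Hx x n ∧ Adj a d) a w' := by
      intro a ha
      induction ha using ReflTransGen.head_induction_on with
      | refl => exact ⟨w, hw, ReflTransGen.refl⟩
      | @head a d had hrest ih =>
        by_cases haR : a ∈ Hx x R
        · obtain ⟨w', hw', hp'⟩ := ih
          have h1 := hstep _ _ had.2.2 haR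
          exact ⟨w', hw', ReflTransGen.head ⟨(hcc d (hR d h1)).1 had.1, had.2.1, had.2.2⟩ hp'⟩
        · exact ⟨a, haR, ReflTransGen.refl⟩
    obtain ⟨w', hw', hp'⟩ := main u hp
    exact ⟨u, w', hu, (hcc u hu1).1 huc, hw', hp'⟩
  intro c c' hcc
  exact ⟨key c c' hcc, key c' c (fun e he => (hcc e he).symm)⟩

theorem tranA (k : ℕ) (x : V) (n R : ℕ) (c : Set V) : SArm c k x n R ↔ SArm {e | e + x ∈ c} k (0, 0) n R := by
  constructor
  · rintro ⟨u, w, hu, huc, hw, hp⟩
    refine ⟨u - x, w - x, ?_, ?_, ?_, ?_⟩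
    · have : u - x - ((0, 0) : V) = u - x := by
        show u - x - 0 = u - x
        rw [sub_zero]
      rw [this]
      exact hu
    · show u - x + x ∈ c
      rw [sub_add_cancel]
      exact huc
    · rw [hx_sub]
      exact hw
    · refine hp.lift (fun v => v - x) ?_
      rintro a d ⟨h1, h2, h3⟩
      refine ⟨?_, ?_, ?_⟩
      · show d - x + x ∈ c
        rw [sub_add_cancel]
        exact h1
      · rw [hx_sub]
        exact h2
      · rw [adj_iff] at h3 ⊢
        simp only [Prod.fst_sub, Prod.snd_sub]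
        omega
  · rintro ⟨u, w, hu, huc, hw, hp⟩
    have hs : ∀ v : V, v + x - x = v := fun v => add_sub_cancel_right v x
    refine ⟨u + x, w + x, ?_, huc, ?_, ?_⟩
    · rw [hs]
      have : u - ((0, 0) : V) = u := by
        show u - 0 = u
        rw [sub_zero]
      rw [this] at hu
      exact hu
    · rw [← hx_sub, hs]
      exact hw
    · refine hp.lift (fun v => v + x) ?_
      rintro a d ⟨h1, h2, h3⟩
      refine ⟨h1, ?_, ?_⟩
      · rw [← hx_sub, hs]
        exact h2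
      · rw [adj_iff] at h3 ⊢
        simp only [Prod.fst_add, Prod.snd_add]
        omega

theorem rotaA (k n R : ℕ) (c : Set V) : SArm c (k + 1) (0, 0) n R ↔ SArm {e | rot e ∈ c} k (0, 0) n R := by
  have h0 : ∀ u : V, u - ((0, 0) : V) = u := fun u => by
    show u - 0 = u
    rw [sub_zero]
  constructor
  · rintro ⟨u, w, hu, huc, hw, hp⟩
    refine ⟨roti u, roti w, ?_, ?_, ?_, ?_⟩
    · rw [h0] at hu ⊢
      rw [← sd_succ, rot_roti]
      exact hu
    · show rot (roti u) ∈ c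
      rw [rot_roti]
      exact huc
    · rw [← hx_rot, rot_roti]
      exact hw
    · refine hp.lift roti ?_
      rintro a d ⟨h1, h2, h3⟩
      refine ⟨?_, ?_, adj_roti h3⟩
      · show rot (roti d) ∈ c
        rw [rot_roti]
        exact h1
      · rw [← hx_rot, rot_roti]
        exact h2
  · rintro ⟨u, w, hu, huc, hw, hp⟩
    refine ⟨rot u, rot w, ?_, huc, ?_, ?_⟩
    · rw [h0] at hu ⊢
      rw [sd_succ]
      exact hu
    · rw [hx_rot]
      exact hw
    · refine hp.lift rot ?_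
      rintro a d ⟨h1, h2, h3⟩
      refine ⟨h1, ?_, adj_rot.2 h3⟩
      rw [hx_rot]
      exact h2

theorem monoA (hRNG : S_RNG) (x : V) (n R m R' : ℕ) (c : Set V) (h1n : 1 ≤ n) (hnm : n ≤ m) (hsub : Hx x n ⊆ Hx (0, 0) m)
    (hmR : m < R') (hsub2 : Hx (0, 0) R' ⊆ Hx x R) (h : ∃ k < 6, SArm c k x n R) : ∃ k < 6, SArm c k (0, 0) m R' := by
  obtain ⟨k, hk, u, w, hu, huc, hw, hp⟩ := h
  have hw' : w ∉ Hx (0, 0) R' := fun h => hw (hsub2 h)
  have hwm : w ∉ Hx (0, 0) m := by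
    intro h
    apply hw'
    rw [mem_Hx] at h ⊢
    have : (m : ℤ) < R' := by exact_mod_cast hmR
    omega
  have main : ∀ a, ReflTransGen (fun a d => d ∈ c ∧ d ∉ Hx x n ∧ Adj a d) a w →
      (∃ u', u' ∈ c ∧ u' ∈ Hx (0, 0) (m + 1) ∧ u' ∉ Hx (0, 0) m ∧
        ReflTransGen (fun a d => d ∈ c ∧ d ∉ Hx (0, 0) m ∧ Adj a d) u' w) ∨
      (a ∉ Hx (0, 0) m ∧ ReflTransGen (fun a d => d ∈ c ∧ d ∉ Hx (0, 0) m ∧ Adj a d) a w) := by
    intro a ha
    induction ha using ReflTransGen.head_induction_on with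
    | refl => exact Or.inr ⟨hwm, ReflTransGen.refl⟩
    | @head a d had hrest ih =>
      rcases ih with h1 | ⟨h1, h2⟩
      · exact Or.inl h1
      · by_cases ham : a ∈ Hx (0, 0) m
        · refine Or.inl ⟨d, had.1, ?_, h1, h2⟩
          have h3 := had.2.2
          rw [adj_iff] at h3
          rw [mem_Hx] at ham ⊢
          push_cast at ham ⊢
          omega
        · exact Or.inr ⟨ham, ReflTransGen.head ⟨had.1, h1, had.2.2⟩ h2⟩
  have h0 : ∀ u : V, u - ((0, 0) : V) = u := fun u => by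
    show u - 0 = u
    rw [sub_zero]
  have hex : ∃ u', u' ∈ c ∧ u' ∈ Hx (0, 0) (m + 1) ∧ u' ∉ Hx (0, 0) m ∧
        ReflTransGen (fun a d => d ∈ c ∧ d ∉ Hx (0, 0) m ∧ Adj a d) u' w := by
    rcases main u hp with h1 | ⟨h1, h2⟩
    · exact h1
    · refine ⟨u, huc, ?_, h1, h2⟩
      have h3 := hx_sub.1 (sd_mem hu)
      have c1 := hsub (show x + ((n : ℤ), (0 : ℤ)) ∈ Hx x n by rw [mem_Hx]; simp only [Prod.fst_add, Prod.snd_add]; omega)
      have c2 := hsub (show x + (-(n : ℤ), (0 : ℤ)) ∈ Hx x n by rw [mem_Hx]; simp only [Prod.fst_add, Prod.snd_add]; omega)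
      have c3 := hsub (show x + ((0 : ℤ), (n : ℤ)) ∈ Hx x n by rw [mem_Hx]; simp only [Prod.fst_add, Prod.snd_add]; omega)
      have c4 := hsub (show x + ((0 : ℤ), -(n : ℤ)) ∈ Hx x n by rw [mem_Hx]; simp only [Prod.fst_add, Prod.snd_add]; omega)
      rw [mem_Hx] at c1 c2 c3 c4 h3 ⊢
      simp only [Prod.fst_add, Prod.snd_add] at c1 c2 c3 c4
      push_cast at h3 ⊢
      omega
  obtain ⟨u', h1, h2, h3, h4⟩ := hex
  obtain ⟨k', hk', hs⟩ := hRNG (m + 1) (0, 0) u' (by omega) h2 (by simpa using h3)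
  exact ⟨k', hk', u', w, hs, h1, hw', h4⟩

end DASP

theorem p_ASP (hRNG : S_RNG) : S_ASP where
  loc := DASP.locA
  tran := DASP.tranA
  rota := DASP.rotaA
  mono := fun x n R m R' c h1 h2 h3 h4 h5 h6 => DASP.monoA hRNG x n R m R' c h1 h2 h3 h4 h5 h6

end CNL
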