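import Pool.Agent.Work.MP_bda6fa_cnl.IC3

/-! Block CCS: translates of domains with connected complement (helper85). -/

set_option autoImplicit false

namespace XorIsing
open scoped Classical
open Finset

namespace DCCS

theorem mem (D : Finset V) (y u : V) : u ∈ shift y D ↔ u - y ∈ D := by
  unfold shift
  rw [mem_image]
  constructor
  · rintro ⟨a, ha, rfl⟩
    rwa [add_sub_cancel_right]
  · intro h
    exact ⟨u - y, h, sub_add_cancel u y⟩

theorem adj (a b y : V) (h : Adj a b) : Adj (a + y) (b + y) := by
  obtain ⟨k, h | h⟩ := h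
  · exact ⟨k, Or.inl (by rw [h]; exact add_right_comm _ _ _)⟩
  · exact ⟨k, Or.inr (by rw [h]; exact add_right_comm _ _ _)⟩

end DCCS

theorem p_CCS : S_CCS := by
  intro D y hD u v hu hv
  rw [DCCS.mem] at hu hv
  have h1 := hD (u - y) (v - y) hu hv
  have h2 : Relation.ReflTransGen (fun a b => b ∉ shift y D ∧ Adj a b) (u - y + y) (v - y + y) := by
    refine h1.lift (fun a => a + y) ?_
    rintro a b ⟨hb, hab⟩
    refine ⟨?_, DCCS.adj a b y hab⟩
    rw [DCCS.mem, add_sub_cancel_right]
    exact hb
  rwa [sub_add_cancel, sub_add_cancel] at h2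

end XorIsing
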