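import Pool.Agent.Work.MP_bda6fa_cnl.IC2
set_option autoImplicit false

/-! DEX: last exit of a dual path. -/

namespace CNL
open XorIsing
open scoped Classical
open Finset Relation Filter Topology

namespace DDEX

theorem tri_VT {t : V × Bool} {e : Edge} (he : e ∈ tri t) : VT e.1 t ∧ VT (tip e) t := by
  obtain ⟨⟨a, b⟩, s⟩ := t
  cases s
  · simp only [tri, Bool.false_eq_true, if_false, mem_insert, mem_singleton] at he
    rcases he with rfl | rfl | rfl <;>
      simp [VT, tip, dir]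
  · simp only [tri, if_true, mem_insert, mem_singleton] at he
    rcases he with rfl | rfl | rfl <;>
      simp [VT, tip, dir]

theorem tri_ne (t : V × Bool) : ∃ e, e ∈ tri t := by
  obtain ⟨v, s⟩ := t
  cases s
  · exact ⟨(v + (0, 1), 2), by simp [tri]⟩
  · exact ⟨(v, 0), by simp [tri]⟩

theorem Hx_mono {x : V} {n R : ℕ} (h : n ≤ R) : Hx x n ⊆ Hx x R := by
  intro v hv
  rw [mem_Hx] at hv ⊢
  omega

end DDEX

open DDEX in
theorem p_DEX (hOUTT : S_OUTT) : S_DEX := by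
  intro b n R x t t' w h1 hnR hw hwt hpath hgood
  have hG : ∃ e ∈ inn (Hx x n), e ∈ tri t := by
    rcases hgood with h | h
    · obtain ⟨e, he⟩ := tri_ne t
      have := tri_VT he
      exact ⟨e, mem_inn.2 ⟨h _ this.1, h _ this.2⟩, he⟩
    · exact h
  have key : (∃ s, (∃ e ∈ inn (Hx x n), e ∈ tri s) ∧
        ReflTransGen (TStep (fun e => e ∉ inn (Hx x n) ∧ e ∉ b)) s t') ∨
      ((¬ ∃ e ∈ inn (Hx x n), e ∈ tri t) ∧ ReflTransGen (TStep (fun e => e ∉ inn (Hx x n) ∧ e ∉ b)) t t') := by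
    clear hG hgood
    induction hpath using ReflTransGen.head_induction_on with
    | refl =>
      by_cases h : ∃ e ∈ inn (Hx x n), e ∈ tri t'
      · exact Or.inl ⟨t', h, ReflTransGen.refl⟩
      · exact Or.inr ⟨h, ReflTransGen.refl⟩
    | @head a c hac _ ih =>
      rcases ih with h | ⟨h, hp⟩
      · exact Or.inl h
      · have hstep : TStep (fun e => e ∉ inn (Hx x n) ∧ e ∉ b) a c := by
          obtain ⟨hne, e, he, h2, h3⟩ := hac
          exact ⟨hne, e, ⟨fun h4 => h ⟨e, h4, h3⟩, he⟩, h2, h3⟩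
        have hp' := ReflTransGen.head hstep hp
        by_cases h4 : ∃ e ∈ inn (Hx x n), e ∈ tri a
        · exact Or.inl ⟨a, h4, hp'⟩
        · exact Or.inr ⟨h4, hp'⟩
  obtain ⟨s, ⟨e0, he0, he0s⟩, hsp⟩ : ∃ s, (∃ e ∈ inn (Hx x n), e ∈ tri s) ∧
        ReflTransGen (TStep (fun e => e ∉ inn (Hx x n) ∧ e ∉ b)) s t' := by
    rcases key with h | h
    · exact h
    · exact absurd hG h.1
  have hout : ∃ v, VT v s ∧ v ∉ Hx x n := by
    rcases ReflTransGen.cases_head hsp with h | ⟨c, hsc, _⟩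
    · subst h
      exact ⟨w, hwt, fun h => hw (Hx_mono hnR.le h)⟩
    · obtain ⟨_, e, ⟨he, _⟩, hes, _⟩ := hsc
      have hv := tri_VT hes
      by_cases h2 : e.1 ∈ Hx x n
      · refine ⟨tip e, hv.2, fun h3 => he (mem_inn.2 ⟨h2, h3⟩)⟩
      · exact ⟨e.1, hv.1, h2⟩
  obtain ⟨k, hk, i, hi, hs⟩ := hOUTT n x s e0 h1 he0 he0s hout
  refine ⟨k, hk, i, hi, t', w, hw, hwt, ?_⟩
  rw [← hs]
  exact hsp

end CNL
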