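import Pool.Agent.Work.MP_bda6fa_cnl.IC2
set_option autoImplicit false

namespace CNL
open XorIsing
open scoped Classical
open Finset Relation Filter Topology

namespace DDEXx

theorem vt_tri {e : Edge} {t : V × Bool} (h : e ∈ tri t) : VT e.1 t ∧ VT (tip e) t := by
  obtain ⟨u, b⟩ := t
  cases b
  · unfold tri at h
    rw [if_neg (by simp)] at h
    simp only [mem_insert, mem_singleton] at h
    unfold VT tip
    rw [if_neg (by simp), if_neg (by simp)]
    rcases h with rfl | rfl | rfl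
    · refine ⟨Or.inr (Or.inl rfl), Or.inl ?_⟩
      simp only [dir, Prod.ext_iff, Prod.fst_add, Prod.snd_add]
      constructor <;> simp
    · refine ⟨Or.inr (Or.inl rfl), Or.inr (Or.inr ?_)⟩
      simp only [dir, Prod.ext_iff, Prod.fst_add, Prod.snd_add]
      constructor <;> simp
    · refine ⟨Or.inl rfl, Or.inr (Or.inr ?_)⟩
      simp only [dir, Prod.ext_iff, Prod.fst_add, Prod.snd_add]
      constructor <;> simp
  · unfold tri at h
    rw [if_pos (by simp)] at h
    simp only [mem_insert, mem_singleton] at h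
    unfold VT tip
    rw [if_pos (by simp), if_pos (by simp)]
    rcases h with rfl | rfl | rfl
    · refine ⟨Or.inl rfl, Or.inr (Or.inl ?_)⟩
      simp only [dir, Prod.ext_iff, Prod.fst_add, Prod.snd_add]
      constructor <;> simp
    · refine ⟨Or.inl rfl, Or.inr (Or.inr ?_)⟩
      simp only [dir, Prod.ext_iff, Prod.fst_add, Prod.snd_add]
      constructor <;> simp
    · refine ⟨Or.inr (Or.inr rfl), Or.inr (Or.inl ?_)⟩
      simp only [dir, Prod.ext_iff, Prod.fst_add, Prod.snd_add]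
      constructor <;> simp

theorem exists_edge (t : V × Bool) : ∃ e, e ∈ tri t := by
  obtain ⟨u, b⟩ := t
  cases b
  · exact ⟨(u + (0, 1), 2), by unfold tri; simp⟩
  · exact ⟨(u, 0), by unfold tri; simp⟩

theorem Hx_mono {x : V} {m n : ℕ} (h : m ≤ n) : Hx x m ⊆ Hx x n := by
  intro v hv
  rw [mem_Hx] at hv ⊢
  have : (m : ℤ) ≤ n := by exact_mod_cast h
  omega

theorem inside_inn {K : Finset V} {t : V × Bool} (h : ∀ v, VT v t → v ∈ K) {e : Edge}
    (he : e ∈ tri t) : e ∈ inn K :=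
  mem_inn.2 ⟨h _ (vt_tri he).1, h _ (vt_tri he).2⟩

end DDEXx

theorem p_DEXx (hOUTT : S_OUTT) : S_DEX := by
  intro b n R x t t' w hn hnR hw hwt' hpath hgood
  set K := Hx x n with hK
  have hwK : w ∉ K := fun h => hw (DDEXx.Hx_mono hnR.le h)
  have key : (∃ s, (∃ e ∈ inn K, e ∈ tri s) ∧ (∃ v, VT v s ∧ v ∉ K) ∧
      ReflTransGen (TStep (fun e => e ∉ inn K ∧ e ∉ b)) s t') ∨
      ((¬ ∃ e ∈ inn K, e ∈ tri t) ∧
        ReflTransGen (TStep (fun e => e ∉ inn K ∧ e ∉ b)) t t') := by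
    clear hgood
    induction hpath using ReflTransGen.head_induction_on with
    | refl =>
      by_cases hg : ∃ e ∈ inn K, e ∈ tri t'
      · exact Or.inl ⟨t', hg, ⟨w, hwt', hwK⟩, ReflTransGen.refl⟩
      · exact Or.inr ⟨hg, ReflTransGen.refl⟩
    | @head a c hac _ ih =>
      rcases ih with h | ⟨h1, h2⟩
      · exact Or.inl h
      · obtain ⟨hne, e, heb, hea, hec⟩ := hac
        have hei : e ∉ inn K := fun h => h1 ⟨e, h, hec⟩
        have hstep : ReflTransGen (TStep (fun e => e ∉ inn K ∧ e ∉ b)) a t' :=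
          ReflTransGen.head ⟨hne, e, ⟨hei, heb⟩, hea, hec⟩ h2
        by_cases hg : ∃ e ∈ inn K, e ∈ tri a
        · refine Or.inl ⟨a, hg, ?_, hstep⟩
          by_contra hcon
          push Not at hcon
          exact hei (DDEXx.inside_inn hcon hea)
        · exact Or.inr ⟨hg, hstep⟩
  have hg : ∃ e ∈ inn K, e ∈ tri t := by
    rcases hgood with h | h
    · obtain ⟨e, he⟩ := DDEXx.exists_edge t
      exact ⟨e, DDEXx.inside_inn h he, he⟩
    · exact h
  rcases key with ⟨s, ⟨e, he1, he2⟩, hs, hp⟩ | ⟨h1, _⟩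
  · obtain ⟨k, hk, i, hi, hsi⟩ := hOUTT n x s e hn he1 he2 hs
    refine ⟨k, hk, i, hi, t', w, hw, hwt', ?_⟩
    rw [← hsi]
    exact hp
  · exact absurd hg h1

end CNL
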