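import Pool.Agent.Work.MP_bda6fa_cnl.IC2
import Pool.Agent.Work.MP_bda6fa_nest.FACT
set_option autoImplicit false

/-! DOMF: conditionally on the outside of H, the model in H dominates the free model. -/

namespace CNL
open XorIsing
open scoped Classical
open Finset Relation Filter Topology

noncomputable section

namespace DDOMF

theorem inn_mono {H D : Finset V} (h : H ⊆ D) : inn H ⊆ inn D := fun e he => by
  rw [mem_inn] at he ⊢
  exact ⟨h he.1, h he.2⟩

theorem fw_pos (β : ℝ) (hβ : 0 < β) (D : Finset V) (c : Finset Edge) : 0 < fw β D c := by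
  unfold fw
  have h1 : 1 < Real.exp (2 * β) := by
    rw [Real.one_lt_exp_iff]
    linarith
  have h2 : 0 < Real.exp (2 * β) - 1 := by linarith
  positivity

theorem card_eq {H D : Finset V} (hHD : H ⊆ D) {a : Finset Edge} (ha : a ⊆ inn H) :
    (compat D a).card = (compat H a).card * 2 ^ (D \ H).card := by
  rw [← card_powerset, ← card_product]
  refine card_nbij' (fun M => (M ∩ H, M \ H)) (fun p => p.1 ∪ p.2) ?_ ?_ ?_ ?_
  · intro M hM
    rw [mem_coe, mem_compat] at hM
    rw [mem_coe, mem_product, mem_compat, mem_powerset]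
    refine ⟨⟨inter_subset_right, fun e he => ?_⟩, ?_⟩
    · have h1 := mem_inn.1 (ha he)
      have h2 := hM.2 e he
      rw [mem_inter, mem_inter]
      tauto
    · intro v hv
      have hv' := Finset.mem_sdiff.1 hv
      exact Finset.mem_sdiff.2 ⟨hM.1 hv'.1, hv'.2⟩
  · intro p hp
    rw [mem_coe, mem_product, mem_compat, mem_powerset] at hp
    rw [mem_coe, mem_compat]
    obtain ⟨⟨h1, h2⟩, h3⟩ := hp
    refine ⟨union_subset (h1.trans hHD) (h3.trans sdiff_subset), fun e he => ?_⟩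
    have h4 := mem_inn.1 (ha he)
    have h5 := h2 e he
    have h6 : e.1 ∉ p.2 := fun h => (Finset.mem_sdiff.1 (h3 h)).2 h4.1
    have h7 : tip e ∉ p.2 := fun h => (Finset.mem_sdiff.1 (h3 h)).2 h4.2
    rw [mem_union, mem_union]
    tauto
  · intro M _
    show M ∩ H ∪ M \ H = M
    ext v
    rw [mem_union, mem_inter, Finset.mem_sdiff]
    tauto
  · intro p hp
    rw [mem_coe, mem_product, mem_compat, mem_powerset] at hp
    obtain ⟨⟨h1, _⟩, h3⟩ := hp
    have e1 : (p.1 ∪ p.2) ∩ H = p.1 := by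
      ext v
      rw [mem_inter, mem_union]
      constructor
      · rintro ⟨h4 | h4, h5⟩
        · exact h4
        · exact absurd h5 (Finset.mem_sdiff.1 (h3 h4)).2
      · intro h4
        exact ⟨Or.inl h4, h1 h4⟩
    have e2 : (p.1 ∪ p.2) \ H = p.2 := by
      ext v
      rw [Finset.mem_sdiff, mem_union]
      constructor
      · rintro ⟨h4 | h4, h5⟩
        · exact absurd (h1 h4) h5
        · exact h4
      · intro h4
        exact ⟨Or.inr h4, (Finset.mem_sdiff.1 (h3 h4)).2⟩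
    show ((p.1 ∪ p.2) ∩ H, (p.1 ∪ p.2) \ H) = p
    rw [e1, e2]

theorem fw_eq (β : ℝ) {H D : Finset V} (hHD : H ⊆ D) {a : Finset Edge} (ha : a ⊆ inn H) :
    fw β D a = fw β H a * 2 ^ (D \ H).card := by
  have h := card_eq hHD ha
  rw [card_compat, card_compat] at h
  unfold fw
  have h2 : (2 : ℝ) ^ (fclusters D a).card = 2 ^ (fclusters H a).card * 2 ^ (D \ H).card := by
    exact_mod_cast h
  rw [h2]
  ring

theorem holley (hFKGV : S_FKGV) (hLATF : S_LATF) (β : ℝ) (hβ : 0 < β) (H D : Finset V)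
    (hHD : H ⊆ D) (f : Finset Edge → ℝ) (hf : ∀ c c', c ⊆ c' → c' ⊆ inn H → f c ≤ f c')
    (ξ : Finset Edge) (hξ : ξ ⊆ inn D \ inn H) :
    (∑ a ∈ (inn H).powerset, fw β H a * f a) * (∑ a ∈ (inn H).powerset, fw β D (a ∪ ξ)) ≤
      (∑ a ∈ (inn H).powerset, fw β H a) * ∑ a ∈ (inn H).powerset, fw β D (a ∪ ξ) * f a := by
  have hT : 0 < ∑ a ∈ (inn H).powerset, fw β H a :=
    sum_pos (fun c _ => fw_pos β hβ H c) ⟨∅, empty_mem_powerset _⟩
  have hmono : ∀ c c', c ⊆ c' → c' ⊆ inn H →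
      fw β D (c ∪ ξ) / fw β H c ≤ fw β D (c' ∪ ξ) / fw β H c' := by
    intro c c' hcc hc'
    rw [div_le_div_iff₀ (fw_pos β hβ H c) (fw_pos β hβ H c')]
    have hξD : ξ ⊆ inn D := hξ.trans sdiff_subset
    have hc'D : c' ⊆ inn D := hc'.trans (inn_mono hHD)
    have h1 := hLATF β D (c ∪ ξ) c' hβ.le (union_subset ((hcc.trans hc').trans (inn_mono hHD)) hξD)
      hc'D
    have e1 : (c ∪ ξ) ∪ c' = c' ∪ ξ := by
      ext e
      rw [mem_union, mem_union, mem_union]
      constructor
      · rintro ((h | h) | h)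
        · exact Or.inl (hcc h)
        · exact Or.inr h
        · exact Or.inl h
      · rintro (h | h)
        · exact Or.inr h
        · exact Or.inl (Or.inr h)
    have e2 : (c ∪ ξ) ∩ c' = c := by
      ext e
      rw [mem_inter, mem_union]
      constructor
      · rintro ⟨h | h, h2⟩
        · exact h
        · exact absurd (hc' h2) (Finset.mem_sdiff.1 (hξ h)).2
      · intro h
        exact ⟨Or.inl h, hcc h⟩
    rw [e1, e2, fw_eq β hHD hc', fw_eq β hHD (hcc.trans hc')] at h1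
    have h2 : (0 : ℝ) < 2 ^ (D \ H).card := by positivity
    nlinarith
  have key := hFKGV Edge inn (fw β) H (fun c _ => fw_pos β hβ H c)
    (fun c d hc hd => hLATF β H c d hβ.le hc hd) f (fun c => fw β D (c ∪ ξ) / fw β H c) hf hmono
  unfold EV TW at key
  have e3 : ∑ c ∈ (inn H).powerset, fw β H c * (fw β D (c ∪ ξ) / fw β H c) =
      ∑ a ∈ (inn H).powerset, fw β D (a ∪ ξ) := by
    refine sum_congr rfl fun c _ => ?_
    exact mul_div_cancel₀ _ (fw_pos β hβ H c).ne'
  have e4 : ∑ c ∈ (inn H).powerset, fw β H c * (f c * (fw β D (c ∪ ξ) / fw β H c)) =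
      ∑ a ∈ (inn H).powerset, fw β D (a ∪ ξ) * f a := by
    refine sum_congr rfl fun c _ => ?_
    have := (fw_pos β hβ H c).ne'
    field_simp
  rw [e3, e4, div_mul_div_comm, div_le_div_iff₀ (by positivity) hT] at key
  nlinarith

end DDOMF

theorem p_DOMF (hFKGV : S_FKGV) (hLATF : S_LATF) : S_DOMF := by
  intro β H D A B hβ hHD hInc hA hB
  have hTH : 0 < ∑ a ∈ (inn H).powerset, fw β H a :=
    sum_pos (fun c _ => DDOMF.fw_pos β hβ H c) ⟨∅, empty_mem_powerset _⟩
  have hTD : 0 < ∑ a ∈ (inn D).powerset, fw β D a :=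
    sum_pos (fun c _ => DDOMF.fw_pos β hβ D c) ⟨∅, empty_mem_powerset _⟩
  have hd : Disjoint (inn H) (inn D \ inn H) := disjoint_sdiff
  have hu : inn H ∪ (inn D \ inn H) = inn D :=
    union_sdiff_of_subset (DDOMF.inn_mono hHD)
  have hsplit : ∀ G : Finset Edge → ℝ, ∑ c ∈ (inn D).powerset, G c =
      ∑ ξ ∈ (inn D \ inn H).powerset, ∑ a ∈ (inn H).powerset, G (a ∪ ξ) := by
    intro G
    rw [← hu, fact_sum hd, hu, sum_comm]
  have hAa : ∀ a ξ : Finset Edge, a ⊆ inn H → ξ ⊆ inn D \ inn H →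
      (A ((a ∪ ξ : Finset Edge) : Set Edge) ↔ A (a : Set Edge)) := by
    intro a ξ ha hξ
    rw [hA ((a ∪ ξ : Finset Edge) : Set Edge), hA (a : Set Edge)]
    have e : ((a ∪ ξ : Finset Edge) : Set Edge) ∩ (inn H : Set Edge) =
        (a : Set Edge) ∩ (inn H : Set Edge) := by
      ext x
      simp only [Set.mem_inter_iff, mem_coe, mem_union]
      constructor
      · rintro ⟨h | h, h2⟩
        · exact ⟨h, h2⟩
        · exact absurd h2 (Finset.mem_sdiff.1 (hξ h)).2
      · rintro ⟨h, h2⟩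
        exact ⟨Or.inl h, h2⟩
    rw [e]
  have hBb : ∀ a ξ : Finset Edge, a ⊆ inn H → ξ ⊆ inn D \ inn H →
      (B ((a ∪ ξ : Finset Edge) : Set Edge) ↔ B (ξ : Set Edge)) := by
    intro a ξ ha hξ
    rw [hB ((a ∪ ξ : Finset Edge) : Set Edge), hB (ξ : Set Edge)]
    have e : ((a ∪ ξ : Finset Edge) : Set Edge) \ (inn H : Set Edge) =
        (ξ : Set Edge) \ (inn H : Set Edge) := by
      ext x
      simp only [Set.mem_diff, mem_coe, mem_union]
      constructor
      · rintro ⟨h | h, h2⟩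
        · exact absurd (ha h) h2
        · exact ⟨h, h2⟩
      · rintro ⟨h, h2⟩
        exact ⟨Or.inr h, h2⟩
    rw [e]
  obtain ⟨AB, hAB⟩ : ∃ AB : Set Edge → Prop, AB = fun c => A c ∧ B c := ⟨_, rfl⟩
  rw [← hAB]
  have hABiff : ∀ c, AB c ↔ A c ∧ B c := fun c => by rw [hAB]
  unfold PV EV TW
  rw [div_mul_div_comm, div_le_div_iff₀ (by positivity) hTD]
  have hf : ∀ c c' : Finset Edge, c ⊆ c' → c' ⊆ inn H →
      (if A (c : Set Edge) then (1 : ℝ) else 0) ≤ if A (c' : Set Edge) then 1 else 0 := by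
    intro c c' hcc _
    by_cases h : A (c : Set Edge)
    · rw [if_pos h, if_pos (hInc _ _ (by exact_mod_cast hcc) h)]
    · rw [if_neg h]
      split_ifs <;> norm_num
  have key : (∑ c ∈ (inn H).powerset, fw β H c * if A (c : Set Edge) then 1 else 0) *
      (∑ c ∈ (inn D).powerset, fw β D c * if B (c : Set Edge) then 1 else 0) ≤
      (∑ a ∈ (inn H).powerset, fw β H a) *
        ∑ c ∈ (inn D).powerset, fw β D c * if AB (c : Set Edge) then 1 else 0 := by
    rw [hsplit (fun c => fw β D c * if B (c : Set Edge) then 1 else 0),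
      hsplit (fun c => fw β D c * if AB (c : Set Edge) then 1 else 0),
      mul_sum, mul_sum]
    refine sum_le_sum fun ξ hξ => ?_
    have hξ' := mem_powerset.1 hξ
    by_cases hBξ : B (ξ : Set Edge)
    · have e1 : ∑ a ∈ (inn H).powerset, fw β D (a ∪ ξ) *
          (if B ((a ∪ ξ : Finset Edge) : Set Edge) then (1 : ℝ) else 0) =
          ∑ a ∈ (inn H).powerset, fw β D (a ∪ ξ) := by
        refine sum_congr rfl fun a ha => ?_
        rw [if_pos ((hBb a ξ (mem_powerset.1 ha) hξ').2 hBξ), mul_one]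
      have e2 : ∑ a ∈ (inn H).powerset, fw β D (a ∪ ξ) *
          (if AB ((a ∪ ξ : Finset Edge) : Set Edge) then (1 : ℝ) else 0) =
          ∑ a ∈ (inn H).powerset, fw β D (a ∪ ξ) * (if A (a : Set Edge) then 1 else 0) := by
        refine sum_congr rfl fun a ha => ?_
        congr 1
        have h1 := hAa a ξ (mem_powerset.1 ha) hξ'
        have h2 := (hBb a ξ (mem_powerset.1 ha) hξ').2 hBξ
        by_cases h3 : A (a : Set Edge)
        · rw [if_pos h3, if_pos ((hABiff _).2 ⟨h1.2 h3, h2⟩)]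
        · rw [if_neg h3, if_neg (fun h => h3 (h1.1 ((hABiff _).1 h).1))]
      rw [e1, e2]
      exact DDOMF.holley hFKGV hLATF β hβ H D hHD _ hf ξ hξ'
    · have e1 : ∑ a ∈ (inn H).powerset, fw β D (a ∪ ξ) *
          (if B ((a ∪ ξ : Finset Edge) : Set Edge) then (1 : ℝ) else 0) = 0 := by
        refine sum_eq_zero fun a ha => ?_
        rw [if_neg (fun h => hBξ ((hBb a ξ (mem_powerset.1 ha) hξ').1 h)), mul_zero]
      rw [e1, mul_zero]
      apply mul_nonneg hTH.le
      refine sum_nonneg fun a _ => mul_nonneg (DDOMF.fw_pos β hβ D _).le ?_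
      split_ifs <;> norm_num
  have h1 := mul_le_mul_of_nonneg_right key hTD.le
  refine h1.trans (le_of_eq ?_)
  ring

end

end CNL
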