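import Pool.Agent.Work.MP_bda6fa_cnl.IC2
set_option autoImplicit false

/-! Block DOMF (helper64, second copy): domination by Holley's inequality. -/

namespace CNL
open XorIsing
open scoped Classical FinsetFamily
open Finset Relation Filter Topology

noncomputable section

namespace DDOMFx

theorem inn_mono {H D : Finset V} (h : H ⊆ D) : inn H ⊆ inn D := fun _ he =>
  mem_inn.2 ⟨h (mem_inn.1 he).1, h (mem_inn.1 he).2⟩

theorem pow_clusters {H D : Finset V} (h : H ⊆ D) {a : Finset Edge} (ha : a ⊆ inn H) :
    (2 : ℝ) ^ (fclusters D a).card = 2 ^ (D \ H).card * 2 ^ (fclusters H a).card := by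
  have h1 : (compat D a).card = ((D \ H).powerset ×ˢ compat H a).card := by
    refine card_nbij' (fun M => (M \ H, M ∩ H)) (fun p => p.1 ∪ p.2) ?_ ?_ ?_ ?_
    · intro M hM
      rw [mem_coe, mem_compat] at hM
      rw [mem_coe, mem_product, mem_powerset, mem_compat]
      refine ⟨sdiff_subset_sdiff hM.1 (Subset.refl _), inter_subset_right, fun e he => ?_⟩
      have h3 := mem_inn.1 (ha he)
      have h4 := hM.2 e he
      simp only [mem_inter, h3.1, h3.2, and_true]
      exact h4
    · rintro ⟨N, M⟩ hp
      rw [mem_coe, mem_product, mem_powerset, mem_compat] at hp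
      rw [mem_coe, mem_compat]
      refine ⟨union_subset (hp.1.trans sdiff_subset) (hp.2.1.trans h), fun e he => ?_⟩
      have h3 := mem_inn.1 (ha he)
      have h5 : e.1 ∉ N := fun hn => (Finset.mem_sdiff.1 (hp.1 hn)).2 h3.1
      have h6 : tip e ∉ N := fun hn => (Finset.mem_sdiff.1 (hp.1 hn)).2 h3.2
      simp only [mem_union, h5, h6, false_or]
      exact hp.2.2 e he
    · intro M _
      ext v
      simp only [mem_union, Finset.mem_sdiff, mem_inter]
      tauto
    · rintro ⟨N, M⟩ hp
      rw [mem_coe, mem_product, mem_powerset, mem_compat] at hp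
      have hN : ∀ v ∈ N, v ∉ H := fun v hv => (Finset.mem_sdiff.1 (hp.1 hv)).2
      have hM : ∀ v ∈ M, v ∈ H := fun v hv => hp.2.1 hv
      refine Prod.ext ?_ ?_
      · ext v
        simp only [mem_union, Finset.mem_sdiff]
        constructor
        · rintro ⟨h7 | h7, h8⟩
          · exact h7
          · exact absurd (hM v h7) h8
        · intro h7
          exact ⟨Or.inl h7, hN v h7⟩
      · ext v
        simp only [mem_union, mem_inter]
        constructor
        · rintro ⟨h7 | h7, h8⟩
          · exact absurd h8 (hN v h7)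
          · exact h7
        · intro h7
          exact ⟨Or.inr h7, hM v h7⟩
  rw [card_product, card_powerset, card_compat, card_compat] at h1
  exact_mod_cast h1

theorem fw_res (β : ℝ) {H D : Finset V} (h : H ⊆ D) {a : Finset Edge} (ha : a ⊆ inn H) :
    fw β D a = 2 ^ (D \ H).card * fw β H a := by
  unfold fw
  rw [pow_clusters h ha]
  ring

theorem fw_pos {β : ℝ} (hβ : 0 < β) (D : Finset V) (ω : Finset Edge) : 0 < fw β D ω := by
  have h1 : 0 < Real.exp (2 * β) - 1 := by
    have := Real.add_one_lt_exp (x := 2 * β) (by linarith)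
    linarith
  unfold fw
  positivity

theorem sum_split (D H : Finset Edge) (h : H ⊆ D) (g : Finset Edge → ℝ) :
    ∑ c ∈ D.powerset, g c = ∑ ξ ∈ (D \ H).powerset, ∑ t ∈ H.powerset, g (t ∪ ξ) := by
  rw [← sum_product']
  refine sum_nbij' (fun c => (c \ H, c ∩ H)) (fun p => p.2 ∪ p.1) ?_ ?_ ?_ ?_ ?_
  · intro c hc
    rw [mem_powerset] at hc
    rw [mem_product, mem_powerset, mem_powerset]
    exact ⟨sdiff_subset_sdiff hc (Subset.refl _), inter_subset_right⟩
  · rintro ⟨ξ, t⟩ hp
    rw [mem_product, mem_powerset, mem_powerset] at hp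
    rw [mem_powerset]
    exact union_subset (hp.2.trans h) (hp.1.trans sdiff_subset)
  · intro c _
    ext v
    simp only [mem_union, Finset.mem_sdiff, mem_inter]
    tauto
  · rintro ⟨ξ, t⟩ hp
    rw [mem_product, mem_powerset, mem_powerset] at hp
    have hN : ∀ v ∈ ξ, v ∉ H := fun v hv => (Finset.mem_sdiff.1 (hp.1 hv)).2
    have hM : ∀ v ∈ t, v ∈ H := fun v hv => hp.2 hv
    refine Prod.ext ?_ ?_
    · ext v
      simp only [mem_union, Finset.mem_sdiff]
      constructor
      · rintro ⟨h7 | h7, h8⟩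
        · exact absurd (hM v h7) h8
        · exact h7
      · intro h7
        exact ⟨Or.inr h7, hN v h7⟩
    · ext v
      simp only [mem_union, mem_inter]
      constructor
      · rintro ⟨h7 | h7, h8⟩
        · exact h7
        · exact absurd h8 (hN v h7)
      · intro h7
        exact ⟨Or.inl h7, hM v h7⟩
  · intro c _
    congr 1
    ext v
    simp only [mem_union, Finset.mem_sdiff, mem_inter]
    tauto

theorem holley (hLATF : S_LATF) {β : ℝ} (hβ : 0 < β) {H D : Finset V} (h : H ⊆ D)
    (A : Set Edge → Prop) (hA : Inc A) (ξ : Finset Edge) (hξ : ξ ⊆ inn D \ inn H) :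
    (∑ s ∈ (inn H).powerset, if A (s : Set Edge) then fw β D s else 0) *
      ∑ t ∈ (inn H).powerset, fw β D (t ∪ ξ) ≤
    (∑ s ∈ (inn H).powerset, fw β D s) *
      ∑ t ∈ (inn H).powerset, if A (t : Set Edge) then fw β D (t ∪ ξ) else 0 := by
  have hf : ∀ ω, 0 ≤ fw β D ω := fun ω => (fw_pos hβ D ω).le
  have key := Finset.four_functions_theorem (inn H)
    (f₁ := fun s => if A (s : Set Edge) then fw β D s else 0)
    (f₂ := fun t => fw β D (t ∪ ξ)) (f₃ := fun s => fw β D s)
    (f₄ := fun t => if A (t : Set Edge) then fw β D (t ∪ ξ) else 0)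
    (fun s => by
      show (0 : ℝ) ≤ if A (s : Set Edge) then fw β D s else 0
      split_ifs
      · exact hf _
      · exact le_rfl)
    (fun t => hf _) (fun s => hf _)
    (fun t => by
      show (0 : ℝ) ≤ if A (t : Set Edge) then fw β D (t ∪ ξ) else 0
      split_ifs
      · exact hf _
      · exact le_rfl)
    (by
      intro s hs t ht
      show (if A (s : Set Edge) then fw β D s else 0) * fw β D (t ∪ ξ) ≤
        fw β D (s ∩ t) * (if A ((s ∪ t : Finset Edge) : Set Edge) then fw β D (s ∪ t ∪ ξ) else 0)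
      by_cases hAs : A (s : Set Edge)
      · have hAst : A ((s ∪ t : Finset Edge) : Set Edge) := by
          refine hA _ _ ?_ hAs
          intro e he
          exact mem_union_left _ he
        rw [if_pos hAs, if_pos hAst]
        have h1 := hLATF β D s (t ∪ ξ) hβ.le (hs.trans (inn_mono h))
          (union_subset (ht.trans (inn_mono h)) (hξ.trans sdiff_subset))
        have h2 : s ∩ (t ∪ ξ) = s ∩ t := by
          ext e
          simp only [mem_inter, mem_union]
          constructor
          · rintro ⟨h3, h4 | h4⟩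
            · exact ⟨h3, h4⟩
            · exact absurd (hs h3) (Finset.mem_sdiff.1 (hξ h4)).2
          · rintro ⟨h3, h4⟩
            exact ⟨h3, Or.inl h4⟩
        rw [h2, ← union_assoc] at h1
        rw [mul_comm (fw β D (s ∩ t))]
        exact h1
      · rw [if_neg hAs, zero_mul]
        refine mul_nonneg (hf _) ?_
        split_ifs
        · exact hf _
        · exact le_rfl)
    (𝒜 := (inn H).powerset) (ℬ := (inn H).powerset) (Subset.refl _) (Subset.refl _)
  refine key.trans (mul_le_mul ?_ ?_ ?_ ?_)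
  · apply sum_le_sum_of_subset_of_nonneg
    · intro c hc
      obtain ⟨a, ha, b, hb, rfl⟩ := mem_infs.1 hc
      exact mem_powerset.2 (inter_subset_left.trans (mem_powerset.1 ha))
    · intro c _ _
      exact hf _
  · apply sum_le_sum_of_subset_of_nonneg
    · intro c hc
      obtain ⟨a, ha, b, hb, rfl⟩ := mem_sups.1 hc
      exact mem_powerset.2 (union_subset (mem_powerset.1 ha) (mem_powerset.1 hb))
    · intro c _ _
      split_ifs
      · exact hf _
      · exact le_rfl
  · apply sum_nonneg
    intro c _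
    split_ifs
    · exact hf _
    · exact le_rfl
  · exact sum_nonneg fun c _ => hf _

end DDOMFx

open DDOMFx in
theorem p_DOMF (_hFKGV : S_FKGV) (hLATF : S_LATF) : S_DOMF := by
  intro β H D A B hβ h hA hAH hBH
  have hf : ∀ D ω, 0 < fw β D ω := fun D ω => fw_pos hβ D ω
  have hTH : 0 < TW inn (fw β) H :=
    sum_pos (fun c _ => hf _ _) ⟨∅, empty_mem_powerset _⟩
  have hTD : 0 < TW inn (fw β) D :=
    sum_pos (fun c _ => hf _ _) ⟨∅, empty_mem_powerset _⟩
  have hK : (0 : ℝ) < 2 ^ (D \ H).card := by positivity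
  have hind : ∀ (t ξ : Finset Edge), t ⊆ inn H → ξ ⊆ inn D \ inn H →
      (A ((t ∪ ξ : Finset Edge) : Set Edge) ↔ A (t : Set Edge)) ∧
      (B ((t ∪ ξ : Finset Edge) : Set Edge) ↔ B (ξ : Set Edge)) := by
    intro t ξ ht hξ
    have hN : ∀ v ∈ ξ, v ∉ inn H := fun v hv => (Finset.mem_sdiff.1 (hξ hv)).2
    have hM : ∀ v ∈ t, v ∈ inn H := fun v hv => ht hv
    constructor
    · rw [hAH]
      have : ((t ∪ ξ : Finset Edge) : Set Edge) ∩ (inn H : Finset Edge) = (t : Set Edge) := by
        ext v
        simp only [Set.mem_inter_iff, mem_coe, mem_union]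
        constructor
        · rintro ⟨h7 | h7, h8⟩
          · exact h7
          · exact absurd h8 (hN v h7)
        · intro h7
          exact ⟨Or.inl h7, hM v h7⟩
      rw [this]
    · rw [hBH]
      have : ((t ∪ ξ : Finset Edge) : Set Edge) \ (inn H : Finset Edge) = (ξ : Set Edge) := by
        ext v
        simp only [Set.mem_sdiff, mem_coe, mem_union]
        constructor
        · rintro ⟨h7 | h7, h8⟩
          · exact absurd (hM v h7) h8
          · exact h7
        · intro h7
          exact ⟨Or.inr h7, hN v h7⟩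
      rw [this]
  -- sums
  have eA : ∑ s ∈ (inn H).powerset, (if A (s : Set Edge) then fw β D s else 0) =
      2 ^ (D \ H).card * ∑ s ∈ (inn H).powerset, fw β H s * (if A (s : Set Edge) then 1 else 0) := by
    rw [mul_sum]
    apply sum_congr rfl
    intro s hs
    rw [fw_res β h (mem_powerset.1 hs)]
    by_cases hAs : A (s : Set Edge) <;> simp [hAs]
  have eT : ∑ s ∈ (inn H).powerset, fw β D s = 2 ^ (D \ H).card * TW inn (fw β) H := by
    unfold TW
    rw [mul_sum]
    apply sum_congr rfl
    intro s hs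
    exact fw_res β h (mem_powerset.1 hs)
  have eB : ∑ c ∈ (inn D).powerset, fw β D c * (if B (c : Set Edge) then 1 else 0) =
      ∑ ξ ∈ (inn D \ inn H).powerset, (if B (ξ : Set Edge) then 1 else 0) *
        ∑ t ∈ (inn H).powerset, fw β D (t ∪ ξ) := by
    rw [sum_split _ _ (inn_mono h)]
    apply sum_congr rfl
    intro ξ hξ
    rw [mul_sum]
    apply sum_congr rfl
    intro t ht
    have h2 := (hind t ξ (mem_powerset.1 ht) (mem_powerset.1 hξ)).2
    by_cases hB : B (ξ : Set Edge)
    · rw [if_pos hB, if_pos (h2.2 hB), mul_comm]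
    · rw [if_neg hB, if_neg (fun h3 => hB (h2.1 h3)), mul_comm]
  have eAB : ∑ c ∈ (inn D).powerset, fw β D c * (if A (c : Set Edge) ∧ B (c : Set Edge) then 1 else 0) =
      ∑ ξ ∈ (inn D \ inn H).powerset, (if B (ξ : Set Edge) then 1 else 0) *
        ∑ t ∈ (inn H).powerset, (if A (t : Set Edge) then fw β D (t ∪ ξ) else 0) := by
    rw [sum_split _ _ (inn_mono h)]
    apply sum_congr rfl
    intro ξ hξ
    rw [mul_sum]
    apply sum_congr rfl
    intro t ht
    obtain ⟨h1, h2⟩ := hind t ξ (mem_powerset.1 ht) (mem_powerset.1 hξ)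
    by_cases hA' : A (t : Set Edge)
    · by_cases hB : B (ξ : Set Edge)
      · rw [if_pos hB, if_pos hA', if_pos ⟨h1.2 hA', h2.2 hB⟩, mul_comm]
      · rw [if_neg hB, if_neg (fun h3 => hB (h2.1 h3.2)), mul_zero, zero_mul]
    · rw [if_neg hA', if_neg (fun h3 => hA' (h1.1 h3.1)), mul_zero, mul_zero]
  have hmain : (∑ s ∈ (inn H).powerset, if A (s : Set Edge) then fw β D s else 0) *
      ∑ c ∈ (inn D).powerset, fw β D c * (if B (c : Set Edge) then 1 else 0) ≤
      (∑ s ∈ (inn H).powerset, fw β D s) *
      ∑ c ∈ (inn D).powerset, fw β D c * (if A (c : Set Edge) ∧ B (c : Set Edge) then 1 else 0) := by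
    rw [eB, eAB, mul_sum, mul_sum]
    apply sum_le_sum
    intro ξ hξ
    have h1 := holley hLATF hβ h A hA ξ (mem_powerset.1 hξ)
    by_cases hB : B (ξ : Set Edge)
    · rw [if_pos hB, one_mul, one_mul]
      exact h1
    · rw [if_neg hB, zero_mul, zero_mul, mul_zero, mul_zero]
  rw [eA, eT, mul_assoc, mul_assoc] at hmain
  have h2 := le_of_mul_le_mul_left hmain hK
  unfold PV EV
  rw [div_mul_div_comm, div_le_div_iff₀ (mul_pos hTH hTD) hTD]
  have h3 := mul_le_mul_of_nonneg_right h2 hTD.le
  refine h3.trans (le_of_eq ?_)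
  rw [mul_comm (TW inn (fw β) H), mul_assoc]
  congr!

end

end CNL
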