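import Pool.Agent.Work.MP_bda6fa_cnl.IC2
import Pool.Agent.Work.MP_bda6fa_nest.ETA
import Pool.Agent.Work.MP_bda6fa_nest.PETA
set_option autoImplicit false

/-! Block EVD: without an open circuit around a triangle there is a dual path to infinity. -/

namespace CNL
open XorIsing
open scoped Classical
open Finset Relation Filter Topology

noncomputable section

namespace DEVD

/-- the triangle t is reachable from the triangle at the origin by crossing closed edges -/
def Rch (ω : Finset Edge) (t : V × Bool) : Prop :=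
  ReflTransGen (TStep (fun e => e ∉ ω)) (((0, 0), true) : V × Bool) t

theorem rch_step {ω : Finset Edge} {t t' : V × Bool} {e : Edge} (hne : t ≠ t') (he : e ∉ ω)
    (h1 : e ∈ tri t) (h2 : e ∈ tri t') (h : Rch ω t) : Rch ω t' :=
  h.tail ⟨hne, e, he, h1, h2⟩

/-- the boundary of the set of reachable triangles -/
def bdr (ω : Finset Edge) : Finset Edge :=
  ω.filter (fun e => ¬ (Rch ω (BETA.up e, true) ↔ Rch ω (BETA.dn e, false)))

theorem mem_bdr (ω : Finset Edge) (e : Edge) :
    e ∈ bdr ω ↔ ¬ (Rch ω (BETA.up e, true) ↔ Rch ω (BETA.dn e, false)) := by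
  unfold bdr
  rw [mem_filter]
  refine ⟨fun h => h.2, fun hn => ⟨?_, hn⟩⟩
  by_contra he
  exact hn ⟨fun h => rch_step (by simp) he (BETA.mem_up e) (BETA.mem_dn e) h,
    fun h => rch_step (by simp) he (BETA.mem_dn e) (BETA.mem_up e) h⟩

theorem even_bdr (ω : Finset Edge) : EvenAll (bdr ω) := by
  refine BETA.even_of (bdr ω) (fun t => if Rch ω t then (1 : ZMod 2) else 0) fun e => ?_
  have hm := mem_bdr ω e
  show chi (bdr ω) e = (if Rch ω (BETA.up e, true) then (1 : ZMod 2) else 0) +
    (if Rch ω (BETA.dn e, false) then (1 : ZMod 2) else 0)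
  unfold chi
  by_cases h1 : Rch ω (BETA.up e, true) <;> by_cases h3 : Rch ω (BETA.dn e, false)
  · rw [if_pos h1, if_pos h3, if_neg (by rw [hm]; simp [h1, h3])]; decide
  · rw [if_pos h1, if_neg h3, if_pos (by rw [hm]; simp [h1, h3])]; decide
  · rw [if_neg h1, if_pos h3, if_pos (by rw [hm]; simp [h1, h3])]; decide
  · rw [if_neg h1, if_neg h3, if_neg (by rw [hm]; simp [h1, h3])]; decide

end DEVD

open DEVD

theorem p_EVD : S_EVD := by
  intro D ω R hω hEv
  by_contra hcon
  have hin : ∀ t, Rch ω t → ∀ w, VT w t → w ∈ Hx (0, 0) R := by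
    intro t ht w hw
    by_contra hwR
    exact hcon ⟨t, w, hwR, hw, ht⟩
  have heven := even_bdr ω
  have hmem := mem_bdr ω
  -- walk to the right
  obtain ⟨N, hN⟩ := exists_bound ω
  have hfar : ∀ v : V, N ≤ v.1 → (R : ℤ) < v.1 → (Par (bdr ω) (v, true) ↔ Rch ω (v, true)) := by
    intro v hv hvR
    have hnc : ∀ e ∈ ω, ¬ cut ((v, true) : V × Bool) e := by
      intro e he hc
      have h1 := hN e he
      rcases hc with ⟨-, -, h3⟩ | ⟨-, -, h3⟩
      · have h4 : v.1 + 1 ≤ e.1.1 := h3
        omega
      · have h4 : v.1 ≤ e.1.1 := by simpa using h3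
        omega
    have hev : ¬ Rch ω (v, true) := by
      intro h
      have h1 := hin _ h v (by simp [VT])
      rw [mem_Hx] at h1
      have h2 := h1.1.2
      simp only at h2
      omega
    have hpar : ¬ Par (bdr ω) (v, true) := by
      unfold Par
      have h1 : (bdr ω).filter (fun e => cut ((v, true) : V × Bool) e) = ∅ := by
        refine filter_eq_empty_iff.2 fun e he => hnc e ?_
        exact (mem_filter.1 he).1
      rw [h1]
      simp
    exact ⟨fun h1 => absurd h1 hpar, fun h1 => absurd h1 hev⟩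
  have hstep : ∀ (e : Edge), (Par (bdr ω) (BETA.up e, true) ↔ Rch ω (BETA.up e, true)) ↔
      (Par (bdr ω) (BETA.dn e, false) ↔ Rch ω (BETA.dn e, false)) := by
    intro e
    have h1 := p_PETA (bdr ω) e (BETA.up e, true) (BETA.dn e, false) heven (by simp) (BETA.mem_up e)
      (BETA.mem_dn e)
    have h3 := hmem e
    by_cases p1 : Par (bdr ω) (BETA.up e, true) <;> by_cases p2 : Par (bdr ω) (BETA.dn e, false) <;>
      by_cases p3 : Rch ω (BETA.up e, true) <;> by_cases p4 : Rch ω (BETA.dn e, false) <;>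
      simp_all
  have hwalk : ∀ n : ℕ, ∀ v : V, N ≤ v.1 + n → (R : ℤ) < v.1 + n →
      (Par (bdr ω) (v, true) ↔ Rch ω (v, true)) := by
    intro n
    induction n with
    | zero =>
      intro v hv hv2
      exact hfar v (by simpa using hv) (by simpa using hv2)
    | succ n ih =>
      intro v hv hv2
      have h1 := ih (v + (1, 0)) (by
        have h3 : (v + (1, 0) : V).1 = v.1 + 1 := rfl
        rw [h3]
        push_cast at hv
        omega) (by
        have h3 : (v + (1, 0) : V).1 = v.1 + 1 := rfl
        rw [h3]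
        push_cast at hv2
        omega)
      have h3 := hstep (v + (1, 0), 1)
      rw [BETA.up1, BETA.dn1, add_sub_cancel_right] at h3
      have h4 := hstep (v + (0, 1), 2)
      rw [BETA.up2, BETA.dn2, add_sub_cancel_right] at h4
      exact h4.2 (h3.1 h1)
  have hpar : Par (bdr ω) (((0, 0), true) : V × Bool) := by
    have h1 := hwalk (N.toNat + R + 1) (0, 0) (by
      show N ≤ 0 + ((N.toNat + R + 1 : ℕ) : ℤ)
      push_cast
      omega) (by
      show (R : ℤ) < 0 + ((N.toNat + R + 1 : ℕ) : ℤ)
      push_cast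
      omega)
    exact h1.2 ReflTransGen.refl
  -- the sum over the boundary
  obtain ⟨X, hX, hXe⟩ := hEv
  have h5 := handshake (bdr ω) heven (fun v => if v ∈ X then 1 else 0)
  have h6 : ∀ f ∈ bdr ω, ((if f.1 ∈ X then (1 : ZMod 2) else 0) + (if tip f ∈ X then 1 else 0)) =
      if cut (((0, 0), true) : V × Bool) f then 1 else 0 := by
    intro f hf
    have h7 := hXe f (mem_filter.1 hf).1
    by_cases c1 : f.1 ∈ X <;> by_cases c2 : tip f ∈ X <;>
      by_cases c3 : cut (((0, 0), true) : V × Bool) f <;> simp [c1, c2, c3] at h7 ⊢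
    decide
  rw [sum_congr rfl h6, ← card_zmod, ZMod.natCast_eq_zero_iff_even] at h5
  exact (Nat.not_even_iff_odd.2 hpar) h5

end

end CNL
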