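import Pool.Agent.Work.MP_bda6fa_cnl.IC2
set_option autoImplicit false

namespace CNL
open XorIsing
open scoped Classical
open Finset Relation Filter Topology

noncomputable section

namespace DFC3

theorem spin_sq (M : Finset V) (x : V) : spin M x * spin M x = 1 := by
  unfold spin
  split_ifs <;> norm_num

theorem prod_sd (M : Finset V) (x y : V) : ∏ a ∈ symmDiff ({x} : Finset V) {y}, spin M a = spin M x * spin M y := by
  by_cases h : x = y
  · subst h
    rw [symmDiff_self, spin_sq]
    rfl
  · have e : symmDiff ({x} : Finset V) {y} = {x, y} := by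
      ext a
      rw [Finset.mem_symmDiff, Finset.mem_singleton, Finset.mem_singleton, Finset.mem_insert, Finset.mem_singleton]
      constructor
      · rintro (⟨h1, _⟩ | ⟨h1, _⟩)
        · left; exact h1
        · right; exact h1
      · rintro (h1 | h1)
        · left; exact ⟨h1, fun h2 => h (h1.symm.trans h2)⟩
        · right; exact ⟨h1, fun h2 => h (h2.symm.trans h1)⟩
    rw [e, Finset.prod_pair h]

theorem num_eq (β : ℝ) (D : Finset V) (x y : V) :
    (∑ M ∈ D.powerset, Real.exp (β * ∑ e ∈ inn D, spin M e.1 * spin M (tip e)) * (spin M x * spin M y)) =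
      pA D (inn D) (fun _ => β) (symmDiff {x} {y}) := by
  unfold pA
  apply Finset.sum_congr rfl
  intro M _
  rw [prod_sd, Finset.mul_sum]

theorem pz_eq (β : ℝ) (D : Finset V) : pz β D (inn D) = pA D (inn D) (fun _ => β) ∅ := by
  unfold pz pA
  apply Finset.sum_congr rfl
  intro M _
  rw [Finset.prod_empty, mul_one, Finset.mul_sum]

theorem pz_pos_h2 (β : ℝ) (D : Finset V) : 0 < pz β D (inn D) := by
  unfold pz
  apply Finset.sum_pos
  · intro M _; exact Real.exp_pos _
  · exact ⟨∅, Finset.empty_mem_powerset D⟩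

end DFC3

open DFC3 in
theorem p_FC3 (hG2 : S_G2) : S_FC3 := by
  intro β D x y z hβ
  unfold fcor
  rw [num_eq, num_eq, num_eq]
  have hp := pz_pos_h2 β D
  have h := hG2 D (inn D) (fun _ => β) (symmDiff {x} {y}) (symmDiff {y} {z}) (fun _ _ => hβ)
  have e : symmDiff (symmDiff ({x} : Finset V) {y}) (symmDiff {y} {z}) = symmDiff {x} {z} := by
    rw [symmDiff_assoc, symmDiff_symmDiff_cancel_left]
  rw [e, ← pz_eq] at h
  rw [div_mul_div_comm, div_le_div_iff₀ (mul_pos hp hp) hp]
  nlinarith [mul_le_mul_of_nonneg_right h hp.le]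

end

end CNL
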