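import Pool.Agent.Work.MP_bda6fa_cnl.IC2

set_option autoImplicit false

/-!
Block FES (helper77): Edwards-Sokal coupling for the free random cluster model.
-/

namespace CNL

open XorIsing
open scoped Classical
open Finset Relation Filter Topology

namespace DFES

theorem exp_expand (β : ℝ) {D M : Finset V} (F : Finset Edge) (hM : M ⊆ D) :
    Real.exp (β * ∑ e ∈ F, spin M e.1 * spin M (tip e)) = Real.exp (-β) ^ F.card *
    ∑ ω ∈ F.powerset, (Real.exp (2 * β) - 1) ^ ω.card * (if M ∈ compat D ω then 1 else 0) := by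
  rw [mul_sum, Real.exp_sum]
  have h1 : ∀ e ∈ F, Real.exp (β * (spin M e.1 * spin M (tip e))) =
      Real.exp (-β) * (1 + (Real.exp (2 * β) - 1) * (if (e.1 ∈ M ↔ tip e ∈ M) then 1 else 0)) := by
    intro e _
    by_cases h : (e.1 ∈ M ↔ tip e ∈ M)
    · rw [if_pos h]
      have h2 : spin M e.1 * spin M (tip e) = 1 := by
        unfold spin
        by_cases h3 : e.1 ∈ M
        · rw [if_pos h3, if_pos (h.1 h3)]
          norm_num
        · rw [if_neg h3, if_neg (fun h4 => h3 (h.2 h4))]
          norm_num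
      rw [h2]
      have h3 : Real.exp (-β) * Real.exp (2 * β) = Real.exp β := by
        rw [← Real.exp_add]
        congr 1
        ring
      rw [mul_one]
      linear_combination - h3
    · rw [if_neg h]
      have h2 : spin M e.1 * spin M (tip e) = -1 := by
        unfold spin
        by_cases h3 : e.1 ∈ M
        · rw [if_pos h3, if_neg (fun h4 => h ⟨fun _ => h4, fun _ => h3⟩)]
          norm_num
        · have h4 : tip e ∈ M := by
            by_contra h4
            exact h ⟨fun h5 => absurd h5 h3, fun h5 => absurd h5 h4⟩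
          rw [if_neg h3, if_pos h4]
          norm_num
      rw [h2]
      simp
  rw [prod_congr rfl h1, prod_mul_distrib, prod_const, Finset.prod_one_add]
  congr 1
  apply sum_congr rfl
  intro ω _
  rw [prod_mul_distrib, prod_const]
  congr 1
  by_cases h : M ∈ compat D ω
  · rw [if_pos h]
    apply prod_eq_one
    intro e he
    rw [if_pos ((mem_compat.1 h).2 e he)]
  · rw [if_neg h]
    have h2 : ∃ e ∈ ω, ¬ (e.1 ∈ M ↔ tip e ∈ M) := by
      by_contra h3
      push Not at h3
      exact h (mem_compat.2 ⟨hM, h3⟩)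
    obtain ⟨e, he, h3⟩ := h2
    exact prod_eq_zero he (if_neg h3)

theorem sum_expand (β : ℝ) (D : Finset V) (F : Finset Edge) (g : Finset V → ℝ) :
    ∑ M ∈ D.powerset, Real.exp (β * ∑ e ∈ F, spin M e.1 * spin M (tip e)) * g M =
      Real.exp (-β) ^ F.card *
        ∑ ω ∈ F.powerset, (Real.exp (2 * β) - 1) ^ ω.card * ∑ M ∈ compat D ω, g M := by
  have h1 : ∀ M ∈ D.powerset, Real.exp (β * ∑ e ∈ F, spin M e.1 * spin M (tip e)) * g M =
      Real.exp (-β) ^ F.card * ∑ ω ∈ F.powerset, (Real.exp (2 * β) - 1) ^ ω.card *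
        (if M ∈ compat D ω then g M else 0) := by
    intro M hM
    rw [exp_expand β F (mem_powerset.1 hM), mul_assoc, sum_mul]
    congr 1
    refine sum_congr rfl fun ω _ => ?_
    split_ifs <;> ring
  rw [sum_congr rfl h1, ← mul_sum, sum_comm]
  congr 1
  refine sum_congr rfl fun ω _ => ?_
  rw [← mul_sum]
  congr 1
  rw [← sum_filter]
  refine sum_congr ?_ fun _ _ => rfl
  ext M
  rw [mem_filter, mem_powerset]
  exact ⟨fun h => h.2, fun h => ⟨(mem_compat.1 h).1, h⟩⟩

theorem fconn_iff (ω : Finset Edge) (x y : V) : SC (ω : Set Edge) x y ↔ FConn ω x y := by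
  have : BE (ω : Set Edge) =
      fun x y => ∃ k, ((x, k) ∈ ω ∧ y = x + dir k) ∨ ((y, k) ∈ ω ∧ x = y + dir k) := by
    funext u v
    apply propext
    constructor
    · rintro ⟨⟨a, k⟩, he, ⟨h1, h2⟩ | ⟨h1, h2⟩⟩
      · refine ⟨k, Or.inl ?_⟩
        simp only at h1
        subst h1
        exact ⟨he, h2.symm⟩
      · refine ⟨k, Or.inr ?_⟩
        simp only at h1
        subst h1
        exact ⟨he, h2.symm⟩
    · rintro ⟨k, ⟨h1, h2⟩ | ⟨h1, h2⟩⟩
      · exact ⟨(u, k), h1, Or.inl ⟨rfl, h2.symm⟩⟩
      · exact ⟨(v, k), h1, Or.inr ⟨rfl, h2.symm⟩⟩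
  unfold SC FConn
  rw [this]

theorem sum_spin (D : Finset V) (ω : Finset Edge) (hω : ω ⊆ inn D) (x y : V) (hx : x ∈ D) :
    ∑ M ∈ compat D ω, (spin M x * spin M y) =
      if FConn ω x y then (2 : ℝ) ^ (fclusters D ω).card else 0 := by
  split_ifs with h
  · have h1 : ∀ M ∈ compat D ω, spin M x * spin M y = 1 := by
      intro M hM
      have h2 := compat_conn hM h
      unfold spin
      by_cases h3 : x ∈ M
      · rw [if_pos h3, if_pos (h2.1 h3)]; norm_num
      · rw [if_neg h3, if_neg (fun h4 => h3 (h2.2 h4))]; norm_num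
    rw [sum_congr rfl h1, sum_const, nsmul_eq_mul, mul_one, card_compat]
    push_cast
    rfl
  · have hin : ∀ e ∈ ω, e.1 ∈ D ∧ tip e ∈ D := fun e he => (mem_filter.1 (hω he)).2
    set C : Finset V := D.filter (fun u => FConn ω x u) with hC
    have hCe : ∀ e ∈ ω, (e.1 ∈ C ↔ tip e ∈ C) := by
      intro e he
      rw [hC, mem_filter, mem_filter]
      constructor
      · rintro ⟨_, h2⟩
        exact ⟨(hin e he).2, h2.trans (FConn_edge he)⟩
      · rintro ⟨_, h2⟩
        exact ⟨(hin e he).1, h2.trans (FConn_symm (FConn_edge he))⟩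
    have hxC : x ∈ C := mem_filter.2 ⟨hx, ReflTransGen.refl⟩
    have hyC : y ∉ C := fun h2 => h (mem_filter.1 h2).2
    have hsx : ∀ M : Finset V, spin (symmDiff M C) x = - spin M x := by
      intro M
      unfold spin
      by_cases h3 : x ∈ M
      · rw [if_pos h3, if_neg (by rw [mem_symmDiff]; tauto)]; norm_num
      · rw [if_neg h3, if_pos (by rw [mem_symmDiff]; tauto)]
    have hsy : ∀ M : Finset V, spin (symmDiff M C) y = spin M y := by
      intro M
      unfold spin
      by_cases h3 : y ∈ M
      · rw [if_pos h3, if_pos (by rw [mem_symmDiff]; tauto)]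
      · rw [if_neg h3, if_neg (by rw [mem_symmDiff]; tauto)]
    refine sum_involution (fun M _ => symmDiff M C) ?_ ?_ ?_ ?_
    · intro M _
      rw [hsx, hsy]; ring
    · intro M _ _ h3
      have h4 := hsx M
      rw [h3] at h4
      unfold spin at h4
      split_ifs at h4 <;> norm_num at h4
    · intro M hM
      obtain ⟨h3, h4⟩ := mem_compat.1 hM
      refine mem_compat.2 ⟨?_, fun e he => ?_⟩
      · intro v hv
        rw [mem_symmDiff] at hv
        rcases hv with hv | hv
        · exact h3 hv.1
        · exact (mem_filter.1 hv.1).1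
      · rw [mem_symmDiff, mem_symmDiff]
        have h5 := h4 e he
        have h6 := hCe e he
        tauto
    · intro M _
      exact symmDiff_symmDiff_cancel_right C M

end DFES

open DFES in
theorem p_FES : S_FES := by
  intro β D x y hβ hx hy
  have h1 : ∑ M ∈ D.powerset, Real.exp (β * ∑ e ∈ inn D, spin M e.1 * spin M (tip e)) *
      (spin M x * spin M y) = Real.exp (-β) ^ (inn D).card *
      ∑ ω ∈ (inn D).powerset, fw β D ω * (if SC (ω : Set Edge) x y then 1 else 0) := by
    rw [sum_expand]
    congr 1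
    refine sum_congr rfl fun ω hω => ?_
    rw [sum_spin D ω (mem_powerset.1 hω) x y hx]
    unfold fw
    by_cases h : FConn ω x y
    · rw [if_pos h, if_pos ((fconn_iff ω x y).2 h), mul_one]
    · rw [if_neg h, if_neg (fun h2 => h ((fconn_iff ω x y).1 h2)), mul_zero, mul_zero]
  have h2 : pz β D (inn D) = Real.exp (-β) ^ (inn D).card *
      ∑ ω ∈ (inn D).powerset, fw β D ω := by
    unfold pz
    have h3 := sum_expand β D (inn D) (fun _ => 1)
    simp only [mul_one, sum_const, nsmul_eq_mul] at h3
    rw [h3]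
    congr 1
    refine sum_congr rfl fun ω _ => ?_
    unfold fw
    rw [card_compat]
    push_cast
    rfl
  unfold fcor PV EV TW
  rw [h1, h2, mul_div_mul_left _ _ (by positivity)]

end CNL
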