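import Pool.Agent.Work.MP_bda6fa_cnl.IC2

set_option autoImplicit false

/-! Block FKGV (helper60): positive association in finite volume (after C_FKI.lean) -/

namespace CNL
open XorIsing
open scoped Classical
open Finset Relation Filter Topology
open scoped FinsetFamily

namespace DFKGV

theorem nonneg {κ : Type} [DecidableEq κ] (D : Finset κ) (w f g : Finset κ → ℝ)
    (hw : ∀ M, M ⊆ D → 0 < w M)
    (hl : ∀ c d, c ⊆ D → d ⊆ D → w c * w d ≤ w (c ∪ d) * w (c ∩ d))
    (hf : ∀ M M', M ⊆ M' → M' ⊆ D → f M ≤ f M')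
    (hg : ∀ M M', M ⊆ M' → M' ⊆ D → g M ≤ g M') (hf0 : ∀ M, M ⊆ D → 0 ≤ f M)
    (hg0 : ∀ M, M ⊆ D → 0 ≤ g M) :
    (∑ M ∈ D.powerset, w M * f M) * (∑ M ∈ D.powerset, w M * g M) ≤
      (∑ M ∈ D.powerset, w M) * ∑ M ∈ D.powerset, w M * (f M * g M) := by
  have key := Finset.four_functions_theorem (β := ℝ) D
    (f₁ := fun M => if M ⊆ D then w M * f M else 0)
    (f₂ := fun M => if M ⊆ D then w M * g M else 0)
    (f₃ := fun M => if M ⊆ D then w M else 0)
    (f₄ := fun M => if M ⊆ D then w M * (f M * g M) else 0)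
    (fun M => by
      change (0 : ℝ) ≤ if M ⊆ D then w M * f M else 0
      split_ifs with h
      · exact mul_nonneg (hw M h).le (hf0 M h)
      · exact le_rfl)
    (fun M => by
      change (0 : ℝ) ≤ if M ⊆ D then w M * g M else 0
      split_ifs with h
      · exact mul_nonneg (hw M h).le (hg0 M h)
      · exact le_rfl)
    (fun M => by
      change (0 : ℝ) ≤ if M ⊆ D then w M else 0
      split_ifs with h
      · exact (hw M h).le
      · exact le_rfl)
    (fun M => by
      change (0 : ℝ) ≤ if M ⊆ D then w M * (f M * g M) else 0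
      split_ifs with h
      · exact mul_nonneg (hw M h).le (mul_nonneg (hf0 M h) (hg0 M h))
      · exact le_rfl)
    (fun s hs t ht => by
      have hst : s ∪ t ⊆ D := union_subset hs ht
      have hi : s ∩ t ⊆ D := inter_subset_left.trans hs
      simp only [if_pos hs, if_pos ht, if_pos hst, if_pos hi]
      have h1 := hl s t hs ht
      have h2 : f s ≤ f (s ∪ t) := hf _ _ subset_union_left hst
      have h3 : g t ≤ g (s ∪ t) := hg _ _ subset_union_right hst
      have h4 : f s * g t ≤ f (s ∪ t) * g (s ∪ t) :=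
        mul_le_mul h2 h3 (hg0 t ht) (hf0 _ hst)
      have h5 : 0 ≤ f s * g t := mul_nonneg (hf0 s hs) (hg0 t ht)
      calc w s * f s * (w t * g t) = (w s * w t) * (f s * g t) := by ring
        _ ≤ (w (s ∪ t) * w (s ∩ t)) * (f (s ∪ t) * g (s ∪ t)) :=
            mul_le_mul h1 h4 h5 (mul_pos (hw _ hst) (hw _ hi)).le
        _ = w (s ∩ t) * (w (s ∪ t) * (f (s ∪ t) * g (s ∪ t))) := by ring)
    (𝒜 := D.powerset) (ℬ := D.powerset) (Subset.refl _) (Subset.refl _)
  have e1 : ∑ M ∈ D.powerset, (if M ⊆ D then w M * f M else 0) =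
      ∑ M ∈ D.powerset, w M * f M :=
    sum_congr rfl fun M hM => if_pos (mem_powerset.1 hM)
  have e2 : ∑ M ∈ D.powerset, (if M ⊆ D then w M * g M else 0) =
      ∑ M ∈ D.powerset, w M * g M :=
    sum_congr rfl fun M hM => if_pos (mem_powerset.1 hM)
  have i1 : D.powerset ⊼ D.powerset ⊆ D.powerset := by
    intro s hs
    obtain ⟨a, ha, b, hb, rfl⟩ := mem_infs.1 hs
    exact mem_powerset.2 (inter_subset_left.trans (mem_powerset.1 ha))
  have i2 : D.powerset ⊻ D.powerset ⊆ D.powerset := by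
    intro s hs
    obtain ⟨a, ha, b, hb, rfl⟩ := mem_sups.1 hs
    exact mem_powerset.2 (union_subset (mem_powerset.1 ha) (mem_powerset.1 hb))
  have n4 : ∀ M ∈ D.powerset, (0 : ℝ) ≤ if M ⊆ D then w M * (f M * g M) else 0 := by
    intro M hM
    rw [if_pos (mem_powerset.1 hM)]
    exact mul_nonneg (hw M (mem_powerset.1 hM)).le
      (mul_nonneg (hf0 M (mem_powerset.1 hM)) (hg0 M (mem_powerset.1 hM)))
  have n3 : ∀ M ∈ D.powerset, (0 : ℝ) ≤ if M ⊆ D then w M else 0 := by
    intro M hM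
    rw [if_pos (mem_powerset.1 hM)]
    exact (hw M (mem_powerset.1 hM)).le
  have s1 : ∑ M ∈ D.powerset ⊼ D.powerset, (if M ⊆ D then w M else 0) ≤
      ∑ M ∈ D.powerset, w M := by
    refine (sum_le_sum_of_subset_of_nonneg i1 fun M hM _ => n3 M hM).trans (le_of_eq ?_)
    exact sum_congr rfl fun M hM => if_pos (mem_powerset.1 hM)
  have s2 : ∑ M ∈ D.powerset ⊻ D.powerset, (if M ⊆ D then w M * (f M * g M) else 0) ≤
      ∑ M ∈ D.powerset, w M * (f M * g M) := by
    refine (sum_le_sum_of_subset_of_nonneg i2 fun M hM _ => n4 M hM).trans (le_of_eq ?_)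
    exact sum_congr rfl fun M hM => if_pos (mem_powerset.1 hM)
  have p2 : 0 ≤ ∑ M ∈ D.powerset ⊻ D.powerset, (if M ⊆ D then w M * (f M * g M) else 0) :=
    sum_nonneg fun M hM => n4 M (i2 hM)
  have p1 : 0 ≤ ∑ M ∈ D.powerset, w M := sum_nonneg fun M hM => (hw M (mem_powerset.1 hM)).le
  beta_reduce at key
  rw [e1, e2] at key
  exact key.trans (mul_le_mul s1 s2 p2 p1)

end DFKGV

theorem p_FKGV : S_FKGV := by
  intro κ _ E w D hw hl f g hf hg
  have key := DFKGV.nonneg (E D) (w D) (fun M => f M - f ∅) (fun M => g M - g ∅) hw hl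
    (fun M M' h h' => sub_le_sub_right (hf M M' h h') _)
    (fun M M' h h' => sub_le_sub_right (hg M M' h h') _)
    (fun M h => sub_nonneg.2 (hf ∅ M (empty_subset M) h))
    (fun M h => sub_nonneg.2 (hg ∅ M (empty_subset M) h))
  have hpz : TW E w D = ∑ M ∈ (E D).powerset, w D M := rfl
  have hpos : 0 < TW E w D := by
    rw [hpz]
    exact sum_pos (fun M hM => hw M (mem_powerset.1 hM)) ⟨∅, empty_mem_powerset _⟩
  have e1 : ∑ M ∈ (E D).powerset, w D M * (f M - f ∅) =
      ∑ M ∈ (E D).powerset, w D M * f M - f ∅ * TW E w D := by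
    rw [hpz, mul_sum, ← sum_sub_distrib]
    exact sum_congr rfl fun M _ => by ring
  have e2 : ∑ M ∈ (E D).powerset, w D M * (g M - g ∅) =
      ∑ M ∈ (E D).powerset, w D M * g M - g ∅ * TW E w D := by
    rw [hpz, mul_sum, ← sum_sub_distrib]
    exact sum_congr rfl fun M _ => by ring
  have e3 : ∑ M ∈ (E D).powerset, w D M * ((f M - f ∅) * (g M - g ∅)) =
      ∑ M ∈ (E D).powerset, w D M * (f M * g M) - g ∅ * ∑ M ∈ (E D).powerset, w D M * f M -
        f ∅ * ∑ M ∈ (E D).powerset, w D M * g M + f ∅ * g ∅ * TW E w D := by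
    rw [hpz, mul_sum, mul_sum, mul_sum, ← sum_sub_distrib, ← sum_sub_distrib, ← sum_add_distrib]
    exact sum_congr rfl fun M _ => by ring
  rw [e1, e2, e3, ← hpz] at key
  unfold EV
  rw [div_mul_div_comm, div_le_div_iff₀ (mul_pos hpos hpos) hpos]
  nlinarith [mul_le_mul_of_nonneg_right key hpos.le]

end CNL
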