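import Pool.Agent.Work.MP_bda6fa_cnl.IC2
set_option autoImplicit false

/-! Block FLIP: symmetry of the free spin model under a global spin flip. -/

namespace CNL
open XorIsing
open scoped Classical
open Finset Relation Filter Topology

namespace DFLIP

theorem sw_sdiff (β : ℝ) (D c : Finset V) : sw β D (D \ c) = sw β D c := by
  unfold sw
  congr 2
  refine Finset.sum_congr rfl fun e he => ?_
  rw [mem_inn] at he
  have key : ∀ v ∈ D, spin (D \ c) v = - spin c v := by
    intro v hv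
    unfold spin
    by_cases h : v ∈ c
    · rw [if_pos h, if_neg (fun h' => (Finset.mem_sdiff.1 h').2 h)]
      ring
    · rw [if_neg h, if_pos (Finset.mem_sdiff.2 ⟨hv, h⟩)]
  rw [key _ he.1, key _ he.2]
  ring

theorem PV_compl (β : ℝ) (D F : Finset V) (A : Set V → Prop) (hF : F ⊆ D)
    (hA : ∀ c c' : Set V, (∀ e ∈ F, (e ∈ c ↔ e ∈ c')) → (A c ↔ A c')) :
    PV (fun D => D) (sw β) D (fun c => A cᶜ) = PV (fun D => D) (sw β) D A := by
  unfold PV EV
  congr 1
  refine Finset.sum_bij' (fun c _ => D \ c) (fun c _ => D \ c) ?_ ?_ ?_ ?_ ?_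
  · intro c _
    rw [mem_powerset]
    exact sdiff_subset
  · intro c _
    rw [mem_powerset]
    exact sdiff_subset
  · intro c hc
    exact Finset.sdiff_sdiff_eq_self (mem_powerset.1 hc)
  · intro c hc
    exact Finset.sdiff_sdiff_eq_self (mem_powerset.1 hc)
  · intro c hc
    rw [sw_sdiff β D c]
    congr 1
    have h : A ((c : Set V)ᶜ) ↔ A ((D \ c : Finset V) : Set V) := hA _ _ (by
      intro e he
      rw [Set.mem_compl_iff, mem_coe, mem_coe, Finset.mem_sdiff]
      exact ⟨fun h => ⟨hF he, h⟩, fun h => h.2⟩)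
    simp only [h]

theorem Hx_mono {M N : ℕ} (h : M ≤ N) : Hx (0, 0) M ⊆ Hx (0, 0) N := by
  intro v hv
  rw [mem_Hx] at hv ⊢
  have h' : (M : ℤ) ≤ N := by exact_mod_cast h
  simp only at hv ⊢
  omega

end DFLIP

theorem p_FLIP (hLVT : S_LVT) (hVOLS : S_VOLS) : S_FLIP := by
  intro β hβ A hA
  obtain ⟨F, hF⟩ := hA
  have hV := hVOLS β hβ
  obtain ⟨M0, hM0⟩ := hV.exh F
  have hA : Loc A := ⟨F, hF⟩
  have hA' : Loc (fun c : Set V => A cᶜ) := ⟨F, fun c c' h => hF _ _ (fun e he => by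
    rw [Set.mem_compl_iff, Set.mem_compl_iff, h e he])⟩
  have t1 := hLVT V _ _ _ _ hV A hA (0, 0)
  have t2 := hLVT V _ _ _ _ hV _ hA' (0, 0)
  refine tendsto_nhds_unique t2 (t1.congr' ?_)
  filter_upwards [eventually_ge_atTop M0] with M hM
  exact (DFLIP.PV_compl β _ F A (hM0.trans (DFLIP.Hx_mono hM)) hF).symm

end CNL
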