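import Pool.Agent.Work.MP_bda6fa_cnl.IC2
set_option autoImplicit false

/-! Block FPOS: positivity of the free correlations, uniformly in the domain. -/

namespace CNL
open XorIsing
open scoped Classical
open Finset Relation Filter Topology

noncomputable section

namespace DFPOS

lemma pz_pos (β : ℝ) (D : Finset V) (F : Finset Edge) : 0 < pz β D F := by
  unfold pz
  exact sum_pos (fun _ _ => Real.exp_pos _) ⟨∅, by simp⟩

lemma spin_sq (M : Finset V) (x : V) : spin M x * spin M x = 1 := by
  unfold spin; split_ifs <;> norm_num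

lemma fcor_self (β : ℝ) (D : Finset V) (x : V) : fcor β D x x = 1 := by
  unfold fcor
  rw [div_eq_one_iff_eq (pz_pos _ _ _).ne']
  unfold pz
  refine sum_congr rfl fun M _ => ?_
  rw [spin_sq, mul_one]

lemma fcor_comm (β : ℝ) (D : Finset V) (x y : V) : fcor β D x y = fcor β D y x := by
  unfold fcor
  congr 1
  refine sum_congr rfl fun M _ => ?_
  rw [mul_comm (spin M x)]

/-- the value for one edge -/
def dl (β : ℝ) : ℝ := (Real.exp β - Real.exp (-β)) / (Real.exp β + Real.exp (-β))

lemma dl_pos {β : ℝ} (h : 0 < β) : 0 < dl β := by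
  unfold dl
  apply div_pos
  · have : Real.exp (-β) < Real.exp β := Real.exp_lt_exp.2 (by linarith)
    linarith
  · positivity

lemma dl_le_one (β : ℝ) : dl β ≤ 1 := by
  unfold dl
  rw [div_le_one (by positivity)]
  have := Real.exp_pos (-β)
  linarith

lemma dir_ne (k : Fin 3) : dir k ≠ 0 := by
  fin_cases k <;> simp [dir]

lemma inn_pair (u : V) (k : Fin 3) : inn {u, u + dir k} = {(u, k)} := by
  ext ⟨w, j⟩
  rw [mem_inn, mem_singleton]
  obtain ⟨u1, u2⟩ := u
  obtain ⟨w1, w2⟩ := w
  simp only [mem_insert, mem_singleton, tip, Prod.mk.injEq]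
  fin_cases k <;> fin_cases j <;> simp [dir, Prod.ext_iff] <;> omega

lemma fcor_pair (β : ℝ) (u : V) (k : Fin 3) : fcor β {u, u + dir k} u (u + dir k) = dl β := by
  have hne : u ≠ u + dir k := by
    intro h
    exact dir_ne k (by simpa using h.symm)
  have hs : ∀ f : Finset V → ℝ, ∑ M ∈ ({u, u + dir k} : Finset V).powerset, f M =
      f ∅ + f {u + dir k} + (f {u} + f {u, u + dir k}) := by
    intro f
    rw [sum_powerset_insert (by simpa using hne)]
    rw [show ({u + dir k} : Finset V) = insert (u + dir k) ∅ from rfl]
    rw [sum_powerset_insert (by simp), sum_powerset_insert (by simp)]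
    simp
  unfold fcor pz
  rw [inn_pair, hs, hs]
  simp only [sum_singleton, tip]
  have h0 : ∀ x : V, spin ∅ x = 1 := fun x => by simp [spin]
  have h1 : spin {u + dir k} u = 1 := by simp [spin, hne]
  have h2 : spin {u + dir k} (u + dir k) = -1 := by simp [spin]
  have h3 : spin {u} u = -1 := by simp [spin]
  have h4 : spin {u} (u + dir k) = 1 := by
    have : u + dir k ≠ u := hne.symm
    simp only [spin, mem_singleton, this, if_false]
  have h5 : spin {u, u + dir k} u = -1 := by simp [spin]
  have h6 : spin {u, u + dir k} (u + dir k) = -1 := by simp [spin]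
  rw [h0, h0, h1, h2, h3, h4, h5, h6]
  unfold dl
  have e1 : β * (1 * 1) = β := by ring
  have e2 : β * (1 * -1) = -β := by ring
  have e3 : β * (-1 * 1) = -β := by ring
  have e4 : β * (-1 * -1) = β := by ring
  rw [e1, e2, e3, e4]
  have hp : 0 < Real.exp β + Real.exp (-β) := by positivity
  rw [div_eq_div_iff (by positivity) hp.ne']
  ring

lemma fcor_edge (hFMON : S_FMON) {β : ℝ} (hβ : 0 ≤ β) (D : Finset V) (u : V) (k : Fin 3) (hu : u ∈ D)
    (hv : u + dir k ∈ D) : dl β ≤ fcor β D u (u + dir k) := by
  have hne : u ≠ u + dir k := by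
    intro h
    exact dir_ne k (by simpa using h.symm)
  have key : ∀ D' : Finset V, EV (fun D => D) (sw β) D'
      (fun c => ∏ e ∈ ({u, u + dir k} : Finset V), if e ∈ c then (-1 : ℝ) else 1) =
      fcor β D' u (u + dir k) := by
    intro D'
    unfold EV fcor TW pz
    congr 1
    refine sum_congr rfl fun M _ => ?_
    beta_reduce
    rw [prod_pair hne]
    rfl
  have hsub : ({u, u + dir k} : Finset V) ⊆ D := by
    intro x hx
    rw [mem_insert, mem_singleton] at hx
    rcases hx with rfl | rfl
    · exact hu
    · exact hv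
  have h := hFMON β {u, u + dir k} D {u, u + dir k} hβ hsub (Subset.refl _)
  rw [key, key, fcor_pair] at h
  exact h

lemma path (hFC3 : S_FC3) (hFMON : S_FMON) {β : ℝ} (hβ : 0 < β) (l : ℕ) :
    ∀ (a x : V) (D : Finset V), a.1.natAbs + a.2.natAbs ≤ l → Hx x l ⊆ D →
      dl β ^ l ≤ fcor β D x (a + x) := by
  induction l with
  | zero =>
    intro a x D ha _
    have h1 : a = 0 := by
      ext
      · simp only [Prod.fst_zero]; omega
      · simp only [Prod.snd_zero]; omega
    rw [h1, zero_add, fcor_self, pow_zero]
  | succ l ih =>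
    intro a x D ha hD
    by_cases h0 : a = 0
    · rw [h0, zero_add, fcor_self]
      exact pow_le_one₀ (dl_pos hβ).le (dl_le_one β)
    · have hsub : Hx x l ⊆ D := by
        intro y hy
        apply hD
        rw [mem_Hx] at hy ⊢
        push_cast
        omega
      have hin : ∀ b : V, b.1.natAbs + b.2.natAbs ≤ l + 1 → b + x ∈ D := by
        intro b hb
        apply hD
        rw [mem_Hx]
        simp only [Prod.fst_add, Prod.snd_add]
        push_cast
        omega
      -- one step
      have step : ∀ (b : V) (k : Fin 3), b.1.natAbs + b.2.natAbs ≤ l →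
          (a = b + dir k ∨ b = a + dir k) → dl β ^ (l + 1) ≤ fcor β D x (a + x) := by
        intro b k hb hab
        have h1 := ih b x D hb hsub
        have h2 : dl β ≤ fcor β D (b + x) (a + x) := by
          rcases hab with h | h
          · have h3 : a + x = (b + x) + dir k := by rw [h]; abel
            rw [h3]
            refine fcor_edge hFMON hβ.le D _ k (hin b (by omega)) ?_
            rw [← h3]; exact hin a ha
          · have h3 : b + x = (a + x) + dir k := by rw [h]; abel
            rw [h3, fcor_comm]
            refine fcor_edge hFMON hβ.le D _ k (hin a ha) ?_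
            rw [← h3]; exact hin b (by omega)
        have h4 := hFC3 β D x (b + x) (a + x) hβ.le
        calc dl β ^ (l + 1) = dl β ^ l * dl β := pow_succ _ _
          _ ≤ fcor β D x (b + x) * fcor β D (b + x) (a + x) :=
            mul_le_mul h1 h2 (dl_pos hβ).le ((pow_nonneg (dl_pos hβ).le _).trans h1)
          _ ≤ _ := h4
      obtain ⟨p, q⟩ := a
      by_cases hq : q = 0
      · have hp : p ≠ 0 := by
          rintro rfl
          exact h0 (by rw [hq]; rfl)
        simp only at ha
        rcases lt_or_gt_of_ne hp with hp | hp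
        · refine step (p + 1, q) 0 (by simp only; omega) (Or.inr ?_)
          ext <;> simp [dir]
        · refine step (p - 1, q) 0 (by simp only; omega) (Or.inl ?_)
          ext <;> simp [dir]
      · simp only at ha
        rcases lt_or_gt_of_ne hq with hq | hq
        · refine step (p, q + 1) 1 (by simp only; omega) (Or.inr ?_)
          ext <;> simp [dir]
        · refine step (p, q - 1) 1 (by simp only; omega) (Or.inl ?_)
          ext <;> simp [dir]

end DFPOS

theorem p_FPOS (hFC3 : S_FC3) (hFMON : S_FMON) (_hFES : S_FES) : S_FPOS := by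
  intro β F hβ
  refine ⟨DFPOS.dl β ^ (F.sup fun a => a.1.natAbs + a.2.natAbs), pow_pos (DFPOS.dl_pos hβ) _,
    F.sup fun a => a.1.natAbs + a.2.natAbs, fun x D hD a ha => ?_⟩
  exact DFPOS.path hFC3 hFMON hβ _ a x D (le_sup (f := fun a : V => a.1.natAbs + a.2.natAbs) ha) hD

end

end CNL
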