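import Pool.Agent.Work.MP_bda6fa_cnl.IC2
import Pool.Agent.Work.MP_bda6fa_nest.G1
set_option autoImplicit false

/-! Block D_G2 (typed by helper16): the second inequality of Griffiths. -/

namespace CNL
open XorIsing
open scoped Classical
open Finset Relation Filter Topology

namespace DG2

theorem sq_prod (S M : Finset V) : (∏ x ∈ S, spin M x) * ∏ x ∈ S, spin M x = 1 := by
  rw [← prod_mul_distrib]
  refine prod_eq_one fun x _ => ?_
  rcases spin_cases M x with h | h <;> rw [h] <;> norm_num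

theorem prod_symm (A B M : Finset V) :
    ∏ x ∈ symmDiff A B, spin M x = (∏ x ∈ A, spin M x) * ∏ x ∈ B, spin M x := by
  have h0 : symmDiff A B = (A \ B) ∪ (B \ A) := rfl
  have h1 : (∏ x ∈ A ∩ B, spin M x) * (∏ x ∈ A \ B, spin M x) = ∏ x ∈ A, spin M x :=
    prod_inter_mul_prod_sdiff A B _
  have h2 : (∏ x ∈ B ∩ A, spin M x) * (∏ x ∈ B \ A, spin M x) = ∏ x ∈ B, spin M x :=
    prod_inter_mul_prod_sdiff B A _
  have h3 := sq_prod (A ∩ B) M
  rw [h0, prod_union disjoint_sdiff_sdiff, ← h1, ← h2, inter_comm B A]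
  linear_combination (-(∏ x ∈ A \ B, spin M x) * (∏ x ∈ B \ A, spin M x)) * h3

theorem sum_shift (D M' : Finset V) (hM' : M' ∈ D.powerset) (G : Finset V → ℝ) :
    ∑ M ∈ D.powerset, G M = ∑ X ∈ D.powerset, G (symmDiff M' X) := by
  have h1 : ∀ X ∈ D.powerset, symmDiff M' X ∈ D.powerset := fun X hX =>
    mem_powerset.2 (symmDiff_sub (mem_powerset.1 hM') (mem_powerset.1 hX))
  have h2 : ∀ X : Finset V, symmDiff M' (symmDiff M' X) = X := by
    intro X
    rw [← symmDiff_assoc, symmDiff_self]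
    exact bot_symmDiff X
  refine sum_nbij' (fun M => symmDiff M' M) (fun X => symmDiff M' X) h1 h1 (fun M _ => h2 M)
    (fun X _ => h2 X) (fun M _ => ?_)
  show G M = G (symmDiff M' (symmDiff M' M))
  rw [h2]

end DG2

theorem p_G2 : S_G2 := by
  intro D F J A B hJ
  obtain ⟨w, hw⟩ : ∃ w : Finset V → ℝ, w = fun M =>
      Real.exp (∑ e ∈ F, J e * (spin M e.1 * spin M (tip e))) := ⟨_, rfl⟩
  obtain ⟨a, ha⟩ : ∃ a : Finset V → ℝ, a = fun M => ∏ x ∈ A, spin M x := ⟨_, rfl⟩
  obtain ⟨b, hb⟩ : ∃ b : Finset V → ℝ, b = fun M => ∏ x ∈ B, spin M x := ⟨_, rfl⟩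
  have hab : ∀ M, ∏ x ∈ symmDiff A B, spin M x = a M * b M := fun M => by
    rw [DG2.prod_symm, ha, hb]
  have e1 : pA D F J A = ∑ M ∈ D.powerset, w M * a M := by rw [hw, ha]; rfl
  have e1b : pA D F J B = ∑ M ∈ D.powerset, w M * b M := by rw [hw, hb]; rfl
  have e2 : pA D F J ∅ = ∑ M ∈ D.powerset, w M := by
    rw [hw]
    unfold pA
    exact sum_congr rfl fun M _ => by rw [prod_empty, mul_one]
  have e3' : pA D F J (symmDiff A B) = ∑ M ∈ D.powerset, w M * (a M * b M) := by
    rw [hw]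
    unfold pA
    exact sum_congr rfl fun M _ => by rw [hab]
  have e3 : pA D F J (symmDiff A B) * pA D F J ∅ - pA D F J A * pA D F J B
      = ∑ M' ∈ D.powerset, ∑ M ∈ D.powerset, w M' * w M * (a M' * (b M' - b M)) := by
    rw [e1, e1b, e2, e3', sum_mul_sum, sum_mul_sum, ← sum_sub_distrib]
    refine sum_congr rfl fun M' _ => ?_
    rw [← sum_sub_distrib]
    refine sum_congr rfl fun M _ => ?_
    ring
  have e4 : pA D F J (symmDiff A B) * pA D F J ∅ - pA D F J A * pA D F J B
      = ∑ X ∈ D.powerset, (1 - b X) *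
        pA D F (fun e => J e * (1 + spin X e.1 * spin X (tip e))) (symmDiff A B) := by
    rw [e3]
    have e5 : ∀ M' ∈ D.powerset, ∑ M ∈ D.powerset, w M' * w M * (a M' * (b M' - b M))
        = ∑ X ∈ D.powerset, w M' * w (symmDiff M' X) * (a M' * (b M' - b (symmDiff M' X))) :=
      fun M' hM' => DG2.sum_shift D M' hM' _
    rw [sum_congr rfl e5, sum_comm]
    refine sum_congr rfl fun X _ => ?_
    unfold pA
    rw [mul_sum]
    refine sum_congr rfl fun M' _ => ?_
    have e6 : b (symmDiff M' X) = b M' * b X := by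
      rw [hb]
      show ∏ x ∈ B, spin (symmDiff M' X) x = (∏ x ∈ B, spin M' x) * ∏ x ∈ B, spin X x
      rw [← prod_mul_distrib]
      exact prod_congr rfl fun x _ => spin_symmDiff M' X x
    have e7 : w M' * w (symmDiff M' X) = Real.exp (∑ e ∈ F,
        (J e * (1 + spin X e.1 * spin X (tip e))) * (spin M' e.1 * spin M' (tip e))) := by
      rw [hw]
      show Real.exp _ * Real.exp _ = _
      rw [← Real.exp_add]
      congr 1
      rw [← sum_add_distrib]
      refine sum_congr rfl fun e _ => ?_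
      rw [spin_symmDiff, spin_symmDiff]
      ring
    rw [e7, e6, hab]
    ring
  have e10 : 0 ≤ ∑ X ∈ D.powerset, (1 - b X) *
      pA D F (fun e => J e * (1 + spin X e.1 * spin X (tip e))) (symmDiff A B) := by
    refine sum_nonneg fun X _ => mul_nonneg ?_ (p_G1 D F _ _ ?_)
    · have : b X = 1 ∨ b X = -1 := by
        rw [hb]
        show ∏ x ∈ B, spin X x = 1 ∨ ∏ x ∈ B, spin X x = -1
        refine Finset.prod_induction _ (fun r => r = 1 ∨ r = -1) ?_ (Or.inl rfl)
          (fun x _ => spin_cases X x)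
        rintro x y (rfl | rfl) (rfl | rfl) <;> norm_num
      rcases this with h1 | h1 <;> rw [h1] <;> norm_num
    · intro e he
      show 0 ≤ J e * (1 + spin X e.1 * spin X (tip e))
      apply mul_nonneg (hJ e he)
      rcases spin_cases X e.1 with h1 | h1 <;> rcases spin_cases X (tip e) with h2 | h2 <;>
        rw [h1, h2] <;> norm_num
  linarith

end CNL
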