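import Pool.Agent.Work.MP_bda6fa_cnl.IC
import Pool.Agent.Work.MP_bda6fa_nest.PLUS
import Pool.Agent.Work.MP_bda6fa_nest.TRC
set_option autoImplicit false

/-! Block GKSP: the free two point function is bounded by the square of the plus magnetization. -/

namespace CNL
open XorIsing
open scoped Classical
open Finset Relation Filter Topology

noncomputable section

namespace DGKSP

/-- factorization of a sum over the subsets of a disjoint union -/
theorem fac {B₁ B₂ : Finset V} (h : Disjoint B₁ B₂) (f g : Finset V → ℝ) :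
    ∑ M ∈ (B₁ ∪ B₂).powerset, f (M ∩ B₁) * g (M ∩ B₂) = (∑ M ∈ B₁.powerset, f M) * ∑ M ∈ B₂.powerset, g M := by
  rw [sum_mul_sum, ← sum_product']
  refine sum_nbij' (fun M => (M ∩ B₁, M ∩ B₂)) (fun p => p.1 ∪ p.2) ?_ ?_ ?_ ?_ ?_
  · intro M _
    rw [mem_product, mem_powerset, mem_powerset]
    exact ⟨inter_subset_right, inter_subset_right⟩
  · intro p hp
    rw [mem_product, mem_powerset, mem_powerset] at hp
    rw [mem_powerset]
    exact union_subset_union hp.1 hp.2
  · intro M hM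
    rw [mem_powerset] at hM
    show (M ∩ B₁) ∪ (M ∩ B₂) = M
    rw [← inter_union_distrib_left]
    exact inter_eq_left.2 hM
  · intro p hp
    rw [mem_product, mem_powerset, mem_powerset] at hp
    refine Prod.ext ?_ ?_
    · show (p.1 ∪ p.2) ∩ B₁ = p.1
      ext v
      rw [mem_inter, mem_union]
      constructor
      · rintro ⟨h1 | h1, h2⟩
        · exact h1
        · exact absurd h2 (fun h3 => disjoint_left.1 h h3 (hp.2 h1))
      · intro h1
        exact ⟨Or.inl h1, hp.1 h1⟩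
    · show (p.1 ∪ p.2) ∩ B₂ = p.2
      ext v
      rw [mem_inter, mem_union]
      constructor
      · rintro ⟨h1 | h1, h2⟩
        · exact absurd h2 (fun h3 => disjoint_left.1 h (hp.1 h1) h3)
        · exact h1
      · intro h1
        exact ⟨Or.inr h1, hp.2 h1⟩
  · intro M _
    rfl

theorem spin_l {B₁ B₂ M : Finset V} (hM : M ⊆ B₁ ∪ B₂) {v : V} (hv : v ∉ B₂) : spin M v = spin (M ∩ B₁) v := by
  unfold spin
  refine if_congr ?_ rfl rfl
  rw [mem_inter]
  constructor
  · intro h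
    rcases mem_union.1 (hM h) with h1 | h1
    · exact ⟨h, h1⟩
    · exact absurd h1 hv
  · exact fun h => h.1

theorem spin_r {B₁ B₂ M : Finset V} (hM : M ⊆ B₁ ∪ B₂) {v : V} (hv : v ∉ B₁) : spin M v = spin (M ∩ B₂) v := by
  rw [union_comm] at hM
  exact spin_l hM hv

/-- two sets which are not adjacent -/
def NA (B₁ B₂ : Finset V) : Prop := ∀ e : Edge, (e.1 ∈ B₁ ∨ tip e ∈ B₁) → e.1 ∉ B₂ ∧ tip e ∉ B₂

theorem wt_fac {B₁ B₂ : Finset V} (h : NA B₁ B₂) (β : ℝ) {M : Finset V} (hM : M ⊆ B₁ ∪ B₂) :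
    Real.exp (β * ∑ e ∈ near (B₁ ∪ B₂), spin M e.1 * spin M (tip e)) = wt β B₁ (M ∩ B₁) * wt β B₂ (M ∩ B₂) := by
  have h' : NA B₂ B₁ := by
    intro e he
    constructor
    · intro h1
      obtain ⟨h2, h3⟩ := h e (Or.inl h1)
      rcases he with h4 | h4
      · exact h2 h4
      · exact h3 h4
    · intro h1
      obtain ⟨h2, h3⟩ := h e (Or.inr h1)
      rcases he with h4 | h4
      · exact h2 h4
      · exact h3 h4
  have h1 : near (B₁ ∪ B₂) = near B₁ ∪ near B₂ := by
    ext e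
    rw [mem_union, mem_near, mem_near, mem_near, mem_union, mem_union]
    tauto
  have h2 : Disjoint (near B₁) (near B₂) := by
    rw [disjoint_left]
    intro e he he'
    rw [mem_near] at he he'
    obtain ⟨h3, h4⟩ := h e he
    rcases he' with h5 | h5
    · exact h3 h5
    · exact h4 h5
  unfold wt
  rw [h1, sum_union h2, mul_add, Real.exp_add]
  congr 3
  · refine sum_congr rfl fun e he => ?_
    obtain ⟨h3, h4⟩ := h e (mem_near.1 he)
    rw [spin_l hM h3, spin_l hM h4]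
  · refine sum_congr rfl fun e he => ?_
    obtain ⟨h3, h4⟩ := h' e (mem_near.1 he)
    rw [spin_r hM h3, spin_r hM h4]

/-- edges away from U give a constant -/
theorem exp_const (β : ℝ) {U M : Finset V} {F : Finset Edge} (hF : near U ⊆ F) (hM : M ⊆ U) :
    Real.exp (β * ∑ e ∈ F, spin M e.1 * spin M (tip e)) = Real.exp (β * (F \ near U).card) *
      Real.exp (β * ∑ e ∈ near U, spin M e.1 * spin M (tip e)) := by
  rw [← Real.exp_add, ← mul_add]
  congr 2
  have h3 : ∑ e ∈ F \ near U, spin M e.1 * spin M (tip e) = ((F \ near U).card : ℝ) := by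
    rw [card_eq_sum_ones]
    push_cast
    refine sum_congr rfl fun e he => ?_
    have h4 := (mem_sdiff.1 he).2
    rw [mem_near, not_or] at h4
    have h5 : e.1 ∉ M := fun hm => h4.1 (hM hm)
    have h6 : tip e ∉ M := fun hm => h4.2 (hM hm)
    unfold spin
    rw [if_neg h5, if_neg h6, one_mul]
  rw [← h3, sum_sdiff hF]

/-- sum over B of the correlations of A ∪ B -/
theorem sum_pAB (β : ℝ) (D Λ A : Finset V) (F : Finset Edge) (hΛ : Λ ⊆ D) (hA : A ⊆ Λ) :
    ∑ B ∈ (D \ Λ).powerset, pA D F (fun _ => β) (symmDiff A B) = (2 : ℝ) ^ (D \ Λ).card *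
      ∑ M ∈ Λ.powerset, Real.exp (β * ∑ e ∈ F, spin M e.1 * spin M (tip e)) * ∏ a ∈ A, spin M a := by
  unfold pA
  rw [Finset.sum_comm]
  have h1 : ∀ M ∈ D.powerset, ∑ B ∈ (D \ Λ).powerset,
      Real.exp (∑ e ∈ F, (fun _ => β) e * (spin M e.1 * spin M (tip e))) * ∏ a ∈ symmDiff A B, spin M a
      = if Disjoint M (D \ Λ) then
          (2 : ℝ) ^ (D \ Λ).card * (Real.exp (β * ∑ e ∈ F, spin M e.1 * spin M (tip e)) * ∏ a ∈ A, spin M a)
        else 0 := by
    intro M _
    have h2 : ∀ B ∈ (D \ Λ).powerset,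
        Real.exp (∑ e ∈ F, (fun _ => β) e * (spin M e.1 * spin M (tip e))) * ∏ a ∈ symmDiff A B, spin M a =
        (Real.exp (∑ e ∈ F, (fun _ => β) e * (spin M e.1 * spin M (tip e))) * ∏ a ∈ A, spin M a) *
          ∏ a ∈ B, spin M a := by
      intro B hB
      rw [mem_powerset] at hB
      have h3 : Disjoint A B := by
        rw [disjoint_left]
        intro a ha hb
        exact (mem_sdiff.1 (hB hb)).2 (hA ha)
      rw [mul_assoc, ← prod_union h3, Disjoint.symmDiff_eq_sup h3]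
      rfl
    rw [sum_congr rfl h2, ← Finset.mul_sum, PLUSaux.sum_prod_spin, PLUSaux.exp_eq]
    split_ifs
    · ring
    · ring
  rw [Finset.sum_congr rfl h1, ← Finset.sum_filter]
  have h2 : D.powerset.filter (fun M => Disjoint M (D \ Λ)) = Λ.powerset := by
    ext M
    rw [Finset.mem_filter, Finset.mem_powerset, Finset.mem_powerset]
    constructor
    · rintro ⟨h3, h4⟩ x hx
      by_contra h5
      exact Finset.disjoint_left.1 h4 hx (Finset.mem_sdiff.2 ⟨h3 hx, h5⟩)
    · intro h3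
      refine ⟨h3.trans hΛ, Finset.disjoint_left.2 fun x hx hx' => ?_⟩
      exact (Finset.mem_sdiff.1 hx').2 (h3 hx)
  rw [h2, Finset.mul_sum]

theorem shiftBox {x : V} {n : ℕ} {u : V} : u ∈ shift x (XorIsing.box n) ↔ u - x ∈ XorIsing.box n := by
  unfold shift
  rw [mem_image]
  constructor
  · rintro ⟨a, ha, rfl⟩
    rwa [add_sub_cancel_right]
  · intro h
    exact ⟨u - x, h, sub_add_cancel _ _⟩

theorem na_box {N : ℕ} {x : V} (hx : x ∉ XorIsing.box (2 * N + 2)) : NA (XorIsing.box N) (shift x (XorIsing.box N)) := by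
  intro e he
  obtain ⟨⟨a, b⟩, k⟩ := e
  obtain ⟨p, q⟩ := x
  rw [shiftBox, shiftBox, mem_box, mem_box]
  rw [mem_box, mem_box] at he
  rw [mem_box] at hx
  push_cast at hx
  fin_cases k
  · have h3 : tip (((a, b), 0) : Edge) = (a + 1, b + 0) := rfl
    simp only [Fin.zero_eta, Fin.isValue, h3, Prod.fst_sub, Prod.snd_sub] at he ⊢
    omega
  · have h3 : tip (((a, b), 1) : Edge) = (a + 0, b + 1) := rfl
    simp only [Fin.mk_one, Fin.isValue, h3, Prod.fst_sub, Prod.snd_sub] at he ⊢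
    omega
  · have h3 : tip (((a, b), 2) : Edge) = (a + 1, b + -1) := rfl
    simp only [Fin.reduceFinMk, Fin.isValue, h3, Prod.fst_sub, Prod.snd_sub] at he ⊢
    omega

theorem near_box_inn {N : ℕ} {D : Finset V} {x : V} (h : shift x (XorIsing.box (N + 1)) ⊆ D) :
    near (shift x (XorIsing.box N)) ⊆ inn D := by
  intro e he
  rw [mem_near] at he
  rw [mem_inn]
  have key : e.1 ∈ shift x (XorIsing.box (N + 1)) ∧ tip e ∈ shift x (XorIsing.box (N + 1)) := by
    obtain ⟨⟨a, b⟩, k⟩ := e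
    obtain ⟨p, q⟩ := x
    rw [shiftBox, shiftBox, mem_box, mem_box] at he ⊢
    push_cast
    fin_cases k
    · have h3 : tip (((a, b), 0) : Edge) = (a + 1, b + 0) := rfl
      simp only [Fin.zero_eta, Fin.isValue, h3, Prod.fst_sub, Prod.snd_sub] at he ⊢
      omega
    · have h3 : tip (((a, b), 1) : Edge) = (a + 0, b + 1) := rfl
      simp only [Fin.mk_one, Fin.isValue, h3, Prod.fst_sub, Prod.snd_sub] at he ⊢
      omega
    · have h3 : tip (((a, b), 2) : Edge) = (a + 1, b + -1) := rfl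
      simp only [Fin.reduceFinMk, Fin.isValue, h3, Prod.fst_sub, Prod.snd_sub] at he ⊢
      omega
  exact ⟨h key.1, h key.2⟩

theorem shift_zero (B : Finset V) : shift (0, 0) B = B := by
  unfold shift
  ext v
  rw [mem_image]
  constructor
  · rintro ⟨a, ha, rfl⟩
    have : a + ((0, 0) : V) = a := add_zero a
    rwa [this]
  · intro h
    exact ⟨v, h, add_zero v⟩

theorem fin_step {a C z₁ z₂ c p : ℝ} (h6 : 0 < C * (z₁ * z₂)) (h2 : a * (C * (z₁ * z₂)) ≤
    C * ((c * z₁) * (c * z₂)) * p) : a ≤ c ^ 2 * p := by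
  refine le_of_mul_le_mul_right ?_ h6
  calc _ ≤ _ := h2
    _ = _ := by ring

theorem fcor_eq (β : ℝ) (D : Finset V) {x y : V} (h : x ≠ y) :
    fcor β D x y = pA D (inn D) (fun _ => β) {x, y} / pz β D (inn D) := by
  unfold fcor pA
  congr 1
  refine sum_congr rfl fun M _ => ?_
  rw [PLUSaux.exp_eq, prod_pair h]

end DGKSP

open DGKSP

set_option maxHeartbeats 1000000 in
theorem p_GKSP (hG2 : S_G2) : S_GKSP := by
  intro β N x D hβ hD1 hD2 hx
  set B₁ := XorIsing.box N with hB₁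
  set B₂ := shift x (XorIsing.box N) with hB₂
  have hna : NA B₁ B₂ := na_box hx
  have h0B : ((0, 0) : V) ∈ B₁ := by
    rw [hB₁, mem_box]
    constructor <;> constructor <;> simp
  have hxB : x ∈ B₂ := by
    rw [hB₂, shiftBox, sub_self]
    exact h0B
  have hdis : Disjoint B₁ B₂ := by
    rw [disjoint_left]
    intro v hv hv'
    exact (hna (v, 0) (Or.inl hv)).1 hv'
  have h0x : ((0, 0) : V) ≠ x := by
    intro h
    exact disjoint_left.1 hdis h0B (h ▸ hxB)
  have h0B2 : ((0, 0) : V) ∉ B₂ := fun h => disjoint_left.1 hdis h0B h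
  have hxB1 : x ∉ B₁ := fun h => disjoint_left.1 hdis h hxB
  have hn1 : near B₁ ⊆ inn D := by
    have := near_box_inn (N := N) (D := D) (x := (0, 0)) (by rw [shift_zero]; exact hD1)
    rw [shift_zero] at this
    exact this
  have hn2 : near B₂ ⊆ inn D := near_box_inn hD2
  have hbb : XorIsing.box N ⊆ XorIsing.box (N + 1) := by
    intro v hv
    rw [mem_box] at hv ⊢
    push_cast
    omega
  have hUD : B₁ ∪ B₂ ⊆ D := by
    refine union_subset (hbb.trans hD1) (fun v hv => hD2 ?_)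
    rw [hB₂, shiftBox] at hv
    rw [shiftBox]
    exact hbb hv
  have hnU : near (B₁ ∪ B₂) ⊆ inn D := by
    intro e he
    rw [mem_near, mem_union, mem_union] at he
    rcases he with (h | h) | (h | h)
    · exact hn1 (mem_near.2 (Or.inl h))
    · exact hn2 (mem_near.2 (Or.inl h))
    · exact hn1 (mem_near.2 (Or.inr h))
    · exact hn2 (mem_near.2 (Or.inr h))
  -- G2 summed over B
  have h1 : ∑ B ∈ (D \ (B₁ ∪ B₂)).powerset, pA D (inn D) (fun _ => β) {(0, 0), x} * pA D (inn D) (fun _ => β) B ≤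
      ∑ B ∈ (D \ (B₁ ∪ B₂)).powerset, pA D (inn D) (fun _ => β) (symmDiff {(0, 0), x} B) *
        pA D (inn D) (fun _ => β) ∅ :=
    sum_le_sum fun B _ => hG2 D (inn D) (fun _ => β) _ B (fun _ _ => hβ)
  have hA : ({(0, 0), x} : Finset V) ⊆ B₁ ∪ B₂ := by
    intro v hv
    rw [mem_insert, mem_singleton] at hv
    rcases hv with rfl | rfl
    · exact mem_union_left _ h0B
    · exact mem_union_right _ hxB
  rw [← mul_sum, ← sum_mul, PLUSaux.sum_pA β D _ _ hUD, sum_pAB β D _ _ _ hUD hA, PLUSaux.pA_empty] at h1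
  set Q := ∑ M ∈ (B₁ ∪ B₂).powerset, Real.exp (β * ∑ e ∈ inn D, spin M e.1 * spin M (tip e)) *
    ∏ a ∈ ({(0, 0), x} : Finset V), spin M a with hQ
  have h2 : pA D (inn D) (fun _ => β) {(0, 0), x} * pz β (B₁ ∪ B₂) (inn D) ≤ Q * pz β D (inn D) := by
    have h3 : (0 : ℝ) < 2 ^ (D \ (B₁ ∪ B₂)).card := by positivity
    refine le_of_mul_le_mul_left ?_ h3
    calc _ = pA D (inn D) (fun _ => β) {(0, 0), x} * (2 ^ (D \ (B₁ ∪ B₂)).card * pz β (B₁ ∪ B₂) (inn D)) := by ring
      _ ≤ _ := h1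
      _ = _ := by ring
  set C := Real.exp (β * (inn D \ near (B₁ ∪ B₂)).card) with hC
  have hQ2 : Q = C * ((∑ M ∈ B₁.powerset, wt β B₁ M * ∏ a ∈ ({(0, 0)} : Finset V), spin M a) *
      ∑ M ∈ B₂.powerset, wt β B₂ M * ∏ a ∈ ({x} : Finset V), spin M a) := by
    rw [← fac hdis (fun M => wt β B₁ M * ∏ a ∈ ({(0, 0)} : Finset V), spin M a)
      (fun M => wt β B₂ M * ∏ a ∈ ({x} : Finset V), spin M a), mul_sum, hQ]
    refine sum_congr rfl fun M hM => ?_
    rw [mem_powerset] at hM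
    rw [exp_const β hnU hM, wt_fac hna β hM, prod_pair h0x, prod_singleton, prod_singleton,
      spin_l hM h0B2, spin_r hM hxB1]
    ring
  have hZ2 : pz β (B₁ ∪ B₂) (inn D) = C * (ZZ β B₁ * ZZ β B₂) := by
    unfold ZZ pz
    rw [← fac hdis (fun M => wt β B₁ M) (fun M => wt β B₂ M), mul_sum]
    refine sum_congr rfl fun M hM => ?_
    rw [mem_powerset] at hM
    rw [exp_const β hnU hM, wt_fac hna β hM]
  have hc1 : corr β B₁ {(0, 0)} * ZZ β B₁ = ∑ M ∈ B₁.powerset, wt β B₁ M * ∏ a ∈ ({(0, 0)} : Finset V), spin M a := by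
    unfold corr
    exact div_mul_cancel₀ _ (ZZ_pos β B₁).ne'
  have hc2 : corr β B₂ {x} * ZZ β B₂ = ∑ M ∈ B₂.powerset, wt β B₂ M * ∏ a ∈ ({x} : Finset V), spin M a := by
    unfold corr
    exact div_mul_cancel₀ _ (ZZ_pos β B₂).ne'
  have hT : corr β B₂ {x} = corr β B₁ {(0, 0)} := p_TRC β N x
  rw [hQ2, hZ2, ← hc1, ← hc2, hT] at h2
  have hCpos : 0 < C := Real.exp_pos _
  have hZ1 := ZZ_pos β B₁
  have hZ2' := ZZ_pos β B₂
  have hpz := XorIsing.pz_pos β D (inn D)
  have h6 : 0 < C * (ZZ β B₁ * ZZ β B₂) := mul_pos hCpos (mul_pos hZ1 hZ2')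
  have h5 : pA D (inn D) (fun _ => β) {(0, 0), x} ≤ corr β B₁ {(0, 0)} ^ 2 * pz β D (inn D) :=
    fin_step h6 h2
  rw [fcor_eq β D h0x, div_le_iff₀ hpz]
  exact h5

end

end CNL
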