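import Pool.Agent.Work.MP_bda6fa_cnl.IC2
import Pool.Agent.Work.MP_bda6fa_XOR.PartB
set_option autoImplicit false

/-! LATF: log supermodularity of the random cluster weights. -/

namespace CNL
open XorIsing
open scoped Classical
open Finset Relation Filter Topology

namespace DLATF

theorem symm_compat {D M N : Finset V} {c d : Finset Edge} (hM : M ∈ compat D c) (hN : N ∈ compat D d) :
    symmDiff M N ∈ compat D (c ∩ d) := by
  rw [mem_compat] at *
  obtain ⟨h1, h2⟩ := hM
  obtain ⟨h3, h4⟩ := hN
  refine ⟨fun v hv => ?_, fun e he => ?_⟩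
  · rw [mem_symmDiff] at hv
    rcases hv with h | h
    · exact h1 h.1
    · exact h3 h.1
  · rw [mem_inter] at he
    rw [mem_symmDiff, mem_symmDiff, h2 e he.1, h4 e he.2]

theorem card_le (D : Finset V) (c d : Finset Edge) :
    (compat D c).card * (compat D d).card ≤ (compat D (c ∪ d)).card * (compat D (c ∩ d)).card := by
  rw [← card_product]
  refine card_le_mul_card_image_of_maps_to (f := fun q : Finset V × Finset V => symmDiff q.1 q.2) ?_ _ ?_
  · intro q hq
    rw [mem_product] at hq
    exact symm_compat hq.1 hq.2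
  · intro b _
    by_cases hne : ((compat D c ×ˢ compat D d).filter (fun q => symmDiff q.1 q.2 = b)).Nonempty
    · obtain ⟨q0, hq0⟩ := hne
      rw [mem_filter, mem_product] at hq0
      obtain ⟨⟨hc0, hd0⟩, hb0⟩ := hq0
      refine card_le_card_of_injOn (fun q => symmDiff q.1 q0.1) ?_ ?_
      · intro q hq
        rw [mem_coe, mem_filter, mem_product] at hq
        obtain ⟨⟨hc, hd⟩, hbq⟩ := hq
        have h1 : symmDiff q.1 q0.1 = symmDiff q.2 q0.2 := by
          have h2 : symmDiff (symmDiff q.1 q0.1) (symmDiff q.2 q0.2) = ⊥ := by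
            rw [symmDiff_symmDiff_symmDiff_comm, hbq, hb0, symmDiff_self]
          exact symmDiff_eq_bot.1 h2
        have h3 := symm_compat hc hc0
        have h4 := symm_compat hd hd0
        rw [inter_self] at h3 h4
        rw [← h1] at h4
        rw [mem_coe]
        show symmDiff q.1 q0.1 ∈ compat D (c ∪ d)
        rw [mem_compat] at h3 h4 ⊢
        refine ⟨h3.1, fun e he => ?_⟩
        rcases mem_union.1 he with h | h
        · exact h3.2 e h
        · exact h4.2 e h
      · intro q hq q' hq' hqq
        rw [mem_coe, mem_filter, mem_product] at hq hq'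
        have h1 : q.1 = q'.1 := symmDiff_left_injective q0.1 hqq
        have h2 : symmDiff q.1 q.2 = symmDiff q.1 q'.2 := by
          rw [hq.2]
          have := hq'.2
          rw [← h1] at this
          exact this.symm
        exact Prod.ext h1 (symmDiff_right_injective q.1 h2)
    · rw [not_nonempty_iff_eq_empty] at hne
      rw [hne, card_empty]
      exact Nat.zero_le _

end DLATF

open DLATF in
theorem p_LATF : S_LATF := by
  intro β D c d hβ _ _
  have hp : 0 ≤ Real.exp (2 * β) - 1 := by
    have := Real.one_le_exp (show 0 ≤ 2 * β by linarith)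
    linarith
  have h1 : ((2 : ℝ) ^ (fclusters D c).card) * 2 ^ (fclusters D d).card ≤
      2 ^ (fclusters D (c ∪ d)).card * 2 ^ (fclusters D (c ∩ d)).card := by
    have h := card_le D c d
    rw [card_compat, card_compat, card_compat, card_compat] at h
    exact_mod_cast h
  unfold fw
  have h2 : (Real.exp (2 * β) - 1) ^ c.card * (Real.exp (2 * β) - 1) ^ d.card =
      (Real.exp (2 * β) - 1) ^ (c ∪ d).card * (Real.exp (2 * β) - 1) ^ (c ∩ d).card := by
    rw [← pow_add, ← pow_add, card_union_add_card_inter]
  calc (Real.exp (2 * β) - 1) ^ c.card * 2 ^ (fclusters D c).card *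
      ((Real.exp (2 * β) - 1) ^ d.card * 2 ^ (fclusters D d).card)
      = ((Real.exp (2 * β) - 1) ^ c.card * (Real.exp (2 * β) - 1) ^ d.card) *
        (2 ^ (fclusters D c).card * 2 ^ (fclusters D d).card) := by ring
    _ ≤ ((Real.exp (2 * β) - 1) ^ (c ∪ d).card * (Real.exp (2 * β) - 1) ^ (c ∩ d).card) *
        (2 ^ (fclusters D (c ∪ d)).card * 2 ^ (fclusters D (c ∩ d)).card) := by
        rw [h2]
        exact mul_le_mul_of_nonneg_left h1 (mul_nonneg (pow_nonneg hp _) (pow_nonneg hp _))
    _ = _ := by ring

end CNL
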