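import Pool.Agent.Work.MP_bda6fa_cnl.IC2
set_option autoImplicit false

/-! Block LIMB: convergence of local events. -/

namespace CNL
open XorIsing
open scoped Classical
open Finset Relation Filter Topology

noncomputable section

theorem DLIMB.walsh {κ : Type} [DecidableEq κ] (a b : ℝ) (hab : a ≠ b) : ∀ (F : Finset κ)
    (f : Finset κ → ℝ), (∀ c, f c = f (c ∩ F)) → ∃ co : Finset κ → ℝ, ∀ c : Finset κ,
      f c = ∑ B ∈ F.powerset, co B * ∏ e ∈ B, (if e ∈ c then a else b) := by
  intro F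
  induction F using Finset.induction_on with
  | empty =>
    intro f hf
    refine ⟨fun _ => f ∅, fun c => ?_⟩
    rw [powerset_empty, sum_singleton, prod_empty, mul_one, hf c, inter_empty]
  | insert x F hx ih =>
    intro f hf
    have hd : a - b ≠ 0 := sub_ne_zero.2 hab
    obtain ⟨c0, h0⟩ := ih (fun c => f (c ∩ F)) (fun c => by
      show f (c ∩ F) = f (c ∩ F ∩ F)
      rw [inter_assoc, inter_self])
    obtain ⟨c1, h1⟩ := ih (fun c => f (insert x (c ∩ F))) (fun c => by
      show f (insert x (c ∩ F)) = f (insert x (c ∩ F ∩ F))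
      rw [inter_assoc, inter_self])
    refine ⟨fun B => if x ∈ B then (c1 (B.erase x) - c0 (B.erase x)) / (a - b)
      else (a * c0 B - b * c1 B) / (a - b), fun c => ?_⟩
    rw [sum_powerset_insert hx]
    have h0' : f (c ∩ F) = ∑ B ∈ F.powerset, c0 B * ∏ e ∈ B, (if e ∈ c then a else b) := h0 c
    have h1' : f (insert x (c ∩ F)) = ∑ B ∈ F.powerset, c1 B * ∏ e ∈ B, (if e ∈ c then a else b) :=
      h1 c
    have e1 : ∑ B ∈ F.powerset, (if x ∈ B then (c1 (B.erase x) - c0 (B.erase x)) / (a - b)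
        else (a * c0 B - b * c1 B) / (a - b)) * ∏ e ∈ B, (if e ∈ c then a else b) =
        (a * f (c ∩ F) - b * f (insert x (c ∩ F))) / (a - b) := by
      rw [h0', h1', mul_sum, mul_sum, ← sum_sub_distrib, sum_div]
      apply sum_congr rfl
      intro B hB
      have hxB : x ∉ B := fun h => hx (mem_powerset.1 hB h)
      rw [if_neg hxB]
      ring
    have e2 : ∑ B ∈ F.powerset, (if x ∈ insert x B then
        (c1 ((insert x B).erase x) - c0 ((insert x B).erase x)) / (a - b)
        else (a * c0 (insert x B) - b * c1 (insert x B)) / (a - b)) *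
        ∏ e ∈ insert x B, (if e ∈ c then a else b) =
        (if x ∈ c then a else b) * ((f (insert x (c ∩ F)) - f (c ∩ F)) / (a - b)) := by
      rw [h0', h1', ← sum_sub_distrib, sum_div, mul_sum]
      apply sum_congr rfl
      intro B hB
      have hxB : x ∉ B := fun h => hx (mem_powerset.1 hB h)
      rw [if_pos (mem_insert_self x B), erase_insert hxB, prod_insert hxB]
      ring
    rw [e1, e2, hf c]
    by_cases hxc : x ∈ c
    · rw [if_pos hxc, inter_insert_of_mem hxc]
      field_simp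
      ring
    · rw [if_neg hxc, inter_insert_of_notMem hxc]
      field_simp
      ring

theorem DLIMB.TW_pos {κ : Type} [DecidableEq κ] (E : Finset V → Finset κ)
    (w : Finset V → Finset κ → ℝ) (hpos : ∀ D c, c ⊆ E D → 0 < w D c) (D : Finset V) :
    0 < TW E w D := by
  unfold TW
  exact sum_pos (fun c hc => hpos D c (mem_powerset.1 hc)) ⟨∅, empty_mem_powerset _⟩

theorem DLIMB.EV_le {κ : Type} [DecidableEq κ] (E : Finset V → Finset κ)
    (w : Finset V → Finset κ → ℝ) (hpos : ∀ D c, c ⊆ E D → 0 < w D c) (D : Finset V)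
    (f : Finset κ → ℝ) (C : ℝ) (hf : ∀ c, f c ≤ C) : EV E w D f ≤ C := by
  unfold EV
  rw [div_le_iff₀ (DLIMB.TW_pos E w hpos D)]
  unfold TW
  rw [mul_sum]
  apply sum_le_sum
  intro c hc
  rw [mul_comm C]
  exact mul_le_mul_of_nonneg_left (hf c) (hpos D c (mem_powerset.1 hc)).le

theorem DLIMB.EV_sum {κ ι : Type} [DecidableEq κ] (E : Finset V → Finset κ)
    (w : Finset V → Finset κ → ℝ) (D : Finset V) (s : Finset ι) (co : ι → ℝ)
    (g : ι → Finset κ → ℝ) :
    EV E w D (fun c => ∑ i ∈ s, co i * g i c) = ∑ i ∈ s, co i * EV E w D (g i) := by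
  unfold EV
  have h : ∑ c ∈ (E D).powerset, w D c * ∑ i ∈ s, co i * g i c =
      ∑ i ∈ s, co i * ∑ c ∈ (E D).powerset, w D c * g i c := by
    simp only [mul_sum]
    rw [sum_comm]
    apply sum_congr rfl
    intro i _
    apply sum_congr rfl
    intro c _
    ring
  rw [h, sum_div]
  apply sum_congr rfl
  intro i _
  rw [mul_div_assoc]

theorem DLIMB.sub1 (x : V) (N : ℕ) : Hx (0, 0) N ⊆ Hx x (N + (x.1.natAbs + x.2.natAbs)) := by
  intro v hv
  rw [mem_Hx] at hv ⊢
  dsimp only at hv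
  omega

theorem DLIMB.sub2 (x : V) (N : ℕ) : Hx x (N + (x.1.natAbs + x.2.natAbs)) ⊆
    Hx (0, 0) (N + 2 * (x.1.natAbs + x.2.natAbs)) := by
  intro v hv
  rw [mem_Hx] at hv ⊢
  dsimp only
  omega

theorem DLIMB.sub0 {N M : ℕ} (h : N ≤ M) : Hx (0, 0) N ⊆ Hx (0, 0) M := by
  intro v hv
  rw [mem_Hx] at hv ⊢
  simp only at hv ⊢
  omega

theorem p_LIMB : S_LIMB := by
  intro κ _ E w a b hab hpos hmono hexh hmon A hA
  have key : ∀ S : Finset κ, ∃ l : ℝ, ∀ x : V, Tendsto (fun M : ℕ =>
      EV E w (Hx x M) (fun c => ∏ e ∈ S, if e ∈ c then a else b)) atTop (𝓝 l) := by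
    intro S
    obtain ⟨m, hm⟩ := hexh S
    have hC : ∀ c : Finset κ, (∏ e ∈ S, if e ∈ c then a else b) ≤ (max |a| |b|) ^ S.card := by
      intro c
      calc (∏ e ∈ S, if e ∈ c then a else b) ≤ |∏ e ∈ S, if e ∈ c then a else b| := le_abs_self _
        _ = ∏ e ∈ S, |if e ∈ c then a else b| := by rw [abs_prod]
        _ ≤ ∏ _e ∈ S, (max |a| |b|) := by
          apply prod_le_prod (fun e _ => abs_nonneg _)
          intro e _
          split_ifs
          · exact le_max_left _ _
          · exact le_max_right _ _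
        _ = (max |a| |b|) ^ S.card := by rw [prod_const]
    have hmo : Monotone (fun N : ℕ =>
        EV E w (Hx (0, 0) (N + m)) (fun c => ∏ e ∈ S, if e ∈ c then a else b)) := by
      intro N M hNM
      exact hmon S _ _ (DLIMB.sub0 (by omega))
        (hm.trans (hmono _ _ (DLIMB.sub0 (by omega))))
    have hbd : BddAbove (Set.range (fun N : ℕ =>
        EV E w (Hx (0, 0) (N + m)) (fun c => ∏ e ∈ S, if e ∈ c then a else b))) := by
      refine ⟨(max |a| |b|) ^ S.card, ?_⟩
      rintro _ ⟨N, rfl⟩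
      exact DLIMB.EV_le E w hpos _ _ _ hC
    obtain ⟨l, h0⟩ : ∃ l : ℝ, Tendsto (fun N : ℕ =>
        EV E w (Hx (0, 0) N) (fun c => ∏ e ∈ S, if e ∈ c then a else b)) atTop (𝓝 l) :=
      ⟨_, (tendsto_add_atTop_iff_nat m).1 (tendsto_atTop_ciSup hmo hbd)⟩
    refine ⟨l, fun x => ?_⟩
    rw [← tendsto_add_atTop_iff_nat (x.1.natAbs + x.2.natAbs)]
    refine tendsto_of_tendsto_of_tendsto_of_le_of_le' h0
      ((tendsto_add_atTop_iff_nat (2 * (x.1.natAbs + x.2.natAbs))).2 h0) ?_ ?_
    · filter_upwards [eventually_ge_atTop m] with N hN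
      exact hmon S _ _ (DLIMB.sub1 x N) (hm.trans (hmono _ _ (DLIMB.sub0 hN)))
    · filter_upwards [eventually_ge_atTop m] with N hN
      exact hmon S _ _ (DLIMB.sub2 x N) (hm.trans (hmono _ _
        ((DLIMB.sub0 hN).trans (DLIMB.sub1 x N))))
  choose l hl using key
  obtain ⟨F, hF⟩ := hA
  obtain ⟨co, hco⟩ := DLIMB.walsh a b hab F (fun c => if A (c : Set κ) then 1 else 0) (by
    intro c
    have h1 : A (c : Set κ) ↔ A ((c ∩ F : Finset κ) : Set κ) := by
      apply hF
      intro e he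
      simp [he]
    by_cases h : A (c : Set κ)
    · rw [if_pos h, if_pos (h1.1 h)]
    · rw [if_neg h, if_neg (fun h2 => h (h1.2 h2))])
  refine ⟨∑ B ∈ F.powerset, co B * l B, fun x => ?_⟩
  have e : ∀ M : ℕ, PV E w (Hx x M) A = ∑ B ∈ F.powerset,
      co B * EV E w (Hx x M) (fun c => ∏ e ∈ B, if e ∈ c then a else b) := by
    intro M
    unfold PV
    rw [← DLIMB.EV_sum]
    congr 1
    funext c
    exact hco c
  simp_rw [e]
  exact tendsto_finsetSum _ fun B _ => (hl B x).const_mul _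

end

end CNL
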