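import Pool.Agent.Work.MP_bda6fa_cnl.IC2
set_option autoImplicit false

/-! Block LKF (helper34). -/

namespace CNL
open XorIsing
open scoped Classical
open Finset Relation Filter Topology

namespace DLKF

theorem rtg_mono {α : Type} {r p : α → α → Prop} (h : ∀ a b, r a b → p a b) {a b : α}
    (hab : ReflTransGen r a b) : ReflTransGen p a b := by
  induction hab with
  | refl => exact .refl
  | tail _ h2 ih => exact ih.tail (h _ _ h2)

theorem BE_mono {b b' : Set Edge} (h : b ⊆ b') {u v : V} (hb : BE b u v) : BE b' u v := by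
  obtain ⟨e, he, h2⟩ := hb
  exact ⟨e, h he, h2⟩

theorem PArm_mono {b b' : Set Edge} (h : b ⊆ b') {k : ℕ} {x : V} {n R : ℕ} (hb : PArm b k x n R) :
    PArm b' k x n R := by
  obtain ⟨v, w, h1, h2, h3⟩ := hb
  exact ⟨v, w, h1, h2, rtg_mono (fun a c hac => ⟨hac.1, BE_mono h hac.2⟩) h3⟩

theorem TStep_mono {P Q : Edge → Prop} (h : ∀ e, P e → Q e) {t t' : V × Bool} (ht : TStep P t t') :
    TStep Q t t' := by
  obtain ⟨h1, e, h2, h3⟩ := ht
  exact ⟨h1, e, h e h2, h3⟩

theorem mem_Hx_tr {x v : V} {n : ℕ} : v + x ∈ Hx x n ↔ v ∈ Hx (0, 0) n := by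
  rw [mem_Hx, mem_Hx]
  simp only [Prod.fst_add, Prod.snd_add]
  constructor
  · rintro ⟨⟨h1, h2⟩, ⟨h3, h4⟩, h5, h6⟩
    refine ⟨⟨by linarith, by linarith⟩, ⟨by linarith, by linarith⟩, by linarith, by linarith⟩
  · rintro ⟨⟨h1, h2⟩, ⟨h3, h4⟩, h5, h6⟩
    refine ⟨⟨by linarith, by linarith⟩, ⟨by linarith, by linarith⟩, by linarith, by linarith⟩

theorem mem_inn_tr {x : V} {f : Edge} {n : ℕ} : trE x f ∈ inn (Hx x n) ↔ f ∈ inn (Hx (0, 0) n) := by
  rw [mem_inn, mem_inn]
  have h : tip (trE x f) = tip f + x := by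
    simp only [tip, trE]
    abel
  rw [h]
  exact and_congr mem_Hx_tr mem_Hx_tr

end DLKF

theorem p_LKF : S_LKF := by
  constructor
  · intro x e f h
    simp only [trE, Prod.mk.injEq, add_left_inj] at h
    exact Prod.ext h.1 h.2
  · intro k x n R c c' h
    exact DLKF.PArm_mono h
  · intro k x n R c c' h
    rintro ⟨i, hi, t, w, h1, h2, h3⟩
    exact ⟨i, hi, t, w, h1, h2, DLKF.rtg_mono
      (fun a d had => DLKF.TStep_mono (fun e he => ⟨he.1, fun h4 => he.2 (h h4)⟩) had) h3⟩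
  · intro x n
    ext e
    constructor
    · intro h
      have h' : e ∈ inn (Hx x n) := h
      have h1 : e = trE x (e.1 - x, e.2) := by simp [trE]
      rw [h1] at h'
      exact ⟨(e.1 - x, e.2), DLKF.mem_inn_tr.1 h', h1⟩
    · rintro ⟨f, hf, rfl⟩
      exact DLKF.mem_inn_tr.2 hf
  · intro x n c
    exact Set.subset_union_right
  · intro k x n R c _ _ h
    exact DLKF.PArm_mono Set.subset_union_left h
  · intro k x n R c _ _ h
    obtain ⟨i, hi, t, w, h1, h2, h3⟩ := h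
    refine ⟨i, hi, t, w, h1, h2, DLKF.rtg_mono
      (fun a d had => DLKF.TStep_mono (fun e he => ⟨he.1, Or.inl fun h4 => ?_⟩) had) h3⟩
    rcases h4 with h4 | h4
    · exact he.2 h4
    · exact he.1 h4

end CNL
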