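import Pool.Agent.Work.MP_bda6fa_cnl.IC2
set_option autoImplicit false

/-! Block LKS: the link for the spin model. -/

namespace CNL
open XorIsing
open scoped Classical
open Finset Relation Filter Topology

namespace DLKS

theorem sarm_mono {c c' : Set V} (h : c ⊆ c') {k : ℕ} {x : V} {n R : ℕ} (hs : SArm c k x n R) : SArm c' k x n R := by
  obtain ⟨u, w, h1, h2, h3, h4⟩ := hs
  refine ⟨u, w, h1, h h2, h3, ?_⟩
  refine ReflTransGen.mono ?_ _ _ h4
  intro a d hd
  exact ⟨h hd.1, hd.2⟩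

theorem trS (x : V) (n : ℕ) : (Hx x n : Set V) = {e | ∃ f ∈ Hx (0, 0) n, e = f + x} := by
  ext e
  simp only [Finset.mem_coe, Set.mem_setOf_eq]
  constructor
  · intro h
    refine ⟨e - x, ?_, by simp⟩
    rw [mem_Hx] at h ⊢
    simp only [Prod.fst_sub, Prod.snd_sub]
    omega
  · rintro ⟨f, hf, rfl⟩
    rw [mem_Hx] at hf ⊢
    simp only [Prod.fst_add, Prod.snd_add] at hf ⊢
    omega

end DLKS

theorem p_LKS (hMINUS : S_MINUS) (hPRIS : S_PRIS) : S_LKS := by
  unfold S_LKS
  refine ⟨?_, ?_, ?_, ?_, ?_, ?_, ?_⟩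
  · intro x a b h
    exact add_right_cancel h
  · intro k x n R c c' h hs
    exact DLKS.sarm_mono h hs
  · intro k x n R c c' h hs
    exact DLKS.sarm_mono (Set.compl_subset_compl.2 h) hs
  · intro x n
    exact DLKS.trS x n
  · intro x n c e he
    have he' := mem_inn.1 (Finset.mem_coe.1 he)
    exact ⟨Or.inr (Finset.mem_coe.2 he'.1), Or.inr (Finset.mem_coe.2 he'.2)⟩
  · intro k x n R c h1 h2 h
    exact hPRIS c k x n R h1 h2 h
  · intro k x n R c h1 h2 h
    exact hMINUS c k x n R h1 h2 h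

end CNL
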