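import Pool.Agent.Work.MP_bda6fa_cnl.IC2
set_option autoImplicit false

/-! LVT: the limit exists. -/

namespace CNL
open XorIsing
open scoped Classical
open Finset Relation Filter Topology

theorem p_LVT : S_LVT := by
  intro κ _ tr ro E w hV A hA x
  obtain ⟨l, hl⟩ := hV.lim A hA
  have h0 : LV E w A = l := (hl (0, 0)).limUnder_eq
  rw [h0]
  exact hl x

end CNL
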