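import Pool.Agent.Work.MP_bda6fa_cnl.IC2
set_option autoImplicit false

/-! Block MINUS (helper9): a path of the complement gives a dual arm. -/

namespace CNL
open XorIsing
open scoped Classical
open Finset Relation Filter Topology

namespace DMINUS

theorem hx_tr (x v : V) (n : ℕ) : v ∈ Hx x n ↔ v - x ∈ Hx (0, 0) n := by
  obtain ⟨x1, x2⟩ := x
  obtain ⟨v1, v2⟩ := v
  simp only [mem_Hx, Prod.mk_sub_mk]
  constructor <;> intro h <;> omega

theorem hx_rot (hROS : S_ROS) (k : ℕ) (v : V) (n : ℕ) :
    rot^[k] v ∈ Hx (0, 0) n ↔ v ∈ Hx (0, 0) n := by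
  obtain ⟨-, -, -, -, -, -, -, h, -⟩ := hROS
  induction k with
  | zero => exact Iff.rfl
  | succ k ih => rw [Function.iterate_succ_apply', h, ih]

theorem vt_rot (hROS : S_ROS) (k : ℕ) (v : V) (t : V × Bool) :
    VT (rot^[k] v) (rotT^[k] t) ↔ VT v t := by
  obtain ⟨-, -, -, -, -, -, h, -⟩ := hROS
  induction k with
  | zero => exact Iff.rfl
  | succ k ih => rw [Function.iterate_succ_apply', Function.iterate_succ_apply', h, ih]

theorem tri_rot (hROS : S_ROS) (k : ℕ) (e : Edge) (t : V × Bool) :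
    rotE^[k] e ∈ tri (rotT^[k] t) ↔ e ∈ tri t := by
  obtain ⟨-, -, -, -, -, h, -⟩ := hROS
  induction k with
  | zero => exact Iff.rfl
  | succ k ih => rw [Function.iterate_succ_apply', Function.iterate_succ_apply', h, ih]

theorem vt_tr (x v : V) (t : V × Bool) (h : VT v t) : VT (v + x) (trT x t) := by
  obtain ⟨s, b⟩ := t
  cases b
  · simp only [VT, trT, Bool.false_eq_true, if_false] at h ⊢
    rcases h with rfl | rfl | rfl
    · left; rw [add_right_comm]
    · right; left; rw [add_right_comm]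
    · right; right; rw [add_right_comm]
  · simp only [VT, trT, if_true] at h ⊢
    rcases h with rfl | rfl | rfl
    · left; rfl
    · right; left; rw [add_right_comm]
    · right; right; rw [add_right_comm]

theorem trE_mem (x : V) {e : Edge} {t : V × Bool} (h : e ∈ tri t) : trE x e ∈ tri (trT x t) := by
  obtain ⟨v, b⟩ := t
  cases b
  · simp only [tri, Bool.false_eq_true, if_false, mem_insert, mem_singleton] at h
    simp only [trT, trE, tri, Bool.false_eq_true, if_false, mem_insert, mem_singleton]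
    rcases h with rfl | rfl | rfl
    · left; rw [add_right_comm]
    · right; left; rw [add_right_comm]
    · right; right; rw [add_right_comm]
  · simp only [tri, if_true, mem_insert, mem_singleton] at h
    simp only [trT, trE, tri, if_true, mem_insert, mem_singleton]
    rcases h with rfl | rfl | rfl
    · left; rfl
    · right; left; rfl
    · right; right; rw [add_right_comm]

theorem trT_inj (x : V) : Function.Injective (trT x) := by
  rintro ⟨v, b⟩ ⟨w, b'⟩ h
  simp only [trT, Prod.mk.injEq, add_left_inj] at h ⊢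
  exact h

/-- endpoints -/
def Ends (e : Edge) (a b : V) : Prop := (e.1 = a ∧ tip e = b) ∨ (e.1 = b ∧ tip e = a)

theorem ends_rot (hROS : S_ROS) {e : Edge} {a b : V} (h : Ends e a b) :
    Ends (rotE e) (rot a) (rot b) := by
  obtain ⟨-, -, -, -, -, -, -, -, -, hr, -⟩ := hROS
  rcases h with ⟨rfl, rfl⟩ | ⟨rfl, rfl⟩
  · rcases hr e with ⟨h1, h2⟩ | ⟨h1, h2⟩
    · exact Or.inl ⟨h1.symm, h2.symm⟩
    · exact Or.inr ⟨h2.symm, h1.symm⟩
  · rcases hr e with ⟨h1, h2⟩ | ⟨h1, h2⟩
    · exact Or.inr ⟨h1.symm, h2.symm⟩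
    · exact Or.inl ⟨h2.symm, h1.symm⟩

theorem ends_iter (hROS : S_ROS) (k : ℕ) {e : Edge} {a b : V} (h : Ends e a b) :
    Ends (rotE^[k] e) (rot^[k] a) (rot^[k] b) := by
  induction k with
  | zero => exact h
  | succ k ih =>
    rw [Function.iterate_succ_apply', Function.iterate_succ_apply',
      Function.iterate_succ_apply']
    exact ends_rot hROS ih

theorem ends_tr (x : V) {e : Edge} {a b : V} (h : Ends e a b) :
    Ends (trE x e) (a + x) (b + x) := by
  have h1 : tip (trE x e) = tip e + x := by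
    simp only [tip, trE]
    rw [add_right_comm]
  rcases h with ⟨rfl, rfl⟩ | ⟨rfl, rfl⟩
  · exact Or.inl ⟨rfl, h1⟩
  · exact Or.inr ⟨rfl, h1⟩

theorem tstep_symm {P : Edge → Prop} {t t' : V × Bool} (h : TStep P t t') : TStep P t' t := by
  obtain ⟨hne, e, he, h1, h2⟩ := h
  exact ⟨hne.symm, e, he, h2, h1⟩

theorem rtg_symm {P : Edge → Prop} {t t' : V × Bool} (h : ReflTransGen (TStep P) t t') :
    ReflTransGen (TStep P) t' t := by
  induction h with
  | refl => exact ReflTransGen.refl
  | tail _ h2 ih => exact ReflTransGen.head (tstep_symm h2) ih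

/-- all triangles at u are joined around u -/
theorem fan0 {P : Edge → Prop} (a b : ℤ)
    (hP : ∀ e : Edge, (e.1 = (a, b) ∨ tip e = (a, b)) → P e) (t : V × Bool) (h : VT (a, b) t) :
    ReflTransGen (TStep P) t (((a, b) : V), true) := by
  have s1 : TStep P (((a - 1, b) : V), false) (((a, b) : V), true) := by
    refine ⟨by simp, (((a, b) : V), 1), hP _ (Or.inl rfl), ?_, ?_⟩
    · simp [tri]
    · simp [tri]
  have s2 : TStep P (((a - 1, b) : V), true) (((a - 1, b) : V), false) := by
    refine ⟨by simp, (((a - 1, b + 1) : V), 2), hP _ (Or.inr ?_), ?_, ?_⟩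
    · simp [tip, dir]
    · simp [tri]
    · simp [tri]
  have s3 : TStep P (((a - 1, b - 1) : V), false) (((a - 1, b) : V), true) := by
    refine ⟨by simp, (((a - 1, b) : V), 0), hP _ (Or.inr ?_), ?_, ?_⟩
    · simp [tip, dir]
    · simp [tri]
    · simp [tri]
  have s4 : TStep P (((a, b - 1) : V), true) (((a - 1, b - 1) : V), false) := by
    refine ⟨by simp, (((a, b - 1) : V), 1), hP _ (Or.inr ?_), ?_, ?_⟩
    · simp [tip, dir]
    · simp [tri]
    · simp [tri]
  have s5 : TStep P (((a, b - 1) : V), false) (((a, b - 1) : V), true) := by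
    refine ⟨by simp, (((a, b) : V), 2), hP _ (Or.inl rfl), ?_, ?_⟩
    · simp [tri]
    · simp [tri]
  have r1 : ReflTransGen (TStep P) (((a - 1, b) : V), false) (((a, b) : V), true) :=
    ReflTransGen.single s1
  have r2 := ReflTransGen.head s2 r1
  have r3 := ReflTransGen.head s3 r2
  have r4 := ReflTransGen.head s4 r3
  have r5 := ReflTransGen.head s5 r4
  obtain ⟨⟨p, q⟩, bb⟩ := t
  cases bb
  · simp only [VT, Bool.false_eq_true, if_false, Prod.mk_add_mk, Prod.mk.injEq] at h
    rcases h with ⟨h1, h2⟩ | ⟨h1, h2⟩ | ⟨h1, h2⟩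
    · have e1 : p = a - 1 := by omega
      have e2 : q = b := by omega
      rw [e1, e2]
      exact r1
    · have e1 : p = a := by omega
      have e2 : q = b - 1 := by omega
      rw [e1, e2]
      exact r5
    · have e1 : p = a - 1 := by omega
      have e2 : q = b - 1 := by omega
      rw [e1, e2]
      exact r3
  · simp only [VT, if_true, Prod.mk_add_mk, Prod.mk.injEq] at h
    rcases h with ⟨h1, h2⟩ | ⟨h1, h2⟩ | ⟨h1, h2⟩
    · rw [← h1, ← h2]
    · have e1 : p = a - 1 := by omega
      have e2 : q = b := by omega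
      rw [e1, e2]
      exact r2
    · have e1 : p = a := by omega
      have e2 : q = b - 1 := by omega
      rw [e1, e2]
      exact r4

theorem fan {P : Edge → Prop} (u : V) (hP : ∀ e : Edge, (e.1 = u ∨ tip e = u) → P e)
    (t t' : V × Bool) (h : VT u t) (h' : VT u t') : ReflTransGen (TStep P) t t' := by
  obtain ⟨a, b⟩ := u
  exact (fan0 a b hP t h).trans (rtg_symm (fan0 a b hP t' h'))

theorem dir0 : dir 0 = ((1, 0) : V) := rfl
theorem dir1 : dir 1 = ((0, 1) : V) := rfl
theorem dir2 : dir 2 = ((1, -1) : V) := rfl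

theorem common0 (u : V) (k : Fin 3) : ∃ t : V × Bool, VT u t ∧ VT (u + dir k) t := by
  obtain ⟨a, b⟩ := u
  fin_cases k
  · refine ⟨(((a, b) : V), true), ?_, ?_⟩
    · simp [VT]
    · show VT (((a, b) : V) + dir 0) _
      rw [dir0]
      simp [VT]
  · refine ⟨(((a, b) : V), true), ?_, ?_⟩
    · simp [VT]
    · show VT (((a, b) : V) + dir 1) _
      rw [dir1]
      simp [VT]
  · refine ⟨(((a, b - 1) : V), true), ?_, ?_⟩
    · simp [VT]
    · show VT (((a, b) : V) + dir 2) _
      rw [dir2]
      have e1 : ((a, b) : V) + (1, -1) = (a, b - 1) + (1, 0) := by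
        rw [Prod.mk_add_mk, Prod.mk_add_mk, Prod.mk.injEq]
        constructor
        · rfl
        · ring
      rw [e1]
      simp [VT]

theorem common (u v : V) (h : Adj u v) : ∃ t : V × Bool, VT u t ∧ VT v t := by
  obtain ⟨k, rfl | rfl⟩ := h
  · exact common0 u k
  · obtain ⟨t, h1, h2⟩ := common0 v k
    exact ⟨t, h2, h1⟩

/-- triangles along a path of vertices outside c and K -/
theorem path {P : Edge → Prop} {Q : V → Prop}
    (hP : ∀ (u : V) (e : Edge), Q u → (e.1 = u ∨ tip e = u) → P e) {u w : V} (hu : Q u)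
    (h : ReflTransGen (fun a d => Q d ∧ Adj a d) u w) (t : V × Bool) (ht : VT u t) :
    ∀ t', VT w t' → ReflTransGen (TStep P) t t' := by
  induction h with
  | refl =>
    intro t' ht'
    exact fan u (fun e he => hP u e hu he) t t' ht ht'
  | tail h1 h2 ih =>
    intro t' ht'
    obtain ⟨s, hs1, hs2⟩ := common _ _ h2.2
    exact (ih s hs1).trans (fan _ (fun e he => hP _ e h2.1 he) s t' hs2 ht')

end DMINUS

theorem p_MINUS (hROS : S_ROS) : S_MINUS := by
  intro c k x n R hn hR hS
  obtain ⟨u, w, ⟨j, hj, hu⟩, huc, hw, hpath⟩ := hS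
  have huH : u ∉ Hx x n := by
    rw [DMINUS.hx_tr, hu, DMINUS.hx_rot hROS, mem_Hx]
    simp only
    push_cast
    omega
  have hux : u = (u - x) + x := by rw [sub_add_cancel]
  have hP : ∀ (v : V) (e : Edge), (v ∉ c ∧ v ∉ Hx x n) → (e.1 = v ∨ tip e = v) →
      DOK (bs (c ∪ Hx x n)) k x n e := by
    intro v e hv he
    refine ⟨fun h => ?_, Or.inl fun h => ?_⟩
    · rw [mem_inn] at h
      rcases he with rfl | rfl
      · exact hv.2 h.1
      · exact hv.2 h.2
    · rcases he with rfl | rfl
      · rcases h.1 with h1 | h1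
        · exact hv.1 h1
        · exact hv.2 h1
      · rcases h.2 with h1 | h1
        · exact hv.1 h1
        · exact hv.2 h1
  have hpath' : ReflTransGen (fun a d : V => (d ∉ c ∧ d ∉ Hx x n) ∧ Adj a d) u w := by
    exact ReflTransGen.mono (fun a d h => ⟨⟨h.1, h.2.1⟩, h.2.2⟩) _ _ hpath
  have hVw : VT w (w, true) := by simp [VT]
  by_cases hj0 : j = 0
  · subst hj0
    refine ⟨0, by omega, (w, true), w, hw, hVw, ?_⟩
    have hstep : TStep (DOK (bs (c ∪ Hx x n)) k x n) (trT x (outT n k 0))
        (trT x (rotT^[k] ((((n : ℤ), 0) : V), true))) := by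
      have he : DMINUS.Ends ((((n : ℤ), 0) : V), (1 : Fin 3)) ((n : ℤ), 0) ((n : ℤ), 1) := by
        left
        refine ⟨rfl, ?_⟩
        simp [tip, dir]
      have he2 := DMINUS.ends_tr x (DMINUS.ends_iter hROS k he)
      have hin : rot^[k] ((n : ℤ), (0 : ℤ)) + x ∈ Hx x n := by
        rw [DMINUS.hx_tr, add_sub_cancel_right, DMINUS.hx_rot hROS, mem_Hx]
        simp only
        omega
      have hout : rot^[k] ((n : ℤ), (1 : ℤ)) + x ∉ Hx x n := by
        rw [DMINUS.hx_tr, add_sub_cancel_right, DMINUS.hx_rot hROS, mem_Hx]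
        simp only
        omega
      have hsd : Sd n k (rot^[k] ((n : ℤ), (0 : ℤ)) + x - x) := by
        rw [add_sub_cancel_right]
        exact ⟨0, by omega, by simp⟩
      refine ⟨?_, trE x (rotE^[k] ((((n : ℤ), 0) : V), (1 : Fin 3))), ⟨?_, Or.inr ?_⟩, ?_, ?_⟩
      · intro h
        have h1 := DMINUS.trT_inj x h
        have h2 := hROS.2.2.2.2.1.iterate k h1
        simp at h2
      · rw [mem_inn]
        rintro ⟨h1, h2⟩
        rcases he2 with ⟨g1, g2⟩ | ⟨g1, g2⟩
        · rw [g2] at h2
          exact hout h2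
        · rw [g1] at h1
          exact hout h1
      · rcases he2 with ⟨g1, g2⟩ | ⟨g1, g2⟩
        · rw [g1, g2]
          exact ⟨fun _ => hsd, fun h => absurd h hout, Or.inl hin⟩
        · rw [g1, g2]
          exact ⟨fun h => absurd h hout, fun _ => hsd, Or.inr hin⟩
      · apply DMINUS.trE_mem
        rw [outT, DMINUS.tri_rot hROS]
        simp [tri]
      · apply DMINUS.trE_mem
        rw [DMINUS.tri_rot hROS]
        simp [tri]
    have hVu : VT u (trT x (rotT^[k] ((((n : ℤ), 0) : V), true))) := by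
      rw [hux]
      apply DMINUS.vt_tr
      rw [hu, DMINUS.vt_rot hROS]
      simp [VT]
    exact ReflTransGen.head hstep
      (DMINUS.path (Q := fun v => v ∉ c ∧ v ∉ Hx x n) hP ⟨huc, huH⟩ hpath' _ hVu _ hVw)
  · refine ⟨j - 1, by omega, (w, true), w, hw, hVw, ?_⟩
    have hVu : VT u (trT x (outT n k (j - 1))) := by
      rw [hux]
      apply DMINUS.vt_tr
      rw [hu, outT, DMINUS.vt_rot hROS]
      simp only [VT, Bool.false_eq_true, if_false, Prod.mk_add_mk, Prod.mk.injEq]
      right; right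
      constructor <;> omega
    exact DMINUS.path (Q := fun v => v ∉ c ∧ v ∉ Hx x n) hP ⟨huc, huH⟩ hpath' _ hVu _ hVw

end CNL
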