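import Pool.Agent.Work.MP_bda6fa_cnl.IC2
set_option autoImplicit false

/-! Block MIXF (helper64): mixing of the free random cluster model. -/

namespace CNL
open XorIsing
open scoped Classical
open Finset Relation Filter Topology

noncomputable section

namespace DMIXF

section
variable {κ : Type} (E : Finset V → Finset κ) (w : Finset V → Finset κ → ℝ)

theorem TW_pos (D : Finset V) (hpos : ∀ c, c ⊆ E D → 0 < w D c) : 0 < TW E w D :=
  sum_pos (fun c hc => hpos c (mem_powerset.1 hc)) ⟨∅, empty_mem_powerset _⟩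

theorem PV_nonneg (D : Finset V) (hpos : ∀ c, c ⊆ E D → 0 < w D c) (A : Set κ → Prop) :
    0 ≤ PV E w D A := by
  unfold PV EV
  refine div_nonneg (sum_nonneg fun c hc => ?_) (TW_pos E w D hpos).le
  have := hpos c (mem_powerset.1 hc)
  beta_reduce
  split_ifs
  · rw [mul_one]; exact this.le
  · rw [mul_zero]

theorem PV_split (D : Finset V) (A C : Set κ → Prop) :
    PV E w D A = PV E w D (fun c => A c ∧ C c) + PV E w D (fun c => A c ∧ ¬ C c) := by
  unfold PV EV
  rw [← add_div, ← sum_add_distrib]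
  congr 1
  apply sum_congr rfl
  intro c _
  by_cases h1 : A (c : Set κ) <;> by_cases h2 : C (c : Set κ) <;> simp [h1, h2]

theorem PV_not (D : Finset V) (hpos : ∀ c, c ⊆ E D → 0 < w D c) (A : Set κ → Prop) :
    PV E w D (fun c => ¬ A c) = 1 - PV E w D A := by
  have h0 := (TW_pos E w D hpos).ne'
  unfold PV EV
  rw [eq_sub_iff_add_eq, ← add_div, ← sum_add_distrib, div_eq_one_iff_eq h0]
  unfold TW
  apply sum_congr rfl
  intro c _
  by_cases h1 : A (c : Set κ) <;> simp [h1]

theorem powerset_image' [DecidableEq κ] (S : Finset κ) (f : κ → κ) :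
    (S.image f).powerset = S.powerset.image (fun c => c.image f) := by
  ext s
  rw [mem_powerset, mem_image, Finset.subset_image_iff]
  constructor
  · rintro ⟨c, hc, rfl⟩
    exact ⟨c, mem_powerset.2 hc, rfl⟩
  · rintro ⟨c, hc, rfl⟩
    exact ⟨c, mem_powerset.1 hc, rfl⟩

theorem PV_tr [DecidableEq κ] {tr : V → κ → κ} {ro : κ → κ} (hV : Vol tr ro E w) (x : V)
    (D : Finset V) (A : Set κ → Prop) :
    PV E w (D.image (fun v => v + x)) (fun c => A {e | tr x e ∈ c}) = PV E w D A := by
  have hinj : ∀ g : Finset κ → ℝ, ∑ c ∈ (E (D.image (fun v => v + x))).powerset, g c =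
      ∑ c ∈ (E D).powerset, g (c.image (tr x)) := by
    intro g
    rw [hV.trE, powerset_image', sum_image]
    intro a _ b _ h
    exact Finset.image_injective (hV.inj x) h
  unfold PV EV TW
  rw [hinj, hinj]
  congr 1
  · apply sum_congr rfl
    intro c hc
    rw [hV.trW x D c (mem_powerset.1 hc)]
    have : {e : κ | tr x e ∈ ((c.image (tr x) : Finset κ) : Set κ)} = (c : Set κ) := by
      ext e
      simp [(hV.inj x).eq_iff]
    beta_reduce
    rw [this]
  · apply sum_congr rfl
    intro c hc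
    rw [hV.trW x D c (mem_powerset.1 hc)]

end

theorem Hx_image (x : V) (M : ℕ) : (Hx (0, 0) M).image (fun v => v + x) = Hx x M := by
  ext v
  rw [mem_image]
  constructor
  · rintro ⟨u, hu, rfl⟩
    rw [mem_Hx] at hu ⊢
    simp only [Prod.fst_add, Prod.snd_add]
    omega
  · intro h
    refine ⟨v - x, ?_, sub_add_cancel v x⟩
    rw [mem_Hx] at h ⊢
    simp only [Prod.fst_sub, Prod.snd_sub]
    omega

theorem Hx_mono {M M' : ℕ} (h : M ≤ M') : Hx (0, 0) M ⊆ Hx (0, 0) M' := by
  intro v hv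
  rw [mem_Hx] at hv ⊢
  omega

end DMIXF

open DMIXF in
theorem p_MIXF (hLVT : S_LVT) (hDOMF : S_DOMF) (hVOLF : S_VOLF) : S_MIXF := by
  intro β hβ A hLoc hInc L ε hε
  have hV := hVOLF β hβ
  have hlim := hLVT Edge trE rotE inn (fw β) hV
  have hpos := hV.pos
  obtain ⟨F, hF⟩ := id hLoc
  obtain ⟨M0, hM0⟩ := hV.exh F
  have hev := (hlim A hLoc (0, 0)).eventually
    (lt_mem_nhds (show LV inn (fw β) A - ε < LV inn (fw β) A by linarith))
  obtain ⟨m, hm1, hm2⟩ := (hev.and (eventually_ge_atTop M0)).exists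
  have hFm : F ⊆ inn (Hx (0, 0) m) := hM0.trans (hV.mono _ _ (Hx_mono hm2))
  set x : V := ((2 * m + L + 1 : ℤ), 0) with hx
  have hxF : ∀ e ∈ F, trE x e ∉ inn (Hx (0, 0) m) := by
    intro e he hmem
    have h1 := (mem_inn.1 (hFm he)).1
    have h2 := (mem_inn.1 hmem).1
    rw [mem_Hx] at h1 h2
    have h3 : (trE x e).1.1 = e.1.1 + (2 * m + L + 1) := rfl
    rw [h3] at h2
    simp only at h1 h2
    omega
  -- the events
  have hLocX : Loc (fun c : Set Edge => A {e | trE x e ∈ c}) :=
    ⟨F.image (trE x), fun c c' h => hF _ _ fun e he => h (trE x e) (mem_image_of_mem _ he)⟩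
  have hLocN : Loc (fun c : Set Edge => ¬ A {e | trE x e ∈ c}) := by
    obtain ⟨G, hG⟩ := id hLocX
    exact ⟨G, fun c c' h => not_congr (hG c c' h)⟩
  have hand : ∀ B C : Set Edge → Prop, Loc B → Loc C → Loc (fun c => B c ∧ C c) := by
    rintro B C ⟨G, hG⟩ ⟨G', hG'⟩
    exact ⟨G ∪ G', fun c c' h => and_congr (hG c c' fun e he => h e (mem_union_left _ he))
      (hG' c c' fun e he => h e (mem_union_right _ he))⟩
  have hLocA1 := hand A _ hLoc hLocX
  have hLocA2 := hand A _ hLoc hLocN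
  -- limits
  have l0 := hlim A hLoc (0, 0)
  have lN := hlim _ hLocN (0, 0)
  have lX := hlim _ hLocX (0, 0)
  have l1 := hlim _ hLocA1 (0, 0)
  have l2 := hlim _ hLocA2 (0, 0)
  have eX : LV inn (fw β) (fun c : Set Edge => A {e | trE x e ∈ c}) = LV inn (fw β) A := by
    have h := hlim _ hLocX x
    refine tendsto_nhds_unique h (l0.congr fun M => ?_)
    rw [← Hx_image x M]
    exact (PV_tr inn (fw β) hV x _ A).symm
  have eN : LV inn (fw β) (fun c : Set Edge => ¬ A {e | trE x e ∈ c}) = 1 - LV inn (fw β) A := by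
    rw [← eX]
    refine tendsto_nhds_unique lN ((tendsto_const_nhds.sub lX).congr fun M => ?_)
    exact (PV_not inn (fw β) _ (hpos _) _).symm
  have e12 : LV inn (fw β) A = LV inn (fw β) (fun c : Set Edge => A c ∧ A {e | trE x e ∈ c}) +
      LV inn (fw β) (fun c : Set Edge => A c ∧ ¬ A {e | trE x e ∈ c}) := by
    refine tendsto_nhds_unique l0 ((l1.add l2).congr fun M => ?_)
    exact (PV_split inn (fw β) _ A _).symm
  have ha0 : 0 ≤ LV inn (fw β) A :=
    ge_of_tendsto' l0 fun M => PV_nonneg inn (fw β) _ (hpos _) A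
  have ha1 : 0 ≤ 1 - LV inn (fw β) A := by
    rw [← eN]
    exact ge_of_tendsto' lN fun M => PV_nonneg inn (fw β) _ (hpos _) _
  have hmain : PV inn (fw β) (Hx (0, 0) m) A *
      LV inn (fw β) (fun c : Set Edge => ¬ A {e | trE x e ∈ c}) ≤
      LV inn (fw β) (fun c : Set Edge => A c ∧ ¬ A {e | trE x e ∈ c}) := by
    refine le_of_tendsto_of_tendsto (lN.const_mul _) l2 ?_
    filter_upwards [eventually_ge_atTop m] with M hM
    refine hDOMF β (Hx (0, 0) m) (Hx (0, 0) M) A _ hβ (Hx_mono hM) hInc ?_ ?_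
    · intro c
      apply hF
      intro e he
      exact ⟨fun h => ⟨h, hFm he⟩, fun h => h.1⟩
    · intro c
      apply not_congr
      apply hF
      intro e he
      exact ⟨fun h => ⟨h, hxF e he⟩, fun h => h.1⟩
  refine ⟨x, ?_, ?_⟩
  · intro hmem
    rw [mem_Hx] at hmem
    simp only [hx] at hmem
    omega
  · rw [eN] at hmain
    nlinarith [mul_le_mul_of_nonneg_right hm1.le ha1, mul_nonneg hε.le ha0]

end

end CNL
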