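import Pool.Agent.Work.MP_bda6fa_cnl.IC2
set_option autoImplicit false

/-! MIXS: mixing of the free Ising model along a sequence of translations, from P3. -/

namespace CNL
open XorIsing
open scoped Classical
open Finset Relation Filter Topology

namespace DMIXS

theorem fcor_symm (β : ℝ) (D : Finset V) (x y : V) : fcor β D x y = fcor β D y x := by
  unfold fcor
  congr 1
  refine Finset.sum_congr rfl fun M _ => ?_
  ring

/-- two steps of the chain inequality -/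
theorem two_chain (hFC3 : S_FC3) {β : ℝ} (hβ : 0 ≤ β) {D : Finset V} {x a b : V} {δ c : ℝ} (hδ : 0 < δ) (hc : 0 ≤ c)
    (h1 : δ ≤ fcor β D (0, 0) a) (h2 : δ ≤ fcor β D x b) (h3 : fcor β D (0, 0) x ≤ c) :
    fcor β D a b ≤ c / δ ^ 2 := by
  rw [le_div_iff₀ (by positivity)]
  by_cases hu : fcor β D a b ≤ 0
  · exact (mul_nonpos_of_nonpos_of_nonneg hu (by positivity)).trans hc
  · push Not at hu
    have e1 := hFC3 β D (0, 0) a b hβ
    have e2 := hFC3 β D (0, 0) b x hβ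
    rw [fcor_symm β D b x] at e2
    have e3 : δ * fcor β D a b ≤ fcor β D (0, 0) b := (mul_le_mul_of_nonneg_right h1 hu.le).trans e1
    have e4 : 0 ≤ fcor β D (0, 0) b := le_trans (by positivity) e3
    have e5 : fcor β D (0, 0) b * δ ≤ fcor β D (0, 0) x := (mul_le_mul_of_nonneg_left h2 e4).trans e2
    have e6 : δ * fcor β D a b * δ ≤ fcor β D (0, 0) b * δ := mul_le_mul_of_nonneg_right e3 hδ.le
    calc fcor β D a b * δ ^ 2 = δ * fcor β D a b * δ := by ring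
      _ ≤ c := e6.trans (e5.trans h3)

theorem cancel (ε δ k : ℝ) (hδ : 0 < δ) (hk : 0 < k) : ε * δ ^ 2 / k / δ ^ 2 = ε / k := by
  have h1 : δ ^ 2 ≠ 0 := by positivity
  rw [div_div, mul_comm k (δ ^ 2), mul_comm ε (δ ^ 2), mul_div_mul_left _ _ h1]

theorem sum_le (A B : Finset V) (f : V → V → ℝ) (ε : ℝ) (hε : 0 < ε) (hAB : B.card ≤ A.card)
    (h : ∀ a ∈ A, ∀ b ∈ B, f a b ≤ ε / ((A.card : ℝ) ^ 2 + 1)) : ∑ a ∈ A, ∑ b ∈ B, f a b ≤ ε := by
  have h1 : ∑ a ∈ A, ∑ b ∈ B, f a b ≤ ∑ _a ∈ A, ∑ _b ∈ B, ε / ((A.card : ℝ) ^ 2 + 1) :=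
    Finset.sum_le_sum fun a ha => Finset.sum_le_sum fun b hb => h a ha b hb
  refine h1.trans ?_
  rw [Finset.sum_const, Finset.sum_const, nsmul_eq_mul, nsmul_eq_mul]
  have hB : (B.card : ℝ) ≤ A.card := by exact_mod_cast hAB
  have hA : (0 : ℝ) ≤ A.card := Nat.cast_nonneg _
  generalize (A.card : ℝ) = k at *
  generalize (B.card : ℝ) = l at *
  have hq : 0 ≤ ε / (k ^ 2 + 1) := by positivity
  have h2 : k * (l * (ε / (k ^ 2 + 1))) ≤ k * (k * (ε / (k ^ 2 + 1))) :=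
    mul_le_mul_of_nonneg_left (mul_le_mul_of_nonneg_right hB hq) hA
  refine h2.trans ?_
  have h3 : k * (k * (ε / (k ^ 2 + 1))) = (k ^ 2 * ε) / (k ^ 2 + 1) := by ring
  rw [h3, div_le_iff₀ (by positivity)]
  nlinarith [sq_nonneg k]

/-- hexagons exhaust the plane -/
theorem exists_M (F : Finset V) : ∃ M₀ : ℕ, ∀ M ≥ M₀, F ⊆ Hx (0, 0) M := by
  refine ⟨F.sum (fun v => v.1.natAbs + v.2.natAbs), fun M hM v hv => ?_⟩
  have h1 : v.1.natAbs + v.2.natAbs ≤ M :=
    (Finset.single_le_sum (f := fun v : V => v.1.natAbs + v.2.natAbs) (fun _ _ => Nat.zero_le _) hv).trans hM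
  rw [mem_Hx]
  refine ⟨⟨?_, ?_⟩, ⟨?_, ?_⟩, ?_, ?_⟩ <;> dsimp only <;> omega

end DMIXS

theorem p_MIXS (hLVT : S_LVT) (hVOLS : S_VOLS) (hSCOV : S_SCOV) (hFC3 : S_FC3) (hFPOS : S_FPOS) (_hFMON : S_FMON)
    (hV2 : S_V2) : S_MIXS := by
  intro β hβ hP3 A hLoc hInc L ε hε
  have hVol := hVOLS β hβ.le
  obtain ⟨F, hF⟩ := hLoc
  obtain ⟨δ, hδ, m, hm⟩ := hFPOS β F hβ
  have hkpos : (0 : ℝ) < (F.card : ℝ) ^ 2 + 1 := by positivity
  have hc : 0 < ε * δ ^ 2 / ((F.card : ℝ) ^ 2 + 1) := div_pos (by positivity) hkpos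
  obtain ⟨x, hxL, hx⟩ := hP3 _ L hc
  refine ⟨x, hxL, ?_⟩
  have hF0 : ∀ c : Set V, A c ↔ A (c ∩ F) := by
    intro c
    refine hF _ _ fun e he => ?_
    simp [he]
  have hhloc : ∀ c : Set V, A {e | e + x ∈ c} ↔ A {e | e + x ∈ (c ∩ (F.image (fun v => v + x) : Finset V) : Set V)} := by
    intro c
    refine hF _ _ fun e he => ?_
    have : e + x ∈ (F.image (fun v => v + x) : Finset V) := mem_image_of_mem _ he
    constructor
    · intro h
      exact ⟨h, by exact_mod_cast this⟩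
    · intro h
      exact h.1
  have hhinc : Inc (fun c : Set V => A {e | e + x ∈ c}) := by
    intro c c' hcc h
    exact hInc _ _ (fun e he => hcc he) h
  have hLocA : Loc A := ⟨F, hF⟩
  have hLoch : Loc (fun c : Set V => A {e | e + x ∈ c}) := by
    refine ⟨F.image (fun v => v + x), fun c c' hcc => hF _ _ fun e he => ?_⟩
    exact hcc (e + x) (mem_image_of_mem _ he)
  have hLocAnd : Loc (fun c : Set V => A c ∧ A {e | e + x ∈ c}) := by
    refine ⟨F ∪ F.image (fun v => v + x), fun c c' hcc => ?_⟩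
    refine and_congr (hF _ _ fun e he => hcc e (mem_union_left _ he)) (hF _ _ fun e he => ?_)
    exact hcc (e + x) (mem_union_right _ (mem_image_of_mem _ he))
  have t1 := hLVT V (fun x v => v + x) rot (fun D => D) (sw β) hVol _ hLocAnd (0, 0)
  have t2 := hLVT V (fun x v => v + x) rot (fun D => D) (sw β) hVol _ hLocA (0, 0)
  have t3 := hLVT V (fun x v => v + x) rot (fun D => D) (sw β) hVol _ hLoch (0, 0)
  have hV := hV2 V (fun x v => v + x) rot (fun D => D) (sw β) hVol A x hLocA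
  rw [hV] at t3
  have t4 : Tendsto (fun M : ℕ => PV (fun D => D) (sw β) (Hx (0, 0) M) A *
      PV (fun D => D) (sw β) (Hx (0, 0) M) (fun c => A {e | e + x ∈ c}) + ε) atTop
      (𝓝 (LV (fun D => D) (sw β) A ^ 2 + ε)) := by
    rw [sq]
    exact (t2.mul t3).add_const ε
  refine le_of_tendsto_of_tendsto t1 t4 ?_
  obtain ⟨M₀, hM₀⟩ := DMIXS.exists_M (F ∪ F.image (fun v => v + x) ∪ Hx (0, 0) m ∪ Hx x m ∪ {x})
  filter_upwards [eventually_ge_atTop M₀] with M hM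
  have hsub := hM₀ M hM
  have s1 : F ⊆ Hx (0, 0) M := fun v hv => hsub (by simp [hv])
  have s2 : F.image (fun v => v + x) ⊆ Hx (0, 0) M := fun v hv => hsub (by
    simp only [mem_union]; exact .inl (.inl (.inl (.inr hv))))
  have s3 : Hx (0, 0) m ⊆ Hx (0, 0) M := fun v hv => hsub (by simp [hv])
  have s4 : Hx x m ⊆ Hx (0, 0) M := fun v hv => hsub (by simp [hv])
  have s5 : x ∈ Hx (0, 0) M := hsub (by simp)
  refine (hSCOV β (Hx (0, 0) M) F (F.image (fun v => v + x)) A (fun c => A {e | e + x ∈ c}) hβ.le s1 s2 hInc hhinc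
    hF0 hhloc).trans ?_
  refine add_le_add le_rfl ?_
  have hterm : ∀ a ∈ F, ∀ b ∈ F.image (fun v => v + x),
      fcor β (Hx (0, 0) M) a b ≤ ε / ((F.card : ℝ) ^ 2 + 1) := by
    intro a ha b hb
    obtain ⟨b', hb', rfl⟩ := mem_image.1 hb
    have g1 := hm (0, 0) _ s3 a ha
    have g2 := hm x _ s4 b' hb'
    have g0 : a + ((0, 0) : V) = a := by ext <;> simp
    rw [g0] at g1
    refine (DMIXS.two_chain hFC3 hβ.le hδ hc.le g1 g2 (hx M s5)).trans (le_of_eq ?_)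
    exact DMIXS.cancel ε δ _ hδ hkpos
  exact DMIXS.sum_le F _ _ ε hε card_image_le hterm

end CNL
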