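import Pool.Agent.Work.MP_bda6fa_cnl.IC3
import Pool.Agent.Work.MP_bda6fa_nest.TRC
set_option autoImplicit false

/-! NLS: translation covariance of the loops. -/

namespace XorIsing
open scoped Classical
open Finset

namespace NLS

theorem eS_neg (y : V) (e : Edge) : TRC.eS y (TRC.eS (-y) e) = e := by
  unfold TRC.eS
  simp

theorem eS_neg' (y : V) (e : Edge) : TRC.eS (-y) (TRC.eS y e) = e := by
  unfold TRC.eS
  simp

theorem mem_cont (y : V) (X : Finset V) (e : Edge) : TRC.eS y e ∈ contour (shift y X) ↔ e ∈ contour X := by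
  rw [mem_contour, mem_contour, TRC.tip_eS, TRC.mem_shift]
  have : (TRC.eS y e).1 = e.1 + y := rfl
  rw [this, TRC.mem_shift]

theorem mem_tri (y : V) (t : V × Bool) (e : Edge) : TRC.eS y e ∈ tri (t.1 + y, t.2) ↔ e ∈ tri t := by
  obtain ⟨⟨a, b⟩, k⟩ := e
  obtain ⟨⟨p, q⟩, s⟩ := t
  obtain ⟨y1, y2⟩ := y
  unfold tri TRC.eS
  cases s
  · simp only [Bool.false_eq_true, if_false, mem_insert, mem_singleton, Prod.mk.injEq, Prod.mk_add_mk]
    constructor
    · rintro (⟨⟨h1, h2⟩, h3⟩ | ⟨⟨h1, h2⟩, h3⟩ | ⟨⟨h1, h2⟩, h3⟩)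
      · exact Or.inl ⟨⟨by omega, by omega⟩, h3⟩
      · exact Or.inr (Or.inl ⟨⟨by omega, by omega⟩, h3⟩)
      · exact Or.inr (Or.inr ⟨⟨by omega, by omega⟩, h3⟩)
    · rintro (⟨⟨h1, h2⟩, h3⟩ | ⟨⟨h1, h2⟩, h3⟩ | ⟨⟨h1, h2⟩, h3⟩)
      · exact Or.inl ⟨⟨by omega, by omega⟩, h3⟩
      · exact Or.inr (Or.inl ⟨⟨by omega, by omega⟩, h3⟩)
      · exact Or.inr (Or.inr ⟨⟨by omega, by omega⟩, h3⟩)
  · simp only [if_true, mem_insert, mem_singleton, Prod.mk.injEq, Prod.mk_add_mk]
    constructor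
    · rintro (⟨⟨h1, h2⟩, h3⟩ | ⟨⟨h1, h2⟩, h3⟩ | ⟨⟨h1, h2⟩, h3⟩)
      · exact Or.inl ⟨⟨by omega, by omega⟩, h3⟩
      · exact Or.inr (Or.inl ⟨⟨by omega, by omega⟩, h3⟩)
      · exact Or.inr (Or.inr ⟨⟨by omega, by omega⟩, h3⟩)
    · rintro (⟨⟨h1, h2⟩, h3⟩ | ⟨⟨h1, h2⟩, h3⟩ | ⟨⟨h1, h2⟩, h3⟩)
      · exact Or.inl ⟨⟨by omega, by omega⟩, h3⟩
      · exact Or.inr (Or.inl ⟨⟨by omega, by omega⟩, h3⟩)
      · exact Or.inr (Or.inr ⟨⟨by omega, by omega⟩, h3⟩)

theorem touch (y : V) {e f : Edge} (h : Touch e f) : Touch (TRC.eS y e) (TRC.eS y f) := by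
  obtain ⟨t, h1, h2⟩ := h
  exact ⟨(t.1 + y, t.2), (mem_tri y t e).2 h1, (mem_tri y t f).2 h2⟩

theorem lift' {r p : Edge → Edge → Prop} (f : Edge → Edge) (h : ∀ a b, r a b → p (f a) (f b)) {a b : Edge}
    (hab : Relation.ReflTransGen r a b) : Relation.ReflTransGen p (f a) (f b) := by
  induction hab with
  | refl => exact Relation.ReflTransGen.refl
  | tail _ h2 ih => exact ih.tail (h _ _ h2)

theorem chain (y : V) (X : Finset V) (e f : Edge) :
    Relation.ReflTransGen (fun a b => b ∈ contour (shift y X) ∧ Touch a b) (TRC.eS y e) (TRC.eS y f) ↔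
      Relation.ReflTransGen (fun a b => b ∈ contour X ∧ Touch a b) e f := by
  constructor
  · intro h
    have h2 := lift' (r := fun a b => b ∈ contour (shift y X) ∧ Touch a b)
      (p := fun a b => b ∈ contour X ∧ Touch a b) (TRC.eS (-y)) (fun a b hab => by
      refine ⟨?_, touch (-y) hab.2⟩
      have := hab.1
      rw [← eS_neg y b] at this
      exact (mem_cont y X _).1 this) h
    rw [eS_neg', eS_neg'] at h2
    exact h2
  · intro h
    exact lift' (r := fun a b => b ∈ contour X ∧ Touch a b)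
      (p := fun a b => b ∈ contour (shift y X) ∧ Touch a b) (TRC.eS y)
      (fun a b hab => ⟨(mem_cont y X b).2 hab.1, touch y hab.2⟩) h

theorem loopOf_eS (y : V) (X : Finset V) (e : Edge) :
    loopOf (shift y X) (TRC.eS y e) = (loopOf X e).image (TRC.eS y) := by
  ext f
  rw [mem_image]
  unfold loopOf
  rw [mem_filter]
  constructor
  · rintro ⟨h1, h2⟩
    refine ⟨TRC.eS (-y) f, ?_, eS_neg y f⟩
    rw [← eS_neg y f] at h1 h2
    rw [mem_filter]
    exact ⟨(mem_cont y X _).1 h1, (chain y X _ _).1 h2⟩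
  · rintro ⟨g, hg, rfl⟩
    rw [mem_filter] at hg
    exact ⟨(mem_cont y X _).2 hg.1, (chain y X _ _).2 hg.2⟩

theorem loops_eS (y : V) (X : Finset V) :
    loops (shift y X) = (loops X).image (fun L => L.image (TRC.eS y)) := by
  have hc : contour (shift y X) = (contour X).image (TRC.eS y) := by
    ext f
    rw [mem_image]
    constructor
    · intro h
      refine ⟨TRC.eS (-y) f, ?_, eS_neg y f⟩
      rw [← eS_neg y f] at h
      exact (mem_cont y X _).1 h
    · rintro ⟨g, hg, rfl⟩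
      exact (mem_cont y X _).2 hg
  unfold loops
  rw [hc, image_image, image_image]
  apply image_congr
  intro e _
  exact loopOf_eS y X e

theorem surr (y v : V) (L : Finset Edge) : Surrounds (L.image (TRC.eS y)) (v + y) ↔ Surrounds L v := by
  have h : ray (L.image (TRC.eS y)) (v + y) = (ray L v).image (TRC.eS y) := by
    ext f
    unfold ray
    rw [mem_filter, mem_image, mem_image]
    constructor
    · rintro ⟨⟨g, hg, rfl⟩, h1, h2, h3⟩
      refine ⟨g, ?_, rfl⟩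
      rw [mem_filter]
      have e1 : (TRC.eS y g).1.2 = g.1.2 + y.2 := rfl
      have e2 : (TRC.eS y g).1.1 = g.1.1 + y.1 := rfl
      have e3 : (v + y).2 = v.2 + y.2 := rfl
      have e4 : (v + y).1 = v.1 + y.1 := rfl
      rw [e1, e3] at h2
      rw [e2, e4] at h3
      exact ⟨hg, h1, by omega, by omega⟩
    · rintro ⟨g, hg, rfl⟩
      rw [mem_filter] at hg
      obtain ⟨hg, h1, h2, h3⟩ := hg
      have e1 : (TRC.eS y g).1.2 = g.1.2 + y.2 := rfl
      have e2 : (TRC.eS y g).1.1 = g.1.1 + y.1 := rfl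
      have e3 : (v + y).2 = v.2 + y.2 := rfl
      have e4 : (v + y).1 = v.1 + y.1 := rfl
      refine ⟨⟨g, hg, rfl⟩, h1, ?_, ?_⟩
      · rw [e1, e3]; omega
      · rw [e2, e4]; omega
  unfold Surrounds
  rw [h, card_image_of_injective _ (TRC.eS_inj y)]

end NLS

theorem p_NLS : S_NLS := by
  intro X A B y
  unfold nloopsIn
  rw [NLS.loops_eS, filter_image, card_image_of_injective _ (image_injective (TRC.eS_inj y))]
  congr 1
  apply filter_congr
  intro L _
  constructor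
  · rintro ⟨h1, h2⟩
    refine ⟨fun z hz => ?_, fun z hz => ?_⟩
    · exact (NLS.surr y z L).1 (h1 (z + y) ((TRC.mem_shift y z A).2 hz))
    · exact (TRC.mem_shift y z B).1 (h2 (z + y) ((NLS.surr y z L).2 hz))
  · rintro ⟨h1, h2⟩
    refine ⟨fun z hz => ?_, fun z hz => ?_⟩
    · have h3 := (NLS.surr y (z - y) L).2 (h1 (z - y) ((TRC.mem_shift' y z A).1 hz))
      rw [sub_add_cancel] at h3
      exact h3
    · rw [TRC.mem_shift']
      apply h2
      rw [← NLS.surr y (z - y) L, sub_add_cancel]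
      exact hz

end XorIsing
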