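import Pool.Agent.Work.MP_bda6fa_cnl.IC2
set_option autoImplicit false

/-! Block OUTT -/

namespace CNL
open XorIsing
open scoped Classical
open Finset Relation Filter Topology

namespace DOUTT

lemma o0 (n i : ℕ) : outT n 0 i = ((((n : ℤ) - i - 1, (i : ℤ)) : V), false) := rfl

lemma o1 (n i : ℕ) : outT n 1 i = (((-(i : ℤ) - 1, (n : ℤ)) : V), true) := by
  show rotT (outT n 0 i) = _
  rw [o0]
  refine Prod.ext (Prod.ext ?_ ?_) rfl
  · simp [rotT, rot]
    try omega
  · simp [rotT, rot]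
    try omega

lemma o2 (n i : ℕ) : outT n 2 i = (((-(n : ℤ) - 1, (n : ℤ) - i - 1) : V), false) := by
  show rotT (outT n 1 i) = _
  rw [o1]
  refine Prod.ext (Prod.ext ?_ ?_) rfl
  · simp [rotT, rot]
    try omega
  · simp [rotT, rot]
    try omega

lemma o3 (n i : ℕ) : outT n 3 i = (((-(n : ℤ) + i, -(i : ℤ) - 1) : V), true) := by
  show rotT (outT n 2 i) = _
  rw [o2]
  refine Prod.ext (Prod.ext ?_ ?_) rfl
  · simp [rotT, rot]
    try omega
  · simp [rotT, rot]
    try omega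

lemma o4 (n i : ℕ) : outT n 4 i = ((((i : ℤ), -(n : ℤ) - 1) : V), false) := by
  show rotT (outT n 3 i) = _
  rw [o3]
  refine Prod.ext (Prod.ext ?_ ?_) rfl
  · simp [rotT, rot]
    try omega
  · simp [rotT, rot]
    try omega

lemma o5 (n i : ℕ) : outT n 5 i = ((((n : ℤ), (i : ℤ) - n) : V), true) := by
  show rotT (outT n 4 i) = _
  rw [o4]
  refine Prod.ext (Prod.ext ?_ ?_) rfl
  · simp [rotT, rot]
    try omega
  · simp [rotT, rot]
    try omega

lemma d0 : dir 0 = (1, 0) := rfl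
lemma d1 : dir 1 = (0, 1) := rfl
lemma d2 : dir 2 = (1, -1) := rfl

end DOUTT

open DOUTT in
theorem p_OUTT (_hRNG : S_RNG) : S_OUTT := by
  intro n x t e hn he ht hv
  obtain ⟨v, hv, hv'⟩ := hv
  rw [mem_inn, mem_Hx, mem_Hx] at he
  rw [mem_Hx] at hv'
  obtain ⟨x1, x2⟩ := x
  obtain ⟨v1, v2⟩ := v
  obtain ⟨⟨a, b⟩, c⟩ := t
  cases c with
  | true =>
    simp only [VT, if_true, Prod.mk_add_mk, Prod.mk.injEq] at hv
    simp only [tri, if_true, mem_insert, mem_singleton, Prod.mk_add_mk] at ht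
    simp only at he hv'
    have key : (b - x2 = n ∧ -(n : ℤ) ≤ a - x1 ∧ a - x1 ≤ -1) ∨
        (a - x1 = n ∧ -(n : ℤ) ≤ b - x2 ∧ b - x2 ≤ -1) ∨
        (a - x1 + (b - x2) = -(n : ℤ) - 1 ∧ -(n : ℤ) ≤ a - x1 ∧ a - x1 ≤ -1) := by
      rcases ht with rfl | rfl | rfl <;>
        simp only [tip, d0, d1, d2, Prod.mk_add_mk] at he <;> omega
    rcases key with h | h | h
    · refine ⟨1, by norm_num, (-(a - x1) - 1).toNat, by omega, ?_⟩
      rw [o1]
      simp only [trT, Prod.mk_add_mk, Prod.mk.injEq, and_true]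
      omega
    · refine ⟨5, by norm_num, (b - x2 + n).toNat, by omega, ?_⟩
      rw [o5]
      simp only [trT, Prod.mk_add_mk, Prod.mk.injEq, and_true]
      omega
    · refine ⟨3, by norm_num, (a - x1 + n).toNat, by omega, ?_⟩
      rw [o3]
      simp only [trT, Prod.mk_add_mk, Prod.mk.injEq, and_true]
      omega
  | false =>
    simp only [VT, Bool.false_eq_true, if_false, Prod.mk_add_mk, Prod.mk.injEq] at hv
    simp only [tri, Bool.false_eq_true, if_false, mem_insert, mem_singleton, Prod.mk_add_mk] at ht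
    simp only at he hv'
    have key : (a - x1 + (b - x2) + 1 = n ∧ 0 ≤ b - x2 ∧ b - x2 ≤ n - 1) ∨
        (b - x2 = -(n : ℤ) - 1 ∧ 0 ≤ a - x1 ∧ a - x1 ≤ n - 1) ∨
        (a - x1 = -(n : ℤ) - 1 ∧ 0 ≤ b - x2 ∧ b - x2 ≤ n - 1) := by
      rcases ht with rfl | rfl | rfl <;>
        simp only [tip, d0, d1, d2, Prod.mk_add_mk] at he <;> omega
    rcases key with h | h | h
    · refine ⟨0, by norm_num, (b - x2).toNat, by omega, ?_⟩
      rw [o0]
      simp only [trT, Prod.mk_add_mk, Prod.mk.injEq, and_true]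
      omega
    · refine ⟨4, by norm_num, (a - x1).toNat, by omega, ?_⟩
      rw [o4]
      simp only [trT, Prod.mk_add_mk, Prod.mk.injEq, and_true]
      omega
    · refine ⟨2, by norm_num, (n - 1 - (b - x2)).toNat, by omega, ?_⟩
      rw [o2]
      simp only [trT, Prod.mk_add_mk, Prod.mk.injEq, and_true]
      omega

end CNL
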