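import Pool.Agent.Work.MP_bda6fa_cnl.IC2
set_option autoImplicit false

/-! OUTT: outer triangles (second copy, without RNG). -/

namespace CNL
open XorIsing
open scoped Classical
open Finset Relation Filter Topology

namespace DOUTTx

theorem os (n k i : ℕ) : outT n (k + 1) i = rotT (outT n k i) :=
  Function.iterate_succ_apply' _ _ _

theorem rf (a b : ℤ) : rotT (((a, b) : V), false) = (((-b - 1, a + b + 1) : V), true) := by
  simp [rotT, rot]
  ring

theorem rt (a b : ℤ) : rotT (((a, b) : V), true) = (((-b - 1, a + b) : V), false) := by
  simp [rotT, rot]

theorem o0 (n i : ℕ) : outT n 0 i = ((((n : ℤ) - i - 1, (i : ℤ)) : V), false) := rfl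

theorem o1 (n i : ℕ) : outT n 1 i = (((-(i : ℤ) - 1, (n : ℤ)) : V), true) := by
  rw [os, o0, rf]
  congr 2
  ring

theorem o2 (n i : ℕ) : outT n 2 i = (((-(n : ℤ) - 1, (n : ℤ) - i - 1) : V), false) := by
  rw [os, o1, rt]
  congr 2
  ring

theorem o3 (n i : ℕ) : outT n 3 i = ((((i : ℤ) - n, -(i : ℤ) - 1) : V), true) := by
  rw [os, o2, rf]
  congr 2 <;> ring

theorem o4 (n i : ℕ) : outT n 4 i = ((((i : ℤ), -(n : ℤ) - 1) : V), false) := by
  rw [os, o3, rt]
  congr 2 <;> ring

theorem o5 (n i : ℕ) : outT n 5 i = ((((n : ℤ), (i : ℤ) - n) : V), true) := by
  rw [os, o4, rf]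
  congr 2 <;> ring

theorem fin (x : V) (a b c d : ℤ) (β : Bool) (h1 : a = c + x.1) (h2 : b = d + x.2) :
    (((a, b) : V), β) = trT x (((c, d) : V), β) := by
  subst h1 h2
  rfl

end DOUTTx

open DOUTTx in
theorem p_OUTT : S_OUTT := by
  rintro n x ⟨⟨a, b⟩, β⟩ e hn he ht ⟨v, hv, hvn⟩
  obtain ⟨h1, h2⟩ := mem_inn.1 he
  rw [mem_Hx] at h1 h2 hvn
  cases β
  · simp only [tri, Bool.false_eq_true, if_false, Finset.mem_insert, Finset.mem_singleton] at ht
    simp only [VT, Bool.false_eq_true, if_false] at hv
    rcases ht with rfl | rfl | rfl
    · -- edge P2 P1
      simp [tip, dir] at h1 h2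
      have : v = (a, b) + (1, 1) := by
        rcases hv with rfl | rfl | rfl
        · exfalso
          apply hvn
          simp
          omega
        · exfalso
          apply hvn
          simp
          omega
        · rfl
      subst this
      simp at hvn
      refine ⟨0, by norm_num, (b - x.2).toNat, ?_, ?_⟩
      · omega
      · rw [o0]
        apply fin <;> omega
    · simp [tip, dir] at h1 h2
      have : v = (a, b) + (1, 0) := by
        rcases hv with rfl | rfl | rfl
        · rfl
        · exfalso
          apply hvn
          simp
          omega
        · exfalso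
          apply hvn
          simp
          omega
      subst this
      simp at hvn
      refine ⟨4, by norm_num, (a - x.1).toNat, ?_, ?_⟩
      · omega
      · rw [o4]
        apply fin <;> omega
    · simp [tip, dir] at h1 h2
      have : v = (a, b) + (0, 1) := by
        rcases hv with rfl | rfl | rfl
        · exfalso
          apply hvn
          simp
          omega
        · rfl
        · exfalso
          apply hvn
          simp
          omega
      subst this
      simp at hvn
      refine ⟨2, by norm_num, (n - 1 - (b - x.2)).toNat, ?_, ?_⟩
      · omega
      · rw [o2]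
        apply fin <;> omega
  · simp only [tri, if_true, Finset.mem_insert, Finset.mem_singleton] at ht
    simp only [VT, if_true] at hv
    rcases ht with rfl | rfl | rfl
    · simp [tip, dir] at h1 h2
      have : v = (a, b) + (0, 1) := by
        rcases hv with rfl | rfl | rfl
        · exfalso
          apply hvn
          simp
          omega
        · exfalso
          apply hvn
          simp
          omega
        · rfl
      subst this
      simp at hvn
      refine ⟨1, by norm_num, (-(a - x.1) - 1).toNat, ?_, ?_⟩
      · omega
      · rw [o1]
        apply fin <;> omega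
    · simp [tip, dir] at h1 h2
      have : v = (a, b) + (1, 0) := by
        rcases hv with rfl | rfl | rfl
        · exfalso
          apply hvn
          simp
          omega
        · rfl
        · exfalso
          apply hvn
          simp
          omega
      subst this
      simp at hvn
      refine ⟨5, by norm_num, (b - x.2 + n).toNat, ?_, ?_⟩
      · omega
      · rw [o5]
        apply fin <;> omega
    · simp [tip, dir] at h1 h2
      have : v = (a, b) := by
        rcases hv with rfl | rfl | rfl
        · rfl
        · exfalso
          apply hvn
          simp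
          omega
        · exfalso
          apply hvn
          simp
          omega
      subst this
      simp at hvn
      refine ⟨3, by norm_num, (-(b - x.2) - 1).toNat, ?_, ?_⟩
      · omega
      · rw [o3]
        apply fin <;> omega

end CNL
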