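import Pool.Agent.Work.MP_bda6fa_cnl.IC2
import Pool.Agent.Work.MP_bda6fa_nest.DISM
import Pool.Agent.Work.MP_bda6fa_nest.G1s
set_option autoImplicit false

/-! Block P3D: dual arms of the free random cluster model from a lower bound of the disorder correlations. -/

namespace CNL
open XorIsing
open scoped Classical
open Finset Relation Filter Topology

namespace DP3D

theorem sub_box (M : ℕ) : Hx (0, 0) M ⊆ XorIsing.box M := by
  intro v hv
  rw [mem_Hx] at hv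
  rw [mem_box]
  simp only at hv
  omega

theorem tri_in (v : V) (h : VT v (((0, 0), true) : V × Bool)) : v ∈ Hx (0, 0) 1 := by
  unfold VT at h
  rw [if_pos rfl] at h
  rw [mem_Hx]
  rcases h with rfl | rfl | rfl <;> norm_num

theorem arm (hEVD : S_EVD) (hDEX : S_DEX) (D : Finset V) (ω : Finset Edge) (R : ℕ) (hR : 1 < R) (hω : ω ⊆ inn D)
    (h : Ev D ((0, 0), true) ω) : ∃ k < 6, DArm0 (ω : Set Edge) k (0, 0) 1 R := by
  obtain ⟨t, w, hw, hwt, hp⟩ := hEVD D ω R hω h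
  refine hDEX (ω : Set Edge) 1 R (0, 0) ((0, 0), true) t w le_rfl hR hw hwt ?_ (Or.inl tri_in)
  refine hp.lift id ?_
  rintro a b ⟨h1, e, h2, h3⟩
  exact ⟨h1, e, fun h => h2 (Finset.mem_coe.1 h), h3⟩

end DP3D

theorem p_P3D (hTES : S_TES) (hEVD : S_EVD) (hDEX : S_DEX) (hVOLF : S_VOLF) (hLVT : S_LVT) (hARD : S_ARD) : S_P3D := by
  intro β c hβ hc hN R hR
  have hV := hVOLF β hβ
  have hloc : Loc (fun b : Set Edge => ∃ k < 6, DArm0 b k (0, 0) 1 R) := by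
    choose S hS using fun k : Fin 6 => hARD.loc k (0, 0) 1 R
    refine ⟨univ.biUnion S, fun c c' hcc => ?_⟩
    have h1 : ∀ k : Fin 6, (DArm0 c k (0, 0) 1 R ↔ DArm0 c' k (0, 0) 1 R) := fun k =>
      (hS k) c c' fun e he => hcc e (mem_biUnion.mpr ⟨k, mem_univ k, he⟩)
    constructor
    · rintro ⟨k, hk, h⟩
      exact ⟨k, hk, (h1 ⟨k, hk⟩).1 h⟩
    · rintro ⟨k, hk, h⟩
      exact ⟨k, hk, (h1 ⟨k, hk⟩).2 h⟩
  have hlim := hLVT Edge trE rotE inn (fw β) hV _ hloc (0, 0)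
  refine ge_of_tendsto' hlim fun M => ?_
  have h1 : c ≤ dis β (Hx (0, 0) M) ((0, 0), true) :=
    (hN M).trans (p_DISM p_G1s β (XorIsing.box M) (Hx (0, 0) M) ((0, 0), true) hβ.le (DP3D.sub_box M))
  have hpos : 0 < ∑ ω ∈ (inn (Hx (0, 0) M)).powerset, fw β (Hx (0, 0) M) ω :=
    sum_pos (fun ω hω => hV.pos _ _ (mem_powerset.1 hω)) ⟨∅, empty_mem_powerset _⟩
  have h2 := hTES β (Hx (0, 0) M) ((0, 0), true) hβ.le
  unfold PV EV TW
  rw [le_div_iff₀ hpos]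
  refine (mul_le_mul_of_nonneg_right h1 hpos.le).trans ?_
  rw [h2]
  refine sum_le_sum fun ω hω => mul_le_mul_of_nonneg_left ?_ (hV.pos _ _ (mem_powerset.1 hω)).le
  by_cases hE : Ev (Hx (0, 0) M) ((0, 0), true) ω
  · have h3 : ∃ k < 6, DArm0 (ω : Set Edge) k (0, 0) 1 R :=
      DP3D.arm hEVD hDEX _ ω R hR (mem_powerset.1 hω) hE
    show (if Ev (Hx (0, 0) M) ((0, 0), true) ω then (1 : ℝ) else 0) ≤
      if ∃ k < 6, DArm0 (ω : Set Edge) k (0, 0) 1 R then 1 else 0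
    rw [if_pos hE, if_pos h3]
  · show (if Ev (Hx (0, 0) M) ((0, 0), true) ω then (1 : ℝ) else 0) ≤
      if ∃ k < 6, DArm0 (ω : Set Edge) k (0, 0) 1 R then 1 else 0
    rw [if_neg hE]
    split_ifs <;> norm_num

end CNL
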