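import Pool.Agent.Work.MP_bda6fa_cnl.IC2
set_option autoImplicit false

namespace CNL
open XorIsing
open scoped Classical
open Finset Relation Filter Topology

namespace DP3U

theorem fcor_eq (β : ℝ) (D : Finset V) (x y : V) (hxy : x ≠ y) :
    fcor β D x y = EV (fun D => D) (sw β) D
      (fun c => ∏ e ∈ ({x, y} : Finset V), if e ∈ c then (-1 : ℝ) else 1) := by
  unfold fcor EV TW sw pz
  congr 1
  refine sum_congr rfl fun M _ => ?_
  show _ = Real.exp (β * ∑ e ∈ inn D, spin M e.1 * spin M (tip e)) *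
    ∏ e ∈ ({x, y} : Finset V), if e ∈ M then (-1 : ℝ) else 1
  rw [prod_pair hxy]
  rfl

theorem Hx_mono {x : V} {m n : ℕ} (h : m ≤ n) : Hx x m ⊆ Hx x n := by
  intro v hv
  rw [mem_Hx] at hv ⊢
  have : (m : ℤ) ≤ n := by exact_mod_cast h
  omega

theorem fcor_mono (hFMON : S_FMON) {β : ℝ} (hβ : 0 ≤ β) {M M' : ℕ} (h : M ≤ M') {x : V}
    (hx : x ∈ Hx (0, 0) M) (hx0 : (0, 0) ≠ x) :
    fcor β (Hx (0, 0) M) (0, 0) x ≤ fcor β (Hx (0, 0) M') (0, 0) x := by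
  rw [fcor_eq β _ _ _ hx0, fcor_eq β _ _ _ hx0]
  refine hFMON β _ _ _ hβ (Hx_mono h) ?_
  intro v hv
  rw [mem_insert, mem_singleton] at hv
  rcases hv with rfl | rfl
  · rw [mem_Hx]
    refine ⟨⟨?_, ?_⟩, ⟨?_, ?_⟩, ?_, ?_⟩ <;> simp
  · exact hx

theorem half1 (hFMON : S_FMON) (hGKSP : S_GKSP) {β c : ℝ} {L : ℕ} (hβ : 0 ≤ β)
    (H : ∀ x, x ∉ Hx (0, 0) L → ∃ M : ℕ, x ∈ Hx (0, 0) M ∧ c ≤ fcor β (Hx (0, 0) M) (0, 0) x)
    (N : ℕ) : c ≤ corr β (XorIsing.box N) {(0, 0)} ^ 2 := by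
  obtain ⟨K, hK1, hK2⟩ : ∃ K : ℕ, L < K ∧ 2 * N + 2 < K := ⟨L + 2 * N + 3, by omega, by omega⟩
  have hx1 : (((K : ℤ), (0 : ℤ)) : V) ∉ Hx (0, 0) L := by
    rw [mem_Hx]
    rintro ⟨⟨_, h⟩, _⟩
    simp only at h
    omega
  obtain ⟨M, hM1, hM2⟩ := H _ hx1
  have hne : ((0, 0) : V) ≠ ((K : ℤ), (0 : ℤ)) := by
    intro h
    have h1 := congrArg Prod.fst h
    simp only at h1
    omega
  have h1 := fcor_mono hFMON hβ (Nat.le_add_right M (2 * N + 2 + K)) hM1 hne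
  refine hM2.trans (h1.trans (hGKSP β N _ _ hβ ?_ ?_ ?_))
  · intro v hv
    rw [mem_box] at hv
    rw [mem_Hx]
    push_cast at hv ⊢
    omega
  · intro v hv
    rw [shift, mem_image] at hv
    obtain ⟨u, hu, rfl⟩ := hv
    rw [mem_box] at hu
    rw [mem_Hx]
    push_cast at hu ⊢
    simp only [Prod.fst_add, Prod.snd_add]
    omega
  · rw [mem_box]
    rintro ⟨⟨_, h⟩, _⟩
    push_cast at h
    omega

theorem PV_mono {β : ℝ} (hβ : 0 ≤ β) (D : Finset V) (A B : Set Edge → Prop) (h : ∀ c, A c → B c) :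
    PV inn (fw β) D A ≤ PV inn (fw β) D B := by
  have hfw : ∀ ω, 0 ≤ fw β D ω := by
    intro ω
    unfold fw
    have : 0 ≤ Real.exp (2 * β) - 1 := by
      have := Real.add_one_le_exp (2 * β)
      linarith
    positivity
  unfold PV EV TW
  refine div_le_div_of_nonneg_right (sum_le_sum fun c _ => mul_le_mul_of_nonneg_left ?_ (hfw c))
    (sum_nonneg fun c _ => hfw c)
  show (if A (c : Set Edge) then (1 : ℝ) else 0) ≤ if B (c : Set Edge) then (1 : ℝ) else 0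
  by_cases h1 : A (c : Set Edge)
  · rw [if_pos h1, if_pos (h _ h1)]
  · rw [if_neg h1]
    split_ifs <;> norm_num

theorem corr_zero : corr 0 (XorIsing.box 0) {((0, 0) : V)} = 0 := by
  have hb : XorIsing.box 0 = {((0, 0) : V)} := by
    ext v
    rw [mem_box, mem_singleton, Prod.ext_iff]
    push_cast
    constructor
    · rintro ⟨⟨h1, h2⟩, h3, h4⟩
      constructor <;> omega
    · rintro ⟨h1, h2⟩
      omega
  have hp : ({((0, 0) : V)} : Finset V).powerset = {∅, {((0, 0) : V)}} := by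
    ext s
    rw [mem_powerset, subset_singleton_iff, mem_insert, mem_singleton]
  unfold corr
  rw [hb, hp, sum_pair (by
    intro h
    have h2 : ((0, 0) : V) ∈ (∅ : Finset V) := by
      rw [h]
      exact mem_singleton_self _
    exact absurd h2 (notMem_empty _))]
  unfold wt
  rw [prod_singleton, prod_singleton]
  unfold spin
  simp

end DP3U

theorem p_P3U (hFMON : S_FMON) (hGKSP : S_GKSP) (hFES : S_FES) (hPEX : S_PEX) (hVOLF : S_VOLF)
    (hLVT : S_LVT) (hARP : S_ARP) : S_P3U := by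
  intro β c L hβ hc H
  have h1 := DP3U.half1 hFMON hGKSP hβ H
  refine ⟨h1, fun R hR => ?_⟩
  have hβ' : 0 < β := by
    rcases hβ.lt_or_eq with h | h
    · exact h
    · exfalso
      have h2 := h1 0
      rw [← h, DP3U.corr_zero] at h2
      norm_num at h2
      linarith
  have hloc : Loc (fun b : Set Edge => ∃ k < 6, PArm b k (0, 0) 1 R) := by
    have h3 : ∀ k, Loc (fun b : Set Edge => PArm b k (0, 0) 1 R) := fun k => hARP.loc k (0, 0) 1 R
    choose F hF using h3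
    refine ⟨(range 6).biUnion F, fun b b' hbb => ?_⟩
    have h4 : ∀ k < 6, (PArm b k (0, 0) 1 R ↔ PArm b' k (0, 0) 1 R) := fun k hk =>
      hF k b b' fun e he => hbb e (mem_biUnion.2 ⟨k, mem_range.2 hk, he⟩)
    constructor
    · rintro ⟨k, hk, h5⟩
      exact ⟨k, hk, (h4 k hk).1 h5⟩
    · rintro ⟨k, hk, h5⟩
      exact ⟨k, hk, (h4 k hk).2 h5⟩
  obtain ⟨K, hK1, hK2⟩ : ∃ K : ℕ, L < K ∧ R < K := ⟨L + R + 1, by omega, by omega⟩
  have hx1 : (((K : ℤ), (0 : ℤ)) : V) ∉ Hx (0, 0) L := by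
    rw [mem_Hx]
    rintro ⟨⟨_, h⟩, _⟩
    simp only at h
    omega
  have hx2 : (((K : ℤ), (0 : ℤ)) : V) ∉ Hx (0, 0) R := by
    rw [mem_Hx]
    rintro ⟨⟨_, h⟩, _⟩
    simp only at h
    omega
  have hne : ((0, 0) : V) ≠ ((K : ℤ), (0 : ℤ)) := by
    intro h
    have h1 := congrArg Prod.fst h
    simp only at h1
    omega
  have h00 : ∀ m : ℕ, ((0, 0) : V) ∈ Hx (0, 0) m := by
    intro m
    rw [mem_Hx]
    refine ⟨⟨?_, ?_⟩, ⟨?_, ?_⟩, ?_, ?_⟩ <;> simp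
  obtain ⟨M, hM1, hM2⟩ := H _ hx1
  refine ge_of_tendsto (hLVT Edge trE rotE inn (fw β) (hVOLF β hβ') _ hloc (0, 0)) ?_
  filter_upwards [eventually_ge_atTop M] with M' hM'
  have h6 := hM2.trans (DP3U.fcor_mono hFMON hβ hM' hM1 hne)
  rw [hFES β _ _ _ hβ (h00 M') (DP3U.Hx_mono hM' hM1)] at h6
  refine h6.trans (DP3U.PV_mono hβ _ _ _ fun b hb => ?_)
  exact hPEX b 1 R (0, 0) (0, 0) _ le_rfl hR hx2 (h00 1) hb

end CNL
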