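import Pool.Agent.Work.MP_bda6fa_cnl.IC2
set_option autoImplicit false

/-! Block PEX -/

namespace CNL
open XorIsing
open scoped Classical
open Finset Relation Filter Topology

namespace DPEX

lemma dir_cases (k : Fin 3) : dir k = (1, 0) ∨ dir k = (0, 1) ∨ dir k = (1, -1) := by
  fin_cases k
  · exact Or.inl rfl
  · exact Or.inr (Or.inl rfl)
  · exact Or.inr (Or.inr rfl)

lemma be_out {b : Set Edge} {u v x : V} {n : ℕ} (hn : 1 ≤ n) (h : BE b u v) (hv : v ∉ Hx x n) :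
    u ∉ Hx x (n - 1) := by
  obtain ⟨e, _, h⟩ := h
  obtain ⟨u1, u2⟩ := u
  obtain ⟨v1, v2⟩ := v
  obtain ⟨⟨e1, e2⟩, k⟩ := e
  rw [mem_Hx] at hv ⊢
  simp only [Nat.cast_sub hn, Nat.cast_one]
  rcases dir_cases k with hk | hk | hk <;> rcases h with ⟨h1, h2⟩ | ⟨h1, h2⟩ <;>
    · unfold tip at h2
      simp only [hk, Prod.mk_add_mk, Prod.mk.injEq] at h1 h2 hv ⊢
      omega

lemma mono_Hx {x : V} {n R : ℕ} (h : n ≤ R) : Hx x n ⊆ Hx x R := by
  intro v hv
  rw [mem_Hx] at hv ⊢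
  omega

lemma last {b : Set Edge} {x u w : V} {n R : ℕ} (hn : 1 ≤ n) (hR : n < R) (hw : w ∉ Hx x R)
    (hu : u ∈ Hx x n) (h : PCon b (Hx x n) u w) : u ∉ Hx x (n - 1) := by
  rcases ReflTransGen.cases_head h with h | ⟨u', ⟨h1, h2⟩, _⟩
  · exfalso
    rw [h] at hu
    exact hw (mono_Hx hR.le hu)
  · exact be_out hn h2 h1

end DPEX

open DPEX in
theorem p_PEX (hRNG : S_RNG) : S_PEX := by
  intro b n R x u w hn hR hw hu h
  have key : ∀ u, ReflTransGen (BE b) u w → PCon b (Hx x n) u w ∨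
      ∃ v ∈ Hx x n, v ∉ Hx x (n - 1) ∧ PCon b (Hx x n) v w := by
    intro u h
    induction h using ReflTransGen.head_induction_on with
    | refl => exact Or.inl ReflTransGen.refl
    | @head u u' h1 h2 ih =>
      rcases ih with ih | ih
      · by_cases hu' : u' ∈ Hx x n
        · exact Or.inr ⟨u', hu', last hn hR hw hu' ih, ih⟩
        · exact Or.inl (ReflTransGen.head ⟨hu', h1⟩ ih)
      · exact Or.inr ih
  have h3 : ∃ v ∈ Hx x n, v ∉ Hx x (n - 1) ∧ PCon b (Hx x n) v w := by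
    rcases key u h with h | h
    · exact ⟨u, hu, last hn hR hw hu h, h⟩
    · exact h
  obtain ⟨v, hv1, hv2, hv3⟩ := h3
  obtain ⟨k, hk, hs⟩ := hRNG n x v hn hv1 hv2
  exact ⟨k, hk, v, w, hs, hw, hv3⟩

end CNL
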