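import Pool.Agent.Work.MP_bda6fa_cnl.IC2
set_option autoImplicit false

/-! Block PRIS (helper31): a spin arm gives an open arm. -/

namespace CNL
open XorIsing
open scoped Classical
open Finset Relation Filter Topology

namespace DPRIS

lemma rot_mem (m : ℕ) (v : V) : rot v ∈ Hx (0, 0) m ↔ v ∈ Hx (0, 0) m := by
  rw [mem_Hx, mem_Hx]
  simp only [rot]
  constructor <;> intro h <;> omega

lemma rotk_mem (m k : ℕ) (v : V) : rot^[k] v ∈ Hx (0, 0) m ↔ v ∈ Hx (0, 0) m := by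
  induction k with
  | zero => rfl
  | succ k ih => rw [Function.iterate_succ_apply', rot_mem, ih]

lemma sub_mem (m : ℕ) (x v : V) : v - x ∈ Hx (0, 0) m ↔ v ∈ Hx x m := by
  rw [mem_Hx, mem_Hx]
  simp only [Prod.fst_sub, Prod.snd_sub]
  constructor <;> intro h <;> omega

lemma rot_adj {a b : V} (h : Adj a b) : Adj (rot a) (rot b) := by
  have key : ∀ (a b : V) (k : Fin 3), b = a + dir k → Adj (rot a) (rot b) := by
    intro a b k hb
    subst hb
    obtain ⟨a1, a2⟩ := a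
    fin_cases k
    · refine ⟨1, Or.inl (Prod.ext ?_ ?_)⟩ <;> simp [rot, dir] <;> ring
    · refine ⟨2, Or.inr (Prod.ext ?_ ?_)⟩ <;> simp [rot, dir] <;> ring
    · refine ⟨0, Or.inl (Prod.ext ?_ ?_)⟩ <;> simp [rot, dir] <;> ring
  obtain ⟨k, hk | hk⟩ := h
  · exact key a b k hk
  · obtain ⟨j, hj | hj⟩ := key b a k hk
    · exact ⟨j, Or.inr hj⟩
    · exact ⟨j, Or.inl hj⟩

lemma rotk_adj (k : ℕ) {a b : V} (h : Adj a b) : Adj (rot^[k] a) (rot^[k] b) := by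
  induction k with
  | zero => exact h
  | succ k ih =>
    rw [Function.iterate_succ_apply', Function.iterate_succ_apply']
    exact rot_adj ih

lemma tr_adj (x : V) {a b : V} (h : Adj a b) : Adj (a + x) (b + x) := by
  obtain ⟨k, hk | hk⟩ := h
  · exact ⟨k, Or.inl (by rw [hk]; abel)⟩
  · exact ⟨k, Or.inr (by rw [hk]; abel)⟩

lemma be_of (c : Set V) {a d : V} (ha : a ∈ c) (hd : d ∈ c) (h : Adj a d) : BE (bs c) a d := by
  obtain ⟨k, hk | hk⟩ := h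
  · exact ⟨(a, k), ⟨ha, by show a + dir k ∈ c; rw [← hk]; exact hd⟩, Or.inl ⟨rfl, hk.symm⟩⟩
  · exact ⟨(d, k), ⟨hd, by show d + dir k ∈ c; rw [← hk]; exact ha⟩, Or.inr ⟨rfl, hk.symm⟩⟩

lemma base (n i : ℕ) (hn : 1 ≤ n) (hi : i < n + 1) : ∃ j < n,
    Adj ((((n : ℤ) - (j : ℤ), (j : ℤ)) : V)) ((((n + 1 : ℕ) : ℤ) - (i : ℤ), (i : ℤ)) : V) := by
  rcases Nat.eq_zero_or_pos i with h | h
  · subst h
    refine ⟨0, hn, 0, Or.inl ?_⟩
    simp [dir]
  · refine ⟨i - 1, by omega, 1, Or.inl ?_⟩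
    have h1 : ((i - 1 : ℕ) : ℤ) = (i : ℤ) - 1 := by omega
    rw [h1]
    simp [dir]
    try ring

end DPRIS

theorem p_PRIS : S_PRIS := by
  rintro c k x n R hn hR ⟨u, w, ⟨i, hi, hu⟩, huc, hw, hp⟩
  obtain ⟨j, hj, hadj⟩ := DPRIS.base n i hn hi
  have hadj' := DPRIS.tr_adj x (DPRIS.rotk_adj k hadj)
  rw [← hu, sub_add_cancel] at hadj'
  have hv : rot^[k] ((n : ℤ) - (j : ℤ), (j : ℤ)) + x ∈ Hx x n := by
    rw [← DPRIS.sub_mem, add_sub_cancel_right, DPRIS.rotk_mem, mem_Hx]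
    simp only
    omega
  have hun : u ∉ Hx x n := by
    rw [← DPRIS.sub_mem, hu, DPRIS.rotk_mem, mem_Hx]
    simp only
    omega
  refine ⟨rot^[k] ((n : ℤ) - (j : ℤ), (j : ℤ)) + x, w, ⟨j, hj, by rw [add_sub_cancel_right]⟩, hw,
    ?_⟩
  have hpath : ∀ a, ReflTransGen (fun a d => d ∈ c ∧ d ∉ Hx x n ∧ Adj a d) a w → a ∈ c →
      ReflTransGen (fun a d => d ∉ Hx x n ∧ BE (bs (c ∪ Hx x n)) a d) a w := by
    intro a h
    induction h using ReflTransGen.head_induction_on with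
    | refl => intro _; exact ReflTransGen.refl
    | @head a d h1 _ ih =>
      intro ha
      exact ReflTransGen.head ⟨h1.2.1, DPRIS.be_of _ (Or.inl ha) (Or.inl h1.1) h1.2.2⟩ (ih h1.1)
  refine ReflTransGen.head ⟨hun, DPRIS.be_of _ (Or.inr ?_) (Or.inl huc) hadj'⟩ (hpath u hp huc)
  exact hv

end CNL
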