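import Pool.Agent.Work.MP_bda6fa_cnl.IC
set_option autoImplicit false

namespace CNL
open XorIsing
open scoped Classical
open Finset Relation Filter Topology

namespace PrisX

theorem adj_symm {a b : V} (h : Adj a b) : Adj b a := by
  obtain ⟨k, hk⟩ := h
  exact ⟨k, hk.symm⟩

theorem adj_rot {a b : V} (h : Adj a b) : Adj (rot a) (rot b) := by
  obtain ⟨k, hk⟩ := h
  obtain ⟨a1, a2⟩ := a
  obtain ⟨b1, b2⟩ := b
  fin_cases k
  · rcases hk with h | h
    · refine ⟨1, Or.inl ?_⟩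
      simp [dir, rot, Prod.ext_iff] at h ⊢
      omega
    · refine ⟨1, Or.inr ?_⟩
      simp [dir, rot, Prod.ext_iff] at h ⊢
      omega
  · rcases hk with h | h
    · refine ⟨2, Or.inr ?_⟩
      simp [dir, rot, Prod.ext_iff] at h ⊢
      omega
    · refine ⟨2, Or.inl ?_⟩
      simp [dir, rot, Prod.ext_iff] at h ⊢
      omega
  · rcases hk with h | h
    · refine ⟨0, Or.inl ?_⟩
      simp [dir, rot, Prod.ext_iff] at h ⊢
      omega
    · refine ⟨0, Or.inr ?_⟩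
      simp [dir, rot, Prod.ext_iff] at h ⊢
      omega

theorem adj_rotk (k : ℕ) {a b : V} (h : Adj a b) : Adj (rot^[k] a) (rot^[k] b) := by
  induction k with
  | zero => simpa using h
  | succ k ih =>
    rw [Function.iterate_succ_apply', Function.iterate_succ_apply']
    exact adj_rot ih

theorem rot_mem {n : ℕ} {v : V} (h : v ∈ Hx (0, 0) n) : rot v ∈ Hx (0, 0) n := by
  rw [mem_Hx] at h ⊢
  simp [rot] at h ⊢
  omega

theorem rotk_mem (k : ℕ) {n : ℕ} {v : V} (h : v ∈ Hx (0, 0) n) : rot^[k] v ∈ Hx (0, 0) n := by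
  induction k with
  | zero => simpa using h
  | succ k ih =>
    rw [Function.iterate_succ_apply']
    exact rot_mem ih

theorem BE_of {b : Set V} {a d : V} (h : Adj a d) (ha : a ∈ b) (hd : d ∈ b) : BE (bs b) a d := by
  obtain ⟨k, hk⟩ := h
  rcases hk with rfl | rfl
  · exact ⟨(a, k), ⟨ha, hd⟩, Or.inl ⟨rfl, rfl⟩⟩
  · exact ⟨(d, k), ⟨hd, ha⟩, Or.inr ⟨rfl, rfl⟩⟩

end PrisX

open PrisX

theorem p_PRISx : S_PRIS := by
  intro c k x n R hn hR hS
  obtain ⟨u, w, ⟨j, hj, hu⟩, huc, hw, hp⟩ := hS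
  -- the vertex of the hexagon below u
  obtain ⟨i, hi, hadj⟩ : ∃ i : ℕ, i < n ∧ Adj (((n : ℤ) - i, (i : ℤ)) : V) (((n + 1 : ℕ) : ℤ) - j, (j : ℤ)) := by
    by_cases hjn : j < n
    · refine ⟨j, hjn, 0, Or.inl ?_⟩
      simp [dir, Prod.ext_iff]
      ring
    · have hjn' : j = n := by omega
      refine ⟨n - 1, by omega, 1, Or.inl ?_⟩
      subst hjn'
      have : ((j - 1 : ℕ) : ℤ) = j - 1 := by omega
      simp [dir, Prod.ext_iff, this]
  have hA := adj_rotk k hadj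
  rw [← hu] at hA
  have hvm : rot^[k] (((n : ℤ) - i, (i : ℤ)) : V) ∈ Hx (0, 0) n := by
    apply rotk_mem
    rw [mem_Hx]
    have hc : (i : ℤ) < n := by exact_mod_cast hi
    simp
    omega
  set v0 := rot^[k] (((n : ℤ) - i, (i : ℤ)) : V) with hv0
  have hvx : v0 + x ∈ Hx x n := by
    rw [mem_Hx] at hvm ⊢
    simp at hvm ⊢
    omega
  have hadj2 : Adj (v0 + x) u := by
    obtain ⟨l, hl⟩ := hA
    refine ⟨l, ?_⟩
    rcases hl with h | h
    · left
      rw [add_right_comm, ← h]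
      simp
    · right
      rw [h]
      abel
  have huK : u ∉ Hx x n := by
    intro h
    -- u - x is on the ring n + 1
    have h2 : ∀ (k : ℕ) (a : V), (a.1 + a.2 = ((n + 1 : ℕ) : ℤ) ∨ a.1 = ((n + 1 : ℕ) : ℤ) ∨ a.2 = ((n + 1 : ℕ) : ℤ) ∨
        a.1 + a.2 = -((n + 1 : ℕ) : ℤ) ∨ a.1 = -((n + 1 : ℕ) : ℤ) ∨ a.2 = -((n + 1 : ℕ) : ℤ)) →
        (rot^[k] a).1 + (rot^[k] a).2 = ((n + 1 : ℕ) : ℤ) ∨ (rot^[k] a).1 = ((n + 1 : ℕ) : ℤ) ∨
        (rot^[k] a).2 = ((n + 1 : ℕ) : ℤ) ∨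
        (rot^[k] a).1 + (rot^[k] a).2 = -((n + 1 : ℕ) : ℤ) ∨ (rot^[k] a).1 = -((n + 1 : ℕ) : ℤ) ∨
        (rot^[k] a).2 = -((n + 1 : ℕ) : ℤ) := by
      intro k a ha
      induction k with
      | zero => simpa using ha
      | succ k ih =>
        rw [Function.iterate_succ_apply']
        simp only [rot]
        generalize rot^[k] a = y at ih
        omega
    have h3 := h2 k (((n + 1 : ℕ) : ℤ) - j, (j : ℤ)) (by left; simp)
    rw [← hu] at h3
    rw [mem_Hx] at h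
    simp only [Prod.fst_sub, Prod.snd_sub] at h3
    push_cast at h3
    omega
  refine ⟨v0 + x, w, ⟨i, hi, by simp [hv0]⟩, hw, ?_⟩
  have hb : ∀ y, y ∈ c → y ∈ c ∪ (Hx x n : Set V) := fun y hy => Or.inl hy
  have first : PCon (bs (c ∪ Hx x n)) (Hx x n) (v0 + x) u :=
    ReflTransGen.single ⟨huK, BE_of hadj2 (Or.inr (by simpa using hvx)) (hb u huc)⟩
  have key : w ∈ c ∧ PCon (bs (c ∪ Hx x n)) (Hx x n) (v0 + x) w := by
    clear hw
    induction hp with
    | refl => exact ⟨huc, first⟩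
    | @tail a d _ hs ih =>
      exact ⟨hs.1, ReflTransGen.tail ih.2 ⟨hs.2.1, BE_of hs.2.2 (hb a ih.1) (hb d hs.1)⟩⟩
  exact key.2

end CNL
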