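import Pool.Agent.Work.MP_bda6fa_cnl.IC2
set_option autoImplicit false

/-! Block RNG -/

namespace CNL
open XorIsing
open scoped Classical
open Finset Relation Filter Topology

namespace DRNG

lemma sd0 {n : ℕ} {a b : ℤ} : Sd n 0 (a, b) ↔ a + b = n ∧ 0 ≤ b ∧ b < n := by
  unfold Sd
  constructor
  · rintro ⟨i, hi, h⟩
    simp only [Function.iterate_zero, id, Prod.mk.injEq] at h
    omega
  · rintro ⟨h1, h2, h3⟩
    refine ⟨b.toNat, by omega, ?_⟩
    simp only [Function.iterate_zero, id, Prod.mk.injEq]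
    omega

lemma sd1 {n : ℕ} {a b : ℤ} : Sd n 1 (a, b) ↔ b = n ∧ -(n : ℤ) < a ∧ a ≤ 0 := by
  unfold Sd
  constructor
  · rintro ⟨i, hi, h⟩
    simp only [Function.iterate_succ, Function.iterate_zero, Function.comp, id, rot,
      Prod.mk.injEq] at h
    omega
  · rintro ⟨h1, h2, h3⟩
    refine ⟨(-a).toNat, by omega, ?_⟩
    simp only [Function.iterate_succ, Function.iterate_zero, Function.comp, id, rot,
      Prod.mk.injEq]
    omega

lemma sd2 {n : ℕ} {a b : ℤ} : Sd n 2 (a, b) ↔ a = -(n : ℤ) ∧ 0 < b ∧ b ≤ n := by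
  unfold Sd
  constructor
  · rintro ⟨i, hi, h⟩
    simp only [Function.iterate_succ, Function.iterate_zero, Function.comp, id, rot,
      Prod.mk.injEq] at h
    omega
  · rintro ⟨h1, h2, h3⟩
    refine ⟨((n : ℤ) - b).toNat, by omega, ?_⟩
    simp only [Function.iterate_succ, Function.iterate_zero, Function.comp, id, rot,
      Prod.mk.injEq]
    omega

lemma sd3 {n : ℕ} {a b : ℤ} : Sd n 3 (a, b) ↔ a + b = -(n : ℤ) ∧ -(n : ℤ) < b ∧ b ≤ 0 := by
  unfold Sd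
  constructor
  · rintro ⟨i, hi, h⟩
    simp only [Function.iterate_succ, Function.iterate_zero, Function.comp, id, rot,
      Prod.mk.injEq] at h
    omega
  · rintro ⟨h1, h2, h3⟩
    refine ⟨(-b).toNat, by omega, ?_⟩
    simp only [Function.iterate_succ, Function.iterate_zero, Function.comp, id, rot,
      Prod.mk.injEq]
    omega

lemma sd4 {n : ℕ} {a b : ℤ} : Sd n 4 (a, b) ↔ b = -(n : ℤ) ∧ 0 ≤ a ∧ a < n := by
  unfold Sd
  constructor
  · rintro ⟨i, hi, h⟩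
    simp only [Function.iterate_succ, Function.iterate_zero, Function.comp, id, rot,
      Prod.mk.injEq] at h
    omega
  · rintro ⟨h1, h2, h3⟩
    refine ⟨a.toNat, by omega, ?_⟩
    simp only [Function.iterate_succ, Function.iterate_zero, Function.comp, id, rot,
      Prod.mk.injEq]
    omega

lemma sd5 {n : ℕ} {a b : ℤ} : Sd n 5 (a, b) ↔ a = n ∧ -(n : ℤ) ≤ b ∧ b < 0 := by
  unfold Sd
  constructor
  · rintro ⟨i, hi, h⟩
    simp only [Function.iterate_succ, Function.iterate_zero, Function.comp, id, rot,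
      Prod.mk.injEq] at h
    omega
  · rintro ⟨h1, h2, h3⟩
    refine ⟨((n : ℤ) + b).toNat, by omega, ?_⟩
    simp only [Function.iterate_succ, Function.iterate_zero, Function.comp, id, rot,
      Prod.mk.injEq]
    omega

end DRNG

open DRNG in
theorem p_RNG : S_RNG := by
  intro n x v hn h1 h2
  obtain ⟨x1, x2⟩ := x
  obtain ⟨v1, v2⟩ := v
  rw [mem_Hx] at h1 h2
  simp only [Nat.cast_sub hn, Nat.cast_one] at h1 h2
  rw [Prod.mk_sub_mk]
  have hc : (v1 - x1 + (v2 - x2) = n ∧ 0 ≤ v2 - x2 ∧ v2 - x2 < n) ∨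
      (v2 - x2 = n ∧ -(n : ℤ) < v1 - x1 ∧ v1 - x1 ≤ 0) ∨
      (v1 - x1 = -(n : ℤ) ∧ 0 < v2 - x2 ∧ v2 - x2 ≤ n) ∨
      (v1 - x1 + (v2 - x2) = -(n : ℤ) ∧ -(n : ℤ) < v2 - x2 ∧ v2 - x2 ≤ 0) ∨
      (v2 - x2 = -(n : ℤ) ∧ 0 ≤ v1 - x1 ∧ v1 - x1 < n) ∨
      (v1 - x1 = n ∧ -(n : ℤ) ≤ v2 - x2 ∧ v2 - x2 < 0) := by
    omega
  rcases hc with h | h | h | h | h | h
  · exact ⟨0, by norm_num, sd0.mpr h⟩
  · exact ⟨1, by norm_num, sd1.mpr h⟩
  · exact ⟨2, by norm_num, sd2.mpr h⟩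
  · exact ⟨3, by norm_num, sd3.mpr h⟩
  · exact ⟨4, by norm_num, sd4.mpr h⟩
  · exact ⟨5, by norm_num, sd5.mpr h⟩

end CNL
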