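import Pool.Agent.Work.MP_bda6fa_cnl.IC2
import Pool.Agent.Work.MP_bda6fa_nest.DISF
set_option autoImplicit false

/-! TES: twisted Edwards-Sokal. -/

namespace CNL
open XorIsing
open scoped Classical
open Finset Relation Filter Topology

noncomputable section

namespace DTES

theorem gen (β : ℝ) (D : Finset V) (F : Finset Edge) (P : Finset V → Edge → Prop)
    (x : Finset V → Edge → ℝ) (hx : ∀ M e, x M e = if P M e then 1 else -1) :
    ∑ M ∈ D.powerset, Real.exp (β * ∑ e ∈ F, x M e) =
      Real.exp (-β) ^ F.card * ∑ ω ∈ F.powerset, (Real.exp (2 * β) - 1) ^ ω.card *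
        (((D.powerset.filter (fun M => ∀ e ∈ ω, P M e)).card : ℕ) : ℝ) := by
  have h1 : ∀ M ∈ D.powerset, Real.exp (β * ∑ e ∈ F, x M e) = Real.exp (-β) ^ F.card *
      ∑ ω ∈ F.powerset, if ∀ e ∈ ω, P M e then (Real.exp (2 * β) - 1) ^ ω.card else 0 := by
    intro M _
    have h2 : Real.exp (β * ∑ e ∈ F, x M e) =
        ∏ e ∈ F, (Real.exp (-β) * (1 + if P M e then Real.exp (2 * β) - 1 else 0)) := by
      rw [mul_sum, Real.exp_sum]
      refine prod_congr rfl fun e _ => ?_
      rw [hx]
      by_cases h : P M e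
      · rw [if_pos h, if_pos h, mul_one]
        have : (1 : ℝ) + (Real.exp (2 * β) - 1) = Real.exp (2 * β) := by ring
        rw [this, ← Real.exp_add]
        congr 1
        ring
      · rw [if_neg h, if_neg h, add_zero, mul_one, mul_neg, mul_one]
    rw [h2, prod_mul_distrib, prod_const]
    congr 1
    rw [prod_one_add]
    refine sum_congr rfl fun ω _ => ?_
    rw [prod_ite_zero, prod_const]
  rw [sum_congr rfl h1, ← mul_sum, sum_comm]
  congr 1
  refine sum_congr rfl fun ω _ => ?_
  rw [← sum_filter, sum_const, nsmul_eq_mul, mul_comm]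

theorem pzc_eq (β : ℝ) (D : Finset V) (t : V × Bool) :
    pzc β D (inn D) t = Real.exp (-β) ^ (inn D).card *
      ∑ ω ∈ (inn D).powerset, fw β D ω * (if Ev D t ω then 1 else 0) := by
  unfold pzc
  rw [gen β D (inn D) (fun M e => DISF.Q t M e)
    (fun M e => (if cut t e then -1 else 1) * (spin M e.1 * spin M (tip e)))]
  · congr 1
    refine sum_congr rfl fun ω _ => ?_
    rw [DISF.count, fw]
    split_ifs <;> ring
  · intro M e
    unfold DISF.Q spin
    by_cases h1 : e.1 ∈ M <;> by_cases h2 : tip e ∈ M <;> by_cases h3 : cut t e <;>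
      simp [h1, h2, h3]

/-- the two ends of the edge have the same sign -/
def Pc (M : Finset V) (e : Edge) : Prop := (e.1 ∈ M ↔ tip e ∈ M)

theorem pz_eq (β : ℝ) (D : Finset V) :
    pz β D (inn D) = Real.exp (-β) ^ (inn D).card * ∑ ω ∈ (inn D).powerset, fw β D ω := by
  unfold pz
  rw [gen β D (inn D) Pc
    (fun M e => (spin M e.1 * spin M (tip e)))]
  · congr 1
    refine sum_congr rfl fun ω _ => ?_
    have h4 : (2 : ℝ) ^ (fclusters D ω).card = ((compat D ω).card : ℝ) := by
      rw [card_compat]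
      push_cast
      rfl
    rw [fw, h4]
    congr 2
    apply congrArg Finset.card
    ext M
    constructor
    · intro h
      have h' := Finset.mem_filter.1 h
      exact mem_compat.2 ⟨mem_powerset.1 h'.1, h'.2⟩
    · intro h
      have h' := mem_compat.1 h
      exact Finset.mem_filter.2 ⟨mem_powerset.2 h'.1, h'.2⟩
  · intro M e
    unfold Pc spin
    by_cases h1 : e.1 ∈ M <;> by_cases h2 : tip e ∈ M <;> simp [h1, h2]

end DTES

theorem p_TES : S_TES := by
  intro β D t _
  unfold dis
  rw [DTES.pzc_eq]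
  have h1 := DTES.pz_eq β D
  have h2 := (pz_pos β D (inn D)).ne'
  rw [h1] at h2 ⊢
  have h3 : Real.exp (-β) ^ (inn D).card ≠ 0 := by positivity
  have h4 : ∑ ω ∈ (inn D).powerset, fw β D ω ≠ 0 := right_ne_zero_of_mul h2
  field_simp

end

end CNL
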