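import Pool.Agent.Work.MP_bda6fa_cnl.IC2
import Pool.Agent.Work.MP_bda6fa_nest.DISF
set_option autoImplicit false

/-! Block TES (second copy): twisted Edwards-Sokal identity. -/

namespace CNL
open XorIsing
open scoped Classical
open Finset Relation Filter Topology

namespace DTESx

theorem exp_pm (β : ℝ) (q : Prop) :
    Real.exp (β * (if q then (1 : ℝ) else -1)) = Real.exp (-β) * ((Real.exp (2 * β) - 1) * (if q then 1 else 0) + 1) := by
  by_cases h : q
  · rw [if_pos h, if_pos h, mul_one, mul_one, sub_add_cancel, ← Real.exp_add]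
    congr 1
    ring
  · rw [if_neg h, if_neg h, mul_zero, zero_add, mul_one]
    congr 1
    ring

theorem expand (β : ℝ) (D : Finset V) (F : Finset Edge) (q : Finset V → Edge → Prop) :
    ∑ M ∈ D.powerset, Real.exp (β * ∑ e ∈ F, (if q M e then (1 : ℝ) else -1)) =
      Real.exp (-β) ^ F.card * ∑ ω ∈ F.powerset, (Real.exp (2 * β) - 1) ^ ω.card *
        ((D.powerset.filter (fun M => ∀ e ∈ ω, q M e)).card : ℝ) := by
  have h1 : ∀ M ∈ D.powerset, Real.exp (β * ∑ e ∈ F, (if q M e then (1 : ℝ) else -1)) =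
      Real.exp (-β) ^ F.card * ∑ ω ∈ F.powerset, (Real.exp (2 * β) - 1) ^ ω.card *
        (if ∀ e ∈ ω, q M e then 1 else 0) := by
    intro M _
    rw [mul_sum, Real.exp_sum, prod_congr rfl fun e _ => exp_pm β (q M e), prod_mul_distrib, prod_const, prod_add]
    congr 1
    refine sum_congr rfl fun ω _ => ?_
    rw [prod_const_one, mul_one, prod_mul_distrib, prod_const]
    congr 1
    by_cases h : ∀ e ∈ ω, q M e
    · rw [if_pos h]
      exact prod_eq_one fun e he => if_pos (h e he)
    · rw [if_neg h]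
      push Not at h
      obtain ⟨e, he, h2⟩ := h
      exact prod_eq_zero he (if_neg h2)
  rw [sum_congr rfl h1, ← mul_sum, sum_comm]
  congr 1
  refine sum_congr rfl fun ω _ => ?_
  rw [← mul_sum, sum_boole]

theorem pzc_eq (β : ℝ) (D : Finset V) (F : Finset Edge) (t : V × Bool) :
    pzc β D F t = Real.exp (-β) ^ F.card * ∑ ω ∈ F.powerset, fw β D ω * (if Ev D t ω then 1 else 0) := by
  unfold pzc
  have h1 : ∀ M ∈ D.powerset, Real.exp (β * ∑ e ∈ F, (if cut t e then -1 else 1) * (spin M e.1 * spin M (tip e))) =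
      Real.exp (β * ∑ e ∈ F, (if DISF.Q t M e then (1 : ℝ) else -1)) := by
    intro M _
    congr 2
    refine sum_congr rfl fun e _ => ?_
    unfold DISF.Q spin
    by_cases a1 : e.1 ∈ M <;> by_cases a2 : tip e ∈ M <;> by_cases a3 : cut t e <;> simp [a1, a2, a3]
  rw [sum_congr rfl h1, expand β D F (DISF.Q t)]
  congr 1
  refine sum_congr rfl fun ω _ => ?_
  rw [DISF.count]
  unfold fw
  split_ifs <;> ring

/-- equal spins -/
def Q0 (M : Finset V) (e : Edge) : Prop := (e.1 ∈ M ↔ tip e ∈ M)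

theorem pz_eq (β : ℝ) (D : Finset V) (F : Finset Edge) :
    pz β D F = Real.exp (-β) ^ F.card * ∑ ω ∈ F.powerset, fw β D ω := by
  unfold pz
  have h1 : ∀ M ∈ D.powerset, Real.exp (β * ∑ e ∈ F, spin M e.1 * spin M (tip e)) =
      Real.exp (β * ∑ e ∈ F, (if Q0 M e then (1 : ℝ) else -1)) := by
    intro M _
    congr 2
    refine sum_congr rfl fun e _ => ?_
    unfold spin Q0
    by_cases a1 : e.1 ∈ M <;> by_cases a2 : tip e ∈ M <;> simp [a1, a2]
  rw [sum_congr rfl h1, expand β D F Q0]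
  congr 1
  refine sum_congr rfl fun ω _ => ?_
  have h2 : D.powerset.filter (fun M => ∀ e ∈ ω, Q0 M e) = compat D ω := by
    ext M
    rw [mem_filter, mem_powerset, mem_compat]
    rfl
  rw [h2, card_compat]
  unfold fw
  push_cast
  rfl

end DTESx

theorem p_TESx : S_TES := by
  intro β D t _
  have h1 := DTESx.pz_eq β D (inn D)
  have h2 := DTESx.pzc_eq β D (inn D) t
  have h3 := (pz_pos β D (inn D)).ne'
  have hK : Real.exp (-β) ^ (inn D).card ≠ 0 := (pow_pos (Real.exp_pos _) _).ne'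
  have hA : ∑ ω ∈ (inn D).powerset, fw β D ω ≠ 0 := by
    intro h
    rw [h1, h, mul_zero] at h3
    exact h3 rfl
  unfold dis
  rw [h1, h2, mul_div_mul_left _ _ hK, div_mul_cancel₀ _ hA]

end CNL
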