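import Pool.Agent.Work.MP_bda6fa_cnl.IC2
set_option autoImplicit false

/-! Block V1 (helper9): nonneg, one, add, fkg of the limit. -/

namespace CNL
open XorIsing
open scoped Classical
open Finset Relation Filter Topology

namespace DV1

variable {κ : Type} [DecidableEq κ]

theorem tw_pos {E : Finset V → Finset κ} {w : Finset V → Finset κ → ℝ} {D : Finset V}
    (hp : ∀ c, c ⊆ E D → 0 < w D c) : 0 < TW E w D := by
  unfold TW
  apply Finset.sum_pos
  · intro c hc
    exact hp c (Finset.mem_powerset.1 hc)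
  · exact ⟨∅, Finset.empty_mem_powerset _⟩

theorem pv_nonneg {E : Finset V → Finset κ} {w : Finset V → Finset κ → ℝ} {D : Finset V}
    (hp : ∀ c, c ⊆ E D → 0 < w D c) (A : Set κ → Prop) : 0 ≤ PV E w D A := by
  unfold PV EV
  apply div_nonneg _ (tw_pos hp).le
  apply Finset.sum_nonneg
  intro c hc
  have h := hp c (Finset.mem_powerset.1 hc)
  beta_reduce
  split_ifs
  · simpa using h.le
  · simp

theorem pv_one {E : Finset V → Finset κ} {w : Finset V → Finset κ → ℝ} {D : Finset V}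
    (hp : ∀ c, c ⊆ E D → 0 < w D c) : PV E w D (fun _ => True) = 1 := by
  unfold PV EV
  rw [div_eq_one_iff_eq (tw_pos hp).ne']
  unfold TW
  apply Finset.sum_congr rfl
  intro c _
  beta_reduce
  rw [if_pos trivial, mul_one]

theorem pv_add {E : Finset V → Finset κ} {w : Finset V → Finset κ → ℝ} {D : Finset V}
    (A B : Set κ → Prop) (h : ∀ c, ¬ (A c ∧ B c)) :
    PV E w D (fun c => A c ∨ B c) = PV E w D A + PV E w D B := by
  unfold PV EV
  rw [← add_div, ← Finset.sum_add_distrib]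
  congr 1
  apply Finset.sum_congr rfl
  intro c _
  have h1 := h (c : Set κ)
  beta_reduce
  by_cases hA : A (c : Set κ)
  · have hB : ¬ B (c : Set κ) := fun hB => h1 ⟨hA, hB⟩
    rw [if_pos (Or.inl hA), if_pos hA, if_neg hB]
    ring
  · by_cases hB : B (c : Set κ)
    · rw [if_pos (Or.inr hB), if_neg hA, if_pos hB]
      ring
    · rw [if_neg (by tauto), if_neg hA, if_neg hB]
      ring

theorem ind_mono (A : Set κ → Prop) (hA : Inc A) (c c' : Finset κ) (h : c ⊆ c') :
    (if A (c : Set κ) then (1 : ℝ) else 0) ≤ if A (c' : Set κ) then 1 else 0 := by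
  by_cases h1 : A (c : Set κ)
  · rw [if_pos h1, if_pos (hA _ _ (Finset.coe_subset.2 h) h1)]
  · rw [if_neg h1]
    split_ifs <;> norm_num

theorem pv_fkg (hFKGV : S_FKGV) {E : Finset V → Finset κ} {w : Finset V → Finset κ → ℝ}
    {D : Finset V} (hp : ∀ c, c ⊆ E D → 0 < w D c)
    (hl : ∀ c d, c ⊆ E D → d ⊆ E D → w D c * w D d ≤ w D (c ∪ d) * w D (c ∩ d))
    (A B : Set κ → Prop) (hA : Inc A) (hB : Inc B) :
    PV E w D A * PV E w D B ≤ PV E w D (fun c => A c ∧ B c) := by
  have h := hFKGV κ E w D hp hl (fun c => if A (c : Set κ) then 1 else 0)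
    (fun c => if B (c : Set κ) then 1 else 0) (fun c c' hc _ => ind_mono A hA c c' hc)
    (fun c c' hc _ => ind_mono B hB c c' hc)
  unfold PV
  refine h.trans (le_of_eq ?_)
  congr 1
  funext c
  by_cases h1 : A (c : Set κ) <;> by_cases h2 : B (c : Set κ) <;> simp [h1, h2]

theorem loc_or {A B : Set κ → Prop} (hA : Loc A) (hB : Loc B) : Loc (fun c => A c ∨ B c) := by
  obtain ⟨F, hF⟩ := hA
  obtain ⟨G, hG⟩ := hB
  refine ⟨F ∪ G, fun c c' h => ?_⟩
  exact or_congr (hF c c' fun e he => h e (Finset.mem_union_left _ he))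
    (hG c c' fun e he => h e (Finset.mem_union_right _ he))

theorem loc_and {A B : Set κ → Prop} (hA : Loc A) (hB : Loc B) : Loc (fun c => A c ∧ B c) := by
  obtain ⟨F, hF⟩ := hA
  obtain ⟨G, hG⟩ := hB
  refine ⟨F ∪ G, fun c c' h => ?_⟩
  exact and_congr (hF c c' fun e he => h e (Finset.mem_union_left _ he))
    (hG c c' fun e he => h e (Finset.mem_union_right _ he))

end DV1

theorem p_V1 (hFKGV : S_FKGV) (hLVT : S_LVT) : S_V1 := by
  intro κ _ tr ro E w hV
  refine ⟨?_, ?_, ?_, ?_⟩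
  · intro A hA
    exact ge_of_tendsto (hLVT κ tr ro E w hV A hA (0, 0))
      (Filter.Eventually.of_forall fun M => DV1.pv_nonneg (hV.pos _) A)
  · have h1 := hLVT κ tr ro E w hV (fun _ => True) ⟨∅, fun _ _ _ => Iff.rfl⟩ (0, 0)
    have h2 : Tendsto (fun M : ℕ => PV E w (Hx (0, 0) M) (fun _ => True)) atTop (𝓝 (1 : ℝ)) := by
      have e : (fun M : ℕ => PV E w (Hx (0, 0) M) (fun _ => True)) = fun _ => (1 : ℝ) := by
        funext M
        exact DV1.pv_one (hV.pos _)
      rw [e]
      exact tendsto_const_nhds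
    exact tendsto_nhds_unique h1 h2
  · intro A B hA hB hd
    have h1 := hLVT κ tr ro E w hV A hA (0, 0)
    have h2 := hLVT κ tr ro E w hV B hB (0, 0)
    have h3 := hLVT κ tr ro E w hV _ (DV1.loc_or hA hB) (0, 0)
    have e : (fun M : ℕ => PV E w (Hx (0, 0) M) (fun c => A c ∨ B c)) =
        fun M : ℕ => PV E w (Hx (0, 0) M) A + PV E w (Hx (0, 0) M) B := by
      funext M
      exact DV1.pv_add A B hd
    rw [e] at h3
    exact tendsto_nhds_unique h3 (h1.add h2)
  · intro A B hA hB iA iB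
    have h1 := hLVT κ tr ro E w hV A hA (0, 0)
    have h2 := hLVT κ tr ro E w hV B hB (0, 0)
    have h3 := hLVT κ tr ro E w hV _ (DV1.loc_and hA hB) (0, 0)
    exact le_of_tendsto_of_tendsto (h1.mul h2) h3
      (Filter.Eventually.of_forall fun M => DV1.pv_fkg hFKGV (hV.pos _) (hV.lat _) A B iA iB)

end CNL
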