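import Pool.Agent.Work.MP_bda6fa_cnl.IC2
set_option autoImplicit false

/-! Block V2 (helper57). -/

namespace CNL
open XorIsing
open scoped Classical
open Finset Relation Filter Topology

noncomputable section

namespace DV2

theorem image_Hx (x : V) (M : ℕ) : (Hx (-x) M).image (fun v => v + x) = Hx (0, 0) M := by
  ext v
  simp only [Finset.mem_image, mem_Hx]
  constructor
  · rintro ⟨u, hu, rfl⟩
    simp only [Prod.fst_neg, Prod.snd_neg, Prod.fst_add, Prod.snd_add] at hu ⊢
    refine ⟨?_, ?_⟩ <;> omega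
  · intro hv
    refine ⟨v - x, ?_, by simp⟩
    simp only [Prod.fst_neg, Prod.snd_neg, Prod.fst_sub, Prod.snd_sub] at hv ⊢
    refine ⟨?_, ?_⟩ <;> omega

theorem sum_image {κ : Type} [DecidableEq κ] (g : κ → κ) (hg : Function.Injective g) (S : Finset κ)
    (F : Finset κ → ℝ) : ∑ c ∈ (S.image g).powerset, F c = ∑ c ∈ S.powerset, F (c.image g) := by
  symm
  refine Finset.sum_bij (fun c _ => c.image g) ?_ ?_ ?_ ?_
  · intro c hc
    rw [Finset.mem_powerset] at hc ⊢
    exact Finset.image_subset_image hc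
  · intro c _ d _ h
    exact Finset.image_injective hg h
  · intro c hc
    rw [Finset.mem_powerset, Finset.subset_image_iff] at hc
    obtain ⟨s, hs, rfl⟩ := hc
    exact ⟨s, Finset.mem_powerset.2 hs, rfl⟩
  · intro c _
    rfl

theorem PV_image {κ : Type} [DecidableEq κ] (E : Finset V → Finset κ)
    (w : Finset V → Finset κ → ℝ) (g : κ → κ) (hg : Function.Injective g) (D D' : Finset V)
    (hE : E D' = (E D).image g) (hW : ∀ c, c ⊆ E D → w D' (c.image g) = w D c)
    (A : Set κ → Prop) : PV E w D' (fun c => A {e | g e ∈ c}) = PV E w D A := by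
  have hset : ∀ c : Finset κ, {e | g e ∈ ((c.image g : Finset κ) : Set κ)} = (c : Set κ) := by
    intro c
    ext e
    simp only [Finset.coe_image, Set.mem_ofPred_eq, Set.mem_image, Finset.mem_coe]
    constructor
    · rintro ⟨a, ha, h⟩
      rw [← hg h]
      exact ha
    · intro h
      exact ⟨e, h, rfl⟩
  unfold PV EV TW
  rw [hE, sum_image g hg, sum_image g hg]
  congr 1
  · refine Finset.sum_congr rfl fun c hc => ?_
    beta_reduce
    rw [hW c (Finset.mem_powerset.1 hc), hset c]
  · refine Finset.sum_congr rfl fun c hc => ?_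
    rw [hW c (Finset.mem_powerset.1 hc)]

theorem loc_image {κ : Type} [DecidableEq κ] (g : κ → κ) (A : Set κ → Prop) (hA : Loc A) :
    Loc (fun c => A {e | g e ∈ c}) := by
  obtain ⟨F, hF⟩ := hA
  refine ⟨F.image g, fun c c' h => ?_⟩
  refine hF _ _ fun e he => ?_
  exact h (g e) (Finset.mem_image_of_mem g he)

end DV2

theorem p_V2 (hLVT : S_LVT) : S_V2 := by
  intro κ _ tr ro E w hV A x hA
  have h1 := hLVT κ tr ro E w hV (fun c => A {e | tr x e ∈ c}) (DV2.loc_image (tr x) A hA) (0, 0)
  have h2 := hLVT κ tr ro E w hV A hA (-x)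
  have h3 : ∀ M : ℕ, PV E w (Hx (0, 0) M) (fun c => A {e | tr x e ∈ c}) = PV E w (Hx (-x) M) A := by
    intro M
    refine DV2.PV_image E w (tr x) (hV.inj x) (Hx (-x) M) (Hx (0, 0) M) ?_ ?_ A
    · rw [← DV2.image_Hx x M]
      exact hV.trE x _
    · intro c hc
      rw [← DV2.image_Hx x M]
      exact hV.trW x _ c hc
  simp only [h3] at h1
  exact tendsto_nhds_unique h1 h2

end

end CNL
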