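import Pool.Agent.Work.MP_bda6fa_cnl.IC2
set_option autoImplicit false

/-! V3: rotation invariance of the limit -/

namespace CNL
open XorIsing
open scoped Classical
open Finset Relation Filter Topology

theorem DV3.im (M : ℕ) : (Hx (0, 0) M).image rot = Hx (0, 0) M := by
  ext v
  rw [mem_image]
  constructor
  · rintro ⟨u, hu, rfl⟩
    rw [mem_Hx] at hu ⊢
    obtain ⟨a, b⟩ := u
    dsimp only [rot] at hu ⊢
    omega
  · intro hv
    obtain ⟨a, b⟩ := v
    refine ⟨(a + b, -a), ?_, ?_⟩
    · rw [mem_Hx] at hv ⊢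
      dsimp only at hv ⊢
      omega
    · unfold rot
      refine Prod.ext ?_ ?_
      · show -(-a) = a
        ring
      · show a + b + -a = b
        ring

theorem p_V3 (_hLVT : S_LVT) : S_V3 := by
  intro κ _ tr ro E w hV A _
  unfold LV
  congr 1
  funext M
  have hD := DV3.im M
  generalize Hx (0, 0) M = D at hD ⊢
  have hE : (E D).image ro = E D := by
    have h1 := hV.roE D
    rw [hD] at h1
    exact h1.symm
  have hw : ∀ d, d ⊆ E D → w D (d.image ro) = w D d := by
    intro d hd
    have h1 := hV.roW D d hd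
    rw [hD] at h1
    exact h1
  unfold PV EV
  congr 1
  symm
  refine Finset.sum_bij (fun d _ => d.image ro) ?_ ?_ ?_ ?_
  · intro d hd
    rw [mem_powerset] at hd ⊢
    rw [← hE]
    exact Finset.image_subset_image hd
  · intro d _ d' _ h
    exact Finset.image_injective hV.injr h
  · intro c hc
    rw [mem_powerset, ← hE] at hc
    obtain ⟨d, hd, hdc⟩ := Finset.subset_image_iff.1 hc
    exact ⟨d, mem_powerset.2 hd, hdc⟩
  · intro d hd
    rw [mem_powerset] at hd
    dsimp only
    rw [hw d hd]
    have h2 : {e | ro e ∈ ((d.image ro : Finset κ) : Set κ)} = (d : Set κ) := by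
      ext e
      rw [Set.mem_ofPred_eq, mem_coe, mem_coe, mem_image]
      constructor
      · rintro ⟨e', he', h3⟩
        rw [← hV.injr h3]
        exact he'
      · intro he
        exact ⟨e, he, rfl⟩
    have h3 : A {e | ro e ∈ ((d.image ro : Finset κ) : Set κ)} ↔ A (d : Set κ) :=
      iff_of_eq (congrArg A h2)
    by_cases h4 : A (d : Set κ)
    · rw [if_pos h4, if_pos (h3.2 h4)]
    · rw [if_neg h4, if_neg (fun h5 => h4 (h3.1 h5))]

end CNL
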