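import Pool.Agent.Work.MP_bda6fa_cnl.IC2
set_option autoImplicit false

/-! Block V4 (helper57). -/

namespace CNL
open XorIsing
open scoped Classical
open Finset Relation Filter Topology

noncomputable section

namespace DV4

theorem sum_union {κ : Type} [DecidableEq κ] (T S : Finset κ) (hS : S ⊆ T) (F : Finset κ → ℝ)
    (hF : ∀ c, c ⊆ T → 0 ≤ F c) :
    ∑ c ∈ T.powerset, F (c ∪ S) ≤ 2 ^ S.card * ∑ c ∈ T.powerset, F c := by
  have hinj : Set.InjOn (fun c : Finset κ => (c ∪ S, c ∩ S)) (T.powerset : Set (Finset κ)) := by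
    intro c _ d _ h
    simp only [Prod.mk.injEq] at h
    ext e
    by_cases he : e ∈ S
    · have := congrArg (fun X : Finset κ => e ∈ X) h.2
      simpa [he] using this
    · have := congrArg (fun X : Finset κ => e ∈ X) h.1
      simpa [he] using this
  have h1 : ∑ c ∈ T.powerset, F (c ∪ S) =
      ∑ p ∈ T.powerset.image (fun c : Finset κ => (c ∪ S, c ∩ S)), F p.1 := by
    rw [Finset.sum_image hinj]
  rw [h1]
  calc ∑ p ∈ T.powerset.image (fun c : Finset κ => (c ∪ S, c ∩ S)), F p.1
      ≤ ∑ p ∈ T.powerset ×ˢ S.powerset, F p.1 := by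
        apply Finset.sum_le_sum_of_subset_of_nonneg
        · intro p hp
          rw [Finset.mem_image] at hp
          obtain ⟨c, hc, rfl⟩ := hp
          rw [Finset.mem_powerset] at hc
          rw [Finset.mem_product, Finset.mem_powerset, Finset.mem_powerset]
          exact ⟨Finset.union_subset hc hS, Finset.inter_subset_right⟩
        · intro p hp _
          rw [Finset.mem_product, Finset.mem_powerset] at hp
          exact hF _ hp.1
    _ = 2 ^ S.card * ∑ c ∈ T.powerset, F c := by
        rw [Finset.sum_product]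
        simp only [Finset.sum_const, Finset.card_powerset, nsmul_eq_mul]
        rw [Finset.mul_sum]
        push_cast
        rfl

theorem Hx_mono {M M' : ℕ} (h : M ≤ M') : Hx (0, 0) M ⊆ Hx (0, 0) M' := by
  intro v hv
  rw [mem_Hx] at hv ⊢
  simp only at hv ⊢
  refine ⟨?_, ?_⟩ <;> omega

end DV4

theorem p_V4 (hLVT : S_LVT) : S_V4 := by
  intro κ _ tr ro E w hV S
  obtain ⟨δ, hδ, hfe⟩ := hV.fe S
  refine ⟨δ / 2 ^ S.card, by positivity, ?_⟩
  intro A B hA hB hAB
  have hTA := hLVT κ tr ro E w hV A hA (0, 0)
  have hTB := hLVT κ tr ro E w hV B hB (0, 0)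
  obtain ⟨M₀, hM₀⟩ := hV.exh S
  have hfin : ∀ M : ℕ, M₀ ≤ M →
      δ / 2 ^ S.card * PV E w (Hx (0, 0) M) A ≤ PV E w (Hx (0, 0) M) B := by
    intro M hM
    set D := Hx (0, 0) M with hD
    have hSD : S ⊆ E D := hM₀.trans (hV.mono _ _ (DV4.Hx_mono hM))
    have hTW : 0 ≤ TW E w D := by
      unfold TW
      exact Finset.sum_nonneg fun c hc => (hV.pos D c (Finset.mem_powerset.1 hc)).le
    have key : δ * ∑ c ∈ (E D).powerset, w D c * (if A (c : Set κ) then (1 : ℝ) else 0) ≤
        2 ^ S.card * ∑ c ∈ (E D).powerset, w D c * (if B (c : Set κ) then (1 : ℝ) else 0) := by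
      refine le_trans ?_ (DV4.sum_union (E D) S hSD
        (fun c => w D c * (if B (c : Set κ) then (1 : ℝ) else 0)) ?_)
      · rw [Finset.mul_sum]
        refine Finset.sum_le_sum fun c hc => ?_
        have hc' := Finset.mem_powerset.1 hc
        have h1 := hfe D hSD c hc'
        by_cases hAc : A (c : Set κ)
        · have hBc : B ((c ∪ S : Finset κ) : Set κ) := by
            rw [Finset.coe_union]
            exact hAB _ hAc
          rw [if_pos hAc, if_pos hBc, mul_one, mul_one]
          exact h1
        · rw [if_neg hAc, mul_zero, mul_zero]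
          have h2 := (hV.pos D (c ∪ S) (Finset.union_subset hc' hSD)).le
          split_ifs
          · linarith
          · simp
      · intro c hc
        have := (hV.pos D c hc).le
        split_ifs
        · linarith
        · simp
    unfold PV EV
    rw [← mul_div_assoc]
    refine div_le_div_of_nonneg_right ?_ hTW
    rw [div_mul_eq_mul_div, div_le_iff₀ (by positivity), mul_comm _ ((2 : ℝ) ^ S.card)]
    exact key
  refine le_of_tendsto_of_tendsto (hTA.const_mul _) hTB ?_
  filter_upwards [eventually_ge_atTop M₀] with M hM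
  exact hfin M hM

end

end CNL
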