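import Pool.Agent.Work.MP_bda6fa_cnl.IC2
set_option autoImplicit false

/-! Block VOLF: the free random cluster model is a Vol. -/

namespace CNL
open XorIsing
open scoped Classical
open Finset Relation Filter Topology

noncomputable section

namespace DVOLF

/-- compatible with the endpoints -/
def EP (f : V → V) (g : Edge → Edge) : Prop :=
  ∀ e : Edge, (f e.1 = (g e).1 ∧ f (tip e) = tip (g e)) ∨ (f e.1 = tip (g e) ∧ f (tip e) = (g e).1)

theorem compat_card {f : V → V} {g : Edge → Edge} (hf : Function.Injective f) (h : EP f g) (D : Finset V)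
    (c : Finset Edge) : (compat (D.image f) (c.image g)).card = (compat D c).card := by
  have h1 : compat (D.image f) (c.image g) = (compat D c).image (fun M => M.image f) := by
    ext N
    rw [mem_compat, mem_image]
    have key : ∀ (M : Finset V) (e : Edge),
        (((g e).1 ∈ M.image f ↔ tip (g e) ∈ M.image f) ↔ (e.1 ∈ M ↔ tip e ∈ M)) := by
      intro M e
      rcases h e with ⟨h2, h3⟩ | ⟨h2, h3⟩
      · rw [← h2, ← h3, hf.mem_finset_image, hf.mem_finset_image]
      · rw [← h2, ← h3, hf.mem_finset_image, hf.mem_finset_image]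
        exact ⟨fun h => h.symm, fun h => h.symm⟩
    constructor
    · rintro ⟨h2, h3⟩
      obtain ⟨M, hM, rfl⟩ := subset_image_iff.1 h2
      exact ⟨M, mem_compat.2 ⟨hM, fun e he => (key M e).1 (h3 _ (mem_image_of_mem g he))⟩, rfl⟩
    · rintro ⟨M, hM, rfl⟩
      obtain ⟨h2, h3⟩ := mem_compat.1 hM
      refine ⟨image_subset_image h2, fun e' he' => ?_⟩
      obtain ⟨e, he, rfl⟩ := mem_image.1 he'
      exact (key M e).2 (h3 e he)
  rw [h1, card_image_of_injective]
  exact Finset.image_injective hf

theorem fw_tr {β : ℝ} {f : V → V} {g : Edge → Edge} (hf : Function.Injective f) (hg : Function.Injective g)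
    (h : EP f g) (D : Finset V) (c : Finset Edge) : fw β (D.image f) (c.image g) = fw β D c := by
  unfold fw
  have h1 : (2 : ℝ) ^ (fclusters (D.image f) (c.image g)).card = 2 ^ (fclusters D c).card := by
    have h2 := compat_card hf h D c
    rw [card_compat, card_compat] at h2
    exact_mod_cast h2
  rw [h1, card_image_of_injective _ hg]

theorem inn_tr {f : V → V} {g : Edge → Edge} (hf : Function.Injective f) (hg : Function.Injective g) (h : EP f g)
    (hs : ∀ e : Edge, ∃ e', g e' = e) (D : Finset V) : inn (D.image f) = (inn D).image g := by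
  ext e
  obtain ⟨e', rfl⟩ := hs e
  rw [mem_inn, hg.mem_finset_image, mem_inn]
  rcases h e' with ⟨h2, h3⟩ | ⟨h2, h3⟩
  · rw [← h2, ← h3, hf.mem_finset_image, hf.mem_finset_image]
  · rw [← h2, ← h3, hf.mem_finset_image, hf.mem_finset_image, and_comm]

theorem half (D : Finset V) (c : Finset Edge) (e : Edge) :
    (compat D c).card ≤ 2 * (compat D (insert e c)).card := by
  have h1 := card_filter_add_card_filter_not (s := compat D c) (fun M => (e.1 ∈ M ↔ tip e ∈ M))
  have h2 : ((compat D c).filter (fun M => (e.1 ∈ M ↔ tip e ∈ M))).card ≤ (compat D (insert e c)).card := by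
    apply card_le_card
    intro M hM
    obtain ⟨h3, h4⟩ := mem_filter.1 hM
    obtain ⟨h5, h6⟩ := mem_compat.1 h3
    refine mem_compat.2 ⟨h5, fun f hf => ?_⟩
    rcases mem_insert.1 hf with rfl | hf
    · exact h4
    · exact h6 f hf
  have h3 : ((compat D c).filter (fun M => ¬ (e.1 ∈ M ↔ tip e ∈ M))).card ≤ (compat D (insert e c)).card := by
    rcases ((compat D c).filter (fun M => ¬ (e.1 ∈ M ↔ tip e ∈ M))).eq_empty_or_nonempty with h4 | ⟨M0, hM0⟩
    · rw [h4, card_empty]
      exact Nat.zero_le _
    · obtain ⟨h5, h6⟩ := mem_filter.1 hM0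
      obtain ⟨h7, h8⟩ := mem_compat.1 h5
      apply card_le_card_of_injOn (fun M => symmDiff M M0)
      · intro M hM
        obtain ⟨h9, h10⟩ := mem_filter.1 (mem_coe.1 hM)
        obtain ⟨h11, h12⟩ := mem_compat.1 h9
        rw [mem_coe, mem_compat]
        constructor
        · intro v hv
          rw [mem_symmDiff] at hv
          rcases hv with hv | hv
          · exact h11 hv.1
          · exact h7 hv.1
        · intro f hf
          rw [mem_symmDiff, mem_symmDiff]
          rcases mem_insert.1 hf with rfl | hf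
          · clear h12 h8 h11 h7 h9 h5 hM0 hM h1 h2
            tauto
          · have h13 := h12 f hf
            have h14 := h8 f hf
            rw [h13, h14]
      · intro M _ M' _ h
        exact symmDiff_left_injective M0 h
  omega

theorem halfS (D : Finset V) (c S : Finset Edge) :
    (compat D c).card ≤ 2 ^ S.card * (compat D (c ∪ S)).card := by
  induction S using Finset.induction_on with
  | empty => rw [card_empty, pow_zero, one_mul, union_empty]
  | insert e S he ih =>
    rw [card_insert_of_notMem he, union_insert, pow_succ]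
    calc _ ≤ _ := ih
      _ ≤ 2 ^ S.card * (2 * (compat D (insert e (c ∪ S))).card) := Nat.mul_le_mul_left _ (half _ _ _)
      _ = _ := by ring

theorem fe (β : ℝ) (hβ : 0 < β) (S : Finset Edge) :
    ∃ δ : ℝ, 0 < δ ∧ ∀ D c, δ * fw β D c ≤ fw β D (c ∪ S) := by
  have hp : 0 < Real.exp (2 * β) - 1 := by
    have := Real.add_one_lt_exp (x := 2 * β) (by positivity)
    linarith
  set p := Real.exp (2 * β) - 1 with hpdef
  have hm : 0 < min 1 p := lt_min one_pos hp
  refine ⟨(min 1 p) ^ S.card / 2 ^ S.card, by positivity, fun D c => ?_⟩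
  unfold fw
  rw [← hpdef]
  have h1 : (2 : ℝ) ^ (fclusters D c).card ≤ 2 ^ S.card * 2 ^ (fclusters D (c ∪ S)).card := by
    have h2 := halfS D c S
    rw [card_compat, card_compat] at h2
    exact_mod_cast h2
  have h2 : (min 1 p) ^ S.card ≤ p ^ (S \ c).card :=
    (pow_le_pow_of_le_one hm.le (min_le_left _ _) (card_le_card sdiff_subset)).trans
      (pow_le_pow_left₀ hm.le (min_le_right _ _) _)
  have h3 : (c ∪ S).card = (S \ c).card + c.card := by
    rw [union_comm]
    exact (card_sdiff_add_card S c).symm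
  rw [h3, pow_add]
  calc (min 1 p) ^ S.card / 2 ^ S.card * (p ^ c.card * 2 ^ (fclusters D c).card)
      ≤ p ^ (S \ c).card / 2 ^ S.card * (p ^ c.card * (2 ^ S.card * 2 ^ (fclusters D (c ∪ S)).card)) := by
        gcongr
    _ = _ := by
        field_simp

theorem ep_tr (x : V) : EP (fun v => v + x) (trE x) := by
  intro e
  refine Or.inl ⟨rfl, ?_⟩
  show e.1 + dir e.2 + x = e.1 + x + dir e.2
  exact add_right_comm _ _ _

theorem trE_inj (x : V) : Function.Injective (trE x) := by
  intro a b h
  unfold trE at h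
  rw [Prod.mk.injEq] at h
  exact Prod.ext (add_right_cancel h.1) h.2

theorem trE_surj (x : V) (e : Edge) : ∃ e', trE x e' = e :=
  ⟨(e.1 - x, e.2), Prod.ext (sub_add_cancel _ _) rfl⟩

theorem exh (F : Finset Edge) : ∃ M, F ⊆ inn (Hx (0, 0) M) := by
  refine ⟨F.sup (fun e => e.1.1.natAbs + e.1.2.natAbs + (tip e).1.natAbs + (tip e).2.natAbs), fun e he => ?_⟩
  have h1 := Finset.le_sup (f := fun e : Edge => e.1.1.natAbs + e.1.2.natAbs + (tip e).1.natAbs + (tip e).2.natAbs) he
  rw [mem_inn, mem_Hx, mem_Hx]
  simp only at h1 ⊢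
  omega

end DVOLF

theorem p_VOLF (hLATF : S_LATF) (hDOMF : S_DOMF) (hLIMB : S_LIMB) (hROS : S_ROS) : S_VOLF := by
  intro β hβ
  have hp : 0 < Real.exp (2 * β) - 1 := by
    have := Real.add_one_lt_exp (x := 2 * β) (by positivity)
    linarith
  have hpos : ∀ (D : Finset V) (c : Finset Edge), 0 < fw β D c := by
    intro D c
    unfold fw
    positivity
  have hmono : ∀ D D' : Finset V, D ⊆ D' → inn D ⊆ inn D' := by
    intro D D' h e he
    rw [mem_inn] at he ⊢
    exact ⟨h he.1, h he.2⟩
  obtain ⟨-, -, hr, hrE, -, -, -, -, -, hEP, hsur⟩ := hROS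
  have hprod : ∀ (S : Finset Edge) (c : Finset Edge),
      (∏ e ∈ S, if e ∈ c then (1 : ℝ) else 0) = if (S : Set Edge) ⊆ (c : Set Edge) then 1 else 0 := by
    intro S c
    by_cases h : (S : Set Edge) ⊆ (c : Set Edge)
    · rw [if_pos h]
      exact prod_eq_one (fun e he => if_pos (by exact_mod_cast h he))
    · rw [if_neg h]
      obtain ⟨e, he, he'⟩ := Set.not_subset.1 h
      exact prod_eq_zero (i := e) (by exact_mod_cast he) (if_neg (by exact_mod_cast he'))
  have hTW : ∀ D : Finset V, 0 < TW inn (fw β) D := by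
    intro D
    unfold TW
    exact sum_pos (fun c _ => hpos D c) ⟨∅, empty_mem_powerset _⟩
  refine ⟨DVOLF.trE_inj, hrE, fun D c _ => hpos D c, fun D c d => hLATF β D c d hβ.le, ?_, ?_, ?_, ?_, ?_, hmono,
    DVOLF.exh, ?_⟩
  · intro x D
    exact DVOLF.inn_tr (add_left_injective x) (DVOLF.trE_inj x) (DVOLF.ep_tr x) (DVOLF.trE_surj x) D
  · intro x D c _
    exact DVOLF.fw_tr (add_left_injective x) (DVOLF.trE_inj x) (DVOLF.ep_tr x) D c
  · intro D
    exact DVOLF.inn_tr hr hrE hEP hsur D
  · intro D c _
    exact DVOLF.fw_tr hr hrE hEP D c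
  · intro S
    obtain ⟨δ, h1, h2⟩ := DVOLF.fe β hβ S
    exact ⟨δ, h1, fun D _ c _ => h2 D c⟩
  · refine hLIMB Edge inn (fw β) 1 0 one_ne_zero (fun D c _ => hpos D c) hmono DVOLF.exh ?_
    intro S D D' hD hS
    have h1 := hDOMF β D D' (fun b => (S : Set Edge) ⊆ b) (fun _ => True) hβ hD (fun c c' h h' => h'.trans h) ?_
      (fun _ => Iff.rfl)
    · have h2 : PV inn (fw β) D' (fun _ => True) = 1 := by
        unfold PV EV
        simp only [if_true, mul_one]
        exact div_self (hTW D').ne'
      rw [h2, mul_one] at h1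
      have h3 : ∀ D'' : Finset V, EV inn (fw β) D'' (fun c => ∏ e ∈ S, if e ∈ c then (1 : ℝ) else 0) =
          PV inn (fw β) D'' (fun b => (S : Set Edge) ⊆ b) := by
        intro D''
        unfold PV
        congr 1
        funext c
        rw [hprod]
      rw [h3, h3]
      refine h1.trans (le_of_eq ?_)
      congr 1
      funext b
      rw [and_true]
    · intro c
      constructor
      · intro h e he
        exact ⟨h he, by exact_mod_cast hS (by exact_mod_cast he)⟩
      · intro h e he
        exact (h he).1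

end

end CNL
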