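import Pool.Agent.Work.MP_bda6fa_cnl.IC2
set_option autoImplicit false

/-! Block D_VOLP: a finite volume model gives an abstract probability. -/

namespace CNL
open XorIsing
open scoped Classical
open Finset Relation Filter Topology

theorem p_VOLP (hV1 : S_V1) (hV2 : S_V2) (hV3 : S_V3) (hV4 : S_V4) : S_VOLP := by
  intro κ _ tr ro E w h
  obtain ⟨h1, h2, h3, h4⟩ := hV1 κ tr ro E w h
  exact ⟨h1, h2, h3, h4, hV2 κ tr ro E w h, hV3 κ tr ro E w h, hV4 κ tr ro E w h⟩

end CNL
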