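import Pool.Agent.Work.MP_bda6fa_cnl.IC2
set_option autoImplicit false

/-! Block VOLS: the free Ising model is a Vol. -/

namespace CNL
open XorIsing
open scoped Classical
open Finset Relation Filter Topology

namespace DVOLS

theorem rot_inj : Function.Injective rot := by
  intro a b h
  simp only [rot, Prod.mk.injEq] at h
  obtain ⟨h1, h2⟩ := h
  apply Prod.ext <;> omega

theorem spin_image {T : V → V} (hT : Function.Injective T) (c : Finset V) (v : V) :
    spin (c.image T) (T v) = spin c v := by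
  unfold spin
  simp only [hT.mem_finset_image]

theorem inn_image {T : V → V} {TE : Edge → Edge} (hT : Function.Injective T)
    (hend : ∀ e : Edge, (T e.1 = (TE e).1 ∧ T (tip e) = tip (TE e)) ∨ (T e.1 = tip (TE e) ∧ T (tip e) = (TE e).1))
    (hs : ∀ e : Edge, ∃ f, TE f = e) (D : Finset V) : inn (D.image T) = (inn D).image TE := by
  have key : ∀ f : Edge, TE f ∈ inn (D.image T) ↔ f ∈ inn D := by
    intro f
    rw [mem_inn, mem_inn]
    rcases hend f with ⟨h1, h2⟩ | ⟨h1, h2⟩
    · rw [← h1, ← h2, hT.mem_finset_image, hT.mem_finset_image]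
    · rw [← h1, ← h2, hT.mem_finset_image, hT.mem_finset_image, and_comm]
  ext e
  obtain ⟨f, rfl⟩ := hs e
  rw [key, Finset.mem_image]
  constructor
  · intro hf
    exact ⟨f, hf, rfl⟩
  · rintro ⟨f', hf', he⟩
    rw [← key, ← he, key]
    exact hf'

theorem sw_image (β : ℝ) {T : V → V} {TE : Edge → Edge} (hT : Function.Injective T) (hTE : Function.Injective TE)
    (hend : ∀ e : Edge, (T e.1 = (TE e).1 ∧ T (tip e) = tip (TE e)) ∨ (T e.1 = tip (TE e) ∧ T (tip e) = (TE e).1))
    (hs : ∀ e : Edge, ∃ f, TE f = e) (D c : Finset V) : sw β (D.image T) (c.image T) = sw β D c := by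
  unfold sw
  rw [inn_image hT hend hs, Finset.sum_image (fun a _ b _ h => hTE h)]
  congr 2
  refine Finset.sum_congr rfl fun e _ => ?_
  rcases hend e with ⟨h1, h2⟩ | ⟨h1, h2⟩
  · rw [← h1, ← h2, spin_image hT, spin_image hT]
  · rw [← h1, ← h2, spin_image hT, spin_image hT, mul_comm]

theorem trE_inj (x : V) : Function.Injective (trE x) := by
  intro a b h
  simp only [trE, Prod.mk.injEq] at h
  exact Prod.ext (add_right_cancel h.1) h.2

theorem trE_end (x : V) (e : Edge) : (e.1 + x = (trE x e).1 ∧ tip e + x = tip (trE x e)) ∨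
    (e.1 + x = tip (trE x e) ∧ tip e + x = (trE x e).1) := by
  left
  refine ⟨rfl, ?_⟩
  unfold tip trE
  simp only
  abel

theorem trE_surj (x : V) (e : Edge) : ∃ f, trE x f = e := by
  refine ⟨(e.1 - x, e.2), ?_⟩
  unfold trE
  simp

theorem rotE_inj : Function.Injective rotE := by
  rintro ⟨⟨a, b⟩, k⟩ ⟨⟨a', b'⟩, k'⟩ h
  fin_cases k <;> fin_cases k' <;> simp [rotE, rot] at h ⊢ <;> omega

theorem rotE_end (e : Edge) : (rot e.1 = (rotE e).1 ∧ rot (tip e) = tip (rotE e)) ∨
    (rot e.1 = tip (rotE e) ∧ rot (tip e) = (rotE e).1) := by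
  obtain ⟨⟨a, b⟩, k⟩ := e
  fin_cases k <;> simp [rotE, rot, tip, dir] <;> omega

theorem rotE_surj (e : Edge) : ∃ f, rotE f = e := by
  obtain ⟨⟨a, b⟩, k⟩ := e
  fin_cases k
  · refine ⟨((a + b, -a), 2), ?_⟩
    simp [rotE, rot]
  · refine ⟨((a + b, -a), 0), ?_⟩
    simp [rotE, rot]
  · refine ⟨((a + b, -a - 1), 1), ?_⟩
    simp [rotE, rot]

theorem fe (β : ℝ) (hβ : 0 ≤ β) (S D c : Finset V) :
    Real.exp (-(β * (2 * ((near S).card : ℝ)))) * sw β D c ≤ sw β D (c ∪ S) := by
  unfold sw
  rw [← Real.exp_add]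
  apply Real.exp_le_exp.2
  have key : ∑ e ∈ inn D, (spin c e.1 * spin c (tip e) - spin (c ∪ S) e.1 * spin (c ∪ S) (tip e)) ≤
      2 * ((near S).card : ℝ) := by
    calc ∑ e ∈ inn D, (spin c e.1 * spin c (tip e) - spin (c ∪ S) e.1 * spin (c ∪ S) (tip e))
        ≤ ∑ e ∈ inn D, (if e ∈ near S then (2 : ℝ) else 0) := by
          refine Finset.sum_le_sum fun e _ => ?_
          by_cases he : e ∈ near S
          · rw [if_pos he]
            unfold spin
            split_ifs <;> norm_num
          · rw [if_neg he]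
            rw [mem_near, not_or] at he
            have h1 : spin (c ∪ S) e.1 = spin c e.1 := by
              unfold spin
              simp only [Finset.mem_union, he.1, or_false]
            have h2 : spin (c ∪ S) (tip e) = spin c (tip e) := by
              unfold spin
              simp only [Finset.mem_union, he.2, or_false]
            rw [h1, h2, sub_self]
      _ = ∑ e ∈ (inn D).filter (fun e => e ∈ near S), (2 : ℝ) := by
          rw [Finset.sum_filter]
      _ = 2 * (((inn D).filter (fun e => e ∈ near S)).card : ℝ) := by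
          rw [Finset.sum_const, nsmul_eq_mul, mul_comm]
      _ ≤ 2 * ((near S).card : ℝ) := by
          have : ((inn D).filter (fun e => e ∈ near S)).card ≤ (near S).card :=
            Finset.card_le_card (fun e he => (Finset.mem_filter.1 he).2)
          have h' : (((inn D).filter (fun e => e ∈ near S)).card : ℝ) ≤ ((near S).card : ℝ) := by exact_mod_cast this
          linarith
  rw [Finset.sum_sub_distrib] at key
  have := mul_le_mul_of_nonneg_left key hβ
  rw [mul_sub] at this
  linarith

theorem exh (F : Finset V) : ∃ M, F ⊆ Hx (0, 0) M := by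
  refine ⟨F.sup (fun v => v.1.natAbs + v.2.natAbs), fun v hv => ?_⟩
  have h := Finset.le_sup (f := fun v : V => v.1.natAbs + v.2.natAbs) hv
  rw [mem_Hx]
  simp only at h ⊢
  omega

end DVOLS

theorem p_VOLS (hLATS : S_LATS) (hFMON : S_FMON) (hLIMB : S_LIMB) : S_VOLS := by
  intro β hβ
  refine ⟨?_, ?_, ?_, ?_, ?_, ?_, ?_, ?_, ?_, ?_, ?_, ?_⟩
  · intro x a b h
    exact add_right_cancel h
  · exact DVOLS.rot_inj
  · intro D c _
    exact Real.exp_pos _
  · intro D c d hc hd
    exact hLATS β D c d hβ hc hd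
  · intro x D
    rfl
  · intro x D c _
    exact DVOLS.sw_image β (fun a b h => add_right_cancel h) (DVOLS.trE_inj x) (DVOLS.trE_end x) (DVOLS.trE_surj x) D c
  · intro D
    rfl
  · intro D c _
    exact DVOLS.sw_image β DVOLS.rot_inj DVOLS.rotE_inj DVOLS.rotE_end DVOLS.rotE_surj D c
  · intro S
    exact ⟨_, Real.exp_pos _, fun D _ c _ => DVOLS.fe β hβ S D c⟩
  · intro D D' h
    exact h
  · exact DVOLS.exh
  · exact hLIMB V (fun D => D) (sw β) (-1) 1 (by norm_num) (fun D c _ => Real.exp_pos _) (fun D D' h => h) DVOLS.exh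
      (fun S D D' h hS => hFMON β D D' S hβ h hS)

end CNL
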