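import Pool.Agent.Work.MP_bda6fa_cnl.IC3
import Pool.Agent.Work.MP_bda6fa_nest.TRC
set_option autoImplicit false

/-! The probability of a translated event in the XOR-Ising model. -/

namespace XorIsing
open scoped Classical
open Finset

theorem XPSa.symm_shift (y : V) (M N : Finset V) :
    symmDiff (shift y M) (shift y N) = shift y (symmDiff M N) := by
  ext u
  simp only [mem_symmDiff, TRC.mem_shift']

theorem XPSa.ZZ_shift (β : ℝ) (D : Finset V) (y : V) : ZZ β (shift y D) = ZZ β D := by
  unfold ZZ
  rw [TRC.sum_powerset]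
  exact sum_congr rfl (fun M _ => TRC.wt_shift β y D M)

theorem p_XPS : S_XPS := by
  intro β D y ev
  unfold xorP
  rw [XPSa.ZZ_shift, TRC.sum_powerset]
  congr 1
  apply sum_congr rfl
  intro M _
  rw [TRC.sum_powerset]
  apply sum_congr rfl
  intro M' _
  rw [TRC.wt_shift, TRC.wt_shift, XPSa.symm_shift]

end XorIsing
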