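import Pool.Agent.Work.MP_bda6fa_nest.Interface
set_option autoImplicit false

/-! Critical XOR-Ising: hexagons, arms, abstract probability on local events. -/

namespace CNL
open XorIsing
open scoped Classical
open Finset Relation

noncomputable section

/-! ### hexagons -/

/-- the hexagon with centre x and radius n -/
def Hx (x : V) (n : ℕ) : Finset V :=
  (Finset.Icc (x.1 - n) (x.1 + n) ×ˢ Finset.Icc (x.2 - n) (x.2 + n)).filter
    (fun v => x.1 + x.2 - n ≤ v.1 + v.2 ∧ v.1 + v.2 ≤ x.1 + x.2 + n)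

theorem mem_Hx {x v : V} {n : ℕ} : v ∈ Hx x n ↔
    (x.1 - n ≤ v.1 ∧ v.1 ≤ x.1 + n) ∧ (x.2 - n ≤ v.2 ∧ v.2 ≤ x.2 + n) ∧
      x.1 + x.2 - n ≤ v.1 + v.2 ∧ v.1 + v.2 ≤ x.1 + x.2 + n := by
  rw [Hx, mem_filter, mem_product, Finset.mem_Icc, Finset.mem_Icc]
  tauto

/-- rotation by 60 degrees on vertices, edges, triangles -/
def rot (v : V) : V := (-v.2, v.1 + v.2)
def rotE (e : Edge) : Edge :=
  if e.2 = 0 then (rot e.1, 1) else if e.2 = 1 then (rot (e.1 + (0, 1)), 2) else (rot e.1, 0)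
def rotT (t : V × Bool) : V × Bool := if t.2 then (rot t.1 - (1, 0), false) else (rot t.1 + (-1, 1), true)

/-- translation -/
def trE (x : V) (e : Edge) : Edge := (e.1 + x, e.2)

/-- the half-open side k of the boundary of the hexagon with centre 0 and radius n -/
def Sd (n k : ℕ) (v : V) : Prop := ∃ i : ℕ, i < n ∧ v = rot^[k] ((n : ℤ) - i, (i : ℤ))

/-! ### arms; b is the set of open edges -/

/-- adjacent by an open edge -/
def BE (b : Set Edge) (u v : V) : Prop := ∃ e ∈ b, (e.1 = u ∧ tip e = v) ∨ (e.1 = v ∧ tip e = u)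

/-- path of open edges, all vertices after the first outside K -/
def PCon (b : Set Edge) (K : Finset V) (u v : V) : Prop := ReflTransGen (fun a c => c ∉ K ∧ BE b a c) u v

/-- open arm from side k of Hx x n to the outside of Hx x R -/
def PArm (b : Set Edge) (k : ℕ) (x : V) (n R : ℕ) : Prop :=
  ∃ v w, Sd n k (v - x) ∧ w ∉ Hx x R ∧ PCon b (Hx x n) v w

/-- two triangles t ≠ t' share an edge with property P -/
def TStep (P : Edge → Prop) (t t' : V × Bool) : Prop := t ≠ t' ∧ ∃ e, P e ∧ e ∈ tri t ∧ e ∈ tri t'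

/-- v is a vertex of the triangle t -/
def VT (v : V) (t : V × Bool) : Prop :=
  if t.2 then v = t.1 ∨ v = t.1 + (1, 0) ∨ v = t.1 + (0, 1) else v = t.1 + (1, 0) ∨ v = t.1 + (0, 1) ∨ v = t.1 + (1, 1)

/-- the edges which a dual arm of side k may cross -/
def DOK (b : Set Edge) (k : ℕ) (x : V) (n : ℕ) (e : Edge) : Prop :=
  e ∉ inn (Hx x n) ∧ (e ∉ b ∨ ((e.1 ∈ Hx x n → Sd n k (e.1 - x)) ∧ (tip e ∈ Hx x n → Sd n k (tip e - x)) ∧
    (e.1 ∈ Hx x n ∨ tip e ∈ Hx x n)))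

/-- the outer triangle of the boundary edge at the vertex number i of side k -/
def outT (n k i : ℕ) : V × Bool := rotT^[k] ((((n : ℤ) - i - 1, (i : ℤ)) : V), false)

/-- translate of a triangle -/
def trT (x : V) (t : V × Bool) : V × Bool := (t.1 + x, t.2)

/-- dual arm from side k of Hx x n to the outside of Hx x R -/
def DArm (b : Set Edge) (k : ℕ) (x : V) (n R : ℕ) : Prop :=
  ∃ i < n, ∃ t w, w ∉ Hx x R ∧ VT w t ∧ ReflTransGen (TStep (DOK b k x n)) (trT x (outT n k i)) t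

/-! ### probability on local events -/

section prob
variable {κ : Type}

/-- the event A depends on finitely many coordinates -/
def Loc (A : Set κ → Prop) : Prop := ∃ F : Finset κ, ∀ c c' : Set κ, (∀ e ∈ F, (e ∈ c ↔ e ∈ c')) → (A c ↔ A c')
def Inc (A : Set κ → Prop) : Prop := ∀ c c' : Set κ, c ⊆ c' → A c → A c'
def Dec (A : Set κ → Prop) : Prop := ∀ c c' : Set κ, c ⊆ c' → A c' → A c

/-- a translation and rotation invariant positively associated probability on local events; tr x and ro act on the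
coordinates -/
structure Prb (κ : Type) (tr : V → κ → κ) (ro : κ → κ) (LP : (Set κ → Prop) → ℝ) : Prop where
  nonneg : ∀ A, Loc A → 0 ≤ LP A
  one : LP (fun _ => True) = 1
  add : ∀ A B, Loc A → Loc B → (∀ c, ¬ (A c ∧ B c)) → LP (fun c => A c ∨ B c) = LP A + LP B
  fkg : ∀ A B, Loc A → Loc B → Inc A → Inc B → LP A * LP B ≤ LP (fun c => A c ∧ B c)
  tran : ∀ (A : Set κ → Prop) (x : V), Loc A → LP (fun c => A {e | tr x e ∈ c}) = LP A
  rota : ∀ A : Set κ → Prop, Loc A → LP (fun c => A {e | ro e ∈ c}) = LP A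
  fe : ∀ S : Finset κ, ∃ δ : ℝ, 0 < δ ∧ ∀ A B : Set κ → Prop, Loc A → Loc B → (∀ c, A c → B (c ∪ S)) → δ * LP A ≤ LP B

/-- mixing along a sequence of translations -/
def Mix (tr : V → κ → κ) (LP : (Set κ → Prop) → ℝ) : Prop := ∀ A : Set κ → Prop, Loc A → Inc A → ∀ (L : ℕ) (ε : ℝ),
  0 < ε → ∃ x : V, x ∉ Hx (0, 0) L ∧ LP (fun c => A c ∧ A {e | tr x e ∈ c}) ≤ LP A ^ 2 + ε

/-- a family of arm events: P k x n R, k < 6 -/
structure ArmsI (tr : V → κ → κ) (ro : κ → κ) (P : ℕ → V → ℕ → ℕ → Set κ → Prop) : Prop where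
  loc : ∀ k x n R, Loc (P k x n R)
  tran : ∀ k x n R c, P k x n R c ↔ P k (0, 0) n R {e | tr x e ∈ c}
  rota : ∀ k n R c, P (k + 1) (0, 0) n R c ↔ P k (0, 0) n R {e | ro e ∈ c}
  mono : ∀ x n R m R' c, 1 ≤ n → n ≤ m → Hx x n ⊆ Hx (0, 0) m → m < R' → Hx (0, 0) R' ⊆ Hx x R →
    (∃ k < 6, P k x n R c) → ∃ k < 6, P k (0, 0) m R' c

/-- the link between coordinates and open edges: Sf x n are the coordinates of Hx x n -/
structure Link (P D : ℕ → V → ℕ → ℕ → Set κ → Prop) (Sf : V → ℕ → Finset κ) (tr : V → κ → κ) (bb : Set κ → Set Edge) :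
    Prop where
  inj : ∀ x, Function.Injective (tr x)
  inc : ∀ k x n R, Inc (P k x n R)
  dec : ∀ k x n R, Dec (D k x n R)
  trS : ∀ x n, (Sf x n : Set κ) = {e | ∃ f ∈ Sf (0, 0) n, e = tr x f}
  fill : ∀ x n c, (inn (Hx x n) : Set Edge) ⊆ bb (c ∪ Sf x n)
  prim : ∀ k x n R c, 1 ≤ n → n < R → P k x n R c → PArm (bb (c ∪ Sf x n)) k x n R
  dual : ∀ k x n R c, 1 ≤ n → n < R → D k x n R c → DArm (bb (c ∪ Sf x n)) k x n R

end prob

/-- six arms and a filled hexagon -/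
def Tri (b : Set Edge) (x : V) (n R : ℕ) : Prop :=
  (inn (Hx x n) : Set Edge) ⊆ b ∧ (PArm b 0 x n R ∧ PArm b 2 x n R ∧ PArm b 4 x n R) ∧
    DArm b 1 x n R ∧ DArm b 3 x n R ∧ DArm b 5 x n R

/-! ### statements of part A -/

/-- SEP6, base case -/
def S_SEPB : Prop := ∀ (b : Set Edge) (n R : ℕ), 1 ≤ n → n < R → DArm b 1 (0, 0) n R → DArm b 3 (0, 0) n R →
  ∀ u v w k, (k = 0 ∨ k = 4) → Sd n k u → Sd n 2 v → w ∉ Hx (0, 0) n →
    ReflTransGen (fun a c => c ∈ Hx (0, 0) R ∧ c ∉ Hx (0, 0) n ∧ BE b a c) u w →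
    ¬ ReflTransGen (fun a c => c ∈ Hx (0, 0) R ∧ c ∉ Hx (0, 0) n ∧ BE b a c) v w

/-- CNT2: disjoint hexagons with six arms -/
def S_CNT2 : Prop := ∀ (b : Set Edge) (n N R : ℕ) (X : Finset V), 1 ≤ n →
  (∀ x ∈ X, Hx x n ⊆ Hx (0, 0) N ∧ Hx (0, 0) (N + 1) ⊆ Hx x R ∧ Tri b x n R) →
  (∀ x ∈ X, ∀ y ∈ X, x ≠ y → Disjoint (Hx x n) (Hx y n)) → X.card ≤ 6 * (N + 1)

/-- AZ: no coexistence -/
def S_AZ : Prop := ∀ (κ : Type) (tr : V → κ → κ) (ro : κ → κ) (LP : (Set κ → Prop) → ℝ)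
  (P D : ℕ → V → ℕ → ℕ → Set κ → Prop) (Sf : V → ℕ → Finset κ) (bb : Set κ → Set Edge),
  Prb κ tr ro LP → Mix tr LP → ArmsI tr ro P → ArmsI tr ro D → Link P D Sf tr bb →
  ∀ (n₀ : ℕ) (p : ℝ), 1 ≤ n₀ → 0 < p → (∀ R, n₀ < R → p ≤ LP (fun c => ∃ k < 6, P k (0, 0) n₀ R c)) →
    (∀ R, n₀ < R → p ≤ LP (fun c => ∃ k < 6, D k (0, 0) n₀ R c)) → False

end

end CNL
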