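import Pool.Agent.Work.MP_bda6fa_cnl.IBC
set_option autoImplicit false

/-! Block GEN (second copy, helper61): general local functions. -/

namespace CNB
open XorIsing
open scoped Classical
open Finset

namespace GENx

/-- Moebius inversion with bounds -/
theorem coef (A : Finset V) : ∀ g : Finset V → ℝ, (∀ M, |g M| ≤ 1) →
    ∃ c : Finset V → ℝ, (∀ t, |c t| ≤ 2 ^ A.card) ∧
      ∀ M : Finset V, g (M ∩ A) = ∑ t ∈ A.powerset, c t * (if t ⊆ M then 1 else 0) := by
  induction A using Finset.induction_on with
  | empty =>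
    intro g hg
    refine ⟨fun _ => g ∅, fun _ => by simpa using hg ∅, fun M => ?_⟩
    simp
  | insert a A ha ih =>
    intro g hg
    obtain ⟨c0, hc0, h0⟩ := ih g hg
    obtain ⟨c1, hc1, h1⟩ := ih (fun U => g (insert a U)) (fun U => hg _)
    refine ⟨fun t => if a ∈ t then c1 (t.erase a) - c0 (t.erase a) else c0 t, fun t => ?_, fun M => ?_⟩
    · show |if a ∈ t then c1 (t.erase a) - c0 (t.erase a) else c0 t| ≤ 2 ^ (insert a A).card
      rw [card_insert_of_notMem ha, pow_succ]
      have hp : (0 : ℝ) ≤ 2 ^ A.card := by positivity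
      split_ifs
      · refine (abs_sub _ _).trans ?_
        have e1 := hc1 (t.erase a)
        have e2 := hc0 (t.erase a)
        linarith
      · have e2 := hc0 t
        linarith
    · rw [sum_powerset_insert ha]
      have e1 : ∑ t ∈ A.powerset, (if a ∈ t then c1 (t.erase a) - c0 (t.erase a) else c0 t) *
          (if t ⊆ M then (1 : ℝ) else 0) = ∑ t ∈ A.powerset, c0 t * (if t ⊆ M then 1 else 0) := by
        refine sum_congr rfl fun t ht => ?_
        rw [if_neg (fun h => ha (mem_powerset.1 ht h))]
      have e2 : ∑ t ∈ A.powerset, (if a ∈ insert a t then c1 ((insert a t).erase a) -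
          c0 ((insert a t).erase a) else c0 (insert a t)) * (if insert a t ⊆ M then (1 : ℝ) else 0) =
          (if a ∈ M then (1 : ℝ) else 0) * (∑ t ∈ A.powerset, c1 t * (if t ⊆ M then 1 else 0) -
            ∑ t ∈ A.powerset, c0 t * (if t ⊆ M then 1 else 0)) := by
        rw [← sum_sub_distrib, mul_sum]
        refine sum_congr rfl fun t ht => ?_
        rw [if_pos (mem_insert_self a t), erase_insert (fun h => ha (mem_powerset.1 ht h))]
        by_cases haM : a ∈ M
        · by_cases htM : t ⊆ M
          · rw [if_pos (insert_subset haM htM), if_pos haM, if_pos htM]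
            ring
          · rw [if_neg (fun h => htM ((subset_insert a t).trans h)), if_pos haM, if_neg htM]
            ring
        · rw [if_neg (fun h => haM (h (mem_insert_self a t))), if_neg haM]
          ring
      rw [e1, e2, ← h0 M, ← h1 M]
      by_cases haM : a ∈ M
      · rw [if_pos haM, inter_insert_of_mem haM]
        ring
      · rw [if_neg haM, inter_insert_of_notMem haM]
        ring

theorem bE_sum {ι : Type} (s : Finset ι) (β : ℝ) (D : Finset V) (F : Finset Edge) (ξ : Finset V)
    (c : ι → ℝ) (f : ι → Finset V → ℝ) :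
    bE β D F ξ (fun M => ∑ t ∈ s, c t * f t M) = ∑ t ∈ s, c t * bE β D F ξ (f t) := by
  unfold bE
  have h : ∑ M ∈ D.powerset, bw β F ξ M * ∑ t ∈ s, c t * f t M =
      ∑ t ∈ s, c t * ∑ M ∈ D.powerset, bw β F ξ M * f t M := by
    simp only [mul_sum]
    rw [sum_comm]
    refine sum_congr rfl fun t _ => sum_congr rfl fun M _ => ?_
    ring
  rw [h, sum_div]
  refine sum_congr rfl fun t _ => ?_
  rw [mul_div_assoc]

end GENx

theorem p_GENx (hKAP : S_KAP) : S_GEN := by
  intro β D A ξ g hβ hA hξ hloc hg
  obtain ⟨c, hc, hgc⟩ := GENx.coef A g (fun M => by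
    rw [abs_le]
    constructor <;> linarith [(hg M).1, (hg M).2])
  set S : ℝ := ∑ v ∈ A, corr β D {v} with hS
  have hf : ∀ t ∈ A.powerset, |bE β D (near D) ξ (fun M => if t ⊆ M then (1 : ℝ) else 0) -
      bE β D (near D) ∅ (fun M => if t ⊆ M then (1 : ℝ) else 0)| ≤ S := by
    intro t ht
    have htA := mem_powerset.1 ht
    have h := hKAP β D A ξ (fun M => if t ⊆ M then (1 : ℝ) else 0) hβ hA hξ ?_ ?_
    · rw [abs_le]
      constructor <;> linarith [h.1, h.2]
    · intro M M' hM _
      show (if t ⊆ M then (1 : ℝ) else 0) ≤ if t ⊆ M' then (1 : ℝ) else 0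
      by_cases h1 : t ⊆ M
      · rw [if_pos h1, if_pos (h1.trans hM)]
      · rw [if_neg h1]
        split_ifs <;> norm_num
    · intro M M' hM _
      show ((M ∩ A).card : ℝ) - (if t ⊆ M then (1 : ℝ) else 0) ≤
        ((M' ∩ A).card : ℝ) - (if t ⊆ M' then (1 : ℝ) else 0)
      have hsub : M ∩ A ⊆ M' ∩ A := inter_subset_inter_right hM
      have hcard : ((M ∩ A).card : ℝ) ≤ ((M' ∩ A).card : ℝ) := by
        exact_mod_cast card_le_card hsub
      by_cases h1 : t ⊆ M
      · rw [if_pos h1, if_pos (h1.trans hM)]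
        linarith
      · rw [if_neg h1]
        by_cases h2 : t ⊆ M'
        · rw [if_pos h2]
          have hss : M ∩ A ⊂ M' ∩ A := by
            rw [ssubset_iff_subset_ne]
            refine ⟨hsub, fun h3 => h1 ?_⟩
            have h4 : t ⊆ M' ∩ A := subset_inter h2 htA
            rw [← h3] at h4
            exact h4.trans inter_subset_left
          have h5 : ((M ∩ A).card : ℝ) + 1 ≤ ((M' ∩ A).card : ℝ) := by
            exact_mod_cast card_lt_card hss
          linarith
        · rw [if_neg h2]
          linarith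
  have hgf : g = fun M => ∑ t ∈ A.powerset, c t * (fun (t : Finset V) (M : Finset V) =>
      (if t ⊆ M then (1 : ℝ) else 0)) t M := by
    funext M
    rw [hloc M]
    exact hgc M
  have h1 : ∀ η : Finset V, bE β D (near D) η g = ∑ t ∈ A.powerset, c t *
      bE β D (near D) η (fun M => if t ⊆ M then (1 : ℝ) else 0) := by
    intro η
    rw [hgf]
    exact GENx.bE_sum A.powerset β D (near D) η c (fun t M => if t ⊆ M then (1 : ℝ) else 0)
  rw [h1, h1, ← sum_sub_distrib]
  refine (abs_sum_le_sum_abs _ _).trans ?_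
  have hS0 : 0 ≤ S := (abs_nonneg _).trans (hf ∅ (empty_mem_powerset A))
  have h2 : ∀ t ∈ A.powerset, |c t * bE β D (near D) ξ (fun M => if t ⊆ M then (1 : ℝ) else 0) -
      c t * bE β D (near D) ∅ (fun M => if t ⊆ M then (1 : ℝ) else 0)| ≤ 2 ^ A.card * S := by
    intro t ht
    rw [← mul_sub, abs_mul]
    exact mul_le_mul (hc t) (hf t ht) (abs_nonneg _) (by positivity)
  refine (sum_le_card_nsmul _ _ _ h2).trans ?_
  rw [card_powerset, nsmul_eq_mul]
  have h3 : (4 : ℝ) ^ A.card = 2 ^ A.card * 2 ^ A.card := by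
    rw [← mul_pow]
    norm_num
  rw [h3]
  push_cast
  linarith

end CNB
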