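import Pool.Agent.Work.MP_bda6fa_cnl.IBC
set_option autoImplicit false

/-! LCN (second copy): loops surrounding only faces of B are local. -/

namespace CNB
open XorIsing
open scoped Classical
open Finset

namespace ELCNx

/-- two vertices of a triangle are equal or adjacent -/
theorem tri_adj {t : V × Bool} {e f : Edge} (he : e ∈ tri t) (hf : f ∈ tri t) :
    (e.1 = f.1 ∨ Adj e.1 f.1) ∧ (e.1 = tip f ∨ Adj e.1 (tip f)) ∧ (tip e = f.1 ∨ Adj (tip e) f.1) ∧
      (tip e = tip f ∨ Adj (tip e) (tip f)) := by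
  have key : ∀ u v : V, (u = v ∨ (v = u + (1, 0) ∨ u = v + (1, 0)) ∨ (v = u + (0, 1) ∨ u = v + (0, 1)) ∨
      (v = u + (1, -1) ∨ u = v + (1, -1))) → (u = v ∨ Adj u v) := by
    rintro u v (h | h | h | h)
    · exact .inl h
    · exact .inr ⟨0, h⟩
    · exact .inr ⟨1, h⟩
    · exact .inr ⟨2, h⟩
  obtain ⟨v, b⟩ := t
  cases b
  · rw [mem_tri_down] at he hf
    rcases he with rfl | rfl | rfl <;> rcases hf with rfl | rfl | rfl <;>
      refine ⟨key _ _ ?_, key _ _ ?_, key _ _ ?_, key _ _ ?_⟩ <;>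
      simp [tip, dir, Prod.ext_iff]
  · rw [mem_tri_up] at he hf
    rcases he with rfl | rfl | rfl <;> rcases hf with rfl | rfl | rfl <;>
      refine ⟨key _ _ ?_, key _ _ ?_, key _ _ ?_, key _ _ ?_⟩ <;>
      simp [tip, dir, Prod.ext_iff]

theorem touch_self (e : Edge) : Touch e e := by
  obtain ⟨v, k⟩ := e
  fin_cases k
  · exact ⟨(v, true), by rw [mem_tri_up]; simp, by rw [mem_tri_up]; simp⟩
  · exact ⟨(v, true), by rw [mem_tri_up]; simp, by rw [mem_tri_up]; simp⟩
  · refine ⟨(v - (0, 1), true), ?_, ?_⟩ <;> rw [mem_tri_up] <;> simp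

theorem one_side {X X' B C : Finset V} (hBC : B ⊆ C) (hadj : ∀ v ∈ B, ∀ w, Adj v w → w ∈ C)
    (hX : X ∩ C = X' ∩ C) {L : Finset Edge} (hL : L ∈ loops X) (hB : ∀ y, Surrounds L y → y ∈ B) : L ∈ loops X' := by
  have hcon : ∀ v ∈ C, (v ∈ X ↔ v ∈ X') := by
    intro v hv
    have h := Finset.ext_iff.1 hX v
    simp only [mem_inter, hv, and_true] at h
    exact h
  -- an edge touching an edge of L has both endpoints in C
  have hC : ∀ e ∈ L, ∀ f, Touch e f → f.1 ∈ C ∧ tip f ∈ C := by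
    intro e he f ⟨t, het, hft⟩
    have h1 : ¬ (Surrounds L e.1 ↔ Surrounds L (tip e)) := fun h => (loop_step hL e).1 h he
    have h2 : e.1 ∈ B ∨ tip e ∈ B := by
      by_contra hc
      rw [not_or] at hc
      exact h1 ⟨fun h => absurd (hB _ h) hc.1, fun h => absurd (hB _ h) hc.2⟩
    obtain ⟨a1, a2, a3, a4⟩ := tri_adj het hft
    have hgo : ∀ u v : V, u ∈ B → (u = v ∨ Adj u v) → v ∈ C := by
      rintro u v hu (rfl | h)
      · exact hBC hu
      · exact hadj u hu v h
    rcases h2 with h2 | h2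
    · exact ⟨hgo _ _ h2 a1, hgo _ _ h2 a2⟩
    · exact ⟨hgo _ _ h2 a3, hgo _ _ h2 a4⟩
  have hcont : ∀ f : Edge, f.1 ∈ C → tip f ∈ C → (f ∈ contour X ↔ f ∈ contour X') := by
    intro f h1 h2
    rw [mem_contour, mem_contour, hcon _ h1, hcon _ h2]
  have hLX' : ∀ e ∈ L, e ∈ contour X' := by
    intro e he
    obtain ⟨h1, h2⟩ := hC e he e (touch_self e)
    exact (hcont e h1 h2).1 (loop_sub hL he)
  -- a base edge
  obtain ⟨e0, he0, hL0⟩ := mem_image.1 hL
  have he0L : e0 ∈ L := by rw [← hL0]; exact (loop_self he0).2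
  have hstep : ∀ e ∈ L, ∀ f ∈ contour X', Touch e f → f ∈ L := by
    intro e he f hf ht
    obtain ⟨h1, h2⟩ := hC e he f ht
    exact loop_closed hL he ((hcont f h1 h2).2 hf) ht
  have heq : loopOf X' e0 = L := by
    ext f
    rw [mem_loopOf]
    constructor
    · rintro ⟨-, hp⟩
      induction hp with
      | refl => exact he0L
      | tail _ hbc ih => exact hstep _ ih _ hbc.1 hbc.2
    · intro hf
      have hfL := hf
      rw [← hL0, mem_loopOf] at hf
      refine ⟨hLX' f hfL, ?_⟩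
      obtain ⟨-, hp⟩ := hf
      have key : ∀ g, Relation.ReflTransGen (fun a b => b ∈ contour X ∧ Touch a b) e0 g →
          g ∈ L ∧ Relation.ReflTransGen (fun a b => b ∈ contour X' ∧ Touch a b) e0 g := by
        intro g hg
        induction hg with
        | refl => exact ⟨he0L, .refl⟩
        | tail _ hbc ih =>
          have h1 := loop_closed hL ih.1 hbc.1 hbc.2
          exact ⟨h1, ih.2.tail ⟨hLX' _ h1, hbc.2⟩⟩
      exact (key f hp).2
  rw [← heq]
  exact (loop_self (hLX' e0 he0L)).1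

end ELCNx

theorem p_LCNx : S_LCN := by
  intro X X' A B C hBC hadj hX
  unfold nloopsIn
  congr 1
  ext L
  rw [mem_filter, mem_filter]
  constructor
  · rintro ⟨h1, h2, h3⟩
    exact ⟨ELCNx.one_side hBC hadj hX h1 h3, h2, h3⟩
  · rintro ⟨h1, h2, h3⟩
    exact ⟨ELCNx.one_side hBC hadj hX.symm h1 h3, h2, h3⟩

end CNB
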