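import Pool.Agent.Work.MP_bda6fa_cnl.IB
import Pool.Agent.Work.MP_bda6fa_nest.FIN3
import Pool.Agent.Work.MP_bda6fa_nest.CLH
import Pool.Agent.Work.MP_bda6fa_nest.CLUS
import Pool.Agent.Work.MP_bda6fa_nest.CONN
import Pool.Agent.Work.MP_bda6fa_nest.CORR2
import Pool.Agent.Work.MP_bda6fa_nest.DISF
import Pool.Agent.Work.MP_bda6fa_nest.DISM
import Pool.Agent.Work.MP_bda6fa_nest.ESTEP
import Pool.Agent.Work.MP_bda6fa_nest.ETA
import Pool.Agent.Work.MP_bda6fa_nest.ETAB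
import Pool.Agent.Work.MP_bda6fa_nest.ETAC
import Pool.Agent.Work.MP_bda6fa_nest.FACT
import Pool.Agent.Work.MP_bda6fa_nest.G1
import Pool.Agent.Work.MP_bda6fa_nest.G1s
import Pool.Agent.Work.MP_bda6fa_nest.GKM
import Pool.Agent.Work.MP_bda6fa_nest.HOF
import Pool.Agent.Work.MP_bda6fa_nest.HT
import Pool.Agent.Work.MP_bda6fa_nest.MARK
import Pool.Agent.Work.MP_bda6fa_nest.MONO
import Pool.Agent.Work.MP_bda6fa_nest.PETA
import Pool.Agent.Work.MP_bda6fa_nest.PLUS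
import Pool.Agent.Work.MP_bda6fa_nest.RAT
import Pool.Agent.Work.MP_bda6fa_nest.SIGN
import Pool.Agent.Work.MP_bda6fa_nest.SPLIT
import Pool.Agent.Work.MP_bda6fa_nest.SQ
import Pool.Agent.Work.MP_bda6fa_nest.TRC
import Pool.Agent.Work.MP_bda6fa_nest.TRD
import Pool.Agent.Work.MP_bda6fa_nest.XDC
import Pool.Agent.Work.MP_bda6fa_nest.XP
set_option autoImplicit false

/-! The nesting theorem at the critical point, from the vanishing of the magnetisation there. -/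

namespace XorIsing
open scoped Classical
open Finset Filter Topology

theorem nested_all {β : ℝ} (hβ : 0 ≤ β) (hc : Tendsto (fun n => corr β (box n) {((0, 0) : V)}) atTop (𝓝 0))
    (hd : ∀ b : Bool, Tendsto (fun n => dis β (box n) ((0, 0), b)) atTop (𝓝 0)) (m j : ℕ) {ε : ℝ} (hε : 0 < ε) :
    ∃ N : ℕ, ∀ D : Finset V, CoConn D → box N ⊆ D →
      1 - ε ≤ xorP β D (fun X => j ≤ nloopsIn X (box m) (box N)) := by
  have hXDC := p_XDC p_HT
  have hSQ := p_SQ hXDC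
  have hDISF := p_DISF p_HT hSQ
  have hDISM := p_DISM p_G1s
  have hSPLIT := p_SPLIT p_FACT
  have hCONN := p_CONN (p_CLUS hSPLIT hSQ) (p_RAT (p_PLUS (p_GKM p_G1))) (p_CORR2 hXDC hSQ)
  have hMARK := p_MARK hSPLIT p_HOF
  have hSEP := p_SEP (p_ETA p_ESTEP p_PETA) p_ETAC (p_ETAB p_PETA)
  exact fin_nested hDISF hDISM hCONN hMARK p_CLH hSEP p_TRC p_TRD (p_XP hXDC hSQ) p_MONO (p_BL p_MONO) p_SIGN hβ hc hd m j hε

theorem bc_nonneg : 0 ≤ bc := by
  unfold bc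
  have : 0 ≤ Real.log 3 := Real.log_nonneg (by norm_num)
  positivity

/-- the critical point of the problem: exp (-2 bc) = 1/√3 -/
theorem bc_crit : Real.exp (-2 * bc) = 1 / Real.sqrt 3 := by
  unfold bc
  have h1 : -2 * (Real.log 3 / 4) = -(Real.log 3 / 2) := by ring
  rw [h1, Real.exp_neg, one_div]
  congr 1
  rw [← Real.log_sqrt (by norm_num : (0 : ℝ) ≤ 3), Real.exp_log (Real.sqrt_pos.2 (by norm_num))]

theorem crit_nested (hBT : S_BT) (hc : Tendsto (fun n => corr bc (box n) {((0, 0) : V)}) atTop (𝓝 0)) (m j : ℕ)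
    {ε : ℝ} (hε : 0 < ε) : ∃ N : ℕ, ∀ D : Finset V, CoConn D → box N ⊆ D →
      1 - ε ≤ xorP bc D (fun X => j ≤ nloopsIn X (box m) (box N)) :=
  nested_all bc_nonneg hc (hBT hc) m j hε

end XorIsing
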