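import Pool.Agent.Work.MP_bda6fa_cnl.Defs
set_option autoImplicit false

/-! Critical XOR-Ising, part A, deterministic half: statements of the blocks (helper74, proof by helper36).
Block X: file A_X.lean, theorem p_X : S_X.

PLAN OF SEP. An open path from side k to side k' outside K = Hx x n and a path inside K close up to an even set of
edges eta (CYC). f t := parity of the number of edges of eta crossed by the ray from the triangle t (Par, nest/PETA.lean):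
f changes exactly across the edges of eta. So f is constant along a dual arm, and f = 0 at a triangle with a vertex
outside Hx x R (FAR), so f = 0 at the first triangles of the arms of sides k+1 and k+5. But on the ring of outer
triangles f changes exactly once between side k+5 and side k+1, namely across the first edge of the open path (RING). -/

namespace CNL
open XorIsing
open scoped Classical
open Finset Relation

noncomputable section

/-- the function f on triangles jumps by c e across the edge e -/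
def Jmp (f : V × Bool → ZMod 2) (c : Edge → ZMod 2) : Prop :=
  ∀ e t t', t ≠ t' → e ∈ tri t → e ∈ tri t' → f t + f t' = c e

/-- e joins a vertex of side k of Hx x n to a vertex outside Hx x n -/
def Spk (n k : ℕ) (x : V) (e : Edge) : Prop :=
  (Sd n k (e.1 - x) ∧ tip e ∉ Hx x n) ∨ (Sd n k (tip e - x) ∧ e.1 ∉ Hx x n)

/-- JRT: rotations and translations of jump functions. -/
def S_JRT : Prop := ∀ (f : V × Bool → ZMod 2) (c : Edge → ZMod 2), Jmp f c →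
  (∀ k : ℕ, Jmp (fun t => f (rotT^[k] t)) (fun e => c (rotE^[k] e))) ∧
  (∀ x : V, Jmp (fun t => f (trT x t)) (fun e => c (trE x e)))

/-- ROT6: elementary facts on the rotation. -/
def S_ROT6 : Prop := (∀ v : V, rot^[6] v = v) ∧ (∀ t : V × Bool, rotT^[6] t = t) ∧ (∀ e : Edge, rotE^[6] e = e) ∧
  (∀ n k v, Sd n (k + 6) v ↔ Sd n k v) ∧ (∀ n k i, outT n (k + 6) i = outT n k i) ∧
  (∀ n k v, Sd n (k + 1) (rot v) ↔ Sd n k v) ∧ (∀ (n : ℕ) (v : V), rot v ∈ Hx (0, 0) n ↔ v ∈ Hx (0, 0) n) ∧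
  (∀ e : Edge, ((rotE e).1 = rot e.1 ∧ tip (rotE e) = rot (tip e)) ∨ ((rotE e).1 = rot (tip e) ∧ tip (rotE e) = rot e.1)) ∧
  (∀ e t, e ∈ tri t ↔ rotE e ∈ tri (rotT t)) ∧ (∀ v t, VT v t ↔ VT (rot v) (rotT t))

/-- SDF: the six half-open sides are a partition of the boundary of the hexagon. -/
def S_SDF : Prop := ∀ (n : ℕ) (x : V), 1 ≤ n →
  (∀ k v, Sd n k (v - x) → v ∈ Hx x n) ∧
  (∀ v w, v ∈ Hx x n → w ∉ Hx x n → Adj v w → ∃ k < 6, Sd n k (v - x)) ∧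
  (∀ k k' v, k < 6 → k' < 6 → Sd n k v → Sd n k' v → k = k')

/-- CST0: without jumps at side 0, f is constant on the outer triangles of side 0 and at the last one of side 5. -/
def S_CST0 : Prop := ∀ (n : ℕ) (f : V × Bool → ZMod 2) (c : Edge → ZMod 2), 1 ≤ n → Jmp f c →
  (∀ e, Spk n 0 (0, 0) e → c e = 0) →
  (∀ i < n, f (outT n 0 i) = f (outT n 0 0)) ∧ f (outT n 5 (n - 1)) = f (outT n 0 0)

/-- FLP0: with exactly one jump at side 0. -/
def S_FLP0 : Prop := ∀ (n : ℕ) (f : V × Bool → ZMod 2) (c : Edge → ZMod 2) (e₀ : Edge), 1 ≤ n → Jmp f c →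
  Spk n 0 (0, 0) e₀ → c e₀ = 1 → (∀ e, Spk n 0 (0, 0) e → e ≠ e₀ → c e = 0) →
  f (outT n 5 (n - 1)) + f (outT n 0 (n - 1)) = 1

/-- RING (uses JRT ROT6 CST0 FLP0). -/
def S_RING : Prop := ∀ (n k : ℕ) (x : V) (f : V × Bool → ZMod 2) (c : Edge → ZMod 2) (e₀ : Edge), 1 ≤ n → Jmp f c →
  (∀ e, Spk n (k + 1) x e → c e = 0) → (∀ e, Spk n (k + 5) x e → c e = 0) →
  Spk n k x e₀ → c e₀ = 1 → (∀ e, Spk n k x e → e ≠ e₀ → c e = 0) →
  ∀ i < n, ∀ j < n, f (trT x (outT n (k + 5) i)) + f (trT x (outT n (k + 1) j)) = 1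

/-- PW: the edge set modulo 2 of a walk. -/
def S_PW : Prop := ∀ (Q : Edge → Prop) (u v : V),
  ReflTransGen (fun a a' => ∃ e, Q e ∧ ((e.1 = a ∧ tip e = a') ∨ (e.1 = a' ∧ tip e = a))) u v →
  ∃ η : Finset Edge, (∀ e ∈ η, Q e) ∧ ∀ w : V, (((η.filter (fun e => e.1 = w ∨ tip e = w)).card : ℕ) : ZMod 2) =
    (if w = u then 1 else 0) + (if w = v then 1 else 0)

/-- HXC: the hexagon is connected. -/
def S_HXC : Prop := ∀ (x : V) (n : ℕ) (v w : V), v ∈ Hx x n → w ∈ Hx x n →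
  ReflTransGen (fun a a' => ∃ e, e ∈ inn (Hx x n) ∧ ((e.1 = a ∧ tip e = a') ∨ (e.1 = a' ∧ tip e = a))) v w

/-- CYC (uses PW HXC): an open path outside K between two different vertices v, v' of K closes up. -/
def S_CYC : Prop := ∀ (b : Set Edge) (x : V) (n R : ℕ) (v v' u u' : V) (e₀ e₁ : Edge), v ∈ Hx x n → v' ∈ Hx x n → v ≠ v' →
  u ∈ Hx x R → u' ∈ Hx x R → u ∉ Hx x n → u' ∉ Hx x n → n ≤ R →
  e₀ ∈ b → ((e₀.1 = v ∧ tip e₀ = u) ∨ (e₀.1 = u ∧ tip e₀ = v)) →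
  e₁ ∈ b → ((e₁.1 = v' ∧ tip e₁ = u') ∨ (e₁.1 = u' ∧ tip e₁ = v')) →
  ReflTransGen (fun a c => c ∈ Hx x R ∧ c ∉ Hx x n ∧ BE b a c) u u' →
  ∃ η : Finset Edge, EvenAll η ∧ e₀ ∈ η ∧ e₁ ∈ η ∧ (∀ e ∈ η, e.1 ∈ Hx x R ∧ tip e ∈ Hx x R) ∧
    ∀ e ∈ η, e = e₀ ∨ e = e₁ ∨ e ∈ inn (Hx x n) ∨ (e ∈ b ∧ e.1 ∉ Hx x n ∧ tip e ∉ Hx x n)

/-- FAR (uses S_PETA): no edges are crossed by the ray from a triangle outside. -/
def S_FAR : Prop := ∀ (η : Finset Edge) (x : V) (R : ℕ), EvenAll η → (∀ e ∈ η, e.1 ∈ Hx x R ∧ tip e ∈ Hx x R) →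
  ∀ t w, w ∉ Hx x R → VT w t → ¬ Par η t

/-- SEP (uses ROT6 SDF RING CYC FAR and S_PETA). -/
def S_SEP6 : Prop := ∀ (b : Set Edge) (x : V) (n R k k' : ℕ), 1 ≤ n → n < R → k < 6 → k' < 6 → k ≠ k' →
  k % 2 = 0 → k' % 2 = 0 → DArm b 1 x n R → DArm b 3 x n R → DArm b 5 x n R →
  ∀ v v' u u', Sd n k (v - x) → Sd n k' (v' - x) → u ∈ Hx x R → u' ∈ Hx x R → u ∉ Hx x n → u' ∉ Hx x n →
    BE b v u → BE b v' u' → ¬ ReflTransGen (fun a c => c ∈ Hx x R ∧ c ∉ Hx x n ∧ BE b a c) u u'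

/-- FEX (uses SDF): first exit of an open arm from Hx 0 (N+1). -/
def S_FEX : Prop := ∀ (b : Set Edge) (x : V) (n N R k : ℕ), 1 ≤ n → Hx x n ⊆ Hx (0, 0) N →
  Hx (0, 0) (N + 1) ⊆ Hx x R → PArm b k x n R → ∃ v u s, Sd n k (v - x) ∧ v ∈ Hx x n ∧ BE b v u ∧ u ∉ Hx x n ∧
    u ∈ Hx (0, 0) (N + 1) ∧ s ∉ Hx x n ∧ (∃ j < 6, Sd (N + 1) j s) ∧
    ReflTransGen (fun a c => c ∈ Hx (0, 0) (N + 1) ∧ c ∉ Hx x n ∧ BE b a c) u s

/-- COUNT (helper86). -/
def S_COUNT : Prop := ∀ (r : V → V → Prop) (S : Finset V) (X : Finset V) (K : V → Set V), (∀ u v, r u v → r v u) →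
  (∀ i ∈ X, (K i).Nonempty) →
  (∀ i ∈ X, ∀ u ∈ K i, ∀ v ∈ K i, ReflTransGen (fun u v => r u v ∧ u ∈ K i ∧ v ∈ K i) u v) →
  (∀ i ∈ X, ∀ j ∈ X, i ≠ j → Disjoint (K i) (K j)) →
  (∀ i ∈ X, ∃ s : Fin 3 → V, (∀ a, s a ∈ S) ∧
    (∀ a, ∃ k ∈ K i, ∃ c, c ∉ K i ∧ r k c ∧ ReflTransGen (fun u v => r u v ∧ u ∉ K i ∧ v ∉ K i) c (s a)) ∧
    ∀ a a', a ≠ a' → ¬ ReflTransGen (fun u v => r u v ∧ u ∉ K i ∧ v ∉ K i) (s a) (s a')) → X.card ≤ S.card

/-! ### covariance, locality, monotonicity of the arms (structure ArmsI) -/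

/-- PCV (uses ROT6): covariance of open arms. -/
def S_PCV : Prop := ∀ (b : Set Edge) (k n R : ℕ) (x : V), (PArm b k x n R ↔ PArm {e | trE x e ∈ b} k (0, 0) n R) ∧
  (PArm b (k + 1) (0, 0) n R ↔ PArm {e | rotE e ∈ b} k (0, 0) n R)

/-- DCV (uses ROT6): covariance of dual arms. -/
def S_DCV : Prop := ∀ (b : Set Edge) (k n R : ℕ) (x : V), (DArm b k x n R ↔ DArm {e | trE x e ∈ b} k (0, 0) n R) ∧
  (DArm b (k + 1) (0, 0) n R ↔ DArm {e | rotE e ∈ b} k (0, 0) n R)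

/-- PLC: open arms are local, increasing events. -/
def S_PLC : Prop := ∀ (k n R : ℕ) (x : V), Loc (fun b => PArm b k x n R) ∧ Inc (fun b => PArm b k x n R)

/-- DLC: dual arms are local, decreasing events. -/
def S_DLC : Prop := ∀ (k n R : ℕ) (x : V), Loc (fun b => DArm b k x n R) ∧ Dec (fun b => DArm b k x n R)

/-- PMN (uses SDF): last exit from the larger hexagon, first exit from the smaller outer one. -/
def S_PMN : Prop := ∀ (b : Set Edge) (x : V) (n R m R' : ℕ), 1 ≤ n → n ≤ m → Hx x n ⊆ Hx (0, 0) m → m < R' →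
  Hx (0, 0) R' ⊆ Hx x R → (∃ k < 6, PArm b k x n R) → ∃ k < 6, PArm b k (0, 0) m R'

/-- FAN (uses ROT6): a triangle with exactly one vertex v in the hexagon, v in side k, is joined to the outer triangle
of v by crossing edges at v. -/
def S_FAN : Prop := ∀ (n k : ℕ) (v : V) (t : V × Bool), 1 ≤ n → Sd n k v → VT v t →
  (∀ w, VT w t → w ∈ Hx (0, 0) n → w = v) →
  ∃ i < n, v = rot^[k] ((n : ℤ) - i, (i : ℤ)) ∧ ReflTransGen (TStep (fun e => (e.1 = v ∧ tip e ∉ Hx (0, 0) n) ∨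
    (tip e = v ∧ e.1 ∉ Hx (0, 0) n))) (outT n k i) t

/-- DMN (uses SDF FAN): the same for dual arms. -/
def S_DMN : Prop := ∀ (b : Set Edge) (x : V) (n R m R' : ℕ), 1 ≤ n → n ≤ m → Hx x n ⊆ Hx (0, 0) m → m < R' →
  Hx (0, 0) R' ⊆ Hx x R → (∃ k < 6, DArm b k x n R) → ∃ k < 6, DArm b k (0, 0) m R'

end

end CNL
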