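import Mathlib

set_option autoImplicit false

/-!
MP_bda6fa_pr, critical nested loops, part A, probabilistic half: finitely additive probabilities on
local events, statements of the blocks (helper18, after helper36). No geometry in this file.
-/

namespace Pool.CNL

open Finset

/-- A depends only on the coordinates in S. -/
def LocOn {κ : Type} (S : Finset κ) (A : Set κ → Prop) : Prop :=
  ∀ c c' : Set κ, (∀ e ∈ S, (e ∈ c ↔ e ∈ c')) → (A c ↔ A c')

/-- Local event. -/
def Loc {κ : Type} (A : Set κ → Prop) : Prop := ∃ S : Finset κ, LocOn S A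

/-- Increasing event. -/
def Inc {κ : Type} (A : Set κ → Prop) : Prop := ∀ c c' : Set κ, c ⊆ c' → A c → A c'

/-- Decreasing event. -/
def Dcr {κ : Type} (A : Set κ → Prop) : Prop := ∀ c c' : Set κ, c ⊆ c' → A c' → A c

theorem LocOn.mono {κ : Type} {S S' : Finset κ} {A : Set κ → Prop} (h : LocOn S A) (hs : S ⊆ S') :
    LocOn S' A := fun c c' hc => h c c' fun e he => hc e (hs he)

theorem Loc.and {κ : Type} {A B : Set κ → Prop} (hA : Loc A) (hB : Loc B) :
    Loc (fun c => A c ∧ B c) := by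
  classical
  obtain ⟨S, hS⟩ := hA
  obtain ⟨S', hS'⟩ := hB
  exact ⟨S ∪ S', fun c c' hc => and_congr ((hS.mono subset_union_left) c c' hc)
    ((hS'.mono subset_union_right) c c' hc)⟩

theorem Loc.or {κ : Type} {A B : Set κ → Prop} (hA : Loc A) (hB : Loc B) :
    Loc (fun c => A c ∨ B c) := by
  classical
  obtain ⟨S, hS⟩ := hA
  obtain ⟨S', hS'⟩ := hB
  exact ⟨S ∪ S', fun c c' hc => or_congr ((hS.mono subset_union_left) c c' hc)
    ((hS'.mono subset_union_right) c c' hc)⟩

theorem Loc.not {κ : Type} {A : Set κ → Prop} (hA : Loc A) : Loc (fun c => ¬ A c) := by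
  obtain ⟨S, hS⟩ := hA
  exact ⟨S, fun c c' hc => not_congr (hS c c' hc)⟩

theorem Loc.true {κ : Type} : Loc (fun _ : Set κ => True) := ⟨∅, fun _ _ _ => Iff.rfl⟩

theorem Loc.false {κ : Type} : Loc (fun _ : Set κ => False) := ⟨∅, fun _ _ _ => Iff.rfl⟩

theorem Loc.exists_fin {κ ι : Type} [Fintype ι] {A : ι → Set κ → Prop} (h : ∀ k, Loc (A k)) :
    Loc (fun c => ∃ k, A k c) := by
  classical
  choose S hS using h
  refine ⟨univ.biUnion S, fun c c' hc => ?_⟩
  have : ∀ k, (A k c ↔ A k c') := fun k =>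
    (hS k) c c' fun e he => hc e (mem_biUnion.mpr ⟨k, mem_univ k, he⟩)
  exact exists_congr this

theorem Loc.forall_fin {κ ι : Type} [Fintype ι] {A : ι → Set κ → Prop} (h : ∀ k, Loc (A k)) :
    Loc (fun c => ∀ k, A k c) := by
  classical
  choose S hS using h
  refine ⟨univ.biUnion S, fun c c' hc => ?_⟩
  have : ∀ k, (A k c ↔ A k c') := fun k =>
    (hS k) c c' fun e he => hc e (mem_biUnion.mpr ⟨k, mem_univ k, he⟩)
  exact forall_congr' this

theorem Inc.not {κ : Type} {A : Set κ → Prop} (h : Inc A) : Dcr (fun c => ¬ A c) :=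
  fun c c' hc hn ha => hn (h c c' hc ha)

theorem Dcr.not {κ : Type} {A : Set κ → Prop} (h : Dcr A) : Inc (fun c => ¬ A c) :=
  fun c c' hc hn ha => hn (h c c' hc ha)

/-- A finitely additive probability on local events, with the FKG inequality. -/
structure LP (κ : Type) where
  P : (Set κ → Prop) → ℝ
  nonneg : ∀ A, Loc A → 0 ≤ P A
  top : P (fun _ => True) = 1
  bot : P (fun _ => False) = 0
  mono : ∀ A B, Loc A → Loc B → (∀ c, A c → B c) → P A ≤ P B
  add : ∀ A B, Loc A → Loc B → P (fun c => A c ∨ B c) + P (fun c => A c ∧ B c) = P A + P B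
  fkg : ∀ A B, Loc A → Loc B → Inc A → Inc B → P A * P B ≤ P (fun c => A c ∧ B c)

theorem LP.compl {κ : Type} (P : LP κ) {A : Set κ → Prop} (hA : Loc A) :
    P.P (fun c => ¬ A c) = 1 - P.P A := by
  have h := P.add A (fun c => ¬ A c) hA hA.not
  have e1 : (fun c => A c ∨ ¬ A c) = fun _ => True := by
    funext c; exact propext ⟨fun _ => trivial, fun _ => em _⟩
  have e2 : (fun c => A c ∧ ¬ A c) = fun _ => False := by
    funext c; exact propext ⟨fun h => h.2 h.1, fun h => h.elim⟩
  rw [e1, e2, P.top, P.bot] at h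
  linarith

theorem LP.le_one {κ : Type} (P : LP κ) {A : Set κ → Prop} (hA : Loc A) : P.P A ≤ 1 := by
  have := P.mono A (fun _ => True) hA Loc.true (fun _ _ => trivial)
  rw [P.top] at this
  exact this

/-- DFK: FKG for decreasing events. Proof: complements; P(not A and not B) = 1 - P A - P B +
P (A and B) >= (1 - P A)(1 - P B) for increasing A, B (LP.compl, add, fkg). Apply to the
complements of A, B. -/
def S_DFK : Prop := ∀ {κ : Type} (P : LP κ) (A B : Set κ → Prop), Loc A → Loc B → Dcr A → Dcr B →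
  P.P A * P.P B ≤ P.P (fun c => A c ∧ B c)

/-- PRD (uses DFK): FKG for m events. Proof: induction on m (Fin.prod_univ_succ, Fin.forall_fin_succ),
increasing or decreasing is preserved by finite intersections. -/
def S_PRD : Prop := ∀ {κ : Type} (P : LP κ) (m : ℕ) (A : Fin m → Set κ → Prop),
  (∀ k, Loc (A k)) → ((∀ k, Inc (A k)) ∨ ∀ k, Dcr (A k)) →
  ∏ k, P.P (A k) ≤ P.P (fun c => ∀ k, A k c)

/-- SRT (uses PRD): square root trick. Proof: PRD for the six complements (the other monotonicity),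
product = (1 - a)^6, and U -> exists k, A k gives P U <= P (exists k, A k) = 1 - P (forall k, not A k). -/
def S_SRT : Prop := ∀ {κ : Type} (P : LP κ) (A : Fin 6 → Set κ → Prop) (U : Set κ → Prop) (a : ℝ),
  (∀ k, Loc (A k)) → Loc U → ((∀ k, Inc (A k)) ∨ ∀ k, Dcr (A k)) → (∀ k, P.P (A k) = a) →
  (∀ c, U c → ∃ k, A k c) → P.P U ≤ 1 - (1 - a) ^ 6

/-- SIX (uses SRT): six arms. Proof: SRT for A and for B: (1 - a)^6 <= (1/12)^6, so 1 - a <= 1/12
(0 <= 1 - a; pow_le_pow_left), same for b; union bound for the six complements: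
P (not all) <= 6/12 (add and nonneg, five times; or EXP-like). -/
def S_SIX : Prop := ∀ {κ : Type} (P : LP κ) (A B : Fin 6 → Set κ → Prop) (U Us : Set κ → Prop)
  (a b : ℝ), (∀ k, Loc (A k)) → (∀ k, Loc (B k)) → Loc U → Loc Us → (∀ k, Inc (A k)) →
  (∀ k, Dcr (B k)) → (∀ k, P.P (A k) = a) → (∀ k, P.P (B k) = b) → (∀ c, U c → ∃ k, A k c) →
  (∀ c, Us c → ∃ k, B k c) → 1 - (1 / 12) ^ 6 ≤ P.P U → 1 - (1 / 12) ^ 6 ≤ P.P Us →
  1 / 2 ≤ P.P (fun c => A 0 c ∧ A 2 c ∧ A 4 c ∧ B 1 c ∧ B 3 c ∧ B 5 c)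

/-- ZO: zero-one law from mixing. U x n R is decreasing in R; for every x, n the set at x with
radius n is inside the set at 0 with radius k' for all large k'. Proof: q n := inf over R of
P (U 0 n R) (bounded below by 0), p := sup over n of q n, 0 < delta <= p <= 1. For eps > 0 take n with
q n > p - eps, R with P (U 0 n R) < q n + eps <= p + eps, x from the mixing hypothesis for (n, R, eps), and
k large for (0, n) and for (x, n). For every R'' there is R' >= R such that U 0 n R' or U x n R'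
implies U 0 k R'' (take the maximum of the two R' and of R, U decreasing in R), so
P (U 0 k R'') >= P (U 0 n R' or U x n R') = 2 P (U 0 n R') - P (both at R') >= 2 q n - P (both at R) >=
2 (p - eps) - (p + eps)^2 - eps. So p >= q k >= 2 (p - eps) - (p + eps)^2 - eps for all eps > 0, so p^2 >= p,
p = 1 (le_of_forall_pos_le_add or continuity). Then q n >= 1 - eta for some n, and for n' >= k(0, n):
P (U 0 n' R) >= P (U 0 n R') >= 1 - eta. -/
def S_ZO : Prop := ∀ {κ : Type} (P : LP κ) (U : ℤ × ℤ → ℕ → ℕ → Set κ → Prop),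
  (∀ x n R, Loc (U x n R)) → (∀ x n R R', R ≤ R' → ∀ c, U x n R' c → U x n R c) →
  (∀ x n, ∃ k, ∀ k', k ≤ k' → ∀ R, ∃ R', ∀ c, U x n R' c → U (0, 0) k' R c) →
  (∀ x n R, P.P (U x n R) = P.P (U (0, 0) n R)) →
  (∀ n R (ε : ℝ), 0 < ε → ∃ x, P.P (fun c => U (0, 0) n R c ∧ U x n R c) ≤
    P.P (U (0, 0) n R) ^ 2 + ε) →
  ∀ (n₀ : ℕ) (δ : ℝ), 0 < δ → (∀ R, δ ≤ P.P (U (0, 0) n₀ R)) →
  ∀ η : ℝ, 0 < η → ∃ n, ∀ n', n ≤ n' → ∀ R, 1 - η ≤ P.P (U (0, 0) n' R)

open Classical in
/-- EXP: expected number. Proof: all A x (x in X) are LocOn S for one finite S. For t inside S let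
C t be the event that c meets S exactly in t. Induction (add, bot): for every finite family F of
subsets t of S, P (exists t in F, C t) = sum over F of P (C t); so sum over all t inside S of
P (C t) = P True = 1 and P (A x) = sum of P (C t) over the t with A x t. Exchange the sums:
sum over x of P (A x) = sum over t of P (C t) * #(x : A x t) <= m. -/
def S_EXP : Prop := ∀ {κ ι : Type} (P : LP κ) (X : Finset ι) (A : ι → Set κ → Prop) (m : ℕ),
  (∀ x ∈ X, Loc (A x)) → (∀ c, (X.filter fun x => A x c).card ≤ m) → ∑ x ∈ X, P.P (A x) ≤ m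

/-- PSH: image under a monotone local map. Proof: P' A := P (A o bd); locality: if A is LocOn S then
A o bd is local (finite union over S); Inc is preserved. -/
def S_PSH : Prop := ∀ {κ κ' : Type} (P : LP κ) (bd : Set κ → Set κ'),
  (∀ c c', c ⊆ c' → bd c ⊆ bd c') → (∀ e, Loc (fun c => e ∈ bd c)) →
  ∃ P' : LP κ', ∀ A, P'.P A = P.P (fun c => A (bd c))

open Classical in
/-- A finite volume model: weights of the subsets of E M, log-supermodular. -/
structure FV (κ : Type) where
  E : ℕ → Finset κ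
  w : ℕ → Finset κ → ℝ
  pos : ∀ M c, c ⊆ E M → 0 < w M c
  lsm : ∀ M a b, a ⊆ E M → b ⊆ E M → w M a * w M b ≤ w M (a ∩ b) * w M (a ∪ b)

open Classical in
/-- Probability of an event in the volume M. -/
noncomputable def FV.Pr {κ : Type} (F : FV κ) (M : ℕ) (A : Set κ → Prop) : ℝ :=
  (∑ c ∈ (F.E M).powerset, if A (c : Set κ) then F.w M c else 0) /
    ∑ c ∈ (F.E M).powerset, F.w M c

/-- FVK: FKG in finite volume. Proof: Finset.four_functions_theorem (Mathlib, FourFunctions) with
u = E M, f1 = f2 = f3 = f4 = w, families {c : A c}, {c : B c} in the powerset: infs and sups of them: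
sups is inside {A and B} (both increasing), infs inside the powerset; divide by the total squared. (Or fkg.) -/
def S_FVK : Prop := ∀ {κ : Type} (F : FV κ) (M : ℕ) (A B : Set κ → Prop), Inc A → Inc B →
  F.Pr M A * F.Pr M B ≤ F.Pr M (fun c => A c ∧ B c)

/-- FVE: finite energy in finite volume. Proof: sum over c with A c of w c <= (1/d) sum of
w (c u S) [A' (c u S)] <= (1/d) 2^|S| sum over c' with A' c' of w c' (the fibres of c -> c u S have at
most 2^|S| elements: c is determined by c' and c meet S). -/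
def S_FVE : Prop := ∀ {κ : Type} (F : FV κ) (S : Finset κ) (d : ℝ) (M : ℕ), 0 < d → S ⊆ F.E M →
  (∀ c c' : Finset κ, c ⊆ F.E M → (∀ e, e ∈ c' ↔ e ∈ c ∨ e ∈ S) → d * F.w M c ≤ F.w M c') →
  ∀ A A' : Set κ → Prop, (∀ c : Set κ, A c → A' (c ∪ S)) →
  d / 2 ^ S.card * F.Pr M A ≤ F.Pr M A'

/-- LIM (uses FVK): a limit along the hyperfilter. Proof: 0 <= Pr <= 1; compactness of [0,1]:
(Ultrafilter.map ..).le_nhds / isCompact_Icc.ultrafilter_le_nhds gives a limit for every A; choose;
all fields of LP pass to the limit (tendsto_nhds_unique, le_of_tendsto_of_tendsto', Tendsto.add,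
Tendsto.mul); in finite volume: top, bot, mono, add by sums, fkg = FVK. -/
def S_LIM : Prop := ∀ {κ : Type} (F : FV κ), ∃ P : LP κ, ∀ A : Set κ → Prop,
  Filter.Tendsto (fun M => F.Pr M A) (Filter.hyperfilter ℕ : Filter ℕ) (nhds (P.P A))

end Pool.CNL
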