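import Pool.Agent.Work.MP_bda6fa_cnl.IA2

set_option autoImplicit false

/-!
MP_bda6fa_pr, critical nested loops, part A, probabilistic half: the abstract form of Zhang's
theorem (helper18, after helper36, corrections of helper78). No geometry in this file.
-/

namespace Pool.CNL

open Finset

/-- The six-arm event. -/
def Six {κ : Type} (PA DA : Fin 6 → Set κ → Prop) (c : Set κ) : Prop :=
  PA 0 c ∧ PA 2 c ∧ PA 4 c ∧ DA 1 c ∧ DA 3 c ∧ DA 5 c

/-- The index square. -/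
noncomputable def sqr (A : ℕ) : Finset (ℤ × ℤ) := Icc (-(A : ℤ)) A ×ˢ Icc (-(A : ℤ)) A

/-- U satisfies the hypotheses of ZO. -/
def ZOH {κ : Type} (P : LP κ) (U : ℤ × ℤ → ℕ → ℕ → Set κ → Prop) : Prop :=
  (∀ x n R, Loc (U x n R)) ∧ (∀ x n R R', R ≤ R' → ∀ c, U x n R' c → U x n R c) ∧
  (∀ x n, ∃ k, ∀ k', k ≤ k' → ∀ R, ∃ R', ∀ c, U x n R' c → U (0, 0) k' R c) ∧
  (∀ x n R, P.P (U x n R) = P.P (U (0, 0) n R)) ∧
  ∀ n R (ε : ℝ), 0 < ε → ∃ x, P.P (fun c => U (0, 0) n R c ∧ U x n R c) ≤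
    P.P (U (0, 0) n R) ^ 2 + ε

/-- Arms for the set U: local, same probability, U is contained in their union. -/
def ARM {κ : Type} (P : LP κ) (U : ℤ × ℤ → ℕ → ℕ → Set κ → Prop)
    (PA : ℕ → ℕ → Fin 6 → Set κ → Prop) : Prop :=
  (∀ n R k, Loc (PA n R k)) ∧ (∀ n R k, P.P (PA n R k) = P.P (PA n R 0)) ∧
  ∀ n R c, U (0, 0) n R c → ∃ k, PA n R k c

open Classical in
/-- AZA (uses ZO, SIX, EXP), abstract Zhang theorem: percolation of U and of Us cannot coexist.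
Proof: suppose both; ZO with eta = (1/12)^6 for U and for Us: a common n (maximum) with
P (U 0 n R), P (Us 0 n R) >= 1 - (1/12)^6 for all R. SIX with a = P (PA n R 0), b = P (DA n R 0): the
six-arm event has probability >= 1/2 for all R; so P (T 0 n R) >= d/2 for all R (d = d n from the
hypothesis), and P (T x n R) >= d/2 for all x. For A let R be as in the counting hypothesis; EXP with
X = sqr A, events T (cen n x) n R and m = C n * (2A+1): (2A+1)^2 * d/2 <= C n * (2A+1) (card of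
sqr A = (2A+1)^2), so (2A+1) * d/2 <= C n for every A: false for A large (exists_nat_gt). -/
def S_AZA : Prop := ∀ {κ : Type} (P : LP κ) (U Us T : ℤ × ℤ → ℕ → ℕ → Set κ → Prop)
  (PA DA : ℕ → ℕ → Fin 6 → Set κ → Prop) (cen : ℕ → ℤ × ℤ → ℤ × ℤ) (C : ℕ → ℕ),
  ZOH P U → ZOH P Us → ARM P U PA → ARM P Us DA →
  (∀ n R k, Inc (PA n R k)) → (∀ n R k, Dcr (DA n R k)) →
  (∀ x n R, Loc (T x n R)) → (∀ x n R, P.P (T x n R) = P.P (T (0, 0) n R)) →
  (∀ n, ∃ d : ℝ, 0 < d ∧ ∀ R, d * P.P (Six (PA n R) (DA n R)) ≤ P.P (T (0, 0) n R)) →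
  (∀ n A : ℕ, ∃ R, ∀ c, ((sqr A).filter fun x => T (cen n x) n R c).card ≤ C n * (2 * A + 1)) →
  ¬ ((∃ (n : ℕ) (δ : ℝ), 0 < δ ∧ ∀ R, δ ≤ P.P (U (0, 0) n R)) ∧
    ∃ (n : ℕ) (δ : ℝ), 0 < δ ∧ ∀ R, δ ≤ P.P (Us (0, 0) n R))

end Pool.CNL
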