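import Pool.Agent.Work.MP_bda6fa_cnl.IA3
import Pool.Agent.Work.MP_bda6fa_cnl.Defs

set_option autoImplicit false

/-!
MP_bda6fa_pr, critical nested loops, part A: from the abstract form (IA3, namespace Pool.CNL) to the
statement CNL.S_AZ of Defs.lean (helper18). Loc, Inc, Dec of Defs.lean and Loc, Inc, Dcr of IA2.lean
are the same by unfolding.
-/

namespace CNLA

open XorIsing Finset

/-- the union of the six arms, radius n + 1 and outer radius n + 2 + R -/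
def Uf {κ : Type} (Q : ℕ → V → ℕ → ℕ → Set κ → Prop) (x : ℤ × ℤ) (n R : ℕ) (c : Set κ) : Prop :=
  ∃ k < 6, Q k x (n + 1) (n + 2 + R) c

/-- the arms at the origin -/
def Af {κ : Type} (Q : ℕ → V → ℕ → ℕ → Set κ → Prop) (n R : ℕ) (k : Fin 6) (c : Set κ) : Prop :=
  Q k ((0, 0) : V) (n + 1) (n + 2 + R) c

/-- six arms at x after filling the hexagon -/
def Tf {κ : Type} (P D : ℕ → V → ℕ → ℕ → Set κ → Prop) (Sf : V → ℕ → Finset κ) (x : ℤ × ℤ)
    (n R : ℕ) (c : Set κ) : Prop :=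
  ∃ c₀ : Set κ, (P 0 x (n + 1) (n + 2 + R) c₀ ∧ P 2 x (n + 1) (n + 2 + R) c₀ ∧
    P 4 x (n + 1) (n + 2 + R) c₀ ∧ D 1 x (n + 1) (n + 2 + R) c₀ ∧ D 3 x (n + 1) (n + 2 + R) c₀ ∧
    D 5 x (n + 1) (n + 2 + R) c₀) ∧ c = c₀ ∪ Sf x (n + 1)

/-- the centres -/
def cen (n : ℕ) (x : ℤ × ℤ) : ℤ × ℤ := ((2 * n + 3) * x.1, (2 * n + 3) * x.2)

/-- HXI: inclusions of hexagons (CNL.mem_Hx, omega). -/
def S_HXI : Prop := ∀ (x : V) (n j : ℕ), x.1.natAbs + x.2.natAbs ≤ j →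
  CNL.Hx x n ⊆ CNL.Hx (0, 0) (n + j) ∧ CNL.Hx (0, 0) n ⊆ CNL.Hx x (n + j)

/-- BRG: the bundled form. Proof: bot: add for False, True; mono: B = A or (B and not A), disjoint,
nonneg; P (A or B) = P A + P (B and not A), P B = P (A and B) + P (B and not A) (add, funext propext).
Locality: Pool.CNL.Loc.and etc. -/
def S_BRG : Prop := ∀ (κ : Type) (tr : V → κ → κ) (ro : κ → κ) (f : (Set κ → Prop) → ℝ),
  CNL.Prb κ tr ro f → ∃ P : Pool.CNL.LP κ, P.P = f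

/-- ZOB (uses HXI): the hypotheses of ZO hold for the union of the arms. Proof: Loc: Q k is Loc, finite
union over k < 6 (k : Fin 6, Loc.exists_fin). Decreasing in R: for x = 0 from ArmsI.mono with m = n + 1
(Hx 0 (n+1) inside itself, n + 1 < n + 2 + R, Hx 0 (n+2+R) inside Hx 0 (n+2+R')); for x in general by
ArmsI.tran (Uf Q x n R c <-> Uf Q 0 n R {e | tr x e in c}). Inclusion: ArmsI.mono with m = k' + 1,
HXI. Translation: Prb.tran for the event Uf Q 0 n R. Mixing: increasing: Mix with L = 0 for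
A = Uf Q 0 n R, and A {e | tr x e in c} <-> Uf Q x n R c. Decreasing: Mix for the complement: with
a = P A and P (A o tr x) = a: P (A and A_x) = 1 - P (not A or not A_x) = 1 - 2 (1 - a) +
P (not A and not A_x) <= 2a - 1 + (1-a)^2 + eps = a^2 + eps (LP.compl, LP.add). -/
def S_ZOB : Prop := ∀ (κ : Type) (tr : V → κ → κ) (ro : κ → κ) (f : (Set κ → Prop) → ℝ)
  (P : Pool.CNL.LP κ) (Q : ℕ → V → ℕ → ℕ → Set κ → Prop), P.P = f → CNL.Prb κ tr ro f →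
  CNL.Mix tr f → CNL.ArmsI tr ro Q →
  ((∀ k x n R, Pool.CNL.Inc (Q k x n R)) ∨ ∀ k x n R, Pool.CNL.Dcr (Q k x n R)) →
  Pool.CNL.ZOH P (Uf Q)

/-- ARB: the arms at the origin. Proof: ArmsI.loc; ArmsI.rota and Prb.rota by induction on k < 6;
the union is k < 6. -/
def S_ARB : Prop := ∀ (κ : Type) (tr : V → κ → κ) (ro : κ → κ) (f : (Set κ → Prop) → ℝ)
  (P : Pool.CNL.LP κ) (Q : ℕ → V → ℕ → ℕ → Set κ → Prop), P.P = f → CNL.Prb κ tr ro f →
  CNL.ArmsI tr ro Q → Pool.CNL.ARM P (Uf Q) (Af Q)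

/-- TLO: Tf is local. Proof: the six-arm event at x is LocOn F; then Tf is LocOn F ∪ Sf x (n+1):
if c = c0 ∪ Sf and c' agrees with c on F ∪ Sf take c0' := (c' \ Sf) ∪ (c0 ∩ Sf): c0' ∪ Sf = c' (Sf is
inside c, so inside c'), and c0' agrees with c0 on F (e in Sf: clear; e not in Sf: e in c0 <-> e in c <->
e in c' <-> e in c0'). -/
def S_TLO : Prop := ∀ (κ : Type) (tr : V → κ → κ) (ro : κ → κ)
  (P D : ℕ → V → ℕ → ℕ → Set κ → Prop) (Sf : V → ℕ → Finset κ), CNL.ArmsI tr ro P →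
  CNL.ArmsI tr ro D → ∀ x n R, Pool.CNL.Loc (Tf P D Sf x n R)

/-- TTR: Tf is translation covariant. Proof: from left to right c = c0 ∪ Sf x: {e | tr x e ∈ c} =
{e | tr x e ∈ c0} ∪ Sf 0 (trS, inj). From right to left: {e | tr x e ∈ c} = c1 ∪ Sf 0; take
c0 := (c \ Sf x) ∪ tr x '' (c1 ∩ Sf 0): {e | tr x e ∈ c0} = c1 (inj, trS), c0 ∪ Sf x = c since Sf x is
inside c. Arms: ArmsI.tran. -/
def S_TTR : Prop := ∀ (κ : Type) (tr : V → κ → κ) (ro : κ → κ)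
  (P D : ℕ → V → ℕ → ℕ → Set κ → Prop) (Sf : V → ℕ → Finset κ) (bb : Set κ → Set Edge),
  CNL.ArmsI tr ro P → CNL.ArmsI tr ro D → CNL.Link P D Sf tr bb →
  ∀ x n R c, Tf P D Sf x n R c ↔ Tf P D Sf (0, 0) n R {e | tr x e ∈ c}

/-- TFE (uses TLO): finite energy. Proof: Prb.fe for S = Sf 0 (n + 1), A = the six-arm event,
B = Tf 0 n R: A c implies B (c ∪ S) by definition (c0 = c). -/
def S_TFE : Prop := ∀ (κ : Type) (tr : V → κ → κ) (ro : κ → κ) (f : (Set κ → Prop) → ℝ)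
  (P D : ℕ → V → ℕ → ℕ → Set κ → Prop) (Sf : V → ℕ → Finset κ), CNL.Prb κ tr ro f →
  CNL.ArmsI tr ro P → CNL.ArmsI tr ro D →
  ∀ n, ∃ d : ℝ, 0 < d ∧ ∀ R, d * f (Pool.CNL.Six (Af P n R) (Af D n R)) ≤ f (Tf P D Sf (0, 0) n R)

open Classical in
/-- TCN (uses CNL.S_CNT2, HXI): counting. Proof: N := 2 (2n+3) A + (n+1), R := N + 1 + 2 (2n+3) A.
X := image of cen n over the filter (cen n injective). For x in X: Hx x (n+1) inside Hx 0 N and
Hx 0 (N+1) inside Hx x (n+2+R) (HXI and mem_Hx, |x.1| + |x.2| <= 2 (2n+3) A); Tri (bb c) x (n+1) (n+2+R) from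
c = c0 ∪ Sf x (n+1) and Link.fill, prim, dual for c0. Disjoint: two different centres differ by at
least 2n+3 in a coordinate. CNT2: card <= 6 (N+1) <= 6 (2n+3) (2A+1). -/
def S_TCN : Prop := ∀ (κ : Type) (tr : V → κ → κ)
  (P D : ℕ → V → ℕ → ℕ → Set κ → Prop) (Sf : V → ℕ → Finset κ) (bb : Set κ → Set Edge),
  CNL.Link P D Sf tr bb → ∀ n A : ℕ, ∃ R, ∀ c,
    ((Pool.CNL.sqr A).filter fun x => Tf P D Sf (cen n x) n R c).card ≤
      6 * (2 * n + 3) * (2 * A + 1)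

end CNLA
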