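import Pool.Agent.Work.MP_bda6fa_cnl.IC4
import Pool.Agent.Work.MP_bda6fa_nest.DET3
set_option autoImplicit false

/-! Arbitrary boundary conditions. Every block X is a file E_X.lean with theorem `p_X : S_X`, namespace CNB. -/

namespace CNB
open XorIsing
open scoped Classical
open Finset

noncomputable section

/-- Ising weight of M (minus spins among the free sites) with the edges of F, the minus spins outside are ξ -/
def bw (β : ℝ) (F : Finset Edge) (ξ M : Finset V) : ℝ :=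
  Real.exp (β * ∑ e ∈ F, spin (M ∪ ξ) e.1 * spin (M ∪ ξ) (tip e))

/-- partition function: Λ = free sites -/
def bZ (β : ℝ) (Λ : Finset V) (F : Finset Edge) (ξ : Finset V) : ℝ := ∑ M ∈ Λ.powerset, bw β F ξ M

/-- expectation -/
def bE (β : ℝ) (Λ : Finset V) (F : Finset Edge) (ξ : Finset V) (f : Finset V → ℝ) : ℝ :=
  (∑ M ∈ Λ.powerset, bw β F ξ M * f M) / bZ β Λ F ξ

/-- XOR probability: two independent Ising models with free sites Λ, Λ', edges F, F' and minus spins ξ, ξ' outside -/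
def xorB (β : ℝ) (Λ Λ' : Finset V) (F F' : Finset Edge) (ξ ξ' : Finset V) (ev : Finset V → Prop) : ℝ :=
  (∑ M ∈ Λ.powerset, ∑ M' ∈ Λ'.powerset,
    bw β F ξ M * bw β F' ξ' M' * (if ev (symmDiff (M ∪ ξ) (M' ∪ ξ')) then 1 else 0)) / (bZ β Λ F ξ * bZ β Λ' F' ξ')

/-- FKB: FKG for the model with boundary condition ξ (as C_FKI.lean: bw β F ξ is log-supermodular in M since
(M ∪ ξ) ∩ (M' ∪ ξ) = (M ∩ M') ∪ ξ, p_LSM) -/
def S_FKB : Prop := ∀ (β : ℝ) (D : Finset V) (F : Finset Edge) (ξ : Finset V) (f g : Finset V → ℝ), 0 ≤ β →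
  (∀ M M', M ⊆ M' → M' ⊆ D → f M ≤ f M') → (∀ M M', M ⊆ M' → M' ⊆ D → g M ≤ g M') →
  bE β D F ξ f * bE β D F ξ g ≤ bE β D F ξ (fun M => f M * g M)

/-- MON: monotonicity in the boundary condition. r M = bw β F ξ' M / bw β F ξ M is increasing in M (ξ ⊆ ξ', LSM applied to
M ∪ ξ' and M' ∪ ξ: for M ⊆ M' ⊆ D, (M ∪ ξ') ∩ (M' ∪ ξ) = M ∪ ξ, (M ∪ ξ') ∪ (M' ∪ ξ) = M' ∪ ξ', as ξ' is disjoint from D),
bE ξ' f = bE ξ (f r) / bE ξ r, FKB -/
def S_MON : Prop := ∀ (β : ℝ) (D : Finset V) (F : Finset Edge) (ξ ξ' : Finset V) (f : Finset V → ℝ), 0 ≤ β → ξ ⊆ ξ' →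
  Disjoint ξ' D → (∀ M M', M ⊆ M' → M' ⊆ D → f M ≤ f M') → bE β D F ξ f ≤ bE β D F ξ' f

/-- NUM: the number of minus spins in A. Let ξ₁ = the vertices outside D adjacent to D, and ξ. bE ξ n ≤ bE (ξ ∪ ξ₁) n (MON);
with the edges near D only the spins of ξ₁ matter: bE (ξ ∪ ξ₁) = bE ξ₁; flip all spins (M ↦ D \ M):
bE ξ₁ (1 if v ∈ M) = 1 - bE ∅ (1 if v ∈ M); corr β D {v} = 1 - 2 bE ∅ (1 if v ∈ M) -/
def S_NUM : Prop := ∀ (β : ℝ) (D A ξ : Finset V), 0 ≤ β → A ⊆ D → Disjoint ξ D →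
  bE β D (near D) ξ (fun M => ((M ∩ A).card : ℝ)) - bE β D (near D) ∅ (fun M => ((M ∩ A).card : ℝ)) ≤
    ∑ v ∈ A, corr β D {v}

/-- KAP: if f and n_A - f are increasing then 0 ≤ bE ξ f - bE ∅ f ≤ Σ corr (MON for f and for n_A - f, NUM) -/
def S_KAP : Prop := ∀ (β : ℝ) (D A ξ : Finset V) (f : Finset V → ℝ), 0 ≤ β → A ⊆ D → Disjoint ξ D →
  (∀ M M', M ⊆ M' → M' ⊆ D → f M ≤ f M') →
  (∀ M M', M ⊆ M' → M' ⊆ D → ((M ∩ A).card : ℝ) - f M ≤ ((M' ∩ A).card : ℝ) - f M') →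
  0 ≤ bE β D (near D) ξ f - bE β D (near D) ∅ f ∧
    bE β D (near D) ξ f - bE β D (near D) ∅ f ≤ ∑ v ∈ A, corr β D {v}

/-- GEN: general local functions. g M = Σ over s ⊆ A of g(s) 1[M ∩ A = s], 1[M ∩ A = s] = Σ over s ⊆ t ⊆ A of
(-1)^(t \ s) 1[t ⊆ M]; the indicator f of t ⊆ M satisfies KAP (t ⊆ A). So |difference| ≤ 2^|A| 2^|A| Σ corr -/
def S_GEN : Prop := ∀ (β : ℝ) (D A ξ : Finset V) (g : Finset V → ℝ), 0 ≤ β → A ⊆ D → Disjoint ξ D →
  (∀ M, g M = g (M ∩ A)) → (∀ M, 0 ≤ g M ∧ g M ≤ 1) →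
  |bE β D (near D) ξ g - bE β D (near D) ∅ g| ≤ 4 ^ A.card * ∑ v ∈ A, corr β D {v}

/-- XBP: xorB with ξ, ξ' against xorP (ξ = ξ' = ∅: M ∪ ∅ = M, bw = wt). Replace ξ by ∅ in the sum over M (for fixed M' the
function of M is an indicator depending on M ∩ A: ((M ∪ ξ) symmDiff (M' ∪ ξ')) ∩ A depends only on M ∩ A, M' ∩ A), then ξ'
by ∅ in the sum over M'. GEN twice (averaged over the other copy). -/
def S_XBP : Prop := ∀ (β : ℝ) (D A ξ ξ' : Finset V) (ev : Finset V → Prop), 0 ≤ β → A ⊆ D → Disjoint ξ D → Disjoint ξ' D →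
  (∀ X, ev X ↔ ev (X ∩ A)) →
  xorP β D ev ≤ xorB β D D (near D) (near D) ξ ξ' ev + 2 * (4 ^ A.card * ∑ v ∈ A, corr β D {v})

/-- MKB: domain Markov property. M = M₀ ∪ M₁, M₀ ⊆ D, M₁ ⊆ Λ \ D: bw β F ξ (M₀ ∪ M₁) = (factor from F \ near D, depending
only on M₁, ξ) * bw β (near D) (M₁ ∪ (ξ \ D)) M₀; sum over M₀, M₀' for fixed M₁, M₁' -/
def S_MKB : Prop := ∀ (β : ℝ) (D Λ Λ' : Finset V) (F F' : Finset Edge) (ξ ξ' : Finset V) (ev : Finset V → Prop) (c : ℝ),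
  D ⊆ Λ → D ⊆ Λ' → near D ⊆ F → near D ⊆ F' → Disjoint ξ Λ → Disjoint ξ' Λ' →
  (∀ η η' : Finset V, Disjoint η D → Disjoint η' D → c ≤ xorB β D D (near D) (near D) η η' ev) →
  c ≤ xorB β Λ Λ' F F' ξ ξ' ev

/-- LCN: loops surrounding only faces of B depend only on X ∩ C, if C contains B and all neighbours of B. If L ∈ loops X
surrounds only faces of B, then every e ∈ L has exactly one endpoint surrounded by L (loop_step), so e meets B, and every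
edge of a triangle containing e has both endpoints in C; so contour X and contour X' agree on these edges and L is also a
component of contour X'. -/
def S_LCN : Prop := ∀ (X X' A B C : Finset V), B ⊆ C → (∀ v ∈ B, ∀ w, Adj v w → w ∈ C) → X ∩ C = X' ∩ C →
  nloopsIn X A B = nloopsIn X' A B

end

end CNB
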