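import Pool.Agent.Work.MP_bda6fa_cnl.Defs
set_option autoImplicit false

/-! Part C: free random cluster model, free Ising spins, sandwich, final statement. -/

namespace CNL
open XorIsing
open scoped Classical
open Finset Relation Filter Topology

noncomputable section

/-! ### finite volume models: coordinates E D, weights w D c, c subset of E D -/

section vol
variable {κ : Type} [DecidableEq κ]

/-- total weight -/
def TW (E : Finset V → Finset κ) (w : Finset V → Finset κ → ℝ) (D : Finset V) : ℝ := ∑ c ∈ (E D).powerset, w D c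

/-- expectation -/
def EV (E : Finset V → Finset κ) (w : Finset V → Finset κ → ℝ) (D : Finset V) (f : Finset κ → ℝ) : ℝ :=
  (∑ c ∈ (E D).powerset, w D c * f c) / TW E w D

/-- probability -/
def PV (E : Finset V → Finset κ) (w : Finset V → Finset κ → ℝ) (D : Finset V) (A : Set κ → Prop) : ℝ :=
  EV E w D (fun c => if A (c : Set κ) then 1 else 0)

/-- limit of the probabilities along hexagons -/
def LV (E : Finset V → Finset κ) (w : Finset V → Finset κ → ℝ) (A : Set κ → Prop) : ℝ :=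
  limUnder atTop (fun M : ℕ => PV E w (Hx (0, 0) M) A)

structure Vol (tr : V → κ → κ) (ro : κ → κ) (E : Finset V → Finset κ) (w : Finset V → Finset κ → ℝ) : Prop where
  inj : ∀ x, Function.Injective (tr x)
  injr : Function.Injective ro
  pos : ∀ D c, c ⊆ E D → 0 < w D c
  lat : ∀ D c d, c ⊆ E D → d ⊆ E D → w D c * w D d ≤ w D (c ∪ d) * w D (c ∩ d)
  trE : ∀ x D, E (D.image (fun v => v + x)) = (E D).image (tr x)
  trW : ∀ x D c, c ⊆ E D → w (D.image (fun v => v + x)) (c.image (tr x)) = w D c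
  roE : ∀ D, E (D.image rot) = (E D).image ro
  roW : ∀ D c, c ⊆ E D → w (D.image rot) (c.image ro) = w D c
  fe : ∀ S : Finset κ, ∃ δ : ℝ, 0 < δ ∧ ∀ D, S ⊆ E D → ∀ c, c ⊆ E D → δ * w D c ≤ w D (c ∪ S)
  mono : ∀ D D', D ⊆ D' → E D ⊆ E D'
  exh : ∀ F : Finset κ, ∃ M, F ⊆ E (Hx (0, 0) M)
  lim : ∀ A : Set κ → Prop, Loc A → ∃ l : ℝ, ∀ x : V, Tendsto (fun M : ℕ => PV E w (Hx x M) A) atTop (𝓝 l)

end vol

/-- FKGV: positive association in finite volume -/
def S_FKGV : Prop := ∀ (κ : Type) [DecidableEq κ] (E : Finset V → Finset κ) (w : Finset V → Finset κ → ℝ) (D : Finset V),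
  (∀ c, c ⊆ E D → 0 < w D c) →
  (∀ c d, c ⊆ E D → d ⊆ E D → w D c * w D d ≤ w D (c ∪ d) * w D (c ∩ d)) →
  ∀ f h : Finset κ → ℝ, (∀ c c', c ⊆ c' → c' ⊆ E D → f c ≤ f c') → (∀ c c', c ⊆ c' → c' ⊆ E D → h c ≤ h c') →
  EV E w D f * EV E w D h ≤ EV E w D (fun c => f c * h c)

/-- LIMB: convergence of local events from monotone convergence of the products -/
def S_LIMB : Prop := ∀ (κ : Type) [DecidableEq κ] (E : Finset V → Finset κ) (w : Finset V → Finset κ → ℝ) (a b : ℝ), a ≠ b →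
  (∀ D c, c ⊆ E D → 0 < w D c) → (∀ D D', D ⊆ D' → E D ⊆ E D') → (∀ F : Finset κ, ∃ M, F ⊆ E (Hx (0, 0) M)) →
  (∀ (S : Finset κ) D D', D ⊆ D' → S ⊆ E D → EV E w D (fun c => ∏ e ∈ S, if e ∈ c then a else b) ≤
    EV E w D' (fun c => ∏ e ∈ S, if e ∈ c then a else b)) →
  ∀ A : Set κ → Prop, Loc A → ∃ l : ℝ, ∀ x : V, Tendsto (fun M : ℕ => PV E w (Hx x M) A) atTop (𝓝 l)

/-- VOLP: a finite volume model gives an abstract probability -/
def S_VOLP : Prop := ∀ (κ : Type) [DecidableEq κ] (tr : V → κ → κ) (ro : κ → κ) (E : Finset V → Finset κ)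
  (w : Finset V → Finset κ → ℝ), Vol tr ro E w → Prb κ tr ro (LV E w)

/-- LVT: the limit exists -/
def S_LVT : Prop := ∀ (κ : Type) [DecidableEq κ] (tr : V → κ → κ) (ro : κ → κ) (E : Finset V → Finset κ)
  (w : Finset V → Finset κ → ℝ), Vol tr ro E w → ∀ A : Set κ → Prop, Loc A → ∀ x : V,
  Tendsto (fun M : ℕ => PV E w (Hx x M) A) atTop (𝓝 (LV E w A))

/-! ### free random cluster model -/

/-- weight: the clusters of ω (a subset of inn D) in D -/
def fw (β : ℝ) (D : Finset V) (ω : Finset Edge) : ℝ := (Real.exp (2 * β) - 1) ^ ω.card * 2 ^ (fclusters D ω).card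

/-- free correlation of two spins -/
def fcor (β : ℝ) (D : Finset V) (x y : V) : ℝ :=
  (∑ M ∈ D.powerset, Real.exp (β * ∑ e ∈ inn D, spin M e.1 * spin M (tip e)) * (spin M x * spin M y)) / pz β D (inn D)

/-- x and y are connected by open edges -/
def SC (b : Set Edge) (x y : V) : Prop := ReflTransGen (BE b) x y

/-- strict dual arm -/
def DArm0 (b : Set Edge) (k : ℕ) (x : V) (n R : ℕ) : Prop :=
  ∃ i < n, ∃ t w, w ∉ Hx x R ∧ VT w t ∧
    ReflTransGen (TStep (fun e => e ∉ inn (Hx x n) ∧ e ∉ b)) (trT x (outT n k i)) t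

/-- FES: Edwards-Sokal -/
def S_FES : Prop := ∀ (β : ℝ) (D : Finset V) (x y : V), 0 ≤ β → x ∈ D → y ∈ D →
  fcor β D x y = PV inn (fw β) D (fun b => SC b x y)

/-- TES: twisted Edwards-Sokal -/
def S_TES : Prop := ∀ (β : ℝ) (D : Finset V) (t : V × Bool), 0 ≤ β →
  dis β D t * ∑ ω ∈ (inn D).powerset, fw β D ω = ∑ ω ∈ (inn D).powerset, fw β D ω * (if Ev D t ω then 1 else 0)

/-- EVD: no circuit around t implies a dual path to infinity -/
def S_EVD : Prop := ∀ (D : Finset V) (ω : Finset Edge) (R : ℕ), ω ⊆ inn D → Ev D ((0, 0), true) ω →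
  ∃ t w, w ∉ Hx (0, 0) R ∧ VT w t ∧ ReflTransGen (TStep (fun e => e ∉ ω)) ((0, 0), true) t

/-- DEX: last exit of a dual path -/
def S_DEX : Prop := ∀ (b : Set Edge) (n R : ℕ) (x : V) (t t' : V × Bool) (w : V), 1 ≤ n → n < R → w ∉ Hx x R →
  VT w t' → ReflTransGen (TStep (fun e => e ∉ b)) t t' →
  ((∀ v, VT v t → v ∈ Hx x n) ∨ ∃ e ∈ inn (Hx x n), e ∈ tri t) → ∃ k < 6, DArm0 b k x n R

/-- PEX: last exit of an open path -/
def S_PEX : Prop := ∀ (b : Set Edge) (n R : ℕ) (x u w : V), 1 ≤ n → n < R → w ∉ Hx x R → u ∈ Hx x n →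
  ReflTransGen (BE b) u w → ∃ k < 6, PArm b k x n R

/-- LATF: the weights of the random cluster model are log supermodular -/
def S_LATF : Prop := ∀ (β : ℝ) (D : Finset V) (c d : Finset Edge), 0 ≤ β → c ⊆ inn D → d ⊆ inn D →
  fw β D c * fw β D d ≤ fw β D (c ∪ d) * fw β D (c ∩ d)

/-- DOMF: conditionally on the outside of H, the model in H dominates the free model -/
def S_DOMF : Prop := ∀ (β : ℝ) (H D : Finset V) (A B : Set Edge → Prop), 0 < β → H ⊆ D → Inc A →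
  (∀ c, A c ↔ A (c ∩ inn H)) → (∀ c, B c ↔ B (c \ inn H)) →
  PV inn (fw β) H A * PV inn (fw β) D B ≤ PV inn (fw β) D (fun c => A c ∧ B c)

/-- VOLF: the random cluster model is a Vol -/
def S_VOLF : Prop := ∀ β : ℝ, 0 < β → Vol trE rotE inn (fw β)

/-- MIXF -/
def S_MIXF : Prop := ∀ β : ℝ, 0 < β → Mix trE (LV inn (fw β))

/-- ARF: arms of the random cluster model -/
def S_ARP : Prop := ArmsI trE rotE (fun k x n R (c : Set Edge) => PArm c k x n R)
def S_ARD : Prop := ArmsI trE rotE (fun k x n R (c : Set Edge) => DArm0 c k x n R)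
def S_LKF : Prop := Link (fun k x n R (c : Set Edge) => PArm c k x n R) (fun k x n R (c : Set Edge) => DArm0 c k x n R)
  (fun x n => inn (Hx x n)) trE (fun c => c)

/-! ### free Ising spins; the configuration is the set of minus spins -/

def sw (β : ℝ) (D M : Finset V) : ℝ := Real.exp (β * ∑ e ∈ inn D, spin M e.1 * spin M (tip e))

/-- path in c from the half open side k of Hx x (n+1) to the outside of Hx x R, outside Hx x n -/
def SArm (c : Set V) (k : ℕ) (x : V) (n R : ℕ) : Prop :=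
  ∃ u w, Sd (n + 1) k (u - x) ∧ u ∈ c ∧ w ∉ Hx x R ∧ ReflTransGen (fun a d => d ∈ c ∧ d ∉ Hx x n ∧ Adj a d) u w

/-- the edges with both endpoints in c -/
def bs (c : Set V) : Set Edge := {e | e.1 ∈ c ∧ tip e ∈ c}

/-- the origin is joined in c to the outside of Hx N -/
def QE (N : ℕ) (c : Set V) : Prop := (0, 0) ∈ c ∧ ∃ w, w ∉ Hx (0, 0) N ∧ ReflTransGen (fun a d => d ∈ c ∧ Adj a d) (0, 0) w

/-- G2: Griffiths' second inequality -/
def S_G2 : Prop := ∀ (D : Finset V) (F : Finset Edge) (J : Edge → ℝ) (A B : Finset V), (∀ e ∈ F, 0 ≤ J e) →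
  pA D F J A * pA D F J B ≤ pA D F J (symmDiff A B) * pA D F J ∅

/-- FMON: free correlations increase with the domain -/
def S_FMON : Prop := ∀ (β : ℝ) (D D' A : Finset V), 0 ≤ β → D ⊆ D' → A ⊆ D →
  EV (fun D => D) (sw β) D (fun c => ∏ e ∈ A, if e ∈ c then (-1 : ℝ) else 1) ≤
    EV (fun D => D) (sw β) D' (fun c => ∏ e ∈ A, if e ∈ c then (-1 : ℝ) else 1)

/-- LATS -/
def S_LATS : Prop := ∀ (β : ℝ) (D c d : Finset V), 0 ≤ β → c ⊆ D → d ⊆ D →
  sw β D c * sw β D d ≤ sw β D (c ∪ d) * sw β D (c ∩ d)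

/-- VOLS -/
def S_VOLS : Prop := ∀ β : ℝ, 0 ≤ β → Vol (fun x v => v + x) rot (fun D => D) (sw β)

/-- FC3: chain inequality -/
def S_FC3 : Prop := ∀ (β : ℝ) (D : Finset V) (x y z : V), 0 ≤ β → fcor β D x y * fcor β D y z ≤ fcor β D x z

/-- FPOS: positivity, uniformly in the domain -/
def S_FPOS : Prop := ∀ (β : ℝ) (F : Finset V), 0 < β → ∃ δ : ℝ, 0 < δ ∧ ∃ m : ℕ, ∀ (x : V) (D : Finset V), Hx x m ⊆ D →
  ∀ a ∈ F, δ ≤ fcor β D x (a + x)

/-- SCOV: covariance of increasing events bounded by the two point function; f depends on A, h on B -/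
def S_SCOV : Prop := ∀ (β : ℝ) (D A B : Finset V) (f h : Set V → Prop), 0 ≤ β → A ⊆ D → B ⊆ D → Inc f → Inc h →
  (∀ c, f c ↔ f (c ∩ A)) → (∀ c, h c ↔ h (c ∩ B)) →
  PV (fun D => D) (sw β) D (fun c => f c ∧ h c) ≤
    PV (fun D => D) (sw β) D f * PV (fun D => D) (sw β) D h + ∑ a ∈ A, ∑ b ∈ B, fcor β D a b

/-- P3: no long range order in the free measure -/
def P3 (β : ℝ) : Prop := ∀ (c : ℝ) (L : ℕ), 0 < c → ∃ x, x ∉ Hx (0, 0) L ∧ ∀ M : ℕ, x ∈ Hx (0, 0) M →
  fcor β (Hx (0, 0) M) (0, 0) x ≤ c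

/-- MIXS -/
def S_MIXS : Prop := ∀ β : ℝ, 0 < β → P3 β → Mix (fun x v => v + x) (LV (fun D => D) (sw β))

def S_ASP : Prop := ArmsI (fun x v => v + x) rot (fun k x n R (c : Set V) => SArm c k x n R)
def S_ASD : Prop := ArmsI (fun x v => v + x) rot (fun k x n R (c : Set V) => SArm cᶜ k x n R)

/-- MINUS -/
def S_MINUS : Prop := ∀ (c : Set V) (k : ℕ) (x : V) (n R : ℕ), 1 ≤ n → n < R → SArm cᶜ k x n R →
  DArm (bs (c ∪ Hx x n)) k x n R
def S_PRIS : Prop := ∀ (c : Set V) (k : ℕ) (x : V) (n R : ℕ), 1 ≤ n → n < R → SArm c k x n R →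
  PArm (bs (c ∪ Hx x n)) k x n R
def S_LKS : Prop := Link (fun k x n R (c : Set V) => SArm c k x n R) (fun k x n R (c : Set V) => SArm cᶜ k x n R)
  (fun x n => Hx x n) (fun x v => v + x) bs

/-- FLIP -/
def S_FLIP : Prop := ∀ β : ℝ, 0 ≤ β → ∀ A : Set V → Prop, Loc A →
  LV (fun D => D) (sw β) (fun c => A cᶜ) = LV (fun D => D) (sw β) A

/-- SAND: the sandwich -/
def S_SAND : Prop := ∀ (β : ℝ) (N M : ℕ), 0 ≤ β → N < M →
  corr β (Hx (0, 0) N) {(0, 0)} * (1 - PV (fun D => D) (sw β) (Hx (0, 0) M) (QE N)) ≤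
    PV (fun D => D) (sw β) (Hx (0, 0) M) (QE N)

/-- CMON: plus correlations decrease with the domain -/
def S_CMON : Prop := ∀ (β : ℝ) (D D' : Finset V) (x : V), 0 ≤ β → x ∈ D → D ⊆ D' → corr β D' {x} ≤ corr β D {x}

/-- GKSP: the free two point function is bounded by the product of magnetizations -/
def S_GKSP : Prop := ∀ (β : ℝ) (N : ℕ) (x : V) (D : Finset V), 0 ≤ β → XorIsing.box (N + 1) ⊆ D → shift x (XorIsing.box (N + 1)) ⊆ D →
  x ∉ XorIsing.box (2 * N + 2) → fcor β D (0, 0) x ≤ corr β (XorIsing.box N) {(0, 0)} ^ 2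

/-- the critical point -/
def bc : ℝ := Real.log 3 / 4

/-- part B -/
def S_KWT : Prop := ∀ (n : ℕ) (b : Bool), dis bc (XorIsing.box (n + 3)) ((0, 0), b) ≤ corr bc (XorIsing.box n) {(0, 0)}
def S_KWT2 : Prop := ∀ n : ℕ, corr bc (XorIsing.box (n + 3)) {(0, 0)} ≤ dis bc (XorIsing.box n) ((0, 0), true)

/-- part C results -/
def S_P3 : Prop := P3 bc
def S_P4 : Prop := ∀ p : ℝ, 0 < p → ∃ N M : ℕ, N < M ∧ PV (fun D => D) (sw bc) (Hx (0, 0) M) (QE N) ≤ p
def S_CZ : Prop := Tendsto (fun n => corr bc (XorIsing.box n) {((0, 0) : V)}) atTop (𝓝 0)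

end

end CNL
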