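import Pool.Agent.Work.MP_bda6fa_cnl.IC
set_option autoImplicit false

/-! Part C: splitting of VOLP and of the geometric blocks. -/

namespace CNL
open XorIsing
open scoped Classical
open Finset Relation Filter Topology

noncomputable section

/-- V1: nonneg, one, add, fkg of the limit (limits of the same facts for PV; FKGV with indicators; for Loc A, Loc B also
A ∧ B, A ∨ B are Loc; PV ≥ 0 since the weights are positive) -/
def S_V1 : Prop := ∀ (κ : Type) [DecidableEq κ] (tr : V → κ → κ) (ro : κ → κ) (E : Finset V → Finset κ)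
  (w : Finset V → Finset κ → ℝ), Vol tr ro E w →
  (∀ A, Loc A → 0 ≤ LV E w A) ∧ LV E w (fun _ => True) = 1 ∧
  (∀ A B, Loc A → Loc B → (∀ c, ¬ (A c ∧ B c)) → LV E w (fun c => A c ∨ B c) = LV E w A + LV E w B) ∧
  (∀ A B, Loc A → Loc B → Inc A → Inc B → LV E w A * LV E w B ≤ LV E w (fun c => A c ∧ B c))

/-- V2: translation. The map c ↦ c.image (tr x) is a weight preserving bijection from the subsets of E (Hx (-x) M) to the
subsets of E (Hx 0 M) = E ((Hx (-x) M).image (· + x)), and {e | tr x e ∈ c.image (tr x)} = c (tr x injective). So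
PV (Hx 0 M) (A ∘ shift) = PV (Hx (-x) M) A, and both sides converge (LVT) -/
def S_V2 : Prop := ∀ (κ : Type) [DecidableEq κ] (tr : V → κ → κ) (ro : κ → κ) (E : Finset V → Finset κ)
  (w : Finset V → Finset κ → ℝ), Vol tr ro E w → ∀ (A : Set κ → Prop) (x : V), Loc A →
  LV E w (fun c => A {e | tr x e ∈ c}) = LV E w A

/-- V3: rotation: (Hx 0 M).image rot = Hx 0 M -/
def S_V3 : Prop := ∀ (κ : Type) [DecidableEq κ] (tr : V → κ → κ) (ro : κ → κ) (E : Finset V → Finset κ)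
  (w : Finset V → Finset κ → ℝ), Vol tr ro E w → ∀ A : Set κ → Prop, Loc A →
  LV E w (fun c => A {e | ro e ∈ c}) = LV E w A

/-- V4: finite energy: Σ_c w c 1_A(c) ≤ δ⁻¹ Σ_c w (c ∪ S) 1_B(c ∪ S) ≤ δ⁻¹ 2^|S| Σ_c' w c' 1_B(c') (at most 2^|S| sets c have
the same c ∪ S), for all M with S ⊆ E (Hx 0 M); pass to the limit -/
def S_V4 : Prop := ∀ (κ : Type) [DecidableEq κ] (tr : V → κ → κ) (ro : κ → κ) (E : Finset V → Finset κ)
  (w : Finset V → Finset κ → ℝ), Vol tr ro E w → ∀ S : Finset κ, ∃ δ : ℝ, 0 < δ ∧ ∀ A B : Set κ → Prop, Loc A → Loc B →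
  (∀ c, A c → B (c ∪ S)) → δ * LV E w A ≤ LV E w B

/-- RNG: a vertex of the boundary is in one of the six sides -/
def S_RNG : Prop := ∀ (n : ℕ) (x v : V), 1 ≤ n → v ∈ Hx x n → v ∉ Hx x (n - 1) → ∃ k < 6, Sd n k (v - x)

/-- OUTT: an edge e of Hx x n, one of its triangles t not inside Hx x n: then t is the outer triangle of a boundary edge -/
def S_OUTT : Prop := ∀ (n : ℕ) (x : V) (t : V × Bool) (e : Edge), 1 ≤ n → e ∈ inn (Hx x n) → e ∈ tri t →
  (∃ v, VT v t ∧ v ∉ Hx x n) → ∃ k < 6, ∃ i < n, t = trT x (outT n k i)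

/-- ROS: rotations. rot^[6] = id, rotE, rotT are compatible with tip, tri, Hx, inn -/
def S_ROS : Prop := (∀ v : V, rot^[6] v = v) ∧ (∀ t : V × Bool, rotT^[6] t = t) ∧ Function.Injective rot ∧
  Function.Injective rotE ∧ Function.Injective rotT ∧
  (∀ e : Edge, ∀ t, rotE e ∈ tri (rotT t) ↔ e ∈ tri t) ∧ (∀ (v : V) (t : V × Bool), VT (rot v) (rotT t) ↔ VT v t) ∧
  (∀ (v : V) (n : ℕ), rot v ∈ Hx (0, 0) n ↔ v ∈ Hx (0, 0) n) ∧
  (∀ (e : Edge) (D : Finset V), rotE e ∈ inn (D.image rot) ↔ e ∈ inn D) ∧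
  (∀ e : Edge, (rot e.1 = (rotE e).1 ∧ rot (tip e) = tip (rotE e)) ∨ (rot e.1 = tip (rotE e) ∧ rot (tip e) = (rotE e).1)) ∧
  (∀ e : Edge, ∃ f, rotE f = e)

/-- P3U: if the free correlations do not decay, then corr (box N)² ≥ c for all N (FMON to enlarge the hexagon, GKSP) -/
def S_P3U : Prop := ∀ (β c : ℝ) (L : ℕ), 0 ≤ β → 0 < c →
  (∀ x, x ∉ Hx (0, 0) L → ∃ M : ℕ, x ∈ Hx (0, 0) M ∧ c ≤ fcor β (Hx (0, 0) M) (0, 0) x) →
  (∀ N, c ≤ corr β (XorIsing.box N) {(0, 0)} ^ 2) ∧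
    ∀ R : ℕ, 1 < R → c ≤ LV inn (fw β) (fun b => ∃ k < 6, PArm b k (0, 0) 1 R)

/-- P3D: dual arms from a lower bound of dis (TES, EVD, DEX; DISM: dis (Hx 0 M) ≥ dis (box M)) -/
def S_P3D : Prop := ∀ (β c : ℝ), 0 < β → 0 < c → (∀ N, c ≤ dis β (XorIsing.box N) ((0, 0), true)) →
  ∀ R : ℕ, 1 < R → c ≤ LV inn (fw β) (fun b => ∃ k < 6, DArm0 b k (0, 0) 1 R)

end

end CNL
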