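import Pool.Agent.Work.MP_bda6fa_nest.DET3
set_option autoImplicit false

/-! Translation invariance of the XOR-Ising loops. -/

namespace XorIsing
open scoped Classical
open Finset

/-- CCS: translates of domains with connected complement -/
def S_CCS : Prop := ∀ (D : Finset V) (y : V), CoConn D → CoConn (shift y D)

/-- NLS: loops of the translated configuration: contour, loopOf, loops, ray, Surrounds are translation covariant
(translate of an edge: (e.1 + y, e.2); tri, Touch are translation covariant) -/
def S_NLS : Prop := ∀ (X A B : Finset V) (y : V), nloopsIn (shift y X) (shift y A) (shift y B) = nloopsIn X A B

/-- XPS: the probability of the translated event (bijection M ↦ shift y M of the powersets, wt is invariant, symmDiff and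
shift commute) -/
def S_XPS : Prop := ∀ (β : ℝ) (D : Finset V) (y : V) (ev : Finset V → Prop),
  xorP β (shift y D) ev = xorP β D (fun X => ev (shift y X))

end XorIsing
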