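import Pool.Agent.Work.MP_bda6fa_nest.Interface
set_option autoImplicit false

/-! Part C, (4): the sandwich. The + magnetisation is at most q / (1 - q), q = the probability in the free Ising model that
the origin is joined to the outside of B by minus spins (= by plus spins). Every block X is a file C_X.lean with theorem
`p_X : S_X`. M is always the set of minus spins. -/

namespace XorIsing
open scoped Classical
open Finset

noncomputable section

/-- Ising weight of the minus set M with the edges of F -/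
def ew (β : ℝ) (F : Finset Edge) (M : Finset V) : ℝ := Real.exp (β * ∑ e ∈ F, spin M e.1 * spin M (tip e))

/-- expectation in the Ising model with the vertices D and the edges F: F = inn D is the free model, F = near D is the
model with + boundary conditions -/
def eE (β : ℝ) (D : Finset V) (F : Finset Edge) (f : Finset V → ℝ) : ℝ :=
  (∑ M ∈ D.powerset, ew β F M * f M) / pz β D F

/-- the minus spins joined by minus spins to a minus spin outside B -/
def mcl (B M : Finset V) : Finset V := M.filter (fun v => ∃ w, w ∉ B ∧ w ∈ M ∧ FConn (inn M) v w)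

/-- the unexplored vertices of B: not in mcl and not adjacent to mcl -/
def unx (B M : Finset V) : Finset V := B.filter (fun v => v ∉ mcl B M ∧ ∀ u ∈ mcl B M, ¬ Adj u v)

end

/-- LSM: log-supermodularity (edge by edge: for s_1, s_2, s_1', s_2' = ±1 the products satisfy
s_1 s_2 + s_1' s_2' ≤ min(s_1, s_1') min(s_2, s_2') + max(s_1, s_1') max(s_2, s_2')) -/
def S_LSM : Prop := ∀ (β : ℝ) (F : Finset Edge) (M M' : Finset V), 0 ≤ β →
  ew β F M * ew β F M' ≤ ew β F (M ∩ M') * ew β F (M ∪ M')

/-- FKI: FKG inequality, for functions increasing in the minus set (Finset.four_functions_theorem with f₁ = w f, f₂ = w g,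
f₃ = w, f₄ = w f g for f, g ≥ 0; in general add a constant) -/
def S_FKI : Prop := ∀ (β : ℝ) (D : Finset V) (F : Finset Edge) (f g : Finset V → ℝ), 0 ≤ β →
  (∀ M M', M ⊆ M' → M' ⊆ D → f M ≤ f M') → (∀ M M', M ⊆ M' → M' ⊆ D → g M ≤ g M') →
  eE β D F f * eE β D F g ≤ eE β D F (fun M => f M * g M)

/-- CORM: the magnetisation decreases when the domain increases: FKI in B (edges near B) for f = -spin at x and
g = -(indicator of M ⊆ U); for M ⊆ U, ew β (near B) M = exp (β (#near B - #near U)) ew β (near U) M -/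
def S_CORM : Prop := ∀ (β : ℝ) (U B : Finset V) (x : V), 0 ≤ β → U ⊆ B → x ∈ U → corr β B {x} ≤ corr β U {x}

/-- BDRY: a vertex outside unx which is adjacent to unx is not minus (otherwise it is in mcl, or it lies in B and is
adjacent to mcl, hence in mcl) -/
def S_BDRY : Prop := ∀ (B M : Finset V) (u v : V), Adj u v → u ∈ unx B M → v ∉ unx B M → v ∉ M

/-- CLOS: changing the spins in unx does not change unx. (mcl B M is contained in M \ unx, contained in M', and it is closed
under adjacency in M': a neighbour v ∈ M' of u ∈ mcl B M is not in unx, so it is in M and in mcl B M. So mcl B M' = mcl B M: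
if a path of M' leads to w ∉ B, w ∈ M', then w ∉ unx, w ∈ M, w ∈ mcl B M, and go back along the path.) -/
def S_CLOS : Prop := ∀ B M M' : Finset V, M \ unx B M = M' \ unx B M → mcl B M' = mcl B M ∧ unx B M' = unx B M

/-- FIBR: the sum over the spins in U = unx B M. With M₀ = M \ U: for every edge near U an endpoint outside U is not in M₀
(BDRY), so ew β (inn H) (M₀ ∪ N) = ew β (inn H \ near U) M₀ * ew β (near U) N for N ⊆ U, and the sum is this constant times
ZZ β U * (corr β U {0} - corr β B {0}) ≥ 0 (CORM) -/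
def S_FIBR : Prop := ∀ (β : ℝ) (H B M : Finset V), 0 ≤ β → near B ⊆ inn H → ((0, 0) : V) ∈ unx B M →
  0 ≤ ∑ N ∈ (unx B M).powerset, ew β (inn H) ((M \ unx B M) ∪ N) *
    (spin ((M \ unx B M) ∪ N) (0, 0) - corr β B {((0, 0) : V)})

/-- SANP: sum over all M ⊆ H. If (0,0) ∉ mcl and (0,0) ∉ unx then (0,0) ∉ M, the spin is 1 ≥ corr. The M with (0,0) ∈ unx B M
are grouped by (unx B M, M \ unx B M); by CLOS every group is {(M \ U) ∪ N : N ⊆ U}, and FIBR. -/
def S_SANP : Prop := ∀ (β : ℝ) (H B : Finset V), 0 ≤ β → B ⊆ H → near B ⊆ inn H → ((0, 0) : V) ∈ B →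
  0 ≤ ∑ M ∈ H.powerset, ew β (inn H) M *
    (if ((0, 0) : V) ∈ mcl B M then 0 else (spin M (0, 0) - corr β B {((0, 0) : V)}))

/-- SYM0: the spin has mean zero in the free model (M ↦ H \ M) -/
def S_SYM0 : Prop := ∀ (β : ℝ) (H : Finset V) (x : V), x ∈ H → eE β H (inn H) (fun M => spin M x) = 0

/-- SAND: 0 = E spin = - q + E (spin; (0,0) ∉ mcl) ≥ - q + corr (1 - q) -/
def S_SAND : Prop := ∀ (β : ℝ) (H B : Finset V), 0 ≤ β → B ⊆ H → near B ⊆ inn H → ((0, 0) : V) ∈ B →
  corr β B {((0, 0) : V)} * (1 - eE β H (inn H) (fun M => if ((0, 0) : V) ∈ mcl B M then 1 else 0)) ≤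
    eE β H (inn H) (fun M => if ((0, 0) : V) ∈ mcl B M then 1 else 0)

/-- COVI: covariance inequality. For f, g increasing in M with values in [0, 1], depending only on the spins in A, A':
the numbers n_A, n_A' of minus spins in A, A' are such that n_A ± f and n_A' ± g are increasing, so by FKI
cov(n_A + f, n_A' - g) ≥ 0 and cov(n_A - f, n_A' + g) ≥ 0, so cov(f, g) ≤ cov(n_A, n_A') = 1/4 Σ cov(spin a, spin a') -/
def S_COVI : Prop := ∀ (β : ℝ) (D : Finset V) (F : Finset Edge) (A A' : Finset V) (f g : Finset V → ℝ), 0 ≤ β →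
  (∀ M M', M ⊆ M' → f M ≤ f M') → (∀ M M', M ⊆ M' → g M ≤ g M') → (∀ M, 0 ≤ f M ∧ f M ≤ 1) → (∀ M, 0 ≤ g M ∧ g M ≤ 1) →
  (∀ M, f M = f (M ∩ A)) → (∀ M, g M = g (M ∩ A')) →
  eE β D F (fun M => f M * g M) - eE β D F f * eE β D F g ≤
    ∑ a ∈ A, ∑ a' ∈ A', (eE β D F (fun M => spin M a * spin M a') -
      eE β D F (fun M => spin M a) * eE β D F (fun M => spin M a')) / 4

/-- FMON: free correlations increase with the domain (GKM with D = H', F = inn H', F' = inn H; spins outside H are
independent for the edges inn H, so both sums factor) -/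
def S_FMON : Prop := ∀ (β : ℝ) (H H' A : Finset V), 0 ≤ β → H ⊆ H' → A ⊆ H →
  eE β H (inn H) (fun M => ∏ a ∈ A, spin M a) ≤ eE β H' (inn H') (fun M => ∏ a ∈ A, spin M a)

/-- WALSH: a function of the spins in A is a combination of spin products -/
def S_WALSH : Prop := ∀ (A : Finset V) (f : Finset V → ℝ), (∀ M, f M = f (M ∩ A)) →
  ∃ c : Finset V → ℝ, ∀ M, f M = ∑ B ∈ A.powerset, c B * ∏ a ∈ B, spin M a

end XorIsing
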