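import Pool.Agent.Work.MP_bda6fa_cnl.IC
import Pool.Agent.Work.MP_bda6fa_cnl.IC4
set_option autoImplicit false

/-! The blocks LATS, FMON, CMON, SCOV, SAND of IC.lean from the blocks of IC4.lean. -/

namespace CNL
open XorIsing
open scoped Classical
open Finset Relation Filter Topology

namespace Bri

theorem sw_eq (β : ℝ) (D M : Finset V) : sw β D M = ew β (inn D) M := rfl

theorem EV_eq (β : ℝ) (D : Finset V) (f : Finset V → ℝ) : EV (fun D => D) (sw β) D f = eE β D (inn D) f := rfl

theorem fcor_eq (β : ℝ) (D : Finset V) (x y : V) : fcor β D x y = eE β D (inn D) (fun M => spin M x * spin M y) := rfl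

theorem Hx_near {N M : ℕ} (h : N < M) : near (Hx (0, 0) N) ⊆ inn (Hx (0, 0) M) := by
  intro e he
  rw [mem_near, mem_Hx, mem_Hx] at he
  rw [mem_inn, mem_Hx, mem_Hx]
  obtain ⟨v, k⟩ := e
  have hc : (N : ℤ) + 1 ≤ M := by exact_mod_cast h
  fin_cases k <;> simp [tip, dir] at he ⊢ <;> omega

theorem Hx_mono {N M : ℕ} (h : N ≤ M) : Hx (0, 0) N ⊆ Hx (0, 0) M := by
  intro v hv
  rw [mem_Hx] at hv ⊢
  have hc : (N : ℤ) ≤ M := by exact_mod_cast h
  simp at hv ⊢
  omega

theorem QE_iff (N : ℕ) (M : Finset V) : QE N (M : Set V) ↔ ((0, 0) : V) ∈ mcl (Hx (0, 0) N) M := by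
  unfold QE mcl
  rw [mem_filter]
  constructor
  · rintro ⟨h0, w, hw, hp⟩
    refine ⟨by simpa using h0, w, hw, ?_⟩
    have key : w ∈ M ∧ FConn (inn M) (0, 0) w := by
      clear hw
      induction hp with
      | refl => exact ⟨by simpa using h0, ReflTransGen.refl⟩
      | @tail a d _ hs ih =>
        obtain ⟨ha, hc⟩ := ih
        obtain ⟨hd, k, hk⟩ := hs
        have hd' : d ∈ M := by simpa using hd
        refine ⟨hd', ReflTransGen.tail hc ⟨k, ?_⟩⟩
        rcases hk with rfl | rfl
        · left
          exact ⟨by rw [mem_inn]; exact ⟨ha, hd'⟩, rfl⟩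
        · right
          exact ⟨by rw [mem_inn]; exact ⟨hd', ha⟩, rfl⟩
    exact key
  · rintro ⟨h0, w, hw, hwM, hp⟩
    refine ⟨by simpa using h0, w, hw, ?_⟩
    clear hw hwM
    unfold FConn at hp
    induction hp with
    | refl => exact ReflTransGen.refl
    | @tail a d _ hs ih =>
      refine ReflTransGen.tail ih ?_
      obtain ⟨k, hk⟩ := hs
      rcases hk with ⟨h1, rfl⟩ | ⟨h1, rfl⟩
      · rw [mem_inn] at h1
        exact ⟨Finset.mem_coe.mpr h1.2, k, Or.inl rfl⟩
      · rw [mem_inn] at h1
        exact ⟨Finset.mem_coe.mpr h1.1, k, Or.inr rfl⟩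

end Bri

open Bri

theorem p_LATS (h : XorIsing.S_LSM) : CNL.S_LATS := by
  intro β D c d hβ _ _
  have := h β (inn D) c d hβ
  rw [sw_eq, sw_eq, sw_eq, sw_eq, mul_comm (ew β (inn D) (c ∪ d))]
  exact this

theorem p_FMON (h : XorIsing.S_FMON) : CNL.S_FMON := by
  intro β D D' A hβ hD hA
  exact h β D D' A hβ hD hA

theorem p_CMON (h : XorIsing.S_CORM) : CNL.S_CMON := fun β D D' x hβ hx hD => h β D D' x hβ hD hx

theorem p_SAND (h : XorIsing.S_SAND) : CNL.S_SAND := by
  intro β N M hβ hNM
  have h1 := h β (Hx (0, 0) M) (Hx (0, 0) N) hβ (Hx_mono hNM.le) (Hx_near hNM) (by rw [mem_Hx]; simp)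
  have h2 : PV (fun D => D) (sw β) (Hx (0, 0) M) (QE N) =
      eE β (Hx (0, 0) M) (inn (Hx (0, 0) M)) (fun M => if ((0, 0) : V) ∈ mcl (Hx (0, 0) N) M then 1 else 0) := by
    unfold PV
    rw [EV_eq]
    congr 1
    funext c
    simp only [QE_iff]
  rw [h2]
  exact h1

theorem p_SCOV (h : XorIsing.S_COVI) (h0 : XorIsing.S_SYM0) (hF : XorIsing.S_FKI) : CNL.S_SCOV := by
  intro β D A B f g hβ hA hB hf hg hfA hgB
  have key := h β D (inn D) A B (fun M => if f (M : Set V) then 1 else 0) (fun M => if g (M : Set V) then 1 else 0) hβ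
    (fun M M' hM => by
      have := hf (M : Set V) (M' : Set V) (by exact_mod_cast hM)
      by_cases h1 : f (M : Set V)
      · simp [h1, this h1]
      · simp only [h1, if_false]; split_ifs <;> norm_num)
    (fun M M' hM => by
      have := hg (M : Set V) (M' : Set V) (by exact_mod_cast hM)
      by_cases h1 : g (M : Set V)
      · simp [h1, this h1]
      · simp only [h1, if_false]; split_ifs <;> norm_num)
    (fun M => by constructor <;> split_ifs <;> norm_num)
    (fun M => by constructor <;> split_ifs <;> norm_num)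
    (fun M => by
      have := hfA (M : Set V)
      simp only [coe_inter, this])
    (fun M => by
      have := hgB (M : Set V)
      simp only [coe_inter, this])
  have e1 : PV (fun D => D) (sw β) D (fun c => f c ∧ g c) =
      eE β D (inn D) (fun M => (if f (M : Set V) then 1 else 0) * (if g (M : Set V) then 1 else 0)) := by
    unfold PV
    rw [EV_eq]
    congr 1
    funext c
    by_cases h1 : f (c : Set V) <;> by_cases h2 : g (c : Set V) <;> simp [h1, h2]
  have e2 : PV (fun D => D) (sw β) D f = eE β D (inn D) (fun M => if f (M : Set V) then 1 else 0) := rfl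
  have e3 : PV (fun D => D) (sw β) D g = eE β D (inn D) (fun M => if g (M : Set V) then 1 else 0) := rfl
  rw [e1, e2, e3]
  have hpos : ∀ a ∈ A, ∀ b ∈ B, 0 ≤ fcor β D a b := by
    intro a ha b hb
    have h1 := hF β D (inn D) (fun M => - spin M a) (fun M => - spin M b) hβ
      (fun M M' hM _ => by
        unfold spin
        by_cases h1 : a ∈ M
        · simp [h1, hM h1]
        · simp only [h1, if_false]; split_ifs <;> norm_num)
      (fun M M' hM _ => by
        unfold spin
        by_cases h1 : b ∈ M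
        · simp [h1, hM h1]
        · simp only [h1, if_false]; split_ifs <;> norm_num)
    have e4 : eE β D (inn D) (fun M => - spin M a) = 0 := by
      have := h0 β D a (hA ha)
      unfold eE at this ⊢
      rw [div_eq_zero_iff] at this ⊢
      rcases this with h5 | h5
      · left
        simp only [mul_neg, sum_neg_distrib, h5, neg_zero]
      · right; exact h5
    rw [e4, zero_mul] at h1
    rw [fcor_eq]
    simpa using h1
  have hle : ∑ a ∈ A, ∑ a' ∈ B, (eE β D (inn D) (fun M => spin M a * spin M a') -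
      eE β D (inn D) (fun M => spin M a) * eE β D (inn D) (fun M => spin M a')) / 4 ≤
      ∑ a ∈ A, ∑ b ∈ B, fcor β D a b := by
    apply sum_le_sum
    intro a ha
    apply sum_le_sum
    intro b hb
    rw [h0 β D a (hA ha), zero_mul, sub_zero, ← fcor_eq]
    have := hpos a ha b hb
    linarith
  linarith

end CNL
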