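import Pool.Agent.Work.MP_bda6fa_cnl.IC
set_option autoImplicit false

/-! Assembly of the spin half: no long range order in the free model => no percolation of minus spins => the + magnetisation
of the box tends to 0. -/

namespace CNL
open XorIsing
open scoped Classical
open Finset Relation Filter Topology

namespace SFin

theorem bc_pos : 0 < CNL.bc := by
  unfold CNL.bc
  have : 0 < Real.log 3 := Real.log_pos (by norm_num)
  positivity

theorem corr_nonneg (hG1 : S_G1) (β : ℝ) (hβ : 0 ≤ β) (D : Finset V) (x : V) : 0 ≤ corr β D {x} := by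
  have h := hG1 D (near D) (fun _ => β) {x} (fun _ _ => hβ)
  unfold corr
  apply div_nonneg
  · have e : ∑ M ∈ D.powerset, wt β D M * ∏ a ∈ ({x} : Finset V), spin M a = pA D (near D) (fun _ => β) {x} := by
      unfold pA wt
      apply sum_congr rfl
      intro M _
      rw [mul_sum]
    rw [e]
    exact h
  · unfold ZZ
    exact sum_nonneg fun M _ => (Real.exp_pos _).le

theorem Hx_sub_box {N n : ℕ} (h : N ≤ n) : Hx (0, 0) N ⊆ XorIsing.box n := by
  intro v hv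
  rw [mem_Hx] at hv
  rw [mem_box]
  have hc : (N : ℤ) ≤ n := by exact_mod_cast h
  simp at hv
  omega

theorem ring2 (u : V) (h2 : u ∈ Hx (0, 0) 2) (h1 : u ∉ Hx (0, 0) 1) : ∃ k < 6, Sd 2 k u := by
  obtain ⟨a, b⟩ := u
  rw [mem_Hx] at h1 h2
  simp at h1 h2
  obtain ⟨⟨ha1, ha2⟩, ⟨hb1, hb2⟩, hc1, hc2⟩ := h2
  have hk : ∀ k < 6, ∀ i < 2, (a, b) = rot^[k] (((2 : ℕ) : ℤ) - (i : ℕ), ((i : ℕ) : ℤ)) → ∃ k < 6, Sd 2 k (a, b) :=
    fun k hk i hi h => ⟨k, hk, i, hi, h⟩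
  have ha : a = -2 ∨ a = -1 ∨ a = 0 ∨ a = 1 ∨ a = 2 := by omega
  have hb : b = -2 ∨ b = -1 ∨ b = 0 ∨ b = 1 ∨ b = 2 := by omega
  have key : ∃ k < 6, ∃ i < 2, (a, b) = rot^[k] (((2 : ℕ) : ℤ) - (i : ℕ), ((i : ℕ) : ℤ)) := by
    rcases ha with rfl | rfl | rfl | rfl | rfl <;> rcases hb with rfl | rfl | rfl | rfl | rfl <;>
      first
      | (exfalso; omega)
      | (refine ⟨0, by norm_num, 0, by norm_num, ?_⟩; simp [rot, Function.iterate_succ]; done)
      | (refine ⟨0, by norm_num, 1, by norm_num, ?_⟩; simp [rot, Function.iterate_succ]; done)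
      | (refine ⟨1, by norm_num, 0, by norm_num, ?_⟩; simp [rot, Function.iterate_succ]; done)
      | (refine ⟨1, by norm_num, 1, by norm_num, ?_⟩; simp [rot, Function.iterate_succ]; done)
      | (refine ⟨2, by norm_num, 0, by norm_num, ?_⟩; simp [rot, Function.iterate_succ]; done)
      | (refine ⟨2, by norm_num, 1, by norm_num, ?_⟩; simp [rot, Function.iterate_succ]; done)
      | (refine ⟨3, by norm_num, 0, by norm_num, ?_⟩; simp [rot, Function.iterate_succ]; done)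
      | (refine ⟨3, by norm_num, 1, by norm_num, ?_⟩; simp [rot, Function.iterate_succ]; done)
      | (refine ⟨4, by norm_num, 0, by norm_num, ?_⟩; simp [rot, Function.iterate_succ]; done)
      | (refine ⟨4, by norm_num, 1, by norm_num, ?_⟩; simp [rot, Function.iterate_succ]; done)
      | (refine ⟨5, by norm_num, 0, by norm_num, ?_⟩; simp [rot, Function.iterate_succ]; done)
      | (refine ⟨5, by norm_num, 1, by norm_num, ?_⟩; simp [rot, Function.iterate_succ]; done)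
  obtain ⟨k, hk6, i, hi, he⟩ := key
  exact hk k hk6 i hi he

theorem adj_ring (u v : V) (hv : v ∈ Hx (0, 0) 1) (h : Adj v u) : u ∈ Hx (0, 0) 2 := by
  rw [mem_Hx] at hv ⊢
  obtain ⟨k, hk⟩ := h
  obtain ⟨a, b⟩ := u
  obtain ⟨c, d⟩ := v
  simp at hv ⊢
  fin_cases k <;> simp [dir, Prod.ext_iff] at hk <;> omega

/-- last exit from Hx 0 1 -/
theorem last_exit (c : Set V) (v w : V) (R : ℕ) (hR : 1 ≤ R) (hw : w ∉ Hx (0, 0) R)
    (hp : ReflTransGen (fun a d => d ∈ c ∧ Adj a d) v w) (hv : v ∈ Hx (0, 0) 1) : ∃ k < 6, SArm c k (0, 0) 1 R := by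
  have hw1 : w ∉ Hx (0, 0) 1 := by
    intro h
    apply hw
    rw [mem_Hx] at h ⊢
    have hc : (1 : ℤ) ≤ R := by exact_mod_cast hR
    simp at h ⊢
    omega
  have key : w ∉ Hx (0, 0) 1 → ∃ u, u ∈ c ∧ u ∉ Hx (0, 0) 1 ∧ u ∈ Hx (0, 0) 2 ∧
      ReflTransGen (fun a d => d ∈ c ∧ d ∉ Hx (0, 0) 1 ∧ Adj a d) u w := by
    clear hw hw1
    induction hp with
    | refl => intro h; exact absurd hv h
    | @tail a d _ hs ih =>
      intro hd
      by_cases ha : a ∈ Hx (0, 0) 1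
      · exact ⟨d, hs.1, hd, adj_ring d a ha hs.2, ReflTransGen.refl⟩
      · obtain ⟨u, hu1, hu2, hu3, hu4⟩ := ih ha
        exact ⟨u, hu1, hu2, hu3, ReflTransGen.tail hu4 ⟨hs.1, hd, hs.2⟩⟩
  obtain ⟨u, hu1, hu2, hu3, hu4⟩ := key hw1
  obtain ⟨k, hk, hs⟩ := ring2 u hu3 hu2
  have e : u - ((0, 0) : V) = u := by ext <;> simp
  exact ⟨k, hk, u, w, by rw [e]; exact hs, hu1, hw, hu4⟩

theorem PV_mono {β : ℝ} {D : Finset V} {A B : Set V → Prop} (h : ∀ c, A c → B c) :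
    PV (fun D => D) (sw β) D A ≤ PV (fun D => D) (sw β) D B := by
  unfold PV EV
  apply div_le_div_of_nonneg_right
  · apply sum_le_sum
    intro c _
    have hpos : 0 ≤ sw β D c := (Real.exp_pos _).le
    apply mul_le_mul_of_nonneg_left _ hpos
    by_cases h1 : A (c : Set V)
    · simp [h1, h _ h1]
    · simp only [h1, if_false]; split_ifs <;> norm_num
  · unfold TW
    exact sum_nonneg fun M _ => (Real.exp_pos _).le

theorem loc_ex {P : ℕ → Set V → Prop} (h : ∀ k, Loc (P k)) : Loc (fun c => ∃ k < 6, P k c) := by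
  choose F hF using h
  refine ⟨(range 6).biUnion F, ?_⟩
  intro c c' hc
  constructor
  · rintro ⟨k, hk, hp⟩
    exact ⟨k, hk, (hF k c c' (fun e he => hc e (mem_biUnion.mpr ⟨k, mem_range.mpr hk, he⟩))).1 hp⟩
  · rintro ⟨k, hk, hp⟩
    exact ⟨k, hk, (hF k c c' (fun e he => hc e (mem_biUnion.mpr ⟨k, mem_range.mpr hk, he⟩))).2 hp⟩

end SFin

open SFin

theorem p_CZ (hSAND : CNL.S_SAND) (hCMON : CNL.S_CMON) (hG1 : S_G1) (hP4 : S_P4) : S_CZ := by
  have hb := bc_pos.le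
  rw [S_CZ, Metric.tendsto_atTop]
  intro ε hε
  obtain ⟨N, M, hNM, hq⟩ := hP4 (min (1 / 2) (ε / 4)) (by positivity)
  set q := PV (fun D => D) (sw CNL.bc) (Hx (0, 0) M) (QE N) with hqdef
  have hS := hSAND CNL.bc N M hb hNM
  rw [← hqdef] at hS
  have h1 : q ≤ 1 / 2 := hq.trans (min_le_left _ _)
  have h2 : q ≤ ε / 4 := hq.trans (min_le_right _ _)
  have h0 := corr_nonneg hG1 CNL.bc hb (Hx (0, 0) N) (0, 0)
  have h3 : corr CNL.bc (Hx (0, 0) N) {((0, 0) : V)} ≤ ε / 2 := by nlinarith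
  refine ⟨N, fun n hn => ?_⟩
  have h4 := hCMON CNL.bc (Hx (0, 0) N) (XorIsing.box n) (0, 0) hb (by rw [mem_Hx]; simp) (Hx_sub_box hn)
  have h5 := corr_nonneg hG1 CNL.bc hb (XorIsing.box n) (0, 0)
  rw [Real.dist_eq, sub_zero, abs_of_nonneg h5]
  linarith

theorem p_P4 (hAZ : S_AZ) (hVOLP : S_VOLP) (hLVT : S_LVT) (hVOLS : S_VOLS) (hMIXS : S_MIXS) (hASP : S_ASP) (hASD : S_ASD)
    (hLKS : S_LKS) (hFLIP : S_FLIP) (hP3 : S_P3) : S_P4 := by
  intro p hp
  have hb := bc_pos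
  have hV := hVOLS CNL.bc hb.le
  have hPr := hVOLP V _ _ _ _ hV
  have hMx := hMIXS CNL.bc hb hP3
  have hloc : ∀ R, Loc (fun c : Set V => ∃ k < 6, SArm c k (0, 0) 1 R) := fun R =>
    loc_ex (P := fun k c => SArm c k (0, 0) 1 R) (fun k => hASP.loc k (0, 0) 1 R)
  have hex : ∃ R, 1 < R ∧ LV (fun D => D) (sw CNL.bc) (fun c => ∃ k < 6, SArm c k (0, 0) 1 R) < p := by
    by_contra hcon
    push Not at hcon
    refine hAZ V _ _ _ _ _ _ _ hPr hMx hASP hASD hLKS 1 p le_rfl hp (fun R hR => hcon R hR) (fun R hR => ?_)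
    have h1 := hFLIP CNL.bc hb.le (fun c => ∃ k < 6, SArm c k (0, 0) 1 R) (hloc R)
    have h2 := hcon R hR
    rw [← h1] at h2
    exact h2
  obtain ⟨R, hR, hlt⟩ := hex
  have hT := hLVT V _ _ _ _ hV _ (hloc R) (0, 0)
  have hev := (tendsto_order.1 hT).2 p hlt
  obtain ⟨M₀, hM₀⟩ := eventually_atTop.1 hev
  refine ⟨R, max M₀ (R + 1), by omega, ?_⟩
  refine le_trans (PV_mono ?_) (hM₀ _ (le_max_left _ _)).le
  rintro c ⟨h0, w, hw, hpath⟩
  exact last_exit c (0, 0) w R hR.le hw hpath (by rw [mem_Hx]; simp)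

end CNL
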