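import Pool.Agent.Work.MP_bda6fa_cnl.FINB
import Pool.Agent.Work.MP_bda6fa_cnl.B_MFF
import Pool.Agent.Work.MP_bda6fa_cnl.B_HTE
import Pool.Agent.Work.MP_bda6fa_cnl.B_EVN
import Pool.Agent.Work.MP_bda6fa_cnl.B_SUR
import Pool.Agent.Work.MP_bda6fa_cnl.B_BIJ
import Pool.Agent.Work.MP_bda6fa_cnl.B_STAR
import Pool.Agent.Work.MP_bda6fa_cnl.B_WT
import Pool.Agent.Work.MP_bda6fa_cnl.B_KW
import Pool.Agent.Work.MP_bda6fa_cnl.B_INC
import Pool.Agent.Work.MP_bda6fa_cnl.B_SW
import Pool.Agent.Work.MP_bda6fa_cnl.B_REFL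
import Pool.Agent.Work.MP_bda6fa_cnl.B_BT
set_option autoImplicit false

/-! Part B assembled: duality and star-triangle at the critical point. -/

namespace XorIsing
open scoped Classical
open Finset Filter Topology

theorem kw_all : S_KW := p_KW p_HTE (p_BIJ (p_EVN p_MFF) (p_SUR p_MFF)) (p_EVN p_MFF) (p_STAR p_MFF) p_WT

theorem sw_all : S_SW := p_SW kw_all (p_INC p_MFF) p_G1s

theorem bt_all : S_BT := p_BT sw_all p_REFL (p_DISM p_G1s)

/-- the nesting theorem at the critical point, from the vanishing of the magnetisation there -/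
theorem crit_nested' (hc : Tendsto (fun n => corr bc (box n) {((0, 0) : V)}) atTop (𝓝 0)) (m j : ℕ)
    {ε : ℝ} (hε : 0 < ε) : ∃ N : ℕ, ∀ D : Finset V, CoConn D → box N ⊆ D →
      1 - ε ≤ xorP bc D (fun X => j ≤ nloopsIn X (box m) (box N)) :=
  crit_nested bt_all hc m j hε

end XorIsing
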