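import Pool.Agent.Work.MP_bda6fa_cnl.PF2
import Pool.Agent.Work.MP_bda6fa_cnl.IBC
import Pool.Agent.Work.MP_bda6fa_cnl.D_CCS
import Pool.Agent.Work.MP_bda6fa_cnl.D_NLS
import Pool.Agent.Work.MP_bda6fa_cnl.D_XPS
import Pool.Agent.Work.MP_bda6fa_nest.FINQ
set_option autoImplicit false

/-! Nested loops at the critical point for arbitrary domains and boundary conditions: assembly. -/

namespace CNB
open XorIsing
open scoped Classical
open Finset Filter Topology

/-- translation of a bound from the origin to the site y -/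
theorem trans_bound {β c : ℝ} {D : Finset V} {y : V} {A B : Finset V} {j : ℕ}
    (h : ∀ D' : Finset V, CoConn D' → B ⊆ D' → c ≤ xorP β D' (fun X => j ≤ nloopsIn X A B)) (hD : CoConn D)
    (hB : shift y B ⊆ D) : c ≤ xorP β D (fun X => j ≤ nloopsIn X (shift y A) (shift y B)) := by
  have hs : shift y (shift (-y) D) = D := by
    ext v
    rw [mem_shift, mem_shift]
    simp
  have hB' : B ⊆ shift (-y) D := by
    intro v hv
    rw [mem_shift]
    apply hB
    rw [mem_shift]
    simpa using hv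
  have h1 := h (shift (-y) D) (p_CCS D (-y) hD) hB'
  rw [← hs, p_XPS β (shift (-y) D) y]
  have h2 : (fun X => j ≤ nloopsIn (shift y X) (shift y A) (shift y B)) = fun X => j ≤ nloopsIn X A B := by
    funext X
    rw [p_NLS X A B y]
  rw [h2]
  exact h1

theorem bw_pos (β : ℝ) (F : Finset Edge) (ξ M : Finset V) : 0 < bw β F ξ M := Real.exp_pos _

theorem bZ_pos (β : ℝ) (Λ : Finset V) (F : Finset Edge) (ξ : Finset V) : 0 < bZ β Λ F ξ :=
  sum_pos (fun _ _ => bw_pos _ _ _ _) ⟨∅, empty_mem_powerset _⟩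

theorem xorB_mono (β : ℝ) (Λ Λ' : Finset V) (F F' : Finset Edge) (ξ ξ' : Finset V) {ev ev' : Finset V → Prop}
    (h : ∀ X, ev X → ev' X) : xorB β Λ Λ' F F' ξ ξ' ev ≤ xorB β Λ Λ' F F' ξ ξ' ev' := by
  unfold xorB
  refine div_le_div_of_nonneg_right ?_ (mul_pos (bZ_pos _ _ _ _) (bZ_pos _ _ _ _)).le
  refine sum_le_sum fun M _ => sum_le_sum fun M' _ => ?_
  refine mul_le_mul_of_nonneg_left ?_ (mul_pos (bw_pos _ _ _ _) (bw_pos _ _ _ _)).le
  by_cases h1 : ev (symmDiff (M ∪ ξ) (M' ∪ ξ'))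
  · rw [if_pos h1, if_pos (h _ h1)]
  · rw [if_neg h1]
    split_ifs <;> norm_num

theorem nloopsIn_mono (X A : Finset V) {B B' : Finset V} (h : B ⊆ B') : nloopsIn X A B ≤ nloopsIn X A B' := by
  unfold nloopsIn
  refine card_le_card ?_
  intro L hL
  rw [mem_filter] at hL ⊢
  exact ⟨hL.1, hL.2.1, fun y hy => h (hL.2.2 y hy)⟩

theorem nb_box {N : ℕ} {y v w : V} (hv : v ∈ shift y (XorIsing.box N)) (h : Adj v w) :
    w ∈ shift y (XorIsing.box (N + 1)) := by
  rw [mem_shift, mem_box] at hv ⊢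
  obtain ⟨k, hk | hk⟩ := h
  · subst hk
    fin_cases k <;> simp [dir, Prod.fst_sub, Prod.snd_sub] at hv ⊢ <;> omega
  · subst hk
    fin_cases k <;> simp [dir, Prod.fst_sub, Prod.snd_sub] at hv ⊢ <;> omega

theorem shift_mono {y : V} {A B : Finset V} (h : A ⊆ B) : shift y A ⊆ shift y B := by
  intro v hv
  rw [mem_shift] at hv ⊢
  exact h hv

/-- nested loops for arbitrary domains, edge sets and boundary conditions -/
theorem nested_bc (hCCB : ∀ N, CoConn (XorIsing.box N)) (hXBP : S_XBP) (hMKB : S_MKB) (hLCN : S_LCN) (m j : ℕ) {ε : ℝ}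
    (hε : 0 < ε) : ∃ N : ℕ, ∀ (y : V) (Λ Λ' : Finset V) (F F' : Finset Edge) (ξ ξ' : Finset V),
      shift y (XorIsing.box N) ⊆ Λ → shift y (XorIsing.box N) ⊆ Λ' → near (shift y (XorIsing.box N)) ⊆ F →
      near (shift y (XorIsing.box N)) ⊆ F' → Disjoint ξ Λ → Disjoint ξ' Λ' →
      1 - ε ≤ xorB bc Λ Λ' F F' ξ ξ' (fun X => j ≤ nloopsIn X (shift y (XorIsing.box m)) (shift y (XorIsing.box N))) := by
  obtain ⟨N1, hN1⟩ := crit_nested' CNL.cz_all m j (ε := ε / 2) (by positivity)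
  set a : ℕ := (XorIsing.box (N1 + 1)).card with ha
  have hlim : Tendsto (fun n => 2 * ((4 : ℝ) ^ a * ((a : ℝ) * corr bc (XorIsing.box n) {((0, 0) : V)}))) atTop (𝓝 0) := by
    have := ((CNL.cz_all.const_mul (a : ℝ)).const_mul ((4 : ℝ) ^ a)).const_mul 2
    simpa using this
  obtain ⟨n, hn⟩ := ((tendsto_order.1 hlim).2 (ε / 2) (by positivity)).exists
  have hb := bc_nonneg
  refine ⟨N1 + 1 + n, fun y Λ Λ' F F' ξ ξ' h1 h2 h3 h4 h5 h6 => ?_⟩
  set D : Finset V := shift y (XorIsing.box (N1 + 1 + n)) with hD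
  set A : Finset V := shift y (XorIsing.box (N1 + 1)) with hA
  have hAD : A ⊆ D := shift_mono (box_mono (by omega))
  have hBA : shift y (XorIsing.box N1) ⊆ A := shift_mono (box_mono (by omega))
  have hcA : A.card ≤ a := by
    rw [hA, shift]
    exact card_image_le
  have hsum : ∑ v ∈ A, corr bc D {v} ≤ (a : ℝ) * corr bc (XorIsing.box n) {((0, 0) : V)} := by
    have hc0 := CNL.corr_nonneg hb (XorIsing.box n) (0, 0)
    calc ∑ v ∈ A, corr bc D {v} ≤ ∑ _v ∈ A, corr bc (XorIsing.box n) {((0, 0) : V)} := by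
          refine sum_le_sum fun v hv => ?_
          rw [← p_TRC bc n v]
          refine CNL.corm_all bc _ _ v hb ?_ ?_
          · intro u hu
            rw [hA, mem_shift, mem_box] at hv
            rw [mem_shift, mem_box] at hu
            rw [hD, mem_shift, mem_box]
            simp only [Prod.fst_sub, Prod.snd_sub] at hu hv ⊢
            push_cast at hv ⊢
            omega
          · rw [mem_shift, mem_box]
            simp
      _ = (A.card : ℝ) * corr bc (XorIsing.box n) {((0, 0) : V)} := by rw [sum_const, nsmul_eq_mul]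
      _ ≤ (a : ℝ) * corr bc (XorIsing.box n) {((0, 0) : V)} :=
          mul_le_mul_of_nonneg_right (by exact_mod_cast hcA) hc0
  have hsum0 : 0 ≤ ∑ v ∈ A, corr bc D {v} := sum_nonneg fun v _ => CNL.corr_nonneg hb D v
  have hev : ∀ X : Finset V, (j ≤ nloopsIn X (shift y (XorIsing.box m)) (shift y (XorIsing.box N1))) ↔
      (j ≤ nloopsIn (X ∩ A) (shift y (XorIsing.box m)) (shift y (XorIsing.box N1))) := by
    intro X
    rw [hLCN X (X ∩ A) (shift y (XorIsing.box m)) (shift y (XorIsing.box N1)) A hBA (fun v hv w hw => nb_box hv hw)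
      (by rw [inter_assoc, inter_self])]
  have hP : 1 - ε / 2 ≤ xorP bc D (fun X => j ≤ nloopsIn X (shift y (XorIsing.box m)) (shift y (XorIsing.box N1))) :=
    trans_bound hN1 (p_CCS _ y (hCCB _)) (hBA.trans hAD)
  have hbd : 2 * (4 ^ A.card * ∑ v ∈ A, corr bc D {v}) ≤ ε / 2 := by
    refine le_trans ?_ hn.le
    refine mul_le_mul_of_nonneg_left ?_ (by norm_num)
    exact mul_le_mul (pow_le_pow_right₀ (by norm_num) hcA) hsum hsum0 (by positivity)
  have hloc : ∀ η η' : Finset V, Disjoint η D → Disjoint η' D → 1 - ε ≤ xorB bc D D (near D) (near D) η η'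
      (fun X => j ≤ nloopsIn X (shift y (XorIsing.box m)) (shift y (XorIsing.box N1))) := by
    intro η η' hη hη'
    have h7 := hXBP bc D A η η' _ hb hAD hη hη' hev
    linarith
  have h8 := hMKB bc D Λ Λ' F F' ξ ξ' _ (1 - ε) h1 h2 h3 h4 h5 h6 hloc
  exact h8.trans (xorB_mono _ _ _ _ _ _ _ (fun X hX => hX.trans (nloopsIn_mono _ _ (hBA.trans hAD))))

end CNB
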