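import Pool.Agent.Work.MP_bda6fa_cnl.B_FAZ
import Pool.Agent.Work.MP_bda6fa_cnl.B_AZA
import Pool.Agent.Work.MP_bda6fa_cnl.B_ZO
import Pool.Agent.Work.MP_bda6fa_cnl.B_SIX
import Pool.Agent.Work.MP_bda6fa_cnl.B_SRT
import Pool.Agent.Work.MP_bda6fa_cnl.B_PRD
import Pool.Agent.Work.MP_bda6fa_cnl.B_DFK
import Pool.Agent.Work.MP_bda6fa_cnl.B_EXP
import Pool.Agent.Work.MP_bda6fa_cnl.B_BRG
import Pool.Agent.Work.MP_bda6fa_cnl.B_ZOB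
import Pool.Agent.Work.MP_bda6fa_cnl.B_HXI
import Pool.Agent.Work.MP_bda6fa_cnl.B_ARB
import Pool.Agent.Work.MP_bda6fa_cnl.B_TLO
import Pool.Agent.Work.MP_bda6fa_cnl.B_TTR
import Pool.Agent.Work.MP_bda6fa_cnl.B_TFE
import Pool.Agent.Work.MP_bda6fa_cnl.B_TCN
import Pool.Agent.Work.MP_bda6fa_cnl.A_CNT2
import Pool.Agent.Work.MP_bda6fa_cnl.A_SEP6
import Pool.Agent.Work.MP_bda6fa_cnl.A_ROT6
import Pool.Agent.Work.MP_bda6fa_cnl.A_SDF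
import Pool.Agent.Work.MP_bda6fa_cnl.A_RING
import Pool.Agent.Work.MP_bda6fa_cnl.A_JRT
import Pool.Agent.Work.MP_bda6fa_cnl.A_CST0
import Pool.Agent.Work.MP_bda6fa_cnl.A_FLP0
import Pool.Agent.Work.MP_bda6fa_cnl.A_CYC
import Pool.Agent.Work.MP_bda6fa_cnl.A_PW
import Pool.Agent.Work.MP_bda6fa_cnl.A_HXC
import Pool.Agent.Work.MP_bda6fa_cnl.A_FAR
import Pool.Agent.Work.MP_bda6fa_nest.PETA
set_option autoImplicit false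

/-! Part A assembled: the abstract theorem of Zhang type. -/

namespace CNL
open XorIsing

theorem cnt2_all : S_CNT2 :=
  XCNT.cnt2 (p_SEP6 p_ROT6 p_SDF (p_RING p_JRT p_ROT6 p_CST0 p_FLP0) (p_CYC p_PW p_HXC) (p_FAR p_PETA) p_PETA)

theorem az_all : S_AZ :=
  CNLA.p_FAZ (Pool.CNL.p_AZA Pool.CNL.p_ZO (Pool.CNL.p_SIX (Pool.CNL.p_SRT (Pool.CNL.p_PRD Pool.CNL.p_DFK))) Pool.CNL.p_EXP)
    CNLA.p_BRG (CNLA.p_ZOB CNLA.p_HXI) CNLA.p_ARB CNLA.p_TLO CNLA.p_TTR (CNLA.p_TFE CNLA.p_TLO)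
    (CNLA.p_TCN cnt2_all CNLA.p_HXI)

end CNL
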