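import Pool.Agent.Work.MP_bda6fa_cnl.PF1
import Pool.Agent.Work.MP_bda6fa_cnl.PB
import Pool.Agent.Work.MP_bda6fa_cnl.ASM1
import Pool.Agent.Work.MP_bda6fa_cnl.IS_Bridge
import Pool.Agent.Work.MP_bda6fa_cnl.IS_Fin
import Pool.Agent.Work.MP_bda6fa_cnl.C_BDRY
import Pool.Agent.Work.MP_bda6fa_cnl.C_CLOS
import Pool.Agent.Work.MP_bda6fa_cnl.C_CORM
import Pool.Agent.Work.MP_bda6fa_cnl.C_COVI
import Pool.Agent.Work.MP_bda6fa_cnl.C_FIBR
import Pool.Agent.Work.MP_bda6fa_cnl.C_FKI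
import Pool.Agent.Work.MP_bda6fa_cnl.C_FMON
import Pool.Agent.Work.MP_bda6fa_cnl.C_LSM
import Pool.Agent.Work.MP_bda6fa_cnl.C_SAND
import Pool.Agent.Work.MP_bda6fa_cnl.C_SANP
import Pool.Agent.Work.MP_bda6fa_cnl.C_SYM0
import Pool.Agent.Work.MP_bda6fa_cnl.D_ARD
import Pool.Agent.Work.MP_bda6fa_cnl.D_ARP
import Pool.Agent.Work.MP_bda6fa_cnl.D_ASD
import Pool.Agent.Work.MP_bda6fa_cnl.D_ASP
import Pool.Agent.Work.MP_bda6fa_cnl.D_DEX
import Pool.Agent.Work.MP_bda6fa_cnl.D_DOMF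
import Pool.Agent.Work.MP_bda6fa_cnl.D_EVD
import Pool.Agent.Work.MP_bda6fa_cnl.D_FC3
import Pool.Agent.Work.MP_bda6fa_cnl.D_FES
import Pool.Agent.Work.MP_bda6fa_cnl.D_FKGV
import Pool.Agent.Work.MP_bda6fa_cnl.D_FLIP
import Pool.Agent.Work.MP_bda6fa_cnl.D_FPOS
import Pool.Agent.Work.MP_bda6fa_cnl.D_G2
import Pool.Agent.Work.MP_bda6fa_cnl.D_GKSP
import Pool.Agent.Work.MP_bda6fa_cnl.D_LATF
import Pool.Agent.Work.MP_bda6fa_cnl.D_LIMB
import Pool.Agent.Work.MP_bda6fa_cnl.D_LKF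
import Pool.Agent.Work.MP_bda6fa_cnl.D_LKS
import Pool.Agent.Work.MP_bda6fa_cnl.D_LVT
import Pool.Agent.Work.MP_bda6fa_cnl.D_MINUS
import Pool.Agent.Work.MP_bda6fa_cnl.D_MIXF
import Pool.Agent.Work.MP_bda6fa_cnl.D_MIXS
import Pool.Agent.Work.MP_bda6fa_cnl.D_OUTT
import Pool.Agent.Work.MP_bda6fa_cnl.D_P3D
import Pool.Agent.Work.MP_bda6fa_cnl.D_P3U
import Pool.Agent.Work.MP_bda6fa_cnl.D_PEX
import Pool.Agent.Work.MP_bda6fa_cnl.D_PRIS
import Pool.Agent.Work.MP_bda6fa_cnl.D_RNG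
import Pool.Agent.Work.MP_bda6fa_cnl.D_ROS
import Pool.Agent.Work.MP_bda6fa_cnl.D_TES
import Pool.Agent.Work.MP_bda6fa_cnl.D_V1
import Pool.Agent.Work.MP_bda6fa_cnl.D_V2
import Pool.Agent.Work.MP_bda6fa_cnl.D_V3
import Pool.Agent.Work.MP_bda6fa_cnl.D_V4
import Pool.Agent.Work.MP_bda6fa_cnl.D_VOLF
import Pool.Agent.Work.MP_bda6fa_cnl.D_VOLP
import Pool.Agent.Work.MP_bda6fa_cnl.D_VOLS
set_option autoImplicit false

/-! Part C assembled: the + magnetisation at the centre of the box tends to 0 at the critical point. -/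

namespace CNL
open XorIsing
open scoped Classical
open Finset Relation Filter Topology

theorem fki_all : XorIsing.S_FKI := XorIsing.p_FKI p_LSM
theorem corm_all : XorIsing.S_CORM := XorIsing.p_CORM fki_all
theorem fmon_all : CNL.S_FMON := CNL.p_FMON (XorIsing.p_FMON (p_GKM p_G1))
theorem sand_all : CNL.S_SAND := CNL.p_SAND (XorIsing.p_SAND (XorIsing.p_SANP p_CLOS (p_FIBR p_BDRY corm_all)) p_SYM0)
theorem scov_all : CNL.S_SCOV := CNL.p_SCOV (XorIsing.p_COVI fki_all) p_SYM0 fki_all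
theorem cmon_all : CNL.S_CMON := CNL.p_CMON corm_all

theorem volp_all : S_VOLP := p_VOLP (p_V1 p_FKGV p_LVT) (p_V2 p_LVT) (p_V3 p_LVT) (p_V4 p_LVT)
theorem domf_all : S_DOMF := p_DOMF p_FKGV p_LATF
theorem volf_all : S_VOLF := p_VOLF p_LATF domf_all p_LIMB p_ROS
theorem pex_all : S_PEX := p_PEX p_RNG
theorem dex_all : S_DEX := p_DEX (p_OUTT p_RNG)
theorem arp_all : S_ARP := p_ARP pex_all p_ROS
theorem ard_all : S_ARD := p_ARD dex_all p_ROS
theorem gksp_all : S_GKSP := p_GKSP p_G2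

/-- no long range order in the free measure at the critical point -/
theorem p3_all : S_P3 :=
  p_P3 az_all volp_all volf_all (p_MIXF p_LVT domf_all volf_all) arp_all ard_all p_LKF
    (p_P3U fmon_all gksp_all p_FES pex_all volf_all p_LVT arp_all)
    (p_P3D p_TES p_EVD dex_all volf_all p_LVT ard_all) sw_all

theorem vols_all : S_VOLS := p_VOLS (CNL.p_LATS p_LSM) fmon_all p_LIMB
theorem fc3_all : S_FC3 := p_FC3 p_G2
theorem mixs_all : S_MIXS := p_MIXS p_LVT vols_all scov_all fc3_all (p_FPOS fc3_all fmon_all p_FES) fmon_all (p_V2 p_LVT)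
theorem asp_all : S_ASP := p_ASP p_RNG

theorem p4_all : S_P4 := p_P4 az_all volp_all p_LVT vols_all mixs_all asp_all (p_ASD asp_all)
  (p_LKS (p_MINUS p_ROS) p_PRIS) (p_FLIP p_LVT vols_all) p3_all

/-- the magnetisation with + boundary conditions tends to 0 at the critical point -/
theorem cz_all : Tendsto (fun n => corr XorIsing.bc (XorIsing.box n) {((0, 0) : V)}) atTop (𝓝 0) :=
  p_CZ sand_all cmon_all p_G1 p4_all

end CNL
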